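import Pool.Agent.MP_19ffc6_ag.LU3.PDef

/-! PROJECT LU3, ADJ: removal of a henselian element from the base. -/

namespace Pool.Agent.MP_19ffc6_ag.LU3

open Polynomial IntermediateField Pool.Agent.MP_19ffc6_ag.LU Mv

variable {k Ω : Type*} [Field k] [NontriviallyNormedField Ω] [Algebra k Ω]

namespace Adj

/-- The polynomials with coefficients in `F`. -/
noncomputable def ovr (F : IntermediateField k Ω) : Subsemiring (Polynomial Ω) := lifts (algebraMap F Ω)

theorem mem_ovr {F : IntermediateField k Ω} {P : Polynomial Ω} :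
    P ∈ ovr F ↔ ∀ i, P.coeff i ∈ F := by
  rw [ovr, lifts_iff_coeff_lifts]
  exact forall_congr' fun i => ⟨fun ⟨x, hx⟩ => hx ▸ x.2, fun h => ⟨⟨_, h⟩, rfl⟩⟩

theorem comp_mem {F : IntermediateField k Ω} {P Q : Polynomial Ω} (hP : P ∈ ovr F)
    (hQ : Q ∈ ovr F) : P.comp Q ∈ ovr F := by
  obtain ⟨P, rfl⟩ := (mem_lifts _).1 hP
  obtain ⟨Q, rfl⟩ := (mem_lifts _).1 hQ
  exact (mem_lifts _).2 ⟨P.comp Q, map_comp _ _ _⟩

theorem sub_mem' {F : IntermediateField k Ω} {P Q : Polynomial Ω} (hP : P ∈ ovr F)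
    (hQ : Q ∈ ovr F) : P - Q ∈ ovr F :=
  mem_ovr.2 fun i => by
    rw [coeff_sub]; exact sub_mem (mem_ovr.1 hP i) (mem_ovr.1 hQ i)

theorem C_mem {F : IntermediateField k Ω} {a : Ω} (h : a ∈ F) : C a ∈ ovr F :=
  mem_ovr.2 fun i => by rw [coeff_C]; split_ifs; exacts [h, F.zero_mem]

theorem hasse_mem {F : IntermediateField k Ω} {P : Polynomial Ω} (hP : P ∈ ovr F) (l : ℕ) :
    hasseDeriv l P ∈ ovr F :=
  mem_ovr.2 fun i => by
    rw [hasseDeriv_coeff]; exact mul_mem (F.natCast_mem _) (mem_ovr.1 hP _)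

end Adj

open Adj

variable [IsUltrametricDist Ω] [Ctx k Ω] [IsAlgClosed Ω]

theorem adj [DecidableEq Ω] : AdjStmt k Ω := by
  classical
  intro F y Z R m U θ hZ hm hU h0 hθ hR hest hPD GG hGG
  have hy : ‖y - y‖ < R := by simpa using hR
  set F' := F ⊔ adjoin k {θ} with hF'
  have hle : F ≤ F' := le_sup_left
  have hθ' : θ ∈ F' := Pd.self_mem F θ
  have hm' : m ∈ ovr F' := mem_ovr.2 fun i => hle (hm i)
  have hU' : U ∈ ovr F' := mem_ovr.2 fun i => hle (hU i)
  have hd' : m.derivative.comp U ∈ ovr F' := comp_mem (hasseDeriv_one' m ▸ hasse_mem hm' 1) hU'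
  have hC : ∀ a ∈ F', a ≠ 0 → NoRoot F' y R (C a) := fun a ha h =>
    ⟨mem_ovr.1 (C_mem ha), fun _ _ => by rwa [eval_C]⟩
  choose g hg h hh hh0 hgh using fun e : F =>
    exists_den (k := k) (Z := (Z : Set Ω)) (e := e) (hZ.ge e.2)
  have hhF : ∀ e, h e ∈ F' := fun e => hle (hZ ▸ algebra_adjoin_le_adjoin k _ (hh e))
  let f : ℕ → Polynomial Ω := fun l =>
    m.derivative.comp U - (hasseDeriv (l + 2) m).comp U * (C θ - U) ^ (l + 1)
  have hlt : ∀ l T, ‖T - y‖ < R → ‖(hasseDeriv (l + 2) m).eval (U.eval T) * (θ - U.eval T) ^ (l + 1)‖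
      < ‖m.derivative.eval (U.eval T)‖ := fun l T hT => by
    rw [norm_mul, norm_pow]; exact (hest T hT).2.2 (l + 2) (by omega)
  have hf : ∀ l T, (f l).eval T = m.derivative.eval (U.eval T) -
      (hasseDeriv (l + 2) m).eval (U.eval T) * (θ - U.eval T) ^ (l + 1) := fun l T => by
    simp [f, eval_comp]
  let S1 := m.support.image fun i => C (h ⟨_, hm i⟩)
  let S2 := U.support.image fun i => C (h ⟨_, hU i⟩)
  let S3 := (Finset.range (m.natDegree + 1)).image f
  let S4 : Finset (Polynomial Ω) := {U, m.derivative.comp U, C (if θ = 0 then 1 else θ)}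
  obtain ⟨ι, _, ξ, I, hch, hξ, hgd, hsp⟩ := hPD (GG ∪ (S1 ∪ S2) ∪ (S3 ∪ S4)) (by
    intro P hP
    simp only [S1, S2, S3, S4, Finset.mem_union, Finset.mem_image, Finset.mem_insert,
      Finset.mem_singleton] at hP
    rcases hP with (hP | ⟨i, -, rfl⟩ | ⟨i, -, rfl⟩) | ⟨l, -, rfl⟩ | rfl | rfl | rfl
    · exact ⟨fun i => hle ((hGG P hP).1 i), (hGG P hP).2⟩
    · exact hC _ (hhF _) (hh0 _)
    · exact hC _ (hhF _) (hh0 _)
    · refine ⟨mem_ovr.1 (sub_mem' hd' (mul_mem (comp_mem (hasse_mem hm' _) hU')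
        (pow_mem (sub_mem' (C_mem hθ') hU') _))), fun T hT h1 => ?_⟩
      rw [hf, sub_eq_zero] at h1
      exact (hlt l T hT).ne (by rw [h1])
    · exact ⟨mem_ovr.1 hU', fun T hT => (hest T hT).1⟩
    · exact ⟨mem_ovr.1 hd', fun T hT => by rw [eval_comp]; exact (hest T hT).2.1⟩
    · split_ifs with h1
      exacts [hC 1 (one_mem _) one_ne_zero, hC θ hθ' h1])
  refine ⟨ι, inferInstance, ξ, I, hch, fun i => hens_le_hens (sup_le (sup_le
    (le_sup_left.trans (le_hens _)) (adjoin_simple_le_iff.2 hθ)) (le_sup_right.trans (le_hens _)))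
    (hξ i), fun P hP => hgd P (by simp [hP]), fun A hA hZA => hsp A hA ?_⟩
  have hyA : y ∈ A := hZA (Set.mem_insert _ _)
  have hadj : Algebra.adjoin k (Z : Set Ω) ≤ A :=
    Algebra.adjoin_le fun z hz => hZA (Set.mem_insert_of_mem _ hz)
  have hco : ∀ e : F, Gd k ξ I (h e) → (e : Ω) ∈ A := fun e he => by
    rw [hgh e]; exact hA.div (hadj (hg e)) (hadj (hh e)) he
  have hmA : ∀ i, m.coeff i ∈ A := fun i => by
    by_cases hi : i ∈ m.support
    · refine hco ⟨_, hm i⟩ ?_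
      simpa using hgd (C (h ⟨_, hm i⟩)) (Finset.mem_union_left _ (Finset.mem_union_right _
        (Finset.mem_union_left _ (Finset.mem_image_of_mem _ hi))))
    · rw [notMem_support_iff.1 hi]; exact zero_mem _
  have hUA : ∀ i, U.coeff i ∈ A := fun i => by
    by_cases hi : i ∈ U.support
    · refine hco ⟨_, hU i⟩ ?_
      simpa using hgd (C (h ⟨_, hU i⟩)) (Finset.mem_union_left _ (Finset.mem_union_right _
        (Finset.mem_union_right _ (Finset.mem_image_of_mem _ hi))))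
    · rw [notMem_support_iff.1 hi]; exact zero_mem _
  have hθA : θ ∈ A := by
    by_cases h1 : θ = 0
    · rw [h1]; exact zero_mem _
    have g1 : Gd k ξ I (U.eval y) := hgd U (by simp [S4])
    have g2 : Gd k ξ I (m.derivative.eval (U.eval y)) := by
      rw [← eval_comp]; exact hgd _ (by simp [S4])
    have g3 : Gd k ξ I θ := by simpa [h1] using hgd (C (if θ = 0 then 1 else θ)) (by simp [S4])
    obtain ⟨n1, e1⟩ := g1.clear hch
    obtain ⟨n3, e3⟩ := g3.clear hch
    have hne := (hest y hy).2.1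
    refine hA.simple m hmA (Desc.eval_mem A _ hUA hyA) h0 hne g2 (κ := n1 + n3) ?_ fun l => ?_
    · rw [mul_sub, pow_add]
      refine sub_mem ?_ ?_
      · rw [mul_assoc]; exact mul_mem (pow_mem pi_mem_H _) e3
      · rw [mul_comm (_ ^ n1), mul_assoc]; exact mul_mem (pow_mem pi_mem_H _) e1
    by_cases hl : l ≤ m.natDegree
    swap
    · rw [hasseDeriv_eq_zero_of_lt_natDegree m _ (by omega)]; simp
    have g4 : Gd k ξ I ((f l).eval y) := hgd _ (Finset.mem_union_right _ (Finset.mem_union_left _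
      (Finset.mem_image_of_mem _ (Finset.mem_range.2 (Nat.lt_succ_of_le hl)))))
    have hpos : 0 < ‖m.derivative.eval (U.eval y)‖ := norm_pos_iff.2 hne
    have h2 := (g4.div hch g2).mem_of_norm hch (by
      rw [norm_div, hf, norm_sub_eq_left (hlt l y hy), div_self hpos.ne'])
    refine Hr.max hch.small ?_ (by rw [norm_div, div_lt_one hpos]; exact hlt l y hy)
    have h3 := sub_mem (one_mem _) h2
    rwa [hf, sub_div, div_self hne, sub_sub_cancel] at h3
  rw [Finset.coe_insert]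
  rintro x (rfl | rfl | hx)
  exacts [hyA, hθA, hZA (Set.mem_insert_of_mem _ hx)]

end Pool.Agent.MP_19ffc6_ag.LU3
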