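import Mathlib.Algebra.MvPolynomial.Funext
import Mathlib.Topology.Algebra.Valued.NormedValued
import Mathlib.RingTheory.Unramified.LocalStructure
import Mathlib.RingTheory.Valuation.Integral
import Mathlib.RingTheory.MvPolynomial.IrreducibleQuadratic
import Pool.Agent.MP_19ffc6_ag.LU.HensB
import Pool.Agent.MP_19ffc6_ag.LU.Perron
import Pool.Agent.MP_19ffc6_ag.LU.Smooth

-- ======== part 0: formerly Pool.Agent.MP_19ffc6_ag.LU3.Alb1
section MrgPart0

/-! Elementary Albanese projection, part 1: Noether normalization by a reduction. -/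

namespace Pool.Agent.MP_19ffc6_ag.LU.Alb

open Submodule Function

section generic

variable {k : Type*} [Field k]

/-- A nonzero polynomial does not vanish at a point reached by cofinite coordinate moves. -/
theorem exists_point [Infinite k] {ι : Type*} [Finite ι] [DecidableEq ι] (g : MvPolynomial ι k)
    (Φ : (ι → k) → Prop) (S0 : Set ι) (l0 m0 : ι → k) (h0 : ∀ i ∈ S0, l0 i = m0 i) (hΦ : Φ l0)
    (hg : MvPolynomial.eval m0 g ≠ 0)
    (hstep : ∀ l, Φ l → ∀ i, i ∉ S0 → {c : k | ¬ Φ (update l i c)}.Finite) :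
    ∃ l, Φ l ∧ MvPolynomial.eval l g ≠ 0 := by
  classical
  have : Fintype ι := Fintype.ofFinite ι
  have key : ∀ S : Finset ι, ∃ l m : ι → k, (∀ i, i ∈ S0 ∨ i ∈ S → l i = m i) ∧ Φ l ∧
      MvPolynomial.eval m g ≠ 0 := by
    intro S
    induction S using Finset.induction_on with
    | empty => exact ⟨l0, m0, by simpa using h0, hΦ, hg⟩
    | insert a S _ ih =>
      obtain ⟨l, m, h1, h2, h3⟩ := ih
      by_cases ha : a ∈ S0
      · refine ⟨l, m, fun i hi => h1 i ?_, h2, h3⟩
        rcases hi with hi | hi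
        · exact Or.inl hi
        · rcases Finset.mem_insert.1 hi with rfl | hi
          · exact Or.inl ha
          · exact Or.inr hi
      · let q : Polynomial k := MvPolynomial.aeval
          (fun j => if j = a then Polynomial.X else Polynomial.C (m j)) g
        have hq : ∀ c, q.eval c = MvPolynomial.eval (update m a c) g := fun c => by
          have h4 : ((Polynomial.aeval c).comp (MvPolynomial.aeval
              fun j => if j = a then Polynomial.X else Polynomial.C (m j)) :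
              MvPolynomial ι k →ₐ[k] k) = MvPolynomial.aeval (update m a c) := by
            ext j
            by_cases hj : j = a
            · subst hj; simp
            · simp [hj]
          have h5 := congrArg (fun φ : MvPolynomial ι k →ₐ[k] k => φ g) h4
          simpa [q, Polynomial.coe_aeval_eq_eval, MvPolynomial.coe_aeval_eq_eval] using h5
        have hq0 : q ≠ 0 := fun h => h3 (by
          have := hq (m a)
          rw [h, update_eq_self] at this
          simpa using this.symm)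
        have hfin : ({c : k | ¬ Φ (update l a c)} ∪ {c | q.IsRoot c}).Finite :=
          (hstep l h2 a ha).union (q.finite_setOfPred_isRoot hq0)
        obtain ⟨c, hc⟩ := hfin.infinite_compl.nonempty
        simp only [Set.mem_compl_iff, Set.mem_union, Set.mem_ofPred_eq, not_or, not_not] at hc
        refine ⟨update l a c, update m a c, fun i hi => ?_, hc.1, ?_⟩
        · by_cases hia : i = a
          · subst hia; simp
          · rw [update_of_ne hia, update_of_ne hia]
            refine h1 i ?_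
            rcases hi with hi | hi
            · exact Or.inl hi
            · exact Or.inr ((Finset.mem_insert.1 hi).resolve_left hia)
        · rw [← hq]; exact hc.2
  obtain ⟨l, m, h1, h2, h3⟩ := key Finset.univ
  have : l = m := funext fun i => h1 i (Or.inr (Finset.mem_univ i))
  exact ⟨l, h2, this ▸ h3⟩

theorem exists_eval_ne_zero [Infinite k] {ι : Type*} {g : MvPolynomial ι k} (hg : g ≠ 0) :
    ∃ l : ι → k, MvPolynomial.eval l g ≠ 0 := by
  by_contra h
  push Not at h
  exact hg (MvPolynomial.funext fun x => by simp [h x])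

end generic

section calculus

variable {k Ω : Type*} [Field k] [Field Ω] [Algebra k Ω]

/-- The part of `T ^ j` which involves `T'`. -/
def II (T' T : Submodule k Ω) : ℕ → Submodule k Ω
  | 0 => ⊥
  | j + 1 => T' * T ^ j

variable {T' T : Submodule k Ω}

theorem span_mul_span' (a b : Ω) : span k {a} * span k {b} = span k {a * b} := by
  rw [Submodule.span_mul_span, Set.singleton_mul_singleton]

theorem mul_II (j : ℕ) : T * II T' T j ≤ II T' T (j + 1) := by
  cases j with
  | zero => simp [II]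
  | succ j => exact le_of_eq (by simp only [II]; ring)

theorem II_le (h : T' ≤ T) (j : ℕ) : II T' T j ≤ T ^ j := by
  cases j with
  | zero => simp [II]
  | succ j => rw [II, pow_succ']; exact mul_le_mul_left h _

theorem rel_step {z m x : Ω} {a c : k} {j : ℕ} (hz : z ∈ T) (hm : m ∈ T) (hm' : m - a • z ∈ T')
    (hx : x - c • z ^ j ∈ II T' T j) : m * x - (a * c) • z ^ (j + 1) ∈ II T' T (j + 1) := by
  have h1 : m * x - (a * c) • z ^ (j + 1) =
      m * (x - c • z ^ j) + (m - a • z) * (c • z ^ j) := by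
    simp only [Algebra.smul_def, map_mul]; ring
  rw [h1]
  exact add_mem (mul_II j (mul_mem_mul hm hx))
    (mul_mem_mul hm' (smul_mem _ _ (pow_mem_pow T hz j)))

theorem pow_rel {z : Ω} (hz : z ∈ T) (hT : ∀ m ∈ T, ∃ a : k, m - a • z ∈ T') {j : ℕ} {x : Ω}
    (hx : x ∈ T ^ j) : ∃ c : k, x - c • z ^ j ∈ II T' T j := by
  induction hx using Submodule.pow_induction_on_left' with
  | algebraMap r => exact ⟨r, by simp [Algebra.smul_def]⟩
  | add x y i _ _ hx hy =>
    obtain ⟨c, hc⟩ := hx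
    obtain ⟨d, hd⟩ := hy
    refine ⟨c + d, ?_⟩
    have : x + y - (c + d) • z ^ i = (x - c • z ^ i) + (y - d • z ^ i) := by
      rw [add_smul]; ring
    rw [this]; exact add_mem hc hd
  | mem_mul m hm i x _ hx =>
    obtain ⟨c, hc⟩ := hx
    obtain ⟨a, ha⟩ := hT m hm
    exact ⟨a * c, rel_step hz hm ha hc⟩

theorem hom_rel {ι : Type*} {z : Ω} (hz : z ∈ T) (τ : ι → Ω) (l : ι → k) (hτ : ∀ i, τ i ∈ T)
    (hl : ∀ i, τ i - l i • z ∈ T') {j : ℕ} {g : MvPolynomial ι k} (hg : g.IsHomogeneous j) :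
    MvPolynomial.aeval τ g - MvPolynomial.eval l g • z ^ j ∈ II T' T j := by
  have hg' : g ∈ MvPolynomial.homogeneousSubmodule ι k 1 ^ j := by
    rw [MvPolynomial.homogeneousSubmodule_one_pow]; exact hg
  clear hg
  induction hg' using Submodule.pow_induction_on_left' with
  | algebraMap r => simp [Algebra.smul_def]
  | add x y i _ _ hx hy =>
    have : MvPolynomial.aeval τ (x + y) - MvPolynomial.eval l (x + y) • z ^ i =
        (MvPolynomial.aeval τ x - MvPolynomial.eval l x • z ^ i) +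
          (MvPolynomial.aeval τ y - MvPolynomial.eval l y • z ^ i) := by
      rw [map_add, map_add, add_smul]; ring
    rw [this]; exact add_mem hx hy
  | mem_mul m hm i x _ hx =>
    rw [map_mul, map_mul]
    have h1 : MvPolynomial.aeval τ m ∈ T ∧
        MvPolynomial.aeval τ m - MvPolynomial.eval l m • z ∈ T' := by
      rw [MvPolynomial.homogeneousSubmodule_one_eq_span_X] at hm
      induction hm using Submodule.span_induction with
      | mem x hx => obtain ⟨i, rfl⟩ := hx; simpa using ⟨hτ i, hl i⟩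
      | zero => simp
      | add x y _ _ hx hy =>
        refine ⟨by rw [map_add]; exact add_mem hx.1 hy.1, ?_⟩
        have : MvPolynomial.aeval τ (x + y) - MvPolynomial.eval l (x + y) • z =
            (MvPolynomial.aeval τ x - MvPolynomial.eval l x • z) +
              (MvPolynomial.aeval τ y - MvPolynomial.eval l y • z) := by
          rw [map_add, map_add, add_smul]; ring
        rw [this]; exact add_mem hx.2 hy.2
      | smul a x _ hx =>
        refine ⟨by rw [map_smul]; exact smul_mem _ _ hx.1, ?_⟩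
        have : MvPolynomial.aeval τ (a • x) - MvPolynomial.eval l (a • x) • z =
            a • (MvPolynomial.aeval τ x - MvPolynomial.eval l x • z) := by
          rw [map_smul, MvPolynomial.smul_eval, smul_sub, mul_smul]
        rw [this]; exact smul_mem _ _ hx.2
    exact rel_step hz h1.1 h1.2 hx

/-- The lowest and the highest form of a polynomial. -/
theorem exists_forms {ι : Type*} {f : MvPolynomial ι k} (hf : f ≠ 0) :
    ∃ o : ℕ, o ≤ f.totalDegree ∧ MvPolynomial.homogeneousComponent o f ≠ 0 ∧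
      MvPolynomial.homogeneousComponent f.totalDegree f ≠ 0 ∧
      f = ∑ j ∈ Finset.Icc o f.totalDegree, MvPolynomial.homogeneousComponent j f := by
  classical
  have hD : MvPolynomial.homogeneousComponent f.totalDegree f ≠ 0 := by
    obtain ⟨d, hd, h1⟩ := Finset.exists_mem_eq_sup f.support
      (MvPolynomial.support_nonempty.2 hf) fun s => s.sum fun _ e => e
    intro h
    have h2 := MvPolynomial.coeff_homogeneousComponent f.totalDegree f d
    rw [h, if_pos (by rw [MvPolynomial.totalDegree, h1]; rfl)] at h2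
    exact MvPolynomial.mem_support_iff.1 hd h2.symm
  have hex : ∃ o, MvPolynomial.homogeneousComponent o f ≠ 0 := ⟨_, hD⟩
  refine ⟨Nat.find hex, Nat.find_min' hex hD, Nat.find_spec hex, hD, ?_⟩
  conv_lhs => rw [← MvPolynomial.sum_homogeneousComponent f]
  symm
  refine Finset.sum_subset (fun j hj => ?_) fun j hj hj' => ?_
  · simp only [Finset.mem_Icc, Finset.mem_range] at hj ⊢; omega
  · by_contra h
    have := Nat.find_min' hex h
    simp only [Finset.mem_Icc, Finset.mem_range] at hj hj'; omega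

/-- Elements of degree less than `D` in `z` over `S`. -/
noncomputable def Lo (S : Subalgebra k Ω) (z : Ω) (D : ℕ) : Submodule k Ω :=
  ((Polynomial.degreeLT S D).map (Polynomial.aeval z).toLinearMap).restrictScalars k

theorem mem_Lo {S : Subalgebra k Ω} {z x : Ω} {D : ℕ} :
    x ∈ Lo S z D ↔ ∃ P : Polynomial S, P.degree < D ∧ Polynomial.aeval z P = x := by
  simp [Lo, Polynomial.mem_degreeLT]

theorem Lo_mono (S : Subalgebra k Ω) (z : Ω) {D E : ℕ} (h : D ≤ E) : Lo S z D ≤ Lo S z E := by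
  intro x hx
  obtain ⟨P, hP, rfl⟩ := mem_Lo.1 hx
  exact mem_Lo.2 ⟨P, hP.trans_le (by exact_mod_cast h), rfl⟩

theorem mul_mem_Lo {S : Subalgebra k Ω} {z x s : Ω} {D : ℕ} (hs : s ∈ S) (hx : x ∈ Lo S z D) :
    s * x ∈ Lo S z D := by
  obtain ⟨P, hP, rfl⟩ := mem_Lo.1 hx
  refine mem_Lo.2 ⟨(⟨s, hs⟩ : S) • P, (Polynomial.degree_smul_le _ _).trans_lt hP, ?_⟩
  rw [map_smul]; rfl

theorem z_mul_mem_Lo {S : Subalgebra k Ω} {z x : Ω} {D : ℕ} (hx : x ∈ Lo S z D) :
    z * x ∈ Lo S z (D + 1) := by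
  obtain ⟨P, hP, rfl⟩ := mem_Lo.1 hx
  refine mem_Lo.2 ⟨Polynomial.X * P, ?_, by simp⟩
  refine (Polynomial.degree_mul_le _ _).trans_lt ?_
  by_cases h0 : P = 0
  · simp [h0]
  · have h1 := Polynomial.degree_X_le (R := S)
    rw [Polynomial.degree_eq_natDegree h0] at hP ⊢
    have h2 : P.natDegree < D := by exact_mod_cast hP
    refine (add_le_add_left h1 _).trans_lt ?_
    have : 1 + P.natDegree < D + 1 := by omega
    exact_mod_cast this

theorem pow_le_Lo {S : Subalgebra k Ω} {z : Ω} (hS : ∀ x ∈ T', x ∈ S)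
    (hT : ∀ m ∈ T, ∃ a : k, m - a • z ∈ T') (j : ℕ) : T ^ j ≤ Lo S z (j + 1) := by
  induction j with
  | zero =>
    rw [pow_zero, Submodule.one_le]
    exact mem_Lo.2 ⟨1, (Polynomial.degree_one_le).trans_lt (by simp), by simp⟩
  | succ j ih =>
    rw [pow_succ', Submodule.mul_le]
    intro m hm x hx
    obtain ⟨a, ha⟩ := hT m hm
    have : m * x = (m - a • z) * x + a • (z * x) := by
      simp only [Algebra.smul_def]; ring
    rw [this]
    exact add_mem (Lo_mono S z (Nat.le_succ _) (mul_mem_Lo (hS _ ha) (ih hx)))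
      (smul_mem _ _ (z_mul_mem_Lo (ih hx)))

theorem II_le_Lo {S : Subalgebra k Ω} {z : Ω} (hS : ∀ x ∈ T', x ∈ S)
    (hT : ∀ m ∈ T, ∃ a : k, m - a • z ∈ T') (j : ℕ) : II T' T j ≤ Lo S z j := by
  cases j with
  | zero => simp [II]
  | succ j =>
    rw [II, Submodule.mul_le]
    exact fun m hm x hx => mul_mem_Lo (hS m hm) (pow_le_Lo hS hT j hx)

theorem isIntegral_of_mem_Lo {S : Subalgebra k Ω} {z : Ω} {D : ℕ} (h : z ^ D ∈ Lo S z D) :
    IsIntegral S z := by
  obtain ⟨P, hP, h1⟩ := mem_Lo.1 h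
  refine ⟨Polynomial.X ^ D - P, Polynomial.monic_X_pow_sub hP, ?_⟩
  rw [← Polynomial.aeval_def, map_sub, h1]; simp

/-- The algebra generated by `T`, as a subspace. -/
abbrev alg (T : Submodule k Ω) : Submodule k Ω := (Algebra.adjoin k (T : Set Ω)).toSubmodule

theorem le_alg (T : Submodule k Ω) : T ≤ alg T := fun _ hx => Algebra.subset_adjoin hx

theorem alg_mono (h : T' ≤ T) : alg T' ≤ alg T := fun _ hx => Algebra.adjoin_mono h hx

theorem alg_mul_alg (T : Submodule k Ω) : alg T * alg T = alg T :=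
  Subalgebra.isIdempotentElem_toSubmodule _

theorem pow_le_alg (T : Submodule k Ω) (j : ℕ) : T ^ j ≤ alg T := by
  induction j with
  | zero => rw [pow_zero, Submodule.one_le]; exact Subalgebra.one_mem _
  | succ j ih => rw [pow_succ, ← alg_mul_alg]; exact mul_le_mul' ih (le_alg T)

theorem II_le_mul_alg {o j : ℕ} (h : o + 1 ≤ j) : II T' T j ≤ T' * T ^ o * alg T := by
  obtain ⟨i, rfl⟩ := Nat.exists_eq_add_of_le h
  rw [show o + 1 + i = (o + i) + 1 by ring, II, pow_add, ← mul_assoc]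
  exact mul_le_mul_right (pow_le_alg T i) _

end calculus

section red

variable {k Ω : Type*} [Field k] [NontriviallyNormedField Ω] [IsUltrametricDist Ω] [Algebra k Ω]
  [Ctx k Ω]

variable (k Ω) in
/-- The elements of norm less than one. -/
def small : Submodule k Ω where
  carrier := {a | ‖a‖ < 1}
  add_mem' ha hb := norm_add_lt_of ha hb
  zero_mem' := by simp
  smul_mem' c _ ha := (norm_smul_le_self c _).trans_lt ha

theorem mem_small {a : Ω} : a ∈ small k Ω ↔ ‖a‖ < 1 := Iff.rfl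

theorem norm_le_of_mem_alg {T : Submodule k Ω} (hT : T ≤ small k Ω) {a : Ω} (ha : a ∈ alg T) :
    ‖a‖ ≤ 1 := norm_le_one_of_mem_adjoin (k := k) (fun _ h => (hT h).le) ha

theorem II_le_small {T' T : Submodule k Ω} (h : T' ≤ T) (hT : T ≤ small k Ω) (j : ℕ) :
    II T' T j ≤ small k Ω := by
  cases j with
  | zero => simp [II]
  | succ j =>
    rw [II, Submodule.mul_le]
    intro m hm x hx
    rw [mem_small, norm_mul]
    exact mul_lt_one_of_nonneg_of_lt_one_left (norm_nonneg _) (hT (h hm))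
      (norm_le_of_mem_alg hT (pow_le_alg T j hx))

/-- A polynomial in a small element is a power times a unit. -/
theorem exists_unit_part {z : Ω} (hz : ‖z‖ < 1) (c : ℕ → k) {o D : ℕ} (h : o ≤ D) (hc : c o ≠ 0) :
    ∃ e ∈ Algebra.adjoin k ({z} : Set Ω), ‖e‖ = 1 ∧
      ∑ j ∈ Finset.Icc o D, c j • z ^ j = z ^ o * e := by
  refine ⟨∑ j ∈ Finset.Icc o D, c j • z ^ (j - o), Subalgebra.sum_mem _ fun j _ =>
    Subalgebra.smul_mem _ (pow_mem (Algebra.self_mem_adjoin_singleton k z) _) _, ?_, ?_⟩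
  · rw [← Finset.add_sum_erase _ _ (Finset.mem_Icc.2 ⟨le_rfl, h⟩)]
    have h1 : ‖c o • z ^ (o - o)‖ = 1 := by rw [norm_smul_eq_self hc]; simp
    rw [norm_add_eq_left, h1]
    rw [h1]
    refine norm_sum_lt_of one_pos fun j hj => (norm_smul_le_self _ _).trans_lt ?_
    rw [norm_pow]
    refine pow_lt_one₀ (norm_nonneg _) hz ?_
    simp only [Finset.mem_erase, Finset.mem_Icc] at hj; omega
  · rw [Finset.mul_sum]
    refine Finset.sum_congr rfl fun j hj => ?_
    rw [mul_smul_comm, ← pow_add, Nat.add_sub_cancel' (Finset.mem_Icc.1 hj).1]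

/-- `B` generates a reduction of the maximal ideal of `k[T]`, and `k[T]` is integral over
`k[B]`. -/
structure Red (T B : Submodule k Ω) : Prop where
  le : B ≤ T
  int : ∀ S : Subalgebra k Ω, (∀ x, IsIntegral S x → x ∈ S) → (∀ x ∈ B, x ∈ S) → ∀ x ∈ T, x ∈ S
  red : ∃ c : ℕ, ∀ l : ℕ, ∃ e ∈ alg T, ‖e‖ = 1 ∧ span k {e} * T ^ (l + c) ≤ B ^ l * alg T

omit [IsUltrametricDist Ω] [Ctx k Ω] in
theorem Red.refl (T : Submodule k Ω) : Red T T :=
  ⟨le_rfl, fun _ _ h => h, 0, fun l => ⟨1, Subalgebra.one_mem _, norm_one, by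
    rw [← Submodule.one_eq_span, one_mul, add_zero]
    conv_lhs => rw [← mul_one (T ^ l)]
    exact mul_le_mul_right (Submodule.one_le.2 (Subalgebra.one_mem _)) _⟩⟩

omit [IsUltrametricDist Ω] [Ctx k Ω] in
theorem Red.trans {T T' B : Submodule k Ω} (h : Red T T') (h' : Red T' B) : Red T B := by
  refine ⟨h'.le.trans h.le, fun S hS hB => h.int S hS (h'.int S hS hB), ?_⟩
  obtain ⟨c, hc⟩ := h.red
  obtain ⟨c', hc'⟩ := h'.red
  refine ⟨c' + c, fun l => ?_⟩
  obtain ⟨e, he, he1, h1⟩ := hc (l + c')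
  obtain ⟨e', he', he1', h2⟩ := hc' l
  refine ⟨e' * e, Subalgebra.mul_mem _ (alg_mono h.le he') he, by simp [he1, he1'], ?_⟩
  calc span k {e' * e} * T ^ (l + (c' + c))
      = span k {e'} * (span k {e} * T ^ (l + c' + c)) := by
        rw [← span_mul_span', add_assoc, mul_assoc]
    _ ≤ span k {e'} * (T' ^ (l + c') * alg T) := mul_le_mul_right h1 _
    _ = (span k {e'} * T' ^ (l + c')) * alg T := by rw [mul_assoc]
    _ ≤ (B ^ l * alg T') * alg T := mul_le_mul_left h2 _
    _ ≤ (B ^ l * alg T) * alg T := mul_le_mul_left (mul_le_mul_right (alg_mono h.le) _) _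
    _ = B ^ l * alg T := by rw [mul_assoc, alg_mul_alg]

/-- One elimination step. -/
theorem red_step {T' T : Submodule k Ω} (h : T' ≤ T) (hs : T ≤ small k Ω) {z : Ω} (hz : z ∈ T)
    (hT : ∀ m ∈ T, ∃ a : k, m - a • z ∈ T') (c : ℕ → k) (y : ℕ → Ω) {o D : ℕ} (hoD : o ≤ D)
    (hc : c o ≠ 0) (hD : c D ≠ 0) (hy : ∀ j, y j ∈ II T' T j)
    (h0 : ∑ j ∈ Finset.Icc o D, (c j • z ^ j + y j) = 0) : Red T T' := by
  rw [Finset.sum_add_distrib, add_eq_zero_iff_eq_neg] at h0
  obtain ⟨e, he, he1, h1⟩ := exists_unit_part (hs hz) c hoD hc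
  have heT : e ∈ alg T := Algebra.adjoin_mono (Set.singleton_subset_iff.2 hz) he
  have ho : o ≠ 0 := by
    rintro rfl
    have h2 : e ∈ small k Ω := by
      rw [pow_zero, one_mul] at h1
      rw [← h1, h0]
      exact neg_mem (sum_mem fun j _ => II_le_small h hs j (hy j))
    exact absurd he1 (ne_of_lt h2)
  obtain ⟨o, rfl⟩ := Nat.exists_eq_succ_of_ne_zero ho
  refine ⟨h, fun S hS hB => ?_, o, fun l => ⟨e ^ l, Subalgebra.pow_mem _ heT _, by simp [he1], ?_⟩⟩
  · have h2 : z ∈ S := by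
      refine hS z (isIntegral_of_mem_Lo (D := D) ?_)
      rw [← Finset.add_sum_erase _ _ (Finset.mem_Icc.2 ⟨hoD, le_rfl⟩), ← eq_sub_iff_add_eq] at h0
      rw [← smul_mem_iff _ hD, h0]
      refine sub_mem (neg_mem (sum_mem fun j hj => ?_)) (sum_mem fun j hj => smul_mem _ _ ?_)
      · exact Lo_mono S z (Finset.mem_Icc.1 hj).2 (II_le_Lo hB hT j (hy j))
      · refine Lo_mono S z ?_ (pow_le_Lo hB hT j (pow_mem_pow T hz j))
        simp only [Finset.mem_erase, Finset.mem_Icc] at hj; omega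
    intro x hx
    obtain ⟨a, ha⟩ := hT x hx
    have := add_mem (hB _ ha) (Subalgebra.smul_mem _ h2 a)
    rwa [sub_add_cancel] at this
  · have h2 : span k {e} * T ^ (o + 1) ≤ T' * T ^ o * alg T := by
      rw [Submodule.mul_le]
      intro e' he' x hx
      obtain ⟨a, rfl⟩ := mem_span_singleton.1 he'
      obtain ⟨b, hb⟩ := pow_rel hz hT hx
      have h3 : a • e * x = a • ((x - b • z ^ (o + 1)) * e + b • (z ^ (o + 1) * e)) := by
        simp only [Algebra.smul_def]; ring
      rw [h3]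
      refine smul_mem _ _ (add_mem (mul_mem_mul hb heT) (smul_mem _ _ ?_))
      rw [← h1, h0]
      exact neg_mem (sum_mem fun j hj => II_le_mul_alg (Finset.mem_Icc.1 hj).1 (hy j))
    have h3 : span k {e ^ l} * T ^ (l + o) ≤ T' ^ l * T ^ o * alg T := by
      induction l with
      | zero =>
        rw [pow_zero, pow_zero, ← Submodule.one_eq_span, zero_add, one_mul]
        conv_lhs => rw [← mul_one (T ^ o)]
        exact mul_le_mul_right (Submodule.one_le.2 (Subalgebra.one_mem _)) _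
      | succ l ih =>
        calc span k {e ^ (l + 1)} * T ^ (l + 1 + o)
            = (span k {e ^ l} * T ^ (l + o)) * (span k {e} * T) := by
              rw [pow_succ e, ← span_mul_span']; ring
          _ ≤ (T' ^ l * T ^ o * alg T) * (span k {e} * T) := mul_le_mul_left ih _
          _ = (T' ^ l * alg T) * (span k {e} * T ^ (o + 1)) := by ring
          _ ≤ (T' ^ l * alg T) * (T' * T ^ o * alg T) := mul_le_mul_right h2 _
          _ = T' ^ (l + 1) * T ^ o * (alg T * alg T) := by ring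
          _ = _ := by rw [alg_mul_alg]
    refine h3.trans ?_
    rw [mul_assoc]
    refine mul_le_mul_right ?_ _
    conv_rhs => rw [← alg_mul_alg]
    exact mul_le_mul_left (pow_le_alg T o) _

/-- Noether normalization by a reduction, keeping a generic property `Φ`. -/
theorem nn [Infinite k] {σ : Type*} [Finite σ] [DecidableEq σ] (T0 : Submodule k Ω)
    (hs : T0 ≤ small k Ω)
    (dep : ∀ τ : Option σ → Ω, (∀ i, τ i ∈ T0) → ¬ AlgebraicIndependent k τ)
    (Φ : (σ → Ω) → Prop)
    (hΦ : ∀ τ : σ → Ω, (∀ i, τ i ∈ T0) → Φ τ → ∀ i, ∀ z ∈ T0,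
      {c : k | ¬ Φ (update τ i (τ i - c • z))}.Finite)
    (W : Finset Ω) (hW : ∀ w ∈ W, w ∈ T0) (b : σ → Ω) (hb : ∀ i, b i ∈ T0) (h : Φ b) :
    ∃ b' : σ → Ω, (∀ i, b' i ∈ T0) ∧ Φ b' ∧
      Red (span k (Set.range b ∪ W)) (span k (Set.range b')) := by
  classical
  induction W using Finset.induction_on generalizing b with
  | empty => exact ⟨b, hb, h, by simpa using Red.refl _⟩
  | insert w W _ ih =>
    have hw : w ∈ T0 := hW w (Finset.mem_insert_self _ _)
    let τ : Option σ → Ω := fun i => i.elim w b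
    have hdep := dep τ fun i => by cases i <;> simp [τ, hw, hb]
    rw [algebraicIndependent_iff] at hdep
    push Not at hdep
    obtain ⟨f, hf, hf0⟩ := hdep
    obtain ⟨o, hoD, ho, hD, hsum⟩ := exists_forms hf0
    have hg : MvPolynomial.homogeneousComponent o f *
        MvPolynomial.homogeneousComponent f.totalDegree f ≠ 0 := mul_ne_zero ho hD
    obtain ⟨m0, hm0⟩ := exists_eval_ne_zero (mul_ne_zero hg (MvPolynomial.X_ne_zero none))
    rw [map_mul, MvPolynomial.eval_X] at hm0
    set z : Ω := (m0 none)⁻¹ • w with hzdef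
    have hzT : z ∈ T0 := smul_mem _ _ hw
    have hm : m0 none ≠ 0 := right_ne_zero_of_mul hm0
    obtain ⟨l, ⟨hl0, hl⟩, hl2⟩ := exists_point _
      (fun l : Option σ → k => l none = m0 none ∧ Φ fun i => b i - l (some i) • z) {none}
      (Pi.single none (m0 none)) m0 (by simp) (by simpa using h) (left_ne_zero_of_mul hm0) (by
        rintro l ⟨h1, h2⟩ i hi
        obtain ⟨i, rfl⟩ := Option.ne_none_iff_exists.1 hi
        have h3 := hΦ _ (fun j => sub_mem (hb j) (smul_mem _ _ hzT)) h2 i z hzT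
        refine (h3.image fun c => l (some i) + c).subset fun c hc => ⟨c - l (some i), ?_, by simp⟩
        intro h4
        refine hc ⟨by simpa using h1, ?_⟩
        have h5 : (fun j => b j - update l (some i) c (some j) • z) =
            update (fun j => b j - l (some j) • z) i
              (b i - l (some i) • z - (c - l (some i)) • z) := by
          funext j
          by_cases hj : j = i
          · subst hj; simp [sub_smul]
          · simp [hj]
        rw [h5]; exact h4)
    obtain ⟨b', hb', hΦ', hred⟩ := ih (fun x hx => hW x (Finset.mem_insert_of_mem hx))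
      (fun i => b i - l (some i) • z) (fun j => sub_mem (hb j) (smul_mem _ _ hzT)) hl
    refine ⟨b', hb', hΦ', Red.trans ?_ hred⟩
    set T : Submodule k Ω := span k (Set.range b ∪ ↑(insert w W)) with hT
    set T' : Submodule k Ω := span k (Set.range (fun i => b i - l (some i) • z) ∪ ↑W) with hT'
    have hwT : w ∈ T := subset_span (Or.inr (by simp))
    have hbT : ∀ i, b i ∈ T := fun i => subset_span (Or.inl ⟨i, rfl⟩)
    have hz : z ∈ T := smul_mem _ _ hwT
    have hτ : ∀ i, τ i - l i • z ∈ T' := by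
      rintro (_ | i)
      · simp [τ, hzdef, hl0, smul_smul, hm]
      · exact subset_span (Or.inl ⟨i, rfl⟩)
    have hle : T' ≤ T := span_le.2 (by
      rintro _ (⟨i, rfl⟩ | hx)
      · exact sub_mem (hbT i) (smul_mem _ _ hz)
      · exact subset_span (Or.inr (by simp [Finset.mem_coe.1 hx])))
    have hT0 : T ≤ T0 := span_le.2 (by
      rintro _ (⟨i, rfl⟩ | hx)
      · exact hb i
      · exact hW _ hx)
    have hdec : ∀ m ∈ T, ∃ a : k, m - a • z ∈ T' := by
      intro m hm
      induction hm using Submodule.span_induction with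
      | mem x hx =>
        rcases hx with ⟨i, rfl⟩ | hx
        · exact ⟨_, hτ (some i)⟩
        · rcases Finset.mem_insert.1 (Finset.mem_coe.1 hx) with rfl | hx
          · exact ⟨_, hτ none⟩
          · have h3 : x ∈ T' := subset_span (Or.inr hx)
            exact ⟨0, by simpa using h3⟩
      | zero => exact ⟨0, by simp⟩
      | add x y _ _ hx hy =>
        obtain ⟨a, ha⟩ := hx
        obtain ⟨a', ha'⟩ := hy
        refine ⟨a + a', ?_⟩
        have : x + y - (a + a') • z = (x - a • z) + (y - a' • z) := by rw [add_smul]; ring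
        rw [this]; exact add_mem ha ha'
      | smul c x _ hx =>
        obtain ⟨a, ha⟩ := hx
        refine ⟨c * a, ?_⟩
        rw [mul_smul, ← smul_sub]; exact smul_mem _ _ ha
    rw [map_mul] at hl2
    refine red_step hle (hT0.trans hs) hz hdec
      (fun j => MvPolynomial.eval l (MvPolynomial.homogeneousComponent j f))
      (fun j => MvPolynomial.aeval τ (MvPolynomial.homogeneousComponent j f) -
        MvPolynomial.eval l (MvPolynomial.homogeneousComponent j f) • z ^ j) hoD
      (left_ne_zero_of_mul hl2) (right_ne_zero_of_mul hl2)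
      (fun j => hom_rel hz τ l (by rintro (_ | i); exacts [hwT, hbT i]) hτ
        (MvPolynomial.homogeneousComponent_isHomogeneous j f)) ?_
    simp only [add_sub_cancel]
    rw [← map_sum, ← hsum, hf]

/-- A function which is affine in a parameter keeps its norm for all values but one. -/
theorem finite_bad {a b : Ω} {ρ : ℝ} (h : ρ ≤ ‖a‖) : {c : k | ¬ ρ ≤ ‖a - c • b‖}.Finite := by
  refine Set.Subsingleton.finite fun c hc d hd => ?_
  by_contra hne
  simp only [Set.mem_ofPred_eq, not_le] at hc hd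
  have h1 : ‖(d - c) • b‖ < ρ := by
    have : (d - c) • b = (a - c • b) - (a - d • b) := by rw [sub_smul]; ring
    rw [this]; exact norm_sub_lt_of hc hd
  rw [norm_smul_eq_self (sub_ne_zero.2 (Ne.symm hne))] at h1
  have h2 : ‖a - c • b‖ = ‖a‖ :=
    norm_sub_eq_left (((norm_smul_le_self c b).trans_lt h1).trans_le h)
  linarith

end red

end Pool.Agent.MP_19ffc6_ag.LU.Alb

end MrgPart0

-- ======== part 1: formerly Pool.Agent.MP_19ffc6_ag.LU3.Alb2
section MrgPart1

/-! Elementary Albanese projection, part 2: the lower bound for the multiplicity. -/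

namespace Pool.Agent.MP_19ffc6_ag.LU.Alb

open Submodule Function

variable {k Ω : Type*} [Field k] [NontriviallyNormedField Ω] [IsUltrametricDist Ω] [Algebra k Ω]
  [Ctx k Ω]

omit [Ctx k Ω] in
theorem norm_le_one_of_isIntegral {S : Subalgebra k Ω} (hS : ∀ a ∈ S, ‖a‖ ≤ 1) {x : Ω}
    (hx : IsIntegral S x) : ‖x‖ ≤ 1 := by
  obtain ⟨P, hP, h0⟩ := hx
  by_contra h
  push Not at h
  rw [← Polynomial.aeval_def, hP.as_sum, map_add, map_sum, map_pow, Polynomial.aeval_X,
    add_eq_zero_iff_eq_neg] at h0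
  have h1 : ‖∑ i ∈ Finset.range P.natDegree,
      Polynomial.aeval x (Polynomial.C (P.coeff i) * Polynomial.X ^ i)‖ < ‖x‖ ^ P.natDegree := by
    refine norm_sum_lt_of (by positivity) fun i hi => ?_
    rw [map_mul, map_pow, Polynomial.aeval_X, Polynomial.aeval_C, norm_mul, norm_pow]
    exact (mul_le_of_le_one_left (by positivity) (hS _ (P.coeff i).2)).trans_lt
      (pow_lt_pow_right₀ h (Finset.mem_range.1 hi))
  rw [← norm_neg, ← h0, norm_pow] at h1
  exact lt_irrefl _ h1

/-- The integral closure of a subalgebra. -/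
def intC (R : Subalgebra k Ω) : Subalgebra k Ω := (integralClosure R Ω).restrictScalars k

omit [IsUltrametricDist Ω] [Ctx k Ω] in
theorem mem_intC {R : Subalgebra k Ω} {x : Ω} : x ∈ intC R ↔ IsIntegral R x := Iff.rfl

omit [IsUltrametricDist Ω] [Ctx k Ω] in
theorem le_intC {R : Subalgebra k Ω} {x : Ω} (h : x ∈ R) : x ∈ intC R :=
  isIntegral_algebraMap (R := R) (x := (⟨x, h⟩ : R))

omit [IsUltrametricDist Ω] [Ctx k Ω] in
theorem intC_closed (R : Subalgebra k Ω) (x : Ω) (h : IsIntegral (intC R) x) : x ∈ intC R :=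
  isIntegral_trans (R := R) (A := integralClosure R Ω) x h

theorem aeval_sub_mem_small {σ : Type*} {b : σ → Ω} (hs : ∀ i, ‖b i‖ < 1) (g : MvPolynomial σ k) :
    ‖MvPolynomial.aeval b g‖ ≤ 1 ∧
      MvPolynomial.aeval b g - algebraMap k Ω (MvPolynomial.constantCoeff g) ∈ small k Ω := by
  induction g using MvPolynomial.induction_on with
  | C a => exact ⟨by simpa using norm_alg_le a, by simp⟩
  | add f g hf hg =>
    refine ⟨by rw [map_add]; exact norm_add_le_of hf.1 hg.1, ?_⟩
    rw [map_add, map_add, map_add, add_sub_add_comm]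
    exact add_mem hf.2 hg.2
  | mul_X f i hf =>
    have : ‖MvPolynomial.aeval b (f * MvPolynomial.X i)‖ < 1 := by
      rw [map_mul, MvPolynomial.aeval_X, norm_mul]
      exact mul_lt_one_of_nonneg_of_lt_one_right hf.1 (norm_nonneg _) (hs i)
    exact ⟨this.le, by simpa [mem_small] using this⟩

/-- A branch through the centre which lies over a given line. -/
theorem exists_curve {σ : Type*} {b : σ → Ω} (hb : AlgebraicIndependent k b)
    (hs : ∀ i, ‖b i‖ < 1) (l : σ → k) {i0 : σ} (h0 : l i0 ≠ 0) :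
    ∃ PP : Submodule k Ω, PP ≤ small k Ω ∧
      (∀ x ∈ PP, ∀ y ∈ intC (Algebra.adjoin k (Set.range b)), x * y ∈ PP) ∧
      (∀ i, b i - l i • (l i0)⁻¹ • b i0 ∈ PP) ∧
      ∀ y ∈ intC (Algebra.adjoin k (Set.range b)), ((l i0)⁻¹ • b i0) * y ∈ PP → y ∈ PP := by
  set R := Algebra.adjoin k (Set.range b) with hR
  have hR1 : ∀ a ∈ R, ‖a‖ ≤ 1 := fun a ha =>
    norm_le_one_of_mem_adjoin (k := k) (by rintro _ ⟨i, rfl⟩; exact (hs i).le) ha
  have : IsIntegrallyClosed R := IsIntegrallyClosed.of_equiv hb.aevalEquiv.toRingEquiv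
  have : FaithfulSMul R (integralClosure R Ω) :=
    (faithfulSMul_iff_algebraMap_injective _ _).2 fun x y h =>
      Subtype.ext (congrArg (fun z : integralClosure R Ω => (z : Ω)) h)
  let 𝔐 : Ideal (integralClosure R Ω) :=
    { carrier := {x | ‖(x : Ω)‖ < 1}
      add_mem' := fun ha hb => norm_add_lt_of ha hb
      zero_mem' := by simp
      smul_mem' := fun c x hx => by
        change ‖(c : Ω) * x‖ < 1
        rw [norm_mul]
        exact mul_lt_one_of_nonneg_of_lt_one_right (norm_le_one_of_isIntegral hR1 c.2)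
          (norm_nonneg _) hx }
  have : 𝔐.IsPrime := by
    refine ⟨fun h => ?_, fun {x y} h => ?_⟩
    · have h1 : (1 : integralClosure R Ω) ∈ 𝔐 := h ▸ Submodule.mem_top
      change ‖((1 : integralClosure R Ω) : Ω)‖ < 1 at h1
      simp at h1
    · change ‖(x : Ω) * y‖ < 1 at h
      by_contra h1
      push Not at h1
      have hx : 1 ≤ ‖(x : Ω)‖ := not_lt.1 h1.1
      have hy : 1 ≤ ‖(y : Ω)‖ := not_lt.1 h1.2
      rw [norm_mul] at h
      exact absurd (one_le_mul_of_one_le_of_one_le hx hy) (not_le.2 h)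
  let χ : MvPolynomial σ k →ₐ[k] Polynomial k :=
    MvPolynomial.aeval fun i => Polynomial.C (l i) * Polynomial.X
  let ψ : R →ₐ[k] Polynomial k := χ.comp hb.aevalEquiv.symm.toAlgHom
  have hψ : ∀ g, ψ (hb.aevalEquiv g) = χ g := fun g => by simp [ψ]
  have hval : ∀ g, ((hb.aevalEquiv g : R) : Ω) = MvPolynomial.aeval b g :=
    fun g => hb.algebraMap_aevalEquiv g
  have : (RingHom.ker ψ).IsPrime := RingHom.ker_isPrime ψ
  have hle : RingHom.ker ψ ≤ 𝔐.under R := by
    intro r hr
    obtain ⟨g, rfl⟩ := hb.aevalEquiv.surjective r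
    rw [RingHom.mem_ker, hψ] at hr
    have h1 : (Polynomial.evalRingHom 0).comp (χ : MvPolynomial σ k →+* Polynomial k) =
        MvPolynomial.constantCoeff := by
      ext i <;> simp [χ]
    have h2 : MvPolynomial.constantCoeff g = 0 := by
      rw [← h1]; simp [hr]
    have h3 := (aeval_sub_mem_small hs g).2
    rw [h2, map_zero, sub_zero, ← hval] at h3
    exact h3
  obtain ⟨P, hP𝔐, hP, hover⟩ := Ideal.exists_ideal_le_liesOver_of_le 𝔐 hle
  have hmem : ∀ g, algebraMap R (integralClosure R Ω) (hb.aevalEquiv g) ∈ P ↔ χ g = 0 := fun g => by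
    rw [← hψ, ← RingHom.mem_ker, P.over_def (RingHom.ker ψ)]; rfl
  refine ⟨{ carrier := {x | ∃ y ∈ P, (y : Ω) = x}
            add_mem' := ?_
            zero_mem' := ⟨0, P.zero_mem, rfl⟩
            smul_mem' := ?_ }, ?_, ?_, ?_, ?_⟩
  · rintro _ _ ⟨x, hx, rfl⟩ ⟨y, hy, rfl⟩
    exact ⟨x + y, P.add_mem hx hy, rfl⟩
  · rintro c _ ⟨x, hx, rfl⟩
    exact ⟨⟨algebraMap k Ω c, le_intC (R.algebraMap_mem c)⟩ * x, P.mul_mem_left _ hx,
      (Algebra.smul_def c _).symm⟩
  · rintro _ ⟨x, hx, rfl⟩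
    exact hP𝔐 hx
  · rintro _ ⟨x, hx, rfl⟩ y hy
    exact ⟨x * ⟨y, hy⟩, P.mul_mem_right _ hx, rfl⟩
  · intro i
    refine ⟨_, (hmem (MvPolynomial.X i - l i • (l i0)⁻¹ • MvPolynomial.X i0)).2 ?_, ?_⟩
    · simp [χ, Polynomial.smul_eq_C_mul, ← mul_assoc, ← map_mul, h0]
    · refine (hval _).trans ?_
      simp
  · rintro y hy ⟨x, hx, h⟩
    have h1 : x = algebraMap R _ (hb.aevalEquiv ((l i0)⁻¹ • MvPolynomial.X i0)) * ⟨y, hy⟩ := by
      refine Subtype.ext (h.trans ?_)
      change _ = ((hb.aevalEquiv ((l i0)⁻¹ • MvPolynomial.X i0) : R) : Ω) * y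
      rw [hval]; simp
    rw [h1] at hx
    rcases hP.mem_or_mem hx with h2 | h2
    · rw [hmem] at h2
      simp [χ, h0] at h2
    · exact ⟨_, h2, rfl⟩

/-- A polynomial which lies, up to a unit, in a power of the maximal ideal extended to the
integral closure has large order. -/
theorem eq_zero_of_mem [Infinite k] {σ : Type*} {b : σ → Ω} (hb : AlgebraicIndependent k b)
    (hs : ∀ i, ‖b i‖ < 1) {Q : MvPolynomial σ k} {l : ℕ} (hQ : Q.totalDegree < l) {E : Ω}
    (hE : E ∈ intC (Algebra.adjoin k (Set.range b))) (hE1 : ‖E‖ = 1)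
    (h : E * MvPolynomial.aeval b Q ∈
      span k (Set.range b) ^ l * (intC (Algebra.adjoin k (Set.range b))).toSubmodule) :
    Q = 0 := by
  by_contra hQ0
  rcases isEmpty_or_nonempty σ with hσ | ⟨⟨i0⟩⟩
  · obtain ⟨l, rfl⟩ := Nat.exists_eq_succ_of_ne_zero (Nat.ne_zero_of_lt hQ)
    rw [Set.range_eq_empty, span_empty, pow_succ, mul_bot, bot_mul, mem_bot, mul_eq_zero] at h
    rcases h with h | h
    · simp [h] at hE1
    · exact hQ0 (hb.eq_zero_of_aeval_eq_zero _ h)
  set R := Algebra.adjoin k (Set.range b) with hR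
  have hR1 : ∀ a ∈ intC R, ‖a‖ ≤ 1 := fun a ha => norm_le_one_of_isIntegral (fun a ha =>
    norm_le_one_of_mem_adjoin (k := k) (by rintro _ ⟨i, rfl⟩; exact (hs i).le) ha) ha
  obtain ⟨o, hoD, ho, -, hsum⟩ := exists_forms hQ0
  obtain ⟨m, hm⟩ := exists_eval_ne_zero (mul_ne_zero ho (MvPolynomial.X_ne_zero i0))
  rw [map_mul, MvPolynomial.eval_X] at hm
  obtain ⟨PP, hP1, hP2, hP3, hP4⟩ := exists_curve hb hs m (right_ne_zero_of_mul hm)
  set z : Ω := (m i0)⁻¹ • b i0 with hzdef
  set T : Submodule k Ω := span k (Set.range b) with hT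
  have hbT : ∀ i, b i ∈ T := fun i => subset_span ⟨i, rfl⟩
  have hz : z ∈ T := smul_mem _ _ (hbT i0)
  have hz1 : ‖z‖ < 1 := (norm_smul_le_self _ _).trans_lt (hs i0)
  have halg : ∀ x ∈ alg T, x ∈ intC R := fun x hx => le_intC (by
    rwa [alg, hT, Subalgebra.mem_toSubmodule, Algebra.adjoin_span] at hx)
  have hII : ∀ j, II PP T j ≤ PP := by
    rintro (_ | j)
    · simp [II]
    · rw [II, Submodule.mul_le]
      exact fun x hx y hy => hP2 x hx y (halg y (pow_le_alg T j hy))
  have hdec : ∀ x ∈ T, ∃ a : k, x - a • z ∈ PP := by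
    intro x hx
    have h1 : T ≤ PP ⊔ span k {z} := span_le.2 (by
      rintro _ ⟨i, rfl⟩
      have : b i = (b i - m i • z) + m i • z := by ring
      rw [this]
      exact add_mem (mem_sup_left (hP3 i)) (mem_sup_right (smul_mem _ _ (mem_span_singleton_self z))))
    obtain ⟨y, hy, w, hw, rfl⟩ := mem_sup.1 (h1 hx)
    obtain ⟨a, rfl⟩ := mem_span_singleton.1 hw
    exact ⟨a, by simpa using hy⟩
  obtain ⟨e, he, he1, h1⟩ := exists_unit_part hz1
    (fun j => MvPolynomial.eval m (MvPolynomial.homogeneousComponent j Q)) hoD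
    (left_ne_zero_of_mul hm)
  have heR : e ∈ intC R := halg e (Algebra.adjoin_mono (Set.singleton_subset_iff.2 hz) he)
  have h2 : MvPolynomial.aeval b Q - z ^ o * e ∈ PP := by
    rw [← h1]
    conv => enter [2, 1]; rw [hsum, map_sum]
    rw [← Finset.sum_sub_distrib]
    exact sum_mem fun j _ => hII j (hom_rel hz b m hbT hP3
      (MvPolynomial.homogeneousComponent_isHomogeneous j Q))
  have h3 : ∀ x ∈ T ^ l * (intC R).toSubmodule, ∃ y ∈ intC R, x - z ^ l * y ∈ PP := by
    intro x hx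
    induction hx using Submodule.mul_induction_on' with
    | mem_mul_mem x hx y hy =>
      obtain ⟨c, hc⟩ := pow_rel hz hdec hx
      refine ⟨c • y, Subalgebra.smul_mem _ hy c, ?_⟩
      have : x * y - z ^ l * c • y = (x - c • z ^ l) * y := by
        simp only [Algebra.smul_def]; ring
      rw [this]; exact hP2 _ (hII l hc) y hy
    | add x _ x' _ hx hx' =>
      obtain ⟨y, hy, h4⟩ := hx
      obtain ⟨y', hy', h5⟩ := hx'
      refine ⟨y + y', add_mem hy hy', ?_⟩
      have : x + x' - z ^ l * (y + y') = (x - z ^ l * y) + (x' - z ^ l * y') := by ring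
      rw [this]; exact add_mem h4 h5
  obtain ⟨y, hy, h4⟩ := h3 _ h
  obtain ⟨d, rfl⟩ := Nat.exists_eq_add_of_lt (hoD.trans_lt hQ)
  have hzR : z ∈ intC R := halg z (le_alg T hz)
  have hw : E * e - z ^ (d + 1) * y ∈ intC R :=
    sub_mem (mul_mem hE heR) (mul_mem (pow_mem hzR _) hy)
  have h5 : z ^ o * (E * e - z ^ (d + 1) * y) ∈ PP := by
    have : z ^ o * (E * e - z ^ (d + 1) * y) =
        (E * MvPolynomial.aeval b Q - z ^ (o + d + 1) * y) -
          (MvPolynomial.aeval b Q - z ^ o * e) * E := by ring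
    rw [this]; exact sub_mem h4 (hP2 _ h2 E hE)
  have h6 : ∀ (j : ℕ) (w : Ω), w ∈ intC R → z ^ j * w ∈ PP → w ∈ PP := by
    intro j
    induction j with
    | zero => intro w _ h; simpa using h
    | succ j ih =>
      intro w hw h
      rw [pow_succ', mul_assoc] at h
      exact ih w hw (hP4 _ (mul_mem (pow_mem hzR _) hw) h)
  have h7 : ‖E * e - z ^ (d + 1) * y‖ < 1 := hP1 (h6 o _ hw h5)
  have h8 : ‖E * e‖ = 1 := by rw [norm_mul, hE1, he1, one_mul]
  rw [norm_sub_eq_left, h8] at h7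
  · exact lt_irrefl _ h7
  · rw [h8, norm_mul, norm_pow]
    exact mul_lt_one_of_nonneg_of_lt_one_left (by positivity)
      (pow_lt_one₀ (norm_nonneg _) hz1 (Nat.succ_ne_zero d)) (hR1 y hy)

/-- The elements of `M` which are integral over `R`. -/
def intIn (R : Subalgebra k Ω) (M : IntermediateField k Ω) : Submodule k Ω :=
  (intC R).toSubmodule ⊓ M.toSubalgebra.toSubmodule

omit [IsUltrametricDist Ω] [Ctx k Ω] in
theorem mem_intIn {R : Subalgebra k Ω} {M : IntermediateField k Ω} {x : Ω} :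
    x ∈ intIn R M ↔ x ∈ intC R ∧ x ∈ M := Iff.rfl

omit [Ctx k Ω] in
/-- A unit can be inverted up to a unit of a henselian field. -/
theorem exists_inv [IsAlgClosed Ω] {R A : Subalgebra k Ω} {M : IntermediateField k Ω}
    (hM : Algebra.IsAlgebraic M Ω) (hH : IsHens M) (hR : ∀ x ∈ R, x ∈ M) {e : Ω} (he : e ∈ A)
    (heR : e ∈ intC R) (he1 : ‖e‖ = 1) :
    ∃ c ∈ intIn R M, ‖c‖ = 1 ∧ ∃ w ∈ intIn R M * A.toSubmodule, c = w * e := by
  set q := minpoly M e with hq
  have hint : IsIntegral M e := (hM.isAlgebraic e).isIntegral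
  have hc : ∀ i, ((q.coeff i : M) : Ω) ∈ intIn R M := fun i => by
    refine ⟨?_, (q.coeff i).2⟩
    obtain ⟨P, hP, h0⟩ := heR
    let ρ : R →+* M := R.val.toRingHom.codRestrict M fun x => hR x x.2
    have h1 : q ∣ P.map ρ := minpoly.dvd M e (by
      rw [Polynomial.aeval_def, Polynomial.eval₂_map]; exact h0)
    have h2 : q.map (algebraMap M Ω) ∣ P.map (algebraMap R Ω) := by
      have := Polynomial.map_dvd (algebraMap M Ω) h1
      rwa [Polynomial.map_map] at this
    have h3 := Polynomial.isIntegral_coeff_of_dvd P _ hP ((minpoly.monic hint).map _) h2 i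
    rw [Polynomial.coeff_map] at h3
    exact h3
  refine ⟨_, hc 0, (HensB.int M hM hH e he1.le).2 he1, - Polynomial.aeval e q.divX, ?_, ?_⟩
  · rw [Polynomial.aeval_eq_sum_range]
    refine neg_mem (sum_mem fun i _ => ?_)
    rw [Polynomial.coeff_divX, Algebra.smul_def]
    exact mul_mem_mul (hc _) (pow_mem he _)
  · have h1 := minpoly.aeval M e
    rw [← hq, ← Polynomial.X_mul_divX_add q, map_add, map_mul, Polynomial.aeval_X,
      Polynomial.aeval_C] at h1
    change e * _ + ((q.coeff 0 : M) : Ω) = 0 at h1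
    linear_combination h1

/-- Elements which are independent over a henselian field stay independent over the polynomials
of small degree modulo a power of the maximal ideal. -/
theorem low [Infinite k] [IsAlgClosed Ω] {σ μ : Type*} [Fintype μ] {b : σ → Ω}
    (hb : AlgebraicIndependent k b) {T MM : Submodule k Ω} (hs : T ≤ small k Ω) (hT : T.FG)
    (hMM : MM.FG) (hred : Red T (span k (Set.range b)))
    (halg : Algebra.IsAlgebraic (Algebra.adjoin k (Set.range b)) Ω) {M : IntermediateField k Ω}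
    (hM : Algebra.IsAlgebraic M Ω) (hH : IsHens M) (hbM : ∀ i, b i ∈ M) {θ : μ → Ω}
    (hθ : LinearIndependent M θ) :
    ∃ c : ℕ, ∀ (l : ℕ) (P : μ → MvPolynomial σ k), (∀ i, (P i).totalDegree ≤ l) →
      ∑ i, θ i * MvPolynomial.aeval b (P i) ∈ MM * T ^ (l + c) → ∀ i, P i = 0 := by
  classical
  set R := Algebra.adjoin k (Set.range b) with hR
  set B : Submodule k Ω := span k (Set.range b) with hB
  have hbs : ∀ i, ‖b i‖ < 1 := fun i => hs (hred.le (subset_span ⟨i, rfl⟩))
  have hRM : ∀ x ∈ R, x ∈ M := fun x hx =>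
    (Algebra.adjoin_le (S := M.toSubalgebra) (by rintro _ ⟨i, rfl⟩; exact hbM i)) hx
  have hBR : ∀ x ∈ alg B, x ∈ R := fun x hx => by
    rwa [alg, hB, Subalgebra.mem_toSubmodule, Algebra.adjoin_span] at hx
  have hTint : ∀ x ∈ T, x ∈ intC R :=
    hred.int _ (intC_closed R) fun x hx => le_intC (hBR x (le_alg B hx))
  have hAint : ∀ x ∈ alg T, x ∈ intC R := fun x hx =>
    (Algebra.adjoin_le (S := intC R) hTint) hx
  obtain ⟨φ, hφ⟩ := (Finsupp.linearCombination M θ).exists_leftInverse_of_injective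
    (LinearMap.ker_eq_bot.2 hθ)
  have hφθ : ∀ j i, ((φ (θ j) i : M) : Ω) = if j = i then 1 else 0 := fun j i => by
    have h1 := congrArg (fun ψ : (μ →₀ M) →ₗ[M] (μ →₀ M) => ψ (Finsupp.single j 1) i) hφ
    simp only [LinearMap.comp_apply, Finsupp.linearCombination_single, one_smul,
      LinearMap.id_apply] at h1
    rw [h1, Finsupp.single_apply]
    split_ifs <;> simp
  have hφmul : ∀ a ∈ M, ∀ x i, ((φ (a * x) i : M) : Ω) = a * (φ x i : M) := fun a ha x i => by
    have h1 : a * x = (⟨a, ha⟩ : M) • x := rfl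
    rw [h1, map_smul]; rfl
  obtain ⟨s, hs'⟩ := hMM
  obtain ⟨t, ht⟩ := hT
  have hfg : (span R (s : Set Ω) * (Algebra.adjoin R (t : Set Ω)).toSubmodule).FG :=
    Submodule.FG.mul ⟨s, rfl⟩ (fg_adjoin_of_finite t.finite_toSet fun x hx =>
      hTint x (ht ▸ subset_span hx))
  obtain ⟨G, hG⟩ := hfg
  obtain ⟨δ, hδ0, hδ⟩ := Algebra.IsAlgebraic.exists_integral_multiples R
    ((G ×ˢ (Finset.univ : Finset μ)).image fun x => ((φ x.1 x.2 : M) : Ω))
  have hN : ∀ x ∈ MM * alg T, ∀ i, (δ : Ω) * (φ x i : M) ∈ intC R := by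
    intro x hx i
    have h1 : x ∈ span R (G : Set Ω) := by
      rw [hG]
      induction hx using Submodule.mul_induction_on' with
      | mem_mul_mem m hm a ha =>
        refine mul_mem_mul (span_le_restrictScalars k R _ (hs' ▸ hm)) ?_
        rw [alg, ← ht, Subalgebra.mem_toSubmodule, Algebra.adjoin_span] at ha
        have h3 : Algebra.adjoin k (t : Set Ω) ≤ (Algebra.adjoin R (t : Set Ω)).restrictScalars k :=
          Algebra.adjoin_le fun y hy =>
            (Subalgebra.mem_restrictScalars k).2 (Algebra.subset_adjoin hy)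
        exact (Subalgebra.mem_toSubmodule _).2 ((Subalgebra.mem_restrictScalars k).1 (h3 ha))
      | add x _ y _ hx hy => exact add_mem hx hy
    clear hx
    induction h1 using Submodule.span_induction with
    | mem x hx => exact hδ _ (Finset.mem_image.2 ⟨(x, i), by simpa using hx, rfl⟩)
    | zero => simp
    | add x y _ _ hx hy =>
      rw [map_add, Finsupp.add_apply, AddMemClass.coe_add, mul_add]
      exact add_mem hx hy
    | smul r x _ hx =>
      have h2 : r • x = (r : Ω) * x := rfl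
      rw [h2, hφmul _ (hRM _ r.2), mul_left_comm]
      exact mul_mem (le_intC r.2) hx
  obtain ⟨δ0, hδ0'⟩ := hb.aevalEquiv.surjective δ
  have hδv : MvPolynomial.aeval b δ0 = (δ : Ω) := by
    rw [← hδ0']; exact (hb.algebraMap_aevalEquiv δ0).symm
  have hδ00 : δ0 ≠ 0 := by
    rintro rfl
    exact hδ0 (by rw [← hδ0', map_zero])
  obtain ⟨c, hc⟩ := hred.red
  refine ⟨δ0.totalDegree + 1 + c, fun l P hP hx i => ?_⟩
  obtain ⟨e, he, he1, hle⟩ := hc (l + (δ0.totalDegree + 1))
  obtain ⟨c0, hc0, hc1, w, hw, hcw⟩ := exists_inv (A := Algebra.adjoin k (T : Set Ω)) hM hH hRM he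
    (hAint e he) he1
  set L := l + (δ0.totalDegree + 1) with hL
  set x := ∑ i, θ i * MvPolynomial.aeval b (P i) with hxdef
  have h1 : c0 * x ∈ B ^ L * (intIn R M * (MM * alg T)) := by
    have h2 : e * x ∈ MM * (B ^ L * alg T) := by
      refine mul_le_mul_right hle MM ?_
      rw [mul_left_comm, hL, add_assoc l]
      exact mul_mem_mul (mem_span_singleton_self e) hx
    have h3 : (intIn R M * alg T) * (MM * (B ^ L * alg T)) =
        B ^ L * (intIn R M * (MM * alg T)) := by
      conv_rhs => rw [← alg_mul_alg]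
      ring
    rw [hcw, mul_assoc, ← h3]
    exact mul_mem_mul hw h2
  have h2 : ∀ y ∈ B ^ L * (intIn R M * (MM * alg T)),
      (δ : Ω) * (φ y i : M) ∈ B ^ L * (intC R).toSubmodule := by
    intro y hy
    induction hy using Submodule.mul_induction_on' with
    | mem_mul_mem β hβ y hy =>
      rw [hφmul _ (hRM _ (hBR _ (pow_le_alg B L hβ))), mul_left_comm]
      refine mul_mem_mul hβ ?_
      induction hy using Submodule.mul_induction_on' with
      | mem_mul_mem a ha y hy =>
        rw [hφmul _ ha.2, mul_left_comm]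
        exact Subalgebra.mul_mem (intC R) ha.1 (hN y hy i)
      | add x _ y _ hx hy =>
        rw [map_add, Finsupp.add_apply, AddMemClass.coe_add, mul_add]
        exact add_mem hx hy
    | add x _ y _ hx hy =>
      rw [map_add, Finsupp.add_apply, AddMemClass.coe_add, mul_add]
      exact add_mem hx hy
  have h3 : ((φ x i : M) : Ω) = MvPolynomial.aeval b (P i) := by
    rw [hxdef, map_sum, Finsupp.finsetSum_apply, AddSubmonoidClass.coe_finsetSum,
      Finset.sum_eq_single i]
    · rw [mul_comm, hφmul _ (hRM _ (by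
        rw [hR, Algebra.adjoin_range_eq_range_aeval]; exact ⟨_, rfl⟩)), hφθ]
      simp
    · intro j _ hj
      rw [mul_comm, hφmul _ (hRM _ (by
        rw [hR, Algebra.adjoin_range_eq_range_aeval]; exact ⟨_, rfl⟩)), hφθ]
      simp [hj]
    · simp
  have h4 := h2 _ h1
  rw [hφmul _ hc0.2, h3, mul_left_comm, ← hδv, ← map_mul] at h4
  have h5 := eq_zero_of_mem hb hbs (Q := δ0 * P i) (l := L)
    ((MvPolynomial.totalDegree_mul _ _).trans_lt (by have := hP i; omega)) hc0.1 hc1 h4
  exact (mul_eq_zero.1 h5).resolve_left hδ00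

end Pool.Agent.MP_19ffc6_ag.LU.Alb

end MrgPart1

-- ======== part 2: formerly Pool.Agent.MP_19ffc6_ag.LU3.FinalA
section MrgPart2

/-! PROJECT LU3, module FINAL, part A: an algebra whose centre is generated by `x` lies in a
henselian root extension of `k[x]`, and descent of the root to a subfield. -/

namespace Pool.Agent.MP_19ffc6_ag.LU3

open Polynomial IntermediateField Pool.Agent.MP_19ffc6_ag.LU

namespace FinalA

variable {k Ω : Type*} [Field k] [NontriviallyNormedField Ω] [IsUltrametricDist Ω] [Algebra k Ω]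
  [Ctx k Ω]

/-- The centre of the valuation on an algebra of integral elements. -/
def centre (A : Subalgebra k Ω) (hA : ∀ a ∈ A, ‖a‖ ≤ 1) : Ideal A where
  carrier := {a | ‖(a : Ω)‖ < 1}
  add_mem' := fun ha hb => norm_add_lt_of ha hb
  zero_mem' := by simp
  smul_mem' := fun c a ha => by
    change ‖(c : Ω) * a‖ < 1
    rw [norm_mul]
    exact mul_lt_one_of_nonneg_of_lt_one_right (hA _ c.2) (norm_nonneg _) ha

theorem centre_max (A : Subalgebra k Ω) (hA : ∀ a ∈ A, ‖a‖ ≤ 1) : (centre A hA).IsMaximal := by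
  rw [Ideal.isMaximal_iff]
  refine ⟨fun h => absurd (show ‖((1 : A) : Ω)‖ < 1 from h) (by simp), fun J a hJ ha haJ => ?_⟩
  have h1 : ‖(a : Ω)‖ = 1 := le_antisymm (hA _ a.2) (not_lt.1 ha)
  obtain ⟨c, hc, h2⟩ := exists_res_ne_zero k h1
  have h3 : a - algebraMap k A c ∈ J := hJ h2
  have h4 : algebraMap k A c ∈ J := by simpa using J.sub_mem haJ h3
  have := J.mul_mem_left (algebraMap k A c⁻¹) h4
  rwa [← map_mul, inv_mul_cancel₀ hc, map_one] at this

theorem unr {ι : Type} [Fintype ι] (x : ι → Ω) (A : Subalgebra k Ω) (hfg : A.FG)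
    (hA : ∀ a ∈ A, ‖a‖ ≤ 1) (hxA : ∀ i, x i ∈ A) (hx : ∀ i, ‖x i‖ < 1)
    (hm : ∀ a ∈ A, ‖a‖ < 1 → ∃ u ∈ A, ‖u‖ = 1 ∧ ∃ c : ι → Ω, (∀ i, c i ∈ A) ∧
      u * a = ∑ i, c i * x i) :
    ∃ (η : Ω) (P : (MvPolynomial ι k)[X]), P.Monic ∧
      P.eval₂ (MvPolynomial.aeval x).toRingHom η = 0 ∧
      ‖P.derivative.eval₂ (MvPolynomial.aeval x).toRingHom η‖ = 1 ∧
      ∀ a ∈ A, ∃ U G : (MvPolynomial ι k)[X],
        ‖U.eval₂ (MvPolynomial.aeval x).toRingHom η‖ = 1 ∧
        a * U.eval₂ (MvPolynomial.aeval x).toRingHom η =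
          G.eval₂ (MvPolynomial.aeval x).toRingHom η := by
  let R := MvPolynomial ι k
  let x' : ι → A := fun i => ⟨x i, hxA i⟩
  let _ : Algebra R A := (MvPolynomial.aeval x').toRingHom.toAlgebra
  let _ : Algebra R Ω := (MvPolynomial.aeval x).toRingHom.toAlgebra
  have : IsScalarTower k R A := IsScalarTower.of_algebraMap_eq fun c =>
    ((MvPolynomial.aeval x').commutes c).symm
  have hRA : ∀ r : R, ((algebraMap R A r : A) : Ω) = algebraMap R Ω r := fun r => by
    have := MvPolynomial.comp_aeval x' A.val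
    exact congrArg (fun φ : R →ₐ[k] Ω => φ r) this
  have : Algebra.FiniteType k A := (Subalgebra.fg_iff_finiteType A).1 hfg
  have : Algebra.FiniteType R A := Algebra.FiniteType.of_restrictScalars_finiteType k R A
  let Q := centre A hA
  have : Q.IsMaximal := centre_max A hA
  let p := Q.under R
  let _ := Localization.AtPrime.algebraOfLiesOver p Q
  have : Algebra.IsUnramifiedAt R Q := by
    rw [Algebra.isUnramifiedAt_iff_map_eq R p Q]
    constructor
    · refine ⟨fun y => ?_⟩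
      obtain ⟨y, rfl⟩ := Q.bijective_algebraMap_quotient_residueField.2 y
      obtain ⟨a, rfl⟩ := Ideal.Quotient.mk_surjective y
      obtain ⟨c, hc⟩ := Ctx.res (k := k) (a : Ω) (hA _ a.2)
      have h1 : algebraMap A Q.ResidueField (a - algebraMap k A c) = 0 :=
        Ideal.algebraMap_residueField_eq_zero.2 hc
      have h2 : algebraMap (A ⧸ Q) Q.ResidueField (Ideal.Quotient.mk Q a) =
          algebraMap p.ResidueField Q.ResidueField
            (algebraMap R p.ResidueField (algebraMap k R c)) := by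
        rw [← IsScalarTower.algebraMap_apply R p.ResidueField,
          IsScalarTower.algebraMap_apply R A Q.ResidueField,
          ← IsScalarTower.algebraMap_apply k R A]
        rw [map_sub, sub_eq_zero] at h1
        exact h1
      rw [h2]
      exact isSeparable_algebraMap _
    · rw [← Localization.AtPrime.map_eq_maximalIdeal]
      refine le_antisymm ?_ ?_
      · rw [IsScalarTower.algebraMap_eq R A, ← Ideal.map_map]
        exact Ideal.map_mono Ideal.map_comap_le
      · rw [Ideal.map_le_iff_le_comap]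
        intro a ha
        obtain ⟨u, hu, hu1, c, hc, e⟩ := hm a a.2 ha
        have hun : IsUnit (algebraMap A (Localization.AtPrime Q) ⟨u, hu⟩) :=
          IsLocalization.map_units _ (⟨⟨u, hu⟩, fun h => absurd hu1 (ne_of_lt h)⟩ : Q.primeCompl)
        rw [Ideal.mem_comap, ← Ideal.unit_mul_mem_iff_mem _ hun, ← map_mul]
        have e' : (⟨u, hu⟩ : A) * a = ∑ i, (⟨c i, hc i⟩ : A) * algebraMap R A (.X i) := by
          apply Subtype.ext
          rw [AddSubmonoidClass.coe_finsetSum]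
          refine e.trans (Finset.sum_congr rfl fun i _ => ?_)
          rw [MulMemClass.coe_mul, hRA]
          exact congrArg _ (MvPolynomial.aeval_X x i).symm
        rw [e', map_sum]
        refine Ideal.sum_mem _ fun i _ => ?_
        rw [map_mul, ← IsScalarTower.algebraMap_apply]
        refine Ideal.mul_mem_left _ _ (Ideal.mem_map_of_mem _ ?_)
        change ‖((algebraMap R A (.X i) : A) : Ω)‖ < 1
        rw [hRA]
        exact (congrArg _ (MvPolynomial.aeval_X x i)).trans_lt (hx i)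
  obtain ⟨f, hf, P, φ, hφ⟩ := Algebra.IsUnramifiedAt.exists_hasStandardEtaleSurjectionOn (R := R) Q
  have hf1 : ‖(f : Ω)‖ = 1 := le_antisymm (hA _ f.2) (not_lt.1 hf)
  let j : A →ₐ[R] Ω := { A.val.toRingHom with commutes' := hRA }
  have hfu : IsUnit (j f) := IsUnit.mk0 _ (ne_zero_of_norm_eq_one hf1)
  let ψ : Localization.Away f →ₐ[R] Ω := IsLocalization.Away.liftAlgHom f (f := j) hfu
  have hψ : ∀ a : A, ψ (algebraMap A _ a) = a := fun a =>
    IsLocalization.Away.lift_eq f (g := j.toRingHom) hfu a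
  have hle : ∀ y, ‖ψ y‖ ≤ 1 := by
    intro y
    obtain ⟨⟨a, _, n, rfl⟩, e⟩ := IsLocalization.surj (Submonoid.powers f) y
    have := congrArg (fun t => ‖ψ t‖) e
    simp only [map_mul, hψ, norm_mul, SubmonoidClass.coe_pow, norm_pow, hf1, one_pow,
      mul_one] at this
    rw [this]
    exact hA _ a.2
  have hun : ∀ y, IsUnit y → ‖ψ y‖ = 1 := by
    intro y hy
    obtain ⟨y', e⟩ := hy.exists_right_inv
    have h1 := congrArg (fun t => ‖ψ t‖) e
    simp only [map_mul, norm_mul, map_one, norm_one] at h1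
    refine le_antisymm (hle y) ?_
    nlinarith [hle y, hle y', norm_nonneg (ψ y), norm_nonneg (ψ y')]
  have hev : ∀ g : R[X], g.eval₂ (MvPolynomial.aeval x).toRingHom (ψ (φ P.X)) =
      ψ (φ (aeval P.X g)) := fun g => by
    rw [← aeval_algHom_apply, ← aeval_algHom_apply]
    rfl
  have hX := P.hasMap_X
  refine ⟨ψ (φ P.X), P.f, P.monic_f, ?_, ?_, fun a ha => ?_⟩
  · rw [hev, hX.1, map_zero, map_zero]
  · rw [hev]
    exact hun _ (hX.isUnit_derivative_f.map φ)
  · obtain ⟨y, hy⟩ := hφ (algebraMap A _ ⟨a, ha⟩)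
    let P' : StandardEtalePresentation R P.Ring :=
      ⟨P, P.X, hX, by rw [P.lift_X_left]; exact Function.bijective_id⟩
    obtain ⟨g, n, e⟩ := P'.exists_mul_aeval_x_g_pow_eq_aeval_x y
    refine ⟨P.g ^ n, g, ?_, ?_⟩
    · rw [hev, map_pow]
      exact hun _ ((hX.2.pow n).map φ)
    · have e' : y * aeval P.X P.g ^ n = aeval P.X g := e
      rw [hev, hev, ← e', map_mul, map_mul, hy, hψ, map_pow (aeval P.X)]

section Abstract

variable {R F K E : Type*} [CommRing R] [Field F] [Field K] [Field E] [IsAlgClosed Ω]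
  [Algebra F K] [Algebra F Ω]

omit [IsUltrametricDist Ω] in
theorem trace_sum [Algebra K E] [Algebra F E] [IsScalarTower F K E] [FiniteDimensional F E]
    [Algebra.IsSeparable F E] (τ : K →ₐ[F] Ω) : ∃ s : Finset (E →ₐ[F] Ω),
    (∀ σ, σ ∈ s ↔ σ.comp (IsScalarTower.toAlgHom F K E) = τ) ∧
      ∀ e, τ (Algebra.trace K E e) = ∑ σ ∈ s, σ e := by
  let _ : Algebra K Ω := τ.toRingHom.toAlgebra
  have : IsScalarTower F K Ω := IsScalarTower.of_algebraMap_eq fun c => (τ.commutes c).symm
  have : FiniteDimensional K E := Module.Finite.of_restrictScalars_finite F K E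
  have : Algebra.IsSeparable K E := Algebra.isSeparable_tower_top_of_isSeparable F K E
  refine ⟨Finset.univ.map ⟨fun σ : E →ₐ[K] Ω => σ.restrictScalars F,
    AlgHom.restrictScalars_injective F⟩, fun σ => ?_, fun e => ?_⟩
  · rw [Finset.mem_map]
    constructor
    · rintro ⟨σ, -, rfl⟩
      exact AlgHom.ext fun c => σ.commutes c
    · intro h
      exact ⟨{ σ.toRingHom with commutes' := fun c => congrArg (fun φ : K →ₐ[F] Ω => φ c) h },
        Finset.mem_univ _, rfl⟩
  · rw [Finset.sum_map]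
    exact trace_eq_sum_embeddings Ω

/-- A generator that is small at all other embeddings controls the integral elements. -/
theorem gen_small [IsDomain R] [IsIntegrallyClosed R] [Algebra R F] [IsFractionRing R F]
    [Algebra R K] [IsScalarTower R F K] [Algebra R Ω] [IsScalarTower R F Ω]
    [FiniteDimensional F K] [Algebra.IsSeparable F K] (ι : K →ₐ[F] Ω) (η : K)
    (hη : IsIntegral R η) (h1 : ‖ι η‖ = 1) (h2 : ∀ τ : K →ₐ[F] Ω, τ ≠ ι → ‖τ η‖ < 1) :
    ‖aeval (ι η) (derivative (minpoly R η))‖ = 1 ∧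
    (∀ Q : F[X], aeval (ι η) Q = 0 → Q.degree < (minpoly R η).degree → Q = 0) ∧
    ∀ b : K, IsIntegral R b →
      ∃ G : R[X], ι b * aeval (ι η) (derivative (minpoly R η)) = aeval (ι η) G := by
  classical
  have hp : F⟮η⟯ = ⊤ := by
    rw [Field.primitive_element_iff_algHom_eq_of_eval F Ω (fun _ => IsAlgClosed.splits _) η ι]
    intro ψ hψ
    by_contra h
    exact absurd (h2 ψ (Ne.symm h)) (by rw [← hψ, h1]; exact lt_irrefl _)
  have hm : minpoly F η = (minpoly R η).map (algebraMap R F) :=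
    minpoly.isIntegrallyClosed_eq_field_fractions' F hη
  have hd : aeval (ι η) (derivative (minpoly R η)) = ι (aeval η (derivative (minpoly F η))) := by
    rw [hm, derivative_map, ← aeval_algHom_apply, aeval_map_algebraMap]
  refine ⟨?_, fun Q hQ hdeg => ?_, fun b hb => ?_⟩
  · rw [hd, ← Eta.eval_map_alg, ← derivative_map, Eta.map_minpoly hp,
      Lagrange.eval_nodal_derivative_eval_node_eq (v := fun σ : K →ₐ[F] Ω => σ η)
        (Finset.mem_univ ι), Lagrange.eval_nodal, norm_prod]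
    refine Finset.prod_eq_one fun τ hτ => ?_
    rw [norm_sub_eq_left, h1]
    rw [h1]
    exact h2 τ (Finset.ne_of_mem_erase hτ)
  · by_contra h0
    rw [aeval_algHom_apply, map_eq_zero] at hQ
    have := minpoly.degree_le_of_ne_zero F η h0 hQ
    rw [hm, (minpoly.monic hη).degree_map] at this
    exact absurd this hdeg.not_ge
  · obtain ⟨g, hg, hgm⟩ := Eta.interp (Ω := Ω) hp b
    have hC : ∀ (τ : K →ₐ[F] Ω) (c : K), IsIntegral R c →
        C (τ c) ∈ liftsRing (algebraMap (integralClosure R Ω) Ω) := fun τ c hc =>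
      C_mem_lifts (algebraMap (integralClosure R Ω) Ω) ⟨τ c, hc.map τ⟩
    have hl : g.map (algebraMap F Ω) ∈ liftsRing (algebraMap (integralClosure R Ω) Ω) := by
      rw [hgm]
      refine Subring.sum_mem _ fun τ _ => Subring.mul_mem _ (hC τ b hb) ?_
      rw [Lagrange.nodal]
      exact Subring.prod_mem _ fun σ _ => Subring.sub_mem _ (X_mem_lifts _) (hC σ η hη)
    have hl' : g ∈ lifts (algebraMap R F) := by
      refine (lifts_iff_coeff_lifts g).2 fun n => ?_
      obtain ⟨c, hc⟩ := (lifts_iff_coeff_lifts _).1 ((lifts_iff_liftsRing _ _).2 hl) n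
      rw [coeff_map] at hc
      have h3 : IsIntegral R (algebraMap F Ω (g.coeff n)) := hc ▸ c.2
      exact IsIntegrallyClosed.isIntegral_iff.1
        ((isIntegral_algebraMap_iff (algebraMap F Ω).injective).1 h3)
    obtain ⟨G, rfl⟩ := hl'
    refine ⟨G, ?_⟩
    rw [hd, ← map_mul, ← hg, ← aeval_algHom_apply, coe_mapRingHom, aeval_map_algebraMap]

end Abstract

omit [Ctx k Ω] in
theorem norm_le_of_integral {B : Subalgebra k Ω} (hB : ∀ a ∈ B, ‖a‖ ≤ 1) {a : Ω}
    (ha : IsIntegral B a) : ‖a‖ ≤ 1 := by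
  let v := NormedField.valuation (K := Ω)
  let φ : B →+* v.integer := B.val.toRingHom.codRestrict _ fun b => hB _ b.2
  exact (Valuation.integer.integers v).mem_of_integral
    (ha.map_of_comp_eq φ (RingHom.id Ω) (RingHom.ext fun _ => rfl))

theorem two_roots {B : Subalgebra k Ω} (hB : ∀ a ∈ B, ‖a‖ ≤ 1) {P : B[X]} (hP : P.Monic)
    {a b : Ω} (ha : aeval a P = 0) (hb : aeval b P = 0) (hd : ‖aeval a (derivative P)‖ = 1)
    (hab : b ≠ a) : ‖b - a‖ = 1 := by
  have ha1 : a ∈ intAlg k Ω := norm_le_of_integral hB ⟨P, hP, ha⟩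
  have hb1 : b ∈ intAlg k Ω := norm_le_of_integral hB ⟨P, hP, hb⟩
  let φ : B →+* intAlg k Ω := (Subalgebra.inclusion (show B ≤ intAlg k Ω from hB)).toRingHom
  have hev : ∀ (Q : B[X]) (y : intAlg k Ω), (((Q.map φ).eval y : intAlg k Ω) : Ω) =
      aeval (y : Ω) Q := by
    intro Q y
    rw [eval_map]
    exact hom_eval₂ Q φ (intAlg k Ω).val.toRingHom y
  obtain ⟨w, hw⟩ := binomExpansion (P.map φ) ⟨a, ha1⟩ ⟨b - a, sub_mem hb1 ha1⟩
  have h1 := congrArg Subtype.val hw
  rw [derivative_map] at h1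
  simp only [AddMemClass.coe_add, MulMemClass.coe_mul, SubmonoidClass.coe_pow, hev,
    add_sub_cancel, ha, hb, zero_add] at h1
  have h2 : aeval a (derivative P) = -(w * (b - a)) :=
    mul_right_cancel₀ (sub_ne_zero.2 hab) (by linear_combination -h1)
  rw [h2, norm_neg, norm_mul] at hd
  have h3 : ‖b - a‖ ≤ 1 := sub_mem hb1 ha1
  have h4 : ‖(w : Ω)‖ ≤ 1 := w.2
  refine le_antisymm h3 ?_
  nlinarith [norm_nonneg (b - a), norm_nonneg (w : Ω)]

open scoped IntermediateField.algebraAdjoinAdjoin in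
/-- A subfield `K` of a henselian root extension of `k(x)` has a smooth model. -/
theorem descent [IsAlgClosed Ω] (hsm : SmoothStmt k Ω) (K : IntermediateField k Ω)
    (Z Z' : Finset Ω) (hZZ : Z ⊆ Z') (hK : K ≤ adjoin k (Z' : Set Ω)) (hZK : ∀ z ∈ Z', z ∈ K)
    {ι : Type} [Fintype ι] (x : ι → Ω) (hx : AlgebraicIndependent k x) (hx1 : ∀ i, ‖x i‖ ≤ 1)
    (hxK : ∀ i, x i ∈ K) (η : Ω) (P : (Algebra.adjoin k (Set.range x))[X]) (hP : P.Monic)
    (h0 : aeval η P = 0) (h1 : ‖aeval η (derivative P)‖ = 1)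
    (hZ : ∀ z ∈ Z', ∃ U G : (Algebra.adjoin k (Set.range x))[X],
      ‖aeval η U‖ = 1 ∧ z * aeval η U = aeval η G) : ∃ A, Model K Z A := by
  classical
  let R := Algebra.adjoin k (Set.range x)
  let F := adjoin k (Set.range x)
  have hR1 : ∀ a ∈ R, ‖a‖ ≤ 1 := fun a ha =>
    norm_le_one_of_mem_adjoin (Set.forall_mem_range.2 hx1) ha
  have : IsIntegrallyClosed R := IsIntegrallyClosed.of_equiv hx.aevalEquiv.toRingEquiv
  have hηR : IsIntegral R η := ⟨P, hP, h0⟩
  have hηF : IsIntegral F η := hηR.tower_top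
  have hsep : IsSeparable F η := by
    refine (separable_iff_derivative_ne_zero (minpoly.irreducible hηF)).2 fun h => ?_
    obtain ⟨S, hS⟩ := minpoly.dvd F η (p := P.map (algebraMap R F))
      (by rw [aeval_map_algebraMap, h0])
    have h2 := congrArg (fun Q => aeval η (derivative Q)) hS
    simp only [derivative_map, aeval_map_algebraMap, derivative_mul, h, zero_mul, zero_add,
      map_mul, minpoly.aeval] at h2
    rw [h2, norm_zero] at h1
    exact zero_ne_one h1
  have : FiniteDimensional F F⟮η⟯ := adjoin.finiteDimensional hηF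
  have : Algebra.IsSeparable F F⟮η⟯ := (isSeparable_adjoin_simple_iff_isSeparable F Ω).2 hsep
  let η0 : F⟮η⟯ := AdjoinSimple.gen F η
  have hev : ∀ (τ : F⟮η⟯ →ₐ[F] Ω) (Q : R[X]), τ (aeval η0 Q) = aeval (τ η0) Q := fun τ Q =>
    (aeval_algHom_apply (τ.restrictScalars R) η0 Q).symm
  have hev0 : ∀ Q : R[X], ((aeval η0 Q : F⟮η⟯) : Ω) = aeval η Q := hev F⟮η⟯.val
  have hη0 : aeval η0 P = 0 := Subtype.ext ((hev0 P).trans h0)
  have hη0R : IsIntegral R η0 := ⟨P, hP, hη0⟩
  have hint : ∀ Q : R[X], IsIntegral R (aeval η0 Q) := fun Q =>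
    adjoin_le_integralClosure hη0R (aeval_mem_adjoin_singleton R η0)
  have hle : ∀ (τ : F⟮η⟯ →ₐ[F] Ω) (b : F⟮η⟯), IsIntegral R b → ‖τ b‖ ≤ 1 := fun τ b hb =>
    norm_le_of_integral hR1 (hb.map τ)
  have hfar : ∀ τ : F⟮η⟯ →ₐ[F] Ω, τ ≠ F⟮η⟯.val → ‖τ η0 - η‖ = 1 := by
    intro τ hτ
    refine two_roots hR1 hP h0 (by rw [← hev, hη0, map_zero]) h1 fun h => hτ ?_
    exact (adjoin.powerBasis hηF).algHom_ext h
  choose c hc using fun τ : F⟮η⟯ →ₐ[F] Ω => Ctx.res (k := k) (τ η0) (hle τ η0 hη0R)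
  choose! U G hU hG using hZ
  let T : R[X] := (∏ τ ∈ Finset.univ.erase F⟮η⟯.val, (X - C (algebraMap k R (c τ))))
  have hT : ∀ a : Ω, aeval a T = ∏ τ ∈ Finset.univ.erase F⟮η⟯.val, (a - algebraMap k Ω (c τ)) := by
    intro a
    simp only [T, map_prod, map_sub, aeval_X, aeval_C, ← IsScalarTower.algebraMap_apply]
  have hT1 : ‖aeval η T‖ = 1 := by
    rw [hT, norm_prod]
    refine Finset.prod_eq_one fun τ hτ => ?_
    have h2 := hfar τ (Finset.ne_of_mem_erase hτ)
    have : η - algebraMap k Ω (c τ) = -(τ η0 - η) + (τ η0 - algebraMap k Ω (c τ)) := by ring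
    rw [this, norm_add_eq_left (by rw [norm_neg, h2]; exact hc τ), norm_neg, h2]
  have hT2 : ∀ τ : F⟮η⟯ →ₐ[F] Ω, τ ≠ F⟮η⟯.val → ‖τ (aeval η0 T)‖ < 1 := by
    intro τ hτ
    rw [hev, hT, ← Finset.mul_prod_erase _ _ (Finset.mem_erase.2 ⟨hτ, Finset.mem_univ _⟩),
      norm_mul, norm_prod]
    refine mul_lt_one_of_nonneg_of_lt_one_left (norm_nonneg _) (hc τ)
      (Finset.prod_le_one (fun _ _ => norm_nonneg _) fun σ _ =>
        norm_sub_le_of (hle τ η0 hη0R) (norm_alg_le _))
  let e : F⟮η⟯ := aeval η0 (T * ∏ z ∈ Z', U z)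
  have he1 : ‖(e : Ω)‖ = 1 := by
    rw [hev0, map_mul, norm_mul, hT1, one_mul, map_prod, norm_prod]
    exact Finset.prod_eq_one hU
  have he2 : ∀ τ : F⟮η⟯ →ₐ[F] Ω, τ ≠ F⟮η⟯.val → ‖τ e‖ < 1 := by
    intro τ hτ
    rw [show e = _ from map_mul (aeval η0) _ _, map_mul, norm_mul]
    exact mul_lt_one_of_nonneg_of_lt_one_left (norm_nonneg _) (hT2 τ hτ) (hle τ _ (hint _))
  have hZE : ∀ z ∈ Z', z ∈ F⟮η⟯ := by
    intro z hz
    rw [eq_div_of_mul_eq (ne_zero_of_norm_eq_one (hU z hz)) (hG z hz), ← hev0, ← hev0]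
    exact div_mem (Subtype.property _) (Subtype.property _)
  have hFK : F ≤ K := adjoin_le_iff.2 (Set.range_subset_iff.2 hxK)
  let K' : IntermediateField F F⟮η⟯ := (extendScalars hFK).comap F⟮η⟯.val
  let j : K' →ₐ[F] Ω := F⟮η⟯.val.comp K'.val
  have : IsScalarTower R K' F⟮η⟯ := IsScalarTower.of_algebraMap_eq fun _ => rfl
  let θ : K' := Algebra.trace K' F⟮η⟯ e
  have hθ : IsIntegral R θ := Algebra.isIntegral_trace (hint _)
  have hθ1 : ‖j θ‖ = 1 := by
    obtain ⟨s, hs, hs'⟩ := trace_sum (E := F⟮η⟯) j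
    rw [hs', ← Finset.add_sum_erase _ _ ((hs F⟮η⟯.val).2 rfl), norm_add_eq_left]
    · exact he1
    · rw [show ‖F⟮η⟯.val e‖ = 1 from he1]
      exact norm_sum_lt_of one_pos fun σ hσ => he2 σ (Finset.ne_of_mem_erase hσ)
  have hθ2 : ∀ τ : K' →ₐ[F] Ω, τ ≠ j → ‖τ θ‖ < 1 := by
    intro τ hτ
    obtain ⟨s, hs, hs'⟩ := trace_sum (E := F⟮η⟯) τ
    rw [hs']
    refine norm_sum_lt_of one_pos fun σ hσ => he2 σ fun h => hτ ?_
    rw [← (hs σ).1 hσ, h]
    rfl
  obtain ⟨h3, h4, h5⟩ := gen_small j θ hθ hθ1 hθ2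
  have h6 : ∀ z ∈ Z', ∃ G : R[X],
      z * (j θ ^ 1 * aeval (j θ) (derivative (minpoly R θ))) = aeval (j θ) G := by
    intro z hz
    let z' : K' := ⟨⟨z, hZE z hz⟩, hZK z hz⟩
    have h7 : z' • e = aeval η0 (G z * (T * ∏ w ∈ Z'.erase z, U w)) := by
      apply Subtype.ext
      change z * (e : Ω) = _
      rw [hev0, hev0, ← Finset.mul_prod_erase _ _ hz]
      simp only [map_mul, ← hG z hz]
      ring
    have h8 : IsIntegral R (z' * θ) := by
      rw [← smul_eq_mul, ← map_smul, h7]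
      exact Algebra.isIntegral_trace (hint _)
    obtain ⟨G, hG⟩ := h5 _ h8
    refine ⟨G, ?_⟩
    rw [← hG, map_mul, pow_one, mul_assoc]
    rfl
  choose! G' hG' using h6
  have hco : ∀ (Q : R[X]), ∀ b ∈ (Q.map (algebraMap R Ω)).coeffs,
      ∃ a ∈ R, ∃ c ∈ R, ‖c‖ = 1 ∧ b = a / c := by
    intro Q b hb
    obtain ⟨n, -, rfl⟩ := mem_coeffs_iff.1 hb
    rw [coeff_map]
    exact ⟨_, (Q.coeff n).2, 1, one_mem _, norm_one, (div_one _).symm⟩
  refine Final.finish hsm K Z Z' hZZ hK x hx hx1 hxK (j θ) ((minpoly R θ).map (algebraMap R Ω))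
    (fun z => (G' z).map (algebraMap R Ω)) (fun _ => 1) θ.2 hθ1 ((minpoly.monic hθ).map _) ?_ ?_
    ?_ ?_ (((minpoly R θ).map (algebraMap R Ω)).coeffs ∪
      Z'.biUnion fun z => ((G' z).map (algebraMap R Ω)).coeffs) Finset.subset_union_left
    (fun z hz => (Finset.subset_biUnion_of_mem
      (fun z => ((G' z).map (algebraMap R Ω)).coeffs) hz).trans Finset.subset_union_right) ?_
  · rw [eval_map_algebraMap]
    exact (aeval_algHom_apply (j.restrictScalars R) θ _).trans (by rw [minpoly.aeval, map_zero])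
  · rw [derivative_map, eval_map_algebraMap]
    exact h3
  · intro Q hQ hQ0 hdeg
    have hl : Q ∈ lifts (algebraMap F Ω) :=
      (lifts_iff_coeff_lifts Q).2 fun n => ⟨⟨_, hQ n⟩, rfl⟩
    obtain ⟨q, rfl, -⟩ := exists_degree_eq_of_mem_lifts hl
    rw [degree_map, (minpoly.monic hθ).degree_map] at hdeg
    rw [eval_map_algebraMap] at hQ0
    rw [h4 q hQ0 hdeg, Polynomial.map_zero]
  · intro z hz
    rw [derivative_map, eval_map_algebraMap, eval_map_algebraMap]
    exact hG' z hz
  · intro b hb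
    rcases Finset.mem_union.1 hb with hb | hb
    · exact hco _ b hb
    · obtain ⟨z, -, hb⟩ := Finset.mem_biUnion.1 hb
      exact hco _ b hb

/-- The model attached to an algebra whose centre is generated by elements of `K`. -/
theorem model_of_centre [IsAlgClosed Ω] (hsm : SmoothStmt k Ω) (K : IntermediateField k Ω)
    (Z Z' : Finset Ω) (hZZ : Z ⊆ Z') (hK : K ≤ adjoin k (Z' : Set Ω)) (hZK : ∀ z ∈ Z', z ∈ K)
    {ι : Type} [Fintype ι] (x y : ι → Ω) (hy : AlgebraicIndependent k y) (hxK : ∀ i, x i ∈ K)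
    (A : Subalgebra k Ω) (hfg : A.FG) (hA : ∀ a ∈ A, ‖a‖ ≤ 1) (hxA : ∀ i, x i ∈ A)
    (hyA : ∀ i, y i ∈ A) (hZA : ∀ z ∈ Z', z ∈ A) (hx : ∀ i, ‖x i‖ < 1)
    (hm : ∀ a ∈ A, ‖a‖ < 1 → ∃ u ∈ A, ‖u‖ = 1 ∧ ∃ c : ι → Ω, (∀ i, c i ∈ A) ∧
      u * a = ∑ i, c i * x i) : ∃ A, Model K Z A := by
  obtain ⟨η, P, hP, h0, h1, hall⟩ := unr x A hfg hA hxA hx hm
  set R := Algebra.adjoin k (Set.range x) with hR
  let φ : MvPolynomial ι k →+* R := (MvPolynomial.aeval x).toRingHom.codRestrict R fun f => by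
    rw [hR, Algebra.adjoin_range_eq_range_aeval]; exact ⟨f, rfl⟩
  have hev : ∀ Q : (MvPolynomial ι k)[X], aeval η (Q.map φ) =
      Q.eval₂ (MvPolynomial.aeval x).toRingHom η := fun Q => by
    rw [aeval_def, eval₂_map]; rfl
  have hηR : IsIntegral R η := ⟨P.map φ, hP.map φ, (hev P).trans h0⟩
  have halg : ∀ a ∈ A, IsAlgebraic R a := by
    intro a ha
    obtain ⟨U, G, hU, hG⟩ := hall a ha
    have hint : ∀ Q : R[X], IsIntegral R (aeval η Q) := fun Q =>
      adjoin_le_integralClosure hηR (aeval_mem_adjoin_singleton R η)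
    rw [← hev] at hU hG
    rw [← hev] at hG
    rw [eq_div_of_mul_eq (ne_zero_of_norm_eq_one hU) hG, div_eq_mul_inv]
    exact (hint _).isAlgebraic.mul (hint _).isAlgebraic.inv
  have hx' : AlgebraicIndependent k x := by
    let x' : ι → A := fun i => ⟨x i, hxA i⟩
    let y' : ι → A := fun i => ⟨y i, hyA i⟩
    have hy' : AlgebraicIndependent k y' := AlgebraicIndependent.of_comp A.val hy
    have hmap : (Algebra.adjoin k (Set.range x')).map A.val = R := by
      rw [AlgHom.map_adjoin, ← Set.range_comp]; rfl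
    have : Algebra.IsAlgebraic (Algebra.adjoin k (Set.range x')) A := by
      refine ⟨fun a => ?_⟩
      let ε : Algebra.adjoin k (Set.range x') ≃ₐ[k] R :=
        ((Algebra.adjoin k (Set.range x')).equivMapOfInjective A.val
          Subtype.val_injective).trans (Subalgebra.equivOfEq _ _ hmap)
      exact (halg a a.2).of_ringHom_of_comp_eq (ε : _ →+* R) A.val.toRingHom ε.surjective
        Subtype.val_injective (RingHom.ext fun _ => rfl)
    exact (Algebra.IsAlgebraic.isTranscendenceBasis_of_lift_le_trdeg_of_finite k x'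
      hy'.lift_cardinalMk_le_trdeg).1.map' (f := A.val) Subtype.val_injective
  refine descent hsm K Z Z' hZZ hK hZK x hx' (fun i => (hx i).le) hxK η (P.map φ) (hP.map φ)
    ((hev P).trans h0) (by rw [derivative_map, hev]; exact h1) fun z hz => ?_
  obtain ⟨U, G, hU, hG⟩ := hall z (hZA z hz)
  exact ⟨U.map φ, G.map φ, by rwa [hev], by rwa [hev, hev]⟩

/-- `a` lies in the ideal generated by `x` after localizing `A` at the centre. -/
def JJ {ι : Type} [Fintype ι] (A : Subalgebra k Ω) (x : ι → Ω) (a : Ω) : Prop :=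
  ∃ u ∈ A, ‖u‖ = 1 ∧ ∃ c : ι → Ω, (∀ i, c i ∈ A) ∧ u * a = ∑ i, c i * x i

section JJ

variable {ι : Type} [Fintype ι] {A : Subalgebra k Ω} {x : ι → Ω}

omit [IsUltrametricDist Ω] [Ctx k Ω]

theorem JJ.add {a b : Ω} (ha : JJ A x a) (hb : JJ A x b) : JJ A x (a + b) := by
  obtain ⟨u, hu, h1, c, hc, e⟩ := ha
  obtain ⟨u', hu', h1', c', hc', e'⟩ := hb
  refine ⟨u * u', mul_mem hu hu', by rw [norm_mul, h1, h1', one_mul],
    fun i => u' * c i + u * c' i, fun i => add_mem (mul_mem hu' (hc i)) (mul_mem hu (hc' i)), ?_⟩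
  simp only [add_mul, Finset.sum_add_distrib, mul_assoc, ← Finset.mul_sum, ← e, ← e']
  ring

theorem JJ.mul {a b : Ω} (hb : b ∈ A) (ha : JJ A x a) : JJ A x (b * a) := by
  obtain ⟨u, hu, h1, c, hc, e⟩ := ha
  refine ⟨u, hu, h1, fun i => b * c i, fun i => mul_mem hb (hc i), ?_⟩
  simp only [mul_assoc, ← Finset.mul_sum, ← e]
  ring

theorem JJ.div {a t : Ω} (ht : t ∈ A) (h1 : ‖t‖ = 1) (ha : JJ A x (t * a)) : JJ A x a := by
  obtain ⟨u, hu, h2, c, hc, e⟩ := ha
  exact ⟨u * t, mul_mem hu ht, by rw [norm_mul, h1, h2, one_mul], c, hc, by rw [mul_assoc, e]⟩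

theorem JJ.gen (i : ι) : JJ A x (x i) := by
  classical
  refine ⟨1, one_mem _, norm_one, Pi.single i 1, fun j => ?_, by simp [Pi.single_apply]⟩
  rw [Pi.single_apply]
  split_ifs
  exacts [one_mem _, zero_mem _]

end JJ

theorem model_of_approx [IsAlgClosed Ω] (hsm : SmoothStmt k Ω) (K : IntermediateField k Ω)
    (Z Z' : Finset Ω) (hZZ : Z ⊆ Z') (hK : K ≤ adjoin k (Z' : Set Ω)) (hZK : ∀ z ∈ Z', z ∈ K)
    {ι : Type} [Fintype ι] (x y : ι → Ω) (hy : AlgebraicIndependent k y) (hy1 : ∀ i, ‖y i‖ < 1)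
    (hxK : ∀ i, x i ∈ K) (η : Ω) (P : Polynomial Ω) (hP : P.Monic)
    (hPc : ∀ i, P.coeff i ∈ Algebra.adjoin k (Set.range y)) (h0 : P.eval η = 0)
    (h1 : ‖P.derivative.eval η‖ = 1) (j : ι) (q : ι → Ω) (hq1 : ∀ i, ‖q i‖ < 1)
    (hq : ∀ i, y i - x i = q i * y j)
    (hqm : ∀ i, q i ∈ loc (Algebra.adjoin k (Set.range y) ⊔ Algebra.adjoin k {η}))
    (hZ : ∀ z ∈ Z', z ∈ loc (Algebra.adjoin k (Set.range y) ⊔ Algebra.adjoin k {η})) :
    ∃ A, Model K Z A := by
  classical
  let R := Algebra.adjoin k (Set.range y)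
  let B := R ⊔ Algebra.adjoin k {η}
  obtain ⟨u, huB, hu1, hu⟩ := Final.common_den B (Z' ∪ Finset.univ.image q) (by
    intro b hb
    rcases Finset.mem_union.1 hb with hb | hb
    · exact hZ b hb
    · obtain ⟨i, -, rfl⟩ := Finset.mem_image.1 hb
      exact hqm i)
  have hu0 := ne_zero_of_norm_eq_one hu1
  let A := B ⊔ Algebra.adjoin k {u⁻¹}
  have hBA : B ≤ A := le_sup_left
  have hRA : R ≤ A := le_sup_left.trans hBA
  have hηA : η ∈ A := hBA ((le_sup_right : _ ≤ B) (Algebra.self_mem_adjoin_singleton k η))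
  have huA : u⁻¹ ∈ A := (le_sup_right : _ ≤ A) (Algebra.self_mem_adjoin_singleton k _)
  have hyA : ∀ i, y i ∈ A := fun i => hRA (Algebra.subset_adjoin ⟨i, rfl⟩)
  have hdiv : ∀ b ∈ Z' ∪ Finset.univ.image q, b ∈ A := fun b hb => by
    rw [← mul_inv_cancel_right₀ hu0 b]
    exact mul_mem (hBA (hu b hb)) huA
  have hqA : ∀ i, q i ∈ A := fun i =>
    hdiv _ (Finset.mem_union_right _ (Finset.mem_image_of_mem q (Finset.mem_univ i)))
  have hxe : ∀ i, x i = y i - q i * y j := fun i => by rw [← hq, sub_sub_cancel]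
  have hxA : ∀ i, x i ∈ A := fun i => hxe i ▸ sub_mem (hyA i) (mul_mem (hqA i) (hyA j))
  have hx1 : ∀ i, ‖x i‖ < 1 := fun i => by
    rw [hxe]
    refine norm_sub_lt_of (hy1 i) ?_
    rw [norm_mul]
    exact mul_lt_one_of_nonneg_of_lt_one_left (norm_nonneg _) (hq1 i) (hy1 j).le
  have hR1 : R ≤ intAlg k Ω := Algebra.adjoin_le (Set.range_subset_iff.2 fun i => (hy1 i).le)
  have lift : ∀ D : Subalgebra k Ω, R ≤ D →
      ∃ Q : Polynomial D, Q.map (algebraMap D Ω) = P ∧ Q.Monic := by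
    intro D hD
    obtain ⟨Q, e, -, hQ⟩ := lifts_and_degree_eq_and_monic
      ((lifts_iff_coeff_lifts (f := algebraMap D Ω) P).2 fun n => ⟨⟨_, hD (hPc n)⟩, rfl⟩) hP
    exact ⟨Q, e, hQ⟩
  have hη1 : ‖η‖ ≤ 1 := by
    obtain ⟨Q, e, hQ⟩ := lift R le_rfl
    exact norm_le_of_integral hR1 ⟨Q, hQ, by rw [← eval_map, e, h0]⟩
  have hA1 : A ≤ intAlg k Ω := sup_le
    (sup_le hR1 (Algebra.adjoin_le (Set.singleton_subset_iff.2 hη1)))
    (Algebra.adjoin_le (Set.singleton_subset_iff.2 (by
      change ‖u⁻¹‖ ≤ 1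
      rw [norm_inv, hu1, inv_one])))
  have hJ : ∀ a, JJ A x a → ‖a‖ < 1 := by
    rintro a ⟨t, -, ht, c, hc, e⟩
    have := congrArg norm e
    rw [norm_mul, ht, one_mul] at this
    rw [this]
    refine norm_sum_lt_of one_pos fun i _ => ?_
    rw [norm_mul]
    exact mul_lt_one_of_nonneg_of_lt_one_right (hA1 (hc i)) (norm_nonneg _) (hx1 i)
  let S : Subalgebra k Ω :=
    { carrier := {a | a ∈ A ∧ ∃ c : k, JJ A x (a - algebraMap k Ω c)}
      mul_mem' := by
        rintro a b ⟨ha, c, hc⟩ ⟨hb, d, hd⟩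
        refine ⟨mul_mem ha hb, c * d, ?_⟩
        have := (hc.mul hb).add (hd.mul (A.algebraMap_mem c))
        rwa [show b * (a - algebraMap k Ω c) + algebraMap k Ω c * (b - algebraMap k Ω d) =
          a * b - algebraMap k Ω (c * d) by rw [map_mul]; ring] at this
      add_mem' := by
        rintro a b ⟨ha, c, hc⟩ ⟨hb, d, hd⟩
        refine ⟨add_mem ha hb, c + d, ?_⟩
        have := hc.add hd
        rwa [show a - algebraMap k Ω c + (b - algebraMap k Ω d) =
          a + b - algebraMap k Ω (c + d) by rw [map_add]; ring] at this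
      algebraMap_mem' := fun c => ⟨A.algebraMap_mem c, c, by
        rw [sub_self]
        simpa using (JJ.gen (A := A) (x := x) j).mul (zero_mem A)⟩ }
  have hS : ∀ a ∈ S, ‖a‖ < 1 → JJ A x a := by
    rintro a ⟨-, c, hc⟩ ha
    have h2 : ‖algebraMap k Ω c‖ < 1 := by
      have := norm_sub_lt_of ha (hJ _ hc)
      rwa [sub_sub_cancel] at this
    rwa [eq_zero_of_norm_alg_lt h2, map_zero, sub_zero] at hc
  have hRS : R ≤ S := by
    refine Algebra.adjoin_le (Set.range_subset_iff.2 fun i => ⟨hyA i, 0, ?_⟩)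
    have h2 : ‖1 - q j‖ = 1 := by rw [norm_sub_eq_left (by rw [norm_one]; exact hq1 j), norm_one]
    have h3 : 1 - q j ∈ A := sub_mem (one_mem _) (hqA j)
    refine JJ.div h3 h2 ?_
    have := ((JJ.gen (x := x) i).mul h3).add ((JJ.gen (x := x) j).mul (hqA i))
    rwa [show (1 - q j) * x i + q i * x j = (1 - q j) * (y i - algebraMap k Ω 0) by
      rw [hxe i, hxe j, map_zero]; ring] at this
  have hηS : η ∈ S := by
    obtain ⟨c, hc⟩ := Ctx.res (k := k) η hη1
    obtain ⟨Q, e, -⟩ := lift A hRA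
    obtain ⟨w, hw⟩ := binomExpansion Q ⟨η, hηA⟩ ⟨algebraMap k Ω c - η,
      sub_mem (A.algebraMap_mem c) hηA⟩
    have hev : ∀ (T : Polynomial A) (b : A),
        ((T.eval b : A) : Ω) = (T.map (algebraMap A Ω)).eval (b : Ω) := fun T b => by
      rw [eval_map]; exact (eval₂_at_apply (algebraMap A Ω) b).symm
    have h2 := congrArg Subtype.val hw
    simp only [AddMemClass.coe_add, MulMemClass.coe_mul, SubmonoidClass.coe_pow, hev,
      ← derivative_map, e, add_sub_cancel, h0, zero_add] at h2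
    have h3 : ‖(w : Ω) * (algebraMap k Ω c - η)‖ < 1 := by
      rw [norm_mul, norm_sub_rev]
      exact mul_lt_one_of_nonneg_of_lt_one_right (hA1 w.2) (norm_nonneg _) hc
    have h4 : ‖P.derivative.eval η + w * (algebraMap k Ω c - η)‖ = 1 := by
      rw [norm_add_eq_left (by rwa [h1]), h1]
    have h5 : P.derivative.eval η + w * (algebraMap k Ω c - η) ∈ A :=
      add_mem (Final.eval_mem A _ (Final.deriv_mem A P fun i => hRA (hPc i)) hηA)
        (mul_mem w.2 (sub_mem (A.algebraMap_mem c) hηA))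
    have h6 : (P.derivative.eval η + w * (algebraMap k Ω c - η)) * (η - algebraMap k Ω c) =
        -1 * P.eval (algebraMap k Ω c) := by rw [h2]; ring
    refine ⟨hηA, c, JJ.div h5 h4 ?_⟩
    rw [h6]
    refine JJ.mul (neg_mem (one_mem _))
      (hS _ (hRS (Final.eval_mem R P hPc (R.algebraMap_mem c))) ?_)
    have := congrArg norm h6
    rw [norm_mul, h4, one_mul, neg_one_mul, norm_neg] at this
    rwa [← this]
  have hBS : B ≤ S := sup_le hRS (Algebra.adjoin_le (Set.singleton_subset_iff.2 hηS))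
  have huS : u⁻¹ ∈ S := by
    obtain ⟨-, c, hc⟩ := hBS huB
    have hc0 : algebraMap k Ω c ≠ 0 := by
      intro h
      have := hJ _ hc
      rw [h, sub_zero, hu1] at this
      exact lt_irrefl _ this
    refine ⟨huA, c⁻¹, ?_⟩
    have := hc.mul (neg_mem (mul_mem huA (A.algebraMap_mem c⁻¹)))
    rwa [show -(u⁻¹ * algebraMap k Ω c⁻¹) * (u - algebraMap k Ω c) =
      u⁻¹ - algebraMap k Ω c⁻¹ by rw [map_inv₀]; field_simp; ring] at this
  have hAS : A ≤ S := sup_le hBS (Algebra.adjoin_le (Set.singleton_subset_iff.2 huS))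
  have hfg : A.FG := ((Subalgebra.fg_def.2 ⟨_, Set.finite_range y, rfl⟩).sup
    (Subalgebra.fg_def.2 ⟨_, Set.finite_singleton _, rfl⟩)).sup
      (Subalgebra.fg_def.2 ⟨_, Set.finite_singleton _, rfl⟩)
  exact model_of_centre hsm K Z Z' hZZ hK hZK x y hy hxK A hfg hA1 hxA hyA
    (fun z hz => hdiv z (Finset.mem_union_left _ hz)) hx1 fun a ha h => hS a (hAS ha) h

end FinalA

end Pool.Agent.MP_19ffc6_ag.LU3

end MrgPart2

-- marker of a merged file
example : 731051 + 99251 = 731051 + 99251 := rfl
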