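import Mathlib.Algebra.Module.Submodule.Union
import Mathlib.Data.Finset.Functor
import Mathlib.RingTheory.MvPolynomial.Ideal
import Mathlib.RingTheory.MvPolynomial.IrreducibleQuadratic
import Pool.Agent.MP_19ffc6_ag.LU.Perron
import Pool.Agent.MP_19ffc6_ag.LU.HensB

-- ======== part 0: formerly Pool.Agent.MP_19ffc6_ag.LU3.Hring
section MrgPart0

/-! PROJECT LU3, ring kit: endomorphisms of `Ω`, GEN, and the henselization of a normal ring
inside `Ω`. -/

namespace Pool.Agent.MP_19ffc6_ag.LU3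

open Polynomial IntermediateField Pool.Agent.MP_19ffc6_ag.LU

namespace Hr

section Field

variable {K Ω : Type*} [Field K] [Field Ω] [Algebra K Ω]

/-- An embedding of an algebraic extension extends to an endomorphism of `Ω`. -/
theorem ext_hom [IsAlgClosed Ω] {F : Type*} [Field F] [Algebra K F] [Algebra.IsAlgebraic K F]
    (φ₀ φ : F →ₐ[K] Ω) : ∃ τ : Ω →ₐ[K] Ω, ∀ a : F, τ (φ₀ a) = φ a := by
  obtain ⟨ι, v, hv⟩ := exists_isTranscendenceBasis' K Ω
  have h1 : ∀ φ : F →ₐ[K] Ω, Function.Injective (MvPolynomial.eval₂Hom (φ : F →+* Ω) v) := by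
    intro φ
    let _ : Algebra F Ω := (φ : F →+* Ω).toAlgebra
    have : IsScalarTower K F Ω := IsScalarTower.of_algebraMap_eq fun c => (φ.commutes c).symm
    exact hv.1.extendScalars F
  let A1 := (MvPolynomial.eval₂Hom (φ₀ : F →+* Ω) v).toAlgebra
  let A2 := (MvPolynomial.eval₂Hom (φ : F →+* Ω) v).toAlgebra
  have h3 : @Algebra.IsAlgebraic (MvPolynomial ι F) Ω _ _ A1 := by
    let _ := A1
    have := hv.isAlgebraic
    refine ⟨fun a => ?_⟩
    obtain ⟨P, hP, h⟩ := this.isAlgebraic a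
    refine ⟨P.map ((MvPolynomial.map (algebraMap K F)).comp
      (hv.1.aevalEquiv.symm : _ →+* MvPolynomial ι K)), ?_, ?_⟩
    · refine (Polynomial.map_ne_zero_iff ?_).2 hP
      rw [RingHom.coe_comp]
      exact (MvPolynomial.map_injective _ (algebraMap K F).injective).comp
        hv.1.aevalEquiv.symm.injective
    · rw [aeval_def, eval₂_map, ← h, aeval_def]
      congr 1
      ext1 x
      obtain ⟨y, rfl⟩ := hv.1.aevalEquiv.surjective x
      simp only [RingHom.comp_apply, RingHom.coe_coe, AlgEquiv.symm_apply_apply]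
      change MvPolynomial.eval₂Hom (φ₀ : F →+* Ω) v _ = MvPolynomial.aeval v y
      rw [MvPolynomial.eval₂Hom_map_hom, MvPolynomial.aeval_def, AlgHom.comp_algebraMap]
      rfl
  have t1 : @Module.IsTorsionFree (MvPolynomial ι F) Ω _ _ A1.toModule := by
    let _ := A1
    exact (Module.isTorsionFree_iff_algebraMap_injective).2 (h1 φ₀)
  have t2 : @Module.IsTorsionFree (MvPolynomial ι F) Ω _ _ A2.toModule := by
    let _ := A2
    exact (Module.isTorsionFree_iff_algebraMap_injective).2 (h1 φ)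
  let ψ := @IsAlgClosed.lift Ω _ _ (MvPolynomial ι F) _ _ Ω _ _ A1 A2 t1 t2 h3
  have hψ : ∀ a : F, ψ (φ₀ a) = φ a := fun a => by
    have := @AlgHom.commutes _ _ _ _ _ _ A1 A2 ψ (MvPolynomial.C a)
    simpa [RingHom.algebraMap_toAlgebra] using this
  refine ⟨⟨@AlgHom.toRingHom _ _ _ _ _ _ A1 A2 ψ, fun c => ?_⟩, hψ⟩
  have := hψ (algebraMap K F c)
  rw [φ.commutes, φ₀.commutes] at this
  exact this

/-- Conjugate elements are moved to each other by endomorphisms of `Ω`. -/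
theorem conj [IsAlgClosed Ω] {a b : Ω} (ha : IsIntegral K a)
    (hb : aeval b (minpoly K a) = 0) : ∃ τ : Ω →ₐ[K] Ω, τ a = b := by
  have : Algebra.IsAlgebraic K K⟮a⟯ := isAlgebraic_adjoin_simple ha
  let φ : K⟮a⟯ →ₐ[K] Ω := (algHomAdjoinIntegralEquiv K ha).symm
    ⟨b, by rw [mem_aroots]; exact ⟨minpoly.ne_zero ha, hb⟩⟩
  obtain ⟨τ, hτ⟩ := ext_hom K⟮a⟯.val φ
  refine ⟨τ, (hτ (AdjoinSimple.gen K a)).trans ?_⟩
  exact algHomAdjoinIntegralEquiv_symm_apply_gen K ha _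

theorem fix [IsAlgClosed Ω] {a : Ω} (ha : IsSeparable K a) (h : ∀ τ : Ω →ₐ[K] Ω, τ a = a) :
    a ∈ (algebraMap K Ω).range := by
  classical
  set f := (minpoly K a).map (algebraMap K Ω) with hf
  have hnd : f.roots.Nodup := nodup_roots (Separable.map ha)
  have hall : ∀ b ∈ f.roots, b = a := fun b hb => by
    have := isRoot_of_mem_roots hb
    rw [IsRoot.def, eval_map_algebraMap] at this
    obtain ⟨τ, h1⟩ := conj ha.isIntegral this
    rw [← h1, h]
  have hc : f.roots.card ≤ 1 := by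
    have h1 : f.roots = Multiset.replicate f.roots.card a :=
      Multiset.eq_replicate_card.2 hall
    rw [h1] at hnd
    simpa using Multiset.nodup_iff_count_le_one.1 hnd a
  have hd : f.natDegree = f.roots.card := (IsAlgClosed.splits f).natDegree_eq_card_roots
  have hpos := minpoly.natDegree_pos ha.isIntegral
  have h2 : f.natDegree = (minpoly K a).natDegree := natDegree_map _
  exact minpoly.natDegree_eq_one_iff.1 (by omega)

/-- A simple root is separable. -/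
theorem sep_of_simple {a : Ω} {P : K[X]} (h0 : aeval a P = 0) (h1 : aeval a (derivative P) ≠ 0) :
    IsSeparable K a := by
  have hP : P ≠ 0 := by rintro rfl; simp at h1
  have hi : IsIntegral K a := (IsAlgebraic.isIntegral ⟨P, hP, h0⟩)
  refine (separable_iff_derivative_ne_zero (minpoly.irreducible hi)).2 fun h => h1 ?_
  obtain ⟨Q, rfl⟩ := minpoly.dvd K a h0
  simp [derivative_mul, h]

theorem exists_pow_sep {a : Ω} (ha : IsIntegral K a) : ∃ n, 0 < n ∧ IsSeparable K (a ^ n) := by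
  obtain ⟨q, hq⟩ := ExpChar.exists K
  obtain ⟨g, h1, n, h2⟩ := (minpoly.irreducible ha).hasSeparableContraction q
  refine ⟨q ^ n, pow_pos (expChar_pos K q) n, h1.of_dvd (minpoly.dvd K _ ?_)⟩
  rw [← expand_aeval, h2, minpoly.aeval]

end Field

section Gen

variable {k Ω : Type*} [Field k] [NontriviallyNormedField Ω] [Algebra k Ω]

/-- Polynomials with coefficients in a subring. -/
noncomputable def cf (A : Subring Ω) : Subring (Polynomial Ω) := liftsRing A.subtype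

theorem mem_cf {A : Subring Ω} {P : Polynomial Ω} : P ∈ cf A ↔ ∀ i, P.coeff i ∈ A := by
  rw [cf, ← lifts_iff_liftsRing, lifts_iff_coeff_lifts]
  simp

theorem C_mem_cf {A : Subring Ω} {a : Ω} (h : a ∈ A) : C a ∈ cf A :=
  mem_cf.2 fun i => by rw [coeff_C]; split_ifs; exacts [h, A.zero_mem]

theorem X_sub_C_mem_cf {A : Subring Ω} {a : Ω} (h : a ∈ A) : X - C a ∈ cf A :=
  (cf A).sub_mem ⟨X, by simp⟩ (C_mem_cf h)

theorem isInt_iff {R : Subalgebra k Ω} {a : Ω} :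
    IsIntegral R a ↔ ∃ P : Polynomial Ω, P.Monic ∧ (∀ i, P.coeff i ∈ R) ∧ P.eval a = 0 := by
  constructor
  · rintro ⟨P, h1, h2⟩
    exact ⟨P.map (algebraMap R Ω), h1.map _, fun i => by rw [coeff_map]; exact (P.coeff i).2,
      by rw [eval_map]; exact h2⟩
  · rintro ⟨P, h1, h2, h3⟩
    obtain ⟨Q, rfl, -, hQ⟩ := lifts_and_natDegree_eq_and_monic (f := algebraMap R Ω)
      ((lifts_iff_coeff_lifts P).2 fun i => ⟨⟨_, h2 i⟩, rfl⟩) h1
    exact ⟨Q, hQ, by rwa [eval_map] at h3⟩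

theorem isInt_of_mem {R : Subalgebra k Ω} {a : Ω} (h : a ∈ R) : IsIntegral R a :=
  isIntegral_algebraMap (x := (⟨a, h⟩ : R))

theorem isInt_mono {R R' : Subalgebra k Ω} (h : R ≤ R') {a : Ω} (ha : IsIntegral R a) :
    IsIntegral R' a := by
  obtain ⟨P, h1, h2, h3⟩ := isInt_iff.1 ha
  exact isInt_iff.2 ⟨P, h1, fun i => h (h2 i), h3⟩

theorem isInt_trans {R R' : Subalgebra k Ω} (h : ∀ a ∈ R', IsIntegral R a) {a : Ω}
    (ha : IsIntegral R' a) : IsIntegral R a := by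
  obtain ⟨P, h1, h2, h3⟩ := isInt_iff.1 ha
  obtain ⟨Q, rfl, -, hQ⟩ := lifts_and_natDegree_eq_and_monic
    (f := algebraMap (integralClosure R Ω) Ω)
    ((lifts_iff_coeff_lifts P).2 fun i => ⟨⟨_, h _ (h2 i)⟩, rfl⟩) h1
  exact isIntegral_trans (A := integralClosure R Ω) a ⟨Q, hQ, by rwa [eval_map] at h3⟩

theorem hom_eval (τ : Ω →+* Ω) {P : Polynomial Ω} (h : ∀ i, τ (P.coeff i) = P.coeff i) (z : Ω) :
    τ (P.eval z) = P.eval (τ z) := by
  have h1 : P.map τ = P := by ext i; rw [coeff_map, h]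
  conv_rhs => rw [← h1]
  rw [eval_map, eval₂_at_apply]

theorem hom_fix {M : IntermediateField k Ω} (τ : Ω →ₐ[M] Ω) {a : Ω} (h : a ∈ M) : τ a = a :=
  τ.commutes ⟨a, h⟩

/-- The elements fixed by an endomorphism. -/
def fixF {M : IntermediateField k Ω} (τ : Ω →ₐ[M] Ω) : IntermediateField k Ω :=
  (AlgHom.equalizer (τ.restrictScalars k) (AlgHom.id k Ω)).toIntermediateField fun x hx => by
    have : τ x = x := hx
    change τ x⁻¹ = x⁻¹
    rw [map_inv₀, this]

theorem mem_fixF {M : IntermediateField k Ω} {τ : Ω →ₐ[M] Ω} {a : Ω} : a ∈ fixF τ ↔ τ a = a :=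
  Iff.rfl

theorem isInt_hom {R : Subalgebra k Ω} {M : IntermediateField k Ω} (h : ∀ a ∈ R, a ∈ M)
    (τ : Ω →ₐ[M] Ω) {a : Ω} (ha : IsIntegral R a) : IsIntegral R (τ a) := by
  obtain ⟨P, h1, h2, h3⟩ := isInt_iff.1 ha
  refine isInt_iff.2 ⟨P, h1, h2, ?_⟩
  have := hom_eval (τ : Ω →+* Ω) (fun i => hom_fix τ (h _ (h2 i))) a
  rw [h3, map_zero] at this
  exact this.symm

variable [IsUltrametricDist Ω]

/-- A root of a monic polynomial is bounded by the coefficients. -/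
theorem exists_coeff_ge {P : Polynomial Ω} (hP : P.Monic) {a : Ω} (h0 : P.eval a = 0) (h1 : 1 ≤ ‖a‖) :
    ∃ i < P.natDegree, ‖a‖ ≤ ‖P.coeff i‖ := by
  by_contra hc
  push Not at hc
  have h2 : 0 < ‖a‖ := one_pos.trans_le h1
  rw [eval_eq_sum_range, Finset.sum_range_succ, hP.coeff_natDegree, one_mul] at h0
  have h3 : ‖∑ i ∈ Finset.range P.natDegree, P.coeff i * a ^ i‖ < ‖a‖ ^ P.natDegree := by
    refine norm_sum_lt_of (pow_pos h2 _) fun i hi => ?_
    rw [Finset.mem_range] at hi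
    rw [norm_mul, norm_pow]
    calc _ < ‖a‖ * ‖a‖ ^ i := mul_lt_mul_of_pos_right (hc i hi) (pow_pos h2 _)
      _ = ‖a‖ ^ (i + 1) := by ring
      _ ≤ _ := pow_le_pow_right₀ h1 hi
  rw [eq_neg_of_add_eq_zero_left h0, norm_neg, norm_pow] at h3
  exact lt_irrefl _ h3

theorem norm_le_of_int {R : Subalgebra k Ω} (hR : ∀ a ∈ R, ‖a‖ ≤ 1) {a : Ω}
    (ha : IsIntegral R a) : ‖a‖ ≤ 1 := by
  obtain ⟨P, h1, h2, h3⟩ := isInt_iff.1 ha
  by_contra h
  obtain ⟨i, -, hi⟩ := exists_coeff_ge h1 h3 (not_le.1 h).le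
  exact h (hi.trans (hR _ (h2 i)))

variable [Ctx k Ω]

/-- A simple root is alone in its residue class. -/
theorem uni (k : Type*) [Field k] [Algebra k Ω] [Ctx k Ω] {P : Polynomial Ω} (hP : ∀ i, ‖P.coeff i‖ ≤ 1)
    {z w : Ω} (hz : ‖z‖ ≤ 1) (hw : ‖w - z‖ < 1) (h0 : P.eval z = 0) (h0' : P.eval w = 0)
    (h1 : ‖P.derivative.eval z‖ = 1) : w = z := by
  obtain ⟨κ, hκ, h⟩ := Desc.taylor (intAlg k Ω) P hP (x := z) (δ := w - z) hz hw.le
  rw [add_sub_cancel, h0, h0', zero_add] at h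
  have h2 : ‖κ * (w - z)‖ < ‖P.derivative.eval z‖ := by
    rw [h1, norm_mul]
    exact mul_lt_one_of_nonneg_of_lt_one_right hκ (norm_nonneg _) hw
  have h3 : P.derivative.eval z + κ * (w - z) ≠ 0 := by
    rw [← norm_ne_zero_iff, norm_add_eq_left h2, h1]
    exact one_ne_zero
  have h4 : (P.derivative.eval z + κ * (w - z)) * (w - z) = 0 := by linear_combination -h
  exact sub_eq_zero.1 ((mul_eq_zero.1 h4).resolve_left h3)

/-- A normal ring of integral elements inside the field `M`. -/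
structure Base (R : Subalgebra k Ω) (M : IntermediateField k Ω) : Prop where
  le : ∀ a ∈ R, a ∈ M
  norm : ∀ a ∈ R, ‖a‖ ≤ 1
  nor : ∀ a ∈ M, IsIntegral R a → a ∈ R

/-- A generic combination of finitely many vectors has norm one. -/
theorem generic [Infinite k] {J T : Type*} [Finite J] [Fintype T] (v : J → T → Ω)
    (h1 : ∀ j t, ‖v j t‖ ≤ 1) (h2 : ∀ j, ∃ t, ‖v j t‖ = 1) :
    ∃ c : T → k, ∀ j, ‖∑ t, c t • v j t‖ = 1 := by
  classical
  let W : J → Submodule k (T → k) := fun j =>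
    { carrier := {c | ‖∑ t, c t • v j t‖ < 1}
      add_mem' := fun {a b} ha hb => by
        simp only [Set.mem_ofPred_eq, Pi.add_apply, add_smul, Finset.sum_add_distrib] at *
        exact norm_add_lt_of ha hb
      zero_mem' := by simp
      smul_mem' := fun r a ha => by
        simp only [Set.mem_ofPred_eq, Pi.smul_apply, smul_eq_mul, mul_smul,
          ← Finset.smul_sum] at *
        exact (norm_smul_le_self _ _).trans_lt ha }
  obtain ⟨c, hc⟩ := Submodule.exists_forall_notMem_of_forall_ne_top W fun j hj => by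
    obtain ⟨t, ht⟩ := h2 j
    have : Pi.single t (1 : k) ∈ W j := hj ▸ Submodule.mem_top
    change ‖∑ t', (Pi.single t (1 : k) : T → k) t' • v j t'‖ < 1 at this
    rw [Finset.sum_eq_single t (fun b _ hb => by simp [hb]) (by simp)] at this
    simp [ht] at this
  refine ⟨c, fun j => le_antisymm ?_ (not_lt.1 (hc j))⟩
  exact norm_sum_le_of zero_le_one fun t _ => (norm_smul_le_self _ _).trans (h1 j t)

/-- GEN: a split finite set of integral elements generates the field of one henselian root. -/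
theorem gen [IsAlgClosed Ω] [Infinite k] {R : Subalgebra k Ω} {M : IntermediateField k Ω}
    (hB : Base R M) (S : Finset Ω) (h1 : ∀ s ∈ S, IsIntegral R s) (h2 : ∀ s ∈ S, IsSeparable M s)
    (h3 : ∀ τ : Ω →ₐ[M] Ω, (∀ s ∈ S, ‖τ s - s‖ < 1) → ∀ s ∈ S, τ s = s) :
    ∃ η ∈ Submodule.span k (S : Set Ω), ∃ P : Polynomial Ω, P.Monic ∧ (∀ i, P.coeff i ∈ R) ∧
      P.eval η = 0 ∧ ‖P.derivative.eval η‖ = 1 ∧
      (∀ Q : Polynomial Ω, (∀ i, Q.coeff i ∈ M) → Q.eval η = 0 → Q.degree < P.degree → Q = 0) ∧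
      ∀ b ∈ adjoin M (S : Set Ω), IsIntegral R b →
        ∃ G : Polynomial Ω, (∀ i, G.coeff i ∈ R) ∧ b * P.derivative.eval η = G.eval η := by
  classical
  set K := adjoin M (S : Set Ω)
  have : FiniteDimensional M K := finiteDimensional_adjoin fun z hz => (h2 z hz).isIntegral
  have : Algebra.IsSeparable M K := (isSeparable_adjoin_iff_isSeparable _ _).2 h2
  let g : S → K := fun s => ⟨s, subset_adjoin _ _ s.2⟩
  have hint : ∀ (φ : K →ₐ[M] Ω) (b : K), IsIntegral R (b : Ω) → IsIntegral R (φ b) := by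
    intro φ b hb
    obtain ⟨τ, hτ⟩ := ext_hom K.val φ
    rw [← hτ]
    exact isInt_hom hB.le τ hb
  have hv1 : ∀ (φ : {φ : K →ₐ[M] Ω // φ ≠ K.val}) (s : S), ‖φ.1 (g s) - s‖ ≤ 1 := fun φ s =>
    norm_sub_le_of (norm_le_of_int hB.norm (hint _ _ (h1 s s.2))) (norm_le_of_int hB.norm (h1 s s.2))
  obtain ⟨c, hc⟩ := generic (k := k) _ hv1 fun φ => by
    by_contra hn
    push Not at hn
    obtain ⟨τ, hτ⟩ := ext_hom K.val φ.1
    have h4 := h3 τ fun s hs => by
      have := (hv1 φ ⟨s, hs⟩).lt_of_ne (hn _)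
      rwa [← hτ] at this
    refine φ.2 (adjoin_algHom_ext _ fun s hs => ?_)
    rw [← hτ]
    exact h4 s hs
  let η : K := ∑ s, algebraMap k K (c s) * g s
  have hη : ∀ φ : K →ₐ[M] Ω, φ η = ∑ s, c s • φ (g s) := fun φ => by
    rw [map_sum]
    refine Finset.sum_congr rfl fun s _ => ?_
    rw [map_mul, Algebra.smul_def, IsScalarTower.algebraMap_apply k M K, φ.commutes]
    rfl
  have hd : ∀ φ : K →ₐ[M] Ω, φ ≠ K.val → ‖φ η - K.val η‖ = 1 := fun φ hφ => by
    rw [hη, hη, ← Finset.sum_sub_distrib, ← hc ⟨φ, hφ⟩]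
    simp only [smul_sub]
    rfl
  have htop : M⟮η⟯ = ⊤ := by
    refine (Field.primitive_element_iff_algHom_eq_of_eval M Ω (fun _ => IsAlgClosed.splits _) η
      K.val).2 fun ψ hψ => ?_
    by_contra hne
    have := hd ψ (Ne.symm hne)
    rw [hψ, sub_self, norm_zero] at this
    exact zero_ne_one this
  have hspan : (η : Ω) ∈ Submodule.span k (S : Set Ω) := by
    change K.val η ∈ _
    rw [hη]
    exact Submodule.sum_mem _ fun s _ => Submodule.smul_mem _ _ (Submodule.subset_span s.2)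
  have hηi : IsIntegral R (η : Ω) := by
    change IsIntegral R (K.val η)
    rw [hη]
    refine IsIntegral.sum _ fun s _ => ?_
    rw [Algebra.smul_def]
    exact (isInt_of_mem (R.algebraMap_mem _)).mul (h1 s s.2)
  have hnod : ∀ t : Finset (K →ₐ[M] Ω), (Lagrange.nodal t fun σ : K →ₐ[M] Ω => σ η) ∈
      cf (integralClosure R Ω).toSubring := fun t =>
    Subring.prod_mem _ fun σ _ => X_sub_C_mem_cf (hint σ η hηi)
  have hco : ∀ G : M[X], G.map (algebraMap M Ω) ∈ cf (integralClosure R Ω).toSubring →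
      ∀ i, (G.map (algebraMap M Ω)).coeff i ∈ R := fun G hG i =>
    hB.nor _ (by rw [coeff_map]; exact (G.coeff i).2) (mem_cf.1 hG i)
  have hev : ∀ G : M[X], (G.map (algebraMap M Ω)).eval (η : Ω) = K.val (aeval η G) := fun G =>
    Eta.eval_map_alg K.val η G
  refine ⟨η, hspan, (minpoly M η).map (algebraMap M Ω),
    (minpoly.monic (IsIntegral.of_finite M η)).map _, hco _ ?_, ?_, ?_, ?_, ?_⟩
  · rw [Eta.map_minpoly htop]
    exact hnod _
  · rw [hev, minpoly.aeval, map_zero]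
  · rw [Eta.map_minpoly htop]
    change ‖eval (K.val η) _‖ = 1
    rw [Lagrange.eval_nodal_derivative_eval_node_eq (v := fun σ : K →ₐ[M] Ω => σ η)
        (Finset.mem_univ K.val), Lagrange.eval_nodal, norm_prod]
    refine Finset.prod_eq_one fun τ hτ => ?_
    rw [norm_sub_rev]
    exact hd τ (Finset.ne_of_mem_erase hτ)
  · intro Q hQ hQ0 hdeg
    obtain ⟨q, rfl⟩ := (mem_lifts Q).1 ((lifts_iff_coeff_lifts (f := algebraMap M Ω) Q).2
      fun n => ⟨⟨_, hQ n⟩, rfl⟩)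
    rw [hev, map_eq_zero] at hQ0
    rw [degree_map, degree_map] at hdeg
    by_contra h0
    have h0' : q ≠ 0 := by rintro rfl; exact h0 (Polynomial.map_zero _)
    exact absurd (minpoly.degree_le_of_ne_zero M η h0' hQ0) hdeg.not_ge
  · intro b hb hbi
    obtain ⟨G, hG, hm⟩ := Eta.interp (Ω := Ω) htop (⟨b, hb⟩ : K)
    refine ⟨G.map (algebraMap M Ω), hco _ ?_, ?_⟩
    · rw [hm]
      exact Subring.sum_mem _ fun τ _ =>
        Subring.mul_mem _ (C_mem_cf (hint τ ⟨b, hb⟩ hbi)) (hnod _)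
    · rw [hev, hG, derivative_map, hev, map_mul]
      rfl

end Gen

end Hr

variable {k Ω : Type*} [Field k] [NontriviallyNormedField Ω] [Algebra k Ω]

/-- A residually simple root of a monic polynomial over `R`. -/
def HRoot (R : Subalgebra k Ω) (η : Ω) : Prop :=
  ∃ P : Polynomial Ω, P.Monic ∧ (∀ i, P.coeff i ∈ R) ∧ P.eval η = 0 ∧ ‖P.derivative.eval η‖ = 1

/-- The henselization of `R` at the centre of the valuation. -/
def HH (R : Subalgebra k Ω) : Subalgebra k Ω := loc (R ⊔ Algebra.adjoin k {η | HRoot R η})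

namespace Hr

/-- The ring generated by `R` and one element. -/
def A1 (R : Subalgebra k Ω) (η : Ω) : Subalgebra k Ω := R ⊔ Algebra.adjoin k {η}

/-- `P` is the minimal polynomial of the henselian root `η`. -/
structure Min (R : Subalgebra k Ω) (M : IntermediateField k Ω) (η : Ω) (P : Polynomial Ω) :
    Prop where
  monic : P.Monic
  coeff : ∀ i, P.coeff i ∈ R
  root : P.eval η = 0
  der : ‖P.derivative.eval η‖ = 1
  min : ∀ Q : Polynomial Ω, (∀ i, Q.coeff i ∈ M) → Q.eval η = 0 → Q.degree < P.degree → Q = 0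

variable {R : Subalgebra k Ω} {M : IntermediateField k Ω} {η : Ω}

theorem Min.hroot {P : Polynomial Ω} (h : Min R M η P) : HRoot R η :=
  ⟨P, h.monic, h.coeff, h.root, h.der⟩

theorem le_A1 (R : Subalgebra k Ω) (η : Ω) : R ≤ A1 R η := le_sup_left

theorem self_mem_A1 (R : Subalgebra k Ω) (η : Ω) : η ∈ A1 R η :=
  (le_sup_right : _ ≤ A1 R η) (Algebra.self_mem_adjoin_singleton k η)

theorem A1_le {B : Subalgebra k Ω} (h1 : R ≤ B) (h2 : η ∈ B) : A1 R η ≤ B :=
  sup_le h1 (Algebra.adjoin_le (Set.singleton_subset_iff.2 h2))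

theorem eval_mem_A1 {G : Polynomial Ω} (hG : ∀ i, G.coeff i ∈ R) (η : Ω) : G.eval η ∈ A1 R η :=
  Desc.eval_mem _ G (fun i => le_A1 R η (hG i)) (self_mem_A1 R η)

theorem exists_eval {a : Ω} (ha : a ∈ A1 R η) :
    ∃ G : Polynomial Ω, (∀ i, G.coeff i ∈ R) ∧ G.eval η = a := by
  let T : Subalgebra k Ω :=
    { carrier := {a | ∃ G ∈ cf R.toSubring, G.eval η = a}
      mul_mem' := by
        rintro _ _ ⟨G, hG, rfl⟩ ⟨G', hG', rfl⟩
        exact ⟨G * G', Subring.mul_mem _ hG hG', eval_mul⟩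
      add_mem' := by
        rintro _ _ ⟨G, hG, rfl⟩ ⟨G', hG', rfl⟩
        exact ⟨G + G', Subring.add_mem _ hG hG', eval_add⟩
      algebraMap_mem' := fun c => ⟨C _, C_mem_cf (R.algebraMap_mem c), eval_C⟩ }
  obtain ⟨G, hG, h⟩ := (A1_le (B := T) (fun r hr => ⟨C r, C_mem_cf hr, eval_C⟩)
    ⟨X, ⟨X, by simp⟩, eval_X⟩) ha
  exact ⟨G, mem_cf.1 hG, h⟩

theorem le_HH (R : Subalgebra k Ω) : R ≤ HH R := le_sup_left.trans (le_loc _)

theorem mem_HH_of_hroot (h : HRoot R η) : η ∈ HH R :=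
  (le_sup_right.trans (le_loc _) : _ ≤ HH R) (Algebra.subset_adjoin h)

theorem inv_mem_HH {a : Ω} (ha : a ∈ HH R) (h : ‖a‖ = 1) : a⁻¹ ∈ HH R := inv_mem_loc ha h

theorem HH_le {B : Subalgebra k Ω} (h1 : R ≤ B) (h2 : ∀ η, HRoot R η → η ∈ B)
    (h3 : ∀ b ∈ B, ‖b‖ = 1 → b⁻¹ ∈ B) : HH R ≤ B :=
  loc_le (sup_le h1 (Algebra.adjoin_le h2)) h3

theorem loc_A1_le (h : HRoot R η) : loc (A1 R η) ≤ HH R :=
  loc_le (A1_le (le_HH R) (mem_HH_of_hroot h)) fun _ => inv_mem_HH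

theorem HRoot.int (h : HRoot R η) : IsIntegral R η := by
  obtain ⟨P, h1, h2, h3, -⟩ := h
  exact isInt_iff.2 ⟨P, h1, h2, h3⟩

theorem int_of_mem_A1 (h : IsIntegral R η) {a : Ω} (ha : a ∈ A1 R η) : IsIntegral R a :=
  A1_le (B := (integralClosure R Ω).restrictScalars k) (fun _ hr => isInt_of_mem hr) h ha

theorem sep_root (K : IntermediateField k Ω) {P : Polynomial Ω} (hP : ∀ i, P.coeff i ∈ K) {z : Ω}
    (h0 : P.eval z = 0) (h1 : P.derivative.eval z ≠ 0) : IsSeparable K z := by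
  obtain ⟨q, rfl⟩ := (mem_lifts P).1 ((lifts_iff_coeff_lifts (f := algebraMap K Ω) P).2
    fun n => ⟨⟨_, hP n⟩, rfl⟩)
  rw [derivative_map, eval_map_algebraMap] at h1
  rw [eval_map_algebraMap] at h0
  exact sep_of_simple h0 h1

theorem fix_loc (hR : ∀ a ∈ R, a ∈ M) {τ : Ω →ₐ[M] Ω} (h : τ η = η) {a : Ω}
    (ha : a ∈ loc (A1 R η)) : τ a = a :=
  loc_le (B := (fixF τ).toSubalgebra) (A1_le (fun r hr => hom_fix τ (hR r hr)) h)
    (fun _ hb _ => (fixF τ).inv_mem hb) ha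

theorem cden (A : Subalgebra k Ω) (W : Finset Ω) (hW : ∀ w ∈ W, w ∈ loc A) :
    ∃ u ∈ A, ‖u‖ = 1 ∧ ∀ w ∈ W, u * w ∈ A := by
  classical
  induction W using Finset.induction_on with
  | empty => exact ⟨1, A.one_mem, norm_one, by simp⟩
  | insert w W _ ih =>
    obtain ⟨u, hu, h1, h2⟩ := ih fun x hx => hW x (Finset.mem_insert_of_mem hx)
    obtain ⟨a, ha, b, hb, hb1, rfl⟩ := hW _ (Finset.mem_insert_self _ _)
    refine ⟨b * u, A.mul_mem hb hu, by rw [norm_mul, hb1, h1, one_mul], fun x hx => ?_⟩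
    rcases Finset.mem_insert.1 hx with rfl | hx
    · have := ne_zero_of_norm_eq_one hb1
      rw [show b * u * (a / b) = u * a by field_simp]
      exact A.mul_mem hu ha
    · rw [mul_assoc]
      exact A.mul_mem hb (h2 x hx)

theorem coeff_mem_of_coeffs {B : Subalgebra k Ω} {P : Polynomial Ω} (h : ∀ c ∈ P.coeffs, c ∈ B)
    (i : ℕ) : P.coeff i ∈ B := by
  by_cases h0 : P.coeff i = 0
  · rw [h0]; exact B.zero_mem
  · exact h _ (coeff_mem_coeffs h0)

theorem mem_of_mem_coeffs {p : Ω → Prop} {P : Polynomial Ω} (h : ∀ i, p (P.coeff i)) :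
    ∀ c ∈ P.coeffs, p c := fun c hc => by
  obtain ⟨i, -, rfl⟩ := mem_coeffs_iff.1 hc
  exact h i

/-- Clearing the denominators of an integral equation. -/
theorem den (A : Subalgebra k Ω) {z : Ω} (hz : IsIntegral (loc A) z) :
    ∃ u ∈ A, ‖u‖ = 1 ∧ IsIntegral A (u * z) := by
  obtain ⟨P, h1, h2, h3⟩ := isInt_iff.1 hz
  obtain ⟨u, hu, hu1, h4⟩ := cden A P.coeffs (mem_of_mem_coeffs h2)
  refine ⟨u, hu, hu1, isInt_iff.2 ⟨P.scaleRoots u, (monic_scaleRoots_iff u).2 h1, fun i => ?_,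
    by rw [scaleRoots_eval_mul, h3, mul_zero]⟩⟩
  rw [coeff_scaleRoots]
  by_cases h0 : P.coeff i = 0
  · rw [h0, zero_mul]; exact A.zero_mem
  rcases (le_natDegree_of_ne_zero h0).lt_or_eq with hi | rfl
  · obtain ⟨m, hm⟩ := Nat.exists_eq_add_of_lt hi
    rw [show P.natDegree - i = m + 1 by omega, show P.coeff i * u ^ (m + 1) =
      u * P.coeff i * u ^ m by ring]
    exact A.mul_mem (h4 _ (coeff_mem_coeffs h0)) (A.pow_mem hu m)
  · rw [h1.coeff_natDegree, Nat.sub_self, pow_zero, one_mul]; exact A.one_mem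

theorem exists_finset {a : Ω} (ha : a ∈ HH R) :
    ∃ T : Finset Ω, (∀ t ∈ T, HRoot R t) ∧ a ∈ loc (R ⊔ Algebra.adjoin k (T : Set Ω)) := by
  classical
  have hm : ∀ T T' : Finset Ω, T ⊆ T' → loc (R ⊔ Algebra.adjoin k (T : Set Ω)) ≤
      loc (R ⊔ Algebra.adjoin k (T' : Set Ω)) := fun T T' h =>
    loc_mono (sup_le_sup_left (Algebra.adjoin_mono h) _)
  let U : Subalgebra k Ω :=
    { carrier := {a | ∃ T : Finset Ω, (∀ t ∈ T, HRoot R t) ∧
        a ∈ loc (R ⊔ Algebra.adjoin k (T : Set Ω))}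
      mul_mem' := by
        rintro a b ⟨T, hT, ha⟩ ⟨T', hT', hb⟩
        exact ⟨T ∪ T', fun t ht => (Finset.mem_union.1 ht).elim (hT t) (hT' t),
          mul_mem (hm _ _ Finset.subset_union_left ha) (hm _ _ Finset.subset_union_right hb)⟩
      add_mem' := by
        rintro a b ⟨T, hT, ha⟩ ⟨T', hT', hb⟩
        exact ⟨T ∪ T', fun t ht => (Finset.mem_union.1 ht).elim (hT t) (hT' t),
          add_mem (hm _ _ Finset.subset_union_left ha) (hm _ _ Finset.subset_union_right hb)⟩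
      algebraMap_mem' := fun c => ⟨∅, by simp, Subalgebra.algebraMap_mem _ c⟩ }
  refine HH_le (B := U) (fun r hr => ⟨∅, by simp, (le_sup_left.trans (le_loc _) : R ≤ _) hr⟩)
    (fun t ht => ⟨{t}, by simpa using ht, ?_⟩) ?_ ha
  · exact (le_sup_right.trans (le_loc _) : _ ≤ loc (R ⊔ _)) (Algebra.subset_adjoin (by simp))
  · rintro b ⟨T, hT, hb⟩ h1
    exact ⟨T, hT, inv_mem_loc hb h1⟩

theorem HRoot.sep (hR : ∀ a ∈ R, a ∈ M) (h : HRoot R η) : IsSeparable M η := by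
  obtain ⟨P, -, h2, h3, h4⟩ := h
  exact sep_root M (fun i => hR _ (h2 i)) h3 (ne_zero_of_norm_eq_one h4)

theorem sep_of_mem_HH (hR : ∀ a ∈ R, a ∈ M) {a : Ω} (ha : a ∈ HH R) : IsSeparable M a :=
  HH_le (B := ((separableClosure M Ω).restrictScalars k).toSubalgebra)
    (fun r hr => isSeparable_of_mem (hR r hr)) (fun _ h => HRoot.sep hR h)
    (fun _ hb _ => (separableClosure M Ω).inv_mem hb) ha

variable [IsUltrametricDist Ω] [Ctx k Ω]

theorem norm_HH (hR : ∀ a ∈ R, ‖a‖ ≤ 1) {a : Ω} (ha : a ∈ HH R) : ‖a‖ ≤ 1 :=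
  HH_le (B := intAlg k Ω) hR (fun _ h => norm_le_of_int hR (HRoot.int h))
    (fun b _ h => by rw [mem_intAlg, norm_inv, h, inv_one]) ha

theorem HRoot.fix (hB : Base R M) (h : HRoot R η) {τ : Ω →ₐ[M] Ω} (hτ : ‖τ η - η‖ < 1) :
    τ η = η := by
  have hn := norm_le_of_int hB.norm (HRoot.int h)
  obtain ⟨P, -, h2, h3, h4⟩ := h
  refine uni k (fun i => hB.norm _ (h2 i)) hn hτ h3 ?_ h4
  have := hom_eval (τ : Ω →+* Ω) (fun i => hom_fix τ (hB.le _ (h2 i))) η
  rw [h3, map_zero] at this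
  exact this.symm

variable [IsAlgClosed Ω] [Infinite k]

/-- GEN in the language of `loc`. -/
theorem gen' (hB : Base R M) (S : Finset Ω) (h1 : ∀ s ∈ S, IsIntegral R s)
    (h2 : ∀ s ∈ S, IsSeparable M s)
    (h3 : ∀ τ : Ω →ₐ[M] Ω, (∀ s ∈ S, ‖τ s - s‖ < 1) → ∀ s ∈ S, τ s = s) :
    ∃ η ∈ Submodule.span k (S : Set Ω), ∃ P, Min R M η P ∧
      ∀ b ∈ adjoin M (S : Set Ω), IsIntegral R b → b ∈ loc (A1 R η) := by
  obtain ⟨η, hη, P, p1, p2, p3, p4, p5, p6⟩ := gen hB S h1 h2 h3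
  refine ⟨η, hη, P, ⟨p1, p2, p3, p4, p5⟩, fun b hb hi => ?_⟩
  obtain ⟨G, hG, h⟩ := p6 b hb hi
  exact ⟨_, eval_mem_A1 hG η, _, eval_mem_A1 (Desc.der_coeff R P p2) η, p4,
    eq_div_of_mul_eq (ne_zero_of_norm_eq_one p4) h⟩

/-- Finitely many elements of the henselization are rational in one henselian root. -/
theorem one (hB : Base R M) (W : Finset Ω) (hW : ∀ w ∈ W, w ∈ HH R) :
    ∃ η P, Min R M η P ∧ ∀ w ∈ W, w ∈ loc (A1 R η) := by
  classical
  choose! T hT using fun w (hw : w ∈ W) => exists_finset (hW w hw)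
  have h0 : ∀ t ∈ W.biUnion T, HRoot R t := fun t ht => by
    obtain ⟨w, hw, h⟩ := Finset.mem_biUnion.1 ht
    exact (hT w hw).1 t h
  obtain ⟨η, -, P, hP, h⟩ := gen' hB (W.biUnion T) (fun t ht => HRoot.int (h0 t ht))
    (fun t ht => HRoot.sep hB.le (h0 t ht)) fun τ hτ t ht => HRoot.fix hB (h0 t ht) (hτ t ht)
  refine ⟨η, P, hP, fun w hw => loc_le (sup_le ((le_A1 R η).trans (le_loc _))
    (Algebra.adjoin_le fun t ht => ?_)) (fun _ => inv_mem_loc) (hT w hw).2⟩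
  have ht' : t ∈ W.biUnion T := Finset.mem_biUnion.2 ⟨w, hw, ht⟩
  exact h t (subset_adjoin _ _ ht') (HRoot.int (h0 t ht'))

theorem mem_of_split (hB : Base R M) (S : Finset Ω) (h1 : ∀ s ∈ S, IsIntegral R s)
    (h2 : ∀ s ∈ S, IsSeparable M s)
    (h3 : ∀ τ : Ω →ₐ[M] Ω, (∀ s ∈ S, ‖τ s - s‖ < 1) → ∀ s ∈ S, τ s = s) {b : Ω} (hb : b ∈ S) :
    b ∈ HH R := by
  obtain ⟨η, -, P, hP, h⟩ := gen' hB S h1 h2 h3
  exact loc_A1_le hP.hroot (h b (subset_adjoin _ _ hb) (h1 b hb))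

theorem mem_of_pair (hB : Base R M) (h : HRoot R η) {b : Ω} (h1 : IsIntegral R b)
    (h2 : IsSeparable M b) (h3 : ∀ τ : Ω →ₐ[M] Ω, τ η = η → ‖τ b - b‖ < 1 → τ b = b) :
    b ∈ HH R := by
  classical
  refine mem_of_split hB {η, b} ?_ ?_ (fun τ hτ => ?_) (by simp)
  · simpa using ⟨HRoot.int h, h1⟩
  · simpa using ⟨HRoot.sep hB.le h, h2⟩
  · have := HRoot.fix hB h (hτ η (by simp))
    simpa using ⟨this, h3 τ this (hτ b (by simp))⟩

theorem int_HH (hB : Base R M) {z : Ω} (hz : IsIntegral (HH R) z) (W : Finset Ω)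
    (hW : ∀ w ∈ W, w ∈ HH R) : ∃ η, HRoot R η ∧ (∀ w ∈ W, w ∈ loc (A1 R η)) ∧
      ∃ u ∈ A1 R η, ‖u‖ = 1 ∧ IsIntegral R (u * z) := by
  classical
  obtain ⟨P, h1, h2, h3⟩ := isInt_iff.1 hz
  obtain ⟨η, Q, hQ, h⟩ := one hB (W ∪ P.coeffs) fun w hw =>
    (Finset.mem_union.1 hw).elim (hW w) (mem_of_mem_coeffs h2 w)
  obtain ⟨u, hu, hu1, h4⟩ := den (A1 R η) (isInt_iff.2 ⟨P, h1, coeff_mem_of_coeffs fun c hc =>
    h c (Finset.mem_union_right _ hc), h3⟩)
  exact ⟨η, hQ.hroot, fun w hw => h w (Finset.mem_union_left _ hw), u, hu, hu1,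
    isInt_trans (fun _ => int_of_mem_A1 (HRoot.int hQ.hroot)) h4⟩

theorem mem_of_int (hB : Base R M) {z : Ω} (hz : IsIntegral (HH R) z) (hs : IsSeparable M z)
    (W : Finset Ω) (hW : ∀ w ∈ W, w ∈ HH R)
    (h : ∀ τ : Ω →ₐ[M] Ω, (∀ w ∈ W, τ w = w) → ‖τ z - z‖ < 1 → τ z = z) : z ∈ HH R := by
  obtain ⟨η, hη, h1, u, hu, hu1, h2⟩ := int_HH hB hz W hW
  have huH : u ∈ HH R := loc_A1_le hη (le_loc _ hu)
  have h3 : u * z ∈ HH R := by
    refine mem_of_pair hB hη h2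
      ((separableClosure M Ω).mul_mem (sep_of_mem_HH hB.le huH) hs) fun τ hτ hn => ?_
    have h4 : τ u = u := fix_loc hB.le hτ (le_loc _ hu)
    rw [map_mul, h4] at hn ⊢
    rw [← mul_sub, norm_mul, hu1, one_mul] at hn
    rw [h τ (fun w hw => fix_loc hB.le hτ (h1 w hw)) hn]
  rw [← inv_mul_cancel_left₀ (ne_zero_of_norm_eq_one hu1) z]
  exact mul_mem (inv_mem_HH huH hu1) h3

/-- H2: the ring is henselian. -/
theorem h2 (hB : Base R M) {z : Ω} (hz : HRoot (HH R) z) : z ∈ HH R := by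
  have hi := HRoot.int hz
  have hs : IsSeparable M z := isSeparable_trans (K := (separableClosure M Ω).restrictScalars k)
    (fun _ => isSeparable_of_mem) (fun _ h => h) (HRoot.sep (fun _ => sep_of_mem_HH hB.le) hz)
  obtain ⟨P, -, p2, p3, p4⟩ := hz
  refine mem_of_int hB hi hs P.coeffs (mem_of_mem_coeffs p2) fun τ hτ hn => ?_
  refine uni k (fun i => norm_HH hB.norm (p2 i))
    (norm_le_of_int (fun _ => norm_HH hB.norm) hi) hn p3 ?_ p4
  have := hom_eval (τ : Ω →+* Ω) (P := P)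
    (coeff_mem_of_coeffs (B := (fixF τ).toSubalgebra) hτ) z
  rw [p3, map_zero] at this
  exact this.symm

/-- The henselization of a subring of the henselization. -/
theorem HH_le_HH (hB : Base R M) {R' : Subalgebra k Ω} (h : R' ≤ HH R) : HH R' ≤ HH R :=
  HH_le h (fun _ ⟨P, p1, p2, p3, p4⟩ => h2 hB ⟨P, p1, fun i => h (p2 i), p3, p4⟩)
    fun _ => inv_mem_HH

/-- The ring is normal. -/
theorem nor (hB : Base R M) {a : Ω} (ha : a ∈ adjoin k (HH R : Set Ω))
    (hi : IsIntegral (HH R) a) : a ∈ HH R := by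
  classical
  obtain ⟨r, hr, s, hs, rfl⟩ := mem_adjoin_iff_div.1 ha
  rw [Algebra.adjoin_eq] at hr hs
  refine mem_of_int hB hi ((separableClosure M Ω).div_mem (sep_of_mem_HH hB.le hr)
    (sep_of_mem_HH hB.le hs)) {r, s} (by simpa using ⟨hr, hs⟩) fun τ hτ _ => ?_
  rw [map_div₀, hτ r (by simp), hτ s (by simp)]

theorem base_HH (hB : Base R M) : Base (HH R) (adjoin k (HH R : Set Ω)) :=
  ⟨fun _ h => subset_adjoin _ _ h, fun _ => norm_HH hB.norm, fun _ => nor hB⟩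

omit [IsAlgClosed Ω] [Infinite k] [Ctx k Ω] in
theorem norm_eval_lt {Q : Polynomial Ω} (h : ∀ i, ‖Q.coeff i‖ < 1) {x : Ω} (hx : ‖x‖ ≤ 1) :
    ‖Q.eval x‖ < 1 := by
  rw [eval_eq_sum_range]
  refine norm_sum_lt_of one_pos fun i _ => ?_
  rw [norm_mul, norm_pow]
  exact mul_lt_one_of_nonneg_of_lt_one_left (norm_nonneg _) (h i) (pow_le_one₀ (norm_nonneg _) hx)

theorem hf_sep (hB : Base R M) {e : Ω} (hi : IsIntegral R e) (hs : IsSeparable M e)
    (he : ‖e‖ = 1) : e⁻¹ ∈ A1 (HH R) e := by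
  classical
  set χ := (minpoly M e).map (algebraMap M Ω) with hχ
  have hm : χ.Monic := (minpoly.monic hs.isIntegral).map _
  let pr : Multiset Ω → Polynomial Ω := fun s => (s.map fun r => X - C r).prod
  have hp : χ = pr χ.roots := (IsAlgClosed.splits χ).eq_prod_roots_of_monic hm
  have hmap : ∀ (τ : Ω →ₐ[M] Ω) s, (pr s).map (τ : Ω →+* Ω) = pr (s.map τ) := fun τ s => by
    simp [pr, Polynomial.map_multiset_prod]
  have hroot : ∀ r ∈ χ.roots, aeval r (minpoly M e) = 0 := fun r hr => by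
    have := isRoot_of_mem_roots hr
    rwa [IsRoot.def, eval_map_algebraMap] at this
  have hint : ∀ r ∈ χ.roots, IsIntegral R r := fun r hr => by
    obtain ⟨τ, rfl⟩ := conj hs.isIntegral (hroot r hr)
    exact isInt_hom hB.le τ hi
  have hcf : ∀ s ≤ χ.roots, ∀ c ∈ (pr s).coeffs, IsIntegral R c ∧ IsSeparable M c := by
    intro s hle
    refine mem_of_mem_coeffs (mem_cf (A := (integralClosure R Ω).toSubring ⊓
      (separableClosure M Ω).toSubalgebra.toSubring).1 (Subring.multiset_prod_mem _ _ ?_))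
    intro q hq
    obtain ⟨r, hr, rfl⟩ := Multiset.mem_map.1 hq
    have hr' := Multiset.mem_of_le hle hr
    exact X_sub_C_mem_cf ⟨hint r hr', Separable.of_dvd hs (minpoly.dvd M r (hroot r hr'))⟩
  set s0 := χ.roots.filter fun r => ‖r‖ < 1
  set s1 := χ.roots.filter fun r => ¬ ‖r‖ < 1
  have hfac : pr s0 * pr s1 = χ := by
    rw [hp]
    simp only [pr]
    rw [← Multiset.prod_add, ← Multiset.map_add, Multiset.filter_add_not]
  have hsplit : ∀ τ : Ω →ₐ[M] Ω, (∀ c ∈ (pr s0).coeffs ∪ (pr s1).coeffs, ‖τ c - c‖ < 1) →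
      ∀ c ∈ (pr s0).coeffs ∪ (pr s1).coeffs, τ c = c := by
    intro τ hτ
    have h1 : χ.map (τ : Ω →+* Ω) = χ := by
      ext i
      rw [coeff_map, hχ, coeff_map]
      exact τ.commutes _
    have h2 : χ.roots.map τ = χ.roots := by
      rw [← roots_multiset_prod_X_sub_C (χ.roots.map τ)]
      change (pr _).roots = _
      rw [← hmap, ← hp, h1]
    have h3 : s0.map τ ≤ s0 := by
      refine Multiset.le_filter.2 ⟨h2 ▸ Multiset.map_le_map (Multiset.filter_le _ _), ?_⟩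
      intro x hx
      have hx1 : ‖x‖ ≤ 1 := norm_le_of_int hB.norm
        (hint x (h2 ▸ Multiset.mem_of_le (Multiset.map_le_map (Multiset.filter_le _ _)) hx))
      by_contra hn
      have h4 : ‖(pr s0).eval x‖ = 1 := by
        simp only [pr]
        rw [eval_multiset_prod]
        refine Multiset.prod_induction (fun y : Ω => ‖y‖ = 1) _
          (fun a b ha hb => by rw [norm_mul, ha, hb, one_mul]) norm_one fun y hy => ?_
        obtain ⟨_, hq, rfl⟩ := Multiset.mem_map.1 hy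
        obtain ⟨r, hr, rfl⟩ := Multiset.mem_map.1 hq
        have hx2 : ‖x‖ = 1 := hx1.antisymm (not_lt.1 hn)
        rw [eval_sub, eval_X, eval_C, norm_sub_eq_left, hx2]
        rw [hx2]
        exact (Multiset.mem_filter.1 hr).2
      have h5 : (pr (s0.map τ)).eval x = 0 :=
        isRoot_of_mem_roots (by rwa [roots_multiset_prod_X_sub_C])
      have h6 := norm_eval_lt (Q := pr (s0.map τ) - pr s0) (fun i => by
        rw [← hmap, coeff_sub, coeff_map]
        by_cases h0 : (pr s0).coeff i = 0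
        · simp [h0]
        · exact hτ _ (Finset.mem_union_left _ (coeff_mem_coeffs h0))) hx1
      rw [eval_sub, h5, zero_sub, norm_neg, h4] at h6
      exact lt_irrefl _ h6
    have h4 : (pr s0).map (τ : Ω →+* Ω) = pr s0 := by
      rw [hmap, Multiset.eq_of_le_of_card_le h3 (by simp)]
    have h5 : (pr s1).map (τ : Ω →+* Ω) = pr s1 := by
      refine mul_left_cancel₀ (a := pr s0) (monic_multisetProd_X_sub_C s0).ne_zero ?_
      conv_lhs => rw [← h4]
      rw [← Polynomial.map_mul, hfac, h1]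
    intro c hc
    rcases Finset.mem_union.1 hc with hc | hc <;> obtain ⟨i, -, rfl⟩ := mem_coeffs_iff.1 hc
    · conv_rhs => rw [← h4, coeff_map]
      rfl
    · conv_rhs => rw [← h5, coeff_map]
      rfl
  have hS : ∀ c ∈ (pr s0).coeffs ∪ (pr s1).coeffs, IsIntegral R c ∧ IsSeparable M c := fun c hc =>
    (Finset.mem_union.1 hc).elim (hcf _ (Multiset.filter_le _ _) c)
      (hcf _ (Multiset.filter_le _ _) c)
  have hH : ∀ i, (pr s1).coeff i ∈ HH R := coeff_mem_of_coeffs fun c hc =>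
    mem_of_split hB _ (fun s h => (hS s h).1) (fun s h => (hS s h).2) hsplit
      (Finset.mem_union_right _ hc)
  have h0 : ‖(pr s1).coeff 0‖ = 1 := HensB.coeff_prod_zero _ fun r hr =>
    (norm_le_of_int hB.norm (hint r (Multiset.mem_filter.1 hr).1)).antisymm
      (not_lt.1 (Multiset.mem_filter.1 hr).2)
  have h1 : (pr s1).eval e = 0 := isRoot_of_mem_roots (by
    rw [roots_multiset_prod_X_sub_C]
    refine Multiset.mem_filter.2 ⟨(mem_roots hm.ne_zero).2 ?_, by rw [he]; exact lt_irrefl _⟩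
    rw [IsRoot.def, eval_map_algebraMap, minpoly.aeval])
  rw [← divX_mul_X_add (pr s1), eval_add, eval_mul, eval_X, eval_C] at h1
  have h2 : e⁻¹ = -((pr s1).coeff 0)⁻¹ * (pr s1).divX.eval e := by
    have := ne_zero_of_norm_eq_one he
    have := ne_zero_of_norm_eq_one h0
    field_simp
    linear_combination h1
  rw [h2]
  exact mul_mem (neg_mem (le_A1 _ _ (inv_mem_HH (hH 0) h0)))
    (eval_mem_A1 (fun i => by rw [coeff_divX]; exact hH _) e)

/-- HF: finite extensions of the ring inside `Ω` are local. -/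
theorem hf (hB : Base R M) {e : Ω} (hi : IsIntegral (HH R) e) (he : ‖e‖ = 1) :
    e⁻¹ ∈ A1 (HH R) e := by
  obtain ⟨η, hη, -, u, hu, hu1, h⟩ := int_HH hB hi ∅ (by simp)
  have hue : u * e ∈ A1 (HH R) e :=
    mul_mem (le_A1 _ _ (loc_A1_le hη (le_loc _ hu))) (self_mem_A1 _ _)
  obtain ⟨n, hn, hs⟩ := exists_pow_sep (K := M) (a := u * e)
    (isInt_mono (R' := M.toSubalgebra) hB.le h)
  have h1 := A1_le (le_A1 (HH R) e) (pow_mem hue n)
    (hf_sep hB (h.pow n) hs (by rw [norm_pow, norm_mul, hu1, he, one_mul, one_pow]))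
  obtain ⟨m, rfl⟩ := Nat.exists_eq_add_one_of_ne_zero hn.ne'
  have h2 : e⁻¹ = u * (u * e) ^ m * ((u * e) ^ (m + 1))⁻¹ := by
    have := ne_zero_of_norm_eq_one he
    have := ne_zero_of_norm_eq_one hu1
    field_simp
    ring
  rw [h2]
  exact mul_mem (mul_mem (le_A1 _ _ (loc_A1_le hη (le_loc _ hu))) (pow_mem hue m)) h1

end Hr

end Pool.Agent.MP_19ffc6_ag.LU3

end MrgPart0

-- ======== part 1: formerly Pool.Agent.MP_19ffc6_ag.LU3.Hjet
section MrgPart1

/-! PROJECT LU3, ring kit, part 2: the henselization of a polynomial ring, its maximal ideal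
and its jets. -/

namespace Pool.Agent.MP_19ffc6_ag.LU3

open Polynomial IntermediateField Pool.Agent.MP_19ffc6_ag.LU

variable {k Ω : Type*} [Field k] [NontriviallyNormedField Ω] [Algebra k Ω] {ι : Type*}

variable (k) in
/-- The henselization of `k[ξ]` at the origin. -/
def H (ξ : ι → Ω) : Subalgebra k Ω := HH (Algebra.adjoin k (Set.range ξ))

variable (k) in
/-- The ideal generated by the coordinates, as a submodule of `Ω`. -/
def mm (ξ : ι → Ω) : Submodule (H k ξ) Ω := Submodule.span _ (Set.range ξ)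

namespace Hr

variable (k) in
/-- Evaluation at the point `ξ`, as a ring homomorphism. -/
noncomputable def evr (ξ : ι → Ω) : MvPolynomial ι k →+* Ω :=
  (MvPolynomial.aeval (R := k) ξ).toRingHom

theorem evr_apply (ξ : ι → Ω) (f : MvPolynomial ι k) : evr k ξ f = MvPolynomial.aeval ξ f := rfl

open MvPolynomial (idealOfVars)

variable {ξ : ι → Ω}

theorem aeval_mem_R (ξ : ι → Ω) (f : MvPolynomial ι k) :
    MvPolynomial.aeval ξ f ∈ Algebra.adjoin k (Set.range ξ) := by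
  rw [Algebra.adjoin_range_eq_range_aeval]; exact ⟨f, rfl⟩

theorem exists_aeval {a : Ω} (h : a ∈ Algebra.adjoin k (Set.range ξ)) :
    ∃ f : MvPolynomial ι k, MvPolynomial.aeval ξ f = a := by
  rwa [Algebra.adjoin_range_eq_range_aeval] at h

theorem R_le_H (ξ : ι → Ω) : Algebra.adjoin k (Set.range ξ) ≤ H k ξ := le_HH _

theorem aeval_mem_H (ξ : ι → Ω) (f : MvPolynomial ι k) : MvPolynomial.aeval ξ f ∈ H k ξ :=
  R_le_H ξ (aeval_mem_R ξ f)

theorem xi_mem_H (ξ : ι → Ω) (i : ι) : ξ i ∈ H k ξ := R_le_H ξ (Algebra.subset_adjoin ⟨i, rfl⟩)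

theorem inv_mem_H {a : Ω} (ha : a ∈ H k ξ) (h : ‖a‖ = 1) : a⁻¹ ∈ H k ξ := inv_mem_HH ha h

theorem xi_mem_mm (ξ : ι → Ω) (i : ι) : ξ i ∈ mm k ξ := Submodule.subset_span ⟨i, rfl⟩

theorem mem_pow_zero {a : Ω} : a ∈ mm k ξ ^ 0 ↔ a ∈ H k ξ := by
  rw [pow_zero, Submodule.mem_one]
  exact ⟨fun ⟨y, hy⟩ => hy ▸ y.2, fun h => ⟨⟨a, h⟩, rfl⟩⟩

theorem mul_mem_sub {T : Submodule (H k ξ) Ω} {h a : Ω} (hh : h ∈ H k ξ) (ha : a ∈ T) :
    h * a ∈ T := T.smul_mem ⟨h, hh⟩ ha

theorem mul_mem_pow_add {a b : Ω} {m n : ℕ} (ha : a ∈ mm k ξ ^ m) (hb : b ∈ mm k ξ ^ n) :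
    a * b ∈ mm k ξ ^ (m + n) := by
  rw [pow_add]; exact Submodule.mul_mem_mul ha hb

theorem mul_mem_pow_succ {a b : Ω} {m : ℕ} (ha : a ∈ mm k ξ ^ m) (hb : b ∈ mm k ξ) :
    a * b ∈ mm k ξ ^ (m + 1) := by
  rw [pow_succ]; exact Submodule.mul_mem_mul ha hb

theorem mm_le_one (ξ : ι → Ω) : mm k ξ ≤ 1 :=
  Submodule.span_le.2 fun _ ⟨i, hi⟩ => by
    have := mem_pow_zero.2 (hi ▸ xi_mem_H (k := k) ξ i)
    rwa [pow_zero] at this

theorem pow_anti {m n : ℕ} (h : m ≤ n) : mm k ξ ^ n ≤ mm k ξ ^ m :=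
  pow_le_pow_right_of_le_one' (mm_le_one ξ) h

theorem mem_H_of_mem_pow {a : Ω} {n : ℕ} (h : a ∈ mm k ξ ^ n) : a ∈ H k ξ :=
  mem_pow_zero.1 (pow_anti (Nat.zero_le n) h)

theorem mem_H_of_mem_mm {a : Ω} (h : a ∈ mm k ξ) : a ∈ H k ξ :=
  mem_H_of_mem_pow (n := 1) (by rwa [pow_one])

theorem aeval_mem_mm {f : MvPolynomial ι k} (h : f ∈ idealOfVars ι k) :
    MvPolynomial.aeval ξ f ∈ mm k ξ := by
  induction h using Submodule.span_induction with
  | mem x hx => obtain ⟨i, rfl⟩ := hx; simpa using xi_mem_mm ξ i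
  | zero => simp
  | add x y _ _ hx hy => rw [map_add]; exact add_mem hx hy
  | smul a x _ hx => rw [smul_eq_mul, map_mul]; exact mul_mem_sub (aeval_mem_H ξ a) hx

theorem aeval_mem_pow {N : ℕ} {f : MvPolynomial ι k} (h : f ∈ idealOfVars ι k ^ N) :
    MvPolynomial.aeval ξ f ∈ mm k ξ ^ N := by
  induction N generalizing f with
  | zero => exact mem_pow_zero.2 (aeval_mem_H ξ f)
  | succ N ih =>
    rw [pow_succ] at h
    refine Submodule.mul_induction_on h (fun a ha b hb => ?_) fun a b ha hb => ?_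
    · rw [map_mul]; exact mul_mem_pow_succ (ih ha) (aeval_mem_mm hb)
    · rw [map_add]; exact add_mem ha hb

theorem sub_C_mem_vars (f : MvPolynomial ι k) :
    f - MvPolynomial.C (MvPolynomial.constantCoeff f) ∈ idealOfVars ι k := by
  classical
  rw [← pow_one (idealOfVars ι k), MvPolynomial.mem_pow_idealOfVars_iff']
  intro x hx
  obtain rfl : x = 0 := (Finsupp.degree_eq_zero_iff x).1 (by omega)
  simp [MvPolynomial.constantCoeff_eq]

open scoped Pointwise in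
theorem exists_mem_pow_vars {N : ℕ} {x : Ω} (h : x ∈ (Set.range ξ) ^ N) :
    ∃ m ∈ idealOfVars ι k ^ N, MvPolynomial.aeval ξ m = x := by
  induction N generalizing x with
  | zero => exact ⟨1, by simp, by simpa using h.symm⟩
  | succ N ih =>
    rw [pow_succ] at h
    obtain ⟨a, ha, _, ⟨i, rfl⟩, rfl⟩ := h
    obtain ⟨m, hm, rfl⟩ := ih ha
    exact ⟨m * MvPolynomial.X i, by
      rw [pow_succ]; exact Ideal.mul_mem_mul hm (Ideal.subset_span ⟨i, rfl⟩), by simp⟩

theorem lift_poly {G : Polynomial Ω} (h : ∀ i, G.coeff i ∈ Algebra.adjoin k (Set.range ξ)) :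
    G ∈ lifts (evr k ξ) :=
  (lifts_iff_coeff_lifts G).2 fun i => exists_aeval (h i)

variable [IsUltrametricDist Ω] [Ctx k Ω]

open scoped IntermediateField.algebraAdjoinAdjoin in
theorem base_poly (hi : AlgebraicIndependent k ξ) (hs : ∀ i, ‖ξ i‖ ≤ 1) :
    Base (Algebra.adjoin k (Set.range ξ)) (adjoin k (Set.range ξ)) := by
  refine ⟨fun a ha => algebra_adjoin_le_adjoin k _ ha,
    fun a ha => norm_le_one_of_mem_adjoin (Set.forall_mem_range.2 hs) ha, fun a ha h => ?_⟩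
  have : IsIntegrallyClosed (Algebra.adjoin k (Set.range ξ)) :=
    IsIntegrallyClosed.of_equiv hi.aevalEquiv.toRingEquiv
  have h1 : IsIntegral (Algebra.adjoin k (Set.range ξ)) (⟨a, ha⟩ : adjoin k (Set.range ξ)) :=
    (isIntegral_algHom_iff (IsScalarTower.toAlgHom _ (adjoin k (Set.range ξ)) Ω)
      Subtype.val_injective).1 h
  obtain ⟨y, hy⟩ := IsIntegrallyClosed.isIntegral_iff.1 h1
  have h2 : (y : Ω) = a := congrArg Subtype.val hy
  exact h2 ▸ y.2

theorem norm_H (hs : ∀ i, ‖ξ i‖ ≤ 1) {a : Ω} (ha : a ∈ H k ξ) : ‖a‖ ≤ 1 :=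
  norm_HH (fun _ h => norm_le_one_of_mem_adjoin (Set.forall_mem_range.2 hs) h) ha

theorem norm_lt_of_mem_mm (hs : ∀ i, ‖ξ i‖ < 1) {a : Ω} (ha : a ∈ mm k ξ) : ‖a‖ < 1 := by
  induction ha using Submodule.span_induction with
  | mem x hx => obtain ⟨i, rfl⟩ := hx; exact hs i
  | zero => simp
  | add x y _ _ hx hy => exact norm_add_lt_of hx hy
  | smul a x _ hx =>
    change ‖(a : Ω) * x‖ < 1
    rw [norm_mul]
    exact mul_lt_one_of_nonneg_of_lt_one_right (norm_H (fun i => (hs i).le) a.2) (norm_nonneg _) hx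

theorem norm_le_pow {ρ : ℝ} (h0 : 0 ≤ ρ) (h1 : ρ ≤ 1) (hs : ∀ i, ‖ξ i‖ ≤ ρ) {N : ℕ} {a : Ω}
    (ha : a ∈ mm k ξ ^ N) : ‖a‖ ≤ ρ ^ N := by
  have hH : ∀ a ∈ H k ξ, ‖a‖ ≤ 1 := fun a => norm_H fun i => (hs i).trans h1
  have hm : ∀ a ∈ mm k ξ, ‖a‖ ≤ ρ := fun a ha => by
    induction ha using Submodule.span_induction with
    | mem x hx => obtain ⟨i, rfl⟩ := hx; exact hs i
    | zero => simpa using h0
    | add x y _ _ hx hy => exact norm_add_le_of hx hy
    | smul a x _ hx =>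
      change ‖(a : Ω) * x‖ ≤ ρ
      rw [norm_mul]
      exact (mul_le_of_le_one_left (norm_nonneg _) (hH _ a.2)).trans hx
  induction N generalizing a with
  | zero => simpa using hH a (mem_pow_zero.1 ha)
  | succ N ih =>
    rw [pow_succ] at ha
    refine Submodule.mul_induction_on ha (fun a ha b hb => ?_) fun a b => norm_add_le_of
    rw [norm_mul, pow_succ]
    exact mul_le_mul (ih ha) (hm b hb) (norm_nonneg _) (pow_nonneg h0 _)

theorem mem_vars_iff (hs : ∀ i, ‖ξ i‖ < 1) {f : MvPolynomial ι k} :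
    f ∈ idealOfVars ι k ↔ ‖MvPolynomial.aeval ξ f‖ < 1 := by
  refine ⟨fun h => norm_lt_of_mem_mm hs (aeval_mem_mm h), fun h => ?_⟩
  have h1 := sub_C_mem_vars f
  have h2 := norm_sub_lt_of h (norm_lt_of_mem_mm hs (aeval_mem_mm (ξ := ξ) h1))
  rw [map_sub, sub_sub_cancel, MvPolynomial.aeval_C] at h2
  rwa [eq_zero_of_norm_alg_lt h2, map_zero, sub_zero] at h1

theorem norm_eval_sub_lt (k : Type*) [Field k] [Algebra k Ω] [Ctx k Ω] {G : Polynomial Ω}
    (hG : ∀ i, ‖G.coeff i‖ ≤ 1) {a b : Ω} (hb : ‖b‖ ≤ 1) (h : ‖a - b‖ < 1) :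
    ‖G.eval a - G.eval b‖ < 1 := by
  obtain ⟨κ, hκ, h1⟩ := Desc.taylor (intAlg k Ω) G hG (x := b) (δ := a - b) hb h.le
  rw [add_sub_cancel] at h1
  have h2 : G.derivative.eval b + κ * (a - b) ∈ intAlg k Ω :=
    add_mem (Desc.eval_mem _ _ (Desc.der_coeff _ G hG) hb) (mul_mem hκ h.le)
  rw [show G.eval a - G.eval b = (G.derivative.eval b + κ * (a - b)) * (a - b) by
    rw [h1]; ring, norm_mul]
  exact mul_lt_one_of_nonneg_of_lt_one_right h2 (norm_nonneg _) h

/-- Every element is a constant modulo the ideal of the coordinates. -/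
theorem exists_const (hs : ∀ i, ‖ξ i‖ < 1) {a : Ω} (ha : a ∈ H k ξ) :
    ∃ c : k, a - algebraMap k Ω c ∈ mm k ξ := by
  have hn : ∀ a ∈ H k ξ, ‖a‖ ≤ 1 := fun a => norm_H fun i => (hs i).le
  have hR : ∀ r ∈ Algebra.adjoin k (Set.range ξ), ‖r‖ < 1 → r ∈ mm k ξ := fun r hr h => by
    obtain ⟨f, rfl⟩ := exists_aeval hr
    exact aeval_mem_mm ((mem_vars_iff hs).2 h)
  let T : Subalgebra k Ω :=
    { carrier := {a | a ∈ H k ξ ∧ ∃ c : k, a - algebraMap k Ω c ∈ mm k ξ}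
      mul_mem' := by
        rintro a b ⟨ha, c, hc⟩ ⟨hb, d, hd⟩
        refine ⟨mul_mem ha hb, c * d, ?_⟩
        convert add_mem (mul_mem_sub ha hd) (mul_mem_sub (Subalgebra.algebraMap_mem _ d) hc)
          using 1
        rw [map_mul]; ring
      add_mem' := by
        rintro a b ⟨ha, c, hc⟩ ⟨hb, d, hd⟩
        refine ⟨add_mem ha hb, c + d, ?_⟩
        convert add_mem hc hd using 1
        rw [map_add]; ring
      algebraMap_mem' := fun c => ⟨Subalgebra.algebraMap_mem _ c, c, by simp⟩ }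
  refine (HH_le (B := T) (fun r hr => ⟨R_le_H ξ hr, ?_⟩) (fun η hη => ⟨mem_HH_of_hroot hη, ?_⟩)
    (fun b hb h1 => ⟨inv_mem_H hb.1 h1, ?_⟩) ha).2
  · obtain ⟨c, hc⟩ := Ctx.res (k := k) r (hn r (R_le_H ξ hr))
    exact ⟨c, hR _ (sub_mem hr (Subalgebra.algebraMap_mem _ c)) hc⟩
  · have hH : η ∈ H k ξ := mem_HH_of_hroot hη
    obtain ⟨P, -, p2, p3, p4⟩ := hη
    obtain ⟨c, hc⟩ := Ctx.res (k := k) η (hn η hH)
    rw [norm_sub_rev] at hc
    have hδ : algebraMap k Ω c - η ∈ H k ξ := sub_mem (Subalgebra.algebraMap_mem _ c) hH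
    obtain ⟨κ, hκ, h⟩ := Desc.taylor (H k ξ) P (fun i => R_le_H ξ (p2 i)) hH hδ
    rw [add_sub_cancel, p3, zero_add] at h
    set w := P.derivative.eval η + κ * (algebraMap k Ω c - η) with hw
    have hwH : w ∈ H k ξ := add_mem (Desc.eval_mem _ _
      (Desc.der_coeff _ P fun i => R_le_H ξ (p2 i)) hH) (mul_mem hκ hδ)
    have hw1 : ‖w‖ = 1 := by
      rw [hw, norm_add_eq_left, p4]
      rw [p4, norm_mul]
      exact mul_lt_one_of_nonneg_of_lt_one_right (hn κ hκ) (norm_nonneg _) hc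
    have h1 : P.eval (algebraMap k Ω c) = w * (algebraMap k Ω c - η) := by rw [h, hw]; ring
    have h2 := hR _ (Desc.eval_mem _ P p2 (Subalgebra.algebraMap_mem _ c))
      (by rwa [h1, norm_mul, hw1, one_mul])
    refine ⟨c, ?_⟩
    convert mul_mem_sub (neg_mem (inv_mem_H hwH hw1)) h2 using 1
    have := ne_zero_of_norm_eq_one hw1
    rw [h1]; field_simp; ring
  · obtain ⟨hb, c, hc⟩ := hb
    have h2 : ‖algebraMap k Ω c‖ = 1 := by
      rw [← h1]
      exact norm_eq_of_norm_sub_lt (h1 ▸ norm_lt_of_mem_mm hs hc)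
    refine ⟨c⁻¹, ?_⟩
    convert mul_mem_sub (neg_mem (mul_mem (inv_mem_H hb h1)
      (Subalgebra.algebraMap_mem _ c⁻¹))) hc using 1
    have := ne_zero_of_norm_eq_one h1
    have := ne_zero_of_norm_eq_one h2
    rw [map_inv₀]; field_simp; ring

/-- MAX: the coordinates generate the maximal ideal. -/
theorem max (hs : ∀ i, ‖ξ i‖ < 1) {a : Ω} (ha : a ∈ H k ξ) (h : ‖a‖ < 1) : a ∈ mm k ξ := by
  obtain ⟨c, hc⟩ := exists_const hs ha
  have h2 := norm_sub_lt_of h (norm_lt_of_mem_mm hs hc)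
  rw [sub_sub_cancel] at h2
  rwa [eq_zero_of_norm_alg_lt h2, map_zero, sub_zero] at hc

theorem mem_mm_iff (hs : ∀ i, ‖ξ i‖ < 1) {a : Ω} : a ∈ mm k ξ ↔ a ∈ H k ξ ∧ ‖a‖ < 1 :=
  ⟨fun h => ⟨mem_H_of_mem_mm h, norm_lt_of_mem_mm hs h⟩, fun h => max hs h.1 h.2⟩

/-- JET, existence: every element is a polynomial modulo any power of the maximal ideal. -/
theorem jet1 (hs : ∀ i, ‖ξ i‖ < 1) (N : ℕ) {a : Ω} (ha : a ∈ H k ξ) :
    ∃ f : MvPolynomial ι k, a - MvPolynomial.aeval ξ f ∈ mm k ξ ^ N := by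
  induction N generalizing a with
  | zero => exact ⟨0, by simpa using mem_pow_zero.2 ha⟩
  | succ N ih =>
    have key : ∀ y ∈ mm k ξ, ∀ h ∈ H k ξ, ∃ f : MvPolynomial ι k,
        h * y - MvPolynomial.aeval ξ f ∈ mm k ξ ^ (N + 1) := fun y hy => by
      induction hy using Submodule.span_induction with
      | mem x hx =>
        obtain ⟨i, rfl⟩ := hx
        intro h hh
        obtain ⟨g, hg⟩ := ih hh
        refine ⟨g * MvPolynomial.X i, ?_⟩
        convert mul_mem_pow_succ hg (xi_mem_mm ξ i) using 1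
        rw [map_mul, MvPolynomial.aeval_X]; ring
      | zero => exact fun _ _ => ⟨0, by simp⟩
      | add x y _ _ hx hy =>
        intro h hh
        obtain ⟨f, hf⟩ := hx h hh
        obtain ⟨g, hg⟩ := hy h hh
        refine ⟨f + g, ?_⟩
        convert add_mem hf hg using 1
        rw [map_add]; ring
      | smul a x _ hx =>
        intro h hh
        obtain ⟨f, hf⟩ := hx (h * a) (mul_mem hh a.2)
        exact ⟨f, by rwa [mul_assoc] at hf⟩
    obtain ⟨c, hc⟩ := exists_const hs ha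
    obtain ⟨f, hf⟩ := key _ hc 1 (one_mem _)
    refine ⟨f + MvPolynomial.C c, ?_⟩
    convert hf using 1
    rw [map_add, MvPolynomial.aeval_C]; ring

theorem cancel_unit (hs : ∀ i, ‖ξ i‖ < 1) {N : ℕ} {f g : MvPolynomial ι k}
    (hg : ‖MvPolynomial.aeval ξ g‖ = 1) (h : f * g ∈ idealOfVars ι k ^ N) :
    f ∈ idealOfVars ι k ^ N := by
  obtain ⟨c, hc0, hc⟩ := exists_res_ne_zero k hg
  set e := 1 - MvPolynomial.C c⁻¹ * g with he
  have h1 : e ∈ idealOfVars ι k := by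
    have h2 : algebraMap k Ω c ≠ 0 := by simpa using hc0
    rw [mem_vars_iff hs, show MvPolynomial.aeval ξ e = algebraMap k Ω c⁻¹ *
      -(MvPolynomial.aeval ξ g - algebraMap k Ω c) by simp [he]; field_simp, norm_mul,
      Ctx.norm_alg _ (inv_ne_zero hc0), one_mul, norm_neg]
    exact hc
  have h2 : f = f * g * (MvPolynomial.C c⁻¹ * ∑ i ∈ Finset.range N, e ^ i) + f * e ^ N := by
    have := mul_neg_geom_sum e N
    rw [he, sub_sub_cancel, ← he] at this
    linear_combination -f * this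
  rw [h2]
  exact add_mem (Ideal.mul_mem_right _ _ h) (Ideal.mul_mem_left _ _ (Ideal.pow_mem_pow h1 N))

/-- Newton approximation of a henselian root by polynomials. -/
theorem newton (hs : ∀ i, ‖ξ i‖ < 1) {η : Ω} (hη : ‖η‖ ≤ 1) (P : Polynomial (MvPolynomial ι k))
    (h0 : (P.map (evr k ξ)).eval η = 0)
    (h1 : ‖(P.map (evr k ξ)).derivative.eval η‖ = 1)
    (N : ℕ) : ∃ y, ‖MvPolynomial.aeval ξ y - η‖ < 1 ∧ P.eval y ∈ idealOfVars ι k ^ N := by
  have hn : ∀ f : MvPolynomial ι k, ‖MvPolynomial.aeval ξ f‖ ≤ 1 := fun f =>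
    norm_H (fun i => (hs i).le) (aeval_mem_H ξ f)
  have hev : ∀ (G : Polynomial (MvPolynomial ι k)) y, ‖MvPolynomial.aeval ξ y - η‖ < 1 →
      ‖MvPolynomial.aeval ξ (G.eval y) -
        (G.map (evr k ξ)).eval η‖ < 1 := fun G y hy => by
    have := norm_eval_sub_lt k (G := G.map (evr k ξ))
      (fun i => by rw [coeff_map]; exact hn _) hη hy
    rwa [eval_map, show MvPolynomial.aeval ξ y =
      (evr k ξ) y from rfl, eval₂_at_apply] at this
  obtain ⟨c, hc0, hc⟩ := exists_res_ne_zero k h1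
  induction N with
  | zero =>
    obtain ⟨c, hc⟩ := Ctx.res (k := k) η hη
    exact ⟨MvPolynomial.C c, by rwa [MvPolynomial.aeval_C, norm_sub_rev], by simp⟩
  | succ N ih =>
    obtain ⟨y, hy, hP⟩ := ih
    have h2 : P.eval y ∈ idealOfVars ι k := by
      have := hev P y hy
      rw [h0, sub_zero] at this
      exact (mem_vars_iff hs).2 this
    have h3 : P.derivative.eval y - MvPolynomial.C c ∈ idealOfVars ι k := by
      rw [derivative_map] at hc
      have := norm_add_lt_of (hev P.derivative y hy) hc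
      rw [sub_add_sub_cancel] at this
      rw [mem_vars_iff hs, map_sub, MvPolynomial.aeval_C]
      exact this
    have h4 : MvPolynomial.C c⁻¹ * MvPolynomial.C c = (1 : MvPolynomial ι k) := by
      rw [← map_mul, inv_mul_cancel₀ hc0, map_one]
    obtain ⟨κ, hκ⟩ := P.binomExpansion y (-(MvPolynomial.C c⁻¹ * P.eval y))
    refine ⟨y + -(MvPolynomial.C c⁻¹ * P.eval y), ?_, ?_⟩
    · rw [map_add, add_sub_right_comm]
      exact norm_add_lt_of hy ((mem_vars_iff hs).1 (neg_mem (Ideal.mul_mem_left _ _ h2)))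
    · have h5 : P.eval (y + -(MvPolynomial.C c⁻¹ * P.eval y)) = P.eval y *
          (-MvPolynomial.C c⁻¹ * (P.derivative.eval y - MvPolynomial.C c) +
            κ * MvPolynomial.C c⁻¹ ^ 2 * P.eval y) := by
        rw [hκ]; linear_combination -P.eval y * h4
      rw [h5, pow_succ]
      exact Ideal.mul_mem_mul hP (add_mem (Ideal.mul_mem_left _ _ h3) (Ideal.mul_mem_left _ _ h2))

variable [IsAlgClosed Ω] [Infinite k]

/-- JET, uniqueness. -/
theorem jet2 (hi : AlgebraicIndependent k ξ) (hs : ∀ i, ‖ξ i‖ < 1) {N : ℕ} {f : MvPolynomial ι k}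
    (h : MvPolynomial.aeval ξ f ∈ mm k ξ ^ N) : f ∈ idealOfVars ι k ^ N := by
  classical
  have hB := base_poly hi fun i => (hs i).le
  rw [mm, Submodule.span_pow, Submodule.mem_span_set'] at h
  obtain ⟨n, c, g, hsum⟩ := h
  choose m hm hmg using fun j => exists_mem_pow_vars (k := k) (g j).2
  obtain ⟨η, P, hP, h1⟩ := one hB (Finset.univ.image fun j => (c j : Ω)) fun w hw => by
    obtain ⟨j, -, rfl⟩ := Finset.mem_image.1 hw
    exact (c j).2
  obtain ⟨u, hu, hu1, h2⟩ := cden _ _ h1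
  set φ := (evr k ξ)
  have hφ : Function.Injective φ := hi
  have hl : ∀ a ∈ A1 (Algebra.adjoin k (Set.range ξ)) η, ∃ G : Polynomial (MvPolynomial ι k),
      (G.map φ).eval η = a := fun a ha => by
    obtain ⟨G, hG, rfl⟩ := exists_eval ha
    obtain ⟨G, rfl⟩ := (mem_lifts G).1 (lift_poly hG)
    exact ⟨G, rfl⟩
  obtain ⟨U, hU⟩ := hl u hu
  choose G hG using fun j => hl _ (h2 _ (Finset.mem_image_of_mem _ (Finset.mem_univ j)))
  obtain ⟨P₀, rfl, -, hP₀⟩ := lifts_and_natDegree_eq_and_monic (lift_poly hP.coeff) hP.monic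
  have hη := norm_le_of_int hB.norm (HRoot.int hP.hroot)
  obtain ⟨y, hy, hPy⟩ := newton hs hη P₀ hP.root hP.der N
  set D := C f * U - ∑ j, G j * C (m j) with hD
  have h3 : (D.map φ).eval η = 0 := by
    simp only [hD, Polynomial.map_sub, Polynomial.map_mul, Polynomial.map_sum, map_C, eval_sub,
      eval_mul, eval_finsetSum, eval_C, hU, hG]
    change MvPolynomial.aeval ξ f * u - ∑ j, u * c j * MvPolynomial.aeval ξ (m j) = 0
    rw [← hsum, Finset.sum_mul, ← Finset.sum_sub_distrib]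
    refine Finset.sum_eq_zero fun j _ => ?_
    rw [hmg]
    change (c j : Ω) * g j * u - _ = 0
    ring
  have h4 : P₀ ∣ D := by
    rw [← modByMonic_eq_zero_iff_dvd hP₀, ← Polynomial.map_eq_zero_iff hφ]
    refine hP.min _ (fun i => ?_) ?_ ?_
    · rw [coeff_map]; exact hB.le _ (aeval_mem_R ξ _)
    · rw [modByMonic_eq_sub_mul_div, Polynomial.map_sub, Polynomial.map_mul, eval_sub, eval_mul, h3,
        hP.root, zero_mul, sub_zero]
    · rw [degree_map_eq_of_injective hφ, degree_map_eq_of_injective hφ]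
      exact degree_modByMonic_lt _ hP₀
  obtain ⟨Q, hQ⟩ := h4
  have h5 : D.eval y ∈ idealOfVars ι k ^ N := by
    rw [hQ, eval_mul]; exact Ideal.mul_mem_right _ _ hPy
  have h6 : f * U.eval y ∈ idealOfVars ι k ^ N := by
    have := add_mem h5 (Ideal.sum_mem _ fun j (_ : j ∈ Finset.univ) =>
      Ideal.mul_mem_left _ ((G j).eval y) (hm j))
    simpa [hD, eval_finsetSum] using this
  refine cancel_unit hs ?_ h6
  have h7 := norm_eval_sub_lt k (G := U.map φ)
    (fun i => by rw [coeff_map]; exact hB.norm _ (aeval_mem_R ξ _)) hη hy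
  rw [hU, eval_map, show MvPolynomial.aeval ξ y = φ y from rfl, eval₂_at_apply, norm_sub_rev,
    ← hu1] at h7
  exact (norm_eq_of_norm_sub_lt h7).trans hu1

theorem jet_iff (hi : AlgebraicIndependent k ξ) (hs : ∀ i, ‖ξ i‖ < 1) {N : ℕ}
    {f : MvPolynomial ι k} : MvPolynomial.aeval ξ f ∈ mm k ξ ^ N ↔ f ∈ idealOfVars ι k ^ N :=
  ⟨jet2 hi hs, aeval_mem_pow⟩

/-- The jet of order `N`. -/
noncomputable def jet (hi : AlgebraicIndependent k ξ) (hs : ∀ i, ‖ξ i‖ < 1) (N : ℕ) :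
    H k ξ →ₐ[k] MvPolynomial ι k ⧸ idealOfVars ι k ^ N :=
  have h := fun a : H k ξ => (jet1 hs N a.2).choose_spec
  have hH := fun a : H k ξ => aeval_mem_H ξ (jet1 hs N a.2).choose
  { toFun := fun a => Ideal.Quotient.mk _ (jet1 hs N a.2).choose
    map_one' := by
      rw [← map_one (Ideal.Quotient.mk _), Ideal.Quotient.eq, ← jet_iff hi hs]
      simpa using neg_mem (h 1)
    map_mul' := fun a b => by
      rw [← map_mul, Ideal.Quotient.eq, ← jet_iff hi hs]
      convert sub_mem (add_mem (mul_mem_sub a.2 (h b)) (mul_mem_sub (hH b) (h a))) (h (a * b))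
        using 1
      simp only [map_sub, map_mul, MulMemClass.coe_mul]; ring
    map_zero' := by
      rw [Ideal.Quotient.eq_zero_iff_mem, ← jet_iff hi hs]
      simpa using neg_mem (h 0)
    map_add' := fun a b => by
      rw [← map_add, Ideal.Quotient.eq, ← jet_iff hi hs]
      convert sub_mem (add_mem (h a) (h b)) (h (a + b)) using 1
      simp only [map_sub, map_add, AddMemClass.coe_add]; ring
    commutes' := fun c => by
      rw [← Ideal.Quotient.mk_algebraMap, Ideal.Quotient.eq, ← jet_iff hi hs]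
      simpa using neg_mem (h (algebraMap k _ c)) }

theorem jet_eq_iff (hi : AlgebraicIndependent k ξ) (hs : ∀ i, ‖ξ i‖ < 1) (N : ℕ) (a : H k ξ)
    (f : MvPolynomial ι k) : jet hi hs N a = Ideal.Quotient.mk _ f ↔
      (a : Ω) - MvPolynomial.aeval ξ f ∈ mm k ξ ^ N := by
  have h := (jet1 hs N a.2).choose_spec
  change Ideal.Quotient.mk _ (jet1 hs N a.2).choose = _ ↔ _
  rw [Ideal.Quotient.eq, ← jet_iff hi hs, map_sub, ← Submodule.add_mem_iff_right _ h,
    sub_add_sub_cancel]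

/-- H2 for the henselization of a polynomial ring. -/
theorem H_h2 (hi : AlgebraicIndependent k ξ) (hs : ∀ i, ‖ξ i‖ < 1) {P : Polynomial Ω}
    (h1 : P.Monic) (h2 : ∀ i, P.coeff i ∈ H k ξ) {z : Ω} (h3 : P.eval z = 0)
    (h4 : ‖P.derivative.eval z‖ = 1) : z ∈ H k ξ :=
  Hr.h2 (base_poly hi fun i => (hs i).le) ⟨P, h1, h2, h3, h4⟩

theorem H_nor (hi : AlgebraicIndependent k ξ) (hs : ∀ i, ‖ξ i‖ < 1) {a : Ω}
    (ha : a ∈ adjoin k (H k ξ : Set Ω)) (h : IsIntegral (H k ξ) a) : a ∈ H k ξ :=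
  nor (base_poly hi fun i => (hs i).le) ha h

theorem H_hf (hi : AlgebraicIndependent k ξ) (hs : ∀ i, ‖ξ i‖ < 1) {e : Ω}
    (h : IsIntegral (H k ξ) e) (he : ‖e‖ = 1) : e⁻¹ ∈ A1 (H k ξ) e :=
  hf (base_poly hi fun i => (hs i).le) h he

theorem H_one (hi : AlgebraicIndependent k ξ) (hs : ∀ i, ‖ξ i‖ < 1) (W : Finset Ω)
    (hW : ∀ w ∈ W, w ∈ H k ξ) :
    ∃ η P, Min (Algebra.adjoin k (Set.range ξ)) (adjoin k (Set.range ξ)) η P ∧
      ∀ w ∈ W, w ∈ loc (A1 (Algebra.adjoin k (Set.range ξ)) η) :=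
  one (base_poly hi fun i => (hs i).le) W hW

/-- LE for the rings. -/
theorem H_le_H (hi : AlgebraicIndependent k ξ) (hs : ∀ i, ‖ξ i‖ < 1) {ι' : Type*} {ξ' : ι' → Ω}
    (h : ∀ i, ξ' i ∈ H k ξ) : H k ξ' ≤ H k ξ :=
  HH_le_HH (base_poly hi fun i => (hs i).le) (Algebra.adjoin_le (Set.forall_mem_range.2 h))

/-- LE for the powers of the maximal ideals. -/
theorem pow_le_pow (hi : AlgebraicIndependent k ξ) (hs : ∀ i, ‖ξ i‖ < 1) {ι' : Type*}
    {ξ' : ι' → Ω} (h : ∀ i, ξ' i ∈ H k ξ) (hs' : ∀ i, ‖ξ' i‖ < 1) {N : ℕ} {a : Ω}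
    (ha : a ∈ mm k ξ' ^ N) : a ∈ mm k ξ ^ N := by
  induction N generalizing a with
  | zero => exact mem_pow_zero.2 (H_le_H hi hs h (mem_pow_zero.1 ha))
  | succ N ih =>
    rw [pow_succ] at ha
    refine Submodule.mul_induction_on ha (fun a ha b hb => mul_mem_pow_succ (ih ha) ?_)
      fun a b => add_mem
    exact max hs (H_le_H hi hs h (mem_H_of_mem_mm hb)) (norm_lt_of_mem_mm hs' hb)

omit [IsAlgClosed Ω] [Infinite k] in
theorem exists_rho [Finite ι] (hs : ∀ i, ‖ξ i‖ < 1) : ∃ ρ : ℝ, 0 ≤ ρ ∧ ρ < 1 ∧ ∀ i, ‖ξ i‖ ≤ ρ := by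
  have := Fintype.ofFinite ι
  exact ⟨‖ξ‖, norm_nonneg _, (pi_norm_lt_iff one_pos).2 hs, norm_le_pi_norm ξ⟩

omit [IsAlgClosed Ω] [Infinite k] in
theorem mem_hens [Finite ι] (hs : ∀ i, ‖ξ i‖ < 1) {a : Ω} (ha : a ∈ H k ξ) :
    a ∈ hens (adjoin k (Set.range ξ)) := by
  refine mem_hens_iff.2 ⟨sep_of_mem_HH (fun _ h => algebra_adjoin_le_adjoin k _ h) ha,
    fun ε hε => ?_⟩
  obtain ⟨ρ, h0, h1, h2⟩ := exists_rho hs
  obtain ⟨N, hN⟩ := exists_pow_lt_of_lt_one hε h1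
  obtain ⟨f, hf⟩ := jet1 hs N ha
  exact ⟨_, algebra_adjoin_le_adjoin k _ (aeval_mem_R ξ f),
    (norm_le_pow h0 h1.le h2 hf).trans_lt hN⟩

end Hr

end Pool.Agent.MP_19ffc6_ag.LU3

end MrgPart1

-- marker of a merged file
example : 731051 + 435864 = 731051 + 435864 := rfl
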