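import Pool.Agent.MP_19ffc6_ag.LU3.TameG
import Pool.Agent.MP_19ffc6_ag.LU.Perron
import Pool.Agent.MP_19ffc6_ag.LU.HensB
import Pool.Agent.MP_19ffc6_ag.LU3.Hjet

-- ======== part 0: formerly Pool.Agent.MP_19ffc6_ag.LU3.Proj
section MrgPart0

/-! PROJECT LU3: transport of the projection theorems, and the passage from valuations to norms. -/

namespace Pool.Agent.MP_19ffc6_ag.LU3

open Polynomial IntermediateField Pool.Agent.MP_19ffc6_ag.LU Mh Orth NNReal

universe u v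

section transport

variable {k : Type*} {Ω Ω' : Type u} [Field k] [NontriviallyNormedField Ω] [Algebra k Ω]
  [NontriviallyNormedField Ω'] [Algebra k Ω']

/-- The values of all elements algebraic over `K` are rational combinations of values of `F`. -/
def VFull (F K : IntermediateField k Ω) : Prop := ∀ a : Ω, IsAlgebraic K a → nu a ∈ qv F

theorem VFull.of_alg {F K E : IntermediateField k Ω} (h : VFull F K)
    (hE : ∀ z ∈ E, IsAlgebraic K z) : VFull F E := fun a ha => h a (isAlgebraic_trans hE ha)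

theorem VFull.mono {F F' K : IntermediateField k Ω} (h : VFull F K) (hF : F ≤ F') : VFull F' K :=
  fun a ha => qv_mono hF (h a ha)

theorem vfull_self [IsUltrametricDist Ω] (K : IntermediateField k Ω) : VFull K K := fun a ha => by
  by_cases h0 : a = 0
  · simp [h0, nu]
  obtain ⟨d, hd, b, hb, -, h1⟩ := exists_mul_nu_mem ha h0
  exact mem_of_mul_mem (d := d) (by omega) (by simpa [← h1] using nu_mem_qv hb)

theorem vfull_iff [IsUltrametricDist Ω] {F K : IntermediateField k Ω} :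
    VFull F K ↔ ∀ a ∈ K, nu a ∈ qv F := by
  refine ⟨fun h a ha => h a (alg_of_mem ha), fun h a ha => ?_⟩
  refine Submodule.span_le.2 ?_ (vfull_self K a ha)
  rintro _ ⟨e, he, -, rfl⟩
  exact h e he

/-- Finitely many elements span the values of a field of finite transcendence degree. -/
theorem exists_finset_qv [IsUltrametricDist Ω] [Ctx k Ω] {F : IntermediateField k Ω}
    (hF : Algebra.trdeg k F < Cardinal.aleph0) :
    ∃ B : Finset Ω, (∀ b ∈ B, b ∈ F ∧ b ≠ 0) ∧ ∀ α ∈ qv F,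
      ∃ d : ℕ, 0 < d ∧ (d : ℝ) * α ∈ AddSubgroup.closure (nu '' (B : Set Ω)) := by
  classical
  obtain ⟨t, ht, hsp, hli⟩ := exists_linearIndependent ℚ (vg F : Set ℝ)
  choose z hz hz0 hz' using fun i : t => ht i.2
  have h1 : LinearIndependent ℤ fun i => nu (z i) := by
    simp only [hz']
    exact hli.restrict_scalars' ℤ
  have h2 : AlgebraicIndependent k fun i => (⟨z i, hz i⟩ : F) :=
    AlgebraicIndependent.of_comp F.val (ind _ z hz0 h1)
  have : Finite t := Cardinal.lt_aleph0_iff_finite.1 (by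
    have := h2.lift_cardinalMk_le_trdeg.trans_lt (Cardinal.lift_lt.2 hF)
    simpa using this)
  refine ⟨(Set.finite_range z).toFinset, fun b hb => ?_, fun α hα => exists_mul_mem_closure ?_⟩
  · obtain ⟨i, rfl⟩ := (Set.Finite.mem_toFinset _).1 hb
    exact ⟨hz i, hz0 i⟩
  · rw [qv, ← hsp] at hα
    refine Submodule.span_mono (fun γ hγ => ?_) hα
    exact ⟨z ⟨γ, hγ⟩, by simp, hz' _⟩

variable (j : Ω' →ₐ[k] Ω)

theorem alg_map_iff {M : IntermediateField k Ω'} {a : Ω'} :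
    IsAlgebraic (M.map j) (j a) ↔ IsAlgebraic M a :=
  ⟨fun h => h.of_ringHom_of_comp_eq (equivMap M j) j (equivMap M j).surjective j.injective rfl,
    fun h => h.ringHom_of_comp_eq (equivMap M j) j (equivMap M j).injective rfl⟩

theorem sep_map_iff {M : IntermediateField k Ω'} {a : Ω'} :
    IsSeparable (M.map j) (j a) ↔ IsSeparable M a := by
  have h1 : ∀ P : M[X], aeval (j a) (P.map (equivMap M j : M →+* M.map j)) = j (aeval a P) :=
    fun P => (map_aeval_eq_aeval_map (φ := (equivMap M j : M →+* M.map j)) (ψ := (j : Ω' →+* Ω))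
      rfl P a).symm
  constructor
  · intro h
    obtain ⟨P, hP⟩ := Polynomial.map_surjective (equivMap M j : M →+* M.map j)
      (equivMap M j).surjective (minpoly (M.map j) (j a))
    refine Separable.of_dvd ((separable_map (equivMap M j : M →+* M.map j)).1 (by rw [hP]; exact h))
      (minpoly.dvd M a (j.injective ?_))
    show j _ = j _
    rw [← h1, hP, minpoly.aeval, map_zero]
  · intro h
    refine (Separable.map h (f := (equivMap M j : M →+* M.map j))).of_dvd (minpoly.dvd _ _ ?_)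
    rw [h1, minpoly.aeval, map_zero]

variable {j}

theorem hens_map [IsAlgClosed Ω'] (hj : ∀ x, ‖j x‖ = ‖x‖) (M : IntermediateField k Ω') :
    (hens M).map j = hens (M.map j) := by
  have key : ∀ a, j a ∈ hens (M.map j) ↔ a ∈ hens M := fun a => by
    rw [mem_hens_iff, mem_hens_iff, sep_map_iff]
    refine and_congr_right fun _ => forall₂_congr fun ε _ => ⟨?_, ?_⟩
    · rintro ⟨_, ⟨b, hb, rfl⟩, h⟩
      exact ⟨b, hb, by rwa [← hj, map_sub]⟩
    · rintro ⟨b, hb, h⟩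
      exact ⟨j b, ⟨b, hb, rfl⟩, by rwa [← map_sub, hj]⟩
  refine le_antisymm ?_ fun a ha => ?_
  · rintro _ ⟨a, ha, rfl⟩
    exact (key a).2 ha
  · obtain ⟨b, rfl⟩ := mem_range_of_alg j (alg_mono (M := M.map j)
      (by rintro _ ⟨b, -, rfl⟩; exact ⟨b, rfl⟩) (alg_of_mem_hens ha))
    exact ⟨b, (key b).1 ha, rfl⟩

theorem qv_map (hj : ∀ x, ‖j x‖ = ‖x‖) (M : IntermediateField k Ω') : qv M ≤ qv (M.map j) :=
  Submodule.span_mono (by
    rintro _ ⟨e, he, h0, rfl⟩
    exact ⟨j e, ⟨e, he, rfl⟩, (_root_.map_ne_zero j).2 h0, by simp only [nu, hj]⟩)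

end transport

section proj

variable (k : Type*) (Ω : Type u) [Field k] [NontriviallyNormedField Ω] [Algebra k Ω] (p : ℕ)

/-- The first projection. -/
def Alb1Stmt : Prop :=
  ∀ K : IntermediateField k Ω, K.FG → Algebra.IsAlgebraic K Ω → ∀ n : ℕ,
    Algebra.trdeg k K = n → n.factorial < p → ∃ b : Fin n → Ω, (∀ i, b i ∈ K ∧ ‖b i‖ < 1) ∧
      AlgebraicIndependent k b ∧ relrank (hens (adjoin k (Set.range b))) (hens K) < p

/-- Both projections, inside an arbitrary algebraically closed field. -/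
def ProjStmt : Prop :=
  ∀ K : IntermediateField k Ω, K.FG → ∀ n : ℕ, Algebra.trdeg k K = n → n.factorial < p →
    ∃ b c : Fin n → Ω, (∀ i, b i ∈ K) ∧ relrank (hens (adjoin k (Set.range b))) (hens K) < p ∧
      AlgebraicIndependent k c ∧ (∀ i, c i ∈ hens (adjoin k (Set.range b))) ∧
      relrank (hens (adjoin k (Set.range c))) (hens (adjoin k (Set.range b))) < p ∧
      ((LinearIndependent ℤ fun i => nu (c i)) ∨
        ∃ i, VFull (adjoin k (c '' {i}ᶜ)) (adjoin k (Set.range c)))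

variable {k Ω p}

theorem eq_bot_of_trivial [IsUltrametricDist Ω] [Ctx k Ω] {K : IntermediateField k Ω}
    (h : ¬ ∃ m ∈ K, 1 < ‖m‖) : K = ⊥ := by
  push Not at h
  refine eq_bot_iff.2 fun a ha => ?_
  obtain ⟨c, hc⟩ := Ctx.res (k := k) a (h a ha)
  have h0 : a - algebraMap k Ω c = 0 := by
    by_contra h0
    have h3 := h _ (inv_mem (sub_mem ha (K.algebraMap_mem c)))
    rw [norm_inv, inv_le_one₀ (norm_pos_iff.2 h0)] at h3
    exact absurd hc (not_lt.2 h3)
  rw [sub_eq_zero.1 h0]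
  exact IntermediateField.algebraMap_mem _ c

theorem proj_of [IsUltrametricDist Ω] [IsAlgClosed Ω] [Ctx k Ω]
    (h : ∀ (W : Type u) [NontriviallyNormedField W] [IsUltrametricDist W] [Algebra k W]
      [IsAlgClosed W] [Ctx k W], Alb1Stmt k W p ∧ Kill.GrowStmt k W ∧ Kill.AlbStmt k W p) :
    ProjStmt k Ω p := by
  classical
  intro K hK n hn hp
  have hp1 : (1 : Cardinal.{u}) < p := by
    exact_mod_cast lt_of_le_of_lt (Nat.factorial_pos n) hp
  by_cases hm : ∃ m ∈ K, 1 < ‖m‖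
  swap
  · obtain rfl := eq_bot_of_trivial hm
    obtain rfl : n = 0 := by
      rw [trdeg_eq_zero] at hn
      exact_mod_cast hn.symm
    refine ⟨Fin.elim0, Fin.elim0, fun i => i.elim0, ?_,
      algebraicIndependent_empty_type_iff.2 (algebraMap k Ω).injective, fun i => i.elim0, ?_,
      Or.inl linearIndependent_empty_type⟩
    · rwa [Set.range_eq_empty, adjoin_empty, relrank_self]
    · rwa [relrank_self]
  obtain ⟨m, hm, hm1⟩ := hm
  let W := (algebraicClosure K Ω).restrictScalars k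
  have hW : ∀ a, a ∈ W ↔ IsAlgebraic K a := fun a => mem_algebraicClosure_iff
  let : NontriviallyNormedField W :=
    { (inferInstance : NormedField W) with non_trivial := ⟨⟨m, (hW m).2 (alg_of_mem hm)⟩, hm1⟩ }
  have : IsAlgClosed W := (algebraicClosure.isAlgClosure K Ω).isAlgClosed
  have : Ctx k W := ⟨fun c hc => Ctx.norm_alg (Ω := Ω) c hc, fun a ha => Ctx.res (a : Ω) ha⟩
  obtain ⟨h1, h2, h3⟩ := h W
  let j : W →ₐ[k] Ω := W.val
  have hj : ∀ x, ‖j x‖ = ‖x‖ := fun _ => rfl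
  obtain ⟨Z, hZ⟩ := hK
  have hZW : ∀ z ∈ Z, z ∈ W := fun z hz => (hW z).2 (alg_of_mem (hZ ▸ subset_adjoin _ _ hz))
  let K' : IntermediateField k W := adjoin k (Set.range fun z : Z => (⟨z, hZW z z.2⟩ : W))
  have hK' : K'.map j = K := by
    rw [adjoin_map, ← Set.range_comp, ← hZ]
    congr 1
    exact Subtype.range_coe
  have halg : Algebra.IsAlgebraic K' W := ⟨fun a => (alg_map_iff j).1 (hK' ▸ (hW _).1 a.2)⟩
  have hn' : Algebra.trdeg k K' = n := by rw [(equivMap K' j).trdeg_eq, hK', hn]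
  obtain ⟨b, hb, hbi, hbd⟩ := h1 K' (fg_adjoin_of_finite (Set.finite_range _)) halg n hn' hp
  have hba : Algebra.IsAlgebraic (adjoin k (Set.range b)) W :=
    (hbi.isTranscendenceBasis_of_lift_trdeg_le_of_finite
      (by simp [← trdeg_eq_of_alg halg, hn'])).isAlgebraic_field
  obtain ⟨c, hci, hc, hcd, hor⟩ := kill_of h2 h3 n b hbi (fun i => (hb i).2) hba hp
  have hmap : ∀ v : Fin n → W, hens (adjoin k (Set.range fun i => j (v i))) =
      (hens (adjoin k (Set.range v))).map j := fun v => by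
    rw [hens_map hj, adjoin_map, ← Set.range_comp]; rfl
  refine ⟨fun i => j (b i), fun i => j (c i), fun i => hK' ▸ ⟨b i, (hb i).1, rfl⟩, ?_,
    hci.map' j.injective, fun i => hmap b ▸ ⟨c i, hc i, rfl⟩, ?_, ?_⟩
  · rwa [hmap, ← hK', ← hens_map hj, relrank_map_map]
  · rwa [hmap, hmap, relrank_map_map]
  · refine hor.imp id ?_
    rintro ⟨i, hi⟩
    refine ⟨i, vfull_iff.2 fun a ha => ?_⟩
    have h4 : adjoin k (Set.range fun i => j (c i)) ≤ W :=
      adjoin_le_iff.2 (by rintro _ ⟨i, rfl⟩; exact (c i).2)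
    by_cases h0 : a = 0
    · simp [h0, nu]
    have h5 := qv_map hj _ (hi ⟨a, h4 ha⟩ fun h => h0 (congrArg Subtype.val h))
    rwa [adjoin_map, ← Set.image_comp] at h5

end proj

section glue

/-- The theorem inside `Ω`. -/
def Core3 (k Ω : Type*) [Field k] [NontriviallyNormedField Ω] [Algebra k Ω] (n : ℕ) : Prop :=
  ∀ F : IntermediateField k Ω, F.FG → Algebra.trdeg k F ≤ n →
    ∀ Z : Finset Ω, (∀ z ∈ Z, z ∈ F ∧ ‖z‖ ≤ 1) → ∃ A, Model F Z A

/-- Transfer of a model from the image of `F` in `Ω` back to `F`. -/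
theorem transfer3 {k : Type*} {F Ω : Type v} [Field k] [Field F] [Algebra k F]
    [NontriviallyNormedField Ω] [Algebra k Ω] (φ : F →ₐ[k] Ω) {n : ℕ} (core : Core3 k Ω n)
    (hfg : (⊤ : IntermediateField k F).FG) (v : Valuation F ℝ≥0) (hv : ∀ a, ‖φ a‖ = v a)
    (htr : Algebra.trdeg k F ≤ n) (Z : Finset F) (hZ : ∀ z ∈ Z, v z ≤ 1) :
    ∃ A : Subalgebra k F, A.FG ∧ (∀ a ∈ A, v a ≤ 1) ∧ (∀ z ∈ Z, z ∈ A) ∧
      IsFractionRing A F ∧ Algebra.Smooth k A := by
  classical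
  have hinj : Function.Injective φ := φ.injective
  let e : F ≃ₐ[k] φ.fieldRange := AlgEquiv.ofInjectiveField φ
  have hFG : φ.fieldRange.FG := by
    obtain ⟨t, ht⟩ := hfg
    refine ⟨t.image φ, ?_⟩
    rw [Finset.coe_image, ← IntermediateField.adjoin_map, ht, AlgHom.fieldRange_eq_map]
  obtain ⟨A, hA, hAF, hA1, hAZ, hAq, hAs⟩ := core φ.fieldRange hFG
    (by rw [← e.trdeg_eq]; exact htr) (Z.image φ) (by
      intro z hz
      obtain ⟨w, hw, rfl⟩ := Finset.mem_image.1 hz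
      refine ⟨⟨w, rfl⟩, ?_⟩
      rw [hv]; exact_mod_cast hZ w hw)
  have hmap : (A.comap φ).map φ = A := by
    rw [Subalgebra.map_comap_eq]
    exact inf_eq_left.2 hAF
  refine ⟨A.comap φ, Subalgebra.fg_of_fg_map _ φ hinj (by rwa [hmap]), fun a ha => ?_,
    fun z hz => hAZ _ (Finset.mem_image_of_mem _ hz), ?_, ?_⟩
  · have : ‖φ a‖ ≤ 1 := hA1 _ ha
    rw [hv] at this
    exact_mod_cast this
  · refine IsFractionRing.of_field _ _ fun z => ?_
    obtain ⟨a, ha, b, hb, -, h⟩ := hAq (φ z) ⟨z, rfl⟩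
    obtain ⟨a', rfl⟩ := hAF ha
    obtain ⟨b', rfl⟩ := hAF hb
    refine ⟨⟨a', ha⟩, ⟨b', hb⟩, hinj ?_⟩
    rw [map_div₀]
    exact h
  · exact Algebra.Smooth.of_equiv
      (((A.comap φ).equivMapOfInjective φ hinj).trans (Subalgebra.equivOfEq _ _ hmap)).symm

/-- Reduction of the theorem to the normed algebraically closed setting. -/
theorem glue3 (k : Type*) (F : Type v) [Field k] [IsAlgClosed k] [Field F] [Algebra k F] (n : ℕ)
    (core : ∀ (Ω : Type v) [NontriviallyNormedField Ω] [IsUltrametricDist Ω] [Algebra k Ω]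
      [IsAlgClosed Ω] [Ctx k Ω], Core3 k Ω n)
    (hfg : (⊤ : IntermediateField k F).FG) (v : Valuation F ℝ≥0)
    (h1 : ∀ c : k, c ≠ 0 → v (algebraMap k F c) = 1)
    (h2 : ∀ a : F, v a ≤ 1 → ∃ c : k, v (a - algebraMap k F c) < 1)
    (htr : Algebra.trdeg k F ≤ n) (Z : Finset F) (hZ : ∀ z ∈ Z, v z ≤ 1) :
    ∃ A : Subalgebra k F, A.FG ∧ (∀ a ∈ A, v a ≤ 1) ∧ (∀ z ∈ Z, z ∈ A) ∧
      IsFractionRing A F ∧ Algebra.Smooth k A := by
  by_cases hn : ∃ a, 1 < v a
  · let f : AbsoluteValue F ℝ :=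
      { toFun := fun a => v a
        map_mul' := fun a b => by simp
        nonneg' := fun a => (v a).2
        eq_zero' := fun a => by simp
        add_le' := fun a b => by
          have := v.map_add a b
          have h : v (a + b) ≤ v a + v b :=
            this.trans (max_le (le_add_of_nonneg_right bot_le) (le_add_of_nonneg_left bot_le))
          exact_mod_cast h }
    have hf : IsNonarchimedean f := fun a b => by
      change ((v (a + b) : ℝ≥0) : ℝ) ≤ max (v a : ℝ) (v b : ℝ)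
      exact_mod_cast v.map_add a b
    obtain ⟨a0, ha0⟩ := hn
    have ha1 : 1 < f a0 := by
      change (1 : ℝ) < ((v a0 : ℝ≥0) : ℝ)
      exact_mod_cast ha0
    obtain ⟨g, hg, hgf⟩ := Glue.exists_abs F f hf ⟨a0, ha1⟩
    let : NontriviallyNormedField (AlgebraicClosure F) :=
      { g.toNormedField with
        non_trivial := ⟨algebraMap F _ a0, by
          change 1 < g _
          rw [hgf]; exact ha1⟩ }
    have hv : ∀ a, ‖algebraMap F (AlgebraicClosure F) a‖ = v a := hgf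
    have : IsUltrametricDist (AlgebraicClosure F) :=
      IsUltrametricDist.isUltrametricDist_of_forall_norm_add_le_max_norm hg
    have hk : ∀ c : k, c ≠ 0 → ‖algebraMap k (AlgebraicClosure F) c‖ = 1 := fun c hc => by
      rw [IsScalarTower.algebraMap_apply k F, hv, h1 c hc]; rfl
    have : Ctx k (AlgebraicClosure F) :=
      ⟨hk, Glue.res_of_algebraic (F := F) hk fun b hb => by
        rw [hv] at hb
        obtain ⟨c, hc⟩ := h2 b (by exact_mod_cast hb)
        refine ⟨c, ?_⟩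
        rw [IsScalarTower.algebraMap_apply k F, ← map_sub, hv]
        exact_mod_cast hc⟩
    exact transfer3 (IsScalarTower.toAlgHom k F (AlgebraicClosure F))
      (core (AlgebraicClosure F)) hfg v hv htr Z hZ
  · push Not at hn
    have hall : ∀ a : F, a ∈ (⊥ : Subalgebra k F) := by
      intro a
      obtain ⟨c, hc⟩ := h2 a (hn a)
      have h0 : a - algebraMap k F c = 0 := by
        by_contra h0
        have h3 := hn (a - algebraMap k F c)⁻¹
        rw [map_inv₀, inv_le_one₀ (pos_iff_ne_zero.2 ((Valuation.ne_zero_iff v).2 h0))] at h3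
        exact absurd hc (not_lt.2 h3)
      rw [sub_eq_zero.1 h0]
      exact Subalgebra.algebraMap_mem _ c
    refine ⟨⊥, Subalgebra.fg_bot, fun a _ => hn a, fun z _ => hall z, ?_,
      Algebra.Smooth.of_equiv (Algebra.botEquiv k F).symm⟩
    exact IsFractionRing.of_field _ _ fun z => ⟨⟨z, hall z⟩, 1, by simp⟩

end glue

end Pool.Agent.MP_19ffc6_ag.LU3

end MrgPart0

-- ======== part 1: formerly Pool.Agent.MP_19ffc6_ag.LU3.Lat
section MrgPart1

/-! PROJECT LU3: Laurent monomials and positive bases of value lattices. -/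

namespace Pool.Agent.MP_19ffc6_ag.LU3

open Pool.Agent.MP_19ffc6_ag.LU

namespace LatM

theorem coord_eq {r : Type*} [Fintype r] {b : r → ℝ} (hb : LinearIndependent ℤ b) {m n : r → ℤ}
    (h : ∑ i, (m i : ℝ) * b i = ∑ i, (n i : ℝ) * b i) : m = n := by
  have := Fintype.linearIndependent_iff.1 hb (m - n) (by
    simp only [Pi.sub_apply, zsmul_eq_mul, Int.cast_sub, sub_mul, Finset.sum_sub_distrib, h,
      sub_self])
  funext i
  exact sub_eq_zero.1 (this i)

theorem mem_closure_iff {r : Type*} [Fintype r] {b : r → ℝ} {t : ℝ} :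
    t ∈ AddSubgroup.closure (Set.range b) ↔ ∃ m : r → ℤ, t = ∑ i, (m i : ℝ) * b i := by
  rw [← Submodule.span_int_eq_addSubgroupClosure, Submodule.mem_toAddSubgroup,
    Submodule.mem_span_range_iff_exists_fun]
  simp only [zsmul_eq_mul, eq_comm]

/-- Perron's lemma with all coordinates of positive elements positive. -/
theorem perron1 (Λ : AddSubgroup ℝ) (hΛ : Λ.FG) (T : Finset ℝ) (hT : ∀ t ∈ T, t ∈ Λ ∧ 0 ≤ t) :
    ∃ (r : ℕ) (b : Fin r → ℝ), (∀ i, 0 < b i) ∧ LinearIndependent ℤ b ∧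
      AddSubgroup.closure (Set.range b) = Λ ∧
      ∀ t ∈ T, ∃ m : Fin r → ℕ, t = ∑ i, m i * b i ∧ (0 < t → ∀ i, 1 ≤ m i) := by
  classical
  obtain ⟨r, b, hb0, -, hbΛ, hbT⟩ := perron Λ hΛ T hT
  have hbm : ∀ i, b i ∈ Λ := fun i => hbΛ ▸ AddSubgroup.subset_closure ⟨i, rfl⟩
  obtain ⟨N, hN⟩ : ∃ N : ℕ, ∀ p : Fin r × Fin r, b p.2 / b p.1 ≤ N := by
    obtain ⟨x, hx⟩ := (Set.finite_range fun p : Fin r × Fin r => b p.2 / b p.1).bddAbove
    obtain ⟨N, hN⟩ := exists_nat_ge x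
    exact ⟨N, fun p => (hx ⟨p, rfl⟩).trans hN⟩
  obtain ⟨r', b', hb0', hli, hbΛ', hbT'⟩ := perron Λ hΛ (Finset.univ.image b ∪
    Finset.univ.image fun p : Fin r × Fin r => N * b p.1 - b p.2) (by
      intro t ht
      rcases Finset.mem_union.1 ht with ht | ht
      · obtain ⟨i, -, rfl⟩ := Finset.mem_image.1 ht
        exact ⟨hbm i, (hb0 i).le⟩
      · obtain ⟨p, -, rfl⟩ := Finset.mem_image.1 ht
        exact ⟨Λ.sub_mem (natCast_mul_mem (hbm _) N) (hbm _),
          sub_nonneg.2 ((div_le_iff₀ (hb0 _)).1 (hN p))⟩)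
  choose n hn using fun i => hbT' (b i)
    (Finset.mem_union_left _ (Finset.mem_image_of_mem b (Finset.mem_univ i)))
  have h1 : ∀ i j l, n j l ≤ N * n i l := by
    intro i j l
    obtain ⟨n', hn'⟩ := hbT' _ (Finset.mem_union_right _
      (Finset.mem_image_of_mem _ (Finset.mem_univ (i, j))))
    have := congrFun (coord_eq hli (m := fun l => N * n i l - n j l) (n := fun l => n' l) (by
      push_cast
      rw [← hn', hn i, hn j]
      simp only [sub_mul, Finset.sum_sub_distrib, Finset.mul_sum, mul_assoc])) l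
    zify
    omega
  have h2 : ∀ l, ∃ j, n j l ≠ 0 := by
    intro l
    have : b' l ∈ AddSubgroup.closure (Set.range b) := by
      rw [hbΛ, ← hbΛ']; exact AddSubgroup.subset_closure ⟨l, rfl⟩
    obtain ⟨c, hc⟩ := mem_closure_iff.1 this
    have := congrFun (coord_eq hli (m := Pi.single l 1) (n := fun l => ∑ j, c j * n j l) (by
      push_cast
      simp only [Finset.sum_mul, mul_assoc]
      rw [Finset.sum_comm]
      simp only [← Finset.mul_sum, ← hn, ← hc]
      simp [Pi.single_apply])) l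
    by_contra h
    push Not at h
    simp [h] at this
  have h3 : ∀ i l, 1 ≤ n i l := by
    intro i l
    obtain ⟨j, hj⟩ := h2 l
    have := h1 i j l
    by_contra h
    have h0 : n i l = 0 := by omega
    rw [h0] at this
    omega
  refine ⟨r', b', hb0', hli, hbΛ', fun t ht => ?_⟩
  obtain ⟨m, hm⟩ := hbT t ht
  refine ⟨fun l => ∑ i, m i * n i l, ?_, fun h0 l => ?_⟩
  · push_cast
    simp only [Finset.sum_mul, mul_assoc]
    rw [Finset.sum_comm]
    simp only [← Finset.mul_sum, ← hn, ← hm]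
  · obtain ⟨i, hi⟩ : ∃ i, m i ≠ 0 := by
      by_contra h
      push Not at h
      simp [h] at hm
      exact h0.ne' hm
    exact le_trans (Nat.mul_pos (Nat.pos_of_ne_zero hi) (h3 i l))
      (Finset.single_le_sum (f := fun i => m i * n i l) (fun _ _ => Nat.zero_le _)
        (Finset.mem_univ i))

theorem card_eq {α β : Type*} [Fintype α] [Fintype β] {b : α → ℝ} {c : β → ℝ}
    (hb : LinearIndependent ℤ b) (hc : LinearIndependent ℤ c)
    (h : Submodule.span ℚ (Set.range b) = Submodule.span ℚ (Set.range c)) :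
    Fintype.card α = Fintype.card β := by
  rw [← finrank_span_eq_card ((LinearIndependent.iff_fractionRing ℤ ℚ).1 hb), h,
    finrank_span_eq_card ((LinearIndependent.iff_fractionRing ℤ ℚ).1 hc)]

theorem span_eq_of_closure_eq {S T : Set ℝ} (h : AddSubgroup.closure S = AddSubgroup.closure T) :
    Submodule.span ℚ S = Submodule.span ℚ T := by
  have key : ∀ {S T : Set ℝ}, AddSubgroup.closure S ≤ AddSubgroup.closure T →
      Submodule.span ℚ S ≤ Submodule.span ℚ T := fun {S T} h =>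
    Submodule.span_le.2 fun x hx =>
      (AddSubgroup.closure_le (Submodule.span ℚ T).toAddSubgroup).2 Submodule.subset_span
        (h (AddSubgroup.subset_closure hx))
  exact le_antisymm (key h.le) (key h.ge)

variable {Ω : Type*} [NontriviallyNormedField Ω] {κ : Type*} [Fintype κ]

/-- A Laurent monomial. -/
noncomputable def mon (g : κ → Ω) (a : κ → ℤ) : Ω := ∏ i, g i ^ a i

variable {g : κ → Ω}

theorem mon_ne (hg : ∀ i, g i ≠ 0) (a : κ → ℤ) : mon g a ≠ 0 :=
  Finset.prod_ne_zero_iff.2 fun i _ => zpow_ne_zero _ (hg i)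

theorem mon_zero : mon g 0 = 1 := by simp [mon]

theorem mon_add (hg : ∀ i, g i ≠ 0) (a b : κ → ℤ) : mon g (a + b) = mon g a * mon g b := by
  simp only [mon, Pi.add_apply, zpow_add₀ (hg _), Finset.prod_mul_distrib]

theorem mon_neg (a : κ → ℤ) : mon g (-a) = (mon g a)⁻¹ := by
  simp only [mon, Pi.neg_apply, zpow_neg, Finset.prod_inv_distrib]

theorem mon_smul (n : ℤ) (a : κ → ℤ) : mon g (n • a) = mon g a ^ n := by
  simp only [mon, Pi.smul_apply, smul_eq_mul, mul_comm n, zpow_mul, Finset.prod_zpow]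

theorem mon_sum (hg : ∀ i, g i ≠ 0) {α : Type*} (s : Finset α) (a : α → κ → ℤ) :
    mon g (∑ j ∈ s, a j) = ∏ j ∈ s, mon g (a j) := by
  classical
  induction s using Finset.induction_on with
  | empty => simp [mon_zero]
  | insert j s hj ih => rw [Finset.sum_insert hj, Finset.prod_insert hj, mon_add hg, ih]

theorem mon_single [DecidableEq κ] (i : κ) : mon g (Pi.single i 1) = g i := by
  rw [mon, Finset.prod_eq_single i (fun j _ hj => by simp [hj]) (by simp)]
  simp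

theorem mon_mon (hg : ∀ i, g i ≠ 0) {α : Type*} [Fintype α] (m : α → κ → ℤ) (n : α → ℤ) :
    mon (fun j => mon g (m j)) n = mon g (∑ j, n j • m j) := by
  rw [mon_sum hg]
  simp only [mon_smul]
  rfl

theorem mon_nat (n : κ → ℕ) : mon g (fun i => n i) = ∏ i, g i ^ n i := by simp [mon]

theorem nu_mon (hg : ∀ i, g i ≠ 0) (a : κ → ℤ) : nu (mon g a) = ∑ i, (a i : ℝ) * nu (g i) := by
  simp only [nu, mon, norm_prod, norm_zpow]
  rw [Real.log_prod fun i _ => zpow_ne_zero _ (norm_ne_zero_iff.2 (hg i))]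
  simp only [Real.log_zpow, mul_neg, Finset.sum_neg_distrib]

theorem eq_zero_of_norm_mon (hg : ∀ i, g i ≠ 0) (hli : LinearIndependent ℤ fun i => nu (g i))
    {a : κ → ℤ} (h : ‖mon g a‖ = 1) : a = 0 :=
  coord_eq hli (by rw [← nu_mon hg, (nu_eq_zero_iff (mon_ne hg a)).2 h]; simp)

theorem mon_mem {σ : Type*} [SetLike σ Ω] [SubmonoidClass σ Ω] {S : σ} (h1 : ∀ i, g i ∈ S)
    (h2 : ∀ i, (g i)⁻¹ ∈ S) (a : κ → ℤ) : mon g a ∈ S := by
  refine prod_mem fun i _ => ?_
  obtain ⟨n, hn | hn⟩ := (a i).eq_nat_or_neg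
  · rw [hn, zpow_natCast]; exact pow_mem (h1 i) n
  · rw [hn, zpow_neg, zpow_natCast, ← inv_pow]; exact pow_mem (h2 i) n

/-- A positive basis of the lattice of values of the monomials in `g`, lifted to monomials. -/
theorem lat (hg : ∀ i, g i ≠ 0) {α : Type*} [Fintype α] (c : α → ℝ) (hc : LinearIndependent ℤ c)
    (hspan : Submodule.span ℚ (Set.range c) = Submodule.span ℚ (Set.range fun i => nu (g i)))
    (T : Finset (κ → ℤ)) (hT : ∀ a ∈ T, ‖mon g a‖ ≤ 1) :
    ∃ m : α → κ → ℤ, (∀ j, ‖mon g (m j)‖ < 1) ∧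
      LinearIndependent ℤ (fun j => nu (mon g (m j))) ∧
      (∀ a, ∃ (n : α → ℤ) (a' : κ → ℤ), ‖mon g a'‖ = 1 ∧
        mon g a = mon (fun j => mon g (m j)) n * mon g a') ∧
      ∀ a ∈ T, ∃ (n : α → ℕ) (a' : κ → ℤ), ‖mon g a'‖ = 1 ∧
        mon g a = (∏ j, mon g (m j) ^ n j) * mon g a' ∧ (‖mon g a‖ < 1 → ∀ j, 1 ≤ n j) := by
  classical
  obtain ⟨r, b, hb0, hli, hbΛ, hbT⟩ := perron1 (AddSubgroup.closure (Set.range fun i => nu (g i)))
    ((AddSubgroup.fg_iff _).2 ⟨_, rfl, Set.finite_range _⟩) (T.image fun a => nu (mon g a)) (by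
      intro t ht
      obtain ⟨a, ha, rfl⟩ := Finset.mem_image.1 ht
      exact ⟨mem_closure_iff.2 ⟨a, nu_mon hg a⟩, (nu_nonneg_iff (mon_ne hg a)).2 (hT a ha)⟩)
  have hcard : Fintype.card α = Fintype.card (Fin r) :=
    card_eq hc hli (hspan.trans (span_eq_of_closure_eq hbΛ).symm)
  let e : α ≃ Fin r := Fintype.equivOfCardEq hcard
  choose m hm using fun j : α => mem_closure_iff.1
    (hbΛ ▸ AddSubgroup.subset_closure ⟨e j, rfl⟩ :
      b (e j) ∈ AddSubgroup.closure (Set.range fun i => nu (g i)))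
  have hm' : ∀ j, nu (mon g (m j)) = b (e j) := fun j => by rw [nu_mon hg, hm]
  have key : ∀ (a : κ → ℤ) (n : Fin r → ℤ), nu (mon g a) = ∑ i, (n i : ℝ) * b i →
      ∃ a' : κ → ℤ, ‖mon g a'‖ = 1 ∧
        mon g a = mon (fun j => mon g (m j)) (fun j => n (e j)) * mon g a' := by
    intro a n h
    have h0 : ∀ j, mon g (m j) ≠ 0 := fun j => mon_ne hg _
    have h1 : mon g a = mon (fun j => mon g (m j)) (fun j => n (e j)) *
        mon g (a - ∑ j, n (e j) • m j) := by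
      rw [mon_mon hg, ← mon_add hg, add_sub_cancel]
    refine ⟨_, (nu_eq_zero_iff (mon_ne hg _)).1 ?_, h1⟩
    have h2 := congrArg nu h1
    rw [nu_mul (mon_ne h0 _) (mon_ne hg _), nu_mon h0, h] at h2
    simp only [hm'] at h2
    rw [Equiv.sum_comp e fun i => (n i : ℝ) * b i] at h2
    linarith
  refine ⟨m, fun j => (nu_pos_iff (mon_ne hg _)).1 (hm' j ▸ hb0 _), ?_, fun a => ?_,
    fun a ha => ?_⟩
  · simp only [hm']
    exact hli.comp e e.injective
  · obtain ⟨n, hn⟩ := mem_closure_iff.1 (hbΛ.symm ▸ mem_closure_iff.2 ⟨a, nu_mon hg a⟩ :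
      nu (mon g a) ∈ AddSubgroup.closure (Set.range b))
    exact ⟨_, key a n hn⟩
  · obtain ⟨n, hn, hn1⟩ := hbT _ (Finset.mem_image_of_mem _ ha)
    obtain ⟨a', h1, h2⟩ := key a (fun i => n i) (by simpa using hn)
    refine ⟨fun j => n (e j), a', h1, ?_, fun h j => hn1 ((nu_pos_iff (mon_ne hg a)).2 h) _⟩
    rw [h2, ← mon_nat]

/-- A family over which an independent family of the same size is algebraic is independent. -/
theorem indep_of_alg {k : Type*} [Field k] [Algebra k Ω] {ι : Type*} [Finite ι] {x y : ι → Ω}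
    (hy : AlgebraicIndependent k y)
    (h : ∀ i, IsAlgebraic (IntermediateField.adjoin k (Set.range x)) (y i)) :
    AlgebraicIndependent k x := by
  let R := Algebra.adjoin k (Set.range x)
  let A : Subalgebra k Ω := (Subalgebra.algebraicClosure R Ω).restrictScalars k
  have hxA : ∀ i, x i ∈ A := fun i =>
    isAlgebraic_algebraMap (⟨x i, Algebra.subset_adjoin ⟨i, rfl⟩⟩ : R)
  have hyA : ∀ i, y i ∈ A := fun i => IntermediateField.isAlgebraic_adjoin_iff.1 (h i)
  let x' : ι → A := fun i => ⟨x i, hxA i⟩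
  let y' : ι → A := fun i => ⟨y i, hyA i⟩
  have hy' : AlgebraicIndependent k y' := AlgebraicIndependent.of_comp A.val hy
  have hmap : (Algebra.adjoin k (Set.range x')).map A.val = R := by
    rw [AlgHom.map_adjoin, ← Set.range_comp]; rfl
  have : Algebra.IsAlgebraic (Algebra.adjoin k (Set.range x')) A := by
    refine ⟨fun a => ?_⟩
    let ε : Algebra.adjoin k (Set.range x') ≃ₐ[k] R :=
      ((Algebra.adjoin k (Set.range x')).equivMapOfInjective A.val
        Subtype.val_injective).trans (Subalgebra.equivOfEq _ _ hmap)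
    exact (show IsAlgebraic R a.1 from a.2).of_ringHom_of_comp_eq (ε : _ →+* R) A.val.toRingHom
      ε.surjective Subtype.val_injective (RingHom.ext fun _ => rfl)
  exact (Algebra.IsAlgebraic.isTranscendenceBasis_of_lift_le_trdeg_of_finite k x'
    hy'.lift_cardinalMk_le_trdeg).1.map' (f := A.val) Subtype.val_injective

end LatM

end Pool.Agent.MP_19ffc6_ag.LU3

end MrgPart1

-- ======== part 2: formerly Pool.Agent.MP_19ffc6_ag.LU3.Move
section MrgPart2

/-! PROJECT LU3: monomial moves of charts (REF, STEP), in unbundled form. -/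

namespace Pool.Agent.MP_19ffc6_ag.LU3

open Pool.Agent.MP_19ffc6_ag.LU LatM Hr

namespace Mv

variable (k : Type*) {Ω : Type*} [Field k] [NontriviallyNormedField Ω] [Algebra k Ω]
  {ι ι' ι'' : Type*}

/-- Coordinates `ξ`, those in `I` having independent values. -/
structure IsChart (ξ : ι → Ω) (I : Finset ι) : Prop where
  ind : AlgebraicIndependent k ξ
  small : ∀ i, ‖ξ i‖ < 1
  li : LinearIndependent ℤ fun i : I => nu (ξ i)

/-- A monomial in the coordinates of `I` times a unit. -/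
def Gd (ξ : ι → Ω) (I : Finset ι) (b : Ω) : Prop :=
  ∃ a : I → ℤ, ∃ w ∈ H k ξ, ‖w‖ = 1 ∧ b = mon (fun i : I => ξ i) a * w

/-- A monomial with natural exponents times a unit. -/
def Nt (ξ : ι → Ω) (I : Finset ι) (b : Ω) : Prop :=
  ∃ a : I → ℕ, ∃ w ∈ H k ξ, ‖w‖ = 1 ∧ b = (∏ i : I, ξ i ^ a i) * w

/-- The second chart dominates the first one. -/
def LeX (ξ : ι → Ω) (I : Finset ι) (ξ' : ι' → Ω) (I' : Finset ι') : Prop :=
  (∀ i, ξ i ∈ H k ξ') ∧ ∀ i ∈ I, Gd k ξ' I' (ξ i)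

/-- The new coordinates are generated by the old ones and inverses of good elements. -/
def Gn (ξ : ι → Ω) (ξ' : ι' → Ω) (I' : Finset ι') : Prop :=
  ∀ C : Subalgebra k Ω, (∀ b ∈ C, Gd k ξ' I' b → b⁻¹ ∈ C) → (∀ i, ξ i ∈ C) → ∀ i, ξ' i ∈ C

/-- Closed subalgebras: stable under inverses of good elements and under limits. -/
def Cl (ξ : ι → Ω) (I : Finset ι) (C : Subalgebra k Ω) : Prop :=
  (∀ b ∈ C, Gd k ξ I b → b⁻¹ ∈ C) ∧
    ∀ a, (∃ κ : ℕ, ∀ N : ℕ, ∃ c ∈ C, (∏ i ∈ I, ξ i) ^ κ * (a - c) ∈ mm k ξ ^ N) → a ∈ C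

/-- Every closed subalgebra containing `Z` contains the coordinates. -/
def Sp (ξ : ι → Ω) (I : Finset ι) (Z : Set Ω) : Prop :=
  ∀ C : Subalgebra k Ω, Cl k ξ I C → Z ⊆ C → ∀ i, ξ i ∈ C

/-- The inductive statement. -/
def SG (K : IntermediateField k Ω) : Prop :=
  ∀ Z W : Finset Ω, IntermediateField.adjoin k (Z : Set Ω) = K → (∀ w ∈ W, w ∈ K ∧ w ≠ 0) →
    ∃ (ι : Type) (_ : Fintype ι) (ξ : ι → Ω) (I : Finset ι), IsChart k ξ I ∧
      (∀ i, ξ i ∈ hens K) ∧ (∀ w ∈ W, Gd k ξ I w) ∧ Sp k ξ I Z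

variable {k} {ξ : ι → Ω} {I : Finset ι} {ξ' : ι' → Ω} {I' : Finset ι'} {ξ'' : ι'' → Ω}
  {I'' : Finset ι''}

theorem mem_HX (i : ι) : ξ i ∈ H k ξ := xi_mem_H ξ i

theorem IsChart.ne (h : IsChart k ξ I) (i : ι) : ξ i ≠ 0 := by
  intro h0
  have := h.ind.transcendental i
  rw [h0] at this
  exact this isAlgebraic_zero

theorem Gd.unit {w : Ω} (hw : w ∈ H k ξ) (h1 : ‖w‖ = 1) : Gd k ξ I w :=
  ⟨0, w, hw, h1, by rw [mon_zero, one_mul]⟩

theorem Gd.one : Gd k ξ I 1 := Gd.unit (one_mem _) norm_one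

theorem Gd.coord {i : ι} (hi : i ∈ I) : Gd k ξ I (ξ i) := by
  classical
  exact ⟨Pi.single ⟨i, hi⟩ 1, 1, one_mem _, norm_one, by rw [mon_single, mul_one]⟩

theorem Nt.gd {b : Ω} (hb : Nt k ξ I b) : Gd k ξ I b := by
  obtain ⟨a, w, hw, h1, rfl⟩ := hb
  exact ⟨fun i => a i, w, hw, h1, by rw [mon_nat]⟩

theorem Nt.mem {b : Ω} (hb : Nt k ξ I b) : b ∈ H k ξ := by
  obtain ⟨a, w, hw, -, rfl⟩ := hb
  exact mul_mem (prod_mem fun i _ => pow_mem (mem_HX _) _) hw

theorem Gd.ne (h : IsChart k ξ I) {b : Ω} (hb : Gd k ξ I b) : b ≠ 0 := by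
  obtain ⟨a, w, -, h1, rfl⟩ := hb
  exact mul_ne_zero (mon_ne (fun i => h.ne _) a) (ne_zero_of_norm_eq_one h1)

theorem Gd.mul (h : IsChart k ξ I) {b c : Ω} (hb : Gd k ξ I b) (hc : Gd k ξ I c) :
    Gd k ξ I (b * c) := by
  obtain ⟨a, w, hw, h1, rfl⟩ := hb
  obtain ⟨a', w', hw', h1', rfl⟩ := hc
  exact ⟨a + a', w * w', mul_mem hw hw', by rw [norm_mul, h1, h1', one_mul],
    by rw [mon_add fun i => h.ne _]; ring⟩

theorem Gd.inv {b : Ω} (hb : Gd k ξ I b) : Gd k ξ I b⁻¹ := by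
  obtain ⟨a, w, hw, h1, rfl⟩ := hb
  exact ⟨-a, w⁻¹, inv_mem_HH hw h1, by rw [norm_inv, h1, inv_one], by rw [mon_neg, mul_inv]⟩

theorem Gd.div (h : IsChart k ξ I) {b c : Ω} (hb : Gd k ξ I b) (hc : Gd k ξ I c) :
    Gd k ξ I (b / c) := by
  rw [div_eq_mul_inv]; exact hb.mul h hc.inv

/-- The good elements form a submonoid. -/
def gdM (h : IsChart k ξ I) : Submonoid Ω where
  carrier := {b | Gd k ξ I b}
  mul_mem' := Gd.mul h
  one_mem' := Gd.one

theorem Gd.mon (h : IsChart k ξ I) {κ : Type*} [Fintype κ] {g : κ → Ω}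
    (hg : ∀ j, Gd k ξ I (g j)) (a : κ → ℤ) : Gd k ξ I (mon g a) :=
  mon_mem (S := gdM h) hg (fun j => (hg j).inv) a

theorem Gd.pow (h : IsChart k ξ I) {b : Ω} (hb : Gd k ξ I b) (n : ℕ) : Gd k ξ I (b ^ n) :=
  pow_mem (S := gdM h) hb n

theorem Gd.prod (h : IsChart k ξ I) {α : Type*} {s : Finset α} {f : α → Ω}
    (hf : ∀ a ∈ s, Gd k ξ I (f a)) : Gd k ξ I (∏ a ∈ s, f a) :=
  prod_mem (S := gdM h) hf

theorem Gd.mem_of_norm (h : IsChart k ξ I) {b : Ω} (hb : Gd k ξ I b) (h1 : ‖b‖ = 1) :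
    b ∈ H k ξ := by
  obtain ⟨a, w, hw, h2, rfl⟩ := hb
  rw [norm_mul, h2, mul_one] at h1
  rw [eq_zero_of_norm_mon (fun i => h.ne _) h.li h1, mon_zero, one_mul]
  exact hw

/-- A power of the product of the monomial coordinates clears the denominator. -/
theorem Gd.clear (h : IsChart k ξ I) {b : Ω} (hb : Gd k ξ I b) :
    ∃ n : ℕ, (∏ i ∈ I, ξ i) ^ n * b ∈ H k ξ := by
  obtain ⟨a, w, hw, -, rfl⟩ := hb
  obtain ⟨N, hN⟩ := (Set.finite_range fun i => (-a i).toNat).bddAbove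
  refine ⟨N, ?_⟩
  have h1 : (∏ i ∈ I, ξ i) ^ N = LatM.mon (fun i : I => ξ i) fun _ => N := by
    rw [mon_nat, Finset.prod_pow, Finset.prod_coe_sort I ξ]
  have h2 : ((fun _ => (N : ℤ)) + a) = fun i => ((N + a i).toNat : ℤ) := by
    funext i
    have := hN ⟨i, rfl⟩
    simp only [Pi.add_apply] at this ⊢
    omega
  rw [h1, ← mul_assoc, ← mon_add fun i => h.ne _, h2, mon_nat]
  exact mul_mem (prod_mem fun i _ => pow_mem (mem_HX _) _) hw

theorem LeX.refl : LeX k ξ I ξ I := ⟨mem_HX, fun _ => Gd.coord⟩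

theorem Gn.refl : Gn k ξ ξ I := fun _ _ h => h

theorem Gn.sp (h : Gn k ξ ξ' I') : Sp k ξ' I' (Set.range ξ) :=
  fun C hC hZ => h C hC.1 fun i => hZ ⟨i, rfl⟩

theorem Sp.mono {Z Z' : Set Ω} (h : Sp k ξ I Z) (hZ : Z ⊆ Z') : Sp k ξ I Z' :=
  fun C hC h' => h C hC (hZ.trans h')

theorem pi_mem_H : ∏ i ∈ I, ξ i ∈ H k ξ := prod_mem fun i _ => mem_HX i

theorem Gd.pi (h : IsChart k ξ I) : Gd k ξ I (∏ i ∈ I, ξ i) := Gd.prod h fun _ => Gd.coord

theorem Cl.lim0 {C : Subalgebra k Ω} (hC : Cl k ξ I C) {a : Ω}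
    (h : ∀ N : ℕ, ∃ c ∈ C, a - c ∈ mm k ξ ^ N) : a ∈ C :=
  hC.2 a ⟨0, by simpa only [pow_zero, one_mul] using h⟩

/-- Quotients with a good denominator. -/
theorem Cl.div {C : Subalgebra k Ω} (hC : Cl k ξ I C) {a b : Ω} (ha : a ∈ C) (hb : b ∈ C)
    (hg : Gd k ξ I b) : a / b ∈ C := by
  rw [div_eq_mul_inv]; exact mul_mem ha (hC.1 b hb hg)

/-- SIMPLE: Newton approximation of a root with a good derivative. -/
theorem Cl.simple {C : Subalgebra k Ω} (hC : Cl k ξ I C) (m : Polynomial Ω)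
    (hm : ∀ i, m.coeff i ∈ C) {Y θ : Ω} (hY : Y ∈ C) (h0 : m.eval θ = 0)
    (hne : m.derivative.eval Y ≠ 0) (hd : Gd k ξ I (m.derivative.eval Y))
    {κ : ℕ} (hκ : (∏ i ∈ I, ξ i) ^ κ * (θ - Y) ∈ H k ξ)
    (hl : ∀ l : ℕ, (Polynomial.hasseDeriv (l + 2) m).eval Y * (θ - Y) ^ (l + 1) /
      m.derivative.eval Y ∈ mm k ξ) : θ ∈ C := by
  have hdC : m.derivative.eval Y ∈ C := Desc.eval_mem C _ (fun i => by
    rw [Polynomial.coeff_derivative]
    exact mul_mem (hm _) (add_mem (natCast_mem C i) (one_mem C))) hY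
  have hev : ∀ x, m.eval (Y + x) = m.eval Y + m.derivative.eval Y * x +
      ∑ l ∈ Finset.range m.natDegree, (Polynomial.hasseDeriv (l + 2) m).eval Y * x ^ (l + 2) := by
    intro x
    have h1 : (Polynomial.taylor Y m).natDegree < m.natDegree + 1 + 1 := by
      rw [Polynomial.natDegree_taylor]; omega
    rw [add_comm Y x, ← Polynomial.taylor_eval, Polynomial.eval_eq_sum_range' h1,
      Finset.sum_range_succ', Finset.sum_range_succ']
    simp only [Polynomial.taylor_coeff, Polynomial.hasseDeriv_zero', zero_add,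
      Polynomial.hasseDeriv_one', pow_zero, pow_one, mul_one]
    ring
  have key : ∀ N : ℕ, ∃ V ∈ H k ξ, Y + (θ - Y) * V ∈ C ∧ 1 - V ∈ mm k ξ ^ N := by
    intro N
    induction N with
    | zero => exact ⟨0, zero_mem _, by simpa using hY, mem_pow_zero.2 (by simp)⟩
    | succ N ih =>
      obtain ⟨V, hV, h1, h2⟩ := ih
      have h3 : ∑ l ∈ Finset.range m.natDegree, (V ^ (l + 2) - 1) *
          ((Polynomial.hasseDeriv (l + 2) m).eval Y * (θ - Y) ^ (l + 1) /
            m.derivative.eval Y) ∈ mm k ξ ^ (N + 1) := by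
        refine Submodule.sum_mem _ fun l _ => mul_mem_pow_succ ?_ (hl l)
        rw [← geom_sum_mul, ← neg_sub 1 V, mul_neg]
        exact neg_mem (mul_mem_sub (sum_mem fun i _ => pow_mem hV i) h2)
      refine ⟨1 - _, sub_mem (one_mem _) (mem_H_of_mem_pow h3), ?_, by rwa [sub_sub_cancel]⟩
      have h4 := sub_mem h1 (hC.div (Desc.eval_mem C m hm h1) hdC hd)
      have h5 := hev (θ - Y)
      rw [add_sub_cancel, h0] at h5
      have h6 : ∑ l ∈ Finset.range m.natDegree, (V ^ (l + 2) - 1) *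
          ((Polynomial.hasseDeriv (l + 2) m).eval Y * (θ - Y) ^ (l + 1) / m.derivative.eval Y) *
            ((θ - Y) * m.derivative.eval Y) =
          ∑ l ∈ Finset.range m.natDegree,
            (Polynomial.hasseDeriv (l + 2) m).eval Y * ((θ - Y) * V) ^ (l + 2) -
          ∑ l ∈ Finset.range m.natDegree,
            (Polynomial.hasseDeriv (l + 2) m).eval Y * (θ - Y) ^ (l + 2) := by
        rw [← Finset.sum_sub_distrib]
        refine Finset.sum_congr rfl fun l _ => ?_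
        rw [mul_assoc, mul_comm (θ - Y) (m.derivative.eval Y), ← mul_assoc _ (m.derivative.eval Y),
          div_mul_cancel₀ _ hne, mul_pow]
        ring
      rw [← Finset.sum_mul] at h6
      refine (congrArg (· ∈ C) ?_).mp h4
      rw [hev, sub_eq_iff_eq_add, ← sub_eq_iff_eq_add', eq_div_iff hne]
      linear_combination h6 + h5
  refine hC.2 θ ⟨κ, fun N => ?_⟩
  obtain ⟨V, -, h1, h2⟩ := key N
  refine ⟨_, h1, ?_⟩
  have : θ - (Y + (θ - Y) * V) = (θ - Y) * (1 - V) := by ring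
  rw [this, ← mul_assoc]
  exact mul_mem_sub hκ h2

theorem exists_den {Z : Set Ω} {e : Ω} (he : e ∈ IntermediateField.adjoin k Z) :
    ∃ g ∈ Algebra.adjoin k Z, ∃ h ∈ Algebra.adjoin k Z, h ≠ 0 ∧ e = g / h := by
  obtain ⟨g, hg, h, hh, e⟩ := IntermediateField.mem_adjoin_iff_div.1 he
  by_cases h0 : h = 0
  · exact ⟨0, zero_mem _, 1, one_mem _, one_ne_zero, by rw [e, h0, div_zero, zero_div]⟩
  · exact ⟨g, hg, h, hh, h0, e⟩

/-- The denominator trick. -/
theorem sg_of {K : IntermediateField k Ω} (Z1 : Finset Ω) (hZ1 : ∀ z ∈ Z1, z ∈ K)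
    (h : ∀ W : Finset Ω, (∀ w ∈ W, w ∈ K ∧ w ≠ 0) →
      ∃ (ι : Type) (_ : Fintype ι) (ξ : ι → Ω) (I : Finset ι), IsChart k ξ I ∧
        (∀ i, ξ i ∈ hens K) ∧ (∀ w ∈ W, Gd k ξ I w) ∧ Sp k ξ I (Z1 ∪ W)) : SG k K := by
  classical
  intro Z W hZ hW
  have h1 : ∀ e ∈ Z1 ∪ W, e ∈ IntermediateField.adjoin k (Z : Set Ω) := fun e he => by
    rw [hZ]
    exact (Finset.mem_union.1 he).elim (hZ1 e) fun h => (hW e h).1
  choose! g hg d hd hd0 e using fun e he => exists_den (h1 e he)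
  obtain ⟨ι, _, ξ, I, h2, h3, h4, h5⟩ := h (W ∪ (Z1 ∪ W).image d) (by
    intro w hw
    rcases Finset.mem_union.1 hw with hw | hw
    · exact hW w hw
    · obtain ⟨x, hx, rfl⟩ := Finset.mem_image.1 hw
      exact ⟨hZ ▸ IntermediateField.algebra_adjoin_le_adjoin k _ (hd x hx), hd0 x hx⟩)
  refine ⟨ι, inferInstance, ξ, I, h2, h3, fun w hw => h4 w (Finset.mem_union_left _ hw),
    fun C hC hZC => h5 C hC ?_⟩
  have h6 : Algebra.adjoin k (Z : Set Ω) ≤ C := Algebra.adjoin_le hZC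
  have h7 : ∀ x ∈ Z1 ∪ W, x ∈ C := fun x hx => by
    rw [e x hx]
    exact hC.div (h6 (hg x hx)) (h6 (hd x hx))
      (h4 _ (Finset.mem_union_right _ (Finset.mem_image_of_mem d hx)))
  rintro x (hx | hx)
  · exact h7 x (Finset.mem_union_left _ hx)
  · rcases Finset.mem_union.1 hx with hx | hx
    · exact h7 x (Finset.mem_union_right _ hx)
    · obtain ⟨y, hy, rfl⟩ := Finset.mem_image.1 hx
      exact h6 (hd y hy)

variable [IsUltrametricDist Ω] [Ctx k Ω]

theorem IsChart.base (h : IsChart k ξ I) :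
    Base (Algebra.adjoin k (Set.range ξ)) (IntermediateField.adjoin k (Set.range ξ)) :=
  base_poly h.ind fun i => (h.small i).le

theorem IsChart.norm_le (h : IsChart k ξ I) {a : Ω} (ha : a ∈ H k ξ) : ‖a‖ ≤ 1 :=
  norm_HH h.base.norm ha

/-- CLH: a closed subalgebra containing the coordinates contains the henselization. -/
theorem Cl.H_le (h : IsChart k ξ I) {C : Subalgebra k Ω} (hC : Cl k ξ I C) (hξ : ∀ i, ξ i ∈ C) :
    H k ξ ≤ C := fun a ha => hC.lim0 fun N => by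
  obtain ⟨f, hf⟩ := jet1 h.small N ha
  exact ⟨_, Algebra.adjoin_le (Set.range_subset_iff.2 hξ) (aeval_mem_R ξ f), hf⟩

/-- A closed subalgebra containing the coordinates contains all good elements. -/
theorem Cl.gd (h : IsChart k ξ I) {C : Subalgebra k Ω} (hC : Cl k ξ I C) (hξ : ∀ i, ξ i ∈ C)
    {b : Ω} (hb : Gd k ξ I b) : b ∈ C := by
  obtain ⟨a, w, hw, -, rfl⟩ := hb
  exact mul_mem (mon_mem (fun i : I => hξ i) (fun i => hC.1 _ (hξ i) (Gd.coord i.2)) a)
    (hC.H_le h hξ hw)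

/-- CLHENS: a closed subalgebra is henselian inside `H`. -/
theorem Cl.hens (h : IsChart k ξ I) {C : Subalgebra k Ω} (hC : Cl k ξ I C) (P : Polynomial Ω)
    (hPC : ∀ i, P.coeff i ∈ C) (hPH : ∀ i, P.coeff i ∈ H k ξ) {η : Ω} (hη : η ∈ H k ξ)
    (h0 : P.eval η = 0) (h1 : ‖P.derivative.eval η‖ = 1) : η ∈ C := by
  have hd : P.derivative.eval η ∈ H k ξ := Desc.eval_mem _ _ (fun i => by
    rw [Polynomial.coeff_derivative]
    exact mul_mem (hPH _) (add_mem (natCast_mem _ i) (one_mem _))) hη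
  obtain ⟨c, hc⟩ := exists_const h.small hd
  have hc0 : algebraMap k Ω c ≠ 0 := by
    intro e
    rw [e, sub_zero] at hc
    exact (norm_lt_of_mem_mm h.small hc).ne h1
  have key : ∀ N : ℕ, ∃ x ∈ C, η - x ∈ mm k ξ ^ (N + 1) := by
    intro N
    induction N with
    | zero =>
      obtain ⟨c0, h2⟩ := exists_const h.small hη
      exact ⟨_, C.algebraMap_mem c0, by rwa [zero_add, pow_one]⟩
    | succ N ih =>
      obtain ⟨x, hx, h2⟩ := ih
      have h3 := mem_H_of_mem_pow h2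
      obtain ⟨κ, hκ, e⟩ := Desc.taylor (H k ξ) P hPH hη (neg_mem h3)
      rw [neg_sub, add_sub_cancel, h0, zero_add] at e
      refine ⟨x - P.eval x * algebraMap k Ω c⁻¹, sub_mem hx (mul_mem (Desc.eval_mem C P hPC hx)
        (C.algebraMap_mem _)), ?_⟩
      have h4 : η - (x - P.eval x * algebraMap k Ω c⁻¹) = algebraMap k Ω c⁻¹ * ((η - x) *
          (κ * (η - x) - (P.derivative.eval η - algebraMap k Ω c))) := by
        rw [e, map_inv₀]
        field_simp
        ring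
      rw [h4]
      refine mul_mem_sub (Subalgebra.algebraMap_mem _ _) (mul_mem_pow_succ h2 (sub_mem
        (mul_mem_sub hκ ?_) hc))
      rw [← pow_one (mm k ξ)]
      exact pow_anti (by omega) h2
  refine hC.lim0 fun N => ?_
  obtain ⟨x, hx, h2⟩ := key N
  exact ⟨x, hx, pow_anti (by omega) h2⟩

variable [IsAlgClosed Ω] [Infinite k]

theorem HX_le (h : IsChart k ξ' I') (hle : ∀ i, ξ i ∈ H k ξ') : H k ξ ≤ H k ξ' :=
  H_le_H h.ind h.small hle

theorem Gd.mono (h : IsChart k ξ' I') (hle : LeX k ξ I ξ' I') {b : Ω} (hb : Gd k ξ I b) :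
    Gd k ξ' I' b := by
  obtain ⟨a, w, hw, h1, rfl⟩ := hb
  exact (Gd.mon h (fun i : I => hle.2 i i.2) a).mul h (Gd.unit (HX_le h hle.1 hw) h1)

theorem LeX.trans (h : IsChart k ξ'' I'') (h1 : LeX k ξ I ξ' I') (h2 : LeX k ξ' I' ξ'' I'') :
    LeX k ξ I ξ'' I'' :=
  ⟨fun i => HX_le h h2.1 (h1.1 i), fun i hi => (h1.2 i hi).mono h h2⟩

theorem Gn.trans (h : IsChart k ξ'' I'') (hle : LeX k ξ' I' ξ'' I'') (h1 : Gn k ξ ξ' I')
    (h2 : Gn k ξ' ξ'' I'') : Gn k ξ ξ'' I'' :=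
  fun C hC hξ => h2 C hC (h1 C (fun b hb hg => hC b hb (hg.mono h hle)) hξ)

theorem LeX.pow (h : IsChart k ξ I) (h' : IsChart k ξ' I') (hle : LeX k ξ I ξ' I') {N : ℕ}
    {a : Ω} (ha : a ∈ mm k ξ ^ N) : a ∈ mm k ξ' ^ N :=
  pow_le_pow h'.ind h'.small hle.1 h.small ha

/-- LE: closed subalgebras for a later chart are closed. -/
theorem Cl.mono (h : IsChart k ξ I) (h' : IsChart k ξ' I') (hle : LeX k ξ I ξ' I')
    {C : Subalgebra k Ω} (hC : Cl k ξ' I' C) : Cl k ξ I C := by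
  refine ⟨fun b hb hg => hC.1 b hb (hg.mono h' hle), fun a ⟨κ, hκ⟩ => ?_⟩
  obtain ⟨n, hn⟩ := ((((Gd.pi h).pow h κ).mono h' hle).inv).clear h'
  refine hC.2 a ⟨n, fun N => ?_⟩
  obtain ⟨c, hc, h1⟩ := hκ N
  refine ⟨c, hc, ?_⟩
  have := mul_mem_sub hn (hle.pow h h' h1)
  rwa [mul_assoc, inv_mul_cancel_left₀ (((Gd.pi h).pow h κ).ne h)] at this

theorem Sp.trans (h : IsChart k ξ I) (h' : IsChart k ξ' I') (hle : LeX k ξ I ξ' I') {Z : Set Ω}
    (h1 : Sp k ξ I Z) (h2 : Sp k ξ' I' (Set.range ξ)) : Sp k ξ' I' Z :=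
  fun C hC hZ => h2 C hC (Set.range_subset_iff.2 (h1 C (hC.mono h h' hle) hZ))

theorem Sp.gn (h : IsChart k ξ I) (h' : IsChart k ξ' I') (hle : LeX k ξ I ξ' I') {Z : Set Ω}
    (h1 : Sp k ξ I Z) (h2 : Gn k ξ ξ' I') : Sp k ξ' I' Z := h1.trans h h' hle h2.sp

omit [IsUltrametricDist Ω] [Ctx k Ω] [IsAlgClosed Ω] [Infinite k] in
/-- The general monomial move. -/
theorem move [Finite ι] (hc : IsChart k ξ I) {κ : Type*} [Fintype κ] (g : κ → Ω)
    (hg : ∀ j, g j ≠ 0)
    (hspan : Submodule.span ℚ (Set.range fun i : I => nu (ξ i)) =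
      Submodule.span ℚ (Set.range fun j => nu (g j)))
    (t : ι → Ω) (ht : ∀ i ∉ I, ‖t i‖ < 1)
    (hU : ∀ a, ‖mon g a‖ = 1 → mon g a ∈ loc (Algebra.adjoin k (t '' {i | i ∉ I})))
    (hξ : ∀ i, (i ∉ I ∧ ξ i = t i) ∨ ∃ j, ξ i = g j) (T : Finset (κ → ℤ))
    (hT : ∀ a ∈ T, ‖mon g a‖ ≤ 1) :
    ∃ ξ' : ι → Ω, IsChart k ξ' I ∧ LeX k ξ I ξ' I ∧ (∀ i ∉ I, ξ' i = t i) ∧
      (∀ i ∈ I, ∃ a, ξ' i = mon g a) ∧ (∀ a, Gd k ξ' I (mon g a)) ∧
      (∀ a, mon g a ∈ IntermediateField.adjoin k (Set.range ξ')) ∧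
      ∀ a ∈ T, mon g a ∈ H k ξ' ∧
        (‖mon g a‖ < 1 → ∃ h ∈ H k ξ', mon g a = (∏ i ∈ I, ξ' i) * h) ∧
        Nt k ξ' I (mon g a) := by
  classical
  obtain ⟨m, h1, h2, h3, h4⟩ := lat hg _ hc.li hspan
    (T ∪ (Finset.univ.filter fun j => ‖g j‖ ≤ 1).image fun j => Pi.single j 1) (by
      intro a ha
      rcases Finset.mem_union.1 ha with ha | ha
      · exact hT a ha
      · obtain ⟨j, hj, rfl⟩ := Finset.mem_image.1 ha
        rw [mon_single]
        exact (Finset.mem_filter.1 hj).2)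
  let ξ' : ι → Ω := fun i => if h : i ∈ I then mon g (m ⟨i, h⟩) else t i
  have e1 : ∀ i : I, ξ' i = mon g (m i) := fun i => dif_pos i.2
  have e1' : (fun i : I => ξ' i) = fun i => mon g (m i) := funext e1
  have e2 : ∀ i ∉ I, ξ' i = t i := fun i hi => dif_neg hi
  have hsub : t '' {i | i ∉ I} ⊆ Set.range ξ' := by
    rintro _ ⟨i, hi, rfl⟩
    exact ⟨i, e2 i hi⟩
  have hH : ∀ a, ‖mon g a‖ = 1 → mon g a ∈ H k ξ' := fun a ha =>
    loc_le ((Algebra.adjoin_mono hsub).trans (le_HH _)) (fun _ => inv_mem_HH) (hU a ha)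
  have hF : ∀ a, mon g a ∈ IntermediateField.adjoin k (Set.range ξ') := by
    intro a
    obtain ⟨n, a', h5, h6⟩ := h3 a
    rw [h6, ← e1']
    have h7 : ∀ i : I, ξ' i ∈ IntermediateField.adjoin k (Set.range ξ') := fun i =>
      IntermediateField.subset_adjoin _ _ ⟨i, rfl⟩
    refine mul_mem (mon_mem h7 (fun i => inv_mem (h7 i)) n) ?_
    exact loc_le (B := (IntermediateField.adjoin k (Set.range ξ')).toSubalgebra)
      ((Algebra.adjoin_mono hsub).trans (IntermediateField.algebra_adjoin_le_adjoin k _))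
      (fun b hb _ => (IntermediateField.adjoin k (Set.range ξ')).inv_mem hb) (hU a' h5)
  have hG : ∀ a, Gd k ξ' I (mon g a) := by
    intro a
    obtain ⟨n, a', h5, h6⟩ := h3 a
    exact ⟨n, _, hH a' h5, h5, by rw [e1', h6]⟩
  have hP : ∀ a ∈ T ∪ (Finset.univ.filter fun j => ‖g j‖ ≤ 1).image fun j => Pi.single j 1,
      mon g a ∈ H k ξ' ∧ (‖mon g a‖ < 1 → ∃ h ∈ H k ξ', mon g a = (∏ i ∈ I, ξ' i) * h) ∧
        Nt k ξ' I (mon g a) := by
    intro a ha
    obtain ⟨n, a', h5, h6, h7⟩ := h4 a ha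
    simp only [← e1] at h6
    refine ⟨h6 ▸ mul_mem (prod_mem fun i _ => pow_mem (mem_HX _) _) (hH a' h5), fun h => ?_,
      n, _, hH a' h5, h5, h6⟩
    refine ⟨(∏ i : I, ξ' i ^ (n i - 1)) * mon g a',
      mul_mem (prod_mem fun i _ => pow_mem (mem_HX _) _) (hH a' h5), ?_⟩
    rw [← mul_assoc, ← Finset.prod_coe_sort I ξ', ← Finset.prod_mul_distrib]
    conv_lhs => rw [h6]
    congr 1
    refine Finset.prod_congr rfl fun i _ => ?_
    rw [← pow_succ', Nat.sub_add_cancel (h7 h i)]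
  refine ⟨ξ', ⟨indep_of_alg hc.ind fun i => ?_, fun i => ?_, ?_⟩, ⟨fun i => ?_, fun i hi => ?_⟩,
    e2, fun i hi => ⟨_, e1 ⟨i, hi⟩⟩, hG, hF, fun a ha => hP a (Finset.mem_union_left _ ha)⟩
  · refine isAlgebraic_algebraMap (⟨ξ i, ?_⟩ : IntermediateField.adjoin k (Set.range ξ'))
    rcases hξ i with ⟨hi, e⟩ | ⟨j, e⟩
    · exact IntermediateField.subset_adjoin _ _ ⟨i, (e2 i hi).trans e.symm⟩
    · rw [e, ← mon_single (g := g) j]; exact hF _
  · by_cases hi : i ∈ I
    · exact (e1 ⟨i, hi⟩).symm ▸ h1 _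
    · exact (e2 i hi).symm ▸ ht i hi
  · simpa only [e1] using h2
  · rcases hξ i with ⟨hi, e⟩ | ⟨j, e⟩
    · rw [e, ← e2 i hi]; exact mem_HX i
    · have := (hP _ (Finset.mem_union_right _ (Finset.mem_image_of_mem _
        (Finset.mem_filter.2 ⟨Finset.mem_univ j, e ▸ (hc.small i).le⟩)))).1
      rwa [mon_single, ← e] at this
  · rcases hξ i with ⟨hi', -⟩ | ⟨j, e⟩
    · exact absurd hi hi'
    · rw [e, ← mon_single (g := g) j]; exact hG _

/-- REF: good elements of norm at most one become integral. -/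
theorem ref [Finite ι] (hc : IsChart k ξ I) (W : Finset Ω)
    (hW : ∀ b ∈ W, Gd k ξ I b ∧ ‖b‖ ≤ 1) :
    ∃ ξ' : ι → Ω, IsChart k ξ' I ∧ LeX k ξ I ξ' I ∧ Gn k ξ ξ' I ∧ (∀ i ∉ I, ξ' i = ξ i) ∧
      (∀ i ∈ I, ∃ a, ξ' i = mon (fun i : I => ξ i) a) ∧
      IntermediateField.adjoin k (Set.range ξ') = IntermediateField.adjoin k (Set.range ξ) ∧
      ∀ b ∈ W, b ∈ H k ξ' ∧ (‖b‖ < 1 → ∃ h ∈ H k ξ', b = (∏ i ∈ I, ξ' i) * h) ∧
        Nt k ξ' I b := by
  classical
  choose! a w hw hw1 e using fun b hb => (hW b hb).1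
  have hn : ∀ b ∈ W, ‖mon (fun i : I => ξ i) (a b)‖ = ‖b‖ := fun b hb => by
    conv_rhs => rw [e b hb, norm_mul, hw1 b hb, mul_one]
  obtain ⟨ξ', h1, h2, h3, h4, h5, h6, h7⟩ := move hc (fun i : I => ξ i) (fun i => hc.ne _) rfl ξ
    (fun i _ => hc.small i) (fun a ha => by
      rw [eq_zero_of_norm_mon (fun i => hc.ne _) hc.li ha, mon_zero]; exact one_mem _)
    (fun i => by
      by_cases hi : i ∈ I
      exacts [Or.inr ⟨⟨i, hi⟩, rfl⟩, Or.inl ⟨hi, rfl⟩]) (W.image a) (by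
      intro c hc
      obtain ⟨b, hb, rfl⟩ := Finset.mem_image.1 hc
      exact (hn b hb).trans_le (hW b hb).2)
  refine ⟨ξ', h1, h2, fun C hC hξ i => ?_, h3, h4, le_antisymm ?_ ?_, fun b hb => ?_⟩
  · by_cases hi : i ∈ I
    · obtain ⟨c, hc⟩ := h4 i hi
      exact hc ▸ mon_mem (fun j : I => hξ j) (fun j => hC _ (hξ j) (h2.2 j j.2)) c
    · exact (h3 i hi).symm ▸ hξ i
  · refine IntermediateField.adjoin_le_iff.2 (Set.range_subset_iff.2 fun i => ?_)
    have h8 : ∀ i, ξ i ∈ IntermediateField.adjoin k (Set.range ξ) := fun i =>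
      IntermediateField.subset_adjoin _ _ ⟨i, rfl⟩
    by_cases hi : i ∈ I
    · obtain ⟨c, hc⟩ := h4 i hi
      exact hc ▸ mon_mem (fun j : I => h8 j) (fun j => inv_mem (h8 j)) c
    · exact (h3 i hi).symm ▸ h8 i
  · refine IntermediateField.adjoin_le_iff.2 (Set.range_subset_iff.2 fun i => ?_)
    by_cases hi : i ∈ I
    · have := h6 (Pi.single ⟨i, hi⟩ 1)
      rwa [mon_single] at this
    · exact IntermediateField.subset_adjoin _ _ ⟨i, h3 i hi⟩
  · obtain ⟨h8, h9, n, u, hu, hu1, e1⟩ := h7 _ (Finset.mem_image_of_mem a hb)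
    have h10 := HX_le h1 h2.1 (hw b hb)
    refine ⟨e b hb ▸ mul_mem h8 h10, fun h => ?_, n, u * w b, mul_mem hu h10,
      by rw [norm_mul, hu1, hw1 b hb, one_mul], by rw [← mul_assoc, ← e1, ← e b hb]⟩
    obtain ⟨h', hh, e'⟩ := h9 ((hn b hb).trans_lt h)
    exact ⟨h' * w b, mul_mem hh h10, by rw [← mul_assoc, ← e', ← e b hb]⟩

omit [IsUltrametricDist Ω] [Ctx k Ω] [IsAlgClosed Ω] [Infinite k] in
/-- One more coordinate. -/
theorem ext (hc : IsChart k ξ I) {t : Ω}
    (ht : Transcendental (Algebra.adjoin k (Set.range ξ)) t) (h1 : ‖t‖ < 1) :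
    IsChart k (fun o : Option ι => o.elim t ξ) (I.map Function.Embedding.some) ∧
      LeX k ξ I (fun o : Option ι => o.elim t ξ) (I.map Function.Embedding.some) := by
  refine ⟨⟨(hc.ind.option_iff_transcendental t).2 ht, ?_, ?_⟩, fun i => mem_HX (ξ := fun o : Option ι =>
    o.elim t ξ) (some i), fun i hi => Gd.coord (ξ := fun o : Option ι => o.elim t ξ)
      (Finset.mem_map_of_mem Function.Embedding.some hi)⟩
  · rintro (_ | i)
    exacts [h1, hc.small i]
  · let e : I ≃ (I.map Function.Embedding.some : Finset (Option ι)) :=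
      Equiv.ofBijective (fun i => ⟨some i, Finset.mem_map_of_mem Function.Embedding.some i.2⟩)
        ⟨fun i j h => Subtype.ext (Option.some_injective _ (congrArg Subtype.val h)), by
          rintro ⟨_, h⟩
          obtain ⟨i, hi, rfl⟩ := Finset.mem_map.1 h
          exact ⟨⟨i, hi⟩, rfl⟩⟩
    exact (linearIndependent_equiv e).1 hc.li

omit [IsUltrametricDist Ω] [Ctx k Ω] [IsAlgClosed Ω] [Infinite k] in
/-- A coordinate whose value is independent of the lattice joins the monomial coordinates. -/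
theorem insert_chart [DecidableEq ι] (hc : IsChart k ξ I) {j : ι} (hj : j ∉ I)
    (h : ∀ (d : ℤ) (a : I → ℤ), ‖ξ j ^ d * mon (fun i : I => ξ i) a‖ = 1 → d = 0) :
    IsChart k ξ (insert j I) ∧ LeX k ξ I ξ (insert j I) := by
  refine ⟨⟨hc.ind, hc.small, ?_⟩, mem_HX, fun i hi => Gd.coord (Finset.mem_insert_of_mem hi)⟩
  rw [Fintype.linearIndependent_iff]
  intro c hc0
  let c' : ι → ℤ := fun i => if h : i ∈ insert j I then c ⟨i, h⟩ else 0
  have e1 : ∀ i : (insert j I : Finset ι), c i = c' i := fun i => by simp only [c', dif_pos i.2]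
  simp only [e1] at hc0
  rw [Finset.sum_coe_sort (insert j I) fun i => c' i • nu (ξ i), Finset.sum_insert hj,
    ← Finset.sum_coe_sort I] at hc0
  have h0 : ∀ i : I, ξ i ≠ 0 := fun i => hc.ne _
  have h1 : c' j = 0 := by
    refine h _ (fun i => c' i) ((nu_eq_zero_iff
      (mul_ne_zero (zpow_ne_zero _ (hc.ne j)) (mon_ne h0 _))).1 ?_)
    rw [nu_mul (zpow_ne_zero _ (hc.ne j)) (mon_ne h0 _), nu_zpow, nu_mon h0]
    simpa only [zsmul_eq_mul] using hc0
  rw [h1, zero_smul, zero_add] at hc0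
  have h2 := Fintype.linearIndependent_iff.1 hc.li (fun i => c' i) hc0
  rintro ⟨i, hi⟩
  rw [e1]
  rcases Finset.mem_insert.1 hi with rfl | hi'
  · exact h1
  · exact h2 ⟨i, hi'⟩

omit [IsAlgClosed Ω] [Infinite k] in
/-- STEP for a coordinate whose value depends on the lattice. -/
theorem step_dep [Finite ι] (hc : IsChart k ξ I) {j : ι} (hj : j ∉ I) {d : ℤ} {a : I → ℤ}
    (hd : d ≠ 0) (h : ‖ξ j ^ d * mon (fun i : I => ξ i) a‖ = 1) :
    ∃ ξ' : ι → Ω, IsChart k ξ' I ∧ LeX k ξ I ξ' I ∧ Gn k ξ ξ' I ∧ Gd k ξ' I (ξ j) ∧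
      (∀ i ∉ I, i ≠ j → ξ' i = ξ i) ∧
      IntermediateField.adjoin k (Set.range ξ') = IntermediateField.adjoin k (Set.range ξ) := by
  classical
  let g : Option I → Ω := fun o => o.elim (ξ j) fun i => ξ i
  have h0 : ∀ i : I, ξ i ≠ 0 := fun i => hc.ne _
  have hg : ∀ o, g o ≠ 0 := by
    rintro (_ | i)
    exacts [hc.ne j, h0 i]
  have hm : ∀ b : Option I → ℤ, mon g b =
      ξ j ^ b none * mon (fun i : I => ξ i) fun i => b (some i) := fun b => by
    simp only [mon, Fintype.prod_option]; rfl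
  let D : AddSubgroup ℤ :=
    { carrier := {n | ∃ b : Option I → ℤ, ‖mon g b‖ = 1 ∧ b none = n}
      add_mem' := by
        rintro _ _ ⟨b, hb, rfl⟩ ⟨b', hb', rfl⟩
        exact ⟨b + b', by rw [mon_add hg, norm_mul, hb, hb', one_mul], rfl⟩
      zero_mem' := ⟨0, by rw [mon_zero, norm_one], rfl⟩
      neg_mem' := by
        rintro _ ⟨b, hb, rfl⟩
        exact ⟨-b, by rw [mon_neg, norm_inv, hb, inv_one], rfl⟩ }
  obtain ⟨d0, hd0⟩ := Int.subgroup_cyclic D
  obtain ⟨b0, hb0, hb0'⟩ : d0 ∈ D := hd0 ▸ AddSubgroup.subset_closure rfl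
  have hpow : ∀ b, ‖mon g b‖ = 1 → ∃ e : ℤ, mon g b = mon g b0 ^ e := by
    intro b hb
    have hD : b none ∈ D := ⟨b, hb, rfl⟩
    rw [hd0] at hD
    obtain ⟨e, he⟩ := AddSubgroup.mem_closure_singleton.1 hD
    have h1 : (b - e • b0) none = 0 := by rw [Pi.sub_apply, Pi.smul_apply, hb0', he, sub_self]
    have h2 : mon g b = mon g (b - e • b0) * mon g b0 ^ e := by
      rw [← mon_smul, ← mon_add hg, sub_add_cancel]
    have h3 := congrArg norm h2
    rw [hb, norm_mul, norm_zpow, hb0, one_zpow, mul_one, hm, h1, zpow_zero, one_mul] at h3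
    refine ⟨e, ?_⟩
    rw [h2, hm (b - e • b0), h1, eq_zero_of_norm_mon h0 hc.li h3.symm, mon_zero, zpow_zero,
      one_mul, one_mul]
  obtain ⟨c, hc1⟩ := Ctx.res (k := k) (mon g b0) hb0.le
  let t : ι → Ω := Function.update ξ j (mon g b0 - algebraMap k Ω c)
  have ht1 : t j = mon g b0 - algebraMap k Ω c := Function.update_self ..
  have ht2 : ∀ i, i ≠ j → t i = ξ i := fun i hi => Function.update_of_ne hi ..
  obtain ⟨ξ', h1, h2, h3, h4, h5, h6, -⟩ := move hc g hg (by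
      refine le_antisymm (Submodule.span_mono ?_) (Submodule.span_le.2 ?_)
      · rintro _ ⟨i, rfl⟩
        exact ⟨some i, rfl⟩
      · rintro _ ⟨_ | i, rfl⟩
        · have h7 := (nu_eq_zero_iff
            (mul_ne_zero (zpow_ne_zero _ (hc.ne j)) (mon_ne h0 _))).2 h
          rw [nu_mul (zpow_ne_zero _ (hc.ne j)) (mon_ne h0 _), nu_zpow, nu_mon h0] at h7
          have h8 : nu (ξ j) = ∑ i : I, (-(a i : ℚ) / d) • nu (ξ i) := by
            have hd' : (d : ℝ) ≠ 0 := by exact_mod_cast hd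
            apply mul_left_cancel₀ hd'
            rw [eq_neg_of_add_eq_zero_left h7, Finset.mul_sum, ← Finset.sum_neg_distrib]
            refine Finset.sum_congr rfl fun i _ => ?_
            rw [Rat.smul_def]
            push_cast
            field_simp
          change nu (ξ j) ∈ _
          rw [h8]
          exact Submodule.sum_mem _ fun i _ =>
            Submodule.smul_mem _ _ (Submodule.subset_span ⟨i, rfl⟩)
        · exact Submodule.subset_span ⟨i, rfl⟩) t
    (fun i _ => by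
      by_cases hi : i = j
      · rw [hi, ht1]; exact hc1
      · rw [ht2 i hi]; exact hc.small i)
    (fun b hb => by
      obtain ⟨e, he⟩ := hpow b hb
      have h7 : mon g b0 ∈ loc (Algebra.adjoin k (t '' {i | i ∉ I})) := by
        refine le_loc _ ?_
        rw [← sub_add_cancel (mon g b0) (algebraMap k Ω c), ← ht1]
        exact add_mem (Algebra.subset_adjoin ⟨j, hj, rfl⟩) (Subalgebra.algebraMap_mem _ c)
      rw [he]
      exact zpow_mem_of_inv_mem h7 (inv_mem_loc h7 hb0) e)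
    (fun i => by
      by_cases hi : i ∈ I
      · exact Or.inr ⟨some ⟨i, hi⟩, rfl⟩
      · by_cases hij : i = j
        · exact Or.inr ⟨none, by rw [hij]; rfl⟩
        · exact Or.inl ⟨hi, (ht2 i hij).symm⟩) ∅ (by simp)
  have hgd : ∀ o, Gd k ξ' I (g o) := fun o => by
    rw [← mon_single (g := g) o]; exact h5 _
  have key : ∀ C : Subalgebra k Ω, (∀ i, ξ i ∈ C) → (∀ o, (g o)⁻¹ ∈ C) → ∀ i, ξ' i ∈ C := by
    intro C hξ hinv i
    have hgC : ∀ o, g o ∈ C := by
      rintro (_ | i)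
      exacts [hξ j, hξ i]
    by_cases hi : i ∈ I
    · obtain ⟨b, hb⟩ := h4 i hi
      exact hb ▸ mon_mem hgC hinv b
    · rw [h3 i hi]
      by_cases hij : i = j
      · rw [hij, ht1]
        exact sub_mem (mon_mem hgC hinv b0) (C.algebraMap_mem c)
      · rw [ht2 i hij]; exact hξ i
  refine ⟨ξ', h1, h2, fun C hC hξ => key C hξ fun o => hC _ ?_ (hgd o), hgd none,
    fun i hi hij => (h3 i hi).trans (ht2 i hij), le_antisymm ?_ ?_⟩
  · rcases o with _ | i
    exacts [hξ j, hξ i]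
  · have h8 : ∀ i, ξ i ∈ IntermediateField.adjoin k (Set.range ξ) := fun i =>
      IntermediateField.subset_adjoin _ _ ⟨i, rfl⟩
    refine IntermediateField.adjoin_le_iff.2 (Set.range_subset_iff.2
      (key (IntermediateField.adjoin k (Set.range ξ)).toSubalgebra h8 ?_))
    rintro (_ | i)
    exacts [(IntermediateField.adjoin k (Set.range ξ)).inv_mem (h8 j),
      (IntermediateField.adjoin k (Set.range ξ)).inv_mem (h8 i)]
  · refine IntermediateField.adjoin_le_iff.2 (Set.range_subset_iff.2 fun i => ?_)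
    by_cases hi : i ∈ I
    · have := h6 (Pi.single (some ⟨i, hi⟩) 1)
      rwa [mon_single] at this
    · by_cases hij : i = j
      · have := h6 (Pi.single none 1)
        rw [mon_single] at this
        rw [hij]
        exact this
      · exact IntermediateField.subset_adjoin _ _ ⟨i, (h3 i hi).trans (ht2 i hij)⟩

omit [IsAlgClosed Ω] [Infinite k] in
/-- STEP: any coordinate can be made good. -/
theorem step [Finite ι] (hc : IsChart k ξ I) {j : ι} (hj : j ∉ I) :
    ∃ (ξ' : ι → Ω) (I' : Finset ι), IsChart k ξ' I' ∧ LeX k ξ I ξ' I' ∧ Gn k ξ ξ' I' ∧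
      Gd k ξ' I' (ξ j) ∧ (∀ i ∉ I, i ≠ j → ξ' i = ξ i ∧ i ∉ I') ∧ I ⊆ I' ∧
      IntermediateField.adjoin k (Set.range ξ') = IntermediateField.adjoin k (Set.range ξ) := by
  classical
  by_cases h : ∀ (d : ℤ) (a : I → ℤ), ‖ξ j ^ d * mon (fun i : I => ξ i) a‖ = 1 → d = 0
  · obtain ⟨h1, h2⟩ := insert_chart hc hj h
    exact ⟨ξ, insert j I, h1, h2, Gn.refl, Gd.coord (Finset.mem_insert_self j I),
      fun i hi hij => ⟨rfl, by simp [hi, hij]⟩, Finset.subset_insert j I, rfl⟩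
  · push Not at h
    obtain ⟨d, a, h1, h2⟩ := h
    obtain ⟨ξ', h3, h4, h5, h6, h7, h8⟩ := step_dep hc hj h2 h1
    exact ⟨ξ', I, h3, h4, h5, h6, fun i hi hij => ⟨h7 i hi hij, hi⟩, subset_rfl, h8⟩

/-- All coordinates can be made good. -/
theorem step_all [Finite ι] (hc : IsChart k ξ I) :
    ∃ (ξ' : ι → Ω) (I' : Finset ι), IsChart k ξ' I' ∧ LeX k ξ I ξ' I' ∧ Gn k ξ ξ' I' ∧
      (∀ i, Gd k ξ' I' (ξ i)) ∧
      IntermediateField.adjoin k (Set.range ξ') = IntermediateField.adjoin k (Set.range ξ) := by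
  classical
  have := Fintype.ofFinite ι
  have key : ∀ s : Finset ι, ∃ (ξ' : ι → Ω) (I' : Finset ι), IsChart k ξ' I' ∧
      LeX k ξ I ξ' I' ∧ Gn k ξ ξ' I' ∧ (∀ i, Gd k ξ' I' (ξ i) ∨ (i ∉ s ∧ ξ' i = ξ i)) ∧
      IntermediateField.adjoin k (Set.range ξ') = IntermediateField.adjoin k (Set.range ξ) := by
    intro s
    induction s using Finset.induction_on with
    | empty => exact ⟨ξ, I, hc, LeX.refl, Gn.refl, fun i => Or.inr ⟨by simp, rfl⟩, rfl⟩
    | insert j s _ ih =>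
      obtain ⟨ξ', I', h1, h2, h3, h4, h5⟩ := ih
      by_cases hj : Gd k ξ' I' (ξ j)
      · refine ⟨ξ', I', h1, h2, h3, fun i => ?_, h5⟩
        rcases h4 i with h | ⟨h, e⟩
        · exact Or.inl h
        · by_cases hij : i = j
          · exact Or.inl (hij ▸ hj)
          · exact Or.inr ⟨by simp [h, hij], e⟩
      · have e0 : ξ' j = ξ j := ((h4 j).resolve_left hj).2
        obtain ⟨ξ'', I'', g1, g2, g3, g4, g5, -, g6⟩ :=
          step h1 (j := j) fun h => hj (e0 ▸ Gd.coord h)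
        refine ⟨ξ'', I'', g1, h2.trans g1 g2, h3.trans g1 g2 g3, fun i => ?_, g6.trans h5⟩
        rcases h4 i with h | ⟨h, e⟩
        · exact Or.inl (h.mono g1 g2)
        · by_cases hij : i = j
          · exact Or.inl (hij ▸ e0 ▸ g4)
          · by_cases hi : i ∈ I'
            · exact Or.inl (e ▸ g2.2 i hi)
            · exact Or.inr ⟨by simp [h, hij], (g5 i hi hij).1.trans e⟩
  obtain ⟨ξ', I', h1, h2, h3, h4, h5⟩ := key Finset.univ
  exact ⟨ξ', I', h1, h2, h3, fun i => (h4 i).resolve_right (by simp), h5⟩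

/-- A later chart in which all old coordinates are divisible by the product of the monomial
coordinates. -/
theorem deep [Finite ι] (hc : IsChart k ξ I) (W : Finset Ω)
    (hW : ∀ b ∈ W, Gd k ξ I b ∧ ‖b‖ ≤ 1) :
    ∃ (ξ' : ι → Ω) (I' : Finset ι), IsChart k ξ' I' ∧ LeX k ξ I ξ' I' ∧ Gn k ξ ξ' I' ∧
      (∀ i, ∃ h ∈ H k ξ', ξ i = (∏ i ∈ I', ξ' i) * h) ∧ (∀ b ∈ W, Nt k ξ' I' b) ∧
      IntermediateField.adjoin k (Set.range ξ') = IntermediateField.adjoin k (Set.range ξ) := by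
  classical
  have := Fintype.ofFinite ι
  obtain ⟨ξ', I', h1, h2, h3, h4, h5⟩ := step_all hc
  obtain ⟨ξ'', g1, g2, g3, -, -, g4, g5⟩ := ref h1 (W ∪ Finset.univ.image ξ) (by
    intro b hb
    rcases Finset.mem_union.1 hb with hb | hb
    · exact ⟨(hW b hb).1.mono h1 h2, (hW b hb).2⟩
    · obtain ⟨i, -, rfl⟩ := Finset.mem_image.1 hb
      exact ⟨h4 i, (hc.small i).le⟩)
  exact ⟨ξ'', I', g1, h2.trans g1 g2, h3.trans g1 g2 g3, fun i => (g5 _ (Finset.mem_union_right _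
    (Finset.mem_image_of_mem ξ (Finset.mem_univ i)))).2.1 (hc.small i),
    fun b hb => (g5 b (Finset.mem_union_left _ hb)).2.2, g4.trans h5⟩

/-- `SG` with the elements of norm at most one made integral. -/
theorem SG.ref {K : IntermediateField k Ω} (h : SG k K) (Z W : Finset Ω)
    (hZ : IntermediateField.adjoin k (Z : Set Ω) = K) (hW : ∀ w ∈ W, w ∈ K ∧ w ≠ 0) :
    ∃ (ι : Type) (_ : Fintype ι) (ξ : ι → Ω) (I : Finset ι), IsChart k ξ I ∧
      (∀ i, ξ i ∈ hens K) ∧ (∀ w ∈ W, Gd k ξ I w ∧ (‖w‖ ≤ 1 → Nt k ξ I w) ∧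
        (‖w‖ < 1 → ∃ h ∈ H k ξ, w = (∏ i ∈ I, ξ i) * h)) ∧ Sp k ξ I Z := by
  classical
  obtain ⟨ι, _, ξ, I, h1, h2, h3, h4⟩ := h Z W hZ hW
  obtain ⟨ξ', g1, g2, g3, -, -, g4, g5⟩ := Mv.ref h1 (W.filter fun w => ‖w‖ ≤ 1) fun b hb =>
    ⟨h3 b (Finset.mem_filter.1 hb).1, (Finset.mem_filter.1 hb).2⟩
  refine ⟨ι, inferInstance, ξ', I, g1, fun i => ?_, fun w hw => ⟨(h3 w hw).mono g1 g2,
    fun h => (g5 w (Finset.mem_filter.2 ⟨hw, h⟩)).2.2,
    fun h => (g5 w (Finset.mem_filter.2 ⟨hw, h.le⟩)).2.1 h⟩, h4.gn h1 g1 g2 g3⟩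
  exact (g4.trans_le (IntermediateField.adjoin_le_iff.2 (Set.range_subset_iff.2 h2)))
    (IntermediateField.subset_adjoin _ _ ⟨i, rfl⟩)

end Mv

end Pool.Agent.MP_19ffc6_ag.LU3

end MrgPart2

-- ======== part 3: formerly Pool.Agent.MP_19ffc6_ag.LU3.PDef
section MrgPart3

/-! PROJECT LU3: the data and the statements of the induction on the degree. -/

namespace Pool.Agent.MP_19ffc6_ag.LU3

open Polynomial IntermediateField Pool.Agent.MP_19ffc6_ag.LU Mv

variable {k Ω : Type*} [Field k] [NontriviallyNormedField Ω] [Algebra k Ω]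

/-- A finitely generated full base field with a transcendental top variable. -/
structure Dat (n : ℕ) (F : IntermediateField k Ω) (y : Ω) (Z : Finset Ω) : Prop where
  gen : adjoin k (Z : Set Ω) = F
  dim : Algebra.trdeg k F ≤ n
  tr : Transcendental F y
  full : VFull F (F ⊔ adjoin k {y})

/-- A polynomial over `F` without roots in the open disc of radius `R` around `y`. -/
def NoRoot (F : IntermediateField k Ω) (y : Ω) (R : ℝ) (g : Polynomial Ω) : Prop :=
  (∀ i, g.coeff i ∈ F) ∧ ∀ T, ‖T - y‖ < R → g.eval T ≠ 0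

/-- A chart inside the henselization of `F(y)` making the values of `GG` at `y` good. -/
def PC (F : IntermediateField k Ω) (y : Ω) (GG : Finset (Polynomial Ω)) (Z : Finset Ω) : Prop :=
  ∃ (ι : Type) (_ : Fintype ι) (ξ : ι → Ω) (I : Finset ι), IsChart k ξ I ∧
    (∀ i, ξ i ∈ hens (F ⊔ adjoin k {y})) ∧ (∀ g ∈ GG, Gd k ξ I (g.eval y)) ∧
    Sp k ξ I (insert y (Z : Set Ω))

/-- Charts for all finite families of polynomials without roots in the disc. -/
def PD (F : IntermediateField k Ω) (y : Ω) (R : ℝ) (Z : Finset Ω) : Prop :=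
  ∀ GG : Finset (Polynomial Ω), (∀ g ∈ GG, NoRoot F y R g) → PC F y GG Z

variable (k Ω) in
/-- The induction hypothesis on the transcendence degree. -/
def IH (n : ℕ) : Prop :=
  ∀ F : IntermediateField k Ω, F.FG → Algebra.trdeg k F ≤ n → SG k F

variable (k Ω) in
/-- The statement proved by induction on the degree `q`. -/
def PQ (n q : ℕ) : Prop :=
  ∀ (F : IntermediateField k Ω) (y : Ω) (Z : Finset Ω) (R : ℝ) (a : Ω), Dat n F y Z →
    IsAlgebraic F a → ‖a - y‖ < R → (minpoly (hens F) a).natDegree ≤ q → PD F y R Z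

variable (k Ω) in
/-- The step for value-full transcendental extensions. -/
def PStmt (n : ℕ) : Prop :=
  IH k Ω n → ∀ (F : IntermediateField k Ω) (y : Ω), F.FG → Algebra.trdeg k F ≤ n →
    Transcendental F y → VFull F (F ⊔ adjoin k {y}) → SG k (F ⊔ adjoin k {y})

variable (k Ω) in
/-- TERM: the disc contains a point of the base field. -/
def TermStmt (n : ℕ) : Prop :=
  ∀ (F : IntermediateField k Ω) (y : Ω) (Z : Finset Ω) (R : ℝ) (c : Ω), Dat n F y Z → c ∈ F →
    ‖c - y‖ < R → PD F y R Z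

variable (k Ω) in
/-- AFF: affine change of the top variable. -/
def AffStmt : Prop :=
  ∀ (F : IntermediateField k Ω) (y : Ω) (Z : Finset Ω) (R : ℝ) (b c0 : Ω),
    adjoin k (Z : Set Ω) = F → b ∈ F → c0 ∈ F → b ≠ 0 →
    PD F (b * (y - c0)) (‖b‖ * R) Z → PD F y R Z

variable (k Ω) in
/-- ADJ: removal of a henselian element from the base. -/
def AdjStmt [DecidableEq Ω] : Prop :=
  ∀ (F : IntermediateField k Ω) (y : Ω) (Z : Finset Ω) (R : ℝ) (m U : Polynomial Ω) (th : Ω),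
    adjoin k (Z : Set Ω) = F → (∀ i, m.coeff i ∈ F) → (∀ i, U.coeff i ∈ F) → m.eval th = 0 →
    th ∈ hens (F ⊔ adjoin k {y}) → 0 < R →
    (∀ T, ‖T - y‖ < R → U.eval T ≠ 0 ∧ m.derivative.eval (U.eval T) ≠ 0 ∧ ∀ l, 2 ≤ l →
      ‖(hasseDeriv l m).eval (U.eval T)‖ * ‖th - U.eval T‖ ^ (l - 1) <
        ‖m.derivative.eval (U.eval T)‖) →
    PD (F ⊔ adjoin k {th}) y R (insert th Z) → PD F y R Z

variable (k Ω) in
/-- SWAP: exchange of the top variable. -/
def SwapStmt (p n q : ℕ) : Prop :=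
  ∀ (F : IntermediateField k Ω) (y : Ω) (Z : Finset Ω) (R : ℝ) (a ψ : Ω) (s : ℕ) (rr : ℝ),
    Dat n F y Z → 0 < s → ψ ∈ F → ‖y‖ ≤ 1 → IsAlgebraic F a → ‖a - y‖ < R →
    (minpoly (hens F) a).natDegree ≤ q + 1 → ‖y ^ p ^ s - ψ‖ < rr →
    (∀ b, aeval b (minpoly (hens F) a) = 0 → ‖b ^ p ^ s - ψ‖ < rr ∧ ‖b‖ ≤ 1) →
    (∀ c ∈ hens F, rr ≤ ‖ψ - c ^ p‖) → (∀ r, rr < r → ∃ c ∈ F, ‖y - c‖ ^ p ^ s < r) →
    PD F y R Z

namespace Pd

/-- The algebraic closure of a subfield. -/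
noncomputable def acl (K : IntermediateField k Ω) : IntermediateField k Ω :=
  (algebraicClosure K Ω).restrictScalars k

theorem mem_acl {K : IntermediateField k Ω} {a : Ω} : a ∈ acl K ↔ IsAlgebraic K a :=
  mem_algebraicClosure_iff

theorem le_acl (K : IntermediateField k Ω) : K ≤ acl K := fun _ h => mem_acl.2 (alg_of_mem h)

theorem hens_le_acl (K : IntermediateField k Ω) : hens K ≤ acl K :=
  fun _ h => mem_acl.2 (alg_of_mem_hens h)

theorem mem_acl_of_alg {K L : IntermediateField k Ω} (h : L ≤ acl K) {a : Ω}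
    (ha : IsAlgebraic L a) : a ∈ acl K :=
  mem_acl.2 (isAlgebraic_trans (fun _ hz => mem_acl.1 (h hz)) ha)

theorem simple_le {K : IntermediateField k Ω} {a : Ω} (h : a ∈ K) : adjoin k {a} ≤ K :=
  adjoin_simple_le_iff.2 h

theorem self_mem (K : IntermediateField k Ω) (a : Ω) : a ∈ K ⊔ adjoin k {a} :=
  (le_sup_right : _ ≤ K ⊔ adjoin k {a}) (mem_adjoin_simple_self k a)

theorem trdeg_le_of_alg {K L : IntermediateField k Ω} (h : L ≤ acl K) :
    Algebra.trdeg k L ≤ Algebra.trdeg k K := by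
  refine (trdeg_le_of_injective (inclusion h) (inclusion_injective h)).trans (le_of_eq ?_)
  change Algebra.trdeg k (algebraicClosure K Ω) = _
  have : FaithfulSMul K (algebraicClosure K Ω) :=
    (faithfulSMul_iff_algebraMap_injective _ _).2 (algebraMap K _).injective
  rw [← trdeg_add_eq k K (A := algebraicClosure K Ω), trdeg_eq_zero (R := K), add_zero]

theorem trdeg_adjoin_le {ι : Type} [Fintype ι] (f : ι → Ω) :
    Algebra.trdeg k (adjoin k (Set.range f)) ≤ Fintype.card ι := by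
  let g : ι → adjoin k (Set.range f) := fun i => ⟨f i, subset_adjoin _ _ ⟨i, rfl⟩⟩
  have h1 : adjoin k (Set.range g) = ⊤ := by
    apply lift_injective
    rw [lift_top, lift_adjoin, ← Set.range_comp]
    rfl
  have h3 : Algebra.IsAlgebraic (adjoin k (Set.range g)) (adjoin k (Set.range f)) :=
    ⟨fun a => isAlgebraic_algebraMap (⟨a, h1 ▸ mem_top⟩ : adjoin k (Set.range g))⟩
  have := isAlgebraic_adjoin_iff_top.1 h3
  refine (Algebra.IsAlgebraic.trdeg_le_cardinalMk k (Set.range g)).trans ?_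
  simpa using Cardinal.mk_range_le_lift (f := g)

theorem card_le {ι : Type} [Fintype ι] {ξ : ι → Ω} (hi : AlgebraicIndependent k ξ)
    {F : IntermediateField k Ω} (h : ∀ i, ξ i ∈ acl F) :
    (Fintype.card ι : Cardinal) ≤ Algebra.trdeg k F := by
  have h2 : AlgebraicIndependent k fun i => (⟨ξ i, h i⟩ : acl F) :=
    AlgebraicIndependent.of_comp (acl F).val hi
  refine le_trans ?_ (trdeg_le_of_alg le_rfl)
  simpa using h2.lift_cardinalMk_le_trdeg

theorem adjoin_insert [DecidableEq Ω] {Z : Finset Ω} {F : IntermediateField k Ω}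
    (h : adjoin k (Z : Set Ω) = F) (a : Ω) :
    adjoin k ((insert a Z : Finset Ω) : Set Ω) = F ⊔ adjoin k {a} := by
  rw [Finset.coe_insert, Set.insert_eq, adjoin_union, h, sup_comm]

end Pd

open Pd

theorem Dat.fg {n : ℕ} {F : IntermediateField k Ω} {y : Ω} {Z : Finset Ω} (h : Dat n F y Z) :
    F.FG := ⟨Z, h.gen⟩

/-- Adjoining an algebraic element to the base. -/
theorem Dat.adj [DecidableEq Ω] {n : ℕ} {F : IntermediateField k Ω} {y : Ω} {Z : Finset Ω}
    (h : Dat n F y Z) {th : Ω} (ht : IsAlgebraic F th) :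
    Dat n (F ⊔ adjoin k {th}) y (insert th Z) := by
  have h1 : F ⊔ adjoin k {th} ≤ acl F := sup_le (le_acl F) (simple_le (mem_acl.2 ht))
  refine ⟨adjoin_insert h.gen th, (trdeg_le_of_alg h1).trans h.dim,
    fun hy => h.tr (mem_acl.1 (mem_acl_of_alg h1 hy)),
    (h.full.of_alg fun z hz => mem_acl.1 ?_).mono le_sup_left⟩
  exact sup_le (sup_le (le_sup_left.trans (le_acl _))
    (simple_le (mem_acl.2 (isAlgebraic_of_le le_sup_left ht))))
    (le_sup_right.trans (le_acl _)) hz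

/-- The data after the exchange of the top variable. -/
theorem Dat.swap [DecidableEq Ω] {n : ℕ} {F : IntermediateField k Ω} {y : Ω} {Z : Finset Ω}
    (h : Dat n F y Z) {ι : Type} [Fintype ι] [DecidableEq ι] {ξ : ι → Ω}
    (hi : AlgebraicIndependent k ξ) (hξ : ∀ i, ξ i ∈ hens F) (i0 : ι) {c : Ω} (hc : c ∈ hens F)
    (hfull : ∀ α ∈ qv F, α ∈ Submodule.span ℚ (Set.range fun i => nu (ξ i))) {th : Ω}
    (ht : IsAlgebraic (adjoin k (Set.range (Function.update ξ i0 (y - c)))) th)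
    (hn : ‖th‖ = ‖ξ i0‖) :
    Dat n (adjoin k (Set.range (Function.update ξ i0 (y - c))) ⊔ adjoin k {th}) (ξ i0)
      (insert th (Finset.univ.image (Function.update ξ i0 (y - c)))) := by
  set ζ := Function.update ξ i0 (y - c)
  have hξ' : ∀ i, ξ i ∈ acl F := fun i => hens_le_acl F (hξ i)
  have h1 : adjoin k (Set.range ζ) ⊔ adjoin k {th} ≤ acl (adjoin k (Set.range ζ)) :=
    sup_le (le_acl _) (simple_le (mem_acl.2 ht))
  refine ⟨adjoin_insert (by simp) th, (trdeg_le_of_alg h1).trans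
    ((trdeg_adjoin_le ζ).trans ((card_le hi hξ').trans h.dim)), fun hy => ?_, fun a ha => ?_⟩
  · have h2 : Transcendental (Algebra.adjoin k (Set.range ξ)) (y - c) := fun h3 => h.tr (by
      have h4 := mem_acl_of_alg (adjoin_le_iff.2 (Set.forall_mem_range.2 hξ'))
        (isAlgebraic_adjoin_iff.2 h3)
      simpa using mem_acl.1 (add_mem h4 (hens_le_acl F hc)))
    have h3 := ((hi.option_iff_transcendental _).2 h2).transcendental_adjoin
      (s := {some i0}ᶜ) (i := some i0) (by simp)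
    refine h3 (isAlgebraic_adjoin_iff.1 (isAlgebraic_of_le (adjoin.mono _ _ _ ?_)
      (mem_acl.1 (mem_acl_of_alg h1 hy))))
    rintro _ ⟨i, rfl⟩
    by_cases hi : i = i0
    · exact ⟨none, by simp, by simp [ζ, hi]⟩
    · exact ⟨some i, by simpa using hi, by simp [ζ, hi]⟩
  · have h2 : ∀ i, ξ i ∈ acl (F ⊔ adjoin k {y}) := fun i =>
      mem_acl.2 (isAlgebraic_of_le le_sup_left (mem_acl.1 (hξ' i)))
    have h3 : adjoin k (Set.range ζ) ≤ acl (F ⊔ adjoin k {y}) := by
      refine adjoin_le_iff.2 (Set.forall_mem_range.2 fun i => ?_)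
      by_cases hi : i = i0
      · simpa [ζ, hi] using sub_mem (le_acl _ (self_mem F y))
          (mem_acl.2 (isAlgebraic_of_le le_sup_left (alg_of_mem_hens hc)))
      · simpa [ζ, hi] using h2 i
    have h4 := h.full a (mem_acl.1 (mem_acl_of_alg (sup_le (sup_le h3
      (simple_le (mem_acl_of_alg h3 ht))) (simple_le (h2 i0))) ha))
    refine Submodule.span_le.2 (Set.forall_mem_range.2 fun i => ?_) (hfull _ h4)
    by_cases hi : i = i0
    · rw [hi, ← nu_eq_of_norm_eq hn]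
      exact nu_mem_qv (self_mem _ th)
    · refine nu_mem_qv ((le_sup_left : _ ≤ _ ⊔ adjoin k {th}) (subset_adjoin _ _ ⟨i, ?_⟩))
      simp [ζ, hi]

end Pool.Agent.MP_19ffc6_ag.LU3

end MrgPart3

-- marker of a merged file
example : 731051 + 46740 = 731051 + 46740 := rfl
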