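import Pool.Agent.MP_19ffc6_ag.LU3.Mh
import Pool.Agent.MP_19ffc6_ag.LU.Perron
import Pool.Agent.MP_19ffc6_ag.LU.HensB
import Pool.Agent.MP_19ffc6_ag.LU3.Hjet

-- ======== part 0: formerly Pool.Agent.MP_19ffc6_ag.LU3.Orth
section MrgPart0

/-! Module ORTH of PROJECT LU3: orthogonal bases over a field generated by one element. -/

namespace Pool.Agent.MP_19ffc6_ag.LU3

open IntermediateField Pool.Agent.MP_19ffc6_ag.LU Mh

universe u

variable {k : Type*} {Ω : Type u} [Field k] [NontriviallyNormedField Ω] [Algebra k Ω]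

/-- The rational span of the values of `F`. -/
noncomputable def qv (F : IntermediateField k Ω) : Submodule ℚ ℝ := Submodule.span ℚ (vg F : Set ℝ)

/-- Every value is a rational combination of values of `F`. -/
def QFull (F : IntermediateField k Ω) : Prop := ∀ a : Ω, a ≠ 0 → nu a ∈ qv F

variable (k) in
/-- The span with coefficients Laurent polynomials in `x`. -/
def lsp (x : Ω) (S : Set Ω) : Submodule k Ω :=
  Submodule.span k {z | ∃ (a : ℤ), ∃ y ∈ S, z = x ^ a * y}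

theorem nu_mem_qv {F : IntermediateField k Ω} {a : Ω} (ha : a ∈ F) : nu a ∈ qv F := by
  by_cases h0 : a = 0
  · simp [h0, nu]
  · exact Submodule.subset_span ⟨a, ha, h0, rfl⟩

theorem mem_of_mul_mem {V : Submodule ℚ ℝ} {d : ℤ} (hd : d ≠ 0) {α : ℝ} (h : d * α ∈ V) :
    α ∈ V := by
  have := V.smul_mem (d : ℚ)⁻¹ h
  rwa [Rat.smul_def, Rat.cast_inv, Rat.cast_intCast, inv_mul_cancel_left₀ (by exact_mod_cast hd)]
    at this

theorem int_mul_mem {V : Submodule ℚ ℝ} (d : ℤ) {α : ℝ} (h : α ∈ V) : d * α ∈ V := by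
  simpa [Rat.smul_def] using V.smul_mem (d : ℚ) h

theorem qv_mono {F E : IntermediateField k Ω} (h : F ≤ E) : qv F ≤ qv E :=
  Submodule.span_mono fun _ ⟨e, he, h'⟩ => ⟨e, h he, h'⟩

theorem qfull_of_alg [IsUltrametricDist Ω] {F : IntermediateField k Ω}
    (h : Algebra.IsAlgebraic F Ω) : QFull F := fun a ha => by
  obtain ⟨d, hd, b, hb, -, h1⟩ := exists_mul_nu_mem (h.1 a) ha
  exact mem_of_mul_mem (d := d) (by omega) (by simpa [← h1] using nu_mem_qv hb)

namespace Orth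

variable {x : Ω} {S T : Set Ω}

theorem mem_lsp {y : Ω} (a : ℤ) (hy : y ∈ S) : x ^ a * y ∈ lsp k x S :=
  Submodule.subset_span ⟨a, y, hy, rfl⟩

theorem subset_lsp : S ⊆ lsp k x S := fun y hy => by simpa using mem_lsp (k := k) (x := x) 0 hy

theorem zpow_mul_mem (hx : x ≠ 0) (a : ℤ) {y : Ω} (hy : y ∈ lsp k x S) :
    x ^ a * y ∈ lsp k x S := by
  induction hy using Submodule.span_induction with
  | mem z hz =>
    obtain ⟨b, y, hy, rfl⟩ := hz
    rw [← mul_assoc, ← zpow_add₀ hx]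
    exact mem_lsp _ hy
  | zero => simp
  | add y z _ _ hy hz => rw [mul_add]; exact add_mem hy hz
  | smul c y _ hy => rw [mul_smul_comm]; exact Submodule.smul_mem _ c hy

theorem lsp_le (hx : x ≠ 0) (h : S ⊆ lsp k x T) : lsp k x S ≤ lsp k x T :=
  Submodule.span_le.2 (by rintro _ ⟨a, y, hy, rfl⟩; exact zpow_mul_mem hx a (h hy))

theorem lsp_mono (h : S ⊆ T) : lsp k x S ≤ lsp k x T :=
  Submodule.span_mono fun _ ⟨a, y, hy, h'⟩ => ⟨a, y, h hy, h'⟩

theorem finite_exp {q c δ R : ℝ} (hq0 : 0 < q) (hq1 : q < 1) (hc : 0 < c) (hδ : 0 < δ) :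
    {a : ℤ | δ ≤ q ^ a * c ∧ q ^ a * c ≤ R}.Finite := by
  obtain ⟨N, hN⟩ := exists_pow_lt_of_lt_one (div_pos hδ hc) hq1
  obtain ⟨N', hN'⟩ := pow_unbounded_of_one_lt (R / c) ((one_lt_inv₀ hq0).2 hq1)
  refine (Set.finite_Icc (-(N' : ℤ)) N).subset fun a ha => ⟨?_, ?_⟩
  · by_contra h
    have := zpow_le_zpow_right_of_le_one₀ hq0 hq1.le (not_le.1 h).le
    rw [zpow_neg, zpow_natCast, ← inv_pow] at this
    rw [div_lt_iff₀ hc] at hN'
    nlinarith [ha.2]
  · by_contra h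
    have := zpow_le_zpow_right_of_le_one₀ hq0 hq1.le (not_le.1 h).le
    rw [zpow_natCast] at this
    rw [lt_div_iff₀ hc] at hN
    nlinarith [ha.1]

variable [IsUltrametricDist Ω] [Ctx k Ω]

/-- The greedy step. -/
theorem greedy (hx0 : x ≠ 0) (hx1 : ‖x‖ < 1) (hS : S.Finite) (h0 : ∀ u ∈ S, u ≠ 0) (v : Ω)
    {δ : ℝ} (hδ : 0 < δ) (h : ∀ y ∈ lsp k x S, δ ≤ ‖v - y‖) :
    ∃ y ∈ lsp k x S, ∀ u ∈ S, ∀ a : ℤ, ‖v - y‖ ≠ ‖x‖ ^ a * ‖u‖ := by
  by_contra hcon
  push Not at hcon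
  have hfin : {r : ℝ | ∃ y ∈ lsp k x S, r = ‖v - y‖ ∧ r ≤ ‖v‖}.Finite := by
    refine (hS.biUnion fun u hu => (finite_exp (R := ‖v‖) (norm_pos_iff.2 hx0) hx1
      (norm_pos_iff.2 (h0 u hu)) hδ).image fun a => ‖x‖ ^ a * ‖u‖).subset ?_
    rintro _ ⟨y, hy, rfl, hr⟩
    obtain ⟨u, hu, a, ha⟩ := hcon y hy
    exact Set.mem_biUnion hu ⟨a, ⟨ha ▸ h y hy, ha ▸ hr⟩, ha.symm⟩
  obtain ⟨_, ⟨y, hy, rfl, hr⟩, hmin⟩ := Set.exists_min_image _ id hfin
    ⟨‖v‖, 0, zero_mem _, by simp, le_rfl⟩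
  obtain ⟨u, hu, a, ha⟩ := hcon y hy
  have hne : x ^ a * u ≠ 0 := mul_ne_zero (zpow_ne_zero _ hx0) (h0 u hu)
  have hn : ‖x ^ a * u‖ = ‖v - y‖ := by rw [norm_mul, norm_zpow, ha]
  have hpos : 0 < ‖v - y‖ := hδ.trans_le (h y hy)
  obtain ⟨c, hc⟩ := Ctx.res (k := k) ((v - y) / (x ^ a * u))
    (by rw [norm_div, hn, div_self hpos.ne'])
  have h1 : v - (y + c • (x ^ a * u)) =
      ((v - y) / (x ^ a * u) - algebraMap k Ω c) * (x ^ a * u) := by
    rw [Algebra.smul_def, sub_mul, div_mul_cancel₀ _ hne]; ring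
  have h2 : ‖v - (y + c • (x ^ a * u))‖ < ‖v - y‖ := by
    rw [h1, norm_mul, hn]; exact mul_lt_of_lt_one_left hpos hc
  exact absurd (hmin _ ⟨_, add_mem hy (Submodule.smul_mem _ c (mem_lsp a hu)), rfl,
    h2.le.trans hr⟩) (not_le.2 h2)

theorem orth_of_sep (hx0 : x ≠ 0) (hx1 : ‖x‖ < 1) {σ : Type*} (v : σ → Ω)
    (h : ∀ i, ∃ δ : ℝ, 0 < δ ∧ ∀ y ∈ lsp k x (v '' {i}ᶜ), δ ≤ ‖v i - y‖) (s : Finset σ) :
    ∃ u : σ → Ω, lsp k x (u '' s) = lsp k x (v '' s) ∧ (∀ i ∈ s, u i ≠ 0) ∧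
      ∀ i ∈ s, ∀ j ∈ s, ∀ a : ℤ, ‖u i‖ = ‖x‖ ^ a * ‖u j‖ → i = j := by
  classical
  induction s using Finset.induction_on with
  | empty => exact ⟨v, rfl, by simp, by simp⟩
  | insert i s hi ih =>
    obtain ⟨u, hu, hu0, hd⟩ := ih
    obtain ⟨δ, hδ, hsep⟩ := h i
    have hsub : (s : Set σ) ⊆ {i}ᶜ := fun j hj hji => hi (by rwa [← Set.mem_singleton_iff.1 hji])
    have hsep' : ∀ y ∈ lsp k x (u '' s), δ ≤ ‖v i - y‖ := fun y hy =>
      hsep y (lsp_mono (Set.image_mono hsub) (hu.le hy))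
    obtain ⟨y, hy, hnew⟩ := greedy hx0 hx1 (s.finite_toSet.image u)
      (by rintro _ ⟨j, hj, rfl⟩; exact hu0 j hj) (v i) hδ hsep'
    have hne : ∀ j ∈ s, Function.update u i (v i - y) j = u j := fun j hj =>
      Function.update_of_ne (by rintro rfl; exact hi hj) _ _
    have him : Function.update u i (v i - y) '' (insert i s : Finset σ) =
        insert (v i - y) (u '' s) := by
      rw [Finset.coe_insert, Set.image_insert_eq, Function.update_self, Set.image_congr hne]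
    refine ⟨Function.update u i (v i - y), ?_, ?_, ?_⟩
    · rw [him, Finset.coe_insert, Set.image_insert_eq]
      refine le_antisymm (lsp_le hx0 (Set.insert_subset ?_ ?_)) (lsp_le hx0
        (Set.insert_subset ?_ ?_))
      · exact sub_mem (subset_lsp (Set.mem_insert _ _))
          (lsp_mono (Set.subset_insert _ _) (hu.le hy))
      · exact fun z hz => lsp_mono (Set.subset_insert _ _) (hu.le (subset_lsp hz))
      · have : v i = (v i - y) + y := by ring
        rw [SetLike.mem_coe]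
        conv_rhs => rw [this]
        exact add_mem (subset_lsp (Set.mem_insert _ _)) (lsp_mono (Set.subset_insert _ _) hy)
      · exact fun z hz => lsp_mono (Set.subset_insert _ _) (hu.ge (subset_lsp hz))
    · intro j hj
      rcases Finset.mem_insert.1 hj with rfl | hj
      · rw [Function.update_self, ← norm_pos_iff]; exact hδ.trans_le (hsep' y hy)
      · rw [hne j hj]; exact hu0 j hj
    · intro j hj l hl a ha
      rcases Finset.mem_insert.1 hj with hj | hj <;> rcases Finset.mem_insert.1 hl with hl | hl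
      · rw [hj, hl]
      · rw [hj, Function.update_self, hne l hl] at ha
        exact absurd ha (hnew _ ⟨l, hl, rfl⟩ a)
      · rw [hl, Function.update_self, hne j hj] at ha
        refine absurd ?_ (hnew _ ⟨j, hj, rfl⟩ (-a))
        rw [ha, zpow_neg, inv_mul_cancel_left₀ (zpow_ne_zero _ (norm_ne_zero_iff.2 hx0))]
      · rw [hne j hj, hne l hl] at ha
        exact hd j hj l hl a ha

section cpl

variable {W : Type u} [NontriviallyNormedField W] [IsUltrametricDist W] [Algebra k W]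

variable (k) in
/-- The topological closure of an intermediate field. -/
def cls (M : IntermediateField k W) : IntermediateField k W :=
  M.toSubfield.topologicalClosure.toIntermediateField fun c => subset_closure (M.algebraMap_mem c)

omit [IsUltrametricDist Ω] [Ctx k Ω] in
theorem sep_of_indep [CompleteSpace W] (j : Ω →ₐ[k] W) (hj : ∀ x, ‖j x‖ = ‖x‖) (hx0 : x ≠ 0)
    (hx1 : ‖x‖ < 1) (M : IntermediateField k W) (hxM : j x ∈ M) {σ : Type*} [Finite σ]
    (v : σ → Ω) (hli : LinearIndependent (cls k M) fun i => j (v i)) (i : σ) :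
    ∃ δ : ℝ, 0 < δ ∧ ∀ y ∈ lsp k x (v '' {i}ᶜ), δ ≤ ‖v i - y‖ := by
  let K : Subfield W := M.toSubfield.topologicalClosure
  have hxK : j x ∈ K := subset_closure hxM
  let : NontriviallyNormedField K :=
    { (inferInstance : NormedField K) with
      non_trivial := ⟨⟨(j x)⁻¹, inv_mem hxK⟩, by
        show 1 < ‖(j x)⁻¹‖
        rw [norm_inv, hj]; exact (one_lt_inv₀ (norm_pos_iff.2 hx0)).2 hx1⟩ }
  have : CompleteSpace K := (Subfield.isClosed_topologicalClosure _).completeSpace_coe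
  replace hli : LinearIndependent K fun i => j (v i) := hli
  let U := Submodule.span K ((fun i => j (v i)) '' {i}ᶜ)
  have : FiniteDimensional K U := FiniteDimensional.span_of_finite K (Set.toFinite _)
  have hU : IsClosed (U : Set W) := U.closed_of_finiteDimensional
  have hi : j (v i) ∉ U := hli.notMem_span_image (by simp)
  obtain ⟨δ, hδ, h⟩ := Metric.isOpen_iff.1 hU.isOpen_compl _ hi
  refine ⟨δ, hδ, fun y hy => ?_⟩
  have hyU : j y ∈ U := by
    induction hy using Submodule.span_induction with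
    | mem z hz =>
      obtain ⟨a, _, ⟨l, hl, rfl⟩, rfl⟩ := hz
      rw [map_mul, map_zpow₀]
      exact U.smul_mem (⟨j x ^ a, zpow_mem hxK a⟩ : K) (Submodule.subset_span ⟨l, hl, rfl⟩)
    | zero => simp
    | add y z _ _ hy hz => rw [map_add]; exact add_mem hy hz
    | smul c y _ hy =>
      rw [map_smul, Algebra.smul_def]
      exact U.smul_mem (⟨algebraMap k W c, subset_closure (M.algebraMap_mem c)⟩ : K) hy
  by_contra hlt
  refine h (a := j y) ?_ hyU
  rw [Metric.mem_ball, dist_eq_norm, ← map_sub, hj, norm_sub_rev]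
  exact not_le.1 hlt

omit [IsUltrametricDist Ω] [Ctx k Ω] in
theorem qfull_of_cls (j : Ω →ₐ[k] W) (hj : ∀ x, ‖j x‖ = ‖x‖) {F : IntermediateField k Ω}
    {S : Set Ω} (halg : Algebra.IsAlgebraic (adjoin k S) Ω)
    (h : ∀ y ∈ S, IsAlgebraic (cls k (F.map j)) (j y)) : QFull F := by
  intro a ha
  set C := cls k (F.map j)
  have hle : adjoin k S ≤ ((algebraicClosure C W).restrictScalars k).comap j :=
    adjoin_le_iff.2 fun y hy => mem_algebraicClosure_iff.2 (h y hy)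
  let f : adjoin k S →+* algebraicClosure C W :=
    (j.toRingHom.comp (adjoin k S).val.toRingHom).codRestrict _ fun z => hle z.2
  have h1 : IsAlgebraic (algebraicClosure C W) (j.toRingHom a) :=
    (halg.1 a).ringHom_of_comp_eq f j.toRingHom f.injective rfl
  have h2 : IsAlgebraic C (j a) := h1.restrictScalars C
  obtain ⟨d, hd, b, hb, hb0, h3⟩ := exists_mul_nu_mem h2 ((map_ne_zero j).2 ha)
  obtain ⟨_, ⟨g, hg, rfl⟩, h4⟩ := Metric.mem_closure_iff.1 hb _ (norm_pos_iff.2 hb0)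
  rw [dist_eq_norm] at h4
  have h5 : nu g = d * nu a := by
    have h6 : ‖g‖ = ‖b‖ := (hj g).symm.trans (norm_eq_of_norm_sub_lt h4)
    simp only [nu, hj] at h3 ⊢
    rw [h6, h3]
  exact mem_of_mul_mem (d := d) (by omega) (by simpa [← h5] using nu_mem_qv hg)

end cpl

end Orth

open Orth

variable [IsUltrametricDist Ω] [Ctx k Ω]

/-- Orthogonal bases: if no base field is full, then the Laurent span of finitely many monomials
has a basis whose values are distinct modulo the value of the first coordinate. -/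
theorem orth {n : ℕ} (b : Fin (n + 1) → Ω) (hx0 : b 0 ≠ 0) (hx1 : ‖b 0‖ < 1)
    (halg : Algebra.IsAlgebraic (adjoin k (Set.range b)) Ω)
    (hnf : ∀ i : Fin n, ¬ QFull (adjoin k (b '' {i.succ}ᶜ))) {σ : Type*} [Fintype σ]
    (e : σ → Fin n → ℕ) (he : Function.Injective e) :
    ∃ u : σ → Ω, lsp k (b 0) (Set.range u) =
        lsp k (b 0) (Set.range fun l => ∏ i, b i.succ ^ e l i) ∧ (∀ i, u i ≠ 0) ∧
      ∀ i j, ∀ a : ℤ, ‖u i‖ = ‖b 0‖ ^ a * ‖u j‖ → i = j := by
  suffices h : ∀ l, ∃ δ : ℝ, 0 < δ ∧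
      ∀ y ∈ lsp k (b 0) ((fun l => ∏ i, b i.succ ^ e l i) '' {l}ᶜ),
        δ ≤ ‖(fun l => ∏ i, b i.succ ^ e l i) l - y‖ by
    simpa using orth_of_sep hx0 hx1 _ h Finset.univ
  refine exists_cpl k Ω fun W _ _ _ _ j hj => ?_
  set M := adjoin k {j (b 0)} with hM
  have hind : AlgebraicIndependent (cls k M) fun i : Fin n => j (b i.succ) := by
    refine algebraicIndependent_of_finite_type' (algebraMap (cls k M) W).injective
      fun t _ _ i hi => ?_
    by_contra hi'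
    refine hnf i (qfull_of_cls j hj halg ?_)
    set C := cls k ((adjoin k (b '' {i.succ}ᶜ)).map j)
    have hC : ∀ l, l ≠ i.succ → j (b l) ∈ C := fun l hl =>
      subset_closure ⟨b l, subset_adjoin _ _ ⟨l, hl, rfl⟩, rfl⟩
    rintro _ ⟨l, rfl⟩
    by_cases hl : l = i.succ
    · subst hl
      have hMC : cls k M ≤ C := closure_mono (s := (M : Set W)) (adjoin_le_iff.2 (by
        rintro _ rfl
        exact ⟨b 0, subset_adjoin _ _ ⟨0, (Fin.succ_ne_zero i).symm, rfl⟩, rfl⟩))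
      have hle : Algebra.adjoin (cls k M) ((fun i : Fin n => j (b i.succ)) '' t) ≤
          (extendScalars hMC).toSubalgebra := Algebra.adjoin_le (by
        rintro _ ⟨l, hl, rfl⟩
        exact hC _ fun h => hi (Fin.succ_injective _ h ▸ hl))
      let f : Algebra.adjoin (cls k M) ((fun i : Fin n => j (b i.succ)) '' t) →+* C :=
        (Subalgebra.val _).toRingHom.codRestrict _ fun z => hle z.2
      exact IsAlgebraic.ringHom_of_comp_eq f (RingHom.id W) (not_not.1 hi')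
        (fun z z' h => Subtype.ext (congrArg (fun c : C => (c : W)) h)) rfl
    · exact isAlgebraic_algebraMap (⟨_, hC l hl⟩ : C)
  refine sep_of_indep j hj hx0 hx1 M (mem_adjoin_simple_self _ _) _ ?_
  have h1 := (MvPolynomial.basisMonomials (Fin n) (cls k M)).linearIndependent.map'
    (MvPolynomial.aeval fun i : Fin n => j (b i.succ)).toLinearMap
    (LinearMap.ker_eq_bot.2 hind)
  have h2 := h1.comp (fun l => Finsupp.equivFunOnFinite.symm (e l))
    (Finsupp.equivFunOnFinite.symm.injective.comp he)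
  refine (congrArg (fun v : σ → W => LinearIndependent (cls k M) v) (funext fun l => ?_)).mp h2
  simp [MvPolynomial.aeval_monomial, Finsupp.prod_fintype]

omit [IsUltrametricDist Ω] [Ctx k Ω] in
theorem trdeg_eq {n : ℕ} {b : Fin n → Ω} (hb : AlgebraicIndependent k b)
    (halg : Algebra.IsAlgebraic (adjoin k (Set.range b)) Ω) : Algebra.trdeg k Ω = n := by
  have h := (hb.isTranscendenceBasis_iff_isAlgebraic.2
    (isAlgebraic_adjoin_iff_top.1 halg)).lift_cardinalMk_eq_trdeg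
  simpa using h.symm

omit [IsUltrametricDist Ω] [Ctx k Ω] in
theorem trdeg_eq_of_alg {K : IntermediateField k Ω} (h : Algebra.IsAlgebraic K Ω) :
    Algebra.trdeg k K = Algebra.trdeg k Ω := by
  have h1 := trdeg_add_eq k K (A := Ω)
  rwa [trdeg_eq_zero (R := K) (A := Ω), add_zero] at h1

theorem card_le_of_indep {n : ℕ} (h : Algebra.trdeg k Ω = n) {ι : Type} (z : ι → Ω)
    (h0 : ∀ i, z i ≠ 0) (hli : LinearIndependent ℤ fun i => nu (z i)) :
    Cardinal.mk ι ≤ n := by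
  have h1 := (ind (k := k) ι z h0 hli).lift_cardinalMk_le_trdeg
  rw [h] at h1
  simpa using h1

/-- The rational rank is finite. -/
theorem exists_fin_span {n : ℕ} (h : Algebra.trdeg k Ω = n) (S : Set Ω) (hS : ∀ a ∈ S, a ≠ 0) :
    ∃ B : Finset Ω, (B : Set Ω) ⊆ S ∧ ∀ a ∈ S, nu a ∈ Submodule.span ℚ (nu '' (B : Set Ω)) := by
  classical
  obtain ⟨t, ht, hsp, hli⟩ := exists_linearIndependent ℚ (nu '' S)
  choose z hz hz' using fun i : t => ht i.2
  have h1 : LinearIndependent ℤ fun i => nu (z i) := by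
    simp only [hz']
    exact hli.restrict_scalars' ℤ
  have : Finite t := Cardinal.lt_aleph0_iff_finite.1
    ((card_le_of_indep h z (fun i => hS _ (hz i)) h1).trans_lt (Cardinal.natCast_lt_aleph0))
  refine ⟨(Set.finite_range z).toFinset, ?_, fun a ha => ?_⟩
  · rw [Set.Finite.coe_toFinset]
    rintro _ ⟨i, rfl⟩
    exact hz i
  · have h2 : nu a ∈ Submodule.span ℚ t := hsp ▸ Submodule.subset_span ⟨a, ha, rfl⟩
    refine Submodule.span_mono (fun γ hγ => ?_) h2
    exact ⟨z ⟨γ, hγ⟩, by simp, hz' _⟩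

/-- Clearing denominators in a rational span. -/
theorem exists_mul_mem_closure {A : Set ℝ} {α : ℝ} (h : α ∈ Submodule.span ℚ A) :
    ∃ d : ℕ, 0 < d ∧ (d : ℝ) * α ∈ AddSubgroup.closure A := by
  induction h using Submodule.span_induction with
  | mem z hz => exact ⟨1, one_pos, by simpa using AddSubgroup.subset_closure hz⟩
  | zero => exact ⟨1, one_pos, by simp⟩
  | add y z _ _ hy hz =>
    obtain ⟨d, hd, hy⟩ := hy
    obtain ⟨d', hd', hz⟩ := hz
    refine ⟨d * d', mul_pos hd hd', ?_⟩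
    have : ((d * d' : ℕ) : ℝ) * (y + z) = d' * (d * y) + d * (d' * z) := by push_cast; ring
    rw [this]
    exact add_mem (natCast_mul_mem hy _) (natCast_mul_mem hz _)
  | smul c y _ hy =>
    obtain ⟨d, hd, hy⟩ := hy
    refine ⟨c.den * d, mul_pos c.den_pos hd, ?_⟩
    have h1 : (c.den : ℝ) * c = c.num := by exact_mod_cast Rat.den_mul_eq_num c
    have : ((c.den * d : ℕ) : ℝ) * (c • y) = c.num * (d * y) := by
      rw [Rat.smul_def, ← h1]; push_cast; ring
    rw [this]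
    exact intCast_mul_mem hy _

/-- A full field has finitely many elements whose values span all values. -/
theorem QFull.exists_finset {n : ℕ} (h : Algebra.trdeg k Ω = n) {F : IntermediateField k Ω}
    (hF : QFull F) : ∃ B : Finset Ω, (∀ b ∈ B, b ∈ F ∧ b ≠ 0) ∧ ∀ a : Ω, a ≠ 0 →
      ∃ d : ℕ, 0 < d ∧ (d : ℝ) * nu a ∈ AddSubgroup.closure (nu '' (B : Set Ω)) := by
  obtain ⟨B, hB, hsp⟩ := exists_fin_span h {b | b ∈ F ∧ b ≠ 0} fun _ h => h.2
  refine ⟨B, fun b hb => hB hb, fun a ha => exists_mul_mem_closure ?_⟩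
  refine Submodule.span_le.2 ?_ (hF a ha)
  rintro _ ⟨e, he, he0, rfl⟩
  exact hsp e ⟨he, he0⟩

/-- A nonzero combination of a family with distinct norms has the norm of a member. -/
theorem norm_eq_of_mem_span {σ : Type*} {v : σ → Ω}
    (hv : Function.Injective fun i => ‖v i‖) {z : Ω} (hz : z ∈ Submodule.span k (Set.range v))
    (h0 : z ≠ 0) : ∃ i, ‖z‖ = ‖v i‖ := by
  obtain ⟨c, rfl⟩ := Finsupp.mem_span_range_iff_exists_finsupp.1 hz
  have hne : c.support.Nonempty := by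
    rw [Finsupp.support_nonempty_iff]; rintro rfl; simp at h0
  have hn : ∀ i ∈ c.support, ‖c i • v i‖ = ‖v i‖ := fun i hi =>
    norm_smul_eq_self (Finsupp.mem_support_iff.1 hi) _
  have h1 := IsUltrametricDist.norm_sum_eq_sup'_of_pairwise_ne (f := fun i => c i • v i) hne
    fun i hi j hj hij h => hij (hv (by simpa only [hn i hi, hn j hj] using h))
  obtain ⟨i, hi, h2⟩ := Finset.exists_mem_eq_sup' hne fun i => ‖c i • v i‖
  exact ⟨i, by rw [Finsupp.sum, h1, h2, hn i hi]⟩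

theorem linearIndependent_of_norm {σ : Type*} {v : σ → Ω} (h0 : ∀ i, v i ≠ 0)
    (hv : Function.Injective fun i => ‖v i‖) : LinearIndependent k v := by
  rw [linearIndependent_iff']
  intro s g hs i hi
  classical
  by_contra hg
  refine Init.sum_ne_zero (s.filter fun i => g i ≠ 0) (fun i => g i • v i) ⟨i, by simp [hi, hg]⟩
    (fun i hi => smul_ne_zero (Finset.mem_filter.1 hi).2 (h0 i)) (fun i hi j hj hij h => hij (hv ?_))
    (by rw [← hs]; exact Finset.sum_filter_of_ne fun i _ h h' => h (by simp [h']))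
  rwa [norm_smul_eq_self (Finset.mem_filter.1 hi).2, norm_smul_eq_self (Finset.mem_filter.1 hj).2]
    at h

end Pool.Agent.MP_19ffc6_ag.LU3

end MrgPart0

-- ======== part 1: formerly Pool.Agent.MP_19ffc6_ag.LU3.KillA
section MrgPart1

/-! PROJECT LU3, section 4: key polynomial, lattices of values, small ratios. -/

namespace Pool.Agent.MP_19ffc6_ag.LU3

open Polynomial IntermediateField Pool.Agent.MP_19ffc6_ag.LU Mh Orth Filter Topology

universe u

variable {k : Type*} {Ω : Type u} [Field k] [NontriviallyNormedField Ω] [Algebra k Ω]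

namespace Kill

/-- The data of a polynomial of least degree with a new value. -/
structure Phi (F : IntermediateField k Ω) (y w : Ω) (D : ℕ) : Prop where
  D_pos : 0 < D
  w_mem : w ∈ adjoin F {y}
  w_ne : w ≠ 0
  w_not : nu w ∉ qv F
  low : ∀ z ∈ Submodule.span F (Set.range fun i : Fin D => y ^ (i : ℕ)), nu z ∈ qv F
  full : ∀ V : Submodule ℚ ℝ, qv F ≤ V → nu w ∈ V → ∀ a : Ω, nu a ∈ V
  int : ∀ E : IntermediateField k Ω, F ≤ E → w ∈ E → IsIntegral E y ∧
    ∀ z ∈ adjoin E {y}, z ∈ Submodule.span E (Set.range fun i : Fin D => y ^ (i : ℕ))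

theorem nu_mul_mem {V : Submodule ℚ ℝ} {a b : Ω} (ha : nu a ∈ V) (hb : nu b ∈ V) :
    nu (a * b) ∈ V := by
  by_cases h : a * b = 0
  · simp [h, nu]
  · rw [nu_mul (left_ne_zero_of_mul h) (right_ne_zero_of_mul h)]; exact add_mem ha hb

theorem nu_div_mem {V : Submodule ℚ ℝ} {a b : Ω} (ha : nu a ∈ V) (hb : nu b ∈ V) :
    nu (a / b) ∈ V := by
  rw [div_eq_mul_inv]; exact nu_mul_mem ha (by rw [nu_inv]; exact neg_mem hb)

theorem all_mem [IsUltrametricDist Ω] {F : IntermediateField k Ω} {y : Ω}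
    (halg : Algebra.IsAlgebraic (F ⊔ adjoin k {y} : IntermediateField k Ω) Ω) {V : Submodule ℚ ℝ}
    (h : ∀ g : F[X], nu (aeval y g) ∈ V) (a : Ω) : nu a ∈ V := by
  by_cases ha : a = 0
  · simp [ha, nu]
  refine Submodule.span_le.2 ?_ (qfull_of_alg halg a ha)
  rintro _ ⟨e, he, -, rfl⟩
  obtain ⟨f, g, rfl⟩ := (mem_adjoin_simple_iff _ _).1 (mem_sup_iff_mem_adjoin.1 he)
  exact nu_div_mem (h f) (h g)

theorem exists_phi [IsUltrametricDist Ω] {F : IntermediateField k Ω} {y : Ω}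
    (halg : Algebra.IsAlgebraic (F ⊔ adjoin k {y} : IntermediateField k Ω) Ω) (hF : ¬ QFull F) :
    ∃ (w : Ω) (D : ℕ), Phi F y w D := by
  classical
  have hex : ∃ D : ℕ, ∃ φ : F[X], φ.natDegree = D ∧ nu (aeval y φ) ∉ qv F := by
    by_contra h
    push Not at h
    exact hF fun a _ => all_mem halg (fun g => h _ g rfl) a
  obtain ⟨φ0, hD, hφ0⟩ := Nat.find_spec hex
  set D := Nat.find hex
  have hlow : ∀ ψ : F[X], ψ.natDegree < D → nu (aeval y ψ) ∈ qv F := fun ψ h => by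
    by_contra h'
    exact Nat.find_min hex h ⟨ψ, rfl, h'⟩
  have h0 : φ0 ≠ 0 := by rintro rfl; simp [nu] at hφ0
  have hlc : φ0.leadingCoeff ≠ 0 := leadingCoeff_ne_zero.2 h0
  set φ := φ0 * C φ0.leadingCoeff⁻¹ with hφ
  have hmon : φ.Monic := monic_mul_leadingCoeff_inv h0
  have hdeg : φ.natDegree = D := by rw [hφ, natDegree_mul_leadingCoeff_inv _ h0, hD]
  set w := aeval y φ with hw
  have hnot : nu w ∉ qv F := fun h => hφ0 <| by
    have : aeval y φ0 = w * (φ0.leadingCoeff : F) := by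
      rw [hw, hφ, map_mul, aeval_C, mul_assoc]
      show _ = _ * (algebraMap F Ω _ * algebraMap F Ω _)
      rw [← map_mul, inv_mul_cancel₀ hlc, map_one, mul_one]
    rw [this]
    exact nu_mul_mem h (nu_mem_qv φ0.leadingCoeff.2)
  have hw0 : w ≠ 0 := fun h => hnot (by simp [h, nu])
  have hD0 : 0 < D := by
    refine Nat.pos_of_ne_zero fun h => hnot ?_
    rw [hw, hmon.natDegree_eq_zero.1 (hdeg.trans h), map_one, nu_one]
    exact zero_mem _
  have hexp : ∀ (n : ℕ) (g : F[X]), g.natDegree = n →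
      aeval y g = 0 ∨ ∃ j : ℕ, nu (aeval y g) - j * nu w ∈ qv F := by
    intro n
    induction n using Nat.strong_induction_on with
    | _ n ih =>
      intro g hg
      by_cases hn : n < D
      · exact Or.inr ⟨0, by simpa using hlow g (hg ▸ hn)⟩
      have hB : nu (aeval y (g %ₘ φ)) ∈ qv F := hlow _
        (hdeg ▸ natDegree_modByMonic_lt g hmon (by rintro h; simp [h] at hdeg; omega))
      have hg' : aeval y g = aeval y (g %ₘ φ) + w * aeval y (g /ₘ φ) := by
        rw [hw, ← map_mul, ← map_add, modByMonic_add_div]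
      rcases ih _ (by rw [natDegree_divByMonic g hmon, hg, hdeg]; omega) (g /ₘ φ) rfl with
        hq | ⟨j, hj⟩
      · exact Or.inr ⟨0, by simpa [hg', hq] using hB⟩
      by_cases hq : aeval y (g /ₘ φ) = 0
      · exact Or.inr ⟨0, by simpa [hg', hq] using hB⟩
      have hA : nu (w * aeval y (g /ₘ φ)) - (j + 1 : ℕ) * nu w ∈ qv F := by
        have h : nu w + nu (aeval y (g /ₘ φ)) - (j + 1 : ℕ) * nu w =
            nu (aeval y (g /ₘ φ)) - j * nu w := by push_cast; ring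
        rwa [nu_mul hw0 hq, h]
      rcases lt_trichotomy ‖aeval y (g %ₘ φ)‖ ‖w * aeval y (g /ₘ φ)‖ with h | h | h
      · refine Or.inr ⟨j + 1, ?_⟩
        rwa [hg', add_comm, nu_eq_of_norm_eq (norm_add_eq_left h)]
      · refine absurd (mem_of_mul_mem (d := (j + 1 : ℕ)) (by omega) ?_) hnot
        rw [← nu_eq_of_norm_eq h] at hA
        simpa using sub_mem hB hA
      · refine Or.inr ⟨0, ?_⟩
        rw [hg', nu_eq_of_norm_eq (norm_add_eq_left h)]
        simpa using hB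
  refine ⟨w, D, hD0, (mem_adjoin_simple_iff _ _).2 ⟨φ, 1, by simp [hw]⟩, hw0, hnot, ?_, ?_, ?_⟩
  · intro z hz
    obtain ⟨c, rfl⟩ := (Submodule.mem_span_range_iff_exists_fun _).1 hz
    have h1 : ∑ i, c i • y ^ (i : ℕ) = aeval y (∑ i : Fin D, C (c i) * X ^ (i : ℕ)) := by
      simp [Algebra.smul_def]
    rw [h1]
    by_cases h2 : ∑ i : Fin D, C (c i) * X ^ (i : ℕ) = 0
    · simp [h2, nu]
    · exact hlow _ ((natDegree_lt_iff_degree_lt h2).2 (degree_sum_fin_lt c))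
  · intro V hV hwV
    refine all_mem halg fun g => ?_
    rcases hexp _ g rfl with h | ⟨j, hj⟩
    · simp [h, nu]
    · simpa using add_mem (hV hj) (int_mul_mem j hwV)
  · intro E hFE hwE
    let f : E[X] := φ.map (inclusion hFE).toRingHom - C ⟨w, hwE⟩
    have hf1 : (φ.map (inclusion hFE).toRingHom).natDegree = D := by rw [natDegree_map, hdeg]
    have hf2 : f.natDegree = D := by rw [natDegree_sub_C, hf1]
    have hf3 : f.Monic := (hmon.map _).sub_of_left (degree_C_le.trans_lt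
      (natDegree_pos_iff_degree_pos.1 (hf1 ▸ hD0)))
    have hf4 : aeval y f = 0 := by
      rw [map_sub, aeval_C, aeval_def, eval₂_map, sub_eq_zero]
      rfl
    have hi : IsIntegral E y := ⟨f, hf3, hf4⟩
    refine ⟨hi, fun z hz => ?_⟩
    have h1 : z ∈ Subalgebra.toSubmodule (Algebra.adjoin E {y}) := by
      rw [← adjoin_simple_toSubalgebra_of_isAlgebraic hi.isAlgebraic]; exact hz
    rw [← Submodule.span_range_natDegree_eq_adjoin hf3 hf4, hf2] at h1
    refine Submodule.span_mono (fun a ha => ?_) h1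
    obtain ⟨i, hi, rfl⟩ := Finset.mem_image.1 (Finset.mem_coe.1 ha)
    exact ⟨⟨i, Finset.mem_range.1 hi⟩, rfl⟩

theorem count {α β : ℕ} (h : α < β) (c e : ℕ) : ∀ᶠ N in atTop, α * (N + c) ^ e < β * N ^ e := by
  have h1 : Tendsto (fun N : ℕ => (α : ℝ) * (1 + (c : ℝ) / N) ^ e) atTop (𝓝 (α * (1 + 0) ^ e)) :=
    ((tendsto_const_nhds.add (tendsto_const_div_atTop_nhds_zero_nat (c : ℝ))).pow e).const_mul _
  have h2 : (α : ℝ) * (1 + 0) ^ e < β := by simpa using h
  filter_upwards [h1.eventually_lt_const h2, eventually_gt_atTop 0] with N hN hN0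
  have hN0' : (0 : ℝ) < N := by exact_mod_cast hN0
  have h3 : (1 + (c : ℝ) / N) = (N + c) / N := by field_simp
  rw [h3, div_pow, ← mul_div_assoc, div_lt_iff₀ (by positivity)] at hN
  exact_mod_cast hN

/-- Ratios of small positive value generate everything. -/
theorem small {x w : Ω} (hx0 : x ≠ 0) (hw0 : w ≠ 0) (hirr : Irrational (nu w / nu x))
    {κ : Type*} [Fintype κ] (u : κ → Ω) (hu : ∀ i, u i ≠ 0) {σ : ℝ} (hσ : 0 < σ) :
    ∃ M : ℕ, ∀ (i0 : κ) (P : Ω → Prop), (∀ a b, P a → P b → P (a * b)) →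
      (∀ a (m : ℤ), P a → P (a ^ m)) →
      (∀ (α β : ℤ) (i : κ), |α| ≤ M → |β| ≤ M → 0 < nu (x ^ α * w ^ β * u i / u i0) →
        nu (x ^ α * w ^ β * u i / u i0) ≤ σ → P (x ^ α * w ^ β * u i / u i0)) →
      P x ∧ P w ∧ ∀ i, P (u i / u i0) := by
  obtain ⟨g, hg, hg0, hgσ⟩ := (dense_addSubgroupClosure_pair_iff.2 hirr).exists_between hσ
  obtain ⟨b0, a0, rfl⟩ := AddSubgroup.mem_closure_pair.1 hg
  simp only [zsmul_eq_mul] at hg0 hgσ
  have hnu : ∀ (α β : ℤ) (i i0 : κ), nu (x ^ α * w ^ β * u i / u i0) =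
      α * nu x + β * nu w + nu (u i) - nu (u i0) := fun α β i i0 => by
    rw [nu_div (mul_ne_zero (mul_ne_zero (zpow_ne_zero _ hx0) (zpow_ne_zero _ hw0)) (hu i)) (hu i0),
      nu_mul (mul_ne_zero (zpow_ne_zero _ hx0) (zpow_ne_zero _ hw0)) (hu i),
      nu_mul (zpow_ne_zero _ hx0) (zpow_ne_zero _ hw0), nu_zpow, nu_zpow]
  have key : ∀ (α β : ℤ) (i i0 : κ), ∀ᶠ M : ℕ in atTop, ∀ P : Ω → Prop,
      (∀ a b, P a → P b → P (a * b)) → (∀ a (m : ℤ), P a → P (a ^ m)) →
      (∀ (α β : ℤ) (i : κ), |α| ≤ M → |β| ≤ M → 0 < nu (x ^ α * w ^ β * u i / u i0) →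
        nu (x ^ α * w ^ β * u i / u i0) ≤ σ → P (x ^ α * w ^ β * u i / u i0)) →
      P (x ^ α * w ^ β * u i / u i0) := by
    intro α β i i0
    obtain ⟨m, hm1, hm2⟩ := (existsUnique_sub_zsmul_mem_Ioc hg0
      (nu (x ^ α * w ^ β * u i / u i0)) 0).exists
    simp only [zsmul_eq_mul, hnu, zero_add] at hm1 hm2
    have hev : ∀ c : ℤ, ∀ᶠ M : ℕ in atTop, |c| ≤ M := fun c =>
      (tendsto_natCast_atTop_atTop (R := ℤ)).eventually_ge_atTop _
    filter_upwards [hev a0, hev b0, hev (α - m * a0), hev (β - m * b0)] with M h1 h2 h3 h4 P hP hP'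
      hs
    have e1 := hs a0 b0 i0 h1 h2 (by rw [hnu]; linarith) (by rw [hnu]; linarith)
    have e2 := hs _ _ i h3 h4 (by rw [hnu]; push_cast; linarith) (by rw [hnu]; push_cast; linarith)
    have e3 := hP _ _ e2 (hP' _ m e1)
    have e4 : x ^ (α - m * a0) * w ^ (β - m * b0) * u i / u i0 *
        (x ^ a0 * w ^ b0 * u i0 / u i0) ^ m = x ^ α * w ^ β * u i / u i0 := by
      rw [mul_div_cancel_right₀ _ (hu i0), mul_zpow, ← zpow_mul, ← zpow_mul, zpow_sub₀ hx0,
        zpow_sub₀ hw0, mul_comm a0, mul_comm b0]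
      have := zpow_ne_zero (m * a0) hx0
      have := zpow_ne_zero (m * b0) hw0
      have := hu i0
      field_simp
    rwa [e4] at e3
  obtain ⟨M, hM⟩ := ((eventually_all.2 fun i0 => key 1 0 i0 i0).and
    ((eventually_all.2 fun i0 => key 0 1 i0 i0).and
      (eventually_all.2 fun i0 => eventually_all.2 fun i => key 0 0 i i0))).exists
  refine ⟨M, fun i0 P hP hP' hs => ⟨?_, ?_, fun i => ?_⟩⟩
  · simpa [hu i0] using hM.1 i0 P hP hP' hs
  · simpa [hu i0] using hM.2.1 i0 P hP hP' hs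
  · simpa using hM.2.2 i0 i P hP hP' hs

/-- A lattice basis of the values of finitely many elements. -/
theorem exists_eps (K : IntermediateField k Ω) {Z : Set Ω} (hZ : Z.Finite)
    (h : ∀ z ∈ Z, z ∈ K ∧ z ≠ 0) : ∃ (r : ℕ) (ε : Fin r → Ω), (∀ l, ε l ∈ K ∧ ε l ≠ 0) ∧
      LinearIndependent ℤ (fun l => nu (ε l)) ∧
      (∀ l, nu (ε l) ∈ AddSubgroup.closure (nu '' Z)) ∧
      ∀ z ∈ Z, ∃ s : Fin r → ℤ, nu z = ∑ l, s l * nu (ε l) := by
  set Λ := AddSubgroup.closure (nu '' Z)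
  obtain ⟨r, B, -⟩ := exists_lattice_basis (Λ := Λ)
    ((AddSubgroup.fg_iff _).2 ⟨_, rfl, hZ.image _⟩)
  have hle : Λ ≤ vg K := (AddSubgroup.closure_le _).2 (by
    rintro _ ⟨z, hz, rfl⟩; exact ⟨z, (h z hz).1, (h z hz).2, rfl⟩)
  choose ε h1 h2 h3 using fun l => hle (B l).2
  refine ⟨r, ε, fun l => ⟨h1 l, h2 l⟩, ?_, fun l => h3 l ▸ (B l).2, fun z hz => ?_⟩
  · simp only [h3]
    exact B.linearIndependent.map' Λ.subtype.toIntLinearMap
      (LinearMap.ker_eq_bot.2 Subtype.val_injective)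
  · refine ⟨fun l => B.repr ⟨nu z, AddSubgroup.subset_closure ⟨z, hz, rfl⟩⟩ l, ?_⟩
    have := congrArg Subtype.val (B.sum_repr ⟨nu z, AddSubgroup.subset_closure ⟨z, hz, rfl⟩⟩)
    simp only [h3]
    rw [AddSubgroup.val_finsetSum] at this
    simp only [AddSubgroup.coe_zsmul, zsmul_eq_mul] at this
    exact this.symm

variable (k) in
/-- `z` is close to a constant multiple of a Laurent monomial. -/
def Near {r : ℕ} (ε : Fin r → Ω) (L : ℝ) (z : Ω) : Prop :=
  ∃ (s : Fin r → ℤ) (c : k), c ≠ 0 ∧ ‖z / (c • ∏ l, ε l ^ s l) - 1‖ ≤ L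

section near

variable [IsUltrametricDist Ω] {r : ℕ} {ε : Fin r → Ω} {L : ℝ}

theorem Near.mul (h0 : ∀ l, ε l ≠ 0) (hL : L < 1) {a b : Ω} (ha : Near k ε L a)
    (hb : Near k ε L b) : Near k ε L (a * b) := by
  obtain ⟨s, c, hc, ha⟩ := ha
  obtain ⟨s', c', hc', hb⟩ := hb
  refine ⟨s + s', c * c', mul_ne_zero hc hc', ?_⟩
  have := norm_mul_sub_one hL ha hb
  rw [div_mul_div_comm, smul_mul_smul_comm, ← Finset.prod_mul_distrib] at this
  simpa only [Pi.add_apply, zpow_add₀ (h0 _)] using this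

theorem Near.zpow (hL : L < 1) {a : Ω} (ha : Near k ε L a) (m : ℤ) : Near k ε L (a ^ m) := by
  obtain ⟨s, c, hc, ha⟩ := ha
  refine ⟨fun l => s l * m, c ^ m, zpow_ne_zero _ hc, ?_⟩
  have := (Tri.zpow hL (δ := 0) (l := 0) ⟨ha, ha, by simp, by simp⟩ m).h1
  rw [div_zpow, Algebra.smul_def, mul_zpow, ← Finset.prod_zpow, ← map_zpow₀,
    ← Algebra.smul_def] at this
  simpa only [zpow_mul] using this

omit [IsUltrametricDist Ω] in
theorem nu_prod_zpow (h0 : ∀ l, ε l ≠ 0) (s : Fin r → ℤ) :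
    nu (∏ l, ε l ^ s l) = ∑ l, s l * nu (ε l) := by
  rw [Init.nu_prod _ _ fun l _ => zpow_ne_zero _ (h0 l)]
  simp only [nu_zpow]

variable [Ctx k Ω]

theorem exists_near (h0 : ∀ l, ε l ≠ 0) {Z : Set Ω} (hZ : Z.Finite) (hZ0 : ∀ z ∈ Z, z ≠ 0)
    (h : ∀ z ∈ Z, ∃ s : Fin r → ℤ, nu z = ∑ l, s l * nu (ε l)) :
    ∃ L : ℝ, 0 ≤ L ∧ L < 1 ∧ ∀ z ∈ Z, Near k ε L z := by
  have key : ∀ z ∈ Z, ∀ᶠ L in 𝓝[<] (1 : ℝ), Near k ε L z := fun z hz => by
    obtain ⟨s, hs⟩ := h z hz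
    have hm : ∏ l, ε l ^ s l ≠ 0 := Finset.prod_ne_zero_iff.2 fun l _ => zpow_ne_zero _ (h0 l)
    have h1 : ‖z / ∏ l, ε l ^ s l‖ = 1 := by
      rw [norm_div, norm_eq_of_nu_eq (hZ0 z hz) hm (by rw [nu_prod_zpow h0, hs]),
        div_self (norm_ne_zero_iff.2 hm)]
    obtain ⟨c, hc, h2⟩ := exists_res_ne_zero k h1
    have hc' : algebraMap k Ω c ≠ 0 := (_root_.map_ne_zero _).2 hc
    have h3 : z / (c • ∏ l, ε l ^ s l) - 1 =
        (z / ∏ l, ε l ^ s l - algebraMap k Ω c) / algebraMap k Ω c := by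
      rw [Algebra.smul_def]; field_simp
    filter_upwards [nhdsWithin_le_nhds (eventually_ge_nhds h2)] with L hL
    exact ⟨s, c, hc, by rwa [h3, norm_div, Ctx.norm_alg c hc, div_one]⟩
  obtain ⟨L, h1, h2, h3⟩ := (((eventually_all_finite hZ).2 key).and
    (((eventually_ge_nhds zero_lt_one).filter_mono nhdsWithin_le_nhds).and
      self_mem_nhdsWithin)).exists
  exact ⟨L, h2, h3, h1⟩

theorem norm_of_near (hL : L < 1) {z : Ω} {s : Fin r → ℤ} {c : k} (hc : c ≠ 0)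
    (h : ‖z / (c • ∏ l, ε l ^ s l) - 1‖ ≤ L) : ‖∏ l, ε l ^ s l‖ = ‖z‖ := by
  have h1 := norm_eq_one_of (h.trans_lt hL)
  rw [norm_div, norm_smul_eq_self hc] at h1
  exact (eq_of_div_eq_one h1).symm

end near

/-- Exponent vectors generating the lattice contain a family with nonzero determinant. -/
theorem exists_det {r : ℕ} {γ : Fin r → ℝ} (hγ : LinearIndependent ℤ γ) {τ : Type*}
    (s : τ → Fin r → ℤ) (A : Set τ)
    (h : ∀ H : AddSubgroup ℝ, (∀ t ∈ A, ∑ l, s t l * γ l ∈ H) → ∀ l, γ l ∈ H) :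
    ∃ t : Fin r → τ, (∀ i, t i ∈ A) ∧ (Matrix.of fun i l => (s (t i) l : k)).det ≠ 0 := by
  classical
  set S : Set (Fin r → k) := (fun t l => (s t l : k)) '' A
  let H : AddSubgroup ℝ :=
    { carrier := {α | ∃ v : Fin r → ℤ, α = ∑ l, v l * γ l ∧
        (fun l => (v l : k)) ∈ Submodule.span k S}
      zero_mem' := ⟨0, by simp, by
        simp only [Pi.zero_apply, Int.cast_zero]; exact (Submodule.span k S).zero_mem⟩
      add_mem' := by
        rintro _ _ ⟨v, rfl, hv⟩ ⟨v', rfl, hv'⟩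
        exact ⟨v + v', by simp [add_mul, Finset.sum_add_distrib], by
          simp only [Pi.add_apply, Int.cast_add]; exact add_mem hv hv'⟩
      neg_mem' := by
        rintro _ ⟨v, rfl, hv⟩
        exact ⟨-v, by simp, by simp only [Pi.neg_apply, Int.cast_neg]; exact neg_mem hv⟩ }
  have htop : Submodule.span k S = ⊤ := by
    refine (Submodule.eq_top_iff_forall_basis_mem (Pi.basisFun k (Fin r))).2 fun l => ?_
    obtain ⟨v, hv, hv'⟩ := h H (fun t ht => ⟨s t, rfl, Submodule.subset_span ⟨t, ht, rfl⟩⟩) l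
    have h1 : v = Pi.single l 1 := by
      refine funext (Fintype.linearIndependent_iffₛ.1 hγ _ _ ?_)
      simp [← hv, Pi.single_apply]
    have h2 : Pi.basisFun k (Fin r) l = fun i => (v i : k) := by
      ext i; simp [h1, Pi.single_apply]
    rwa [h2]
  have hr : Module.finrank k (Submodule.span k S) = r := by rw [htop]; simp
  obtain ⟨f, hf, -, hli⟩ := Submodule.exists_fun_fin_finrank_span_eq k S
  choose t ht ht' using hf
  refine ⟨fun i => t (Fin.cast hr.symm i), fun i => ht _, ?_⟩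
  refine ((Matrix.isUnit_iff_isUnit_det _).1 (Matrix.linearIndependent_rows_iff_isUnit.1 ?_)).ne_zero
  have := hli.comp _ (Fin.cast_injective hr.symm)
  exact (congrArg (fun v : Fin r → Fin r → k => LinearIndependent k v)
    (funext fun i => (ht' _).symm)).mp this

theorem exists_lin {σ : Type*} {v : σ → Ω} (hv : LinearIndependent k v) (g : σ → Ω) :
    ∃ f : Ω →ₗ[k] Ω, ∀ i, f (v i) = g i := by
  obtain ⟨f, hf⟩ := LinearMap.exists_extend ((Module.Basis.span hv).constr k g)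
  refine ⟨f, fun i => ?_⟩
  have := LinearMap.congr_fun hf (Module.Basis.span hv i)
  rwa [Module.Basis.constr_basis, LinearMap.comp_apply, Submodule.subtype_apply,
    Module.Basis.span_apply] at this

theorem finite_bad [IsUltrametricDist Ω] [Ctx k Ω] {a b : Ω} {ρ : ℝ} (h : ρ ≤ ‖a‖) :
    {c : k | ¬ ρ ≤ ‖a - c • b‖}.Finite := by
  refine Set.Subsingleton.finite fun c hc c' hc' => ?_
  by_contra hne
  have h1 : ‖(c' - c) • b‖ < ρ := by
    have : (c' - c) • b = (a - c • b) - (a - c' • b) := by rw [sub_smul]; abel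
    rw [this]
    exact norm_sub_lt_of (not_le.1 hc) (not_le.1 hc')
  rw [norm_smul_eq_self (sub_ne_zero.2 (Ne.symm hne))] at h1
  have h2 := norm_add_lt_of (not_le.1 hc) ((norm_smul_le_self c b).trans_lt h1)
  rw [sub_add_cancel] at h2
  exact absurd h (not_le.2 h2)

end Kill

end Pool.Agent.MP_19ffc6_ag.LU3

end MrgPart1

-- ======== part 2: formerly Pool.Agent.MP_19ffc6_ag.LU3.Kill
section MrgPart2

/-! PROJECT LU3, section 4: the second projection makes a base field full. -/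

namespace Pool.Agent.MP_19ffc6_ag.LU3

open IntermediateField Pool.Agent.MP_19ffc6_ag.LU Mh Orth Filter Topology

universe u

variable {k : Type*} {Ω : Type u} [Field k] [NontriviallyNormedField Ω] [Algebra k Ω]

namespace Kill

variable (k) in
/-- The span of the monomials in a box. -/
def pbox {s : Type*} [Fintype s] (t : s → Ω) (A : s → ℕ) : Submodule k Ω :=
  Submodule.span k {x | ∃ I : s → ℕ, I ≤ A ∧ x = ∏ i, t i ^ I i}

variable (k) in
/-- The span of the ratios of norm less than one with fixed denominator. -/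
def ratio {io : Type*} (u : io → Ω) (j : io) : Submodule k Ω :=
  Submodule.span k {x | ∃ i, ‖u i‖ < ‖u j‖ ∧ x = u i / u j}

/-- Growth of the powers of a space. -/
def Growth (K : IntermediateField k Ω) (V : Submodule k Ω) (n G : ℕ) : Prop :=
  ∀ MM : Submodule k Ω, MM.FG → (∀ x ∈ MM, x ∈ K) → ∃ B : ℕ, ∀ l : ℕ,
    Module.finrank k (MM * V ^ l : Submodule k Ω) ≤ G * (l + B) ^ n

variable (k Ω) in
/-- The growth bound for spaces in a box. -/
def GrowStmt : Prop :=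
  ∀ (s m : Type) [Fintype s] [Fintype m] (K : IntermediateField k Ω) (t : s → Ω) (η : m → Ω),
    (∀ l, η l ∈ K) → (∀ x ∈ K, x ∈ Submodule.span (adjoin k (Set.range t)) (Set.range η)) →
    ∃ C : ℕ, ∀ (A : s → ℕ) (V : Submodule k Ω),
      V ≤ pbox k t A * Submodule.span k (Set.range η) →
      Growth K V (Fintype.card s) (Fintype.card m * ∏ i, (A i + C))

variable (k Ω) in
/-- The projection theorem. -/
def AlbStmt (p : ℕ) : Prop :=
  ∀ K : IntermediateField k Ω, Algebra.IsAlgebraic K Ω → ∀ n : ℕ, Algebra.trdeg k K = n →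
    ∀ (io : Type) [Fintype io] (u : io → Ω), (∀ i, u i ∈ K ∧ u i ≠ 0) →
    (Function.Injective fun i => ‖u i‖) → ∀ G : ℕ,
    Growth K (Submodule.span k (Set.range u)) n G → ∀ JJ : Finset io,
    n.factorial * G < p * JJ.card →
    (∀ j ∈ JJ, ∀ x ∈ K, IsAlgebraic (adjoin k (ratio k u j : Set Ω)) x) →
    ∀ Φ : io → (Fin n → Ω) → Prop,
    (∀ j ∈ JJ, ∃ τ : Fin n → Ω, (∀ i, τ i ∈ ratio k u j) ∧ Φ j τ) →
    (∀ j ∈ JJ, ∀ τ : Fin n → Ω, (∀ i, τ i ∈ ratio k u j) → Φ j τ → ∀ i, ∀ z ∈ ratio k u j,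
      {c : k | ¬ Φ j (Function.update τ i (τ i - c • z))}.Finite) →
    ∃ j ∈ JJ, ∃ b : Fin n → Ω, (∀ i, b i ∈ ratio k u j) ∧ Φ j b ∧ AlgebraicIndependent k b ∧
      relrank (hens (adjoin k (Set.range b))) (hens K) < p

/-- The conclusion. -/
def Out (p n : ℕ) (K : IntermediateField k Ω) : Prop :=
  ∃ c : Fin n → Ω, AlgebraicIndependent k c ∧ (∀ i, c i ∈ hens K) ∧
    relrank (hens (adjoin k (Set.range c))) (hens K) < p ∧
    ((LinearIndependent ℤ fun i => nu (c i)) ∨ ∃ i, QFull (adjoin k (c '' {i}ᶜ)))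

/-- The determinant of the logarithmic derivatives. -/
noncomputable def jdet {r n : ℕ} (hr : r ≤ n) (D : Fin r → Ω →ₗ[k] Ω) (τ : Fin n → Ω) : Ω :=
  (Matrix.of fun i l : Fin r => D l (τ (Fin.castLE hr i))).det

theorem jdet_update {r n : ℕ} (hr : r ≤ n) (D : Fin r → Ω →ₗ[k] Ω) (τ : Fin n → Ω) (i : Fin n)
    (z : Ω) : ∃ B : Ω, ∀ c : k,
      jdet hr D (Function.update τ i (τ i - c • z)) = jdet hr D τ - c • B := by
  by_cases h : (i : ℕ) < r
  · have hi : i = Fin.castLE hr ⟨i, h⟩ := rfl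
    have key : ∀ v : Ω, jdet hr D (Function.update τ i v) =
        ((Matrix.of fun i l : Fin r => D l (τ (Fin.castLE hr i))).updateRow ⟨i, h⟩
          fun l => D l v).det := fun v => by
      unfold jdet
      congr 1
      ext i' l
      rw [Matrix.updateRow_apply, Matrix.of_apply, Matrix.of_apply]
      split_ifs with h'
      · rw [h', ← hi, Function.update_self]
      · rw [Function.update_of_ne fun h'' : Fin.castLE hr i' = i =>
          h' (Fin.ext (congrArg Fin.val h'' :))]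
    refine ⟨jdet hr D (Function.update τ i z), fun c => ?_⟩
    have h1 : (fun l => D l (τ i - c • z)) =
        (fun l => D l (τ i)) + (-algebraMap k Ω c) • fun l => D l z := by
      ext l
      rw [map_sub, map_smul]
      simp [sub_eq_add_neg, Algebra.smul_def]
    rw [key, h1, Matrix.det_updateRow_add, Matrix.det_updateRow_smul, ← key, ← key,
      Function.update_eq_self, Algebra.smul_def]
    ring
  · refine ⟨0, fun c => ?_⟩
    rw [smul_zero, sub_zero]
    unfold jdet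
    congr 1
    ext i' l
    rw [Matrix.of_apply, Matrix.of_apply, Function.update_of_ne
      fun h' : Fin.castLE hr i' = i => h (by rw [← h']; exact i'.2)]

variable [IsUltrametricDist Ω] [Ctx k Ω]

/-- From the projection to the new coordinates. -/
theorem finish [IsAlgClosed Ω] {p n r : ℕ} (hr : r ≤ n) {K : IntermediateField k Ω}
    (halg : Algebra.IsAlgebraic K Ω) (hn : Algebra.trdeg k Ω = n) {ε : Fin r → Ω}
    (hε : ∀ l, ε l ∈ K ∧ ε l ≠ 0) (hli : LinearIndependent ℤ fun l => nu (ε l))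
    (hfull : ∀ V : Submodule ℚ ℝ, (∀ l, nu (ε l) ∈ V) → ∀ a : Ω, nu a ∈ V)
    {T : Type*} [Fintype T] {ρ : T → Ω} (hρ : ∀ t, ρ t ∈ K ∧ ‖ρ t‖ ≤ 1) {s : T → Fin r → ℤ}
    {c : T → k} (hc : ∀ t, c t ≠ 0) {L : ℝ} (hL0 : 0 ≤ L) (hL1 : L < 1)
    (hL : ∀ t, ‖ρ t / (c t • ∏ l, ε l ^ s t l) - 1‖ ≤ L) {D : Fin r → Ω →ₗ[k] Ω}
    (hD : ∀ l t, D l (ρ t) = (c t • ∏ l, ε l ^ s t l) * s t l) {b : Fin n → Ω}
    (hb : ∀ i, b i ∈ Submodule.span k (Set.range ρ)) (hind : AlgebraicIndependent k b)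
    (hJ : L < ‖jdet hr D b‖ ^ 2) (hdeg : relrank (hens (adjoin k (Set.range b))) (hens K) < p) :
    Out p n K := by
  have hbK : ∀ i, b i ∈ K := fun i =>
    (Submodule.span_le (p := Subalgebra.toSubmodule K.toSubalgebra)).2
      (by rintro _ ⟨t, rfl⟩; exact (hρ t).1) (hb i)
  choose β hβ using fun i => (Submodule.mem_span_range_iff_exists_fun k).1 (hb i)
  have hm : ∀ t, ‖∏ l, ε l ^ s t l‖ ≤ 1 := fun t =>
    (norm_of_near hL1 (hc t) (hL t)).trans_le (hρ t).2
  obtain ⟨ε', hε', hsol⟩ := mh K ε hε s hm (fun i t => β (Fin.castLE hr i) t * c t)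
    (fun i => b (Fin.castLE hr i)) (fun i => hbK _) (hind.comp _ (Fin.castLE_injective hr)) L hL0
    (fun i => by
      rw [← hβ, ← Finset.sum_sub_distrib]
      refine norm_sum_le_of hL0 fun t _ => ?_
      have h0 : c t • ∏ l, ε l ^ s t l ≠ 0 := smul_ne_zero (hc t)
        (Finset.prod_ne_zero_iff.2 fun l _ => zpow_ne_zero _ (hε l).2)
      have h1 : ρ t - c t • ∏ l, ε l ^ s t l =
          (c t • ∏ l, ε l ^ s t l) * (ρ t / (c t • ∏ l, ε l ^ s t l) - 1) := by
        rw [mul_sub, mul_div_cancel₀ _ h0, mul_one]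
      rw [mul_smul, ← smul_sub, h1]
      refine (norm_smul_le_self _ _).trans ?_
      simpa using norm_mul_le_of ((norm_smul_le_self _ _).trans (hm t)) (hL t))
    (by
      refine hJ.trans_eq (congrArg (fun A : Matrix (Fin r) (Fin r) Ω => ‖A.det‖ ^ 2) ?_)
      ext i l
      simp only [Matrix.of_apply, ← hβ, map_sum, map_smul, hD, mul_smul, smul_mul_assoc])
  let e : Fin n → Ω := fun i => if h : (i : ℕ) < r then ε' ⟨i, h⟩ else b i
  have he1 : ∀ l, e (Fin.castLE hr l) = ε' l := fun l => dif_pos l.2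
  have heK : ∀ i, e i ∈ hens K := fun i => by
    simp only [e]
    split_ifs
    exacts [(hε' _).1, le_hens K (hbK i)]
  have hbe : adjoin k (Set.range b) ≤ adjoin k (Set.range e) := adjoin_le_iff.2 (by
    rintro _ ⟨i, rfl⟩
    by_cases h : (i : ℕ) < r
    · rw [show b i = _ from hsol ⟨i, h⟩]
      exact sum_mem fun t _ => IntermediateField.smul_mem _
        (prod_mem fun l _ => zpow_mem (subset_adjoin _ _ (he1 l ▸ Set.mem_range_self _)) _)
    · exact subset_adjoin _ _ ⟨i, dif_neg h⟩)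
  have hba : Algebra.IsAlgebraic (adjoin k (Set.range b)) Ω :=
    (hind.isTranscendenceBasis_of_lift_trdeg_le_of_finite (by simp [hn])).isAlgebraic_field
  have := isAlgebraic_adjoin_iff_top.1 (alg_of_le hbe hba)
  have hnu : ∀ l, nu (ε' l) = nu (ε l) := fun l => nu_eq_of_norm_eq (hε' l).2
  refine ⟨e, (Algebra.IsAlgebraic.isTranscendenceBasis_of_lift_le_trdeg_of_finite k e
    (by simp [hn])).1, heK, lt_of_le_of_lt ?_ hdeg, ?_⟩
  · have h2 : hens (adjoin k (Set.range e)) ≤ hens K :=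
      HensB.hens_le _ (alg_hens halg) (hens_isHens K halg) _
        (adjoin_le_iff.2 (by rintro _ ⟨i, rfl⟩; exact heK i))
    rw [← relrank_mul_relrank (hens_mono hbe) h2]
    refine Cardinal.le_mul_left ?_
    rw [relrank_eq_rank_of_le (hens_mono hbe)]
    exact rank_pos.ne'
  · rcases hr.eq_or_lt with rfl | hlt
    · refine Or.inl ?_
      exact (congrArg (fun v : Fin r → ℝ => LinearIndependent ℤ v)
        (funext fun l => by rw [← hnu, ← he1]; rfl)).mp hli
    · refine Or.inr ⟨⟨r, hlt⟩, fun a _ => hfull _ (fun l => ?_) a⟩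
      rw [← hnu]
      exact nu_mem_qv (subset_adjoin _ _ ⟨Fin.castLE hr l, fun h => l.2.ne (congrArg Fin.val h),
        he1 l⟩)

/-- The starting tuple with a large determinant. -/
theorem start {n r : ℕ} (hr : r ≤ n) {ε : Fin r → Ω} (hε : ∀ l, ε l ≠ 0)
    (hli : LinearIndependent ℤ fun l => nu (ε l)) {T : Type*} {ρ : T → Ω} (hρ : ∀ t, ρ t ≠ 0)
    {s : T → Fin r → ℤ} {c : T → k} (hc : ∀ t, c t ≠ 0) {L : ℝ} (hL1 : L < 1)
    (hL : ∀ t, ‖ρ t / (c t • ∏ l, ε l ^ s t l) - 1‖ ≤ L) {D : Fin r → Ω →ₗ[k] Ω}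
    (hD : ∀ l t, D l (ρ t) = (c t • ∏ l, ε l ^ s t l) * s t l) {σ : ℝ} (A : Set T)
    (hA : ∀ t ∈ A, nu (ρ t) ≤ σ)
    (hgen : ∀ H : AddSubgroup ℝ, (∀ t ∈ A, nu (ρ t) ∈ H) → ∀ l, nu (ε l) ∈ H) :
    ∃ τ : Fin n → Ω, (∀ i, τ i ∈ Submodule.span k (ρ '' A)) ∧
      Real.exp (-σ) ^ r ≤ ‖jdet hr D τ‖ := by
  obtain ⟨t, ht, hdet⟩ := exists_det (k := k) hli s A fun H hH => hgen H fun t ht => by
    rw [← nu_eq_of_norm_eq (norm_of_near hL1 (hc t) (hL t)), nu_prod_zpow hε]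
    exact hH t ht
  refine ⟨fun i => if h : (i : ℕ) < r then ρ (t ⟨i, h⟩) else 0, fun i => ?_, ?_⟩
  · simp only
    split_ifs
    exacts [Submodule.subset_span ⟨_, ht _, rfl⟩, zero_mem _]
  have h1 : jdet hr D (fun i => if h : (i : ℕ) < r then ρ (t ⟨i, h⟩) else 0) =
      (∏ i, c (t i) • ∏ l, ε l ^ s (t i) l) *
        algebraMap k Ω (Matrix.of fun i l => (s (t i) l : k)).det := by
    rw [RingHom.map_det, ← Matrix.det_mul_column]
    unfold jdet
    congr 1
    ext i l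
    simp [hD]
  rw [h1, norm_mul, Ctx.norm_alg _ hdet, mul_one, norm_prod, ← Fin.prod_const]
  refine Finset.prod_le_prod (fun _ _ => (Real.exp_pos _).le) fun i _ => ?_
  rw [norm_smul_eq_self (hc _), norm_of_near hL1 (hc _) (hL _), norm_eq_exp (hρ _)]
  exact Real.exp_le_exp.2 (neg_le_neg (hA _ (ht i)))

omit [IsUltrametricDist Ω] [Ctx k Ω] in
theorem lsp_clear {x : Ω} (hx : x ≠ 0) {S : Set Ω} {z : Ω} (hz : z ∈ lsp k x S) :
    ∀ᶠ e : ℕ in atTop,
      x ^ e * z ∈ Submodule.span k {v | ∃ a : ℕ, a ≤ 2 * e ∧ ∃ y ∈ S, v = x ^ a * y} := by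
  induction hz using Submodule.span_induction with
  | mem z hz =>
    obtain ⟨a, y, hy, rfl⟩ := hz
    filter_upwards [eventually_ge_atTop a.natAbs] with e he
    refine Submodule.subset_span ⟨(e + a).toNat, by omega, y, hy, ?_⟩
    rw [← mul_assoc, ← zpow_natCast, ← zpow_add₀ hx, ← zpow_natCast,
      Int.toNat_of_nonneg (by omega)]
  | zero => simp
  | add y z _ _ hy hz =>
    filter_upwards [hy, hz] with e h1 h2
    rw [mul_add]; exact add_mem h1 h2
  | smul c y _ hy =>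
    filter_upwards [hy] with e h1
    rw [mul_smul_comm]; exact Submodule.smul_mem _ c h1

omit [IsUltrametricDist Ω] [Ctx k Ω] in
theorem poly_mem {m : ℕ} {x : Ω} {t : Fin m → Ω} {z : Ω}
    (hz : z ∈ Algebra.adjoin k (Set.range (Fin.cons x t : Fin (m + 1) → Ω))) :
    ∀ᶠ N : ℕ in atTop, z ∈ lsp k x {v | ∃ I : Fin m → Fin (N + 1), v = ∏ l, t l ^ (I l : ℕ)} := by
  rw [Algebra.adjoin_range_eq_range_aeval] at hz
  obtain ⟨P, rfl⟩ := hz
  filter_upwards [eventually_ge_atTop P.totalDegree] with N hN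
  show MvPolynomial.aeval _ P ∈ _
  rw [MvPolynomial.aeval_def, MvPolynomial.eval₂_eq']
  refine sum_mem fun d hd => ?_
  rw [← Algebra.smul_def, Fin.prod_univ_succ, Fin.cons_zero, ← zpow_natCast]
  refine Submodule.smul_mem _ _ (mem_lsp _ ⟨fun l => ⟨d l.succ, Nat.lt_succ_of_le ?_⟩, by simp⟩)
  exact ((MvPolynomial.monomial_le_degreeOf _ hd).trans
    (MvPolynomial.degreeOf_le_totalDegree _ _)).trans hN

theorem norm_of_lsp {x : Ω} (hx0 : x ≠ 0) (hx1 : ‖x‖ < 1) {κ : Type*} {u : κ → Ω}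
    (hu0 : ∀ i, u i ≠ 0) (hu : ∀ i j, ∀ a : ℤ, ‖u i‖ = ‖x‖ ^ a * ‖u j‖ → i = j) {z : Ω}
    (hz : z ∈ lsp k x (Set.range u)) (h0 : z ≠ 0) :
    ∃ (a : ℤ) (i : κ), nu z = a * nu x + nu (u i) := by
  have hx := norm_pos_iff.2 hx0
  obtain ⟨⟨a, i⟩, h⟩ := norm_eq_of_mem_span (k := k) (v := fun q : ℤ × κ => x ^ q.1 * u q.2)
    (z := z) (by
      rintro ⟨a, i⟩ ⟨a', i'⟩ h
      simp only [norm_mul, norm_zpow] at h
      obtain rfl : i = i' := hu i i' (a' - a) (by
        rw [zpow_sub₀ hx.ne', div_mul_eq_mul_div, ← h, mul_div_cancel_left₀ _ (by positivity)])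
      rw [zpow_right_injective₀ hx hx1.ne (mul_right_cancel₀ (norm_ne_zero_iff.2 (hu0 i)) h)])
    (Submodule.span_mono (by rintro _ ⟨a, _, ⟨i, rfl⟩, rfl⟩; exact ⟨(a, i), rfl⟩) hz) h0
  exact ⟨a, i, by rw [nu_eq_of_norm_eq h, nu_mul (zpow_ne_zero _ hx0) (hu0 i), nu_zpow]⟩

theorem norm_inj {F : IntermediateField k Ω} {x w : Ω} (hx0 : x ≠ 0) (hx1 : ‖x‖ < 1)
    (hxF : x ∈ F) (hw0 : w ≠ 0) (hw : nu w ∉ qv F) {κ : Type*} {u : κ → Ω} (hu0 : ∀ i, u i ≠ 0)
    (hu : ∀ i j, ∀ a : ℤ, ‖u i‖ = ‖x‖ ^ a * ‖u j‖ → i = j) (huF : ∀ i, nu (u i) ∈ qv F)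
    {a a' b b' : ℕ} {i i' : κ} (h : ‖x ^ a * w ^ b * u i‖ = ‖x ^ a' * w ^ b' * u i'‖) :
    a = a' ∧ b = b' ∧ i = i' := by
  have hx := norm_pos_iff.2 hx0
  obtain rfl : b = b' := by
    by_contra hne
    have h1 := nu_eq_of_norm_eq h
    rw [nu_mul (by positivity) (hu0 i), nu_mul (by positivity) (hu0 i'),
      nu_mul (by positivity) (by positivity), nu_mul (by positivity) (by positivity)] at h1
    simp only [nu_pow] at h1
    refine hw (mem_of_mul_mem (d := b - b') (by omega) ?_)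
    have h2 : ((b - b' : ℤ) : ℝ) * nu w =
        ((a' - a : ℤ) : ℝ) * nu x + (nu (u i') - nu (u i)) := by push_cast; linarith
    rw [h2]
    exact add_mem (int_mul_mem _ (nu_mem_qv hxF)) (sub_mem (huF i') (huF i))
  simp only [norm_mul, norm_pow, mul_right_comm _ (‖w‖ ^ b)] at h
  replace h := mul_right_cancel₀ (pow_ne_zero _ (norm_ne_zero_iff.2 hw0)) h
  obtain rfl : i = i' := hu i i' (a' - a) (by
    rw [zpow_sub₀ hx.ne', zpow_natCast, zpow_natCast, div_mul_eq_mul_div, ← h,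
      mul_div_cancel_left₀ _ (by positivity)])
  exact ⟨pow_right_injective₀ hx hx1.ne (mul_right_cancel₀ (norm_ne_zero_iff.2 (hu0 i)) h),
    rfl, rfl⟩

/-- The second projection, given the orthogonal basis. -/
theorem second [IsAlgClosed Ω] {p n : ℕ} (ha : AlbStmt k Ω p) {K F : IntermediateField k Ω}
    (halg : Algebra.IsAlgebraic K Ω) (hn : Algebra.trdeg k Ω = n) {x w : Ω} (hx0 : x ≠ 0)
    (hx1 : ‖x‖ < 1) (hxF : x ∈ F) (hxK : x ∈ K) (hw0 : w ≠ 0) (hw : nu w ∉ qv F) (hwK : w ∈ K)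
    {κ : Type} [Fintype κ] {u : κ → Ω} (hu0 : ∀ i, u i ≠ 0)
    (hu : ∀ i j, ∀ a : ℤ, ‖u i‖ = ‖x‖ ^ a * ‖u j‖ → i = j) (huF : ∀ i, nu (u i) ∈ qv F)
    (huK : ∀ i, u i ∈ K) (h1 : (1 : Ω) ∈ lsp k x (Set.range u))
    (hfull : ∀ V : Submodule ℚ ℝ, nu x ∈ V → nu w ∈ V → (∀ i, nu (u i) ∈ V) → ∀ a : Ω, nu a ∈ V)
    (hE : ∀ E : IntermediateField k Ω, w ∈ E → (∀ z ∈ lsp k x (Set.range u), z ∈ E) →
      ∀ z ∈ K, IsAlgebraic E z)
    {G c : ℕ} (hG : n.factorial * G < p * Fintype.card κ)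
    (hgrow : ∀ R : ℕ, ∃ G' ≤ G * (R + c) ^ 2, Growth K (Submodule.span k (Set.range
      fun q : Fin (R + 1) × Fin (R + 1) × κ => x ^ (q.1 : ℕ) * w ^ (q.2.1 : ℕ) * u q.2.2)) n G') :
    Out p n K := by
  classical
  have hZf : (insert x (insert w (Set.range u))).Finite := Set.toFinite _
  have hZ : ∀ z ∈ insert x (insert w (Set.range u)), z ∈ K ∧ z ≠ 0 := by
    rintro _ (rfl | rfl | ⟨i, rfl⟩)
    exacts [⟨hxK, hx0⟩, ⟨hwK, hw0⟩, ⟨huK i, hu0 i⟩]
  obtain ⟨r, ε, hε, hli, hεZ, hZε⟩ := exists_eps K hZf hZ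
  have hε0 : ∀ l, ε l ≠ 0 := fun l => (hε l).2
  have hr : r ≤ n := by simpa using card_le_of_indep hn ε hε0 hli
  obtain ⟨L, hL0, hL1, hnear⟩ := exists_near (k := k) hε0 hZf (fun z hz => (hZ z hz).2) hZε
  obtain ⟨σ, hσL, hσ⟩ : ∃ σ : ℝ, L < (Real.exp (-σ) ^ r) ^ 2 ∧ 0 < σ := by
    have h2 : ContinuousAt (fun σ : ℝ => (Real.exp (-σ) ^ r) ^ 2) 0 := by fun_prop
    exact (((h2.eventually_const_lt (by simpa using hL1)).filter_mono
      (nhdsWithin_le_nhds (s := Set.Ioi 0))).and self_mem_nhdsWithin).exists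
  have hνx : 0 < nu x := (nu_pos_iff hx0).2 hx1
  obtain ⟨M, hM⟩ := small hx0 hw0 (by
    rintro ⟨q, hq⟩
    refine hw ?_
    have := (qv F).smul_mem q (nu_mem_qv hxF)
    rwa [Rat.smul_def, hq, div_mul_cancel₀ _ hνx.ne'] at this) u hu0 hσ
  obtain ⟨M', hM'⟩ := (count hG (2 * M + c) 2).exists
  obtain ⟨G', hG', hgr⟩ := hgrow (M' + 2 * M)
  set U := fun q : Fin (M' + 2 * M + 1) × Fin (M' + 2 * M + 1) × κ =>
    x ^ (q.1 : ℕ) * w ^ (q.2.1 : ℕ) * u q.2.2 with hU
  have hUK : ∀ q, U q ∈ K ∧ U q ≠ 0 := fun q =>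
    ⟨mul_mem (mul_mem (pow_mem hxK _) (pow_mem hwK _)) (huK _),
      mul_ne_zero (by positivity) (hu0 _)⟩
  have hUi : Function.Injective fun q => ‖U q‖ := fun q q' h => by
    obtain ⟨h2, h3, h4⟩ := norm_inj hx0 hx1 hxF hw0 hw hu0 hu huF h
    exact Prod.ext (Fin.ext h2) (Prod.ext (Fin.ext h3) h4)
  let f : Fin (M' + 1) ↪ Fin (M' + 2 * M + 1) :=
    ⟨fun a => ⟨a + M, by omega⟩, fun a a' h => Fin.ext (by simpa using h)⟩
  let JJ := Finset.univ.map (f.prodMap (f.prodMap (Function.Embedding.refl κ)))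
  have hρ0 : ∀ j q, U q / U j ≠ 0 := fun j q => div_ne_zero (hUK q).2 (hUK j).2
  have hgen : ∀ j ∈ JJ, ∀ P : Ω → Prop, (∀ a b, P a → P b → P (a * b)) →
      (∀ a (m : ℤ), P a → P (a ^ m)) →
      (∀ q, ‖U q‖ < ‖U j‖ → nu (U q / U j) ≤ σ → P (U q / U j)) →
      P x ∧ P w ∧ ∀ i, P (u i / u j.2.2) := by
    intro j hj P hP hP' hs
    obtain ⟨⟨a, b, i0⟩, -, rfl⟩ := Finset.mem_map.1 hj
    refine hM i0 P hP hP' fun α β i hα hβ h2 h3 => ?_
    rw [abs_le] at hα hβ
    have h4 : U (⟨(a + M + α).toNat, by omega⟩, ⟨(b + M + β).toNat, by omega⟩, i) /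
        U (f a, f b, i0) = x ^ α * w ^ β * u i / u i0 := by
      show x ^ (a + M + α : ℤ).toNat * w ^ (b + M + β : ℤ).toNat * u i /
        (x ^ (a + M : ℕ) * w ^ (b + M : ℕ) * u i0) = _
      rw [← zpow_natCast, ← zpow_natCast w, Int.toNat_of_nonneg (by omega),
        Int.toNat_of_nonneg (by omega), ← Nat.cast_add, ← Nat.cast_add, zpow_add₀ hx0,
        zpow_add₀ hw0, zpow_natCast, zpow_natCast]
      have := hu0 i0
      field_simp
    rw [← h4] at h2 h3 ⊢
    refine hs _ ?_ h3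
    rwa [nu_pos_iff (hρ0 _ _), norm_div, div_lt_one (norm_pos_iff.2 (hUK _).2)] at h2
  have hUn : ∀ q, Near k ε L (U q) := fun q => by
    refine Near.mul hε0 hL1 (Near.mul hε0 hL1 ?_ ?_) (hnear _ (by simp))
    · simpa using (hnear x (by simp)).zpow hL1 (q.1 : ℕ)
    · simpa using (hnear w (by simp)).zpow hL1 (q.2.1 : ℕ)
  choose s cc hcc hsc using fun j q : Fin (M' + 2 * M + 1) × Fin (M' + 2 * M + 1) × κ =>
    show Near k ε L (U q / U j) by
      simpa [div_eq_mul_inv] using Near.mul hε0 hL1 (hUn q) ((hUn j).zpow hL1 (-1))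
  choose D hD using fun (j : Fin (M' + 2 * M + 1) × Fin (M' + 2 * M + 1) × κ) (l : Fin r) =>
    exists_lin (linearIndependent_of_norm (k := k) (hρ0 j) fun q q' h => hUi (by
      simpa [norm_div, (hUK j).2] using h)) fun q => (cc j q • ∏ l, ε l ^ s j q l) * s j q l
  obtain ⟨j, -, b, hb, hΦ, hind, hdeg⟩ := ha K halg n ((trdeg_eq_of_alg halg).trans hn) _ U hUK hUi
    G' hgr JJ (by
      have h2 : JJ.card = (M' + 1) * ((M' + 1) * Fintype.card κ) := by simp [JJ]
      rw [h2]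
      calc n.factorial * G' ≤ n.factorial * G * (M' + (2 * M + c)) ^ 2 := by
            rw [mul_assoc, ← add_assoc]; exact Nat.mul_le_mul_left _ hG'
        _ < p * Fintype.card κ * M' ^ 2 := hM'
        _ ≤ p * Fintype.card κ * (M' + 1) ^ 2 := by gcongr; omega
        _ = _ := by ring)
    (fun j hj => by
      set E := adjoin k (ratio k U j : Set Ω)
      obtain ⟨h2, h3, h4⟩ := hgen j hj (· ∈ E) (fun _ _ => mul_mem) (fun _ m h => zpow_mem h m)
        fun q hq _ => subset_adjoin _ _ (Submodule.subset_span ⟨q, hq, rfl⟩)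
      have h5 : ∀ z ∈ lsp k x (Set.range u), z / u j.2.2 ∈ E := fun z hz => by
        induction hz using Submodule.span_induction with
        | mem z hz =>
          obtain ⟨a, _, ⟨i, rfl⟩, rfl⟩ := hz
          rw [mul_div_assoc]
          exact mul_mem (zpow_mem h2 a) (h4 i)
        | zero => simp
        | add y z _ _ hy hz => rw [add_div]; exact add_mem hy hz
        | smul c y _ hy => rw [smul_div_assoc]; exact E.smul_mem hy
      refine hE E h3 fun z hz => ?_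
      have h6 := div_mem (h5 z hz) (h5 1 h1)
      rwa [div_div_div_cancel_right₀ (hu0 _), div_one] at h6)
    (fun j τ => Real.exp (-σ) ^ r ≤ ‖jdet hr (D j) τ‖)
    (fun j hj => by
      obtain ⟨τ, h2, h3⟩ := start (n := n) hr hε0 hli (hρ0 j) (hcc j) hL1 (hsc j) (hD j)
        {q | ‖U q‖ < ‖U j‖ ∧ nu (U q / U j) ≤ σ} (fun q hq => hq.2) fun H hH l => by
          obtain ⟨h2, h3, h4⟩ := hgen j hj (fun z => z ≠ 0 ∧ nu z ∈ H)
            (fun a b ha hb => ⟨mul_ne_zero ha.1 hb.1, by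
              rw [nu_mul ha.1 hb.1]; exact add_mem ha.2 hb.2⟩)
            (fun a m ha => ⟨zpow_ne_zero _ ha.1, by rw [nu_zpow]; exact intCast_mul_mem ha.2 m⟩)
            fun q hq hq' => ⟨hρ0 j q, hH q ⟨hq, hq'⟩⟩
          obtain ⟨a, i1, h5⟩ := norm_of_lsp hx0 hx1 hu0 hu h1 one_ne_zero
          refine (AddSubgroup.closure_le H).2 ?_ (hεZ l)
          rintro _ ⟨_, rfl | rfl | ⟨i, rfl⟩, rfl⟩
          · exact h2.2
          · exact h3.2
          · have h6 := sub_mem (sub_mem (h4 i).2 (h4 i1).2) (intCast_mul_mem h2.2 a)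
            rw [nu_div (hu0 _) (hu0 _), nu_div (hu0 _) (hu0 _)] at h6
            rw [nu_one] at h5
            have h7 : nu (u i) = nu (u i) - nu (u j.2.2) - (nu (u i1) - nu (u j.2.2)) -
              a * nu x := by linarith
            rwa [h7]
      exact ⟨τ, fun i => Submodule.span_mono
        (by rintro _ ⟨q, hq, rfl⟩; exact ⟨q, hq.1, rfl⟩) (h2 i), h3⟩)
    (fun j _ τ _ hτ i z _ => by
      obtain ⟨B, hB⟩ := jdet_update hr (D j) τ i z
      simp only [hB]
      exact finite_bad hτ)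
  refine finish hr halg hn hε hli (fun V hV => ?_) (T := {q // ‖U q‖ < ‖U j‖})
    (ρ := fun q => U q / U j) (fun q => ⟨div_mem (hUK _).1 (hUK _).1, ?_⟩) (fun q => hcc j q) hL0
    hL1 (fun q => hsc j q) (fun l q => hD j l q) (fun i => Submodule.span_mono ?_ (hb i)) hind
    (hσL.trans_le (pow_le_pow_left₀ (by positivity) hΦ 2)) hdeg
  · have h2 : ∀ z ∈ insert x (insert w (Set.range u)), nu z ∈ V := fun z hz => by
      obtain ⟨s, hs⟩ := hZε z hz
      rw [hs]
      exact sum_mem fun l _ => int_mul_mem _ (hV l)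
    exact hfull V (h2 _ (by simp)) (h2 _ (by simp)) fun i => h2 _ (by simp)
  · rw [norm_div]
    exact div_le_one_of_le₀ q.2.le (norm_nonneg _)
  · rintro _ ⟨q, hq, rfl⟩
    exact ⟨⟨q, hq⟩, rfl⟩

/-- Section 4 when no base field is full. -/
theorem core [IsAlgClosed Ω] {p : ℕ} (hg : GrowStmt k Ω) (ha : AlbStmt k Ω p) {m : ℕ}
    (b : Fin (m + 2) → Ω) (hind : AlgebraicIndependent k b) (hx1 : ‖b 0‖ < 1)
    (halg : Algebra.IsAlgebraic (adjoin k (Set.range b)) Ω) (hp : (m + 2).factorial < p)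
    (hnf : ∀ i : Fin (m + 1), ¬ QFull (adjoin k (b '' {i.succ}ᶜ))) :
    Out p (m + 2) (adjoin k (Set.range b)) := by
  classical
  have hx0 : b 0 ≠ 0 := hind.ne_zero 0
  set t : Fin m → Ω := fun l => b l.succ.succ with ht
  set K := adjoin k (Set.range b) with hK
  have hbK : ∀ i, b i ∈ K := fun i => subset_adjoin _ _ ⟨i, rfl⟩
  set F := adjoin k (Set.range (Fin.cons (b 0) t : Fin (m + 1) → Ω)) with hF
  have hxF : b 0 ∈ F := subset_adjoin _ _ ⟨0, rfl⟩
  have htF : ∀ l, t l ∈ F := fun l => subset_adjoin _ _ ⟨l.succ, rfl⟩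
  have hFle : ∀ E : IntermediateField k Ω, b 0 ∈ E → (∀ l, t l ∈ E) → F ≤ E := fun E h h' =>
    adjoin_le_iff.2 (by rintro _ ⟨i, rfl⟩; exact Fin.cases h h' i)
  have hFK : F ≤ K := hFle K (hbK 0) fun l => hbK _
  have hKle : ∀ E : IntermediateField k Ω, F ≤ E → K ≤ E ⊔ adjoin k {b 1} := fun E h =>
    adjoin_le_iff.2 (by
      rintro _ ⟨i, rfl⟩
      refine Fin.cases (le_sup_left (a := E) (h hxF)) (fun i => Fin.cases ?_ (fun l => ?_) i) i
      · exact le_sup_right (a := E) (mem_adjoin_simple_self k _)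
      · exact le_sup_left (a := E) (h (htF l)))
  have hF1 : F ≤ adjoin k (b '' {Fin.succ 0}ᶜ) :=
    hFle _ (subset_adjoin _ _ ⟨0, by simp, rfl⟩) fun l =>
      subset_adjoin _ _ ⟨l.succ.succ, fun h => Fin.succ_ne_zero l (Fin.succ_injective _ h), rfl⟩
  obtain ⟨w, D, hΦ⟩ := exists_phi (F := F) (y := b 1) (alg_of_le (hKle F le_rfl) halg) fun h =>
    hnf 0 fun a ha => qv_mono hF1 (h a ha)
  have hwK : w ∈ K := sup_le hFK (adjoin_simple_le_iff.2 (hbK 1))
    (mem_sup_iff_mem_adjoin.2 hΦ.w_mem)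
  obtain ⟨C, hC⟩ := hg (Fin (m + 2)) (Fin D) K (Fin.cons (b 0) (Fin.cons w t))
    (fun i => b 1 ^ (i : ℕ)) (fun i => pow_mem (hbK 1) _) fun z hz => by
      have h1 := hFle (adjoin k (Set.range (Fin.cons (b 0) (Fin.cons w t) : Fin (m + 2) → Ω)))
        (subset_adjoin _ _ ⟨0, rfl⟩) fun l => subset_adjoin _ _ ⟨l.succ.succ, rfl⟩
      exact (hΦ.int _ h1 (subset_adjoin _ _ ⟨1, rfl⟩)).2 z
        (mem_sup_iff_mem_adjoin.1 (hKle _ h1 hz))
  have hn := trdeg_eq hind halg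
  obtain ⟨B, hB, hBsp⟩ := exists_fin_span hn
    {z | z ∈ Algebra.adjoin k (Set.range (Fin.cons (b 0) t : Fin (m + 1) → Ω)) ∧ z ≠ 0}
    fun _ h => h.2
  obtain ⟨N, hN1, hN2, hN3⟩ := ((count hp C m).and
    (((eventually_all_finset B).2 fun z hz => poly_mem (hB hz).1).and
      (eventually_all.2 fun l : Fin m => poly_mem (k := k) (x := b 0) (t := t) (z := t l)
        (Algebra.subset_adjoin ⟨l.succ, rfl⟩)))).exists
  obtain ⟨u0, hu1, hu2, hu3⟩ := orth b hx0 hx1 halg hnf (σ := Fin D × (Fin m → Fin (N + 1)))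
    (fun q => Fin.cons (q.1 : ℕ) fun l => (q.2 l : ℕ)) fun q q' h =>
      Prod.ext (Fin.ext (congrFun h 0)) (funext fun l => Fin.ext (congrFun h l.succ))
  simp only [Fin.prod_univ_succ, Fin.cons_zero, Fin.cons_succ, Fin.succ_zero_eq_one] at hu1
  set v := fun q : Fin D × (Fin m → Fin (N + 1)) => b 1 ^ (q.1 : ℕ) * ∏ l, t l ^ (q.2 l : ℕ)
  obtain ⟨e, he⟩ := (eventually_all.2 fun i =>
    lsp_clear hx0 (hu1.le (subset_lsp (Set.mem_range_self i)))).exists
  have hlsp : lsp k (b 0) {z | ∃ I : Fin m → Fin (N + 1), z = ∏ l, t l ^ (I l : ℕ)} ≤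
      lsp k (b 0) (Set.range fun i => b 0 ^ e * u0 i) := by
    refine (lsp_mono ?_).trans (hu1.ge.trans (lsp_le hx0 ?_))
    · rintro _ ⟨I, rfl⟩
      exact ⟨(⟨0, hΦ.D_pos⟩, I), by simp [v]⟩
    · rintro _ ⟨i, rfl⟩
      simpa [hx0] using mem_lsp (k := k) (x := b 0) (-e : ℤ)
        (Set.mem_range_self (f := fun i => b 0 ^ e * u0 i) i)
  have hu0 : ∀ i, b 0 ^ e * u0 i ≠ 0 := fun i => mul_ne_zero (pow_ne_zero _ hx0) (hu2 i)
  have hu : ∀ i j, ∀ a : ℤ, ‖b 0 ^ e * u0 i‖ = ‖b 0‖ ^ a * ‖b 0 ^ e * u0 j‖ → i = j :=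
    fun i j a h => hu3 i j a (by
      rw [norm_mul, norm_mul, mul_left_comm] at h
      exact mul_left_cancel₀ (norm_ne_zero_iff.2 (pow_ne_zero _ hx0)) h)
  refine second ha halg hn hx0 hx1 hxF (hbK 0) hΦ.w_ne hΦ.w_not hwK hu0 hu (fun i => ?_)
    (fun i => ?_) (hlsp (subset_lsp ⟨0, by simp⟩)) (fun V h1 h2 h3 => ?_) (fun E h1 h2 z hz => ?_)
    (G := D * (N + C) ^ m) (c := 2 * e + C) ?_ fun R => ⟨_, ?_, Fintype.card_fin (m + 2) ▸
      hC (Fin.cons (R + 2 * e) (Fin.cons R fun _ => N)) _ ?_⟩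
  · refine hΦ.low _ ((Submodule.span_le (p := (Submodule.span F _).restrictScalars k)).2 ?_ (he i))
    rintro _ ⟨a, -, _, ⟨q, rfl⟩, rfl⟩
    have h1 := Submodule.smul_mem (Submodule.span F (Set.range fun i : Fin D => b 1 ^ (i : ℕ)))
      (⟨_, mul_mem (pow_mem hxF a) (prod_mem fun l (_ : l ∈ Finset.univ) =>
        pow_mem (htF l) (q.2 l))⟩ : F) (Submodule.subset_span ⟨q.1, rfl⟩)
    have h2 : b 0 ^ a * v q = b 0 ^ a * (∏ l, t l ^ (q.2 l : ℕ)) * b 1 ^ (q.1 : ℕ) := by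
      simp only [v]; ring
    rw [h2]
    exact h1
  · refine (Submodule.span_le (p := Subalgebra.toSubmodule K.toSubalgebra)).2 ?_ (he i)
    rintro _ ⟨a, -, _, ⟨q, rfl⟩, rfl⟩
    exact K.mul_mem (pow_mem (hbK 0) a)
      (mul_mem (pow_mem (hbK 1) _) (prod_mem fun l _ => pow_mem (hbK _) _))
  · refine hΦ.full V (Submodule.span_le.2 ?_) h2
    have h4 : ∀ z ∈ Algebra.adjoin k (Set.range (Fin.cons (b 0) t : Fin (m + 1) → Ω)),
        nu z ∈ V := fun z hz => by
      by_cases h0 : z = 0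
      · simp [h0, nu]
      refine Submodule.span_le.2 ?_ (hBsp z ⟨hz, h0⟩)
      rintro _ ⟨z, hz, rfl⟩
      obtain ⟨a, i, h⟩ := norm_of_lsp hx0 hx1 hu0 hu (hlsp (hN2 z hz)) (hB hz).2
      rw [SetLike.mem_coe, h]
      exact add_mem (int_mul_mem _ h1) (h3 i)
    rintro _ ⟨f, hf, -, rfl⟩
    obtain ⟨P, hP, Q, hQ, rfl⟩ := mem_adjoin_iff_div.1 hf
    exact nu_div_mem (h4 P hP) (h4 Q hQ)
  · have h3 : F ≤ E := hFle E (h2 _ (by
      simpa using zpow_mul_mem hx0 1 (hlsp (subset_lsp ⟨0, by simp⟩) : (1 : Ω) ∈ _)))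
      fun l => h2 _ (hlsp (hN3 l))
    refine mem_algebraicClosure_iff.1 ((adjoin_simple_le_iff.2 ?_ : adjoin E {b 1} ≤ _)
      (mem_sup_iff_mem_adjoin.1 (hKle E h3 hz)))
    exact mem_algebraicClosure_iff.2 (hΦ.int E h3 h1).1.isAlgebraic
  · have h1 : Fintype.card (Fin D × (Fin m → Fin (N + 1))) = D * (N + 1) ^ m := by simp
    rw [h1, mul_left_comm, mul_left_comm p]
    refine Nat.mul_lt_mul_of_pos_left (hN1.trans_le ?_) hΦ.D_pos
    gcongr; omega
  · simp only [Fin.prod_univ_succ, Fin.cons_zero, Fin.cons_succ, Fintype.card_fin,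
      Finset.prod_const, Finset.card_univ]
    calc D * ((R + 2 * e + C) * ((R + C) * (N + C) ^ m))
        ≤ D * ((R + 2 * e + C) * ((R + 2 * e + C) * (N + C) ^ m)) := by gcongr; omega
      _ = _ := by ring
  · refine Submodule.span_le.2 ?_
    rintro _ ⟨⟨a, a', i⟩, rfl⟩
    refine Submodule.mem_comap.1 ((Submodule.span_le (p := Submodule.comap
      (LinearMap.mulLeft k (b 0 ^ (a : ℕ) * w ^ (a' : ℕ))) _)).2 ?_ (he i))
    rintro _ ⟨a'', ha'', _, ⟨q, rfl⟩, rfl⟩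
    have h2 : b 0 ^ (a : ℕ) * w ^ (a' : ℕ) * (b 0 ^ a'' * v q) =
        (b 0 ^ (a + a'') * (w ^ (a' : ℕ) * ∏ l, t l ^ (q.2 l : ℕ))) * b 1 ^ (q.1 : ℕ) := by
      simp only [v]; ring
    rw [SetLike.mem_coe, Submodule.mem_comap, LinearMap.mulLeft_apply, h2]
    refine Submodule.mul_mem_mul (Submodule.subset_span
      ⟨Fin.cons (a + a'') (Fin.cons a' fun l => q.2 l), fun j => ?_, ?_⟩)
      (Submodule.subset_span ⟨q.1, rfl⟩)
    · refine Fin.cases ?_ (fun j => Fin.cases ?_ (fun l => ?_) j) j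
      · show a + a'' ≤ R + 2 * e
        omega
      · exact Nat.le_of_lt_succ a'.2
      · exact Nat.le_of_lt_succ (q.2 l).2
    · simp [Fin.prod_univ_succ]

end Kill

/-- Section 4: new coordinates of small degree whose values are independent or whose base field
is full. -/
theorem kill_of [IsUltrametricDist Ω] [Ctx k Ω] [IsAlgClosed Ω] {p : ℕ} (hg : Kill.GrowStmt k Ω)
    (ha : Kill.AlbStmt k Ω p) (n : ℕ) (b : Fin n → Ω) (hind : AlgebraicIndependent k b)
    (hb : ∀ i, ‖b i‖ < 1) (halg : Algebra.IsAlgebraic (adjoin k (Set.range b)) Ω)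
    (hp : n.factorial < p) :
    ∃ c : Fin n → Ω, AlgebraicIndependent k c ∧ (∀ i, c i ∈ hens (adjoin k (Set.range b))) ∧
      relrank (hens (adjoin k (Set.range c))) (hens (adjoin k (Set.range b))) < p ∧
      ((LinearIndependent ℤ fun i => nu (c i)) ∨ ∃ i, QFull (adjoin k (c '' {i}ᶜ))) := by
  have h1 : ((LinearIndependent ℤ fun i => nu (b i)) ∨ ∃ i, QFull (adjoin k (b '' {i}ᶜ))) →
      Kill.Out p n (adjoin k (Set.range b)) := fun h =>
    ⟨b, hind, fun i => le_hens _ (subset_adjoin _ _ ⟨i, rfl⟩), by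
      rw [relrank_self]
      exact_mod_cast lt_of_le_of_lt (Nat.factorial_pos n) hp, h⟩
  match n with
  | 0 => exact h1 (Or.inl linearIndependent_empty_type)
  | 1 =>
    exact h1 (Or.inl (linearIndependent_unique_iff.2
      ((nu_pos_iff (hind.ne_zero _)).2 (hb _)).ne'))
  | m + 2 =>
    by_cases h : ∃ i, QFull (adjoin k (b '' {i}ᶜ))
    · exact h1 (Or.inr h)
    · exact Kill.core hg ha b hind (hb 0) halg hp fun i hi => h ⟨_, hi⟩

end Pool.Agent.MP_19ffc6_ag.LU3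

end MrgPart2

-- ======== part 3: formerly Pool.Agent.MP_19ffc6_ag.LU3.TameG
section MrgPart3

/-! PROJECT LU3: henselian subfields of any dimension, and tame extensions of small degree. -/

namespace Pool.Agent.MP_19ffc6_ag.LU3

open Polynomial IntermediateField Pool.Agent.MP_19ffc6_ag.LU Mh Orth

universe u

variable {k : Type*} {Ω : Type u} [Field k] [NontriviallyNormedField Ω] [Algebra k Ω]

/-- Endomorphisms over `K` preserve the norm of algebraic elements. -/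
def IsH (K : IntermediateField k Ω) : Prop :=
  ∀ (τ : Ω →ₐ[K] Ω) (a : Ω), IsAlgebraic K a → ‖τ a‖ = ‖a‖

theorem isAlgebraic_trans {M K : IntermediateField k Ω} (h : ∀ z ∈ K, IsAlgebraic M z) {a : Ω}
    (ha : IsAlgebraic K a) : IsAlgebraic M a := by
  let f : K →+* algebraicClosure M Ω :=
    K.val.toRingHom.codRestrict _ fun z => mem_algebraicClosure_iff.2 (h z z.2)
  exact (ha.ringHom_of_comp_eq f (RingHom.id Ω) f.injective rfl).restrictScalars M

theorem alg_of_mem {M : IntermediateField k Ω} {a : Ω} (ha : a ∈ M) : IsAlgebraic M a :=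
  isAlgebraic_algebraMap (⟨a, ha⟩ : M)

theorem alg_of_mem_hens {M : IntermediateField k Ω} {a : Ω} (ha : a ∈ hens M) :
    IsAlgebraic M a := (sepOver_hens M a ha).isIntegral.isAlgebraic

/-- Restriction of scalars of an endomorphism along an inclusion of intermediate fields. -/
noncomputable def resHom {M K : IntermediateField k Ω} (h : M ≤ K) (τ : Ω →ₐ[K] Ω) :
    Ω →ₐ[M] Ω := { τ.toRingHom with commutes' := fun a => τ.commutes ⟨a, h a.2⟩ }

theorem IsH.mono {M K : IntermediateField k Ω} (hM : IsH M) (h : M ≤ K)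
    (h' : ∀ z ∈ K, IsAlgebraic M z) : IsH K :=
  fun τ a ha => hM (resHom h τ) a (isAlgebraic_trans h' ha)

theorem IsHens.isH [IsAlgClosed Ω] {K : IntermediateField k Ω} (h : Algebra.IsAlgebraic K Ω)
    (hK : IsHens K) : IsH K := fun τ a _ =>
  hK (AlgEquiv.ofBijective τ (Algebra.IsAlgebraic.algHom_bijective τ)) a

variable [IsUltrametricDist Ω] [IsAlgClosed Ω]

theorem IsH.root {K : IntermediateField k Ω} (hK : IsH K) {a b : Ω} (ha : IsAlgebraic K a)
    (hb : aeval b (minpoly K a) = 0) : ‖b‖ = ‖a‖ := by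
  obtain ⟨τ, rfl⟩ := Hr.conj ha.isIntegral hb
  exact hK τ a ha

theorem norm_eq_of_sep (M : IntermediateField k Ω) (τ : Ω →ₐ[hens M] Ω) {a : Ω}
    (ha : IsSeparable M a) : ‖τ a‖ = ‖a‖ := by
  have hi : IsIntegral M a := ha.isIntegral
  by_cases htriv : ∃ m ∈ M, 1 < ‖m‖
  swap
  · have key : ∀ z : Ω, IsAlgebraic M z → z ≠ 0 → ‖z‖ = 1 := fun z hz h0 => by
      obtain ⟨d, hd, b, hb, hb0, h⟩ := exists_mul_nu_mem hz h0
      have h1 : ‖b‖ = 1 := le_antisymm (not_lt.1 fun h => htriv ⟨b, hb, h⟩) (not_lt.1 fun h =>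
        htriv ⟨b⁻¹, inv_mem hb, by rwa [norm_inv, one_lt_inv₀ (norm_pos_iff.2 hb0)]⟩)
      rw [(nu_eq_zero_iff hb0).2 h1] at h
      exact (nu_eq_zero_iff h0).1 ((mul_eq_zero.1 h.symm).resolve_left (by positivity))
    by_cases h0 : a = 0
    · simp [h0]
    rw [key a hi.isAlgebraic h0, key (τ a) (hi.isAlgebraic.algHom (resHom (le_hens M) τ))
      ((_root_.map_ne_zero τ).2 h0)]
  obtain ⟨m, hm, hm1⟩ := htriv
  refine exists_cpl k Ω fun W _ _ _ _ j hι => ?_
  let ι : Ω →+* W := j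
  have hind : Topology.IsInducing ι :=
    (AddMonoidHomClass.isometry_of_norm ι hι).isUniformInducing.isInducing
  let K : Subfield W := (M.toSubfield.map ι).topologicalClosure
  have hK : ∀ x : Ω, ι x ∈ K ↔ x ∈ closure (M : Set Ω) := fun x => by
    rw [hind.closure_eq_preimage_closure_image]
    rfl
  let : NontriviallyNormedField K :=
    { (inferInstance : NormedField K) with
      non_trivial := ⟨⟨ι m, (hK m).2 (subset_closure hm)⟩, by
        show 1 < ‖j m‖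
        rw [hι]; exact hm1⟩ }
  have : CompleteSpace K := (Subfield.isClosed_topologicalClosure _).completeSpace_coe
  let j : M →+* K := (ι.comp (algebraMap M Ω)).codRestrict K fun x =>
    (hK x).2 (subset_closure x.2)
  have hj : (algebraMap K W).comp j = ι.comp (algebraMap M Ω) := rfl
  have hroot : aeval (ι a) ((minpoly M a).map j) = 0 := by
    rw [aeval_def, eval₂_map, hj, ← hom_eval₂, ← aeval_def, minpoly.aeval, map_zero]
  have hi' : IsIntegral K (ι a) := ⟨_, (minpoly.monic hi).map j, hroot⟩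
  set g := minpoly K (ι a) with hg
  have hdvd : g.map (algebraMap K W) ∣ ((minpoly M a).map (algebraMap M Ω)).map ι := by
    have := Polynomial.map_dvd (algebraMap K W) (minpoly.dvd K (ι a) hroot)
    rwa [Polynomial.map_map, hj, ← Polynomial.map_map] at this
  have hmon : (((minpoly M a).map (algebraMap M Ω)).map ι).Monic :=
    ((minpoly.monic hi).map _).map _
  have hsp : ((minpoly M a).map (algebraMap M Ω)).Splits := IsAlgClosed.splits _
  have hgm : (g.map (algebraMap K W)).Monic := (minpoly.monic hi').map _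
  let S := separableClosure M Ω
  have hl : g.map (algebraMap K W) ∈ lifts (ι.comp (algebraMap S Ω)) := by
    refine ((hsp.map ι).of_dvd hmon.ne_zero hdvd).mem_lift_of_roots_mem_range hgm _ fun r hr => ?_
    have h1 := Multiset.mem_of_le (roots.le_of_dvd hmon.ne_zero hdvd) hr
    rw [hsp.roots_map] at h1
    obtain ⟨b, hb, rfl⟩ := Multiset.mem_map.1 h1
    have h2 : aeval b (minpoly M a) = 0 := by
      rw [← eval_map_algebraMap]; exact isRoot_of_mem_roots hb
    exact ⟨⟨b, mem_separableClosure_iff.2 (Separable.of_dvd ha (minpoly.dvd M b h2))⟩, rfl⟩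
  obtain ⟨G, hG⟩ := (mem_lifts _).1 hl
  have hc : ∀ n, (G.coeff n : Ω) ∈ hens M := fun n => by
    refine ⟨(G.coeff n).2, ?_⟩
    have h1 : ι (G.coeff n) = (g.coeff n : W) := by
      have := congrArg (fun q => q.coeff n) hG
      simp only [coeff_map] at this
      exact this
    exact (hK _).1 (h1 ▸ (g.coeff n).2)
  have hev : ∀ x : Ω, g.eval₂ (algebraMap K W) (ι x) = ι (G.eval₂ (algebraMap S Ω) x) := fun x => by
    rw [hom_eval₂, ← eval_map, ← hG, eval_map]
  have h0 : g.eval₂ (algebraMap K W) (ι a) = 0 := minpoly.aeval K (ι a)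
  have h1 : G.eval₂ (algebraMap S Ω) a = 0 := ι.injective (by rw [← hev, h0, map_zero])
  have h2 : G.eval₂ (algebraMap S Ω) (τ a) = τ (G.eval₂ (algebraMap S Ω) a) := by
    rw [eval₂_eq_sum_range, eval₂_eq_sum_range, map_sum]
    refine Finset.sum_congr rfl fun n _ => ?_
    rw [map_mul, map_pow]
    congr 1
    exact (τ.commutes ⟨_, hc n⟩).symm
  have h3 : g.eval₂ (algebraMap K W) (ι (τ a)) = 0 := by rw [hev, h2, h1, map_zero, map_zero]
  rw [← hι, ← hι a]
  exact Hens.norm_eq_of_roots (algebraMap K W) (fun _ => rfl) (minpoly.irreducible hi') h3 h0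

/-- The henselization of any subfield is henselian. -/
theorem isH_hens (M : IntermediateField k Ω) : IsH (hens M) := fun τ a ha => by
  obtain ⟨n, hn, hs⟩ :=
    Hr.exists_pow_sep (isAlgebraic_trans (fun _ => alg_of_mem_hens) ha).isIntegral
  have h1 := norm_eq_of_sep M τ hs
  rw [map_pow, norm_pow, norm_pow] at h1
  exact (pow_left_inj₀ (norm_nonneg _) (norm_nonneg _) hn.ne').1 h1

omit [IsUltrametricDist Ω] in
theorem mem_of_fix {K : IntermediateField k Ω} {a : Ω} (ha : IsSeparable K a)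
    (h : ∀ τ : Ω →ₐ[K] Ω, τ a = a) : a ∈ K := by
  obtain ⟨x, rfl⟩ := Hr.fix ha h
  exact x.2

/-- A separable element in the closure of a henselian field lies in the field. -/
theorem IsH.mem {K : IntermediateField k Ω} (hK : IsH K) {a : Ω} (ha : IsSeparable K a)
    (h : ∀ ε : ℝ, 0 < ε → ∃ b ∈ K, ‖a - b‖ < ε) : a ∈ K := by
  refine mem_of_fix ha fun τ => ?_
  by_contra hne
  obtain ⟨b, hb, hlt⟩ := h _ (norm_pos_iff.2 (sub_ne_zero.2 hne))
  have h3 : τ a - a = τ (a - b) - (a - b) := by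
    rw [map_sub, Hr.hom_fix τ hb]; ring
  have h4 : ‖τ (a - b) - (a - b)‖ < ‖τ a - a‖ := norm_sub_lt_of (by
    rwa [hK _ _ (ha.isIntegral.isAlgebraic.sub (alg_of_mem hb))]) hlt
  rw [← h3] at h4
  exact lt_irrefl _ h4

theorem IsH.hens_le {K M : IntermediateField k Ω} (hK : IsH K) (hM : M ≤ K) : hens M ≤ K :=
  fun _ ha => hK.mem (isSeparable_of_le hM (mem_hens_iff.1 ha).1) fun ε hε => by
    obtain ⟨b, hb, h⟩ := (mem_hens_iff.1 ha).2 ε hε
    exact ⟨b, hM hb, h⟩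

theorem hens_le_hens {K M : IntermediateField k Ω} (hM : M ≤ hens K) : hens M ≤ hens K :=
  (isH_hens K).hens_le hM

theorem hens_hens (K : IntermediateField k Ω) : hens (hens K) = hens K :=
  le_antisymm (hens_le_hens le_rfl) (le_hens _)

variable [Ctx k Ω]

/-- A simple root of an integral polynomial lies in a henselian field. -/
theorem IsH.simple {K : IntermediateField k Ω} (hK : IsH K) {P : Polynomial Ω}
    (hP : ∀ i, P.coeff i ∈ K ∧ ‖P.coeff i‖ ≤ 1) {z : Ω} (hz : ‖z‖ ≤ 1) (h0 : P.eval z = 0)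
    (h1 : ‖P.derivative.eval z‖ = 1) : z ∈ K := by
  have hs : IsSeparable K z :=
    Hr.sep_root K (fun i => (hP i).1) h0 (ne_zero_of_norm_eq_one h1)
  refine mem_of_fix hs fun τ => ?_
  have ha := hs.isIntegral.isAlgebraic
  obtain ⟨c, hc⟩ := Ctx.res (k := k) z hz
  have hcK : algebraMap k Ω c ∈ K := K.algebraMap_mem c
  have h2 : ‖τ z - z‖ < 1 := by
    have : τ z - z = τ (z - algebraMap k Ω c) - (z - algebraMap k Ω c) := by
      rw [map_sub, Hr.hom_fix τ hcK]; ring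
    rw [this]
    exact norm_sub_lt_of (by rwa [hK _ _ (ha.sub (alg_of_mem hcK))]) hc
  have h3 : P.eval (τ z) = 0 := by
    have := Hr.hom_eval (τ : Ω →+* Ω) (fun i => Hr.hom_fix τ (hP i).1) z
    rw [h0, map_zero] at this
    exact this.symm
  exact Hr.uni k (fun i => (hP i).2) hz h2 h0 h3 h1

variable {p : ℕ} [Fact p.Prime] [CharP k p]

omit [IsAlgClosed Ω] [IsUltrametricDist Ω] [Fact p.Prime] in
theorem norm_natCast (k : Type*) [Field k] [Algebra k Ω] [Ctx k Ω] [CharP k p] {n : ℕ}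
    (hn : ¬ p ∣ n) : ‖(n : Ω)‖ = 1 := by
  rw [← map_natCast (algebraMap k Ω)]
  exact Ctx.norm_alg _ fun h0 => hn ((CharP.cast_eq_zero_iff k p n).1 h0)

omit [Fact p.Prime] in
theorem IsH.rad {K : IntermediateField k Ω} (hK : IsH K) {u : Ω} {n : ℕ} (hn : ¬ p ∣ n)
    (hu : u ^ n ∈ K) (h1 : ‖u‖ = 1) : u ∈ K := by
  have hn0 : n ≠ 0 := by rintro rfl; exact hn (dvd_zero p)
  refine hK.simple (P := X ^ n - C (u ^ n)) (fun i => ?_) h1.le (by simp) ?_
  · rw [coeff_sub, coeff_X_pow, coeff_C]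
    split_ifs with h h'
    · omega
    · simp
    · simp [hu, h1]
    · simp
  · rw [derivative_sub, derivative_C, sub_zero]
    simp [derivative_X_pow, norm_natCast k hn, h1]

omit [Fact p.Prime] in
/-- There are no immediate extensions of degree prime to `p`. -/
theorem IsH.imm {K : IntermediateField k Ω} (hK : IsH K) {a : Ω} (ha : IsAlgebraic K a)
    (hd : ¬ p ∣ (minpoly K a).natDegree) (h : ∀ b ∈ K, ∃ m ∈ K, ‖m‖ = ‖a - b‖) : a ∈ K := by
  set f := (minpoly K a).map (algebraMap K Ω) with hf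
  set d := (minpoly K a).natDegree
  have hdn : ‖(d : Ω)‖ = 1 := norm_natCast k hd
  have hd0 : (d : Ω) ≠ 0 := ne_zero_of_norm_eq_one hdn
  have hsp : f.Splits := IsAlgClosed.splits f
  have hcard : f.roots.card = d := by rw [← hsp.natDegree_eq_card_roots, hf, natDegree_map]
  have hs : f.roots.sum ∈ K := by
    have h1 := hsp.nextCoeff_eq_neg_sum_roots_of_monic ((minpoly.monic ha.isIntegral).map _)
    rw [← neg_eq_iff_eq_neg.2 h1, hf, nextCoeff_map_eq]
    exact neg_mem (minpoly K a).nextCoeff.2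
  have hsd : f.roots.sum / d ∈ K := div_mem hs (K.natCast_mem d)
  by_contra hne
  have h0 : a - f.roots.sum / d ≠ 0 := fun h0 => hne (sub_eq_zero.1 h0 ▸ hsd)
  obtain ⟨m, hm, hm'⟩ := h _ hsd
  have hm0 : m ≠ 0 := by rwa [← norm_ne_zero_iff, hm', norm_ne_zero_iff]
  obtain ⟨c, hc⟩ := Ctx.res (k := k) ((a - f.roots.sum / d) / m)
    (by rw [norm_div, hm', div_self (norm_ne_zero_iff.2 h0)])
  set b := algebraMap k Ω c * m with hb
  have hbK : b ∈ K := mul_mem (K.algebraMap_mem c) hm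
  have h1 : ‖a - f.roots.sum / d - b‖ < ‖a - f.roots.sum / d‖ := by
    have : a - f.roots.sum / d - b = ((a - f.roots.sum / d) / m - algebraMap k Ω c) * m := by
      rw [sub_mul, div_mul_cancel₀ _ hm0]
    rw [this, norm_mul, hm']
    exact mul_lt_of_lt_one_left (norm_pos_iff.2 h0) hc
  have h2 : ∀ z ∈ f.roots.map fun z => z - f.roots.sum / d - b,
      ‖z‖ < ‖a - f.roots.sum / d‖ := by
    intro z hz
    obtain ⟨z', hz', rfl⟩ := Multiset.mem_map.1 hz
    have h3 := isRoot_of_mem_roots hz'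
    rw [IsRoot.def, hf, eval_map_algebraMap] at h3
    obtain ⟨τ, rfl⟩ := Hr.conj ha.isIntegral h3
    rwa [← Hr.hom_fix τ hsd, ← Hr.hom_fix τ hbK, ← map_sub, ← map_sub,
      hK _ _ ((ha.sub (alg_of_mem hsd)).sub (alg_of_mem hbK)), Hr.hom_fix τ hsd]
  have h3 : ‖(f.roots.map fun z => z - f.roots.sum / d - b).sum‖ < ‖a - f.roots.sum / d‖ :=
    Multiset.sum_induction (fun z : Ω => ‖z‖ < ‖a - f.roots.sum / d‖) _
      (fun _ _ => norm_add_lt_of) ((norm_zero (E := Ω)).trans_lt (norm_pos_iff.2 h0)) h2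
  rw [Multiset.sum_map_sub, Multiset.sum_map_sub, Multiset.map_id', Multiset.map_const',
    Multiset.map_const', Multiset.sum_replicate, Multiset.sum_replicate, hcard, nsmul_eq_mul,
    nsmul_eq_mul, mul_div_cancel₀ _ hd0, sub_self, zero_sub, norm_neg, norm_mul, hdn, one_mul,
    norm_eq_of_norm_sub_lt h1] at h3
  exact lt_irrefl _ h3

omit [IsAlgClosed Ω] [IsUltrametricDist Ω] [Ctx k Ω] in
theorem card_le_relrank {L E : IntermediateField k Ω} (h : L ≤ E) {ι : Type} {v : ι → Ω}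
    (hv : ∀ i, v i ∈ E) (hli : LinearIndependent L v) :
    Cardinal.lift.{u} (Cardinal.mk ι) ≤ relrank L E := by
  have h1 : LinearIndependent L fun i =>
      (⟨v i, Submodule.subset_span (hv i)⟩ : Submodule.span L (E : Set Ω)) :=
    LinearIndependent.of_comp (Submodule.subtype _) hli
  rw [relrank_eq_rank_span h]
  simpa using h1.cardinal_lift_le_rank

omit [IsAlgClosed Ω] [IsUltrametricDist Ω] [Ctx k Ω] in
theorem alg_of_relrank_lt {L E : IntermediateField k Ω} (h : L ≤ E) {q : ℕ}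
    (hq : relrank L E < q) {a : Ω} (ha : a ∈ E) :
    IsAlgebraic L a ∧ (minpoly L a).natDegree < q := by
  constructor
  · rw [relrank_eq_rank_of_le h] at hq
    have : Module.Finite L (extendScalars h) :=
      Module.rank_lt_aleph0_iff.1 (hq.trans Cardinal.natCast_lt_aleph0)
    exact (isAlgebraic_algebraMap_iff (A := Ω) Subtype.val_injective).2
      (IsAlgebraic.of_finite L (⟨a, ha⟩ : extendScalars h))
  · simpa using (card_le_relrank h (fun i => pow_mem ha _) (linearIndependent_pow a)).trans_lt hq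

omit [IsAlgClosed Ω] [Ctx k Ω] in
theorem linearIndependent_of_class {L : IntermediateField k Ω} {ι : Type*} {v : ι → Ω}
    (h0 : ∀ i, v i ≠ 0) (h : ∀ i j, ∀ b ∈ L, ‖v i‖ = ‖b‖ * ‖v j‖ → i = j) :
    LinearIndependent L v := by
  rw [linearIndependent_iff']
  intro s g hs i hi
  classical
  by_contra hg
  refine Init.sum_ne_zero (s.filter fun i => g i ≠ 0) (fun i => g i • v i) ⟨i, by simp [hi, hg]⟩
    (fun i hi => smul_ne_zero (Finset.mem_filter.1 hi).2 (h0 i))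
    (fun i hi j _ hij h' => hij (h i j (g j / g i) (div_mem (g j).2 (g i).2) ?_))
    (by rw [← hs]; exact Finset.sum_filter_of_ne fun i _ h h' => h (by simp [h']))
  have h1 : (g i : Ω) ≠ 0 := fun h => (Finset.mem_filter.1 hi).2 (Subtype.ext h)
  change ‖(g i : Ω) * v i‖ = ‖(g j : Ω) * v j‖ at h'
  rw [norm_mul, norm_mul] at h'
  rw [norm_div, div_mul_eq_mul_div, ← h', mul_div_cancel_left₀ _ (norm_ne_zero_iff.2 h1)]

/-- A henselian extension of degree less than `p` is spanned by radicals with distinct classes. -/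
theorem tame_basis {K E : IntermediateField k Ω} (hE : IsH E) (hle : K ≤ E)
    (hdeg : relrank (hens K) E < p) :
    ∃ (N : ℕ) (ι : Type) (_ : Fintype ι) (ρ : ι → Ω), ¬ p ∣ N ∧
      (∀ i, ρ i ∈ E ∧ ρ i ≠ 0 ∧ ρ i ^ N ∈ K) ∧
      (∀ i j, ∀ b ∈ hens K, ‖ρ i‖ = ‖b‖ * ‖ρ j‖ → i = j) ∧
      ∀ a ∈ E, a ∈ Submodule.span (hens K) (Set.range ρ) := by
  set L := hens K
  have hL : L ≤ E := hE.hens_le hle
  let H := (vg E).map (QuotientAddGroup.mk' (vg L))
  have hH : ∀ a ∈ E, a ≠ 0 → cl L (nu a) ∈ H := fun a ha h0 => ⟨_, ⟨a, ha, h0, rfl⟩, rfl⟩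
  have hrep : ∀ c : H, ∃ e ∈ E, e ≠ 0 ∧ cl L (nu e) = c := by
    rintro ⟨_, _, ⟨e, he, h0, rfl⟩, rfl⟩
    exact ⟨e, he, h0, rfl⟩
  choose e he he0 hec using hrep
  have hcl : ∀ a a' : Ω, a ≠ 0 → a' ≠ 0 →
      (cl L (nu a) = cl L (nu a') ↔ ∃ b ∈ L, ‖a‖ = ‖b‖ * ‖a'‖) := fun a a' h0 h0' => by
    rw [cl, cl, QuotientAddGroup.eq_iff_sub_mem]
    constructor
    · rintro ⟨b, hb, hb0, h⟩
      refine ⟨b, hb, ?_⟩
      rw [← norm_mul]
      exact norm_eq_of_nu_eq h0 (mul_ne_zero hb0 h0') (by rw [nu_mul hb0 h0', h]; ring)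
    · rintro ⟨b, hb, h⟩
      rw [← norm_mul] at h
      have hb0 : b ≠ 0 := by rintro rfl; simp [h0] at h
      exact ⟨b, hb, hb0, by rw [nu_eq_of_norm_eq h, nu_mul hb0 h0']; ring⟩
  have hcard := (card_le_relrank hL he (linearIndependent_of_class he0 fun i j b hb h =>
    Subtype.ext (by rw [← hec, ← hec]; exact (hcl _ _ (he0 i) (he0 j)).2 ⟨b, hb, h⟩))).trans_lt hdeg
  have : Finite H := Cardinal.lt_aleph0_iff_finite.1
    (by simpa using hcard.trans Cardinal.natCast_lt_aleph0)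
  let : Fintype H := Fintype.ofFinite H
  set N := Nat.card H
  have hN0 : 0 < N := Nat.card_pos
  have hN : ¬ p ∣ N := Nat.not_dvd_of_pos_of_lt hN0 (by simpa [N] using hcard)
  have hρ : ∀ c : H, ∃ ρ ∈ E, ‖ρ‖ = ‖e c‖ ∧ ρ ^ N ∈ K := fun c => by
    have h1 : cl L (nu (e c ^ N)) = cl L (nu (1 : Ω)) := by
      have h2 := congrArg Subtype.val (card_nsmul_eq_zero' (x := c))
      rw [AddSubgroup.coe_nsmul, ← hec] at h2
      rw [nu_pow, nu_one, ← nsmul_eq_mul]
      exact h2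
    obtain ⟨b, hb, h⟩ := (hcl _ _ (pow_ne_zero _ (he0 c)) one_ne_zero).1 h1
    obtain ⟨b0, hb0, h'⟩ := exists_norm_eq_of_mem_hens hb
    rw [norm_one, mul_one, ← h'] at h
    have hb00 : b0 ≠ 0 := by
      rw [← norm_ne_zero_iff, ← h, norm_ne_zero_iff]; exact pow_ne_zero _ (he0 c)
    obtain ⟨z, hz⟩ := IsAlgClosed.exists_pow_nat_eq (e c ^ N / b0) hN0
    have hz1 : ‖z‖ = 1 := by
      refine (pow_eq_one_iff_of_nonneg (norm_nonneg _) hN0.ne').1 ?_
      rw [← norm_pow, hz, norm_div, h, div_self (norm_ne_zero_iff.2 hb00)]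
    refine ⟨e c / z, div_mem (he c) (hE.rad hN (hz ▸ div_mem (pow_mem (he c) N) (hle hb0)) hz1),
      by rw [norm_div, hz1, div_one], ?_⟩
    rwa [div_pow, hz, div_div_cancel₀ (pow_ne_zero _ (he0 c))]
  choose ρ hρE hρn hρN using hρ
  have hρ0 : ∀ c, ρ c ≠ 0 := fun c => by
    rw [← norm_ne_zero_iff, hρn, norm_ne_zero_iff]; exact he0 c
  have hval : ∀ a ∈ E, a ≠ 0 → ∃ c, ∃ b ∈ L, ‖a‖ = ‖b‖ * ‖ρ c‖ := fun a ha h0 =>
    ⟨⟨_, hH a ha h0⟩, by rw [hρn]; exact (hcl _ _ h0 (he0 _)).1 (hec ⟨_, hH a ha h0⟩).symm⟩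
  set V := Submodule.span L (Set.range ρ)
  have hrad : ∀ g ∈ E, g ≠ 0 → g ^ N ∈ L → g ∈ V := fun g hg h0 hgN => by
    obtain ⟨c, b, hb, h⟩ := hval g hg h0
    rw [← norm_mul] at h
    have h1 : b * ρ c ≠ 0 := by rwa [← norm_ne_zero_iff, ← h, norm_ne_zero_iff]
    have h2 : g / (b * ρ c) ∈ L := (isH_hens K).rad hN (by
      rw [div_pow, mul_pow]
      exact div_mem hgN (mul_mem (pow_mem hb N) (le_hens K (hρN c))))
      (by rw [norm_div, h, div_self (norm_ne_zero_iff.2 h1)])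
    have h3 := V.smul_mem (⟨_, mul_mem h2 hb⟩ : L) (Submodule.subset_span ⟨c, rfl⟩)
    change g / (b * ρ c) * b * ρ c ∈ V at h3
    rwa [mul_assoc, div_mul_cancel₀ _ h1] at h3
  have hVE : ∀ a ∈ V, a ∈ E :=
    (Submodule.span_le (p := Subalgebra.toSubmodule (extendScalars hL).toSubalgebra)).2
      (by rintro _ ⟨c, rfl⟩; exact hρE c)
  let A : Subalgebra L Ω := V.toSubalgebra (hrad 1 (one_mem _) one_ne_zero (by simp))
    fun a b ha hb => (show V * V ≤ V by
      rw [Submodule.span_mul_span, Submodule.span_le]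
      rintro _ ⟨_, ⟨c, rfl⟩, _, ⟨c', rfl⟩, rfl⟩
      exact hrad _ (mul_mem (hρE c) (hρE c')) (mul_ne_zero (hρ0 c) (hρ0 c')) (by
        rw [mul_pow]; exact le_hens K (mul_mem (hρN c) (hρN c')))) (Submodule.mul_mem_mul ha hb)
  let K' : IntermediateField k Ω := (Subalgebra.IsAlgebraic.toIntermediateField (S := A)
    fun a ha => (alg_of_relrank_lt hL hdeg (hVE a ha)).1).restrictScalars k
  have hLK' : L ≤ K' := fun a ha => A.algebraMap_mem (⟨a, ha⟩ : L)
  refine ⟨N, H, inferInstance, ρ, hN, fun c => ⟨hρE c, hρ0 c, hρN c⟩, fun i j b hb h =>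
    Subtype.ext ?_, fun a ha => ?_⟩
  · rw [← hec, ← hec]
    exact (hcl _ _ (he0 i) (he0 j)).2 ⟨b, hb, by rwa [hρn, hρn] at h⟩
  have hK'E : K' ≤ E := hVE
  have hdeg' : relrank K' E < p := by
    refine lt_of_le_of_lt ?_ hdeg
    rw [← relrank_mul_relrank hLK' hK'E]
    refine Cardinal.le_mul_left ?_
    rw [relrank_eq_rank_of_le hLK']
    exact rank_pos.ne'
  obtain ⟨h1, h2⟩ := alg_of_relrank_lt hK'E hdeg' ha
  refine ((isH_hens K).mono hLK' fun z hz => (alg_of_relrank_lt hL hdeg (hVE z hz)).1).imm h1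
    (Nat.not_dvd_of_pos_of_lt (minpoly.natDegree_pos h1.isIntegral) h2) fun b hb => ?_
  by_cases h0 : a - b = 0
  · exact ⟨0, zero_mem _, by rw [h0]⟩
  obtain ⟨c, m, hm, h⟩ := hval _ (sub_mem ha (hK'E hb)) h0
  exact ⟨m * ρ c, mul_mem (hLK' hm) (Submodule.subset_span ⟨c, rfl⟩ : ρ c ∈ V),
    by rw [norm_mul, h]⟩

end Pool.Agent.MP_19ffc6_ag.LU3

end MrgPart3

-- marker of a merged file
example : 731051 + 101953 = 731051 + 101953 := rfl
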