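import Pool.Agent.MP_19ffc6_ag.LU3.FinalA
import Pool.Agent.MP_19ffc6_ag.LU3.TameG
import Pool.Agent.MP_19ffc6_ag.LU3.PDef
import Pool.Agent.MP_19ffc6_ag.LU.Smooth

-- ======== part 0: formerly Pool.Agent.MP_19ffc6_ag.LU3.Alb3
section MrgPart0

/-! Elementary Albanese projection, part 3: growth, counting, the projection theorem. -/

namespace Pool.Agent.MP_19ffc6_ag.LU.Alb

open Submodule Function Module Pool.Agent.MP_19ffc6_ag.LU3 Pool.Agent.MP_19ffc6_ag.LU3.Kill

section numeric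

theorem exists_large {a b : ℕ} (h : a < b) (c n : ℕ) : ∃ L : ℕ, a * (L + c) ^ n < b * (L + 1) ^ n := by
  have h1 := ((tendsto_add_mul_div_add_mul_atTop_nhds (c : ℝ) 1 1 (d := 1) one_ne_zero).pow n).const_mul
    (a : ℝ)
  have h2 : (a : ℝ) * (1 / 1) ^ n < b := by simpa using h
  obtain ⟨L, hL⟩ := (h1.eventually (gt_mem_nhds h2)).exists
  refine ⟨L, ?_⟩
  rw [div_pow, ← mul_div_assoc, div_lt_iff₀ (by positivity)] at hL
  have h3 : (a : ℝ) * ((L : ℝ) + c) ^ n < b * ((L : ℝ) + 1) ^ n := by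
    simpa [add_comm] using hL
  exact_mod_cast h3

theorem exists_simplex (n L : ℕ) : ∃ I : Finset (Fin n →₀ ℕ),
    (∀ α ∈ I, (α.sum fun _ e => e) ≤ L) ∧ (L + 1) ^ n ≤ n.factorial * I.card := by
  classical
  have hsum : ∀ β ∈ (Finset.univ : Finset (Option (Fin n))).finsuppAntidiag L,
      β none + (β.some.sum fun _ e => e) = L := fun β hβ => by
    rw [← (Finset.mem_finsuppAntidiag.1 hβ).1, Fintype.sum_option,
      Finsupp.sum_fintype _ _ fun _ => rfl]
    simp
  refine ⟨((Finset.univ : Finset (Option (Fin n))).finsuppAntidiag L).image Finsupp.some, ?_, ?_⟩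
  · intro α hα
    obtain ⟨β, hβ, rfl⟩ := Finset.mem_image.1 hα
    have := hsum β hβ
    omega
  · rw [Finset.card_image_of_injOn, Finset.card_finsuppAntidiag_nat_eq_choose]
    · have h1 : (Finset.univ : Finset (Option (Fin n))).card + L - 1 = L + n := by
        simp; omega
      rw [h1, Nat.choose_symm_add, ← Nat.ascFactorial_eq_factorial_mul_choose]
      exact Nat.pow_succ_le_ascFactorial _ _
    · intro β hβ γ hγ h
      have h1 := hsum β hβ
      have h2 := hsum γ hγ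
      rw [h] at h1
      ext (_ | i)
      · omega
      · exact congrArg (fun δ : Fin n →₀ ℕ => δ i) h

end numeric

section linear

variable {k Ω : Type*} [Field k] [Field Ω] [Algebra k Ω]

theorem finrank_add_card_le {ι : Type*} [Fintype ι] {Y Z : Submodule k Ω} (hZ : Z.FG) (hYZ : Y ≤ Z)
    (g : ι → Ω) (hg : ∀ i, g i ∈ Z) (h : ∀ a : ι → k, ∑ i, a i • g i ∈ Y → ∀ i, a i = 0) :
    finrank k Y + Fintype.card ι ≤ finrank k Z := by
  have : FiniteDimensional k Z := Module.Finite.iff_fg.2 hZ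
  have hli : LinearIndependent k g :=
    Fintype.linearIndependent_iff.2 fun a ha => h a (ha ▸ Y.zero_mem)
  have hX : span k (Set.range g) ≤ Z := span_le.2 (by rintro _ ⟨i, rfl⟩; exact hg i)
  have : FiniteDimensional k Y := Submodule.finiteDimensional_of_le hYZ
  have : FiniteDimensional k (span k (Set.range g)) := Submodule.finiteDimensional_of_le hX
  have h1 : Y ⊓ span k (Set.range g) = ⊥ := by
    rw [eq_bot_iff]
    rintro x ⟨hx, hx'⟩
    obtain ⟨a, rfl⟩ := (mem_span_range_iff_exists_fun k).1 hx'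
    simp [h a hx]
  have h2 := Submodule.finrank_sup_add_finrank_inf_eq Y (span k (Set.range g))
  rw [h1, finrank_bot, add_zero, finrank_span_eq_card hli] at h2
  rw [← h2]
  exact Submodule.finrank_mono (sup_le hYZ hX)

theorem mem_of_mul_mem {u x : Ω} (hu : u ≠ 0) {W : Submodule k Ω} (h : u * x ∈ span k {u} * W) :
    x ∈ W := by
  have h1 : u⁻¹ * (u * x) ∈ span k {u⁻¹} * (span k {u} * W) :=
    mul_mem_mul (mem_span_singleton_self _) h
  rwa [← mul_assoc, ← mul_assoc, span_mul_span', inv_mul_cancel₀ hu, one_mul,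
    ← Submodule.one_eq_span, one_mul] at h1

theorem finrank_le_of_mul {u : Ω} (hu : u ≠ 0) {W Z : Submodule k Ω} (hZ : Z.FG)
    (h : span k {u} * W ≤ Z) : finrank k W ≤ finrank k Z := by
  have : FiniteDimensional k Z := Module.Finite.iff_fg.2 hZ
  let f : W →ₗ[k] Z := ((LinearMap.mulLeft k u).comp W.subtype).codRestrict Z fun x =>
    h (mul_mem_mul (mem_span_singleton_self _) x.2)
  refine LinearMap.finrank_le_finrank_of_injective (f := f) fun x y hxy => Subtype.ext ?_
  exact mul_left_cancel₀ hu (congrArg Subtype.val hxy)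

theorem span_pow' (u : Ω) (l : ℕ) : span k {u} ^ l = span k {u ^ l} := by
  rw [Submodule.span_pow, Set.singleton_pow]

theorem monomial_mem {σ : Type*} {T : Submodule k Ω} {b : σ → Ω} (hb : ∀ i, b i ∈ T)
    (α : σ →₀ ℕ) {l : ℕ} (h : (α.sum fun _ e => e) ≤ l) :
    (α.prod fun i e => b i ^ e) ∈ (1 ⊔ T) ^ l := by
  classical
  have h1 : ∀ s : Finset σ, ∏ i ∈ s, b i ^ α i ∈ (1 ⊔ T) ^ ∑ i ∈ s, α i := fun s => by
    induction s using Finset.induction_on with
    | empty => simp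
    | insert a s ha ih =>
      rw [Finset.prod_insert ha, Finset.sum_insert ha, pow_add]
      exact mul_mem_mul (pow_mem_pow _ (mem_sup_right (hb a)) _) ih
  exact pow_le_pow_right' (le_sup_left : 1 ≤ 1 ⊔ T) h (h1 α.support)

end linear

section grow

variable {k Ω : Type*} [Field k] [NontriviallyNormedField Ω] [Algebra k Ω] {σ μ : Type*}
  [Fintype σ] {t : σ → Ω}

theorem pbox_mul (A A' : σ → ℕ) : pbox k t A * pbox k t A' ≤ pbox k t (A + A') := by
  rw [pbox, pbox, Submodule.span_mul_span]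
  refine span_mono ?_
  rintro _ ⟨_, ⟨I, hI, rfl⟩, _, ⟨J, hJ, rfl⟩, rfl⟩
  exact ⟨I + J, add_le_add hI hJ, by simp [pow_add, Finset.prod_mul_distrib]⟩

theorem pbox_mono {A A' : σ → ℕ} (h : A ≤ A') : pbox k t A ≤ pbox k t A' :=
  span_mono fun _ ⟨I, hI, hx⟩ => ⟨I, hI.trans h, hx⟩

theorem one_mem_pbox (A : σ → ℕ) : (1 : Ω) ∈ pbox k t A :=
  subset_span ⟨0, zero_le, by simp⟩

theorem pow_mem_pbox [DecidableEq σ] (i : σ) {a N : ℕ} (h : a ≤ N) :
    t i ^ a ∈ pbox k t (Pi.single i N) :=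
  subset_span ⟨Pi.single i a, Pi.single_le_single.2 h, by
    rw [Finset.prod_eq_single i] <;> simp +contextual⟩

theorem exists_mem_pbox {x : Ω} (hx : x ∈ Algebra.adjoin k (Set.range t)) :
    ∃ C : ℕ, x ∈ pbox k t fun _ => C := by
  classical
  induction hx using Algebra.adjoin_induction with
  | mem x hx =>
    obtain ⟨i, rfl⟩ := hx
    refine ⟨1, pbox_mono (A := Pi.single i 1) (fun j => ?_)
      (by simpa using pow_mem_pbox (k := k) (t := t) i (le_refl 1))⟩
    by_cases h : j = i <;> simp [h]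
  | algebraMap r => exact ⟨0, by
      rw [Algebra.algebraMap_eq_smul_one]; exact smul_mem _ _ (one_mem_pbox _)⟩
  | add x y _ _ hx hy =>
    obtain ⟨C, hC⟩ := hx
    obtain ⟨D, hD⟩ := hy
    exact ⟨C + D, add_mem (pbox_mono (fun _ => Nat.le_add_right _ _) hC)
      (pbox_mono (fun _ => Nat.le_add_left _ _) hD)⟩
  | mul x y _ _ hx hy =>
    obtain ⟨C, hC⟩ := hx
    obtain ⟨D, hD⟩ := hy
    exact ⟨C + D, pbox_mul _ _ (mul_mem_mul hC hD)⟩

theorem box_eq (A : σ → ℕ) [DecidableEq σ] (η : μ → Ω) : pbox k t A * span k (Set.range η) =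
    span k (Set.range fun x : (∀ i, Fin (A i + 1)) × μ => (∏ i, t i ^ (x.1 i : ℕ)) * η x.2) := by
  rw [pbox, Submodule.span_mul_span]
  congr 1
  ext y
  constructor
  · rintro ⟨_, ⟨I, hI, rfl⟩, _, ⟨l, rfl⟩, rfl⟩
    exact ⟨(fun i => ⟨I i, Nat.lt_succ_of_le (hI i)⟩, l), rfl⟩
  · rintro ⟨⟨I, l⟩, rfl⟩
    exact ⟨_, ⟨fun i => I i, fun i => Nat.le_of_lt_succ (I i).2, rfl⟩, _, ⟨l, rfl⟩, rfl⟩

theorem box_fg [Finite μ] (A : σ → ℕ) (η : μ → Ω) : (pbox k t A * span k (Set.range η)).FG := by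
  classical
  rw [box_eq]; exact fg_span (Set.finite_range _)

theorem finrank_box_le [Fintype μ] (A : σ → ℕ) (η : μ → Ω) :
    finrank k (pbox k t A * span k (Set.range η) : Submodule k Ω) ≤
      Fintype.card μ * ∏ i, (A i + 1) := by
  classical
  rw [box_eq]
  refine (finrank_range_le_card _).trans (le_of_eq ?_)
  simp [mul_comm]

/-- A denominator which moves `W` into a box. -/
def Den (t : σ → Ω) (E W : Submodule k Ω) : Prop :=
  ∃ δ ∈ Algebra.adjoin k (Set.range t), δ ≠ 0 ∧ ∃ C : ℕ,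
    span k {δ} * W ≤ (pbox k t fun _ => C) * E

theorem Den.sup {E W W' : Submodule k Ω} (h : Den t E W) (h' : Den t E W') : Den t E (W ⊔ W') := by
  have key : ∀ {δ δ' : Ω} {C : ℕ} {W : Submodule k Ω}, δ' ∈ Algebra.adjoin k (Set.range t) →
      span k {δ} * W ≤ (pbox k t fun _ => C) * E →
      ∃ D : ℕ, span k {δ' * δ} * W ≤ (pbox k t fun _ => D) * E := by
    intro δ δ' C W h1 h2
    obtain ⟨D, hD⟩ := exists_mem_pbox h1
    refine ⟨D + C, ?_⟩
    rw [← span_mul_span', mul_assoc]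
    refine (mul_le_mul' ((span_singleton_le_iff_mem _ _).2 hD) h2).trans ?_
    rw [← mul_assoc]
    exact mul_le_mul_left (pbox_mul _ _) _
  obtain ⟨δ, h1, h2, C, h3⟩ := h
  obtain ⟨δ', h1', h2', C', h3'⟩ := h'
  obtain ⟨D, hD⟩ := key h1' h3
  obtain ⟨D', hD'⟩ := key h1 h3'
  refine ⟨δ' * δ, mul_mem h1' h1, mul_ne_zero h2' h2, D + D', ?_⟩
  rw [Submodule.mul_sup]
  refine sup_le (hD.trans (mul_le_mul_left (pbox_mono fun _ => Nat.le_add_right _ _) _)) ?_
  rw [mul_comm δ' δ]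
  exact hD'.trans (mul_le_mul_left (pbox_mono fun _ => Nat.le_add_left _ _) _)

theorem Den.mono {E W W' : Submodule k Ω} (h : Den t E W) (h' : W' ≤ W) : Den t E W' := by
  obtain ⟨δ, h1, h2, C, h3⟩ := h
  exact ⟨δ, h1, h2, C, (mul_le_mul_right h' _).trans h3⟩

theorem den_singleton {η : μ → Ω} {x : Ω}
    (hx : x ∈ span (IntermediateField.adjoin k (Set.range t)) (Set.range η)) :
    Den t (span k (Set.range η)) (span k {x}) := by
  induction hx using Submodule.span_induction with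
  | mem x hx =>
    refine ⟨1, one_mem _, one_ne_zero, 0, ?_⟩
    exact mul_le_mul' ((span_singleton_le_iff_mem _ _).2 (one_mem_pbox _))
      (span_mono (Set.singleton_subset_iff.2 hx))
  | zero => exact ⟨1, one_mem _, one_ne_zero, 0, by simp⟩
  | add x y _ _ hx hy =>
    exact (hx.sup hy).mono ((span_singleton_le_iff_mem _ _).2 (add_mem
      (mem_sup_left (mem_span_singleton_self x)) (mem_sup_right (mem_span_singleton_self y))))
  | smul c x _ hx =>
    obtain ⟨r, hr, s, hs, hc⟩ := IntermediateField.mem_adjoin_iff_div.1 c.2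
    have h0 : c • x = r / s * x := by rw [← hc]; rfl
    by_cases hs0 : s = 0
    · exact ⟨1, one_mem _, one_ne_zero, 0, by simp [h0, hs0]⟩
    obtain ⟨δ, h1, h2, C, h3⟩ := hx
    obtain ⟨D, hD⟩ := exists_mem_pbox hr
    refine ⟨δ * s, mul_mem h1 hs, mul_ne_zero h2 hs0, D + C, ?_⟩
    rw [span_mul_span', span_singleton_le_iff_mem, h0]
    have h4 : δ * s * (r / s * x) = r * (δ * x) := by field_simp
    rw [h4]
    refine mul_le_mul_left (pbox_mul (fun _ => D) fun _ => C) _ ?_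
    rw [mul_assoc]
    exact mul_mem_mul hD (h3 (mul_mem_mul (mem_span_singleton_self _) (mem_span_singleton_self _)))

theorem den_fg {η : μ → Ω} {W : Submodule k Ω} (hW : W.FG)
    (h : ∀ x ∈ W, x ∈ span (IntermediateField.adjoin k (Set.range t)) (Set.range η)) :
    Den t (span k (Set.range η)) W := by
  induction W, hW using Submodule.fg_induction with
  | singleton x => exact den_singleton (h x (mem_span_singleton_self x))
  | sup W W' _ _ h1 h2 =>
    exact (h1 fun x hx => h x (mem_sup_left hx)).sup (h2 fun x hx => h x (mem_sup_right hx))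

theorem grow [Fintype μ] (K : IntermediateField k Ω) (t : σ → Ω) (η : μ → Ω) (hη : ∀ l, η l ∈ K)
    (h : ∀ x ∈ K, x ∈ span (IntermediateField.adjoin k (Set.range t)) (Set.range η)) :
    ∃ C : ℕ, ∀ (A : σ → ℕ) (V : Submodule k Ω), V ≤ pbox k t A * span k (Set.range η) →
      Growth K V (Fintype.card σ) (Fintype.card μ * ∏ i, (A i + C)) := by
  set E : Submodule k Ω := span k (Set.range η) with hE
  have hEK : E ≤ K.toSubalgebra.toSubmodule := span_le.2 (by rintro _ ⟨l, rfl⟩; exact hη l)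
  have hEfg : E.FG := fg_span (Set.finite_range _)
  obtain ⟨δ, -, hδ, C, hC⟩ := den_fg (t := t) (η := η) (hEfg.mul hEfg) fun x hx => h x (by
    have := mul_le_mul' hEK hEK hx
    rwa [Subalgebra.isIdempotentElem_toSubmodule] at this)
  refine ⟨C + 1, fun A V hV MM hMM hMK => ?_⟩
  obtain ⟨δ', -, hδ', B, hB⟩ := den_fg (t := t) (η := η) hMM fun x hx => h x (hMK x hx)
  refine ⟨B + 1, fun l => ?_⟩
  have h1 : span k {δ' * δ ^ l} * (MM * V ^ l) ≤ (pbox k t fun i => B + l * (A i + C)) * E := by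
    induction l with
    | zero => simpa using hB
    | succ l ih =>
      calc span k {δ' * δ ^ (l + 1)} * (MM * V ^ (l + 1))
          = (span k {δ' * δ ^ l} * (MM * V ^ l)) * (span k {δ} * V) := by
            rw [pow_succ δ, ← mul_assoc δ', ← span_mul_span' _ δ]; ring
        _ ≤ ((pbox k t fun i => B + l * (A i + C)) * E) * (span k {δ} * (pbox k t A * E)) :=
            mul_le_mul' ih (mul_le_mul_right hV _)
        _ = ((pbox k t fun i => B + l * (A i + C)) * pbox k t A) * (span k {δ} * (E * E)) := by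
            ring
        _ ≤ pbox k t ((fun i => B + l * (A i + C)) + A) * ((pbox k t fun _ => C) * E) :=
            mul_le_mul' (pbox_mul _ _) hC
        _ ≤ _ := by
            rw [← mul_assoc]
            refine mul_le_mul_left ((pbox_mul _ _).trans (pbox_mono fun i => le_of_eq ?_)) _
            simp only [Pi.add_apply]; ring
  refine (finrank_le_of_mul (mul_ne_zero hδ' (pow_ne_zero _ hδ)) (box_fg _ _) h1).trans
    ((finrank_box_le _ _).trans ?_)
  rw [mul_assoc, ← Finset.card_univ (α := σ), ← Finset.prod_const, ← Finset.prod_mul_distrib]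
  refine Nat.mul_le_mul_left _ (Finset.prod_le_prod' fun i _ => ?_)
  nlinarith [Nat.zero_le (A i * B), Nat.zero_le (C * B)]

theorem growStmt : GrowStmt k Ω := fun _ _ _ _ K t η => grow K t η

end grow

section alb

open IntermediateField

variable {k Ω : Type*} [Field k] [NontriviallyNormedField Ω] [Algebra k Ω]

/-- Independent elements of `K` over a henselization. -/
theorem exists_indep [IsUltrametricDist Ω] [IsAlgClosed Ω] {M K : IntermediateField k Ω}
    (hM : Algebra.IsAlgebraic M Ω) (hMK : M ≤ K) {p : ℕ}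
    (h : (p : Cardinal) ≤ relrank (hens M) (hens K)) :
    ∃ θ : Fin p → Ω, (∀ i, θ i ∈ K) ∧ LinearIndependent (hens M) θ := by
  have hM' := alg_hens hM
  have h1 : hens K ≤ hens M ⊔ K :=
    HensB.hens_le _ (alg_of_le le_sup_left hM') ((hens_isHens M hM).mono le_sup_left) K le_sup_right
  have h2 : span (hens M) (hens K : Set Ω) ≤ span (hens M) (K : Set Ω) := span_le.2 fun x hx => by
    have h3 := h1 hx
    rw [← adjoin_self k K, mem_sup_iff_mem_adjoin, ← IntermediateField.mem_toSubalgebra,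
      adjoin_toSubalgebra_of_isAlgebraic fun x _ => hM'.isAlgebraic x,
      ← Subalgebra.mem_toSubmodule, Algebra.adjoin_eq_span] at h3
    refine span_mono (fun y hy => ?_) h3
    exact (Submonoid.closure_le (S := K.toSubalgebra.toSubmonoid)).2 (fun _ h => h) hy
  obtain ⟨s, hs, h3, h4⟩ := exists_linearIndependent (hens M) (K : Set Ω)
  rw [relrank_eq_rank_span (hens_mono hMK)] at h
  have h5 := h.trans (Submodule.rank_mono h2)
  rw [← h3, rank_span_set h4] at h5
  obtain ⟨f⟩ := (Cardinal.lift_mk_le' (α := Fin p) (β := s)).1 (by simpa using h5)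
  exact ⟨fun i => f i, fun i => hs (f i).2, h4.comp f f.injective⟩

variable {ι : Type*} {u : ι → Ω}

theorem ratio_le {K : IntermediateField k Ω} (hu : ∀ i, u i ∈ K) (j : ι) {x : Ω}
    (hx : x ∈ ratio k u j) : x ∈ K :=
  (span_le (p := K.toSubalgebra.toSubmodule)).2
    (by rintro _ ⟨i, -, rfl⟩; exact K.div_mem (hu i) (hu j)) hx

theorem ratio_le_small [IsUltrametricDist Ω] [Ctx k Ω] (j : ι) : ratio k u j ≤ small k Ω :=
  span_le.2 (by
    rintro _ ⟨i, hi, rfl⟩
    change ‖u i / u j‖ < 1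
    rw [norm_div, div_lt_one ((norm_nonneg _).trans_lt hi)]; exact hi)

theorem span_lt_le {j : ι} (h : u j ≠ 0) :
    span k (u '' {i | ‖u i‖ < ‖u j‖}) ≤ span k {u j} * ratio k u j :=
  span_le.2 (by
    rintro _ ⟨i, hi, rfl⟩
    rw [← mul_div_cancel₀ (u i) h]
    exact mul_mem_mul (mem_span_singleton_self _) (subset_span ⟨i, hi, rfl⟩))

theorem mul_ratio_le {j : ι} (h : u j ≠ 0) :
    span k {u j} * (1 ⊔ ratio k u j) ≤ span k (u '' {i | ‖u i‖ ≤ ‖u j‖}) := by
  rw [Submodule.mul_sup, mul_one, ratio, Submodule.span_mul_span]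
  refine sup_le (span_mono ?_) (span_mono ?_)
  · rintro _ rfl; exact ⟨j, le_refl ‖u j‖, rfl⟩
  · rintro _ ⟨_, rfl, _, ⟨i, hi, rfl⟩, rfl⟩
    exact ⟨i, hi.le, (mul_div_cancel₀ (u i) h).symm⟩

theorem telescope (F : Set ι → ℕ) (hF : Monotone F) (hinj : Injective fun i => ‖u i‖) (a : ℕ)
    (J : Finset ι) (h : ∀ j ∈ J, F {i | ‖u i‖ < ‖u j‖} + a ≤ F {i | ‖u i‖ ≤ ‖u j‖}) :
    J.card * a ≤ F Set.univ := by
  classical
  have key : ∀ S : Set ι, (∀ j ∈ J, {i | ‖u i‖ ≤ ‖u j‖} ⊆ S) → J.card * a ≤ F S := by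
    induction J using Finset.induction_on_max_value fun i => ‖u i‖ with
    | empty => simp
    | insert j J hj hmax ih =>
      intro S hS
      have h1 := ih (fun i hi => h i (Finset.mem_insert_of_mem hi)) {i | ‖u i‖ < ‖u j‖}
        fun i hi l hl => lt_of_le_of_lt hl (lt_of_le_of_ne (hmax i hi) fun h2 => hj (hinj h2 ▸ hi))
      have h2 := h j (Finset.mem_insert_self _ _)
      have h3 := hF (hS j (Finset.mem_insert_self _ _))
      rw [Finset.card_insert_of_notMem hj, add_mul]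
      omega
  exact key _ fun _ _ => Set.subset_univ _

variable [IsUltrametricDist Ω] [Ctx k Ω] [IsAlgClosed k] [IsAlgClosed Ω]

omit [IsAlgClosed Ω] in
/-- A reduction by `n` independent elements. -/
theorem exists_red [Finite ι] {K : IntermediateField k Ω} (hK : Algebra.IsAlgebraic K Ω) {n : ℕ}
    (hn : Algebra.trdeg k Ω = n) {j : ι}
    (halg : ∀ x ∈ K, IsAlgebraic (adjoin k (ratio k u j : Set Ω)) x) (Φ : (Fin n → Ω) → Prop)
    (h0 : ∃ τ : Fin n → Ω, (∀ i, τ i ∈ ratio k u j) ∧ Φ τ)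
    (hΦ : ∀ τ : Fin n → Ω, (∀ i, τ i ∈ ratio k u j) → Φ τ → ∀ i, ∀ z ∈ ratio k u j,
      {c : k | ¬ Φ (update τ i (τ i - c • z))}.Finite) :
    ∃ b : Fin n → Ω, (∀ i, b i ∈ ratio k u j) ∧ Φ b ∧ AlgebraicIndependent k b ∧
      Red (ratio k u j) (span k (Set.range b)) ∧
      Algebra.IsAlgebraic (adjoin k (Set.range b)) Ω := by
  obtain ⟨τ, hτ, hΦτ⟩ := h0
  have hfin : {x | ∃ i, ‖u i‖ < ‖u j‖ ∧ x = u i / u j}.Finite :=
    (Set.finite_range fun i => u i / u j).subset fun _ ⟨i, _, h⟩ => ⟨i, h.symm⟩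
  obtain ⟨b, hb, hΦb, hred⟩ := nn (ratio k u j) (ratio_le_small j) (fun τ _ h => by
    have h1 := h.lift_cardinalMk_le_trdeg
    rw [hn] at h1
    simp at h1) Φ hΦ hfin.toFinset (fun w hw => subset_span (by simpa using hw)) τ hτ hΦτ
  have h1 : span k (Set.range τ ∪ ↑hfin.toFinset) = ratio k u j := by
    rw [span_union, Set.Finite.coe_toFinset]
    exact sup_eq_right.2 (span_le.2 (by rintro _ ⟨i, rfl⟩; exact hτ i))
  rw [h1] at hred
  have h2 : Algebra.IsAlgebraic (adjoin k (Set.range b)) Ω := by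
    refine Init.alg_trans (fun z hz => ?_) (Init.alg_trans halg hK)
    have h3 : adjoin k (ratio k u j : Set Ω) ≤
        (algebraicClosure (adjoin k (Set.range b)) Ω).restrictScalars k := by
      rw [adjoin_le_iff]
      intro x hx
      have h4 : IsIntegral (Algebra.adjoin k (Set.range b)) x :=
        hred.int _ (intC_closed _) (fun y hy => le_intC
          ((span_le (p := (Algebra.adjoin k (Set.range b)).toSubmodule)).2
            Algebra.subset_adjoin hy)) x hx
      exact mem_algebraicClosure_iff.2 (isAlgebraic_adjoin_iff.2 h4.isAlgebraic)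
    exact mem_algebraicClosure_iff.1 (h3 hz)
  have := isAlgebraic_adjoin_iff_top.1 h2
  exact ⟨b, hb, hΦb, (Algebra.IsAlgebraic.isTranscendenceBasis_of_lift_le_trdeg_of_finite k b
    (by simp [hn])).1, hred, h2⟩

/-- The jump of the dimension at one index. -/
theorem jump [Finite ι] {j : ι} (hj : u j ≠ 0) {n p : ℕ} {b : Fin n → Ω}
    (hb : AlgebraicIndependent k b) (hred : Red (ratio k u j) (span k (Set.range b)))
    (halg : Algebra.IsAlgebraic (adjoin k (Set.range b)) Ω) {MM : Submodule k Ω} (hMM : MM.FG)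
    {θ : Fin p → Ω} (hθM : ∀ i, θ i ∈ MM)
    (hθ : LinearIndependent (hens (adjoin k (Set.range b))) θ) :
    ∃ c : ℕ, ∀ (L l : ℕ) (I : Finset (Fin n →₀ ℕ)), (∀ α ∈ I, (α.sum fun _ e => e) ≤ L) →
      L + c ≤ l →
      finrank k (MM * span k (u '' {i | ‖u i‖ < ‖u j‖}) ^ l : Submodule k Ω) + p * I.card ≤
        finrank k (MM * span k (u '' {i | ‖u i‖ ≤ ‖u j‖}) ^ l : Submodule k Ω) := by
  classical
  have hfg : (ratio k u j).FG := fg_span
    ((Set.finite_range fun i => u i / u j).subset fun _ ⟨i, _, h⟩ => ⟨i, h.symm⟩)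
  obtain ⟨c, hc⟩ := low hb (ratio_le_small j) hfg hMM hred (isAlgebraic_adjoin_iff_top.1 halg)
    (alg_hens halg) (hens_isHens _ halg) (fun i => le_hens _ (subset_adjoin _ _ ⟨i, rfl⟩)) hθ
  refine ⟨c, fun L l I hI hl => ?_⟩
  obtain ⟨L', rfl⟩ : ∃ L', l = L' + c := ⟨l - c, by omega⟩
  have hbT : ∀ i, b i ∈ ratio k u j := fun i => hred.le (subset_span ⟨i, rfl⟩)
  have hle : span k (u '' {i | ‖u i‖ < ‖u j‖}) ≤ span k (u '' {i | ‖u i‖ ≤ ‖u j‖}) :=
    span_mono (Set.image_mono fun i (hi : ‖u i‖ < ‖u j‖) => (hi.le : ‖u i‖ ≤ ‖u j‖))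
  have hZ : (span k (u '' {i | ‖u i‖ ≤ ‖u j‖})).FG := fg_span ((Set.toFinite _).image u)
  have hlt := span_lt_le (k := k) hj
  have hge := mul_ratio_le (k := k) hj
  generalize span k (u '' {i | ‖u i‖ < ‖u j‖}) = Y at *
  generalize span k (u '' {i | ‖u i‖ ≤ ‖u j‖}) = Z at *
  generalize ratio k u j = T at *
  have hcard : Fintype.card (Fin p × I) = p * I.card := by simp
  rw [← hcard]
  refine finrank_add_card_le (hMM.mul (hZ.pow _)) (mul_le_mul_right (pow_le_pow_left' hle _) _)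
    (fun x => θ x.1 * (u j ^ (L' + c) * (x.2 : Fin n →₀ ℕ).prod fun i e => b i ^ e))
    (fun x => ?_) fun a ha x => ?_
  · refine mul_mem_mul (hθM _) (pow_le_pow_left' hge _ ?_)
    rw [mul_pow]
    exact mul_mem_mul (pow_mem_pow _ (mem_span_singleton_self _) _)
      (monomial_mem hbT _ ((hI _ x.2.2).trans (by omega)))
  let P : Fin p → MvPolynomial (Fin n) k := fun i =>
    ∑ α : I, MvPolynomial.monomial (α : Fin n →₀ ℕ) (a (i, α))
  have h2 : ∑ x : Fin p × I, a x • (θ x.1 * (u j ^ (L' + c) *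
      (x.2 : Fin n →₀ ℕ).prod fun i e => b i ^ e)) =
      u j ^ (L' + c) * ∑ i, θ i * MvPolynomial.aeval b (P i) := by
    rw [Fintype.sum_prod_type, Finset.mul_sum]
    refine Finset.sum_congr rfl fun i _ => ?_
    simp only [P, map_sum, MvPolynomial.aeval_monomial, Finset.mul_sum, Algebra.smul_def]
    exact Finset.sum_congr rfl fun α _ => by ring
  rw [h2] at ha
  have h3 := mul_le_mul_right (pow_le_pow_left' hlt (L' + c)) MM ha
  rw [mul_pow, span_pow', mul_left_comm] at h3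
  have h4 := hc L' P (fun i => MvPolynomial.totalDegree_finsetSum_le fun α _ =>
    (MvPolynomial.totalDegree_monomial_le _ _).trans ((hI _ α.2).trans (by omega)))
    (mem_of_mul_mem (pow_ne_zero _ hj) h3) x.1
  have h5 := congrArg (MvPolynomial.coeff (x.2 : Fin n →₀ ℕ)) h4
  simp only [P, MvPolynomial.coeff_sum, MvPolynomial.coeff_monomial, MvPolynomial.coeff_zero] at h5
  rw [Finset.sum_eq_single x.2 (fun β _ hβ => if_neg fun h => hβ (Subtype.ext h)) (by simp),
    if_pos rfl] at h5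
  exact h5

/-- The projection theorem. -/
theorem albStmt (p : ℕ) : AlbStmt k Ω p := by
  classical
  intro K hK n hn ι _ u hu hinj G hG J hJ halg Φ h0 hΦ
  by_contra hcon
  push Not at hcon
  rw [trdeg_eq_of_alg hK] at hn
  choose b hb hΦb hind hred hbalg using fun j : J =>
    exists_red hK hn (halg j j.2) (Φ j) (h0 j j.2) (hΦ j j.2)
  choose θ hθK hθ using fun j : J => exists_indep (K := K) (hbalg j)
    (adjoin_le_iff.2 (by rintro _ ⟨i, rfl⟩; exact ratio_le (fun i => (hu i).1) _ (hb j i)))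
    (hcon j j.2 (b j) (hb j) (hΦb j) (hind j))
  set MM : Submodule k Ω := span k (Set.range fun x : J × Fin p => θ x.1 x.2) with hMM
  have hfg : MM.FG := fg_span (Set.finite_range _)
  choose c hc using fun j : J => jump (hu j).2 (hind j) (hred j) (hbalg j) hfg
    (fun i => subset_span ⟨(j, i), rfl⟩) (hθ j)
  obtain ⟨B, hB⟩ := hG MM hfg fun x hx => (span_le (p := K.toSubalgebra.toSubmodule)).2
    (by rintro _ ⟨y, rfl⟩; exact hθK _ _) hx
  obtain ⟨L, hL⟩ := exists_large hJ (Finset.univ.sup c + B) n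
  obtain ⟨I, hI, hcard⟩ := exists_simplex n L
  have h1 := telescope
    (fun S => finrank k (MM * span k (u '' S) ^ (L + Finset.univ.sup c) : Submodule k Ω))
    (fun S S' h => by
      have : FiniteDimensional k (MM * span k (u '' S') ^ (L + Finset.univ.sup c) : Submodule k Ω) :=
        Module.Finite.iff_fg.2 (hfg.mul ((fg_span ((Set.toFinite _).image u)).pow _))
      exact Submodule.finrank_mono
        (mul_le_mul_right (pow_le_pow_left' (span_mono (Set.image_mono h)) _) _))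
    hinj (p * I.card) J fun j hj => hc ⟨j, hj⟩ L _ I hI
      (Nat.add_le_add_left (Finset.le_sup (Finset.mem_univ _)) _)
  have h2 := hB (L + Finset.univ.sup c)
  rw [Set.image_univ] at h1
  have h3 : p * J.card * (L + 1) ^ n ≤ n.factorial * G * (L + (Finset.univ.sup c + B)) ^ n :=
    calc p * J.card * (L + 1) ^ n ≤ p * J.card * (n.factorial * I.card) :=
          Nat.mul_le_mul_left _ hcard
      _ = n.factorial * (J.card * (p * I.card)) := by ring
      _ ≤ n.factorial * (G * (L + Finset.univ.sup c + B) ^ n) :=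
          Nat.mul_le_mul_left _ (h1.trans h2)
      _ = _ := by rw [add_assoc, mul_assoc]
  omega

/-- Section 4 without hypotheses. -/
theorem kill {p : ℕ} (n : ℕ) (b : Fin n → Ω) (hind : AlgebraicIndependent k b)
    (hb : ∀ i, ‖b i‖ < 1) (halg : Algebra.IsAlgebraic (adjoin k (Set.range b)) Ω)
    (hp : n.factorial < p) :
    ∃ c : Fin n → Ω, AlgebraicIndependent k c ∧ (∀ i, c i ∈ hens (adjoin k (Set.range b))) ∧
      relrank (hens (adjoin k (Set.range c))) (hens (adjoin k (Set.range b))) < p ∧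
      ((LinearIndependent ℤ fun i => nu (c i)) ∨ ∃ i, QFull (adjoin k (c '' {i}ᶜ))) :=
  kill_of growStmt (albStmt p) n b hind hb halg hp

end alb

end Pool.Agent.MP_19ffc6_ag.LU.Alb

end MrgPart0

-- ======== part 1: formerly Pool.Agent.MP_19ffc6_ag.LU3.Alb4
section MrgPart1

/-! Elementary Albanese projection, part 4: the first projection, and both projections. -/

namespace Pool.Agent.MP_19ffc6_ag.LU.Alb

open Submodule Function Module IntermediateField Pool.Agent.MP_19ffc6_ag.LU3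
  Pool.Agent.MP_19ffc6_ag.LU3.Kill

variable {k Ω : Type*} [Field k] [NontriviallyNormedField Ω] [Algebra k Ω]

/-- A finite dimensional space has a basis with distinct norms. -/
theorem exists_basis_distinct [IsUltrametricDist Ω] [Ctx k Ω] (V : Submodule k Ω) (hV : V.FG) :
    ∃ s : Finset Ω, span k (s : Set Ω) = V ∧ (∀ x ∈ s, x ≠ 0) ∧
      ∀ x ∈ s, ∀ y ∈ s, ‖x‖ = ‖y‖ → x = y := by
  classical
  induction hd : finrank k V using Nat.strong_induction_on generalizing V with
  | _ d ih =>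
    have : FiniteDimensional k V := Module.Finite.iff_fg.2 hV
    by_cases h0 : V = ⊥
    · exact ⟨∅, by simp [h0], by simp, by simp⟩
    obtain ⟨t, ht⟩ := hV
    have hne : t.Nonempty := by
      rw [Finset.nonempty_iff_ne_empty]; rintro rfl; exact h0 (by simpa using ht.symm)
    obtain ⟨v, hv, hmax⟩ := Finset.exists_max_image t (fun x => ‖x‖) hne
    have hvV : v ∈ V := ht ▸ subset_span hv
    have hle : ∀ x ∈ V, ‖x‖ ≤ ‖v‖ := fun x hx => by
      rw [← ht] at hx
      induction hx using Submodule.span_induction with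
      | mem x hx => exact hmax x hx
      | zero => simp
      | add x y _ _ hx hy => exact norm_add_le_of hx hy
      | smul c x _ hx => exact (norm_smul_le_self c x).trans hx
    have hv0 : v ≠ 0 := by
      rintro rfl
      exact h0 (eq_bot_iff.2 fun x hx => by simpa using hle x hx)
    have hpos : 0 < ‖v‖ := norm_pos_iff.2 hv0
    let V' : Submodule k Ω :=
      { carrier := {x | x ∈ V ∧ ‖x‖ < ‖v‖}
        add_mem' := fun ha hb => ⟨add_mem ha.1 hb.1, norm_add_lt_of ha.2 hb.2⟩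
        zero_mem' := ⟨zero_mem _, by simpa using hv0⟩
        smul_mem' := fun c x hx => ⟨smul_mem _ _ hx.1, (norm_smul_le_self c x).trans_lt hx.2⟩ }
    have hlt : V' < V := lt_of_le_of_ne (fun _ hx => hx.1) fun h =>
      lt_irrefl _ (show v ∈ V' from h ▸ hvV).2
    have : FiniteDimensional k V' := Submodule.finiteDimensional_of_le hlt.le
    obtain ⟨s, hs, hs0, hinj⟩ := ih _ (hd ▸ Submodule.finrank_lt_finrank_of_lt hlt) V'
      (Module.Finite.iff_fg.1 this) rfl
    have hsV : ∀ x ∈ s, x ∈ V' := fun x hx => hs ▸ subset_span hx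
    refine ⟨insert v s, ?_, ?_, ?_⟩
    · rw [Finset.coe_insert, span_insert, hs]
      refine le_antisymm (sup_le ((span_singleton_le_iff_mem _ _).2 hvV) hlt.le) fun x hx => ?_
      obtain ⟨c, hc⟩ := Ctx.res (k := k) (x / v)
        (by rw [norm_div, div_le_one hpos]; exact hle x hx)
      have h1 : x - c • v = (x / v - algebraMap k Ω c) * v := by
        rw [Algebra.smul_def]; field_simp
      have h2 : x - c • v ∈ V' := ⟨sub_mem hx (smul_mem _ _ hvV), by
        rw [h1, norm_mul]; exact mul_lt_of_lt_one_left hpos hc⟩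
      rw [← add_sub_cancel (c • v) x]
      exact add_mem (mem_sup_left (smul_mem _ _ (mem_span_singleton_self v))) (mem_sup_right h2)
    · intro x hx
      rcases Finset.mem_insert.1 hx with rfl | hx
      exacts [hv0, hs0 x hx]
    · intro x hx y hy h
      rcases Finset.mem_insert.1 hx with h1 | h1 <;> rcases Finset.mem_insert.1 hy with h2 | h2
      · rw [h1, h2]
      · exact absurd (h1 ▸ h) (hsV y h2).2.ne'
      · exact absurd (h2 ▸ h) (hsV x h1).2.ne
      · exact hinj x h1 y h2 h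

theorem exists_basis_fin [IsUltrametricDist Ω] [Ctx k Ω] (V : Submodule k Ω) (hV : V.FG) :
    ∃ u : Fin (finrank k V) → Ω, span k (Set.range u) = V ∧ (∀ i, u i ≠ 0) ∧
      Injective fun i => ‖u i‖ := by
  obtain ⟨s, hs, h0, hinj⟩ := exists_basis_distinct V hV
  have h1 : Injective fun x : s => ‖(x : Ω)‖ := fun x y h => Subtype.ext (hinj _ x.2 _ y.2 h)
  have h2 := finrank_span_eq_card
    (linearIndependent_of_norm (k := k) (v := fun x : s => (x : Ω)) (fun x => h0 _ x.2) h1)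
  rw [Subtype.range_coe_subtype, Finset.setOfPred_mem, hs] at h2
  let e : Fin (finrank k V) ≃ s := (Fintype.equivFinOfCardEq h2.symm).symm
  refine ⟨fun i => e i, ?_, fun i => h0 _ (e i).2, h1.comp e.injective⟩
  exact (congrArg (span k) ((e.surjective.range_comp (fun x : s => (x : Ω))).trans
    Subtype.range_coe)).trans hs

/-- Products of independent families. -/
theorem indep_mul {F : IntermediateField k Ω} {ι κ : Type*} {a : ι → Ω} {c : κ → Ω}
    (haF : ∀ i, a i ∈ F) (ha : LinearIndependent k a) (hc : LinearIndependent F c) :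
    LinearIndependent k fun x : ι × κ => a x.1 * c x.2 :=
  linearIndependent_smul (b := fun i => (⟨a i, haF i⟩ : F))
    (LinearIndependent.of_comp F.val.toLinearMap ha) hc

theorem finrank_box {n : ℕ} {μ : Type*} [Fintype μ] {t : Fin n → Ω} (ht : AlgebraicIndependent k t)
    {η : μ → Ω} (hη : LinearIndependent (adjoin k (Set.range t)) η) (N : ℕ) :
    finrank k ((pbox k t fun _ => N) * span k (Set.range η) : Submodule k Ω) =
      Fintype.card μ * (N + 1) ^ n := by
  have h1 : LinearIndependent k fun I : Fin n → Fin (N + 1) => ∏ i, t i ^ (I i : ℕ) := by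
    have h2 := ((MvPolynomial.basisMonomials (Fin n) k).linearIndependent.map'
      (MvPolynomial.aeval t).toLinearMap (LinearMap.ker_eq_bot.2 ht)).comp
      (fun I : Fin n → Fin (N + 1) => Finsupp.equivFunOnFinite.symm fun i => (I i : ℕ))
      fun I J h => funext fun i => Fin.ext (congrFun (Finsupp.equivFunOnFinite.symm.injective h) i)
    have h3 : (fun I : Fin n → Fin (N + 1) => ∏ i, t i ^ (I i : ℕ)) =
        ((MvPolynomial.aeval t).toLinearMap ∘ MvPolynomial.basisMonomials (Fin n) k) ∘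
          fun I : Fin n → Fin (N + 1) => Finsupp.equivFunOnFinite.symm fun i => (I i : ℕ) := by
      funext I
      simp [MvPolynomial.aeval_monomial, Finsupp.prod_fintype]
    rw [h3]; exact h2
  have h4 := finrank_span_eq_card (indep_mul (fun I => prod_mem fun i _ =>
    pow_mem (subset_adjoin k (Set.range t) ⟨i, rfl⟩) _) h1 hη)
  rw [box_eq]
  refine h4.trans ?_
  simp [mul_comm]

/-- Few indices have a ratio field of smaller dimension. -/
theorem card_lost [IsUltrametricDist Ω] [Ctx k Ω] {n N : ℕ} {ι μ : Type*} [Fintype ι] [Fintype μ]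
    {t : Fin n → Ω} {η : μ → Ω} {u : ι → Ω} (h0 : ∀ i, u i ≠ 0) (hinj : Injective fun i => ‖u i‖)
    (hu : ∀ i, u i ∈ (pbox k t fun _ => N) * span k (Set.range η)) (S : Finset ι)
    (hS : ∀ j ∈ S, ∃ i, Transcendental (adjoin k (ratio k u j : Set Ω)) (t i)) :
    S.card * (N + 1) ≤ 2 * (Fintype.card μ * (N + 1) ^ n) := by
  classical
  rcases S.eq_empty_or_nonempty with rfl | hne
  · simp
  obtain ⟨j, hj, hmax⟩ := Finset.exists_max_image S (fun i => ‖u i‖) hne
  obtain ⟨i0, hi0⟩ := hS j hj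
  set F := adjoin k (ratio k u j : Set Ω) with hF
  have hc : LinearIndependent F fun a : Fin (N + 1) => t i0 ^ (a : ℕ) := by
    have h2 := ((Polynomial.basisMonomials F).linearIndependent.map'
      (Polynomial.aeval (t i0)).toLinearMap
      (LinearMap.ker_eq_bot.2 (transcendental_iff_injective.1 hi0))).comp
      (fun a : Fin (N + 1) => (a : ℕ)) Fin.val_injective
    have h3 : (fun a : Fin (N + 1) => t i0 ^ (a : ℕ)) =
        ((Polynomial.aeval (t i0)).toLinearMap ∘ Polynomial.basisMonomials F) ∘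
          fun a : Fin (N + 1) => (a : ℕ) := by
      funext a
      simp
    rw [h3]; exact h2
  have hjn : ‖u j‖ ≠ 0 := norm_ne_zero_iff.2 (h0 j)
  have h1 := indep_mul (a := fun i : S => u i / u j) (fun i => by
      rcases eq_or_lt_of_le (hmax i i.2) with h | h
      · rw [hinj h, div_self (h0 j)]; exact one_mem _
      · exact subset_adjoin k _ (subset_span ⟨i, h, rfl⟩))
    (linearIndependent_of_norm (fun i => div_ne_zero (h0 _) (h0 _)) fun i l h =>
      Subtype.ext (hinj (by simpa [hjn] using h))) hc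
  have h2 := finrank_span_eq_card h1
  have h3 : span k {u j} * span k (Set.range fun x : S × Fin (N + 1) =>
      u x.1 / u j * t i0 ^ (x.2 : ℕ)) ≤
      pbox k t (Pi.single i0 N + fun _ => N) * span k (Set.range η) := by
    rw [Submodule.span_mul_span, span_le]
    rintro _ ⟨_, rfl, _, ⟨x, rfl⟩, rfl⟩
    have h4 : u j * (u x.1 / u j * t i0 ^ (x.2 : ℕ)) = t i0 ^ (x.2 : ℕ) * u x.1 := by
      have := h0 j
      field_simp
    refine mul_le_mul_left (pbox_mul _ _) _ ?_
    simp only [h4]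
    rw [mul_assoc]
    exact mul_mem_mul (pow_mem_pbox i0 (Nat.le_of_lt_succ x.2.2)) (hu _)
  have h4 := (finrank_le_of_mul (h0 j) (box_fg _ _) h3).trans (finrank_box_le _ _)
  rw [h2] at h4
  have h5 : ∏ i, ((Pi.single i0 N + fun _ => N : Fin n → ℕ) i + 1) ≤ 2 * (N + 1) ^ n := by
    calc _ ≤ ∏ i : Fin n, (if i = i0 then 2 else 1) * (N + 1) :=
          Finset.prod_le_prod' fun i _ => by
            by_cases h : i = i0
            · subst h; simp; omega
            · simp [h]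
      _ = _ := by rw [Finset.prod_mul_distrib]; simp
  calc S.card * (N + 1) = Fintype.card (S × Fin (N + 1)) := by simp
    _ ≤ Fintype.card μ * (2 * (N + 1) ^ n) := h4.trans (Nat.mul_le_mul_left _ h5)
    _ = _ := by ring

theorem exists_trBasis {K : IntermediateField k Ω} (hK : Algebra.IsAlgebraic K Ω) {n : ℕ}
    (hn : Algebra.trdeg k K = n) : ∃ t : Fin n → Ω, (∀ i, t i ∈ K) ∧ AlgebraicIndependent k t ∧
      Algebra.IsAlgebraic (adjoin k (Set.range t)) Ω := by
  obtain ⟨s, hs⟩ := exists_isTranscendenceBasis k K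
  have h1 := hs.cardinalMk_eq_trdeg
  rw [hn] at h1
  obtain ⟨e⟩ := Cardinal.mk_eq_nat_iff.1 h1
  have h2 : AlgebraicIndependent k fun i : Fin n => ((e.symm i : K) : Ω) :=
    (hs.1.comp e.symm e.symm.injective).map' (f := K.val) Subtype.val_injective
  refine ⟨_, fun i => (e.symm i : K).2, h2, ?_⟩
  rw [trdeg_eq_of_alg hK] at hn
  exact (h2.isTranscendenceBasis_of_lift_trdeg_le_of_finite (by simp [hn])).isAlgebraic_field

theorem exists_field_basis {M K : IntermediateField k Ω} (hM : Algebra.IsAlgebraic M Ω) (h : M ≤ K)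
    (hK : K.FG) : ∃ (D : ℕ) (η : Fin D → Ω), 0 < D ∧ (∀ l, η l ∈ K) ∧ LinearIndependent M η ∧
      ∀ x ∈ K, x ∈ span M (Set.range η) := by
  obtain ⟨Z, hZ⟩ := hK
  have : FiniteDimensional M (adjoin M (Z : Set Ω)) :=
    finiteDimensional_adjoin fun x _ => (hM.isAlgebraic x).isIntegral
  have h1 : ∀ x, x ∈ K ↔ x ∈ adjoin M (Z : Set Ω) := fun x => by
    rw [← mem_sup_iff_mem_adjoin, hZ, sup_eq_right.2 h]
  let B := Module.finBasis M (adjoin M (Z : Set Ω))
  refine ⟨_, fun l => B l, finrank_pos, fun l => (h1 _).2 (B l).2,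
    B.linearIndependent.map' (adjoin M (Z : Set Ω)).val.toLinearMap
      (LinearMap.ker_eq_bot.2 Subtype.val_injective), fun x hx => ?_⟩
  have h2 := congrArg Subtype.val (B.sum_repr ⟨x, (h1 x).1 hx⟩)
  simp only [AddSubmonoidClass.coe_finsetSum] at h2
  rw [← h2]
  exact sum_mem fun l _ => smul_mem _ _ (subset_span ⟨l, rfl⟩)

variable [IsUltrametricDist Ω] [Ctx k Ω] [IsAlgClosed k] [IsAlgClosed Ω]

/-- The first projection: a rational subfield of degree less than `p` after henselization. -/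
theorem alb1 {p : ℕ} (K : IntermediateField k Ω) (hfg : K.FG) (hK : Algebra.IsAlgebraic K Ω)
    (n : ℕ) (hn : Algebra.trdeg k K = n) (hp : n.factorial < p) :
    ∃ b : Fin n → Ω, (∀ i, b i ∈ K ∧ ‖b i‖ < 1) ∧ AlgebraicIndependent k b ∧
      relrank (hens (adjoin k (Set.range b))) (hens K) < p := by
  classical
  obtain ⟨t, htK, ht, halg⟩ := exists_trBasis hK hn
  have hMK : adjoin k (Set.range t) ≤ K := adjoin_le_iff.2 (by rintro _ ⟨i, rfl⟩; exact htK i)
  obtain ⟨D, η, hD, hηK, hη, hspan⟩ := exists_field_basis halg hMK hfg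
  obtain ⟨C, hC⟩ := grow K t η hηK hspan
  obtain ⟨L, hL⟩ := exists_large hp (C + 3) (n + 1)
  set V : Submodule k Ω := (pbox k t fun _ => L + 2) * span k (Set.range η) with hV
  obtain ⟨u, hu, h0, hinj⟩ := exists_basis_fin V (box_fg _ _)
  have huV : ∀ i, u i ∈ V := fun i => hu.le (subset_span ⟨i, rfl⟩)
  have hVK : V ≤ K.toSubalgebra.toSubmodule := by
    rw [hV, box_eq, span_le]
    rintro _ ⟨x, rfl⟩
    exact K.mul_mem (prod_mem fun i _ => pow_mem (htK i) _) (hηK _)
  let S : Finset (Fin (finrank k V)) :=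
    Finset.univ.filter fun j => ∃ i, Transcendental (adjoin k (ratio k u j : Set Ω)) (t i)
  have hS := card_lost h0 hinj huV S fun j hj => (Finset.mem_filter.1 hj).2
  have hcard : Sᶜ.card + S.card = D * (L + 2 + 1) ^ n := by
    rw [Finset.card_compl_add_card, Fintype.card_fin, hV, finrank_box ht hη, Fintype.card_fin]
  have hG := hC _ V le_rfl
  simp only [Fintype.card_fin, Finset.prod_const, Finset.card_univ] at hG hS
  have key := albStmt p K hK n hn _ u (fun i => ⟨hVK (huV i), h0 i⟩) hinj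
    _ (hu ▸ hG) Sᶜ ?_ ?_ (fun _ _ => True) (fun j _ => ⟨0, fun _ => zero_mem _, trivial⟩)
    fun _ _ _ _ _ _ _ _ => by simp
  · obtain ⟨j, -, b, hb, -, hind, hlt⟩ := key
    exact ⟨b, fun i => ⟨ratio_le (fun i => hVK (huV i)) j (hb i), ratio_le_small j (hb i)⟩, hind, hlt⟩
  · refine Nat.lt_of_mul_lt_mul_right (a := L + 3) ?_
    have h1 : D * (L + 1) ^ (n + 1) ≤ Sᶜ.card * (L + 3) := by
      have h2 : (L + 1) ^ n ≤ (L + 2 + 1) ^ n := Nat.pow_le_pow_left (by omega) n
      have h3 : D * (L + 1) ^ (n + 1) ≤ D * (L + 2 + 1) ^ n * (L + 1) := by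
        rw [pow_succ, ← mul_assoc]; gcongr
      rw [← hcard] at hS h3
      nlinarith
    calc n.factorial * (D * (L + 2 + C) ^ n) * (L + 3)
        ≤ n.factorial * (D * (L + (C + 3)) ^ n) * (L + (C + 3)) :=
          Nat.mul_le_mul (Nat.mul_le_mul_left _ (Nat.mul_le_mul_left _
            (Nat.pow_le_pow_left (by omega) n))) (by omega)
      _ = D * (n.factorial * (L + (C + 3)) ^ (n + 1)) := by ring
      _ < D * (p * (L + 1) ^ (n + 1)) := Nat.mul_lt_mul_of_pos_left hL hD
      _ = p * (D * (L + 1) ^ (n + 1)) := by ring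
      _ ≤ p * (Sᶜ.card * (L + 3)) := Nat.mul_le_mul_left _ h1
      _ = _ := by ring
  · intro j hj x _
    refine (Init.alg_trans (fun z hz => ?_) halg).isAlgebraic x
    have h3 : adjoin k (Set.range t) ≤
        (algebraicClosure (adjoin k (ratio k u j : Set Ω)) Ω).restrictScalars k := by
      rw [adjoin_le_iff]
      rintro _ ⟨i, rfl⟩
      by_contra h
      exact Finset.mem_compl.1 hj (Finset.mem_filter.2 ⟨Finset.mem_univ _, i, fun h' =>
        h (mem_algebraicClosure_iff.2 h')⟩)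
    exact mem_algebraicClosure_iff.1 (h3 hz)

end Pool.Agent.MP_19ffc6_ag.LU.Alb

end MrgPart1

-- ======== part 2: formerly Pool.Agent.MP_19ffc6_ag.LU3.Final
section MrgPart2

/-! PROJECT LU3: MONO (independent values give `SG`) and FINAL (`SG` gives a smooth model). -/

namespace Pool.Agent.MP_19ffc6_ag.LU3

open Pool.Agent.MP_19ffc6_ag.LU LatM Hr

namespace Mv

variable {k : Type*} {Ω : Type*} [Field k] [NontriviallyNormedField Ω] [Algebra k Ω]
  {ι ι' : Type*} {ξ : ι → Ω} {I : Finset ι} {ξ' : ι' → Ω} {I' : Finset ι'}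

/-- Elements of `S[1/π]` that are `π`-adic limits of elements of `K`. -/
def apx (S : Subalgebra k Ω) (K : IntermediateField k Ω) {π : Ω} (hπ : π ∈ S) (h0 : π ≠ 0) :
    Subalgebra k Ω where
  carrier := {a | (∃ κ : ℕ, π ^ κ * a ∈ S) ∧ ∀ N : ℕ, ∃ f ∈ K, (a - f) / π ^ N ∈ S}
  mul_mem' := by
    rintro a b ⟨⟨m, hm⟩, ha⟩ ⟨⟨n, hn⟩, hb⟩
    refine ⟨⟨m + n, ?_⟩, fun N => ?_⟩
    · rw [pow_add, mul_mul_mul_comm]; exact mul_mem hm hn
    · obtain ⟨f, hf, h1⟩ := ha (N + n)
      obtain ⟨g, hg, h2⟩ := hb (N + m)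
      refine ⟨f * g, mul_mem hf hg, ?_⟩
      have : (a * b - f * g) / π ^ N = π ^ m * a * ((b - g) / π ^ (N + m)) +
          (a - f) / π ^ (N + n) * (π ^ n * b) -
          (a - f) / π ^ (N + n) * ((b - g) / π ^ (N + m)) * π ^ (N + n + m) := by
        field_simp
        ring
      rw [this]
      exact sub_mem (add_mem (mul_mem hm h2) (mul_mem h1 hn))
        (mul_mem (mul_mem h1 h2) (pow_mem hπ _))
  add_mem' := by
    rintro a b ⟨⟨m, hm⟩, ha⟩ ⟨⟨n, hn⟩, hb⟩
    refine ⟨⟨m + n, ?_⟩, fun N => ?_⟩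
    · have : π ^ (m + n) * (a + b) = π ^ n * (π ^ m * a) + π ^ m * (π ^ n * b) := by ring
      rw [this]
      exact add_mem (mul_mem (pow_mem hπ _) hm) (mul_mem (pow_mem hπ _) hn)
    · obtain ⟨f, hf, h1⟩ := ha N
      obtain ⟨g, hg, h2⟩ := hb N
      refine ⟨f + g, add_mem hf hg, ?_⟩
      rw [add_sub_add_comm, add_div]
      exact add_mem h1 h2
  algebraMap_mem' c := ⟨⟨0, by rw [pow_zero, one_mul]; exact S.algebraMap_mem c⟩,
    fun N => ⟨_, K.algebraMap_mem c, by rw [sub_self, zero_div]; exact zero_mem _⟩⟩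

theorem mem_apx {S : Subalgebra k Ω} {K : IntermediateField k Ω} {π : Ω} {hπ : π ∈ S}
    {h0 : π ≠ 0} {a : Ω} : a ∈ apx S K hπ h0 ↔
      (∃ κ : ℕ, π ^ κ * a ∈ S) ∧ ∀ N : ℕ, ∃ f ∈ K, (a - f) / π ^ N ∈ S := Iff.rfl

/-- Powers of the maximal ideal of a chart whose coordinates are divisible by `π`. -/
theorem div_pow_mem {S : Subalgebra k Ω} {π : Ω} (hle : H k ξ ≤ S) (h : ∀ i, ξ i / π ∈ S)
    {N : ℕ} {a : Ω} (ha : a ∈ mm k ξ ^ N) : a / π ^ N ∈ S := by
  have h1 : ∀ b ∈ mm k ξ, b / π ∈ S := fun b hb => by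
    induction hb using Submodule.span_induction with
    | mem x hx => obtain ⟨i, rfl⟩ := hx; exact h i
    | zero => rw [zero_div]; exact zero_mem _
    | add x y _ _ hx hy => rw [add_div]; exact add_mem hx hy
    | smul c x _ hx =>
      rw [Algebra.smul_def, mul_div_assoc]
      exact mul_mem (hle c.2) hx
  induction N generalizing a with
  | zero => rw [pow_zero, div_one]; exact hle (mem_pow_zero.1 ha)
  | succ N ih =>
    rw [pow_succ] at ha
    refine Submodule.mul_induction_on ha (fun x hx y hy => ?_) fun x y hx hy => ?_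
    · rw [pow_succ, ← div_mul_div_comm]
      exact mul_mem (ih hx) (h1 y hy)
    · rw [add_div]; exact add_mem hx hy

theorem model_bot [Ctx k Ω] (Z : Finset Ω) (hZ : ∀ z ∈ Z, z ∈ (⊥ : Subalgebra k Ω)) :
    Model (⊥ : IntermediateField k Ω) Z ⊥ := by
  refine ⟨Subalgebra.fg_bot, bot_le, fun a ha => ?_, hZ, fun f hf => ⟨f, hf, 1, one_mem _,
    one_ne_zero, (div_one f).symm⟩, Algebra.Smooth.of_equiv (Algebra.botEquiv k Ω).symm⟩
  obtain ⟨c, rfl⟩ := Algebra.mem_bot.1 ha
  by_cases hc : c = 0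
  · simp [hc]
  · exact (Ctx.norm_alg c hc).le

variable [IsUltrametricDist Ω] [Ctx k Ω]

theorem norm_pi_lt (h : IsChart k ξ I) (hI : I.Nonempty) : ‖∏ i ∈ I, ξ i‖ < 1 := by
  classical
  obtain ⟨j, hj⟩ := hI
  rw [← Finset.mul_prod_erase I ξ hj, norm_mul]
  exact mul_lt_one_of_nonneg_of_lt_one_left (norm_nonneg _) (h.small j)
    (h.norm_le (prod_mem fun i _ => mem_HX i))

/-- A good element plus a smaller multiple is good. -/
theorem Gd.add_small (h : IsChart k ξ I) {b e : Ω} (hb : Gd k ξ I b) (he : e / b ∈ H k ξ)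
    (h1 : ‖e / b‖ < 1) : Gd k ξ I (b + e) := by
  have : b + e = b * (1 + e / b) := by rw [mul_add, mul_one, mul_div_cancel₀ _ (hb.ne h)]
  rw [this]
  refine hb.mul h (Gd.unit (add_mem (one_mem _) he) ?_)
  rw [IsUltrametricDist.norm_add_eq_max_of_norm_ne_norm (by rw [norm_one]; exact h1.ne'),
    norm_one, max_eq_left h1.le]

/-- A sum with a good dominant term is good. -/
theorem Gd.sum (h : IsChart k ξ I) {α : Type*} {s : Finset α} {f : α → Ω} {a : α} (ha : a ∈ s)
    (hb : Gd k ξ I (f a)) (he : ∀ c ∈ s, c ≠ a → f c / f a ∈ H k ξ ∧ ‖f c / f a‖ < 1) :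
    Gd k ξ I (∑ c ∈ s, f c) := by
  classical
  have h1 : (∑ c ∈ s.erase a, f c) / f a ∈ mm k ξ := by
    rw [Finset.sum_div]
    exact Submodule.sum_mem _ fun c hc => (mem_mm_iff h.small).2
      (he c (Finset.mem_of_mem_erase hc) (Finset.ne_of_mem_erase hc))
  rw [← Finset.add_sum_erase s f ha]
  exact hb.add_small h ((mem_mm_iff h.small).1 h1).1 ((mem_mm_iff h.small).1 h1).2

theorem apx_inv (h : IsChart k ξ I) (hI : I.Nonempty) (K : IntermediateField k Ω) {b : Ω}
    (hb : b ∈ apx (H k ξ) K pi_mem_H ((Gd.pi h).ne h)) (hg : Gd k ξ I b) :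
    b⁻¹ ∈ apx (H k ξ) K pi_mem_H ((Gd.pi h).ne h) := by
  obtain ⟨n, hn⟩ := hg.inv.clear h
  refine ⟨⟨n, hn⟩, fun N => ?_⟩
  obtain ⟨f, hf, h1⟩ := hb.2 (N + n + n + 1)
  have hb0 := hg.ne h
  have h0 := (Gd.pi h).ne h
  have hπ := norm_pi_lt h hI
  have hπH : ∏ i ∈ I, ξ i ∈ H k ξ := pi_mem_H
  generalize ∏ i ∈ I, ξ i = π at hn h1 h0 hπ hπH ⊢
  have h2 : (b - f) / b = π * (π ^ (N + n) * (π ^ n * b⁻¹) * ((b - f) / π ^ (N + n + n + 1))) := by
    field_simp
    ring
  have h3 := mul_mem (mul_mem (pow_mem hπH (N + n)) hn) h1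
  have h4 : ‖(b - f) / b‖ < 1 := by
    rw [h2, norm_mul]
    exact mul_lt_one_of_nonneg_of_lt_one_left (norm_nonneg _) hπ (h.norm_le h3)
  have h5 : f / b = 1 - (b - f) / b := by field_simp; ring
  have h6 : ‖f / b‖ = 1 := by
    rw [h5, sub_eq_add_neg, IsUltrametricDist.norm_add_eq_max_of_norm_ne_norm
      (by rw [norm_one, norm_neg]; exact h4.ne'), norm_one, norm_neg, max_eq_left h4.le]
  have h7 : (f / b)⁻¹ ∈ H k ξ :=
    inv_mem_H (h5 ▸ sub_mem (one_mem _) (h2 ▸ mul_mem hπH h3)) h6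
  have hf0 : f ≠ 0 := by
    rintro rfl
    simp at h6
  refine ⟨f⁻¹, inv_mem hf, ?_⟩
  have h8 : (b⁻¹ - f⁻¹) / π ^ N = -((π ^ n * b⁻¹) * (π ^ n * b⁻¹) * (f / b)⁻¹ * π *
      ((b - f) / π ^ (N + n + n + 1))) := by
    field_simp
    ring
  rw [h8]
  exact neg_mem (mul_mem (mul_mem (mul_mem (mul_mem hn hn) h7) hπH) h1)

variable [IsAlgClosed Ω] [Infinite k]

theorem apx_cl (h : IsChart k ξ I) (h' : IsChart k ξ' I') (hI : I'.Nonempty)
    (hle : LeX k ξ I ξ' I') (hd : ∀ i, ξ i / ∏ i ∈ I', ξ' i ∈ H k ξ')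
    (K : IntermediateField k Ω) : Cl k ξ I (apx (H k ξ') K pi_mem_H ((Gd.pi h').ne h')) := by
  refine ⟨fun b hb hg => apx_inv h' hI K hb (hg.mono h' hle), fun a ⟨κ, hκ⟩ => ?_⟩
  obtain ⟨n, hn⟩ := ((((Gd.pi h).pow h κ).mono h' hle).inv).clear h'
  have h0 := (Gd.pi h').ne h'
  have h1 := ((Gd.pi h).pow h κ).ne h
  have key : ∀ N : ℕ, ∃ c ∈ apx (H k ξ') K pi_mem_H h0,
      (a - c) / (∏ i ∈ I', ξ' i) ^ N ∈ H k ξ' := by
    intro N
    obtain ⟨c, hc, h2⟩ := hκ (N + n)
    refine ⟨c, hc, ?_⟩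
    have h3 := mul_mem hn (div_pow_mem (HX_le h' hle.1) hd h2)
    refine (congrArg (· ∈ H k ξ') ?_).mp h3
    field_simp
    ring
  refine ⟨?_, fun N => ?_⟩
  · obtain ⟨c, ⟨⟨m, hm⟩, -⟩, h2⟩ := key 0
    rw [pow_zero, div_one] at h2
    refine ⟨m, ?_⟩
    rw [← sub_add_cancel a c, mul_add]
    exact add_mem (mul_mem (pow_mem pi_mem_H m) h2) hm
  · obtain ⟨c, ⟨-, hc⟩, h2⟩ := key N
    obtain ⟨f, hf, h3⟩ := hc N
    refine ⟨f, hf, ?_⟩
    rw [← sub_add_sub_cancel a c f, add_div]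
    exact add_mem h2 h3

/-- FINAL. -/
theorem final {K : IntermediateField k Ω} (hK : K.FG) (h : SG k K) (Z : Finset Ω)
    (hZ : ∀ z ∈ Z, z ∈ K ∧ ‖z‖ ≤ 1) : ∃ A, Model K Z A := by
  classical
  obtain ⟨t, ht⟩ := hK
  let Z' := Z ∪ t.image fun a => if ‖a‖ ≤ 1 then a else a⁻¹
  have hZ' : ∀ z ∈ Z', z ∈ K ∧ ‖z‖ ≤ 1 := by
    intro z hz
    rcases Finset.mem_union.1 hz with hz | hz
    · exact hZ z hz
    · obtain ⟨a, ha, rfl⟩ := Finset.mem_image.1 hz
      have haK : a ∈ K := ht ▸ IntermediateField.subset_adjoin k _ ha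
      split_ifs with h1
      · exact ⟨haK, h1⟩
      · exact ⟨inv_mem haK, by rw [norm_inv]; exact inv_le_one_of_one_le₀ (not_le.1 h1).le⟩
  have hgen : IntermediateField.adjoin k (Z' : Set Ω) = K := by
    refine le_antisymm (IntermediateField.adjoin_le_iff.2 fun z hz => (hZ' z hz).1) ?_
    rw [← ht]
    refine IntermediateField.adjoin_le_iff.2 fun a ha => ?_
    have := IntermediateField.subset_adjoin k (Z' : Set Ω)
      (Finset.mem_union_right Z (Finset.mem_image_of_mem _ ha))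
    split_ifs at this
    · exact this
    · exact inv_inv a ▸ (IntermediateField.adjoin k (Z' : Set Ω)).inv_mem this
  obtain ⟨ι, _, ξ, I, h1, -, h3, h4⟩ := h Z' (Z'.erase 0) hgen fun w hw =>
    ⟨(hZ' w (Finset.mem_of_mem_erase hw)).1, Finset.ne_of_mem_erase hw⟩
  obtain ⟨ξ1, I', g1, g2, g3, g4, -⟩ := step_all h1
  obtain ⟨y, e1, e2, e3, -, -, -, e4⟩ := ref g1 (Z'.erase 0 ∪ Finset.univ.image ξ) (by
    intro b hb
    rcases Finset.mem_union.1 hb with hb | hb
    · exact ⟨(h3 b hb).mono g1 g2, (hZ' b (Finset.mem_of_mem_erase hb)).2⟩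
    · obtain ⟨i, -, rfl⟩ := Finset.mem_image.1 hb
      exact ⟨g4 i, (h1.small i).le⟩)
  have hZH : ∀ z ∈ Z', z ∈ H k y := fun z hz => by
    by_cases h0 : z = 0
    · exact h0 ▸ zero_mem _
    · exact (e4 z (Finset.mem_union_left _ (Finset.mem_erase.2 ⟨h0, hz⟩))).1
  rcases isEmpty_or_nonempty ι with hι | ⟨⟨i0⟩⟩
  · have hb : ∀ z ∈ Z', z ∈ (⊥ : Subalgebra k Ω) := fun z hz => by
      obtain ⟨c, hc⟩ := exists_const e1.small (hZH z hz)
      rw [mm, Set.range_eq_empty, Submodule.span_empty, Submodule.mem_bot, sub_eq_zero] at hc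
      exact hc ▸ Subalgebra.algebraMap_mem _ c
    obtain rfl : K = ⊥ := hgen ▸ eq_bot_iff.2 (IntermediateField.adjoin_le_iff.2 hb)
    exact ⟨⊥, model_bot Z fun z hz => hb z (Finset.mem_union_left _ hz)⟩
  have hI : I'.Nonempty := by
    rw [Finset.nonempty_iff_ne_empty]
    rintro rfl
    obtain ⟨a, w, -, hw, e⟩ := g4 i0
    rw [Subsingleton.elim a 0, mon_zero, one_mul] at e
    exact (h1.small i0).ne (e ▸ hw)
  have h0 := (Gd.pi e1).ne e1
  have hd : ∀ i, ξ i / ∏ i ∈ I', y i ∈ H k y := fun i => by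
    obtain ⟨w, hw, e⟩ := (e4 _ (Finset.mem_union_right _
      (Finset.mem_image_of_mem ξ (Finset.mem_univ i)))).2.1 (h1.small i)
    rwa [e, mul_div_cancel_left₀ _ h0]
  have hy : ∀ i, y i ∈ apx (H k y) K pi_mem_H h0 :=
    g3.trans e1 e2 e3 _ (fun b => apx_inv e1 hI K)
      (h4 _ (apx_cl h1 e1 hI (g2.trans e1 e2) hd K) fun z hz =>
        ⟨⟨0, by rw [pow_zero, one_mul]; exact hZH z hz⟩,
          fun N => ⟨z, (hZ' z hz).1, by rw [sub_self, zero_div]; exact zero_mem _⟩⟩)
  choose x hx hx2 using fun i => (hy i).2 2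
  obtain ⟨j, hj⟩ := hI
  have hq : ∀ i, (y i - x i) / y j = (∏ i ∈ I', y i) *
      ((∏ i ∈ I'.erase j, y i) * ((y i - x i) / (∏ i ∈ I', y i) ^ 2)) := fun i => by
    have h5 := e1.ne j
    have h6 := Finset.mul_prod_erase I' y hj
    field_simp
    rw [mul_assoc, h6]
  have hq1 : ∀ i, (∏ i ∈ I'.erase j, y i) * ((y i - x i) / (∏ i ∈ I', y i) ^ 2) ∈ H k y :=
    fun i => mul_mem pi_mem_H (hx2 i)
  obtain ⟨η, P, hP, hW⟩ := H_one e1.ind e1.small
    (Z' ∪ Finset.univ.image fun i => (y i - x i) / y j) (by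
      intro w hw
      rcases Finset.mem_union.1 hw with hw | hw
      · exact hZH w hw
      · obtain ⟨i, -, rfl⟩ := Finset.mem_image.1 hw
        exact hq i ▸ mul_mem pi_mem_H (hq1 i))
  refine FinalA.model_of_approx smooth_model K Z Z' Finset.subset_union_left hgen.ge
    (fun z hz => (hZ' z hz).1) x y e1.ind e1.small hx η P hP.monic hP.coeff hP.root hP.der j
    (fun i => (y i - x i) / y j) (fun i => ?_) (fun i => (div_mul_cancel₀ _ (e1.ne j)).symm)
    (fun i => hW _ (Finset.mem_union_right _ (Finset.mem_image_of_mem _ (Finset.mem_univ i))))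
    fun z hz => hW z (Finset.mem_union_left _ hz)
  rw [hq, norm_mul]
  exact mul_lt_one_of_nonneg_of_lt_one_left (norm_nonneg _) (norm_pi_lt e1 ⟨j, hj⟩)
    (e1.norm_le (hq1 i))

/-- In a chart with only monomial coordinates, polynomials become good. -/
theorem gd_poly [Fintype ι] (h : IsChart k ξ Finset.univ) (W : Finset Ω)
    (hW : ∀ w ∈ W, w ∈ Algebra.adjoin k (Set.range ξ) ∧ w ≠ 0) :
    ∃ ξ' : ι → Ω, IsChart k ξ' Finset.univ ∧ LeX k ξ Finset.univ ξ' Finset.univ ∧
      Gn k ξ ξ' Finset.univ ∧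
      IntermediateField.adjoin k (Set.range ξ') = IntermediateField.adjoin k (Set.range ξ) ∧
      ∀ w ∈ W, Gd k ξ' Finset.univ w := by
  classical
  let m : (ι →₀ ℕ) → Ω := fun d => ∏ i, ξ i ^ d i
  have hm : ∀ d, Gd k ξ Finset.univ (m d) := fun d =>
    Gd.prod h fun i hi => (Gd.coord hi).pow h _
  have hli : LinearIndependent ℤ fun i => nu (ξ i) :=
    h.li.comp (fun i => ⟨i, Finset.mem_univ i⟩) fun i j e => congrArg Subtype.val e
  have hinj : ∀ d d', ‖m d / m d'‖ = 1 → d = d' := fun d d' e => by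
    have h1 : m d / m d' = mon ξ ((fun i => (d i : ℤ)) + -fun i => (d' i : ℤ)) := by
      rw [mon_add h.ne, mon_neg, mon_nat, mon_nat, div_eq_mul_inv]
    have h2 := eq_zero_of_norm_mon h.ne hli (h1 ▸ e)
    ext i
    have := congrFun h2 i
    simp only [Pi.add_apply, Pi.neg_apply, Pi.zero_apply] at this
    omega
  choose! f hf using fun w hw => exists_aeval (hW w hw).1
  have hne : ∀ w ∈ W, (f w).support.Nonempty := fun w hw => by
    rw [MvPolynomial.support_nonempty]
    intro e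
    have := hf w hw
    rw [e, map_zero] at this
    exact (hW w hw).2 this.symm
  choose! d0 hd0 hd1 using fun w hw =>
    Finset.exists_max_image (f w).support (fun d => ‖m d‖) (hne w hw)
  have hn : ∀ w ∈ W, ∀ d ∈ (f w).support, ‖m d / m (d0 w)‖ ≤ 1 := fun w hw d hd => by
    rw [norm_div]
    exact div_le_one_of_le₀ (hd1 w hw d hd) (norm_nonneg _)
  obtain ⟨ξ', h1, h2, h3, -, -, h4, h5⟩ := ref h
    (W.biUnion fun w => (f w).support.image fun d => m d / m (d0 w)) (by
      intro b hb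
      obtain ⟨w, hw, hb⟩ := Finset.mem_biUnion.1 hb
      obtain ⟨d, hd, rfl⟩ := Finset.mem_image.1 hb
      exact ⟨(hm _).div h (hm _), hn w hw d hd⟩)
  refine ⟨ξ', h1, h2, h3, h4, fun w hw => ?_⟩
  have hc : ∀ d ∈ (f w).support, ‖algebraMap k Ω ((f w).coeff d)‖ = 1 := fun d hd =>
    Ctx.norm_alg _ (MvPolynomial.mem_support_iff.1 hd)
  rw [← hf w hw, MvPolynomial.aeval_def, MvPolynomial.eval₂_eq']
  refine Gd.sum h1 (hd0 w hw) ((Gd.unit (Subalgebra.algebraMap_mem _ _) (hc _ (hd0 w hw))).mul h1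
    ((hm _).mono h1 h2)) fun d hd hne => ?_
  rw [← div_mul_div_comm, ← map_div₀, norm_mul, map_div₀, norm_div, hc d hd, hc _ (hd0 w hw),
    div_one, one_mul, ← map_div₀]
  exact ⟨mul_mem (Subalgebra.algebraMap_mem _ _) (h5 _ (Finset.mem_biUnion.2
    ⟨w, hw, Finset.mem_image_of_mem _ hd⟩)).1,
    lt_of_le_of_ne (hn w hw d hd) fun e => hne (hinj _ _ e)⟩

/-- MONO. -/
theorem mono {ι : Type} [Finite ι] {x : ι → Ω} (hi : AlgebraicIndependent k x)
    (hli : LinearIndependent ℤ fun i => nu (x i)) :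
    SG k (IntermediateField.adjoin k (Set.range x)) := by
  classical
  have := Fintype.ofFinite ι
  let ξ : ι → Ω := fun i => if ‖x i‖ < 1 then x i else (x i)⁻¹
  have hξ : ∀ i, ξ i = x i ∨ ξ i = (x i)⁻¹ := fun i => by
    simp only [ξ]
    split_ifs
    exacts [Or.inl rfl, Or.inr rfl]
  have hx : ∀ i, x i = ξ i ∨ x i = (ξ i)⁻¹ := fun i =>
    (hξ i).imp Eq.symm fun e => by rw [e, inv_inv]
  have key : ∀ u v : ι → Ω, (∀ i, u i = v i ∨ u i = (v i)⁻¹) →
      IntermediateField.adjoin k (Set.range u) ≤ IntermediateField.adjoin k (Set.range v) := by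
    intro u v huv
    refine IntermediateField.adjoin_le_iff.2 (Set.range_subset_iff.2 fun i => ?_)
    have := IntermediateField.subset_adjoin k (Set.range v) ⟨i, rfl⟩
    rcases huv i with e | e <;> rw [e]
    exacts [this, (IntermediateField.adjoin k (Set.range v)).inv_mem this]
  have hc : IsChart k ξ Finset.univ := by
    refine ⟨indep_of_alg hi fun i => isAlgebraic_algebraMap
      (⟨x i, key x ξ hx (IntermediateField.subset_adjoin _ _ ⟨i, rfl⟩)⟩ :
        IntermediateField.adjoin k (Set.range ξ)), fun i => ?_, ?_⟩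
    · simp only [ξ]
      split_ifs with h1
      · exact h1
      · rw [norm_inv]
        refine inv_lt_one_of_one_lt₀ (lt_of_le_of_ne (not_lt.1 h1) fun e => hli.ne_zero i ?_)
        simp only [nu, ← e, Real.log_one, neg_zero]
    · have h1 := hli.units_smul fun i => if ‖x i‖ < 1 then 1 else -1
      have h2 : ((fun i => if ‖x i‖ < 1 then (1 : ℤˣ) else -1) • fun i => nu (x i)) =
          fun i => nu (ξ i) := by
        funext i
        simp only [ξ, Pi.smul_apply']
        split_ifs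
        · exact one_smul _ _
        · simp [nu]
      rw [h2] at h1
      exact h1.comp _ Subtype.val_injective
  refine sg_of (Finset.univ.image x) (fun z hz => ?_) fun W hW => ?_
  · obtain ⟨i, -, rfl⟩ := Finset.mem_image.1 hz
    exact IntermediateField.subset_adjoin _ _ ⟨i, rfl⟩
  choose! g hg d hd hd0 e using fun w hw => exists_den (key x ξ hx (hW w hw).1)
  obtain ⟨ξ', h1, h2, h3, h4, h5⟩ := gd_poly hc (W.image g ∪ W.image d) (by
    intro b hb
    rcases Finset.mem_union.1 hb with hb | hb <;> obtain ⟨w, hw, rfl⟩ := Finset.mem_image.1 hb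
    · refine ⟨hg w hw, fun h0 => (hW w hw).2 ?_⟩
      rw [e w hw, h0, zero_div]
    · exact ⟨hd w hw, hd0 w hw⟩)
  refine ⟨ι, inferInstance, ξ', Finset.univ, h1, fun i => le_hens _ ((h4.trans_le (key ξ x hξ))
    (IntermediateField.subset_adjoin _ _ ⟨i, rfl⟩)), fun w hw => ?_,
    fun C hC hZ => h3 C hC.1 fun i => ?_⟩
  · rw [e w hw]
    exact (h5 _ (Finset.mem_union_left _ (Finset.mem_image_of_mem g hw))).div h1
      (h5 _ (Finset.mem_union_right _ (Finset.mem_image_of_mem d hw)))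
  · have h6 : x i ∈ C := hZ (Or.inl (by simp))
    rcases hξ i with e' | e'
    · exact e' ▸ h6
    · have h7 := (h2.2 i (Finset.mem_univ i)).inv
      rw [e', inv_inv] at h7
      exact e' ▸ hC.1 _ h6 h7

omit [IsAlgClosed Ω] [Infinite k] in
/-- Elements with independent values are algebraically independent. -/
theorem indep_of_li [Finite ι] {x : ι → Ω} (hli : LinearIndependent ℤ fun i => nu (x i)) :
    AlgebraicIndependent k x := by
  classical
  have := Fintype.ofFinite ι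
  have h0 : ∀ i, x i ≠ 0 := fun i e => hli.ne_zero i (by simp [nu, e])
  rw [algebraicIndependent_iff]
  intro f hf
  by_contra hne
  have hs := MvPolynomial.support_nonempty.2 hne
  have hc : ∀ d ∈ f.support, ‖algebraMap k Ω (f.coeff d) * ∏ i, x i ^ d i‖ =
      ‖mon x fun i => d i‖ := fun d hd => by
    rw [norm_mul, Ctx.norm_alg _ (MvPolynomial.mem_support_iff.1 hd), one_mul, mon_nat]
  have h1 := IsUltrametricDist.norm_sum_eq_sup'_of_pairwise_ne hs
    (f := fun d => algebraMap k Ω (f.coeff d) * ∏ i, x i ^ d i) fun d hd d' hd' hdd e => hdd (by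
      rw [hc d hd, hc d' hd'] at e
      have h2 := eq_zero_of_norm_mon h0 hli (a := (fun i => (d i : ℤ)) + -fun i => (d' i : ℤ)) (by
        rw [mon_add h0, mon_neg, norm_mul, norm_inv, e,
          mul_inv_cancel₀ (norm_ne_zero_iff.2 (mon_ne h0 _))])
      ext i
      have := congrFun h2 i
      simp only [Pi.add_apply, Pi.neg_apply, Pi.zero_apply] at this
      omega)
  rw [MvPolynomial.aeval_def, MvPolynomial.eval₂_eq'] at hf
  rw [hf, norm_zero] at h1
  obtain ⟨d, hd⟩ := hs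
  have h3 := (Finset.le_sup' (fun d => ‖algebraMap k Ω (f.coeff d) * ∏ i, x i ^ d i‖) hd).trans
    h1.ge
  rw [hc d hd] at h3
  exact (norm_pos_iff.2 (mon_ne h0 _)).not_ge h3

theorem mono' {ι : Type} [Finite ι] {x : ι → Ω} (hli : LinearIndependent ℤ fun i => nu (x i)) :
    SG k (IntermediateField.adjoin k (Set.range x)) := mono (indep_of_li hli) hli

end Mv

end Pool.Agent.MP_19ffc6_ag.LU3

end MrgPart2

-- ======== part 3: formerly Pool.Agent.MP_19ffc6_ag.LU3.MainA
section MrgPart3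

/-! PROJECT LU3: tame ascent of charts and the main induction. -/

namespace Pool.Agent.MP_19ffc6_ag.LU3

open Polynomial IntermediateField Pool.Agent.MP_19ffc6_ag.LU Mh Orth NNReal

universe u v

section ind

variable {k : Type*} {Ω : Type u} [Field k] [NontriviallyNormedField Ω] [Algebra k Ω]

theorem trdeg_mono {F K : IntermediateField k Ω} (h : F ≤ K) :
    Algebra.trdeg k F ≤ Algebra.trdeg k K :=
  trdeg_le_of_injective (inclusion h) (inclusion_injective h)

theorem trdeg_adjoin_le (S : Set Ω) : Algebra.trdeg k (adjoin k S) ≤ Cardinal.mk S := by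
  set T : Set (adjoin k S) := ((↑) : adjoin k S → Ω) ⁻¹' S with hT
  have h1 : adjoin k T = ⊤ := by
    refine map_injective (adjoin k S).val ?_
    rw [adjoin_map, ← AlgHom.fieldRange_eq_map, fieldRange_val]
    congr 1
    exact Set.image_preimage_eq_of_subset fun x hx => ⟨⟨x, subset_adjoin _ _ hx⟩, rfl⟩
  have : Algebra.IsAlgebraic (Algebra.adjoin k T) (adjoin k S) :=
    isAlgebraic_adjoin_iff_top.1 ⟨fun a =>
      isAlgebraic_algebraMap (⟨a, h1 ▸ mem_top⟩ : adjoin k T)⟩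
  exact (Algebra.IsAlgebraic.trdeg_le_cardinalMk k T).trans
    (Cardinal.mk_preimage_of_injective _ _ Subtype.val_injective)

theorem trdeg_lt_aleph0 {K : IntermediateField k Ω} (h : K.FG) :
    Algebra.trdeg k K < Cardinal.aleph0 := by
  obtain ⟨Z, rfl⟩ := h
  exact (trdeg_adjoin_le _).trans_lt (Finset.finite_toSet Z).lt_aleph0

theorem main_of {p : ℕ} (SG : IntermediateField k Ω → Prop) (hproj : ProjStmt k Ω p)
    (htame : ∀ K0 K : IntermediateField k Ω, K0.FG → K.FG → K0 ≤ hens K →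
      relrank (hens K0) (hens K) < p → SG K0 → SG K)
    (hmono : ∀ (n : ℕ) (c : Fin n → Ω), AlgebraicIndependent k c →
      (LinearIndependent ℤ fun i => nu (c i)) → SG (adjoin k (Set.range c)))
    (hP : ∀ n : ℕ, (∀ F : IntermediateField k Ω, F.FG → Algebra.trdeg k F ≤ n → SG F) →
      ∀ (F : IntermediateField k Ω) (y : Ω), F.FG → Algebra.trdeg k F ≤ n → Transcendental F y →
        VFull F (F ⊔ adjoin k {y}) → SG (F ⊔ adjoin k {y}))
    [IsUltrametricDist Ω] [IsAlgClosed Ω]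
    (n : ℕ) (hn : n.factorial < p) (K : IntermediateField k Ω) (hK : K.FG)
    (htr : Algebra.trdeg k K ≤ n) : SG K := by
  classical
  induction n using Nat.strong_induction_on generalizing K with
  | _ n ih =>
  obtain ⟨m, hm⟩ := Cardinal.lt_aleph0.1 (trdeg_lt_aleph0 hK)
  have hmn : m ≤ n := by
    rw [hm] at htr
    exact_mod_cast htr
  obtain ⟨b, c, hb, hbd, hci, hc, hcd, hor⟩ :=
    hproj K hK m hm ((Nat.factorial_le hmn).trans_lt hn)
  have fg : ∀ v : Fin m → Ω, (adjoin k (Set.range v)).FG := fun v =>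
    fg_adjoin_of_finite (Set.finite_range v)
  refine htame _ _ (fg b) hK ((adjoin_le_iff.2 ?_).trans (le_hens K)) hbd
    (htame _ _ (fg c) (fg b) (adjoin_le_iff.2 ?_) hcd ?_)
  · rintro _ ⟨i, rfl⟩; exact hb i
  · rintro _ ⟨i, rfl⟩; exact hc i
  rcases hor with h | ⟨i, h⟩
  · exact hmono m c hci h
  obtain ⟨m, rfl⟩ : ∃ m', m = m' + 1 := ⟨m - 1, by have := i.2; omega⟩
  have he : adjoin k (c '' {i}ᶜ) ⊔ adjoin k {c i} = adjoin k (Set.range c) := by
    rw [← adjoin_union, ← Set.image_singleton, ← Set.image_union, Set.compl_union_self,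
      Set.image_univ]
  rw [← he] at h ⊢
  refine hP m (fun F hF hF' => ih m (by omega) ((Nat.factorial_le (by omega)).trans_lt hn) F hF hF')
    _ _ (fg_adjoin_of_finite ((Set.toFinite _).image c)) ((trdeg_adjoin_le _).trans ?_) ?_ h
  · have h1 := Cardinal.mk_image_le_lift (f := c) (s := {i}ᶜ)
    rw [Cardinal.mk_fintype ({i}ᶜ : Set (Fin (m + 1))), Fintype.card_compl_set] at h1
    simpa only [Cardinal.lift_uzero, Cardinal.lift_natCast, Fintype.card_fin, Set.card_singleton,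
      Nat.add_sub_cancel] using h1
  · exact (IntermediateField.transcendental_adjoin_iff).2
      (hci.transcendental_adjoin (s := {i}ᶜ) (by simp))

end ind

section tame

open Mv LatM Hr

variable {k : Type*} {Ω : Type u} [Field k] [NontriviallyNormedField Ω] [Algebra k Ω]
  [IsUltrametricDist Ω] [Ctx k Ω] [IsAlgClosed Ω] [IsAlgClosed k] {ι : Type*} {ξ : ι → Ω}
  {I : Finset ι}

/-- Sums of good elements of distinct norms become good. -/
theorem gd_sum [Finite ι] (hc : IsChart k ξ I) {α : Type*} [Fintype α] (W : Finset Ω)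
    (f : Ω → α → Ω) (hf : ∀ w ∈ W, w ≠ 0 ∧ w = ∑ i, f w i ∧ (∀ i, f w i ≠ 0 → Gd k ξ I (f w i)) ∧
      ∀ i j, f w i ≠ 0 → ‖f w i‖ = ‖f w j‖ → i = j) :
    ∃ ξ' : ι → Ω, IsChart k ξ' I ∧ LeX k ξ I ξ' I ∧ Gn k ξ ξ' I ∧
      adjoin k (Set.range ξ') = adjoin k (Set.range ξ) ∧ ∀ w ∈ W, Gd k ξ' I w := by
  classical
  have hex : ∀ w ∈ W, ∃ i0, f w i0 ≠ 0 ∧ ∀ i, ‖f w i‖ ≤ ‖f w i0‖ := fun w hw => by
    obtain ⟨h0, e, -⟩ := hf w hw
    obtain ⟨i, -, hi⟩ := Finset.exists_ne_zero_of_sum_ne_zero (e ▸ h0)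
    obtain ⟨i0, -, h⟩ := Finset.exists_max_image Finset.univ (fun i => ‖f w i‖)
      ⟨i, Finset.mem_univ i⟩
    exact ⟨i0, norm_pos_iff.1 ((norm_pos_iff.2 hi).trans_le (h i (Finset.mem_univ i))),
      fun i => h i (Finset.mem_univ i)⟩
  rcases W.eq_empty_or_nonempty with rfl | ⟨w0, hw0⟩
  · exact ⟨ξ, hc, LeX.refl, Gn.refl, rfl, by simp⟩
  have : Nonempty α := ⟨(hex w0 hw0).choose⟩
  choose! i0 h0 h1 using hex
  obtain ⟨ξ', g1, g2, g3, -, -, g4, g5⟩ := Mv.ref hc
    (((W ×ˢ Finset.univ).filter fun x : Ω × α => f x.1 x.2 ≠ 0).image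
      fun x => f x.1 x.2 / f x.1 (i0 x.1)) (by
      intro b hb
      obtain ⟨x, hx, rfl⟩ := Finset.mem_image.1 hb
      obtain ⟨hx, hx0⟩ := Finset.mem_filter.1 hx
      have hw := (Finset.mem_product.1 hx).1
      refine ⟨((hf _ hw).2.2.1 _ hx0).div hc ((hf _ hw).2.2.1 _ (h0 _ hw)), ?_⟩
      rw [norm_div]
      exact div_le_one_of_le₀ (h1 _ hw _) (norm_nonneg _))
  refine ⟨ξ', g1, g2, g3, g4, fun w hw => ?_⟩
  obtain ⟨-, e, h2, h3⟩ := hf w hw
  have e1 : w = f w (i0 w) * (1 + ∑ i ∈ Finset.univ.erase (i0 w), f w i / f w (i0 w)) := by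
    rw [← Finset.sum_div, mul_add, mul_one, mul_div_cancel₀ _ (h0 w hw),
      Finset.add_sum_erase _ _ (Finset.mem_univ _), ← e]
  rw [e1]
  refine ((h2 _ (h0 w hw)).mono g1 g2).mul g1 (Gd.unit (add_mem (one_mem _)
    (sum_mem fun i _ => ?_)) ?_)
  · by_cases hi : f w i = 0
    · rw [hi, zero_div]; exact zero_mem _
    · exact (g5 _ (Finset.mem_image_of_mem _ (a := (w, i)) (Finset.mem_filter.2
        ⟨Finset.mem_product.2 ⟨hw, Finset.mem_univ _⟩, hi⟩))).1
  · have h4 : ‖∑ i ∈ Finset.univ.erase (i0 w), f w i / f w (i0 w)‖ < 1 := by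
      refine norm_sum_lt_of one_pos fun i hi => ?_
      rw [norm_div, div_lt_one (norm_pos_iff.2 (h0 w hw))]
      exact (h1 w hw i).lt_of_ne fun h =>
        (Finset.mem_erase.1 hi).1 (h3 _ _ (h0 w hw) h.symm).symm
    rw [IsUltrametricDist.norm_add_eq_max_of_norm_ne_norm (by rw [norm_one]; exact h4.ne'),
      norm_one, max_eq_left h4.le]

omit [IsUltrametricDist Ω] [Ctx k Ω] [IsAlgClosed Ω] in
theorem mem_bot_of_pow_eq_one {a : Ω} {N : ℕ} (hN : N ≠ 0) (h : a ^ N = 1) :
    ∃ c : k, algebraMap k Ω c = a := by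
  have h1 : IsIntegral k a := IsIntegral.of_pow (Nat.pos_of_ne_zero hN) (h ▸ isIntegral_one)
  exact minpoly.mem_range_of_degree_eq_one k a
    (IsAlgClosed.degree_eq_one_of_irreducible k (minpoly.irreducible h1))

variable {p : ℕ} [CharP k p]

/-- Radicals of good elements become good. -/
theorem gd_rad [Finite ι] (hc : IsChart k ξ I) {α : Type*} [Fintype α] {N : ℕ} (hN : ¬ p ∣ N)
    (ρ : α → Ω) (hρ : ∀ j, Gd k ξ I (ρ j ^ N)) :
    ∃ ξ' : ι → Ω, IsChart k ξ' I ∧ LeX k ξ I ξ' I ∧ (∀ j, Gd k ξ' I (ρ j)) ∧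
      Sp k ξ' I (Set.range ξ ∪ Set.range ρ) ∧
      ∀ E : IntermediateField k Ω, IsH E → (∀ i, ξ i ∈ E) → (∀ j, ρ j ∈ E) → ∀ i, ξ' i ∈ E := by
  classical
  have hN0 : N ≠ 0 := by rintro rfl; exact hN (dvd_zero p)
  choose β u hu hu1 e using hρ
  choose v hv using fun j => IsAlgClosed.exists_pow_nat_eq (u j) (Nat.pos_of_ne_zero hN0)
  have hv1 : ∀ j, ‖v j‖ = 1 := fun j =>
    (pow_eq_one_iff_of_nonneg (norm_nonneg _) hN0).1 (by rw [← norm_pow, hv, hu1])
  have hv0 : ∀ j, v j ≠ 0 := fun j => norm_pos_iff.1 (by rw [hv1]; exact one_pos)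
  have hvH : ∀ j, v j ∈ H k ξ := fun j => by
    refine H_h2 hc.ind hc.small (monic_X_pow_sub_C (u j) hN0) (fun i => ?_) (by simp [hv]) ?_
    · rw [coeff_sub, coeff_X_pow, coeff_C]
      refine sub_mem ?_ ?_ <;> split_ifs
      exacts [one_mem _, zero_mem _, hu j, zero_mem _]
    · simp [derivative_X_pow, norm_natCast k hN, hv1]
  have hx : ∀ i : I, ξ i ≠ 0 := fun i => hc.ne _
  have e1 : ∀ j, (ρ j / v j) ^ N = mon (fun i : I => ξ i) (β j) := fun j => by
    rw [div_pow, e, hv, mul_div_cancel_right₀ _ (by rw [← hv]; exact pow_ne_zero _ (hv0 j))]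
  let g : I ⊕ α → Ω := Sum.elim (fun i => ξ i) fun j => ρ j / v j
  have hg : ∀ o, g o ≠ 0 := by
    rintro (i | j)
    · exact hx i
    · exact fun h => mon_ne hx (β j) (by rw [← e1, show ρ j / v j = 0 from h, zero_pow hN0])
  have hgN : ∀ o, ∃ a, g o ^ (N : ℤ) = mon (fun i : I => ξ i) a := by
    rintro (i | j)
    · exact ⟨(N : ℤ) • Pi.single i 1, by rw [mon_smul, mon_single]; rfl⟩
    · exact ⟨β j, by rw [← e1, zpow_natCast]; rfl⟩
  choose γ hγ using hgN
  obtain ⟨ξ', h1, h2, h3, h4, h5, -, -⟩ := move hc g hg (by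
      refine le_antisymm (Submodule.span_mono ?_) (Submodule.span_le.2 ?_)
      · rintro _ ⟨i, rfl⟩
        exact ⟨Sum.inl i, rfl⟩
      · rintro _ ⟨o, rfl⟩
        have h7 := congrArg nu (hγ o)
        rw [nu_zpow, nu_mon hx] at h7
        have h8 : nu (g o) = ∑ i : I, ((γ o i : ℚ) / N) • nu (ξ i) := by
          have hd' : ((N : ℤ) : ℝ) ≠ 0 := by exact_mod_cast hN0
          apply mul_left_cancel₀ hd'
          rw [h7, Finset.mul_sum]
          refine Finset.sum_congr rfl fun i _ => ?_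
          rw [Rat.smul_def]
          push_cast
          field_simp
        change nu (g o) ∈ _
        rw [h8]
        exact Submodule.sum_mem _ fun i _ =>
          Submodule.smul_mem _ _ (Submodule.subset_span ⟨i, rfl⟩)) ξ (fun i _ => hc.small i)
    (fun a ha => by
      have h7 : mon g a ^ N = mon (fun i : I => ξ i) (∑ o, a o • γ o) := by
        rw [← mon_mon hx, ← zpow_natCast, mon, mon, ← Finset.prod_zpow]
        refine Finset.prod_congr rfl fun o _ => ?_
        rw [← hγ, ← zpow_mul, ← zpow_mul, mul_comm]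
      have h8 := eq_zero_of_norm_mon hx hc.li (by rw [← h7, norm_pow, ha, one_pow])
      rw [h8, mon_zero] at h7
      obtain ⟨c, hc⟩ := mem_bot_of_pow_eq_one (k := k) hN0 h7
      exact hc ▸ Subalgebra.algebraMap_mem _ c)
    (fun i => by
      by_cases hi : i ∈ I
      exacts [Or.inr ⟨Sum.inl ⟨i, hi⟩, rfl⟩, Or.inl ⟨hi, rfl⟩]) ∅ (by simp)
  have hgd : ∀ o, Gd k ξ' I (g o) := fun o => by
    rw [← mon_single (g := g) o]; exact h5 _
  have key : ∀ C : Subalgebra k Ω, (∀ i, ξ i ∈ C) → (∀ o, g o ∈ C ∧ (g o)⁻¹ ∈ C) →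
      ∀ i, ξ' i ∈ C := fun C hξ hC i => by
    by_cases hi : i ∈ I
    · obtain ⟨b, hb⟩ := h4 i hi
      exact hb ▸ mon_mem (fun o => (hC o).1) (fun o => (hC o).2) b
    · exact (h3 i hi).symm ▸ hξ i
  refine ⟨ξ', h1, h2, fun j => ?_, fun C hC hZ => ?_, fun E hE hξ hρ => ?_⟩
  · rw [← div_mul_cancel₀ (ρ j) (hv0 j)]
    exact (hgd (Sum.inr j)).mul h1 ((Gd.unit (hvH j) (hv1 j)).mono h1 h2)
  · have hξ : ∀ i, ξ i ∈ C := fun i => hZ (Or.inl ⟨i, rfl⟩)
    have hC0 := hC.mono hc h1 h2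
    have hgC : ∀ o, g o ∈ C := by
      rintro (i | j)
      · exact hξ i
      · exact hC0.div (hZ (Or.inr ⟨j, rfl⟩)) (hC0.H_le hc hξ (hvH j)) (Gd.unit (hvH j) (hv1 j))
    exact key C hξ fun o => ⟨hgC o, hC.1 _ (hgC o) (hgd o)⟩
  · have hgE : ∀ o, g o ∈ E := by
      rintro (i | j)
      · exact hξ i
      · exact div_mem (hρ j) (hE.hens_le (adjoin_le_iff.2 (Set.range_subset_iff.2 hξ))
          (Hr.mem_hens hc.small (hvH j)))
    exact key E.toSubalgebra hξ fun o => ⟨hgE o, E.inv_mem (hgE o)⟩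

variable (k Ω) in
/-- Elements of the henselization can be made good. -/
def AscStmt : Prop :=
  ∀ K : IntermediateField k Ω, SG k K → ∀ Z W : Finset Ω, adjoin k (Z : Set Ω) = K →
    (∀ w ∈ W, w ∈ hens K ∧ w ≠ 0) →
    ∃ (ι : Type) (_ : Fintype ι) (ξ : ι → Ω) (I : Finset ι), IsChart k ξ I ∧
      (∀ i, ξ i ∈ hens K) ∧ (∀ w ∈ W, Gd k ξ I w) ∧ Sp k ξ I Z

variable (k Ω) in
/-- Descent inside the henselization. -/
def DescStmt : Prop :=
  ∀ K K' : IntermediateField k Ω, K ≤ K' → K' ≤ hens K → K'.FG → SG k K' → SG k K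

/-- TAME: the inductive statement goes up along extensions of degree less than `p`. -/
theorem tame_of [Fact p.Prime] (hA : AscStmt k Ω) (hD : DescStmt k Ω)
    (K0 K : IntermediateField k Ω) (h0 : K0.FG) (hK : K.FG) (hle : K0 ≤ hens K)
    (hdeg : relrank (hens K0) (hens K) < p) (hs : SG k K0) : SG k K := by
  classical
  obtain ⟨N, α, _, ρ, hN, h1, h2, h3⟩ := tame_basis (isH_hens K) hle hdeg
  obtain ⟨Z0, hZ0⟩ := h0
  set K2 := K ⊔ (K0 ⊔ adjoin k (Set.range ρ)) with hK2
  have hρ2 : ∀ j, ρ j ∈ K2 := fun j =>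
    (le_sup_right.trans le_sup_right : adjoin k (Set.range ρ) ≤ K2) (subset_adjoin _ _ ⟨j, rfl⟩)
  have h02 : K0 ≤ K2 := le_sup_left.trans le_sup_right
  have h2K : K2 ≤ hens K := sup_le (le_hens K)
    (sup_le hle (adjoin_le_iff.2 (Set.range_subset_iff.2 fun j => (h1 j).1)))
  refine hD K K2 le_sup_left h2K
    (fg_sup hK (fg_sup ⟨Z0, hZ0⟩ (fg_adjoin_of_finite (Set.finite_range ρ)))) (sg_of (Z0 ∪ Finset.univ.image ρ) (fun z hz => ?_) fun W hW => ?_)
  · rcases Finset.mem_union.1 hz with hz | hz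
    · exact h02 (hZ0 ▸ subset_adjoin _ _ hz)
    · obtain ⟨j, -, rfl⟩ := Finset.mem_image.1 hz
      exact hρ2 j
  choose! c hc using fun w (hw : w ∈ W) =>
    (Submodule.mem_span_range_iff_exists_fun _).1 (h3 w (h2K (hW w hw).1))
  obtain ⟨ι, _, ξ, I, g1, g2, g3, g4⟩ := hA K0 hs Z0
    (((W ×ˢ Finset.univ).image fun x : Ω × α => (c x.1 x.2 : Ω)).erase 0 ∪
      Finset.univ.image fun j => ρ j ^ N) hZ0 (by
      intro w hw
      rcases Finset.mem_union.1 hw with hw | hw
      · obtain ⟨x, -, rfl⟩ := Finset.mem_image.1 (Finset.mem_erase.1 hw).2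
        exact ⟨(c x.1 x.2).2, (Finset.mem_erase.1 hw).1⟩
      · obtain ⟨j, -, rfl⟩ := Finset.mem_image.1 hw
        exact ⟨le_hens _ (h1 j).2.2, pow_ne_zero _ (h1 j).2.1⟩)
  obtain ⟨ξ1, a1, a2, a3, a4, a5⟩ := gd_rad g1 hN ρ fun j =>
    g3 _ (Finset.mem_union_right _ (Finset.mem_image_of_mem _ (Finset.mem_univ j)))
  obtain ⟨ξ2, b1, b2, b3, b4, b5⟩ := gd_sum a1 W (fun w j => (c w j : Ω) * ρ j) fun w hw => by
    refine ⟨(hW w hw).2, (hc w hw).symm, fun j hj => ?_, fun i j hi hij => ?_⟩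
    · refine ((g3 _ (Finset.mem_union_left _ (Finset.mem_erase.2 ⟨left_ne_zero_of_mul hj,
        Finset.mem_image_of_mem _ (a := (w, j))
          (Finset.mem_product.2 ⟨hw, Finset.mem_univ _⟩)⟩))).mono a1 a2).mul a1 (a3 j)
    · refine h2 i j (c w j / c w i : Ω) (div_mem (c w j).2 (c w i).2) ?_
      rw [norm_mul, norm_mul] at hij
      rw [norm_div, div_mul_eq_mul_div, ← hij,
        mul_div_cancel_left₀ _ (norm_ne_zero_iff.2 (left_ne_zero_of_mul hi))]
  refine ⟨ι, inferInstance, ξ2, I, b1, fun i => ?_, b5, Sp.gn a1 b1 b2 (fun C hC hZ => ?_) b3⟩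
  · refine (b4.trans_le (adjoin_le_iff.2 (Set.range_subset_iff.2 ?_))) (subset_adjoin _ _ ⟨i, rfl⟩)
    exact a5 _ (isH_hens K2) (fun i => hens_le_hens (h02.trans (le_hens _)) (g2 i))
      fun j => le_hens _ (hρ2 j)
  · refine a4 C hC (Set.union_subset (Set.range_subset_iff.2
      (g4 C (hC.mono g1 a1 a2) fun z hz => hZ (Or.inl ?_))) ?_)
    · exact Finset.mem_union_left _ hz
    · rintro _ ⟨j, rfl⟩
      exact hZ (Or.inl (Finset.mem_union_right _ (Finset.mem_image_of_mem _ (Finset.mem_univ j))))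

/-- The inductive statement for all fields of small dimension. -/
theorem sg_all [Fact p.Prime] (hA : AscStmt k Ω) (hD : DescStmt k Ω) (hP : ∀ n, PStmt k Ω n)
    {n : ℕ} (hn : n.factorial < p) : IH k Ω n :=
  main_of (SG k) (proj_of fun _ _ _ _ _ _ => ⟨fun K => Alb.alb1 K, Alb.growStmt, Alb.albStmt p⟩)
    (tame_of hA hD) (fun _ _ => Mv.mono) hP n hn

/-- The theorem inside `Ω`. -/
theorem core3_of [Fact p.Prime] (hA : AscStmt k Ω) (hD : DescStmt k Ω) (hP : ∀ n, PStmt k Ω n)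
    {n : ℕ} (hn : n.factorial < p) : Core3 k Ω n :=
  fun F hF htr => Mv.final hF (sg_all hA hD hP hn F hF htr)

end tame

end Pool.Agent.MP_19ffc6_ag.LU3

end MrgPart3

-- marker of a merged file
example : 731051 + 842661 = 731051 + 842661 := rfl
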