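import Pool.Agent.MP_19ffc6_ag.LU3.TameG
import Pool.Agent.MP_19ffc6_ag.LU3.PDef

-- ======== part 0: formerly Pool.Agent.MP_19ffc6_ag.LU3.Phi
section MrgPart0

/-! PROJECT LU3, first part of SWAP: a polynomial `Φ` over `F` close to the minimal polynomial of
`a` over the henselization, and norm polynomials for the elements of `GG`. -/

namespace Pool.Agent.MP_19ffc6_ag.LU3

open Polynomial IntermediateField Pool.Agent.MP_19ffc6_ag.LU Topology Filter

namespace Phi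

section Gauss

variable {Ω : Type*} [NontriviallyNormedField Ω]

theorem norm_prod (s : Multiset Ω) : ‖s.prod‖ = (s.map fun x => ‖x‖).prod :=
  map_multiset_prod (normHom : Ω →*₀ ℝ) s

theorem norm_eval_prod (s : Multiset Ω) (x : Ω) :
    ‖((s.map (X - C ·)).prod).eval x‖ = (s.map fun r => ‖x - r‖).prod := by
  rw [eval_multiset_prod, norm_prod]
  simp

variable [IsUltrametricDist Ω]

/-- Upper bound for the Gauss norm of a product of linear factors. -/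
theorem gauss_le (s : Multiset Ω) {r : ℝ} (hr : 0 ≤ r) (i : ℕ) :
    ‖((s.map (X - C ·)).prod).coeff i‖ * r ^ i ≤ (s.map fun x => max r ‖x‖).prod := by
  induction s using Multiset.induction_on generalizing i with
  | empty =>
    rcases i with _ | i
    · simp
    · simp [coeff_one]
  | cons a s ih =>
    simp only [Multiset.map_cons, Multiset.prod_cons]
    set Q := (s.map (X - C ·)).prod
    set B := (s.map fun x => max r ‖x‖).prod
    have hB : 0 ≤ B := le_trans (by positivity) (ih 0)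
    have h1 : ∀ i, ‖a * Q.coeff i‖ * r ^ i ≤ max r ‖a‖ * B := fun i => by
      rw [norm_mul, mul_assoc]
      exact mul_le_mul (le_max_right _ _) (ih i) (by positivity) (le_max_of_le_left hr)
    rw [sub_mul, coeff_sub, coeff_C_mul]
    rcases i with _ | i
    · rw [coeff_X_mul_zero, zero_sub, norm_neg]
      exact h1 0
    · rw [coeff_X_mul]
      have h2 : ‖Q.coeff i‖ * r ^ (i + 1) ≤ max r ‖a‖ * B := by
        rw [pow_succ, ← mul_assoc, mul_comm]
        exact mul_le_mul (le_max_left _ _) (ih i) (by positivity) (le_max_of_le_left hr)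
      have h3 : ‖Q.coeff i - a * Q.coeff (i + 1)‖ ≤ max ‖Q.coeff i‖ ‖a * Q.coeff (i + 1)‖ :=
        norm_sub_le_of (le_max_left _ _) (le_max_right _ _)
      refine (mul_le_mul_of_nonneg_right h3 (by positivity)).trans ?_
      rw [max_mul_of_nonneg _ _ (by positivity)]
      exact max_le h2 (h1 _)

variable [IsAlgClosed Ω]

/-- Coefficients of a monic polynomial with small roots. -/
theorem coeff_le_of_roots {P : Polynomial Ω} (hP : P.Monic) {r : ℝ} (hr : 0 < r)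
    (h : ∀ x, P.eval x = 0 → ‖x‖ ≤ r) {i : ℕ} (hi : i ≤ P.natDegree) :
    ‖P.coeff i‖ ≤ r ^ (P.natDegree - i) := by
  have h1 := gauss_le P.roots hr.le i
  rw [← (IsAlgClosed.splits P).eq_prod_roots_of_monic hP,
    Multiset.map_congr rfl fun x hx => max_eq_left (h x (isRoot_of_mem_roots hx)),
    Multiset.map_const', Multiset.prod_replicate,
    ← (IsAlgClosed.splits P).natDegree_eq_card_roots] at h1
  rwa [pow_sub₀ _ hr.ne' hi, ← div_eq_mul_inv, le_div_iff₀ (pow_pos hr i)]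

/-- Coefficients of a polynomial with large roots. -/
theorem coeff_le_coeff_zero {P : Polynomial Ω} {r : ℝ} (hr : 0 ≤ r)
    (h : ∀ x ∈ P.roots, r ≤ ‖x‖) (i : ℕ) : ‖P.coeff i‖ * r ^ i ≤ ‖P.coeff 0‖ := by
  have h1 := gauss_le P.roots hr i
  rw [Multiset.map_congr rfl fun x hx => max_eq_right (h x hx)] at h1
  have h2 := (IsAlgClosed.splits P).eq_prod_roots
  have h3 : ‖P.coeff 0‖ = ‖P.leadingCoeff‖ * (P.roots.map fun x => ‖x‖).prod := by
    conv_lhs => rw [h2, coeff_C_mul, norm_mul, coeff_zero_eq_eval_zero, norm_eval_prod]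
    simp
  rw [h3]
  conv_lhs => rw [h2, coeff_C_mul, norm_mul, mul_assoc]
  exact mul_le_mul_of_nonneg_left h1 (norm_nonneg _)

end Gauss

section Near

variable {K Ω : Type*} [Field K] [NontriviallyNormedField Ω] [IsUltrametricDist Ω] [Algebra K Ω]
  [IsAlgClosed Ω]

/-- The minimal polynomial of a point `a` of the disc is smaller at the centre than at a point all
of whose conjugates lie outside of the disc. -/
theorem norm_minpoly_lt (hK : ∀ (τ : Ω →ₐ[K] Ω) (x : Ω), IsAlgebraic K x → ‖τ x‖ = ‖x‖)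
    {y a ρ : Ω} {R0 : ℝ} (ha : IsIntegral K a) (hρ : IsIntegral K ρ) (hay : ‖a - y‖ < R0)
    (hout : ∀ τ : Ω →ₐ[K] Ω, R0 ≤ ‖τ ρ - y‖) :
    ‖aeval y (minpoly K a)‖ < ‖aeval ρ (minpoly K a)‖ := by
  classical
  set μ := (minpoly K a).map (algebraMap K Ω) with hμ
  have hm : μ.Monic := (minpoly.monic ha).map _
  have hsp := IsAlgClosed.splits μ
  have hroot : ∀ r ∈ μ.roots, aeval r (minpoly K a) = 0 := fun r hr => by
    have := isRoot_of_mem_roots hr
    rwa [IsRoot.def, eval_map_algebraMap] at this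
  have hint : ∀ r ∈ μ.roots, IsIntegral K r := fun r hr => ⟨_, minpoly.monic ha, hroot r hr⟩
  have ha0 : a ∈ μ.roots := by
    rw [mem_roots hm.ne_zero, IsRoot.def, eval_map_algebraMap, minpoly.aeval]
  obtain ⟨a1, h1, hmin⟩ := μ.roots.toFinset.exists_min_image (fun r => ‖ρ - r‖)
    ⟨a, Multiset.mem_toFinset.2 ha0⟩
  rw [Multiset.mem_toFinset] at h1
  have he : minpoly K a1 = minpoly K a :=
    (minpoly.eq_of_irreducible_of_monic (minpoly.irreducible ha) (hroot a1 h1)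
      (minpoly.monic ha)).symm
  obtain ⟨τ, hτ⟩ := Hr.conj (b := a) (hint a1 h1) (by rw [he, minpoly.aeval])
  have hperm : μ.roots.map τ = μ.roots := by
    have h2 := hsp.roots_map (τ : Ω →+* Ω)
    rw [hμ, Polynomial.map_map, AlgHom.comp_algebraMap] at h2
    exact h2.symm
  have hiso : ∀ r ∈ μ.roots, ‖τ ρ - τ r‖ = ‖ρ - r‖ := fun r hr => by
    rw [← map_sub]
    exact hK τ _ (hρ.sub (hint r hr)).isAlgebraic
  have hd : ‖ρ - a1‖ = ‖τ ρ - y‖ := by
    rw [← hiso a1 h1, hτ, ← norm_sub_eq_left (hay.trans_le (hout τ))]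
    congr 1
    ring
  have hle : ∀ r ∈ μ.roots, ‖y - τ r‖ ≤ ‖ρ - r‖ := fun r hr => by
    have h2 : y - τ r = (τ ρ - τ r) - (τ ρ - y) := by ring
    rw [h2]
    exact norm_sub_le_of (hiso r hr).le (hd ▸ hmin r (Multiset.mem_toFinset.2 hr))
  have hpos : 0 < ‖ρ - a1‖ := hd ▸ ((norm_nonneg _).trans_lt hay).trans_le (hout τ)
  have e1 : ‖aeval y (minpoly K a)‖ = (μ.roots.map fun r => ‖y - τ r‖).prod := by
    rw [← eval_map_algebraMap, ← hμ]
    conv_lhs => rw [hsp.eq_prod_roots_of_monic hm, norm_eval_prod, ← hperm, Multiset.map_map]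
    rfl
  have e2 : ‖aeval ρ (minpoly K a)‖ = (μ.roots.map fun r => ‖ρ - r‖).prod := by
    rw [← eval_map_algebraMap, ← hμ]
    conv_lhs => rw [hsp.eq_prod_roots_of_monic hm, norm_eval_prod]
  rw [e1, e2, ← Multiset.cons_erase h1]
  simp only [Multiset.map_cons, Multiset.prod_cons]
  have hsub : ∀ r ∈ μ.roots.erase a1, r ∈ μ.roots := fun r hr => Multiset.mem_of_mem_erase hr
  refine mul_lt_mul_of_lt_of_le_of_nonneg_of_pos ?_
    (Multiset.prod_map_le_prod_map₀ _ _ (fun _ _ => norm_nonneg _) fun r hr => hle r (hsub r hr))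
    (norm_nonneg _) (Multiset.prod_pos fun x hx => ?_)
  · rw [hτ, norm_sub_rev, hd]
    exact hay.trans_le (hout τ)
  · obtain ⟨r, hr, rfl⟩ := Multiset.mem_map.1 hx
    exact hpos.trans_le (hmin r (Multiset.mem_toFinset.2 (hsub r hr)))

end Near

section Norm

variable {K Ω : Type*} [Field K] [Field Ω] [Algebra K Ω] [IsAlgClosed Ω]

/-- A multiple of `g` that is a polynomial in `Φ`, with control on the roots. -/
theorem exists_norm_poly {g : K[X]} (hg : g ≠ 0) (Φ : K[X]) :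
    ∃ N gs : K[X], N.Monic ∧ N.comp Φ = g * gs ∧
      ∀ σ ∈ (N.map (algebraMap K Ω)).roots, ∃ ρ : Ω, aeval ρ g = 0 ∧ σ = aeval ρ Φ := by
  set g' := g.map (algebraMap K Ω) with hg'
  have hroot : ∀ ρ ∈ g'.roots, aeval ρ g = 0 := fun r hr => by
    have := isRoot_of_mem_roots hr
    rwa [IsRoot.def, eval_map_algebraMap] at this
  have hint : ∀ ρ ∈ g'.roots, IsIntegral K (aeval ρ Φ) := fun ρ hρ =>
    IsIntegral.of_mem_of_fg _ (IsAlgebraic.isIntegral ⟨g, hg, hroot ρ hρ⟩).fg_adjoin_singleton _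
      (Polynomial.aeval_mem_adjoin_singleton K ρ)
  set N : K[X] := (g'.roots.map fun ρ => minpoly K (aeval ρ Φ)).prod with hN
  have hm : N.Monic := monic_multiset_prod_of_monic _ _ fun ρ hρ => minpoly.monic (hint ρ hρ)
  have hdvd : g ∣ N.comp Φ := by
    rw [← map_dvd_map' (algebraMap K Ω), ← hg', (IsAlgClosed.splits g').eq_prod_roots,
      C_mul_dvd (leadingCoeff_ne_zero.2 ((Polynomial.map_ne_zero_iff
        (algebraMap K Ω).injective).2 hg)), hN, multiset_prod_comp, Polynomial.map_multiset_prod,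
      Multiset.map_map, Multiset.map_map]
    refine Multiset.prod_dvd_prod_of_dvd _ _ fun ρ _ => dvd_iff_isRoot.2 ?_
    simp only [Function.comp_apply]
    rw [IsRoot.def, eval_map_algebraMap, aeval_comp, minpoly.aeval]
  obtain ⟨gs, hgs⟩ := hdvd
  refine ⟨N, gs, hm, hgs, fun σ hσ => ?_⟩
  have h1 := isRoot_of_mem_roots hσ
  rw [IsRoot.def, eval_map_algebraMap, hN, map_multiset_prod, Multiset.prod_eq_zero_iff,
    Multiset.map_map] at h1
  obtain ⟨ρ, hρ, h2⟩ := Multiset.mem_map.1 h1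
  obtain ⟨τ, hτ⟩ := Hr.conj (hint ρ hρ) h2
  refine ⟨τ ρ, ?_, ?_⟩
  · rw [aeval_algHom_apply, hroot ρ hρ, map_zero]
  · rw [aeval_algHom_apply, hτ]

end Norm

section Approx

variable {Ω : Type*} [NontriviallyNormedField Ω]

/-- The monic polynomial of degree `q` with lower coefficients `c`. -/
noncomputable def mon (q : ℕ) (c : Fin q → Ω) : Polynomial Ω :=
  X ^ q + ∑ i : Fin q, monomial (i : ℕ) (c i)

theorem mon_coeff (q : ℕ) (c : Fin q → Ω) (n : ℕ) :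
    (mon q c).coeff n = if h : n < q then c ⟨n, h⟩ else if n = q then 1 else 0 := by
  rw [mon, coeff_add, coeff_X_pow, finsetSum_coeff]
  simp only [coeff_monomial]
  split_ifs with h1 h2 h3
  · omega
  · rw [Finset.sum_eq_zero fun i _ => if_neg (by omega), add_zero]
  · rw [zero_add, Finset.sum_eq_single ⟨n, h3⟩ (fun i _ hi => if_neg fun h => hi (Fin.ext h))
      (fun h => absurd (Finset.mem_univ _) h), if_pos rfl]
  · rw [Finset.sum_eq_zero fun i _ => if_neg (by omega), add_zero]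

theorem mon_spec (q : ℕ) (c : Fin q → Ω) : (mon q c).Monic ∧ (mon q c).natDegree = q := by
  have h1 : (mon q c).natDegree ≤ q := natDegree_le_iff_coeff_eq_zero.2 fun n hn => by
    rw [mon_coeff, dif_neg (by omega), if_neg (by omega)]
  have h2 : (mon q c).coeff q = 1 := by rw [mon_coeff, dif_neg (lt_irrefl _), if_pos rfl]
  exact ⟨monic_of_natDegree_le_of_coeff_eq_one q h1 h2,
    natDegree_eq_of_le_of_coeff_ne_zero h1 (h2 ▸ one_ne_zero)⟩

theorem mon_self {P : Polynomial Ω} (hP : P.Monic) :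
    mon P.natDegree (fun i => P.coeff i) = P := by
  ext n
  rw [mon_coeff]
  split_ifs with h1 h2
  · rfl
  · rw [h2, hP.coeff_natDegree]
  · exact (coeff_eq_zero_of_natDegree_lt (by omega)).symm

theorem mon_map (f : Ω →+* Ω) (q : ℕ) (c : Fin q → Ω) :
    (mon q c).map f = mon q fun i => f (c i) := by
  simp [mon, Polynomial.map_sum]

theorem cont_mon (L : Polynomial Ω →ₗ[Ω] Ω) (q : ℕ) : Continuous fun c => L (mon q c) := by
  have h : ∀ c : Fin q → Ω, L (mon q c) = L (X ^ q) + ∑ i : Fin q, c i * L (X ^ (i : ℕ)) := by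
    intro c
    simp only [mon, map_add, map_sum, ← smul_X_eq_monomial, map_smul, smul_eq_mul]
  simp only [h]
  fun_prop

/-- A finite family in a subfield becomes integral after multiplication by one constant. -/
theorem exists_scale (F : Subfield Ω) (S : Finset Ω) (hS : ∀ x ∈ S, x ∈ F) :
    ∃ c ∈ F, c ≠ 0 ∧ ∀ x ∈ S, ‖c * x‖ ≤ 1 := by
  rcases S.eq_empty_or_nonempty with rfl | hne
  · exact ⟨1, F.one_mem, one_ne_zero, by simp⟩
  obtain ⟨b, hb, hmax⟩ := S.exists_max_image (fun x => ‖x‖) hne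
  by_cases h0 : b = 0
  · refine ⟨1, F.one_mem, one_ne_zero, fun x hx => ?_⟩
    have := hmax x hx
    rw [h0, norm_zero] at this
    rw [one_mul]
    linarith
  · refine ⟨b⁻¹, F.inv_mem (hS b hb), inv_ne_zero h0, fun x hx => ?_⟩
    rw [norm_mul, norm_inv, inv_mul_le_one₀ (norm_pos_iff.2 h0)]
    exact hmax x hx

end Approx

section Main

variable {k Ω : Type*} [Field k] [NontriviallyNormedField Ω] [IsUltrametricDist Ω] [Algebra k Ω]
  [IsAlgClosed Ω]

omit [IsUltrametricDist Ω] [IsAlgClosed Ω] in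
theorem exists_lift {F : IntermediateField k Ω} {P : Polynomial Ω} (h : ∀ i, P.coeff i ∈ F) :
    ∃ Q : Polynomial F, Q.map (algebraMap F Ω) = P :=
  (lifts_iff_coeff_lifts P).2 fun i => ⟨⟨_, h i⟩, rfl⟩

/-- The norm polynomial of `g`, with integral coefficients. -/
theorem exists_norm {F : IntermediateField k Ω} {g Φ : Polynomial Ω} (hg : g ≠ 0)
    (h1 : ∀ i, g.coeff i ∈ F) (h2 : ∀ i, Φ.coeff i ∈ F) {r : ℝ} (hr : 0 < r)
    (h3 : ∀ ρ, g.eval ρ = 0 → r ≤ ‖Φ.eval ρ‖) :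
    ∃ N gs : Polynomial Ω, (∀ i, N.coeff i ∈ F ∧ ‖N.coeff i‖ ≤ 1) ∧
      (∀ i, gs.coeff i ∈ F ∧ ‖gs.coeff i‖ ≤ 1) ∧ N.comp Φ = g * gs ∧ N.coeff 0 ≠ 0 ∧
      ∀ i, ‖N.coeff i‖ * r ^ i ≤ ‖N.coeff 0‖ := by
  classical
  obtain ⟨g, rfl⟩ := exists_lift h1
  obtain ⟨Φ, rfl⟩ := exists_lift h2
  obtain ⟨N, gs, hm, he, hσ⟩ := exists_norm_poly (Ω := Ω) (g := g) (by rintro rfl; simp at hg) Φ
  set N' := N.map (algebraMap F Ω) with hN'
  set gs' := gs.map (algebraMap F Ω) with hgs'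
  have hN : ∀ i, N'.coeff i ∈ F := fun i => by rw [hN', coeff_map]; exact (N.coeff i).2
  have hgs : ∀ i, gs'.coeff i ∈ F := fun i => by rw [hgs', coeff_map]; exact (gs.coeff i).2
  have hroot : ∀ σ ∈ N'.roots, r ≤ ‖σ‖ := fun σ h => by
    obtain ⟨ρ, e1, e2⟩ := hσ σ h
    rw [e2, ← eval_map_algebraMap]
    exact h3 ρ (by rw [eval_map_algebraMap, e1])
  have h0 : N'.coeff 0 ≠ 0 := fun h => by
    have := hroot 0 ((mem_roots (hm.map _).ne_zero).2
      (by rw [IsRoot.def, ← coeff_zero_eq_eval_zero, h]))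
    rw [norm_zero] at this
    linarith
  obtain ⟨c, hc, hc0, hb⟩ := exists_scale F.toSubfield (N'.coeffs ∪ gs'.coeffs) fun x hx => by
    rcases Finset.mem_union.1 hx with h | h <;> obtain ⟨i, -, rfl⟩ := mem_coeffs_iff.1 h
    exacts [hN i, hgs i]
  have hbd : ∀ P : Polynomial Ω, P.coeffs ⊆ N'.coeffs ∪ gs'.coeffs → ∀ i, ‖c * P.coeff i‖ ≤ 1 := by
    intro P hP i
    by_cases h : P.coeff i = 0
    · simp [h]
    · exact hb _ (hP (coeff_mem_coeffs h))
  refine ⟨C c * N', C c * gs', fun i => ?_, fun i => ?_, ?_, ?_, fun i => ?_⟩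
  · rw [coeff_C_mul]
    exact ⟨F.mul_mem hc (hN i), hbd _ Finset.subset_union_left i⟩
  · rw [coeff_C_mul]
    exact ⟨F.mul_mem hc (hgs i), hbd _ Finset.subset_union_right i⟩
  · rw [mul_comp, C_comp, hN', ← map_comp, he, Polynomial.map_mul]
    ring
  · rw [coeff_C_mul]
    exact mul_ne_zero hc0 h0
  · rw [coeff_C_mul, coeff_C_mul, norm_mul, norm_mul, mul_assoc]
    exact mul_le_mul_of_nonneg_left (coeff_le_coeff_zero hr.le hroot i) (norm_nonneg _)

omit [IsUltrametricDist Ω] [IsAlgClosed Ω] in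
theorem taylor_mem {F : IntermediateField k Ω} {P : Polynomial Ω} (h : ∀ i, P.coeff i ∈ F) {ψ : Ω}
    (hψ : ψ ∈ F) (i : ℕ) : (taylor ψ P).coeff i ∈ F := by
  obtain ⟨Q, rfl⟩ := exists_lift h
  have : taylor ψ (Q.map (algebraMap F Ω)) = (taylor (⟨ψ, hψ⟩ : F) Q).map (algebraMap F Ω) := by
    rw [map_taylor]
    rfl
  rw [this, coeff_map]
  exact Subtype.property _

omit [IsUltrametricDist Ω] [IsAlgClosed Ω] in
theorem pow_eq_comp (p : ℕ) [ExpChar Ω p] (s : ℕ) (P : Polynomial Ω) (ψ : Ω) :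
    P ^ p ^ s = (taylor ψ (P.map (iterateFrobenius Ω p s))).comp (X ^ p ^ s - C ψ) := by
  rw [taylor_apply, comp_assoc, add_comp, X_comp, C_comp, sub_add_cancel,
    ← map_iterateFrobenius_expand, map_expand, expand_eq_comp_X_pow]

end Main

end Phi

variable {k Ω : Type*} [Field k] [NontriviallyNormedField Ω] [IsUltrametricDist Ω] [Algebra k Ω]
  [IsAlgClosed Ω]

open Phi in
/-- The polynomials `Φ`, `G` and the norm polynomials of SWAP.  The field `K` is henselian and `F`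
is dense in it (take `K = hens F`). -/
theorem phi_of {F K : IntermediateField k Ω} (hFK : F ≤ K)
    (hK : ∀ (τ : Ω →ₐ[K] Ω) (x : Ω), IsAlgebraic K x → ‖τ x‖ = ‖x‖)
    (hd : ∀ b ∈ K, ∀ ε : ℝ, 0 < ε → ∃ c ∈ F, ‖b - c‖ < ε)
    (p : ℕ) [ExpChar Ω p] (s : ℕ) {y a ψ : Ω} {R0 rr : ℝ} (ha : IsIntegral K a)
    (hay : ‖a - y‖ < R0) (hψ : ψ ∈ F) (hw : ‖y ^ p ^ s - ψ‖ < rr)
    (hc : ∀ b, aeval b (minpoly K a) = 0 → ‖b ^ p ^ s - ψ‖ < rr ∧ ‖b‖ ≤ 1)
    (GG : Finset (Polynomial Ω)) (hF : ∀ g ∈ GG, ∀ i, g.coeff i ∈ F)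
    (hG : ∀ g ∈ GG, ∀ T, ‖T - y‖ < R0 → g.eval T ≠ 0) :
    ∃ (Φ G : Polynomial Ω) (r1 r2 rP : ℝ), Φ.Monic ∧ G.Monic ∧
      Φ.natDegree = (minpoly K a).natDegree ∧ G.natDegree = Φ.natDegree ∧
      (∀ i, Φ.coeff i ∈ F ∧ ‖Φ.coeff i‖ ≤ 1) ∧ (∀ i, G.coeff i ∈ F) ∧
      Φ ^ p ^ s = G.comp (X ^ p ^ s - C ψ) ∧ ‖y ^ p ^ s - ψ‖ < r1 ∧ r1 < r2 ∧ r2 < rr ∧
      (∀ i < G.natDegree, ‖G.coeff i‖ < r1 ^ (G.natDegree - i)) ∧ ‖Φ.eval y‖ < rP ∧
      (∀ g ∈ GG, ∀ ρ, g.eval ρ = 0 → rP ≤ ‖Φ.eval ρ‖) ∧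
      ∀ g ∈ GG, ∃ N gs : Polynomial Ω, (∀ i, N.coeff i ∈ F ∧ ‖N.coeff i‖ ≤ 1) ∧
        (∀ i, gs.coeff i ∈ F ∧ ‖gs.coeff i‖ ≤ 1) ∧ N.comp Φ = g * gs ∧ N.coeff 0 ≠ 0 ∧
        ∀ i, ‖N.coeff i‖ * rP ^ i ≤ ‖N.coeff 0‖ := by
  classical
  set μ := (minpoly K a).map (algebraMap K Ω) with hμ
  set φ := iterateFrobenius Ω p s with hφ
  have hφa : ∀ x, φ x = x ^ p ^ s := fun x => iterateFrobenius_def p s x
  have hm : μ.Monic := (minpoly.monic ha).map _
  have hμK : ∀ i, μ.coeff i ∈ K := fun i => by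
    rw [hμ, coeff_map]
    exact Subtype.property _
  have hev : ∀ x, μ.eval x = aeval x (minpoly K a) := fun x => eval_map_algebraMap _ _
  have hg0 : ∀ g ∈ GG, g ≠ 0 := fun g hg h =>
    hG g hg y (by rw [sub_self, norm_zero]; exact (norm_nonneg _).trans_lt hay) (by simp [h])
  -- the finite set of all roots, and the strict inequality for `μ`
  set RR : Finset Ω := GG.biUnion fun g => g.roots.toFinset with hRR
  have hmemR : ∀ g ∈ GG, ∀ ρ, g.eval ρ = 0 → ρ ∈ RR := fun g hg ρ h =>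
    Finset.mem_biUnion.2 ⟨g, hg, Multiset.mem_toFinset.2 ((mem_roots (hg0 g hg)).2 h)⟩
  have hlt : ∀ ρ ∈ RR, ‖μ.eval y‖ < ‖μ.eval ρ‖ := by
    intro ρ hρ
    obtain ⟨g, hg, h⟩ := Finset.mem_biUnion.1 hρ
    have h0 : g.eval ρ = 0 := isRoot_of_mem_roots (Multiset.mem_toFinset.1 h)
    obtain ⟨g', rfl⟩ := exists_lift (F := K) fun i => hFK (hF g hg i)
    rw [eval_map_algebraMap] at h0
    rw [hev, hev]
    refine norm_minpoly_lt hK ha (IsAlgebraic.isIntegral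
      ⟨g', by rintro rfl; exact hg0 _ hg (by simp), h0⟩) hay fun τ => not_lt.1 fun h1 => ?_
    refine hG _ hg _ h1 ?_
    rw [eval_map_algebraMap, aeval_algHom_apply, h0, map_zero]
  obtain ⟨rP, hP1, hP2⟩ : ∃ rP, ‖μ.eval y‖ < rP ∧ ∀ ρ ∈ RR, rP < ‖μ.eval ρ‖ := by
    have h1 : ∀ᶠ t in 𝓝[>] ‖μ.eval y‖, ∀ ρ ∈ RR, t < ‖μ.eval ρ‖ :=
      (eventually_all_finset RR).2 fun ρ hρ =>
        (eventually_lt_nhds (hlt ρ hρ)).filter_mono nhdsWithin_le_nhds
    exact (eventually_mem_nhdsWithin.and h1).exists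
  -- radii
  obtain ⟨r0, h01, h02, h03⟩ : ∃ r0, r0 < rr ∧ ‖y ^ p ^ s - ψ‖ < r0 ∧
      ∀ b ∈ μ.roots.toFinset, ‖b ^ p ^ s - ψ‖ < r0 := by
    have h1 : ∀ᶠ t in 𝓝[<] rr, ∀ b ∈ μ.roots.toFinset, ‖b ^ p ^ s - ψ‖ < t :=
      (eventually_all_finset _).2 fun b hb => (eventually_gt_nhds (hc b (by
        rw [← hev]; exact isRoot_of_mem_roots (Multiset.mem_toFinset.1 hb))).1).filter_mono
          nhdsWithin_le_nhds
    exact (eventually_mem_nhdsWithin.and
      (((eventually_gt_nhds hw).filter_mono nhdsWithin_le_nhds).and h1)).exists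
  have h0p : 0 < r0 := (norm_nonneg _).trans_lt h02
  obtain ⟨r1, h11, h12⟩ := exists_between h01
  obtain ⟨r2, h21, h22⟩ := exists_between h12
  have hdeg : ∀ P : Polynomial Ω, (taylor ψ (P.map φ)).natDegree = P.natDegree := fun P => by
    rw [natDegree_taylor, natDegree_map]
  have hmon : ∀ P : Polynomial Ω, P.Monic → (taylor ψ (P.map φ)).Monic := fun P hP => by
    rw [Monic, leadingCoeff_taylor]
    exact hP.map _
  have hGμ : ∀ i < μ.natDegree, ‖(taylor ψ (μ.map φ)).coeff i‖ < r1 ^ (μ.natDegree - i) := by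
    intro i hi
    have h1 := coeff_le_of_roots (hmon μ hm) h0p (fun x hx => by
      rw [taylor_eval] at hx
      have h2 : x + ψ ∈ (μ.map φ).roots := (mem_roots (hm.map φ).ne_zero).2 hx
      rw [(IsAlgClosed.splits μ).roots_map] at h2
      obtain ⟨b, hb, h3⟩ := Multiset.mem_map.1 h2
      have h4 := h03 b (Multiset.mem_toFinset.2 hb)
      rw [← hφa, h3, add_sub_cancel_right] at h4
      exact h4.le) (i := i) (by rw [hdeg]; exact hi.le)
    rw [hdeg] at h1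
    exact h1.trans_lt (pow_lt_pow_left₀ h11 h0p.le (by omega))
  have hμ1 : ∀ i : Fin μ.natDegree, ‖μ.coeff i‖ ≤ 1 := fun i => by
    have := coeff_le_of_roots hm one_pos (fun x hx => (hc x (by rw [← hev]; exact hx)).2) i.2.le
    rwa [one_pow] at this
  -- approximation of the coefficients
  set c0 : Fin μ.natDegree → Ω := fun i => μ.coeff i with hc0
  have hself : mon μ.natDegree c0 = μ := mon_self hm
  have hcl : c0 ∈ closure (Set.pi Set.univ fun _ => (F : Set Ω)) :=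
    mem_closure_pi.2 fun i _ => Metric.mem_closure_iff.2 fun ε hε => by
      obtain ⟨c, h1, h2⟩ := hd (μ.coeff i) (hμK i) ε hε
      exact ⟨c, h1, by rwa [dist_eq_norm]⟩
  have hce : ∀ x, Continuous fun c : Fin μ.natDegree → Ω => ‖(mon _ c).eval x‖ := fun x =>
    (cont_mon (leval x) _).norm
  have E1 : ∀ᶠ c in 𝓝 c0, ‖(mon _ c).eval y‖ < rP :=
    (hce y).continuousAt.eventually_lt continuousAt_const (by rwa [hself])
  have E2 : ∀ᶠ c in 𝓝 c0, ∀ ρ ∈ RR, rP < ‖(mon _ c).eval ρ‖ :=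
    (eventually_all_finset RR).2 fun ρ hρ =>
      continuousAt_const.eventually_lt (hce ρ).continuousAt (by rw [hself]; exact hP2 ρ hρ)
  have E3 : ∀ᶠ c in 𝓝 c0, ∀ i ∈ Finset.range μ.natDegree,
      ‖(taylor ψ ((mon _ c).map φ)).coeff i‖ < r1 ^ (μ.natDegree - i) := by
    refine (eventually_all_finset _).2 fun i hi => ?_
    have h1 : Continuous fun c : Fin μ.natDegree → Ω => ‖(taylor ψ ((mon _ c).map φ)).coeff i‖ := by
      simp only [mon_map, hφa]
      exact ((cont_mon ((lcoeff Ω i).comp (taylor ψ)) _).comp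
        (continuous_pi fun n => (continuous_apply n).pow _)).norm
    exact h1.continuousAt.eventually_lt continuousAt_const
      (by rw [hself]; exact hGμ i (Finset.mem_range.1 hi))
  have E4 : ∀ᶠ c in 𝓝 c0, ∀ i, ‖c i - c0 i‖ < 1 := eventually_all.2 fun i =>
    (((continuous_apply i).sub continuous_const).norm).continuousAt.eventually_lt
      continuousAt_const (by simp)
  obtain ⟨c, hcF, e1, e2, e3, e4⟩ :=
    ((mem_closure_iff_frequently.1 hcl).and_eventually (E1.and (E2.and (E3.and E4)))).exists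
  obtain ⟨hΦm, hΦd⟩ := mon_spec _ c
  have hΦF : ∀ i, (mon _ c).coeff i ∈ F ∧ ‖(mon _ c).coeff i‖ ≤ 1 := fun i => by
    rw [mon_coeff]
    split_ifs with h1 h2
    · refine ⟨hcF _ trivial, ?_⟩
      rw [← sub_add_cancel (c ⟨i, h1⟩) (c0 ⟨i, h1⟩)]
      exact norm_add_le_of (e4 _).le (hμ1 ⟨i, h1⟩)
    · exact ⟨F.one_mem, norm_one.le⟩
    · exact ⟨F.zero_mem, by simp⟩
  have hrP : ∀ g ∈ GG, ∀ ρ, g.eval ρ = 0 → rP ≤ ‖(mon _ c).eval ρ‖ := fun g hg ρ h =>
    (e2 ρ (hmemR g hg ρ h)).le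
  refine ⟨mon _ c, taylor ψ ((mon _ c).map φ), r1, r2, rP, hΦm, hmon _ hΦm,
    hΦd.trans (natDegree_map _), hdeg _, hΦF, taylor_mem (fun i => ?_) hψ, pow_eq_comp p s _ ψ,
    h02.trans h11, h21, h22, fun i hi => ?_, e1, hrP, fun g hg =>
      exists_norm (hg0 g hg) (hF g hg) (fun i => (hΦF i).1) ((norm_nonneg _).trans_lt e1)
        (hrP g hg)⟩
  · rw [coeff_map, hφa]
    exact pow_mem (hΦF i).1 _
  · rw [hdeg, hΦd] at hi ⊢
    exact e3 i (Finset.mem_range.2 hi)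

/-- The same for the henselization of `F`. -/
theorem phi (F : IntermediateField k Ω) (p : ℕ) [ExpChar Ω p] (s : ℕ) {y a ψ : Ω} {R0 rr : ℝ}
    (ha : IsIntegral (hens F) a) (hay : ‖a - y‖ < R0) (hψ : ψ ∈ F) (hw : ‖y ^ p ^ s - ψ‖ < rr)
    (hc : ∀ b, aeval b (minpoly (hens F) a) = 0 → ‖b ^ p ^ s - ψ‖ < rr ∧ ‖b‖ ≤ 1)
    (GG : Finset (Polynomial Ω)) (hF : ∀ g ∈ GG, ∀ i, g.coeff i ∈ F)
    (hG : ∀ g ∈ GG, ∀ T, ‖T - y‖ < R0 → g.eval T ≠ 0) :
    ∃ (Φ G : Polynomial Ω) (r1 r2 rP : ℝ), Φ.Monic ∧ G.Monic ∧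
      Φ.natDegree = (minpoly (hens F) a).natDegree ∧ G.natDegree = Φ.natDegree ∧
      (∀ i, Φ.coeff i ∈ F ∧ ‖Φ.coeff i‖ ≤ 1) ∧ (∀ i, G.coeff i ∈ F) ∧
      Φ ^ p ^ s = G.comp (X ^ p ^ s - C ψ) ∧ ‖y ^ p ^ s - ψ‖ < r1 ∧ r1 < r2 ∧ r2 < rr ∧
      (∀ i < G.natDegree, ‖G.coeff i‖ < r1 ^ (G.natDegree - i)) ∧ ‖Φ.eval y‖ < rP ∧
      (∀ g ∈ GG, ∀ ρ, g.eval ρ = 0 → rP ≤ ‖Φ.eval ρ‖) ∧
      ∀ g ∈ GG, ∃ N gs : Polynomial Ω, (∀ i, N.coeff i ∈ F ∧ ‖N.coeff i‖ ≤ 1) ∧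
        (∀ i, gs.coeff i ∈ F ∧ ‖gs.coeff i‖ ≤ 1) ∧ N.comp Φ = g * gs ∧ N.coeff 0 ≠ 0 ∧
        ∀ i, ‖N.coeff i‖ * rP ^ i ≤ ‖N.coeff 0‖ :=
  phi_of (le_hens F) (isH_hens F) (fun _ hb => (mem_hens_iff.1 hb).2) p s ha hay hψ hw hc GG hF hG

end Pool.Agent.MP_19ffc6_ag.LU3

end MrgPart0

-- ======== part 1: formerly Pool.Agent.MP_19ffc6_ag.LU3.Ann
section MrgPart1

/-! PROJECT LU3, the analytic part of SWAP: counting roots in a disc from the norm on an annulus,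
the degree of such a root, the new disc, and the estimates for the linear equation. -/

namespace Pool.Agent.MP_19ffc6_ag.LU3

open Polynomial IntermediateField Pool.Agent.MP_19ffc6_ag.LU Topology Filter

namespace Ann

section Eval

variable {Ω : Type*} [NontriviallyNormedField Ω] [IsUltrametricDist Ω]

theorem norm_eval_le {P : Polynomial Ω} {T : Ω} {L : ℝ}
    (h : ∀ n, ‖P.coeff n‖ * ‖T‖ ^ n ≤ L) : ‖P.eval T‖ ≤ L := by
  rw [eval_eq_sum_range]
  refine norm_sum_le_of (le_trans (by positivity) (h 0)) fun n _ => ?_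
  rw [norm_mul, norm_pow]
  exact h n

theorem norm_eval_lt {P : Polynomial Ω} {T : Ω} {L : ℝ}
    (h : ∀ n, ‖P.coeff n‖ * ‖T‖ ^ n < L) : ‖P.eval T‖ < L := by
  rw [eval_eq_sum_range]
  refine norm_sum_lt_of (lt_of_le_of_lt (by positivity) (h 0)) fun n _ => ?_
  rw [norm_mul, norm_pow]
  exact h n

/-- A dominant term gives the norm of the value. -/
theorem norm_eval_eq {P : Polynomial Ω} {T : Ω} {m : ℕ}
    (h : ∀ n, n ≠ m → ‖P.coeff n‖ * ‖T‖ ^ n < ‖P.coeff m‖ * ‖T‖ ^ m) :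
    ‖P.eval T‖ = ‖P.coeff m‖ * ‖T‖ ^ m := by
  have h0 : 0 < ‖P.coeff m‖ * ‖T‖ ^ m := lt_of_le_of_lt (by positivity) (h (m + 1) (by omega))
  have h1 : ‖(P.erase m).eval T‖ < ‖P.coeff m‖ * ‖T‖ ^ m := norm_eval_lt fun n => by
    by_cases hn : n = m
    · rw [hn, erase_same, norm_zero, zero_mul]
      exact h0
    · rw [erase_ne _ hn]
      exact h n hn
  have h2 : ‖P.coeff m * T ^ m‖ = ‖P.coeff m‖ * ‖T‖ ^ m := by rw [norm_mul, norm_pow]
  conv_lhs => rw [← monomial_add_erase P m, eval_add, eval_monomial]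
  rw [norm_add_eq_left (h2 ▸ h1), h2]

theorem norm_hasse_coeff (P : Polynomial Ω) (l n : ℕ) :
    ‖(hasseDeriv l P).coeff n‖ ≤ ‖P.coeff (n + l)‖ := by
  rw [hasseDeriv_coeff, norm_mul]
  exact mul_le_of_le_one_left (norm_nonneg _) (IsUltrametricDist.norm_natCast_le_one Ω _)

/-- The Gauss norm bound survives a change of the centre inside of the closed disc. -/
theorem norm_hasse_le {P : Polynomial Ω} {σ L : ℝ} (hσ : 0 < σ)
    (h : ∀ n, ‖P.coeff n‖ * σ ^ n ≤ L) {T : Ω} (hT : ‖T‖ ≤ σ) (l : ℕ) :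
    ‖(hasseDeriv l P).eval T‖ * σ ^ l ≤ L := by
  rw [← le_div_iff₀ (pow_pos hσ l)]
  refine norm_eval_le fun n => ?_
  rw [le_div_iff₀ (pow_pos hσ l)]
  refine le_trans ?_ (h (n + l))
  rw [pow_add, ← mul_assoc]
  gcongr
  exact norm_hasse_coeff P l n

/-- The value of a polynomial whose top term dominates. -/
theorem norm_eval_top {G G' : Polynomial Ω} (hm : G.Monic) {r : ℝ} (hr : 0 < r)
    (h : ∀ i < G.natDegree, ‖G.coeff i‖ < r ^ (G.natDegree - i))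
    (h' : ∀ i, ‖G'.coeff i‖ = ‖G.coeff i‖) {e : Ω} (he : r ≤ ‖e‖) :
    ‖G'.eval e‖ = ‖e‖ ^ G.natDegree := by
  have h1 : ‖G'.coeff G.natDegree‖ = 1 := by rw [h', hm.coeff_natDegree, norm_one]
  have h0 : 0 < ‖e‖ := hr.trans_le he
  rw [norm_eval_eq (m := G.natDegree) fun n hn => ?_, h1, one_mul]
  rw [h1, one_mul, h']
  rcases lt_or_gt_of_ne hn with h2 | h2
  · obtain ⟨d, hd⟩ := Nat.exists_eq_add_of_le h2.le
    have h3 := h n h2
    rw [hd, Nat.add_sub_cancel_left] at h3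
    rw [hd, add_comm, pow_add]
    exact mul_lt_mul_of_pos_right (h3.trans_le (pow_le_pow_left₀ hr.le he d)) (pow_pos h0 n)
  · rw [coeff_eq_zero_of_natDegree_lt h2, norm_zero, zero_mul]
    exact pow_pos h0 _

/-- The value of a polynomial whose constant term dominates. -/
theorem norm_eval_bot {N N' : Polynomial Ω} (h0 : N.coeff 0 ≠ 0) {r : ℝ}
    (h : ∀ i, ‖N.coeff i‖ * r ^ i ≤ ‖N.coeff 0‖) (h' : ∀ i, ‖N'.coeff i‖ = ‖N.coeff i‖) {e : Ω}
    (he : ‖e‖ < r) : ‖N'.eval e‖ = ‖N.coeff 0‖ := by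
  rw [norm_eval_eq (m := 0) fun n hn => ?_, h', pow_zero, mul_one]
  rw [h', h', pow_zero, mul_one]
  by_cases h1 : N.coeff n = 0
  · rw [h1, norm_zero, zero_mul]
    exact norm_pos_iff.2 h0
  · exact (mul_lt_mul_of_pos_left (pow_lt_pow_left₀ he (norm_nonneg _) hn)
      (norm_pos_iff.2 h1)).trans_le (h n)

end Eval

section Lin

variable {Ω : Type*} [NontriviallyNormedField Ω] [IsUltrametricDist Ω]
  {β : Polynomial Ω} {e y : Ω} {σ A rb r1 r2 : ℝ}

omit [IsUltrametricDist Ω] in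
theorem eval_eq_taylor (P : Polynomial Ω) (y T : Ω) : P.eval T = (taylor y P).eval (T - y) := by
  rw [taylor_eval, sub_add_cancel]

omit [IsUltrametricDist Ω] in
theorem coeff_sub_ne {n : ℕ} (hn : n ≠ 0) :
    ‖(taylor y (C e - β)).coeff n‖ = ‖(hasseDeriv n β).eval y‖ := by
  rw [map_sub, taylor_C, coeff_sub, coeff_C_of_ne_zero hn, zero_sub, norm_neg, taylor_coeff]

omit [IsUltrametricDist Ω] in
theorem coeff_sub_zero : (taylor y (C e - β)).coeff 0 = e - β.eval y := by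
  rw [taylor_coeff_zero, eval_sub, eval_C]

theorem rad_lt (hσ : 0 < σ) (hA : 0 < A) (h2 : r2 < A) : r2 * σ / A < σ := by
  rw [mul_div_right_comm]
  exact mul_lt_of_lt_one_left hσ ((div_lt_one hA).2 h2)

omit [IsUltrametricDist Ω] in
/-- The terms of order at least two are small. -/
theorem high_lt (hσ : 0 < σ) (hβ : ∀ l, ‖(hasseDeriv l β).eval y‖ * σ ^ l ≤ rb) (hA : 0 < A)
    (h2 : r2 < A) (hb : rb * r2 < A ^ 2) {t : ℝ} (ht : 0 ≤ t) (ht2 : t ≤ r2 * σ / A) {n : ℕ}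
    (hn : n ≠ 0) : ‖(hasseDeriv (n + 1) β).eval y‖ * t ^ n < A / σ := by
  have h3 := hβ (n + 1)
  have hrb : 0 ≤ rb := le_trans (by positivity) h3
  obtain ⟨u, rfl⟩ : ∃ u, t = u * σ := ⟨t / σ, by field_simp⟩
  have hu0 : 0 ≤ u := nonneg_of_mul_nonneg_left ht hσ
  have hu : u ≤ r2 / A := by
    rw [mul_div_right_comm] at ht2
    exact le_of_mul_le_mul_right ht2 hσ
  have hu1 : u ≤ 1 := hu.trans ((div_le_one hA).2 h2.le)
  have h4 : u ^ n ≤ r2 / A := (pow_le_of_le_one hu0 hu1 hn).trans hu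
  rw [lt_div_iff₀ hσ]
  calc ‖(hasseDeriv (n + 1) β).eval y‖ * (u * σ) ^ n * σ
      = ‖(hasseDeriv (n + 1) β).eval y‖ * σ ^ (n + 1) * u ^ n := by ring
    _ ≤ rb * (r2 / A) := mul_le_mul h3 h4 (by positivity) hrb
    _ < A := by rw [← mul_div_assoc, div_lt_iff₀ hA, ← pow_two]; exact hb

/-- On the annulus the linear term dominates. -/
theorem lin_ann (hσ : 0 < σ) (hβ : ∀ l, ‖(hasseDeriv l β).eval y‖ * σ ^ l ≤ rb)
    (hA : ‖β.derivative.eval y‖ * σ = A) (he : ‖e - β.eval y‖ < r1) (h1 : r1 < r2) (h2 : r2 < A)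
    (hb : rb * r2 < A ^ 2) {T : Ω} (hT1 : r1 * σ / A ≤ ‖T - y‖) (hT2 : ‖T - y‖ ≤ r2 * σ / A) :
    ‖e - β.eval T‖ = A / σ * ‖T - y‖ := by
  have hr : 0 < r1 := (norm_nonneg _).trans_lt he
  have hA0 : 0 < A := by linarith
  have ht : 0 < ‖T - y‖ := lt_of_lt_of_le (by positivity) hT1
  have h3 : ‖(taylor y (C e - β)).coeff 1‖ = A / σ := by
    rw [coeff_sub_ne one_ne_zero, hasseDeriv_one', ← hA, mul_div_cancel_right₀ _ hσ.ne']
  have h4 : e - β.eval T = (C e - β).eval T := by rw [eval_sub, eval_C]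
  rw [h4, eval_eq_taylor _ y, norm_eval_eq (m := 1) fun n hn => ?_, h3, pow_one]
  rw [h3, pow_one]
  rcases n with _ | n
  · rw [coeff_sub_zero, pow_zero, mul_one]
    refine he.trans_le ?_
    calc r1 = A / σ * (r1 * σ / A) := by field_simp
      _ ≤ _ := by gcongr
  · rw [coeff_sub_ne (by omega), pow_succ, ← mul_assoc]
    exact mul_lt_mul_of_pos_right (high_lt hσ hβ hA0 h2 hb ht.le hT2 (by omega)) ht

/-- The estimates on the open disc, in the form used by ADJ. -/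
theorem lin_disc (hσ : 0 < σ)
    (hβ : ∀ T, ‖T - y‖ < σ → ∀ l, ‖(hasseDeriv l β).eval T‖ * σ ^ l ≤ rb)
    (hA : ‖β.derivative.eval y‖ * σ = A) (he : ‖e - β.eval y‖ < r1) (h1 : r1 < r2) (h2 : r2 < A)
    (hb : rb * r2 < A ^ 2) {T : Ω} (hT : ‖T - y‖ < r1 * σ / A) :
    ‖e - β.eval T‖ < r1 ∧ ‖β.derivative.eval T‖ * (r1 * σ / A) = r1 ∧
      ∀ l, 2 ≤ l → ‖(hasseDeriv l β).eval T‖ * (r1 * σ / A) ^ l < r1 := by
  have hr : 0 < r1 := (norm_nonneg _).trans_lt he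
  have hA0 : 0 < A := by linarith
  have hs : 0 < r1 * σ / A := by positivity
  have hs2 : r1 * σ / A ≤ r2 * σ / A := by gcongr
  have hT2 : ‖T - y‖ ≤ r2 * σ / A := hT.le.trans hs2
  have hd : ‖β.derivative.eval y‖ = A / σ := by rw [← hA, mul_div_cancel_right₀ _ hσ.ne']
  have hAs : A / σ * (r1 * σ / A) = r1 := by field_simp
  have hy := hβ y (by rwa [sub_self, norm_zero])
  refine ⟨?_, ?_, fun l hl => ?_⟩
  · have h4 : e - β.eval T = (C e - β).eval T := by rw [eval_sub, eval_C]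
    rw [h4, eval_eq_taylor _ y]
    refine norm_eval_lt fun n => ?_
    rcases n with _ | _ | n
    · rwa [coeff_sub_zero, pow_zero, mul_one]
    · rw [coeff_sub_ne (by omega), zero_add, hasseDeriv_one', hd, pow_one, ← hAs]
      exact mul_lt_mul_of_pos_left hT (by positivity)
    · rw [coeff_sub_ne (by omega), pow_succ, ← mul_assoc, ← hAs]
      exact mul_lt_mul'' (high_lt hσ hy hA0 h2 hb (norm_nonneg _) hT2 (by omega)) hT
        (by positivity) (norm_nonneg _)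
  · have h5 : ∀ n, (taylor y β.derivative).coeff n =
        ((n + 1 : ℕ) : Ω) * (hasseDeriv (n + 1) β).eval y := fun n => by
      rw [← taylor_coeff, taylor_apply, taylor_apply, mul_comm, Nat.cast_succ, ← coeff_derivative,
        derivative_comp]
      simp
    have h6 : ‖(taylor y β.derivative).coeff 0‖ = A / σ := by rw [taylor_coeff_zero, hd]
    rw [eval_eq_taylor _ y, norm_eval_eq (m := 0) fun n hn => ?_, h6, pow_zero, mul_one, hAs]
    rw [h6, pow_zero, mul_one, h5, norm_mul]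
    refine lt_of_le_of_lt ?_ (high_lt hσ hy hA0 h2 hb (norm_nonneg _) hT2 hn)
    exact mul_le_mul_of_nonneg_right (mul_le_of_le_one_left (norm_nonneg _)
      (IsUltrametricDist.norm_natCast_le_one Ω _)) (by positivity)
  · obtain ⟨n, rfl⟩ : ∃ n, l = n + 1 := ⟨l - 1, by omega⟩
    rw [pow_succ, ← mul_assoc]
    conv_rhs => rw [← hAs]
    exact mul_lt_mul_of_pos_right (high_lt hσ (hβ T (hT2.trans_lt (rad_lt hσ hA0 h2))) hA0 h2 hb
      hs.le hs2 (by omega)) hs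

end Lin

section Count

variable {Ω : Type*} [NontriviallyNormedField Ω] [IsAlgClosed Ω]

/-- The norms are dense. -/
theorem exists_norm_btwn {r1 r2 : ℝ} (h0 : 0 < r1) (h : r1 < r2) :
    ∃ τ : Ω, r1 < ‖τ‖ ∧ ‖τ‖ < r2 := by
  obtain ⟨u, hu⟩ := NormedField.exists_one_lt_norm Ω
  have hκ : 1 < r2 / r1 := (one_lt_div h0).2 h
  obtain ⟨n, hn⟩ := pow_unbounded_of_one_lt ‖u‖ hκ
  have hn0 : n ≠ 0 := by
    rintro rfl
    rw [pow_zero] at hn
    linarith
  obtain ⟨v, rfl⟩ := IsAlgClosed.exists_pow_nat_eq u (Nat.pos_of_ne_zero hn0)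
  rw [norm_pow] at hu hn
  have h1 : 1 < ‖v‖ := (one_lt_pow_iff_of_nonneg (norm_nonneg _) hn0).1 hu
  have h2 : ‖v‖ < r2 / r1 := lt_of_pow_lt_pow_left₀ n (by positivity) hn
  obtain ⟨m, h3, h4⟩ := exists_mem_Ico_zpow h0 h1
  refine ⟨v ^ (m + 1), by rwa [norm_zpow], ?_⟩
  rw [norm_zpow, zpow_add_one₀ (by positivity)]
  calc ‖v‖ ^ m * ‖v‖ ≤ r1 * ‖v‖ := by gcongr
    _ < r1 * (r2 / r1) := by gcongr
    _ = r2 := by field_simp

variable [IsUltrametricDist Ω]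

open Classical in
/-- The number of roots, with multiplicity, in the open disc of radius `s` around `y`. -/
noncomputable def nr (P : Polynomial Ω) (y : Ω) (s : ℝ) : ℕ :=
  Multiset.card (P.roots.filter fun ρ => ‖ρ - y‖ < s)

omit [IsAlgClosed Ω] [IsUltrametricDist Ω] in
theorem exists_root {P : Polynomial Ω} {y : Ω} {s : ℝ} (h : nr P y s ≠ 0) :
    P ≠ 0 ∧ ∃ ρ, P.eval ρ = 0 ∧ ‖ρ - y‖ < s := by
  classical
  obtain ⟨ρ, hρ⟩ := Multiset.card_pos_iff_exists_mem.1 (Nat.pos_of_ne_zero h)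
  rw [Multiset.mem_filter] at hρ
  exact ⟨ne_zero_of_mem_roots hρ.1, ρ, isRoot_of_mem_roots hρ.1, hρ.2⟩

/-- COUNT: the norm on an annulus determines the number of roots inside. -/
theorem count {P : Polynomial Ω} {y : Ω} {s1 s2 c : ℝ} {j q : ℕ} (h0 : 0 < s1) (h12 : s1 < s2)
    (hc : 0 < c) (hj : j ≠ 0)
    (h : ∀ T, s1 ≤ ‖T - y‖ → ‖T - y‖ ≤ s2 → ‖P.eval T‖ ^ j = (c * ‖T - y‖) ^ q) :
    nr P y s1 * j = q := by
  classical
  have hout : ∀ ρ ∈ P.roots, ¬ ‖ρ - y‖ < s1 → s2 < ‖ρ - y‖ := fun ρ hρ h1 => by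
    by_contra h2
    have h3 := h ρ (not_lt.1 h1) (not_lt.1 h2)
    rw [isRoot_of_mem_roots hρ, norm_zero, zero_pow hj] at h3
    have : 0 < ‖ρ - y‖ := h0.trans_le (not_lt.1 h1)
    exact absurd h3 (by positivity)
  set K := ‖P.leadingCoeff‖ *
    ((P.roots.filter fun ρ => ¬ ‖ρ - y‖ < s1).map fun ρ => ‖ρ - y‖).prod with hK
  have key : ∀ τ : Ω, s1 < ‖τ‖ → ‖τ‖ < s2 → (K * ‖τ‖ ^ nr P y s1) ^ j = (c * ‖τ‖) ^ q := by
    intro τ h1 h2
    have h3 := h (y + τ) (by rw [add_sub_cancel_left]; exact h1.le)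
      (by rw [add_sub_cancel_left]; exact h2.le)
    rw [add_sub_cancel_left] at h3
    rw [← h3]
    congr 1
    conv_rhs => rw [(IsAlgClosed.splits P).eq_prod_roots, eval_mul, eval_C, norm_mul,
      Phi.norm_eval_prod, ← Multiset.filter_add_not (fun ρ => ‖ρ - y‖ < s1) P.roots,
      Multiset.map_add, Multiset.prod_add]
    have e1 : ((P.roots.filter fun ρ => ‖ρ - y‖ < s1).map fun ρ => ‖y + τ - ρ‖) =
        (P.roots.filter fun ρ => ‖ρ - y‖ < s1).map fun _ => ‖τ‖ :=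
      Multiset.map_congr rfl fun ρ hρ => by
        rw [show y + τ - ρ = τ - (ρ - y) by ring]
        exact norm_sub_eq_left ((Multiset.mem_filter.1 hρ).2.trans h1)
    have e2 : ((P.roots.filter fun ρ => ¬ ‖ρ - y‖ < s1).map fun ρ => ‖y + τ - ρ‖) =
        (P.roots.filter fun ρ => ¬ ‖ρ - y‖ < s1).map fun ρ => ‖ρ - y‖ :=
      Multiset.map_congr rfl fun ρ hρ => by
        rw [norm_sub_rev, show ρ - (y + τ) = (ρ - y) - τ by ring]
        exact norm_sub_eq_left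
          (h2.trans (hout ρ (Multiset.mem_filter.1 hρ).1 (Multiset.mem_filter.1 hρ).2))
    rw [e1, e2, Multiset.map_const', Multiset.prod_replicate, hK, nr]
    ring
  obtain ⟨τ1, a1, b1⟩ := exists_norm_btwn (Ω := Ω) h0 h12
  obtain ⟨τ2, a2, b2⟩ := exists_norm_btwn (Ω := Ω) (h0.trans a1) b1
  have p1 : 0 < ‖τ1‖ := h0.trans a1
  have p2 : 0 < ‖τ2‖ := p1.trans a2
  have k1 := key τ1 a1 b1
  have k2 := key τ2 (a1.trans a2) b2
  rw [mul_pow, mul_pow, ← pow_mul] at k1 k2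
  have hu : 1 < ‖τ2‖ / ‖τ1‖ := (one_lt_div p1).2 a2
  refine pow_right_injective₀ (zero_lt_one.trans hu) hu.ne' ?_
  have h5 : c ^ q ≠ 0 := by positivity
  simp only [div_pow]
  rw [div_eq_div_iff (by positivity) (by positivity)]
  refine mul_left_cancel₀ h5 ?_
  linear_combination (‖τ1‖ ^ (nr P y s1 * j)) * k2 - (‖τ2‖ ^ (nr P y s1 * j)) * k1

/-- NEAR: a disc slightly larger than the distance to the nearest root. -/
theorem near {P : Polynomial Ω} {y : Ω} {s r : ℝ} (h : nr P y s ≠ 0) (hr : ‖P.eval y‖ < r) :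
    ∃ (a : Ω) (R : ℝ), P.eval a = 0 ∧ ‖a - y‖ < R ∧ R ≤ s ∧
      ∀ T, ‖T - y‖ < R → ‖P.eval T‖ < r := by
  classical
  obtain ⟨hP, ρ, h1, h2⟩ := exists_root h
  obtain ⟨a, ha, hmin⟩ := P.roots.toFinset.exists_min_image (fun x => ‖x - y‖)
    ⟨ρ, Multiset.mem_toFinset.2 ((mem_roots hP).2 h1)⟩
  have hs : ‖a - y‖ < s :=
    (hmin ρ (Multiset.mem_toFinset.2 ((mem_roots hP).2 h1))).trans_lt h2
  set W := taylor y P with hW
  have h3 : ∀ i, ‖W.coeff i‖ * ‖a - y‖ ^ i < r := fun i => by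
    refine (Phi.coeff_le_coeff_zero (norm_nonneg _) (fun x hx => ?_) i).trans_lt
      (by rwa [hW, taylor_coeff_zero])
    have h4 := isRoot_of_mem_roots hx
    rw [IsRoot.def, hW, taylor_eval] at h4
    simpa using hmin (x + y) (Multiset.mem_toFinset.2 ((mem_roots hP).2 h4))
  have h5 : ∀ᶠ R in 𝓝 ‖a - y‖, R < s ∧ ∀ i ∈ W.support, ‖W.coeff i‖ * R ^ i < r :=
    (eventually_lt_nhds hs).and ((eventually_all_finset _).2 fun i _ =>
      ContinuousAt.eventually_lt (by fun_prop) continuousAt_const (h3 i))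
  obtain ⟨R, ⟨h6, h7⟩, h8⟩ :=
    ((h5.filter_mono (nhdsWithin_le_nhds (s := Set.Ioi ‖a - y‖))).and self_mem_nhdsWithin).exists
  refine ⟨a, R, isRoot_of_mem_roots (Multiset.mem_toFinset.1 ha), h8, h6.le, fun T hT => ?_⟩
  rw [eval_eq_taylor _ y]
  refine norm_eval_lt fun n => ?_
  by_cases hn : n ∈ W.support
  · exact lt_of_le_of_lt (by gcongr) (h7 n hn)
  · rw [notMem_support_iff.1 hn, norm_zero, zero_mul]
    exact (norm_nonneg _).trans_lt hr

variable {k : Type*} [Field k] [Algebra k Ω]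

/-- DEG: the degree of a root in a disc that has a point in the henselian field `K`. -/
theorem deg_le {K : IntermediateField k Ω} (hK : IsH K) {P : Polynomial Ω} (hP : P ≠ 0)
    (hc : ∀ i, P.coeff i ∈ K) {y θ a : Ω} {s : ℝ} (hθ : θ ∈ K) (h1 : ‖θ - y‖ < s)
    (h2 : ‖a - y‖ < s) (ha : P.eval a = 0) :
    IsIntegral K a ∧ (minpoly K a).natDegree ≤ nr P y s := by
  classical
  obtain ⟨Q, rfl⟩ := Phi.exists_lift hc
  rw [eval_map_algebraMap] at ha
  have hi : IsIntegral K a := IsAlgebraic.isIntegral ⟨Q, by rintro rfl; simp at hP, ha⟩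
  refine ⟨hi, ?_⟩
  set μ := (minpoly K a).map (algebraMap K Ω) with hμ
  have hle : μ.roots ≤ (Q.map (algebraMap K Ω)).roots :=
    roots.le_of_dvd hP (Polynomial.map_dvd _ (minpoly.dvd K a ha))
  have hin : ∀ b ∈ μ.roots, ‖b - y‖ < s := fun b hb => by
    have h3 := isRoot_of_mem_roots hb
    rw [IsRoot.def, eval_map_algebraMap] at h3
    obtain ⟨τ, rfl⟩ := Hr.conj hi h3
    have h4 : τ θ = θ := τ.commutes ⟨θ, hθ⟩
    have h5 : ‖τ a - θ‖ = ‖a - θ‖ := by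
      rw [← h4, ← map_sub, h4]
      exact hK τ _ (hi.sub (alg_of_mem hθ).isIntegral).isAlgebraic
    rw [show τ a - y = (τ a - θ) + (θ - y) by ring]
    refine norm_add_lt_of ?_ h1
    rw [h5, show a - θ = (a - y) - (θ - y) by ring]
    exact norm_sub_lt_of h2 h1
  rw [← natDegree_map (algebraMap K Ω), ← hμ, (IsAlgClosed.splits μ).natDegree_eq_card_roots, nr]
  exact Multiset.card_le_card (Multiset.le_filter.2 ⟨hle, hin⟩)

end Count

end Ann

variable {k Ω : Type*} [Field k] [NontriviallyNormedField Ω] [IsUltrametricDist Ω] [Algebra k Ω]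
  [IsAlgClosed Ω]

open Ann in
/-- The linear equation has a root in the disc, and the root is rational over every henselian
field that contains the coefficients and the centre. -/
theorem ann_root {β : Polynomial Ω} {e y : Ω} {σ A rb r1 r2 : ℝ} (hσ : 0 < σ)
    (hβ : ∀ l, ‖(hasseDeriv l β).eval y‖ * σ ^ l ≤ rb) (hA : ‖β.derivative.eval y‖ * σ = A)
    (he : ‖e - β.eval y‖ < r1) (h1 : r1 < r2) (h2 : r2 < A) (hb : rb * r2 < A ^ 2) :
    ∃ θ, β.eval θ = e ∧ ‖θ - y‖ < r1 * σ / A ∧ ∀ K : IntermediateField k Ω, IsH K →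
      (∀ i, β.coeff i ∈ K) → e ∈ K → y ∈ K → θ ∈ K := by
  have hr : 0 < r1 := (norm_nonneg _).trans_lt he
  have hA0 : 0 < A := by linarith
  have h3 : nr (C e - β) y (r1 * σ / A) * 1 = 1 :=
    count (s2 := r2 * σ / A) (c := A / σ) (by positivity) (by gcongr) (by positivity) one_ne_zero
      fun T a b => by rw [eval_sub, eval_C, lin_ann hσ hβ hA he h1 h2 hb a b]
  obtain ⟨h0, θ, h4, h5⟩ := exists_root (P := C e - β) (y := y) (s := r1 * σ / A) (by omega)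
  refine ⟨θ, ?_, h5, fun K hK hc heK hy => ?_⟩
  · rw [eval_sub, eval_C, sub_eq_zero] at h4
    exact h4.symm
  · have hc' : ∀ i, (C e - β).coeff i ∈ K := fun i => by
      rw [coeff_sub, coeff_C]
      refine K.sub_mem ?_ (hc i)
      split_ifs
      exacts [heK, K.zero_mem]
    obtain ⟨b1, b2⟩ := deg_le hK h0 hc' hy (by rw [sub_self, norm_zero]; positivity) h5 h4
    obtain ⟨x, hx⟩ := minpoly.natDegree_eq_one_iff.1
      (le_antisymm (b2.trans (by omega)) (minpoly.natDegree_pos b1))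
    exact hx ▸ x.2

open Ann in
/-- The analytic heart of SWAP: the degree drops by the factor `j`. -/
theorem ann {β Φ : Polynomial Ω} {e y : Ω} {σ A rb r1 r2 rP : ℝ} {j q : ℕ} (hσ : 0 < σ)
    (hβ : ∀ l, ‖(hasseDeriv l β).eval y‖ * σ ^ l ≤ rb) (hA : ‖β.derivative.eval y‖ * σ = A)
    (he : ‖e - β.eval y‖ < r1) (h1 : r1 < r2) (h2 : r2 < A) (hb : rb * r2 < A ^ 2) (hj : j ≠ 0)
    (hq : q ≠ 0) (hΦ : ∀ T, ‖T - y‖ ≤ r2 * σ / A → r1 ≤ ‖e - β.eval T‖ →
      ‖Φ.eval T‖ ^ j = ‖e - β.eval T‖ ^ q)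
    (hP : ‖Φ.eval y‖ < rP) {K : IntermediateField k Ω} (hK : IsH K) (hc : ∀ i, Φ.coeff i ∈ K)
    {θ : Ω} (hθ : θ ∈ K) (hθy : ‖θ - y‖ < r1 * σ / A) :
    ∃ (a : Ω) (R : ℝ), Φ ≠ 0 ∧ Φ.eval a = 0 ∧ IsIntegral K a ∧ (minpoly K a).natDegree * j ≤ q ∧
      ‖a - y‖ < R ∧ R ≤ r1 * σ / A ∧ ∀ T, ‖T - y‖ < R → ‖Φ.eval T‖ < rP := by
  have hr : 0 < r1 := (norm_nonneg _).trans_lt he
  have hA0 : 0 < A := by linarith
  have h3 : nr Φ y (r1 * σ / A) * j = q :=
    count (s2 := r2 * σ / A) (c := A / σ) (by positivity) (by gcongr) (by positivity) hj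
      fun T a b => by
        have g3 := lin_ann hσ hβ hA he h1 h2 hb a b
        rw [hΦ T b ?_, g3]
        rw [g3]
        calc r1 = A / σ * (r1 * σ / A) := by field_simp
          _ ≤ _ := by gcongr
  have h4 : nr Φ y (r1 * σ / A) ≠ 0 := fun h => hq (by rw [← h3, h, zero_mul])
  obtain ⟨a, R, a1, a2, a3, a4⟩ := near h4 hP
  obtain ⟨b1, b2⟩ := deg_le hK (exists_root h4).1 hc hθ hθy (a2.trans_le a3) a1
  exact ⟨a, R, (exists_root h4).1, a1, b1, h3 ▸ Nat.mul_le_mul_right j b2, a2, a3, a4⟩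

open Ann in
/-- ANNULUS, in the form used by SWAP. -/
theorem annulus {K1 : IntermediateField k Ω} {E Ph : Polynomial Ω} {zz y1 : Ω}
    {sg A rb r1 r2 rP : ℝ} {j q : ℕ} (hEK : ∀ i, E.coeff i ∈ K1) (hPK : ∀ i, Ph.coeff i ∈ K1)
    (hz : zz ∈ K1) (hE : ∀ T, ‖T - y1‖ < sg → ‖E.eval T‖ = rb)
    (hA : ‖E.derivative.eval y1‖ * sg = A) (h1 : r1 < r2) (h2 : r2 < A) (hb : r2 * rb < A ^ 2)
    (hw : ‖zz - E.eval y1‖ < r1)
    (hPh : ∀ T, ‖T - y1‖ < sg → r1 ≤ ‖zz - E.eval T‖ → ‖Ph.eval T‖ ^ j = ‖zz - E.eval T‖ ^ q)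
    (hP : ‖Ph.eval y1‖ < rP) (hq : 0 < q) (hj : 2 ≤ j) :
    ∃ (th a : Ω) (R : ℝ), E.eval th = zz ∧ ‖th - y1‖ < sg ∧ th ∈ hens (K1 ⊔ adjoin k {y1}) ∧
      ‖a - y1‖ < R ∧ R ≤ sg ∧ Ph ≠ 0 ∧ Ph.eval a = 0 ∧
      (minpoly (hens (K1 ⊔ adjoin k {th})) a).natDegree < q ∧
      ∀ T, ‖T - y1‖ < R → ‖Ph.eval T‖ < rP ∧ E.derivative.eval T ≠ 0 ∧
        ∀ l, 2 ≤ l → ‖(hasseDeriv l E).eval T‖ * ‖th - T‖ ^ (l - 1) < ‖E.derivative.eval T‖ := by
  have hr : 0 < r1 := (norm_nonneg _).trans_lt hw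
  have hA0 : 0 < A := by linarith
  have hσ : 0 < sg := pos_of_mul_pos_right (hA ▸ hA0) (norm_nonneg _)
  have hs : 0 < r1 * sg / A := by positivity
  have hs1 : r1 * sg / A < sg := rad_lt hσ hA0 (h1.trans h2)
  have hy : ‖y1 - y1‖ < sg := by rwa [sub_self, norm_zero]
  have hne : ∀ T, ‖T - y1‖ < sg → E.eval T ≠ 0 := fun T hT h0 => by
    have h3 : rb = 0 := by rw [← hE T hT, h0, norm_zero]
    have h4 : E = 0 := by
      refine eq_zero_of_infinite_isRoot E (Set.Infinite.mono (s := Metric.ball y1 sg)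
        (fun x hx => ?_) (infinite_of_mem_nhds y1 (Metric.ball_mem_nhds y1 hσ)))
      exact norm_eq_zero.1 ((hE x (mem_ball_iff_norm.1 hx)).trans h3)
    rw [h4, derivative_zero, eval_zero, norm_zero, zero_mul] at hA
    exact hA0.ne hA
  have hβ : ∀ T, ‖T - y1‖ < sg → ∀ l, ‖(hasseDeriv l E).eval T‖ * sg ^ l ≤ rb := fun T hT l => by
    rw [← taylor_coeff, ← hE T hT, ← taylor_coeff_zero]
    refine Phi.coeff_le_coeff_zero hσ.le (fun x hx => not_lt.1 fun h3 => ?_) l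
    have h4 := isRoot_of_mem_roots hx
    rw [IsRoot.def, taylor_eval] at h4
    exact hne _ (by rw [add_sub_assoc]; exact norm_add_lt_of h3 hT) h4
  rw [mul_comm] at hb
  obtain ⟨th, t1, t2, t3⟩ := ann_root (k := k) hσ (hβ y1 hy) hA hw h1 h2 hb
  have hl : ∀ x : Ω, K1 ≤ hens (K1 ⊔ adjoin k {x}) := fun x => le_sup_left.trans (le_hens _)
  have hx : ∀ x : Ω, x ∈ hens (K1 ⊔ adjoin k {x}) := fun x =>
    le_hens _ ((le_sup_right : _ ≤ K1 ⊔ _) (subset_adjoin k _ rfl))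
  obtain ⟨a, R, a1, a2, a3, a4, a5, a6, a7⟩ := ann hσ (hβ y1 hy) hA hw h1 h2 hb (by omega) hq.ne'
    (fun T hT => hPh T (hT.trans_lt (rad_lt hσ hA0 h2))) hP (isH_hens (K1 ⊔ adjoin k {th}))
    (fun i => hl th (hPK i)) (hx th) t2
  refine ⟨th, a, R, t1, t2.trans hs1, t3 _ (isH_hens _) (fun i => hl y1 (hEK i)) (hl y1 hz) (hx y1),
    a5, a6.trans hs1.le, a1, a2, by nlinarith, fun T hT => ?_⟩
  obtain ⟨-, d2, d3⟩ := lin_disc hσ hβ hA hw h1 h2 hb (hT.trans_le a6)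
  refine ⟨a7 T hT, fun h => ?_, fun l hl => ?_⟩
  · rw [h, norm_zero, zero_mul] at d2
    exact hr.ne d2
  · obtain ⟨n, rfl⟩ : ∃ n, l = n + 1 := ⟨l - 1, by omega⟩
    have d4 := (d3 _ hl).trans_eq d2.symm
    rw [pow_succ, ← mul_assoc] at d4
    refine lt_of_le_of_lt ?_ (lt_of_mul_lt_mul_right d4 hs.le)
    have d5 : ‖th - T‖ < r1 * sg / A := by
      rw [show th - T = (th - y1) - (T - y1) by ring]
      exact norm_sub_lt_of t2 (hT.trans_le a6)
    rw [Nat.add_sub_cancel]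
    gcongr

end Pool.Agent.MP_19ffc6_ag.LU3

end MrgPart1

-- ======== part 2: formerly Pool.Agent.MP_19ffc6_ag.LU3.Level
section MrgPart2

/-! PROJECT LU3, LEVEL: the additive approximation of a polynomial of least degree with a root in
the largest disc without points of `F`, and the resulting dichotomy. -/

namespace Pool.Agent.MP_19ffc6_ag.LU3

open Polynomial IntermediateField Pool.Agent.MP_19ffc6_ag.LU Topology Filter Ann

namespace Lev

section

variable {Ω : Type*} [NontriviallyNormedField Ω] [IsUltrametricDist Ω]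

theorem norm_hasse_lt {P : Polynomial Ω} {σ L : ℝ} (hσ : 0 < σ)
    (h : ∀ n, ‖P.coeff n‖ * σ ^ n < L) {T : Ω} (hT : ‖T‖ ≤ σ) (l : ℕ) :
    ‖(hasseDeriv l P).eval T‖ * σ ^ l < L := by
  rw [← lt_div_iff₀ (pow_pos hσ l)]
  refine norm_eval_lt fun n => ?_
  rw [lt_div_iff₀ (pow_pos hσ l)]
  refine lt_of_le_of_lt ?_ (h (n + l))
  rw [pow_add, ← mul_assoc]
  gcongr
  exact norm_hasse_coeff P l n

omit [IsUltrametricDist Ω] in
theorem hasse_hasse (P : Polynomial Ω) (n i : ℕ) (y : Ω) :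
    (taylor y (hasseDeriv i P)).coeff n =
      ((n + i).choose n : Ω) * (hasseDeriv (n + i) P).eval y := by
  have h := LinearMap.congr_fun (hasseDeriv_comp (R := Ω) n i) P
  rw [LinearMap.comp_apply, LinearMap.smul_apply] at h
  rw [taylor_coeff, h, nsmul_eq_mul, eval_mul, eval_natCast]

omit [IsUltrametricDist Ω] in
theorem exists_filter (P : Polynomial Ω) (Q : ℕ → Prop) [DecidablePred Q] :
    ∃ N : Polynomial Ω, ∀ i, N.coeff i = if Q i then P.coeff i else 0 := by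
  refine ⟨∑ i ∈ P.support.filter Q, monomial i (P.coeff i), fun i => ?_⟩
  simp only [finsetSum_coeff, coeff_monomial, Finset.sum_ite_eq', Finset.mem_filter,
    mem_support_iff]
  by_cases h1 : Q i <;> by_cases h2 : P.coeff i = 0 <;> simp [h1, h2]

omit [IsUltrametricDist Ω] in
theorem taylor_expand (p : ℕ) [ExpChar Ω p] (s : ℕ) (m : Polynomial Ω) (Z : Ω) :
    taylor Z (expand Ω (p ^ s) m) = expand Ω (p ^ s) (taylor (Z ^ p ^ s) m) := by
  rw [taylor_apply, taylor_apply, expand_eq_comp_X_pow, expand_eq_comp_X_pow, comp_assoc,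
    comp_assoc, X_pow_comp, add_comp, X_comp, C_comp, add_pow_expChar_pow, C_pow]

variable [IsAlgClosed Ω]

/-- Taylor coefficients of a polynomial without roots in a disc. -/
theorem hasse_le {g : Polynomial Ω} {y : Ω} {R : ℝ} (hR : 0 ≤ R)
    (h : g = 0 ∨ ∀ T, ‖T - y‖ < R → g.eval T ≠ 0) (i : ℕ) :
    ‖(taylor y g).coeff i‖ * R ^ i ≤ ‖g.eval y‖ := by
  rcases h with rfl | h
  · simp
  rw [← taylor_coeff_zero]
  refine Phi.coeff_le_coeff_zero hR (fun x hx => not_lt.1 fun h3 => ?_) i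
  have h4 := isRoot_of_mem_roots hx
  rw [IsRoot.def, taylor_eval] at h4
  exact h _ (by rwa [add_sub_cancel_right]) h4

/-- A polynomial without roots in a disc has constant norm there. -/
theorem norm_const {g : Polynomial Ω} {y : Ω} {R : ℝ}
    (h : g = 0 ∨ ∀ T, ‖T - y‖ < R → g.eval T ≠ 0) {T : Ω} (hT : ‖T - y‖ < R) :
    ‖g.eval T‖ = ‖g.eval y‖ := by
  have hR : 0 < R := (norm_nonneg _).trans_lt hT
  have h1 := hasse_le hR.le h
  rcases h with rfl | h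
  · simp
  have h0 : (taylor y g).coeff 0 ≠ 0 := by
    rw [taylor_coeff_zero]
    exact h y (by rwa [sub_self, norm_zero])
  rw [eval_eq_taylor _ y, ← taylor_coeff_zero y]
  exact norm_eval_bot h0 (fun i => by rw [taylor_coeff_zero]; exact h1 i) (fun _ => rfl) hT

end

theorem not_dvd_choose {p : ℕ} [hp : Fact p.Prime] {i : ℕ} (hi : i ≠ 0) :
    ∃ t, p ^ t ∣ i ∧ ¬ p ∣ i.choose (p ^ t) := by
  obtain ⟨t, u, hu, rfl⟩ := Nat.exists_eq_pow_mul_and_not_dvd hi p hp.out.ne_one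
  refine ⟨t, dvd_mul_right _ _, fun h => hu ?_⟩
  have h1 := Choose.choose_pow_mul_pow_mul_modEq_choose_nat (p := p) (k := t) (a := u) (b := 1)
  rw [mul_one, Nat.choose_one_right] at h1
  exact (h1.dvd_iff dvd_rfl).1 h

variable {k Ω : Type*} [Field k] [NontriviallyNormedField Ω] [IsUltrametricDist Ω] [Algebra k Ω]

omit [IsUltrametricDist Ω] in
theorem hasse_mem {F : IntermediateField k Ω} {P : Polynomial Ω} (h : ∀ i, P.coeff i ∈ F) (l i : ℕ) :
    (hasseDeriv l P).coeff i ∈ F := by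
  rw [hasseDeriv_coeff]
  exact F.mul_mem (_root_.natCast_mem F _) (h _)

omit [IsUltrametricDist Ω] in
/-- The distance to `F`. -/
theorem exists_dist (F : IntermediateField k Ω) (y : Ω) :
    ∃ R1 : ℝ, (∀ c ∈ F, R1 ≤ ‖y - c‖) ∧ (∀ r, R1 < r → ∃ c ∈ F, ‖y - c‖ < r) := by
  refine ⟨Metric.infDist y F, fun c hc => ?_, fun r hr => ?_⟩
  · rw [← dist_eq_norm]
    exact Metric.infDist_le_dist_of_mem hc
  · obtain ⟨c, hc, h⟩ := (Metric.infDist_lt_iff ⟨0, F.zero_mem⟩).1 hr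
    exact ⟨c, hc, by rwa [← dist_eq_norm]⟩

variable [IsAlgClosed Ω] [Ctx k Ω] {p : ℕ} [hp : Fact p.Prime] [CharP k p]

/-- The core of LEVEL, for a polynomial all of whose Hasse derivatives have no root in the disc. -/
theorem core {F : IntermediateField k Ω} {y ρ : Ω} {R1 : ℝ} (h1 : ∀ c ∈ F, R1 ≤ ‖y - c‖)
    (h2 : ∀ r, R1 < r → ∃ c ∈ F, ‖y - c‖ < r) {φ : Polynomial Ω} (hφ : ∀ i, φ.coeff i ∈ F)
    (hd : φ.natDegree ≠ 0) (hρ : ‖ρ - y‖ < R1) (h0 : φ.eval ρ = 0)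
    (hmin : ∀ l, l ≠ 0 → hasseDeriv l φ = 0 ∨
      ∀ T, ‖T - y‖ < R1 → (hasseDeriv l φ).eval T ≠ 0) :
    ∃ (s : ℕ) (c0 : Ω) (m : Polynomial Ω) (L : ℝ), p ^ s ≤ φ.natDegree ∧ c0 ∈ F ∧
      (∀ i, m.coeff i ∈ F) ∧ ∀ T, ‖T - y‖ < R1 → ‖m.eval ((T - c0) ^ p ^ s)‖ < L ∧
        ‖m.derivative.eval ((T - c0) ^ p ^ s)‖ * R1 ^ p ^ s = L ∧
        ∀ l, ‖(hasseDeriv l m).eval ((T - c0) ^ p ^ s)‖ * (R1 ^ p ^ s) ^ l ≤ L := by
  classical
  have : CharP Ω p := charP_of_injective_algebraMap (algebraMap k Ω).injective p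
  have : ExpChar Ω p := ExpChar.prime hp.out
  have hR : 0 < R1 := (norm_nonneg _).trans_lt hρ
  set B : ℕ → ℝ := fun l => ‖(hasseDeriv l φ).eval y‖ with hB
  have hB0 : ∀ l, 0 ≤ B l := fun l => norm_nonneg _
  have hBz : ∀ l, φ.natDegree < l → B l = 0 := fun l hl => by
    simp only [hB, hasseDeriv_eq_zero_of_lt_natDegree φ l hl, eval_zero, norm_zero]
  obtain ⟨j0, hj0, hmax⟩ := (Finset.Icc 1 φ.natDegree).exists_max_image (fun l => B l * R1 ^ l)
    ⟨φ.natDegree, Finset.mem_Icc.2 ⟨by omega, le_rfl⟩⟩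
  set L := B j0 * R1 ^ j0 with hL
  have hL0 : 0 < L := by
    refine lt_of_lt_of_le (mul_pos ?_ (pow_pos hR _))
      (hmax φ.natDegree (Finset.mem_Icc.2 ⟨by omega, le_rfl⟩))
    simp only [hB, hasseDeriv_natDegree_eq_C, eval_C]
    exact norm_pos_iff.2 (leadingCoeff_ne_zero.2 (by rintro rfl; simp at hd))
  have hle : ∀ l, l ≠ 0 → B l * R1 ^ l ≤ L := fun l hl => by
    by_cases h : l ≤ φ.natDegree
    · exact hmax l (Finset.mem_Icc.2 ⟨by omega, h⟩)
    · rw [hBz l (by omega), zero_mul]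
      exact hL0.le
  let Cr : ℕ → Prop := fun l => l ≠ 0 ∧ B l * R1 ^ l = L
  have hdown : ∀ n i, i ≠ 0 → Cr (n + i) → ¬ p ∣ (n + i).choose n → Cr i := by
    intro n i hi hc hn
    refine ⟨hi, le_antisymm (hle i hi) ?_⟩
    have h3 := hasse_le hR.le (hmin i hi) n
    rw [hasse_hasse, norm_mul, norm_natCast k hn, one_mul] at h3
    rw [← hc.2, pow_add, ← mul_assoc]
    exact mul_le_mul_of_nonneg_right h3 (pow_pos hR i).le
  have hex : ∃ l, Cr l := ⟨j0, by have := (Finset.mem_Icc.1 hj0).1; omega, rfl⟩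
  have hpow : ∀ i, Cr i → ∃ t, p ^ t ∣ i ∧ Nat.find hex ≤ p ^ t := fun i hi => by
    obtain ⟨t, ⟨u, hu⟩, h3⟩ := not_dvd_choose (p := p) hi.1
    have h4 : p ^ t ≤ i := Nat.le_of_dvd (Nat.pos_of_ne_zero hi.1) ⟨u, hu⟩
    obtain ⟨n, hn⟩ := Nat.exists_eq_add_of_le' h4
    refine ⟨t, ⟨u, hu⟩, Nat.find_min' hex (hdown n _ (pow_pos hp.out.pos t).ne' (hn ▸ hi) ?_)⟩
    rwa [Nat.choose_symm_add, ← hn]
  obtain ⟨s, hs⟩ : ∃ s, Nat.find hex = p ^ s := by
    obtain ⟨t, h3, h4⟩ := hpow _ (Nat.find_spec hex)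
    exact ⟨t, le_antisymm h4 (Nat.le_of_dvd (Nat.pos_of_ne_zero (Nat.find_spec hex).1) h3)⟩
  have hj : Cr (p ^ s) := hs ▸ Nat.find_spec hex
  have hdvd : ∀ i, Cr i → p ^ s ∣ i := fun i hi => by
    obtain ⟨t, h3, h4⟩ := hpow i hi
    rw [hs] at h4
    exact (pow_dvd_pow p ((Nat.pow_le_pow_iff_right hp.out.one_lt).1 h4)).trans h3
  -- the centre
  obtain ⟨c0, hc0, hnc⟩ : ∃ c0 ∈ F, ∀ l, l ≠ 0 → ¬ Cr l → B l * ‖y - c0‖ ^ l < L := by
    have h5 : ∀ᶠ r in 𝓝 R1, ∀ l ∈ (Finset.Icc 1 φ.natDegree).filter (fun l => ¬ Cr l),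
        B l * r ^ l < L := (eventually_all_finset _).2 fun l hl => by
      rw [Finset.mem_filter, Finset.mem_Icc] at hl
      exact ContinuousAt.eventually_lt (by fun_prop) continuousAt_const
        (lt_of_le_of_ne (hle l (by omega)) fun h => hl.2 ⟨by omega, h⟩)
    obtain ⟨r, h6, h7⟩ :=
      ((h5.filter_mono (nhdsWithin_le_nhds (s := Set.Ioi R1))).and self_mem_nhdsWithin).exists
    obtain ⟨c, hc, h8⟩ := h2 r h7
    refine ⟨c, hc, fun l hl hn => ?_⟩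
    by_cases h : l ≤ φ.natDegree
    · refine lt_of_le_of_lt ?_ (h6 l (Finset.mem_filter.2 ⟨Finset.mem_Icc.2 ⟨by omega, h⟩, hn⟩))
      have := hB0 l
      gcongr
    · rwa [hBz l (by omega), zero_mul]
  set r0 := ‖y - c0‖ with hr0
  have hr : R1 ≤ r0 := h1 c0 hc0
  have hr' : 0 < r0 := hR.trans_le hr
  set W := taylor c0 φ with hW
  obtain ⟨N, hN⟩ := exists_filter W fun i => i ≠ 0 ∧ ¬ Cr i
  have hNlt : ∀ i, ‖N.coeff i‖ * r0 ^ i < L := fun i => by
    rw [hN]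
    split_ifs with h
    swap
    · rwa [norm_zero, zero_mul]
    rw [hW, taylor_coeff, eval_eq_taylor _ y, ← lt_div_iff₀ (pow_pos hr' i)]
    refine norm_eval_lt fun n => ?_
    rw [lt_div_iff₀ (pow_pos hr' i), hasse_hasse, norm_sub_rev, ← hr0, norm_mul]
    by_cases hc : Cr (n + i)
    · have h3 : p ∣ (n + i).choose n := by
        by_contra h3
        exact h.2 (hdown n i h.1 hc h3)
      rwa [(CharP.cast_eq_zero_iff Ω p _).2 h3, norm_zero, zero_mul, zero_mul, zero_mul]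
    · refine lt_of_le_of_lt ?_ (hnc (n + i) (by omega) hc)
      rw [pow_add, ← mul_assoc]
      gcongr
      exact mul_le_of_le_one_left (norm_nonneg _) (IsUltrametricDist.norm_natCast_le_one Ω _)
  have hj0' : 0 < p ^ s := pow_pos hp.out.pos s
  set m := contract (p ^ s) (W - N) with hm
  have hWN : W = expand Ω (p ^ s) m + N := by
    rw [← sub_eq_iff_eq_add]
    ext n
    rw [coeff_expand hj0', hm, coeff_contract hj0'.ne']
    split_ifs with h
    · rw [Nat.div_mul_cancel h]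
    · rw [coeff_sub, hN, if_pos ⟨by rintro rfl; exact h (dvd_zero _), fun h3 => h (hdvd n h3)⟩,
        sub_self]
  have hWF := Phi.taylor_mem hφ hc0
  refine ⟨s, c0, m, L, ?_, hc0, fun i => ?_, fun T hT => ?_⟩
  · by_contra h
    have h3 := hj.2
    rw [hBz _ (by omega), zero_mul] at h3
    exact hL0.ne h3
  · rw [hm, coeff_contract hj0'.ne', coeff_sub, hN]
    refine F.sub_mem (hWF _) ?_
    split_ifs
    exacts [hWF _, F.zero_mem]
  have hZ : ‖T - c0‖ ≤ r0 := by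
    rw [show T - c0 = (T - y) + (y - c0) by ring]
    exact norm_add_le_of (hT.le.trans hr) le_rfl
  have hNl : ∀ n, ‖(hasseDeriv n N).eval (T - c0)‖ * R1 ^ n < L := fun n =>
    lt_of_le_of_lt (by gcongr) (norm_hasse_lt hr' hNlt hZ n)
  have hid : ∀ l, (hasseDeriv l m).eval ((T - c0) ^ p ^ s) =
      (hasseDeriv (l * p ^ s) φ).eval T - (hasseDeriv (l * p ^ s) N).eval (T - c0) := fun l => by
    have h3 : taylor T φ = taylor (T - c0) W := by rw [hW, taylor_taylor, sub_add_cancel]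
    rw [← taylor_coeff, ← taylor_coeff, ← taylor_coeff, h3, hWN, map_add, taylor_expand,
      coeff_add, coeff_expand_mul hj0', add_sub_cancel_right]
  have hφl : ∀ n, n ≠ 0 → ‖(hasseDeriv n φ).eval T‖ = B n := fun n hn => norm_const (hmin n hn) hT
  have hφ0 : ‖φ.eval T‖ < L := by
    rw [eval_eq_taylor _ ρ]
    refine norm_eval_lt fun n => ?_
    by_cases hn : n = 0
    · rwa [hn, taylor_coeff_zero, h0, norm_zero, zero_mul]
    have h3 : ‖T - ρ‖ < R1 := by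
      rw [show T - ρ = (T - y) - (ρ - y) by ring]
      exact norm_sub_lt_of hT hρ
    rw [taylor_coeff, norm_const (hmin n hn) hρ]
    rcases (hB0 n).eq_or_lt with h4 | h4
    · rwa [show ‖(hasseDeriv n φ).eval y‖ = 0 from h4.symm, zero_mul]
    · exact (mul_lt_mul_of_pos_left (pow_lt_pow_left₀ h3 (norm_nonneg _) hn) h4).trans_le
        (hle n hn)
  have e0 : ‖m.eval ((T - c0) ^ p ^ s)‖ < L := by
    have h3 := hid 0
    have h4 := hNl 0
    simp only [zero_mul, hasseDeriv_zero', pow_zero, mul_one] at h3 h4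
    rw [h3]
    exact norm_sub_lt_of hφ0 h4
  refine ⟨e0, ?_, fun l => ?_⟩
  · have h3 := hid 1
    rw [one_mul, hasseDeriv_one'] at h3
    rw [h3, norm_sub_eq_left, hφl _ hj.1, hj.2]
    refine lt_of_mul_lt_mul_right ?_ (pow_pos hR (p ^ s)).le
    rw [hφl _ hj.1, hj.2]
    exact hNl _
  · by_cases hl : l = 0
    · rw [hl, hasseDeriv_zero', pow_zero, mul_one]
      exact e0.le
    have hl' : l * p ^ s ≠ 0 := mul_ne_zero hl hj0'.ne'
    rw [hid, ← pow_mul, mul_comm (p ^ s) l, ← le_div_iff₀ (pow_pos hR _)]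
    refine norm_sub_le_of ?_ ?_ <;> rw [le_div_iff₀ (pow_pos hR _)]
    · rw [hφl _ hl']
      exact hle _ hl'
    · exact (hNl _).le

omit [IsUltrametricDist Ω] [IsAlgClosed Ω] in
theorem norm_pow_sub (p : ℕ) [ExpChar Ω p] (s : ℕ) (T y c : Ω) :
    ‖(T - c) ^ p ^ s - (y - c) ^ p ^ s‖ = ‖T - y‖ ^ p ^ s := by
  rw [← sub_pow_expChar_pow, norm_pow, sub_sub_sub_cancel_right]

omit [IsUltrametricDist Ω] [IsAlgClosed Ω] [Ctx k Ω] in
theorem coeff_U_mem {F : IntermediateField k Ω} {c : Ω} (hc : c ∈ F) (n i : ℕ) :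
    (((X : Polynomial Ω) - C c) ^ n).coeff i ∈ F := by
  have h : ((X : Polynomial Ω) - C c) ^ n = taylor (-c) (X ^ n) := by
    rw [taylor_X_pow, C_neg, sub_eq_add_neg]
  rw [h]
  refine Phi.taylor_mem (fun j => ?_) (F.neg_mem hc) i
  rw [coeff_X_pow]
  split_ifs
  exacts [F.one_mem, F.zero_mem]

omit [IsUltrametricDist Ω] [Ctx k Ω] in
/-- The degree drops if some conjugate is lost. -/
theorem natDegree_lt {K K' : IntermediateField k Ω} (h : K ≤ K') {a b : Ω} (ha : IsIntegral K a)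
    (hb : aeval b (minpoly K a) = 0) (hb' : ∀ τ : Ω →ₐ[K'] Ω, τ a ≠ b) :
    (minpoly K' a).natDegree < (minpoly K a).natDegree := by
  have ha' : IsIntegral K' a := (isAlgebraic_of_le h ha.isAlgebraic).isIntegral
  set Q : Polynomial K' := (minpoly K a).map (inclusion h : K →+* K') with hQ
  have hev : ∀ x : Ω, aeval x Q = aeval x (minpoly K a) := fun x => by
    rw [hQ, aeval_def, eval₂_map]
    rfl
  have hm : Q.Monic := (minpoly.monic ha).map _
  have hdvd : minpoly K' a ∣ Q := minpoly.dvd K' a (by rw [hev, minpoly.aeval])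
  rw [← natDegree_map (inclusion h : K →+* K'), ← hQ]
  by_contra h1
  have h2 := eq_of_monic_of_dvd_of_natDegree_le (minpoly.monic ha') hm hdvd (not_lt.1 h1)
  obtain ⟨τ, hτ⟩ := Hr.conj ha' (b := b) (by rw [← h2, hev, hb])
  exact hb' τ hτ

end Lev

open Lev

variable {k Ω : Type*} [Field k] [NontriviallyNormedField Ω] [IsUltrametricDist Ω] [Algebra k Ω]
  [IsAlgClosed Ω] [Ctx k Ω] (p : ℕ) [hp : Fact p.Prime] [CharP k p]

/-- LEVEL. -/
theorem level {F : IntermediateField k Ω} {y a : Ω} {R : ℝ} (ha : IsAlgebraic F a)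
    (hay : ‖a - y‖ < R) (hF : ∀ c ∈ F, R ≤ ‖c - y‖) :
    ∃ (s : ℕ) (c0 : Ω) (m : Polynomial Ω) (R1 L : ℝ), c0 ∈ F ∧ (∀ i, m.coeff i ∈ F) ∧ R ≤ R1 ∧
      (∀ c ∈ F, R1 ≤ ‖y - c‖) ∧ (∀ r, R1 < r → ∃ c ∈ F, ‖y - c‖ < r) ∧
      (∀ U, ‖U - (y - c0) ^ p ^ s‖ < R1 ^ p ^ s → ‖m.eval U‖ < L ∧
        ‖m.derivative.eval U‖ * R1 ^ p ^ s = L ∧
        ∀ l, ‖(hasseDeriv l m).eval U‖ * (R1 ^ p ^ s) ^ l ≤ L) ∧
      ∀ g : Polynomial Ω, g ≠ 0 → (∀ i, g.coeff i ∈ F) → g.natDegree < p ^ s →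
        ∀ T, ‖T - y‖ < R1 → g.eval T ≠ 0 := by
  classical
  have : CharP Ω p := charP_of_injective_algebraMap (algebraMap k Ω).injective p
  have : ExpChar Ω p := ExpChar.prime hp.out
  obtain ⟨R1, h1, h2⟩ := exists_dist F y
  have hR : R ≤ R1 := not_lt.1 fun h => by
    obtain ⟨c, hc, h3⟩ := h2 R h
    exact (hF c hc).not_gt (by rwa [norm_sub_rev])
  have hex : ∃ d, ∃ φ : Polynomial Ω, φ.natDegree = d ∧ φ ≠ 0 ∧ (∀ i, φ.coeff i ∈ F) ∧
      ∃ ρ, ‖ρ - y‖ < R1 ∧ φ.eval ρ = 0 := by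
    obtain ⟨g, hg, h3⟩ := ha
    refine ⟨_, g.map (algebraMap F Ω), rfl,
      (Polynomial.map_ne_zero_iff (algebraMap F Ω).injective).2 hg, fun i => ?_, a,
      hay.trans_le hR, by rwa [eval_map_algebraMap]⟩
    rw [coeff_map]
    exact Subtype.property _
  obtain ⟨φ, hd, hφ0, hφ, ρ, hρ, h0⟩ := Nat.find_spec hex
  have hmin : ∀ g : Polynomial Ω, g ≠ 0 → (∀ i, g.coeff i ∈ F) → g.natDegree < φ.natDegree →
      ∀ T, ‖T - y‖ < R1 → g.eval T ≠ 0 := fun g h3 h4 h5 T h6 h7 =>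
    Nat.find_min hex (hd ▸ h5) ⟨g, rfl, h3, h4, T, h6, h7⟩
  have hd0 : φ.natDegree ≠ 0 := fun h => by
    rw [eq_C_of_natDegree_eq_zero h, eval_C] at h0
    exact hφ0 (by rw [eq_C_of_natDegree_eq_zero h, h0, C_0])
  obtain ⟨s, c0, m, L, a1, a2, a3, a4⟩ := core (p := p) h1 h2 hφ hd0 hρ h0 fun l hl =>
    or_iff_not_imp_left.2 fun h => hmin _ h (hasse_mem hφ l)
      ((natDegree_hasseDeriv_le φ l).trans_lt (by omega))
  refine ⟨s, c0, m, R1, L, a2, a3, hR, h1, h2, fun U hU => ?_,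
    fun g h3 h4 h5 => hmin g h3 h4 (h5.trans_le a1)⟩
  obtain ⟨Z, rfl⟩ := IsAlgClosed.exists_pow_nat_eq U (pow_pos hp.out.pos s)
  rw [← add_sub_cancel_right Z c0] at hU ⊢
  rw [norm_pow_sub] at hU
  exact a4 _ (lt_of_pow_lt_pow_left₀ _ ((norm_nonneg _).trans hρ.le) hU)

/-- The dichotomy of section 2: either the root of the additive approximation is new and lowers the
degree of `a` (input of ADJ), or an affine change gives the input of SWAP. -/
theorem dich {F : IntermediateField k Ω} {y a : Ω} {R : ℝ} (ha : IsAlgebraic F a)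
    (hay : ‖a - y‖ < R) (hF : ∀ c ∈ F, R ≤ ‖c - y‖)
    (hsc : ∀ c ∈ F, ∃ b ∈ F, b ≠ 0 ∧ ‖b * (y - c)‖ ≤ 1) :
    (∃ (m U : Polynomial Ω) (th : Ω), (∀ i, m.coeff i ∈ F) ∧ (∀ i, U.coeff i ∈ F) ∧
      m.eval th = 0 ∧ th ∈ hens (F ⊔ adjoin k {y}) ∧
      (∀ T, ‖T - y‖ < R → U.eval T ≠ 0 ∧ m.derivative.eval (U.eval T) ≠ 0 ∧
        ∀ l, 2 ≤ l → ‖(hasseDeriv l m).eval (U.eval T)‖ * ‖th - U.eval T‖ ^ (l - 1) <
          ‖m.derivative.eval (U.eval T)‖) ∧ IsAlgebraic F th ∧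
      (minpoly (hens (F ⊔ adjoin k {th})) a).natDegree < (minpoly (hens F) a).natDegree) ∨
    ∃ (s : ℕ) (b c0 ψ : Ω) (rr : ℝ), 0 < s ∧ b ∈ F ∧ b ≠ 0 ∧ c0 ∈ F ∧ ψ ∈ F ∧
      ‖b * (y - c0)‖ ≤ 1 ∧ ‖(b * (y - c0)) ^ p ^ s - ψ‖ < rr ∧
      (∀ x, aeval x (minpoly (hens F) (b * (a - c0))) = 0 → ‖x ^ p ^ s - ψ‖ < rr ∧ ‖x‖ ≤ 1) ∧
      (∀ c ∈ hens F, rr ≤ ‖ψ - c ^ p‖) ∧
      ∀ r, rr < r → ∃ c ∈ F, ‖b * (y - c0) - c‖ ^ p ^ s < r := by
  have : CharP Ω p := charP_of_injective_algebraMap (algebraMap k Ω).injective p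
  have : ExpChar Ω p := ExpChar.prime hp.out
  obtain ⟨s, c0, m, R1, L, hc0, hm, hR, h1, h2, hest, hmin⟩ := level p ha hay hF
  have hR1 : 0 < R1 := ((norm_nonneg _).trans_lt hay).trans_le hR
  set rr := R1 ^ p ^ s with hrr
  have hr : 0 < rr := pow_pos hR1 _
  set Y := (y - c0) ^ p ^ s with hY
  have hD : ∀ T, ‖(T - c0) ^ p ^ s - Y‖ < rr ↔ ‖T - y‖ < R1 := fun T => by
    rw [hY, norm_pow_sub, hrr,
      pow_lt_pow_iff_left₀ (norm_nonneg _) hR1.le (pow_pos hp.out.pos s).ne']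
  obtain ⟨y0, y1, y2⟩ := hest Y (by rwa [sub_self, norm_zero])
  obtain ⟨r2, a1, a2⟩ := exists_between y0
  obtain ⟨r1, a3, a4⟩ := exists_between a1
  have hL : 0 < L := (norm_nonneg _).trans_lt y0
  obtain ⟨th, t1, t2, t3⟩ := ann_root (k := k) (e := 0) hr y2 y1 (by rwa [zero_sub, norm_neg])
    a4 a2 (by rw [pow_two]; gcongr)
  have t4 : ‖th - Y‖ < rr := t2.trans (rad_lt hr hL (a4.trans a2))
  have hder : ∀ U, ‖U - Y‖ < rr → ‖m.derivative.eval U‖ = L / rr := fun U hU => by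
    rw [← (hest U hU).2.1, mul_div_cancel_right₀ _ hr.ne']
  have hhigh : ∀ U, ‖U - Y‖ < rr → ∀ x : Ω, ‖x‖ < rr → ∀ l, 2 ≤ l →
      ‖(hasseDeriv l m).eval U‖ * ‖x‖ ^ (l - 1) < L / rr := fun U hU x hx l hl => by
    obtain ⟨n, rfl⟩ : ∃ n, l = n + 1 := ⟨l - 1, by omega⟩
    have h3 := (hest U hU).2.2 (n + 1)
    rw [← le_div_iff₀ (pow_pos hr _)] at h3
    rw [Nat.add_sub_cancel]
    calc _ ≤ L / rr ^ (n + 1) * ‖x‖ ^ n := by gcongr
      _ < L / rr ^ (n + 1) * rr ^ n :=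
        mul_lt_mul_of_pos_left (pow_lt_pow_left₀ hx (norm_nonneg _) (by omega)) (by positivity)
      _ = L / rr := by rw [pow_succ]; field_simp
  have hne : m.derivative.eval th ≠ 0 := by
    rw [← norm_pos_iff, hder th t4]
    positivity
  have huniq : ∀ x, m.eval x = 0 → ‖x - Y‖ < rr → x = th := fun x hx h3 => by
    by_contra h4
    have h5 : 0 < ‖x - th‖ := norm_pos_iff.2 (sub_ne_zero.2 h4)
    have h6 : ‖x - th‖ < rr := by
      rw [show x - th = (x - Y) - (th - Y) by ring]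
      exact norm_sub_lt_of h3 t4
    have h7 : ‖(taylor th m).coeff 1‖ = L / rr := by rw [taylor_coeff_one, hder th t4]
    have h8 : ‖m.eval x‖ = ‖(taylor th m).coeff 1‖ * ‖x - th‖ ^ 1 := by
      rw [eval_eq_taylor _ th]
      refine norm_eval_eq fun n hn => ?_
      rw [h7, pow_one]
      rcases n with _ | n
      · rw [taylor_coeff_zero, t1, norm_zero, zero_mul]
        positivity
      · rw [taylor_coeff, pow_succ, ← mul_assoc]
        exact mul_lt_mul_of_pos_right (hhigh th t4 _ h6 (n + 1) (by omega)) h5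
    rw [hx, h7, norm_zero] at h8
    exact absurd h8 (by positivity)
  have hsep : IsSeparable F th := Hr.sep_root F hm t1 hne
  have haD : ‖(a - c0) ^ p ^ s - Y‖ < rr := (hD a).2 (hay.trans_le hR)
  have hstay : ∀ K : IntermediateField k Ω, IsH K → F ≤ K → ∀ τ : Ω →ₐ[K] Ω, ∀ x : Ω,
      IsAlgebraic F x → ‖x - Y‖ < rr → (‖τ a - y‖ < R1 ↔ ‖τ x - Y‖ < rr) := by
    intro K hK hFK τ x hx h3
    have h4 : τ c0 = c0 := τ.commutes ⟨c0, hFK hc0⟩
    have h5 : ‖(τ a - c0) ^ p ^ s - τ x‖ < rr := by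
      rw [← h4, ← map_sub, ← map_pow, ← map_sub, hK τ _ (isAlgebraic_of_le hFK
        (((ha.sub (alg_of_mem hc0)).pow _).sub hx)),
        show (a - c0) ^ p ^ s - x = ((a - c0) ^ p ^ s - Y) - (x - Y) by ring]
      exact norm_sub_lt_of haD h3
    rw [← hD]
    refine ⟨fun h => ?_, fun h => ?_⟩
    · rw [show τ x - Y = ((τ a - c0) ^ p ^ s - Y) - ((τ a - c0) ^ p ^ s - τ x) by ring]
      exact norm_sub_lt_of h h5
    · rw [show (τ a - c0) ^ p ^ s - Y = ((τ a - c0) ^ p ^ s - τ x) + (τ x - Y) by ring]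
      exact norm_add_lt_of h5 h
  have hth : IsAlgebraic F th := hsep.isIntegral.isAlgebraic
  have hai : IsIntegral (hens F) a := (isAlgebraic_of_le (le_hens F) ha).isIntegral
  by_cases hA : th ∈ hens F
  swap
  · -- case (B)
    left
    have hx : ∀ x : Ω, x ∈ hens (F ⊔ adjoin k {x}) := fun x =>
      le_hens _ ((le_sup_right : _ ≤ F ⊔ _) (subset_adjoin k _ rfl))
    have hl : ∀ x : Ω, F ≤ hens (F ⊔ adjoin k {x}) := fun x => le_sup_left.trans (le_hens _)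
    refine ⟨m, (X - C c0) ^ p ^ s, th, hm, coeff_U_mem hc0 _, t1,
      t3 _ (isH_hens _) (fun i => hl y (hm i)) (zero_mem _)
        (pow_mem (sub_mem (hx y) (hl y hc0)) _), fun T hT => ?_, hth, ?_⟩
    · have h3 := (hD T).2 (hT.trans_le hR)
      rw [eval_pow, eval_sub, eval_X, eval_C]
      refine ⟨pow_ne_zero _ (sub_ne_zero.2 ?_), ?_, fun l hl => ?_⟩
      · rintro rfl
        exact (hF T hc0).not_gt hT
      · rw [← norm_pos_iff, hder _ h3]
        positivity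
      · rw [hder _ h3]
        refine hhigh _ h3 _ ?_ l hl
        rw [show th - (T - c0) ^ p ^ s = (th - Y) - ((T - c0) ^ p ^ s - Y) by ring]
        exact norm_sub_lt_of t4 h3
    · obtain ⟨τ, hτ⟩ : ∃ τ : Ω →ₐ[hens F] Ω, τ th ≠ th :=
        not_forall.1 fun h => hA (mem_of_fix (isSeparable_of_le (le_hens F) hsep) h)
      refine natDegree_lt (hens_mono le_sup_left) hai (b := τ a)
        (by rw [aeval_algHom_apply, minpoly.aeval, map_zero]) fun σ hσ => hτ (huniq _ ?_ ?_)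
      · obtain ⟨Q, rfl⟩ := Phi.exists_lift (F := hens F) fun i => le_hens F (hm i)
        rw [eval_map_algebraMap] at t1 ⊢
        rw [aeval_algHom_apply, t1, map_zero]
      · refine (hstay _ (isH_hens F) (le_hens F) τ th hth t4).1 ?_
        rw [← hσ, hstay _ (isH_hens _) (hl th) σ th hth t4,
          show σ th = th from σ.commutes ⟨th, hx th⟩]
        exact t4
  -- case (A)
  right
  obtain ⟨ψ, hψ, h3⟩ := (mem_hens_iff.1 hA).2 rr hr
  have h4 : ‖ψ - Y‖ < rr := by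
    rw [show ψ - Y = (th - Y) - (th - ψ) by ring]
    exact norm_sub_lt_of t4 h3
  obtain ⟨b, hb, hb0, hb1⟩ := hsc c0 hc0
  have hbp : 0 < ‖b‖ ^ p ^ s := pow_pos (norm_pos_iff.2 hb0) _
  have hmul : ∀ x : Ω, ‖(b * x) ^ p ^ s - b ^ p ^ s * ψ‖ = ‖b‖ ^ p ^ s * ‖x ^ p ^ s - ψ‖ := by
    intro x
    rw [mul_pow, ← mul_sub, norm_mul, norm_pow]
  have hs : s ≠ 0 := by
    rintro rfl
    have h5 := h1 (c0 + ψ) (F.add_mem hc0 hψ)
    simp only [hY, hrr, pow_zero, pow_one] at h4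
    rw [norm_sub_rev, sub_sub] at h4
    exact h5.not_gt h4
  obtain ⟨t, rfl⟩ := Nat.exists_eq_succ_of_ne_zero hs
  refine ⟨t + 1, b, c0, b ^ p ^ (t + 1) * ψ, ‖b‖ ^ p ^ (t + 1) * rr, by omega, hb, hb0, hc0,
    F.mul_mem (pow_mem hb _) hψ, hb1, ?_, fun x hx => ?_, fun c hc => ?_, fun r h5 => ?_⟩
  · rw [hmul, norm_sub_rev]
    exact mul_lt_mul_of_pos_left h4 hbp
  · obtain ⟨τ, rfl⟩ := Hr.conj (isAlgebraic_of_le (le_hens F)
      ((alg_of_mem hb).mul (ha.sub (alg_of_mem hc0)))).isIntegral hx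
    have h5 : τ (b * (a - c0)) = b * (τ a - c0) := by
      rw [map_mul, map_sub, show τ b = b from τ.commutes ⟨b, le_hens F hb⟩,
        show τ c0 = c0 from τ.commutes ⟨c0, le_hens F hc0⟩]
    have h6 : ‖τ a - y‖ < R1 := by
      rw [hstay _ (isH_hens F) (le_hens F) τ th hth t4, show τ th = th from τ.commutes ⟨th, hA⟩]
      exact t4
    rw [h5, hmul]
    refine ⟨mul_lt_mul_of_pos_left ?_ hbp, le_trans ?_ hb1⟩
    · rw [show (τ a - c0) ^ p ^ (t + 1) - ψ = ((τ a - c0) ^ p ^ (t + 1) - Y) - (ψ - Y) by ring]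
      exact norm_sub_lt_of ((hD _).2 h6) h4
    · rw [norm_mul, norm_mul, show τ a - c0 = (τ a - y) + (y - c0) by ring]
      exact mul_le_mul_of_nonneg_left (norm_add_le_of (h6.le.trans (h1 c0 hc0)) le_rfl)
        (norm_nonneg _)
  · have h5 : b ^ p ^ (t + 1) * ψ - c ^ p = b ^ p ^ (t + 1) * (ψ - (c / b ^ p ^ t) ^ p) := by
      rw [div_pow, ← pow_mul, ← pow_succ]
      field_simp
    rw [h5, norm_mul, norm_pow]
    refine mul_le_mul_of_nonneg_left (not_lt.1 fun h6 => ?_) hbp.le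
    obtain ⟨e, he, h7⟩ := (mem_hens_iff.1 (div_mem hc (pow_mem (le_hens F hb) (p ^ t)))).2
      (R1 ^ p ^ t) (pow_pos hR1 _)
    have h8 : ‖(c / b ^ p ^ t) ^ p - e ^ p‖ < rr := by
      rw [← sub_pow_expChar, norm_pow, hrr, pow_succ, pow_mul]
      exact pow_lt_pow_left₀ h7 (norm_nonneg _) hp.out.ne_zero
    obtain ⟨Z, hZ⟩ := IsAlgClosed.exists_pow_nat_eq e (pow_pos hp.out.pos t)
    have h9 : ((X - C c0) ^ p ^ t - C e : Polynomial Ω).natDegree = p ^ t := by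
      rw [natDegree_sub_C, natDegree_pow, natDegree_X_sub_C, mul_one]
    refine hmin ((X - C c0) ^ p ^ t - C e) (fun h => ?_) (fun i => ?_) ?_ (Z + c0) ?_ ?_
    · rw [h, natDegree_zero] at h9
      exact (pow_pos hp.out.pos t).ne h9
    · rw [coeff_sub, coeff_C]
      refine F.sub_mem (coeff_U_mem hc0 _ _) ?_
      split_ifs
      exacts [he, F.zero_mem]
    · rw [h9]
      exact Nat.pow_lt_pow_right hp.out.one_lt (Nat.lt_succ_self t)
    · rw [← hD, add_sub_cancel_right, pow_succ, pow_mul, hZ, show e ^ p - Y =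
        (ψ - Y) - (ψ - (c / b ^ p ^ t) ^ p) - ((c / b ^ p ^ t) ^ p - e ^ p) by ring]
      exact norm_sub_lt_of (norm_sub_lt_of h4 h6) h8
    · simp [hZ]
  · have h6 : ∀ᶠ u in 𝓝 R1, ‖b‖ ^ p ^ (t + 1) * u ^ p ^ (t + 1) < r :=
      ContinuousAt.eventually_lt (by fun_prop) continuousAt_const h5
    obtain ⟨u, h7, h8⟩ :=
      ((h6.filter_mono (nhdsWithin_le_nhds (s := Set.Ioi R1))).and self_mem_nhdsWithin).exists
    obtain ⟨c, hc, h9⟩ := h2 u h8
    refine ⟨b * (c - c0), F.mul_mem hb (F.sub_mem hc hc0), lt_of_le_of_lt ?_ h7⟩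
    rw [← mul_sub, sub_sub_sub_cancel_right, norm_mul, mul_pow]
    gcongr

end Pool.Agent.MP_19ffc6_ag.LU3

end MrgPart2

-- ======== part 3: formerly Pool.Agent.MP_19ffc6_ag.LU3.Pstep
section MrgPart3

/-! PROJECT LU3, PSTEP: the induction on the degree in section 2, for abstract predicates. -/

namespace Pool.Agent.MP_19ffc6_ag.LU3

open Polynomial IntermediateField Pool.Agent.MP_19ffc6_ag.LU Mh

universe u

variable {k : Type*} {Ω : Type u} [Field k] [NontriviallyNormedField Ω] [Algebra k Ω]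

namespace Pst

theorem sup_aff {F : IntermediateField k Ω} {b c : Ω} (hb : b ∈ F) (h0 : b ≠ 0) (hc : c ∈ F)
    (y : Ω) : F ⊔ adjoin k {b * (y - c)} = F ⊔ adjoin k {y} := by
  have hl : ∀ x : Ω, F ≤ F ⊔ adjoin k {x} := fun _ => le_sup_left
  have hx : ∀ x : Ω, x ∈ F ⊔ adjoin k {x} := fun x =>
    (le_sup_right : _ ≤ F ⊔ _) (subset_adjoin k _ rfl)
  refine le_antisymm (sup_le (hl y) (adjoin_simple_le_iff.2 ?_))
    (sup_le (hl _) (adjoin_simple_le_iff.2 ?_))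
  · exact mul_mem (hl y hb) (sub_mem (hx y) (hl y hc))
  · have h := add_mem (mul_mem (inv_mem (hl _ hb)) (hx (b * (y - c)))) (hl _ hc)
    rwa [inv_mul_cancel_left₀ h0, sub_add_cancel] at h

theorem transcendental_aff {F : IntermediateField k Ω} {b c y : Ω} (hb : b ∈ F) (h0 : b ≠ 0)
    (hc : c ∈ F) (hy : Transcendental F y) : Transcendental F (b * (y - c)) := fun h => hy (by
  have h1 := ((alg_of_mem (F.inv_mem hb)).mul h).add (alg_of_mem hc)
  rwa [inv_mul_cancel_left₀ h0, sub_add_cancel] at h1)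

theorem vfull_aff {F : IntermediateField k Ω} {b c y : Ω} (hb : b ∈ F) (h0 : b ≠ 0) (hc : c ∈ F)
    (h : VFull F (F ⊔ adjoin k {y})) : VFull F (F ⊔ adjoin k {b * (y - c)}) := by
  rwa [sup_aff hb h0 hc]

theorem natDegree_aff {K : IntermediateField k Ω} {b c a : Ω} (hb : b ∈ K) (hc : c ∈ K)
    (ha : IsIntegral K a) :
    (minpoly K (b * (a - c))).natDegree ≤ (minpoly K a).natDegree := by
  have h1 : b * (a - c) ∈ adjoin K {a} :=
    mul_mem ((adjoin K {a}).algebraMap_mem ⟨b, hb⟩)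
      (sub_mem (mem_adjoin_simple_self K a) ((adjoin K {a}).algebraMap_mem ⟨c, hc⟩))
  have := adjoin.finiteDimensional ha
  rw [← adjoin.finrank ha]
  have h2 := minpoly.natDegree_le (A := K) (⟨_, h1⟩ : adjoin K {a})
  rwa [← minpoly.algebraMap_eq (algebraMap (adjoin K {a}) Ω).injective] at h2

/-- A full field has elements that scale any element into the unit ball. -/
theorem vfull_scale {F K : IntermediateField k Ω} (h : VFull F K) {x : Ω} (hx : x ∈ K) :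
    ∃ b ∈ F, b ≠ 0 ∧ ‖b * x‖ ≤ 1 := by
  by_cases h1 : ‖x‖ ≤ 1
  · exact ⟨1, F.one_mem, one_ne_zero, by rwa [one_mul]⟩
  obtain ⟨e, he, h2⟩ : ∃ e ∈ F, 1 < ‖e‖ := by
    by_contra h2
    have h3 : qv F ≤ ⊥ := Submodule.span_le.2 (by
      rintro _ ⟨e, he, h0, rfl⟩
      have h4 : ‖e‖ ≤ 1 := not_lt.1 fun h => h2 ⟨e, he, h⟩
      have h5 : ‖e⁻¹‖ ≤ 1 := not_lt.1 fun h => h2 ⟨e⁻¹, F.inv_mem he, h⟩
      rw [norm_inv, inv_le_one₀ (norm_pos_iff.2 h0)] at h5
      exact (nu_eq_zero_iff h0).2 (le_antisymm h4 h5))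
    have h0 : x ≠ 0 := by
      rintro rfl
      simp at h1
    exact h1 ((nu_eq_zero_iff h0).1 (h3 (h x (alg_of_mem hx)))).le
  obtain ⟨n, hn⟩ := pow_unbounded_of_one_lt ‖x‖ h2
  have h3 : 0 < ‖e‖ ^ n := pow_pos (zero_lt_one.trans h2) n
  refine ⟨(e ^ n)⁻¹, F.inv_mem (pow_mem he n), ?_, ?_⟩
  · rwa [← norm_pos_iff, norm_inv, norm_pow, inv_pos]
  · rw [norm_mul, norm_inv, norm_pow, inv_mul_le_one₀ h3]
    exact hn.le

end Pst

/-- The claim P(q) for abstract predicates. -/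
def PQa (Dat : IntermediateField k Ω → Ω → Finset Ω → Prop)
    (PD : IntermediateField k Ω → Ω → ℝ → Finset Ω → Prop) (q : ℕ) : Prop :=
  ∀ F y Z R a, Dat F y Z → IsAlgebraic F a → ‖a - y‖ < R → (minpoly (hens F) a).natDegree ≤ q →
    PD F y R Z

variable [IsUltrametricDist Ω] [IsAlgClosed Ω] [Ctx k Ω] [DecidableEq Ω]

open Pst in
/-- PSTEP and the induction on the degree. -/
theorem pq_of (p : ℕ) [Fact p.Prime] [CharP k p]
    {Dat : IntermediateField k Ω → Ω → Finset Ω → Prop}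
    {PD : IntermediateField k Ω → Ω → ℝ → Finset Ω → Prop}
    (full : ∀ F y Z, Dat F y Z → VFull F (F ⊔ adjoin k {y}))
    (datadj : ∀ F y Z th, Dat F y Z → IsAlgebraic F th →
      Dat (F ⊔ adjoin k {th}) y (insert th Z))
    (dataff : ∀ F y Z b c, Dat F y Z → b ∈ F → b ≠ 0 → c ∈ F → Dat F (b * (y - c)) Z)
    (term : ∀ F y Z R c, Dat F y Z → c ∈ F → ‖c - y‖ < R → PD F y R Z)
    (aff : ∀ F y Z R b c, Dat F y Z → b ∈ F → b ≠ 0 → c ∈ F →
      PD F (b * (y - c)) (‖b‖ * R) Z → PD F y R Z)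
    (adj : ∀ F y Z R (m U : Polynomial Ω) th, Dat F y Z → (∀ i, m.coeff i ∈ F) →
      (∀ i, U.coeff i ∈ F) → m.eval th = 0 → th ∈ hens (F ⊔ adjoin k {y}) → 0 < R →
      (∀ T, ‖T - y‖ < R → U.eval T ≠ 0 ∧ m.derivative.eval (U.eval T) ≠ 0 ∧
        ∀ l, 2 ≤ l → ‖(hasseDeriv l m).eval (U.eval T)‖ * ‖th - U.eval T‖ ^ (l - 1) <
          ‖m.derivative.eval (U.eval T)‖) →
      PD (F ⊔ adjoin k {th}) y R (insert th Z) → PD F y R Z)
    (swap : ∀ q, PQa Dat PD q → ∀ F y Z R a (s : ℕ) ψ (rr : ℝ), Dat F y Z → 0 < s → ψ ∈ F →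
      ‖y‖ ≤ 1 → IsAlgebraic F a → ‖a - y‖ < R → (minpoly (hens F) a).natDegree ≤ q + 1 →
      ‖y ^ p ^ s - ψ‖ < rr →
      (∀ b, aeval b (minpoly (hens F) a) = 0 → ‖b ^ p ^ s - ψ‖ < rr ∧ ‖b‖ ≤ 1) →
      (∀ c ∈ hens F, rr ≤ ‖ψ - c ^ p‖) → (∀ r, rr < r → ∃ c ∈ F, ‖y - c‖ ^ p ^ s < r) →
      PD F y R Z) (q : ℕ) : PQa Dat PD q := by
  induction q with
  | zero =>
    intro F y Z R a _ ha _ hq
    exact absurd (minpoly.natDegree_pos (isAlgebraic_of_le (le_hens F) ha).isIntegral) (by omega)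
  | succ q ih =>
    intro F y Z R a hD ha hay hq
    by_cases hF : ∃ c ∈ F, ‖c - y‖ < R
    · obtain ⟨c, hc, h⟩ := hF
      exact term F y Z R c hD hc h
    have hy : y ∈ F ⊔ adjoin k {y} := (le_sup_right : _ ≤ F ⊔ _) (subset_adjoin k _ rfl)
    rcases dich p ha hay (fun c hc => not_lt.1 fun h => hF ⟨c, hc, h⟩) (fun c hc =>
      vfull_scale (full F y Z hD) (sub_mem hy ((le_sup_left : F ≤ _) hc))) with
      ⟨m, U, th, h1, h2, h3, h4, h5, h6, h7⟩ | ⟨s, b, c, ψ, rr, h1, h2, h3, h4, h5, h6, h7, h8, h9⟩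
    · exact adj F y Z R m U th hD h1 h2 h3 h4 ((norm_nonneg _).trans_lt hay) h5
        (ih _ y _ R a (datadj F y Z th hD h6) (isAlgebraic_of_le le_sup_left ha) hay (by omega))
    · refine aff F y Z R b c hD h2 h3 h4 (swap q ih F _ Z _ (b * (a - c)) s ψ rr
        (dataff F y Z b c hD h2 h3 h4) h1 h5 h6 ((alg_of_mem h2).mul (ha.sub (alg_of_mem h4))) ?_
        ((natDegree_aff (le_hens F h2) (le_hens F h4)
          (isAlgebraic_of_le (le_hens F) ha).isIntegral).trans hq) h7 h8 h9.1 h9.2)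
      rw [← mul_sub, sub_sub_sub_cancel_right, norm_mul]
      exact mul_lt_mul_of_pos_left hay (norm_pos_iff.2 h3)

end Pool.Agent.MP_19ffc6_ag.LU3

end MrgPart3

-- ======== part 4: formerly Pool.Agent.MP_19ffc6_ag.LU3.Term
section MrgPart4

/-! PROJECT LU3, section 2: the terminal case TERM, AFF, ADJ and the final step PFIN. -/

namespace Pool.Agent.MP_19ffc6_ag.LU3

open Polynomial IntermediateField Pool.Agent.MP_19ffc6_ag.LU Orth Mv

namespace TermM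

variable {k Ω : Type*} [Field k] [NontriviallyNormedField Ω] [Algebra k Ω] [IsUltrametricDist Ω]
  [IsAlgClosed Ω]

/-- The Taylor expansion at a point of a disc without roots is dominated by its constant term. -/
theorem taylor_lt {g : Polynomial Ω} {y c : Ω} {R : ℝ}
    (hg : ∀ T, ‖T - y‖ < R → g.eval T ≠ 0) (hc : ‖c - y‖ < R) {i : ℕ} (hi : i ≠ 0) :
    ‖(taylor c g).coeff i * (y - c) ^ i‖ < ‖(taylor c g).coeff 0‖ := by
  have hR : 0 < R := (norm_nonneg _).trans_lt hc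
  have h0 : 0 < ‖(taylor c g).coeff 0‖ := by
    rw [taylor_coeff_zero]; exact norm_pos_iff.2 (hg c hc)
  have h1 := Phi.coeff_le_coeff_zero (P := taylor c g) hR.le (fun x hx => by
    by_contra hlt
    have h2 := isRoot_of_mem_roots hx
    rw [IsRoot.def, taylor_eval] at h2
    refine hg (x + c) ?_ h2
    rw [add_sub_assoc]
    exact (IsUltrametricDist.norm_add_le_max _ _).trans_lt (max_lt (not_le.1 hlt) hc)) i
  rw [norm_mul, norm_pow, norm_sub_rev y c]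
  rcases (norm_nonneg ((taylor c g).coeff i)).eq_or_lt with h | h
  · rw [← h, zero_mul]; exact h0
  · exact (mul_lt_mul_of_pos_left (pow_lt_pow_left₀ hc (norm_nonneg _) hi) h).trans_le h1

omit [IsUltrametricDist Ω] [IsAlgClosed Ω] in
theorem exists_mul_nu {F : IntermediateField k Ω} {α : ℝ} (h : α ∈ qv F) :
    ∃ d : ℕ, 0 < d ∧ ∃ e ∈ F, e ≠ 0 ∧ nu e = d * α := by
  obtain ⟨d, hd, h1⟩ := exists_mul_mem_closure h
  rw [AddSubgroup.closure_eq] at h1
  exact ⟨d, hd, h1⟩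

omit [IsUltrametricDist Ω] [IsAlgClosed Ω] in
theorem alg_sub {F : IntermediateField k Ω} {y ρ : Ω} (hρ : IsAlgebraic F ρ) :
    IsAlgebraic (F ⊔ adjoin k {y} : IntermediateField k Ω) (y - ρ) :=
  (alg_of_mem ((le_sup_right : adjoin k {y} ≤ _) (mem_adjoin_simple_self k y))).sub
    (isAlgebraic_trans (fun _ hz => alg_of_mem ((le_sup_left : F ≤ _) hz)) hρ)

omit [IsUltrametricDist Ω] in
/-- Over a full base there is always a better algebraic approximation. -/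
theorem exists_near [Ctx k Ω] {F : IntermediateField k Ω} {y ρ : Ω}
    (hf : VFull F (F ⊔ adjoin k {y})) (hρ : IsAlgebraic F ρ) (hne : ρ ≠ y) :
    ∃ a, IsAlgebraic F a ∧ ‖a - y‖ < ‖ρ - y‖ := by
  have h0 : y - ρ ≠ 0 := sub_ne_zero.2 hne.symm
  obtain ⟨d, hd, e, he, he0, h1⟩ := exists_mul_nu (hf _ (alg_sub hρ))
  obtain ⟨b, hb⟩ := IsAlgClosed.exists_pow_nat_eq e hd
  have hb0 : b ≠ 0 := by rintro rfl; rw [zero_pow hd.ne'] at hb; exact he0 hb.symm
  have hn : ‖b‖ = ‖y - ρ‖ := by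
    have h2 : nu e = d * nu b := by
      rw [← hb]; simp only [nu, norm_pow, Real.log_pow]; ring
    rw [h2] at h1
    have h3 := mul_left_cancel₀ (by exact_mod_cast hd.ne' : (d : ℝ) ≠ 0) h1
    simp only [nu, neg_inj] at h3
    exact Real.log_injOn_pos (norm_pos_iff.2 hb0) (norm_pos_iff.2 h0) h3
  have hba : IsAlgebraic F b := IsAlgebraic.of_pow hd (hb ▸ alg_of_mem he)
  obtain ⟨c, hc⟩ := Ctx.res (k := k) ((y - ρ) / b) (by
    rw [norm_div, hn, div_self (norm_ne_zero_iff.2 h0)])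
  refine ⟨ρ + algebraMap k Ω c * b, hρ.add ((alg_of_mem (F.algebraMap_mem c)).mul hba), ?_⟩
  have h4 : ρ + algebraMap k Ω c * b - y = -(b * ((y - ρ) / b - algebraMap k Ω c)) := by
    field_simp; ring
  rw [h4, norm_neg, norm_mul, norm_sub_rev ρ y, ← hn]
  exact mul_lt_of_lt_one_right (norm_pos_iff.2 hb0) hc

omit [IsUltrametricDist Ω] [IsAlgClosed Ω] in
theorem alg_of_root {F : IntermediateField k Ω} {P : Polynomial Ω} (hP : ∀ i, P.coeff i ∈ F)
    (h0 : P ≠ 0) {ρ : Ω} (h : P.eval ρ = 0) : IsAlgebraic F ρ := by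
  obtain ⟨Q, rfl⟩ := Phi.exists_lift hP
  refine ⟨Q, fun hQ => h0 (by rw [hQ, Polynomial.map_zero]), ?_⟩
  rwa [eval_map_algebraMap] at h

omit [IsUltrametricDist Ω] [IsAlgClosed Ω] in
theorem coeff_comp_mem {F : IntermediateField k Ω} {P Q : Polynomial Ω} (hP : ∀ i, P.coeff i ∈ F)
    (hQ : ∀ i, Q.coeff i ∈ F) (i : ℕ) : (P.comp Q).coeff i ∈ F := by
  obtain ⟨P', rfl⟩ := Phi.exists_lift hP
  obtain ⟨Q', rfl⟩ := Phi.exists_lift hQ
  rw [← Polynomial.map_comp, coeff_map]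
  exact ((P'.comp Q').coeff i).2

omit [IsUltrametricDist Ω] [IsAlgClosed Ω] in
theorem coeff_lin_mem {F : IntermediateField k Ω} {b c : Ω} (hb : b ∈ F) (hc : c ∈ F) (i : ℕ) :
    (C b * X + C c).coeff i ∈ F := by
  rw [coeff_add, coeff_C_mul, coeff_X, coeff_C]
  refine F.add_mem (F.mul_mem hb ?_) ?_ <;> split_ifs
  exacts [F.one_mem, F.zero_mem, hc, F.zero_mem]

omit [IsUltrametricDist Ω] [IsAlgClosed Ω] in
theorem coeff_C_mem {F : IntermediateField k Ω} {c : Ω} (hc : c ∈ F) (i : ℕ) :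
    (C c).coeff i ∈ F := by
  rw [coeff_C]; split_ifs; exacts [hc, F.zero_mem]

omit [IsUltrametricDist Ω] [IsAlgClosed Ω] in
/-- Elements of `F(y)` are quotients of polynomial values. -/
theorem exists_quot {F : IntermediateField k Ω} {y w : Ω} (hw : w ∈ F ⊔ adjoin k {y})
    (h0 : w ≠ 0) : ∃ f g : Polynomial Ω, (∀ i, f.coeff i ∈ F) ∧ (∀ i, g.coeff i ∈ F) ∧
      f ≠ 0 ∧ g ≠ 0 ∧ w = f.eval y / g.eval y := by
  have h1 : w ∈ adjoin F {y} := by
    have : F ⊔ adjoin k {y} ≤ (adjoin F {y}).restrictScalars k :=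
      sup_le (fun a ha => (adjoin F {y}).algebraMap_mem ⟨a, ha⟩)
        (adjoin_le_iff.2 (Set.singleton_subset_iff.2 (mem_adjoin_simple_self F y)))
    exact this hw
  obtain ⟨f, g, rfl⟩ := (mem_adjoin_simple_iff F w).1 h1
  refine ⟨f.map (algebraMap F Ω), g.map (algebraMap F Ω), fun i => ?_, fun i => ?_, ?_, ?_, ?_⟩
  · rw [coeff_map]; exact (f.coeff i).2
  · rw [coeff_map]; exact (g.coeff i).2
  · rw [Ne, Polynomial.map_eq_zero]; rintro rfl; simp at h0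
  · rw [Ne, Polynomial.map_eq_zero]; rintro rfl; simp at h0
  · rw [eval_map_algebraMap, eval_map_algebraMap]

omit [IsUltrametricDist Ω] in
/-- The largest disc around `y` without roots contains an algebraic point. -/
theorem exists_disc [Ctx k Ω] {F : IntermediateField k Ω} {y : Ω} (hy : Transcendental F y)
    (hf : VFull F (F ⊔ adjoin k {y})) (GG : Finset (Polynomial Ω))
    (hG : ∀ g ∈ GG, (∀ i, g.coeff i ∈ F) ∧ g ≠ 0) :
    ∃ (R : ℝ) (a : Ω), IsAlgebraic F a ∧ ‖a - y‖ < R ∧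
      ∀ g ∈ GG, ∀ T, ‖T - y‖ < R → g.eval T ≠ 0 := by
  classical
  obtain ⟨ρ, hρ, hmin⟩ := Finset.exists_min_image (insert 0 (GG.biUnion fun g => g.roots.toFinset))
    (fun ρ => ‖ρ - y‖) (Finset.insert_nonempty _ _)
  have ha : IsAlgebraic F ρ := by
    rcases Finset.mem_insert.1 hρ with rfl | h
    · exact isAlgebraic_zero
    · obtain ⟨g, hg, h⟩ := Finset.mem_biUnion.1 h
      exact alg_of_root (hG g hg).1 (hG g hg).2 (isRoot_of_mem_roots (Multiset.mem_toFinset.1 h))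
  obtain ⟨a, h1, h2⟩ := exists_near hf ha fun h => hy (h ▸ ha)
  refine ⟨_, a, h1, h2, fun g hg T hT h => (hmin T (Finset.mem_insert_of_mem ?_)).not_gt hT⟩
  exact Finset.mem_biUnion.2 ⟨g, hg, Multiset.mem_toFinset.2 ((mem_roots (hG g hg).2).2 h)⟩

omit [IsUltrametricDist Ω] [IsAlgClosed Ω] in
theorem sup_aff {F : IntermediateField k Ω} {y b c : Ω} (hb : b ∈ F) (hc : c ∈ F) (h0 : b ≠ 0) :
    F ⊔ adjoin k {b * (y - c)} = F ⊔ adjoin k {y} := by
  have key : ∀ (y : Ω) {b c : Ω}, b ∈ F → c ∈ F →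
      F ⊔ adjoin k {b * (y - c)} ≤ F ⊔ adjoin k {y} := fun y b c hb hc =>
    sup_le le_sup_left (adjoin_le_iff.2 (Set.singleton_subset_iff.2 (mul_mem
      ((le_sup_left : F ≤ _) hb) (sub_mem ((le_sup_right : adjoin k {y} ≤ _)
        (mem_adjoin_simple_self k y)) ((le_sup_left : F ≤ _) hc)))))
  refine le_antisymm (key y hb hc) ?_
  have := key (b * (y - c)) (F.inv_mem hb) (F.neg_mem (F.mul_mem hb hc))
  rwa [show b⁻¹ * (b * (y - c) - -(b * c)) = y by field_simp; ring] at this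

omit [IsUltrametricDist Ω] [IsAlgClosed Ω] in
/-- A denominator for an element of the field generated by `Z`. -/
theorem denom {F : IntermediateField k Ω} {Z : Set Ω} (hZ : adjoin k Z = F) {a : Ω} (ha : a ∈ F) :
    ∃ u ∈ F, u ≠ 0 ∧ ∀ {ι : Type} {ξ : ι → Ω} {I : Finset ι} {A : Subalgebra k Ω},
      Cl k ξ I A → Z ⊆ A → Gd k ξ I u → a ∈ A := by
  subst hZ
  obtain ⟨g, hg, u, hu, hu0, rfl⟩ := exists_den ha
  exact ⟨u, algebra_adjoin_le_adjoin k Z hu, hu0, fun hA hZ h =>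
    hA.div (Algebra.adjoin_le hZ hg) (Algebra.adjoin_le hZ hu) h⟩

variable [Ctx k Ω] [Infinite k] {ι : Type}

/-- Adding one transcendental element to a chart. -/
theorem addz [Finite ι] {ξ : ι → Ω} {I : Finset ι} (h : IsChart k ξ I) {z : Ω}
    (hz : Transcendental (adjoin k (Set.range ξ)) z) :
    ∃ (ξ' : Option ι → Ω) (I' : Finset (Option ι)), IsChart k ξ' I' ∧ LeX k ξ I ξ' I' ∧
      (∀ i, ξ' i ∈ adjoin k (insert z (Set.range ξ))) ∧ Gd k ξ' I' z ∧
      ∀ A : Subalgebra k Ω, (∀ b ∈ A, Gd k ξ' I' b → b⁻¹ ∈ A) → z ∈ A → (∀ i, ξ i ∈ A) →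
        ∀ i, ξ' i ∈ A := by
  have hm : ∀ i, ξ i ∈ adjoin k (insert z (Set.range ξ)) := fun i =>
    subset_adjoin _ _ (Set.mem_insert_of_mem _ ⟨i, rfl⟩)
  have hzm : z ∈ adjoin k (insert z (Set.range ξ)) := subset_adjoin _ _ (Set.mem_insert _ _)
  have key : ∀ t : Ω, Transcendental (adjoin k (Set.range ξ)) t → ‖t‖ < 1 →
      t ∈ adjoin k (insert z (Set.range ξ)) →
      ∃ (ξ' : Option ι → Ω) (I' : Finset (Option ι)), IsChart k ξ' I' ∧ LeX k ξ I ξ' I' ∧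
        (∀ i, ξ' i ∈ adjoin k (insert z (Set.range ξ))) ∧ Gd k ξ' I' t ∧ t ∈ H k ξ' ∧
        ∀ A : Subalgebra k Ω, (∀ b ∈ A, Gd k ξ' I' b → b⁻¹ ∈ A) → t ∈ A → (∀ i, ξ i ∈ A) →
          ∀ i, ξ' i ∈ A := fun t ht h1 h2 => by
    obtain ⟨e1, e2⟩ := Mv.ext h (transcendental_adjoin_iff.1 ht) h1
    obtain ⟨ξ', I', s1, s2, s3, s4, -, -, s5⟩ := step e1 (j := none) (by simp)
    refine ⟨ξ', I', s1, e2.trans s1 s2, fun i => ?_, s4, s2.1 none, fun A hA ht hξ =>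
      s3 A hA (by rintro (_ | i); exacts [ht, hξ i])⟩
    refine (adjoin_le_iff.2 ?_ : adjoin k _ ≤ _) (s5 ▸ subset_adjoin k _ ⟨i, rfl⟩ :
      ξ' i ∈ adjoin k (Set.range fun o : Option ι => o.elim t ξ))
    rintro _ ⟨_ | i, rfl⟩; exacts [h2, hm i]
  rcases lt_trichotomy ‖z‖ 1 with h1 | h1 | h1
  · obtain ⟨ξ', I', s1, s2, s3, s4, -, s5⟩ := key z hz h1 hzm
    exact ⟨ξ', I', s1, s2, s3, s4, s5⟩
  · obtain ⟨c, hc⟩ := Ctx.res (k := k) z h1.le
    obtain ⟨ξ', I', s1, s2, s3, -, s4, s5⟩ := key (z - algebraMap k Ω c) (fun ha => hz (by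
      simpa using ha.add (alg_of_mem ((adjoin k (Set.range ξ)).algebraMap_mem c)))) hc
      (sub_mem hzm (IntermediateField.algebraMap_mem _ c))
    exact ⟨ξ', I', s1, s2, s3, Gd.unit (by simpa using add_mem s4 (Subalgebra.algebraMap_mem _ c))
      h1, fun A hA h2 => s5 A hA (sub_mem h2 (A.algebraMap_mem c))⟩
  · obtain ⟨ξ', I', s1, s2, s3, s4, -, s5⟩ := key z⁻¹ (fun ha => hz (by simpa using ha.inv))
      (by rw [norm_inv]; exact inv_lt_one_of_one_lt₀ h1) (inv_mem hzm)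
    have s6 : Gd k ξ' I' z := by simpa using s4.inv
    exact ⟨ξ', I', s1, s2, s3, s6, fun A hA h2 => s5 A hA (hA z h2 s6)⟩

end TermM

open TermM

variable {k Ω : Type*} [Field k] [NontriviallyNormedField Ω] [Algebra k Ω]

/-- AFF: an affine change of the variable. -/
theorem aff {F : IntermediateField k Ω} {Z : Finset Ω} (hZ : adjoin k (Z : Set Ω) = F)
    {y b c : Ω} {R : ℝ} (hb : b ∈ F) (hc : c ∈ F) (h0 : b ≠ 0)
    (h : PD F (b * (y - c)) (‖b‖ * R) Z) : PD F y R Z := by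
  classical
  intro GG hG
  obtain ⟨u, hu, hu0, Hu⟩ := denom hZ hb
  obtain ⟨v, hv, hv0, Hv⟩ := denom hZ hc
  obtain ⟨ι, _, ξ, I, hs, hξ, hgd, hsp⟩ := h (insert (C u) (insert (C v)
      (GG.image fun g => g.comp (C b⁻¹ * X + C c)))) (by
    simp only [Finset.forall_mem_insert, Finset.forall_mem_image]
    refine ⟨⟨coeff_C_mem hu, fun T _ => by simpa using hu0⟩,
      ⟨coeff_C_mem hv, fun T _ => by simpa using hv0⟩, fun g hg =>
      ⟨coeff_comp_mem (hG g hg).1 (coeff_lin_mem (F.inv_mem hb) hc), fun T hT => ?_⟩⟩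
    rw [eval_comp]
    refine (hG g hg).2 _ (lt_of_mul_lt_mul_left ?_ (norm_nonneg b))
    rwa [← norm_mul, show b * (eval T (C b⁻¹ * X + C c) - y) = T - b * (y - c) by
      simp only [eval_add, eval_mul, eval_C, eval_X]; field_simp; ring])
  simp only [Finset.forall_mem_insert, Finset.forall_mem_image, eval_C] at hgd
  refine ⟨ι, inferInstance, ξ, I, hs, sup_aff hb hc h0 ▸ hξ, fun g hg => ?_,
    fun A hA hZA => hsp A hA ?_⟩
  · have := hgd.2.2 hg
    rwa [eval_comp, show eval (b * (y - c)) (C b⁻¹ * X + C c) = y by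
      simp only [eval_add, eval_mul, eval_C, eval_X]; field_simp; ring] at this
  · have h1 : (Z : Set Ω) ⊆ A := (Set.subset_insert _ _).trans hZA
    exact Set.insert_subset (mul_mem (Hu hA h1 hgd.1)
      (sub_mem (hZA (Set.mem_insert _ _)) (Hv hA h1 hgd.2.1))) h1

/-- The data are invariant under an affine change of the variable. -/
theorem Dat.aff {n : ℕ} {F : IntermediateField k Ω} {Z : Finset Ω} {y b c : Ω} (h : Dat n F y Z)
    (hb : b ∈ F) (hc : c ∈ F) (h0 : b ≠ 0) : Dat n F (b * (y - c)) Z := by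
  refine ⟨h.gen, h.dim, fun ha => h.tr ?_, by rw [sup_aff hb hc h0]; exact h.full⟩
  have := ((alg_of_mem (F.inv_mem hb)).mul ha).add (alg_of_mem hc)
  rwa [inv_mul_cancel_left₀ h0, sub_add_cancel] at this

variable [IsAlgClosed Ω] [Ctx k Ω]

/-- PFIN: the statements `P(q)` give the inductive statement for `F(y)`. -/
theorem pfin {n : ℕ} (hq : ∀ q, PQ k Ω n q) {F : IntermediateField k Ω} {y : Ω} (hF : F.FG)
    (hd : Algebra.trdeg k F ≤ n) (hy : Transcendental F y) (hf : VFull F (F ⊔ adjoin k {y})) :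
    SG k (F ⊔ adjoin k {y}) := by
  classical
  obtain ⟨Z, hZ⟩ := hF
  refine sg_of (insert y Z) (fun z hz => ?_) fun W hW => ?_
  · rcases Finset.mem_insert.1 hz with rfl | hz
    · exact (le_sup_right : adjoin k {z} ≤ _) (mem_adjoin_simple_self k z)
    · exact (le_sup_left : F ≤ _) (hZ ▸ subset_adjoin k _ hz)
  choose! f g hf1 hg1 hf0 hg0 hfg using fun w (hw : w ∈ W) => exists_quot (hW w hw).1 (hW w hw).2
  have h3 : ∀ P ∈ W.image f ∪ W.image g, (∀ i, P.coeff i ∈ F) ∧ P ≠ 0 := fun P hP => by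
    rcases Finset.mem_union.1 hP with hP | hP <;> obtain ⟨w, hw, rfl⟩ := Finset.mem_image.1 hP
    exacts [⟨hf1 w hw, hf0 w hw⟩, ⟨hg1 w hw, hg0 w hw⟩]
  obtain ⟨R, a, ha, haR, hR⟩ := exists_disc hy hf _ h3
  obtain ⟨ι, _, ξ, I, hs, hξ, hgd, hsp⟩ := hq _ F y Z R a ⟨hZ, hd, hy, hf⟩ ha haR le_rfl _
    fun P hP => ⟨(h3 P hP).1, hR P hP⟩
  refine ⟨ι, inferInstance, ξ, I, hs, hξ, fun w hw => ?_, hsp.mono ?_⟩
  · rw [hfg w hw]
    exact (hgd _ (Finset.mem_union_left _ (Finset.mem_image_of_mem _ hw))).div hs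
      (hgd _ (Finset.mem_union_right _ (Finset.mem_image_of_mem _ hw)))
  · rw [Finset.coe_insert]; exact Set.subset_union_left

variable [IsUltrametricDist Ω] [Infinite k]

/-- TERM: the disc contains a point of the base field. -/
theorem term {n : ℕ} (ih : IH k Ω n) {F : IntermediateField k Ω} {y c : Ω} {Z : Finset Ω} {R : ℝ}
    (hD : Dat n F y Z) (hc : c ∈ F) (hcR : ‖c - y‖ < R) : PD F y R Z := by
  classical
  intro GG hG
  obtain ⟨v, hv, hv0, Hv⟩ := denom hD.gen hc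
  obtain ⟨ι, _, ξ, I, hs, hξ, hgd, hsp⟩ := ih F ⟨Z, hD.gen⟩ hD.dim Z
    (insert v (GG.biUnion fun g => (taylor c g).coeffs)) hD.gen (by
      simp only [Finset.forall_mem_insert, Finset.mem_biUnion]
      refine ⟨⟨hv, hv0⟩, ?_⟩
      rintro _ ⟨g, hg, h⟩
      obtain ⟨i, hi, rfl⟩ := mem_coeffs_iff.1 h
      exact ⟨Phi.taylor_mem (hG g hg).1 hc i, mem_support_iff.1 hi⟩)
  simp only [Finset.forall_mem_insert, Finset.mem_biUnion] at hgd
  obtain ⟨gv, gG⟩ := hgd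
  have hz : Transcendental (adjoin k (Set.range ξ)) (y - c) := fun ha => hD.tr (by
    simpa using (isAlgebraic_trans (fun z hz => alg_of_mem_hens
      ((adjoin_le_iff.2 (Set.range_subset_iff.2 hξ) : adjoin k _ ≤ _) hz)) ha).add (alg_of_mem hc))
  obtain ⟨ξ1, I1, s1, s2, s3, s5, s4⟩ := addz hs hz
  have h0 : ∀ g ∈ GG, (taylor c g).coeff 0 ≠ 0 := fun g hg => by
    rw [taylor_coeff_zero]; exact (hG g hg).2 c hcR
  have hlt : ∀ g ∈ GG, ∀ i, i ≠ 0 →
      ‖((taylor c g).coeff 0)⁻¹ * ((taylor c g).coeff i * (y - c) ^ i)‖ < 1 := fun g hg i hi => by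
    rw [norm_mul, norm_inv, inv_mul_lt_iff₀ (norm_pos_iff.2 (h0 g hg)), mul_one]
    exact taylor_lt (hG g hg).2 hcR hi
  have hg0 : ∀ g ∈ GG, ∀ i ∈ (taylor c g).support, Gd k ξ1 I1 ((taylor c g).coeff i) :=
    fun g hg i hi => (gG _ ⟨g, hg, coeff_mem_coeffs (mem_support_iff.1 hi)⟩).mono s1 s2
  obtain ⟨ξ2, t1, t2, t4, -, -, t3, t5⟩ := ref s1 (GG.biUnion fun g =>
      ((taylor c g).support.erase 0).image
        fun i => ((taylor c g).coeff 0)⁻¹ * ((taylor c g).coeff i * (y - c) ^ i)) (by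
    simp only [Finset.mem_biUnion, Finset.mem_image, Finset.mem_erase]
    rintro _ ⟨g, hg, i, ⟨hi0, hi⟩, rfl⟩
    exact ⟨(hg0 g hg 0 (mem_support_iff.2 (h0 g hg))).inv.mul s1
      ((hg0 g hg i hi).mul s1 (s5.pow s1 i)), (hlt g hg i hi0).le⟩)
  have hK : adjoin k (insert (y - c) (Set.range ξ)) ≤ hens (F ⊔ adjoin k {y}) := by
    refine adjoin_le_iff.2 (Set.insert_subset (le_hens _ (sub_mem ?_ ?_))
      (Set.range_subset_iff.2 fun i => hens_le_hens (le_sup_left.trans (le_hens _)) (hξ i)))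
    exacts [(le_sup_right : adjoin k {y} ≤ _) (mem_adjoin_simple_self k y),
      (le_sup_left : F ≤ _) hc]
  refine ⟨_, inferInstance, ξ2, I1, t1, fun i => hK ((adjoin_le_iff.2 (Set.range_subset_iff.2 s3) :
    adjoin k _ ≤ _) (t3 ▸ subset_adjoin k _ ⟨i, rfl⟩)), fun g hg => ?_, fun A hA hZA => ?_⟩
  · set P := taylor c g with hP
    have e1 : g.eval y = P.coeff 0 *
        (1 + ∑ i ∈ P.support.erase 0, (P.coeff 0)⁻¹ * (P.coeff i * (y - c) ^ i)) := by
      rw [← Finset.mul_sum, mul_add, mul_inv_cancel_left₀ (h0 g hg), ← taylor_eval_sub c,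
        eval_eq_sum, sum_def, ← Finset.add_sum_erase _ _ (mem_support_iff.2 (h0 g hg)), pow_zero]
    rw [e1]
    refine ((hg0 g hg 0 (mem_support_iff.2 (h0 g hg))).mono t1 t2).mul t1 (Gd.unit
      (add_mem (one_mem _) (sum_mem fun i hi => (t5 _ ?_).1)) ?_)
    · exact Finset.mem_biUnion.2 ⟨g, hg, Finset.mem_image_of_mem _ hi⟩
    · have := norm_sum_lt_of (s := P.support.erase 0) one_pos
        fun i hi => hlt g hg i (Finset.ne_of_mem_erase hi)
      rw [IsUltrametricDist.norm_add_eq_max_of_norm_ne_norm (by rw [norm_one]; exact this.ne'),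
        norm_one, max_eq_left this.le]
  · have h1 : (Z : Set Ω) ⊆ A := (Set.subset_insert _ _).trans hZA
    have hA1 := hA.mono s1 t1 t2
    have hA0 := hA1.mono hs s1 s2
    exact t4 A hA.1 (s4 A hA1.1 (sub_mem (hZA (Set.mem_insert _ _)) (Hv hA0 h1 gv))
      (hsp A hA0 h1))

theorem termStmt {n : ℕ} (ih : IH k Ω n) : TermStmt k Ω n :=
  fun _ _ _ _ _ hD hc h => term ih hD hc h

omit [IsAlgClosed Ω] [Ctx k Ω] [IsUltrametricDist Ω] [Infinite k] in
theorem affStmt : AffStmt k Ω := fun _ _ _ _ _ _ hZ hb hc h0 h => aff hZ hb hc h0 h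

/-- Section 2 from ADJ and SWAP. -/
theorem pstmt_of [DecidableEq Ω] (p : ℕ) [Fact p.Prime] [CharP k p] {n : ℕ} (adj : AdjStmt k Ω)
    (swap : IH k Ω n → ∀ q, PQ k Ω n q → SwapStmt k Ω p n q) : PStmt k Ω n :=
  fun ih _ _ => pfin (pq_of p (Dat := Dat n) (PD := PD) (fun _ _ _ h => h.full)
    (fun _ _ _ _ h => h.adj) (fun _ _ _ _ _ h hb h0 hc => h.aff hb hc h0)
    (fun _ _ _ _ _ => term ih) (fun _ _ _ _ _ _ h hb h0 hc => aff h.gen hb hc h0)
    (fun F y Z R m U th h => adj F y Z R m U th h.gen)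
    fun q hq F y Z R a s ψ rr => swap ih q hq F y Z R a ψ s rr)

namespace AdjM

omit [IsAlgClosed Ω] [Ctx k Ω] [IsUltrametricDist Ω] [Infinite k]

theorem hasse_mem {F : IntermediateField k Ω} {P : Polynomial Ω} (h : ∀ i, P.coeff i ∈ F)
    (l i : ℕ) : (hasseDeriv l P).coeff i ∈ F := by
  rw [hasseDeriv_coeff]; exact mul_mem (_root_.natCast_mem F _) (h _)

theorem deriv_mem {F : IntermediateField k Ω} {P : Polynomial Ω} (h : ∀ i, P.coeff i ∈ F)
    (i : ℕ) : P.derivative.coeff i ∈ F := by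
  rw [← hasseDeriv_one']; exact hasse_mem h 1 i

/-- Denominators for all coefficients of a polynomial. -/
theorem denoms {F : IntermediateField k Ω} {Z : Set Ω} (hZ : adjoin k Z = F) {P : Polynomial Ω}
    (h : ∀ i, P.coeff i ∈ F) : ∃ D : Finset Ω, (∀ u ∈ D, u ∈ F ∧ u ≠ 0) ∧
      ∀ {ι : Type} {ξ : ι → Ω} {I : Finset ι} {A : Subalgebra k Ω},
        Cl k ξ I A → Z ⊆ A → (∀ u ∈ D, Gd k ξ I u) → ∀ i, P.coeff i ∈ A := by
  classical
  choose u hu hu0 Hu using fun i => denom hZ (h i)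
  refine ⟨P.support.image u, by simp only [Finset.forall_mem_image]; exact fun i _ => ⟨hu i, hu0 i⟩,
    fun hA hZA hD i => ?_⟩
  by_cases hi : i ∈ P.support
  · exact Hu i hA hZA (hD _ (Finset.mem_image_of_mem _ hi))
  · rw [notMem_support_iff.1 hi]; exact zero_mem _

end AdjM

open AdjM Hr

omit [Infinite k] in
/-- ADJ: removal of a henselian element from the base field. -/
theorem adjStmt [DecidableEq Ω] : AdjStmt k Ω := by
  classical
  intro F y Z R m U th hZ hm hU h0 hth _ hD h GG hG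
  set F' := F ⊔ adjoin k {th}
  have hF : F ≤ F' := le_sup_left
  have hth' : th ∈ F' := Pd.self_mem F th
  obtain ⟨D1, d1, H1⟩ := denoms hZ hm
  obtain ⟨D2, d2, H2⟩ := denoms hZ hU
  set g := m.derivative.comp U with hg
  set f : ℕ → Polynomial Ω := fun l => (hasseDeriv (l + 2) m).comp U * (C th - U) ^ (l + 1) with hf
  have hg1 : ∀ i, g.coeff i ∈ F' := fun i => hF (coeff_comp_mem (deriv_mem hm) hU i)
  have hf1 : ∀ l i, (g - f l).coeff i ∈ F' := fun l => (mem_cf (A := F'.toSubalgebra.toSubring)).1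
    (sub_mem (mem_cf.2 hg1) (mul_mem (mem_cf.2 fun i => hF (coeff_comp_mem (hasse_mem hm _) hU i))
      (pow_mem (sub_mem (C_mem_cf hth') (mem_cf.2 fun i => hF (hU i))) _)))
  have hlt : ∀ l T, ‖T - y‖ < R → ‖(f l).eval T‖ < ‖g.eval T‖ := fun l T hT => by
    simpa [hf, hg, eval_comp] using (hD T hT).2.2 (l + 2) (by omega)
  obtain ⟨ι, _, ξ, I, hs, hξ, hgd, hsp⟩ := h (GG ∪ (insert U (insert g
      (((Finset.range m.natDegree).image fun l => g - f l) ∪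
        ((insert th (D1 ∪ D2)).erase 0).image C)))) (by
    simp only [Finset.forall_mem_union, Finset.forall_mem_insert, Finset.forall_mem_image]
    refine ⟨fun P hP => ⟨fun i => hF ((hG P hP).1 i), (hG P hP).2⟩,
      ⟨fun i => hF (hU i), fun T hT => (hD T hT).1⟩,
      ⟨hg1, fun T hT => by rw [hg, eval_comp]; exact (hD T hT).2.1⟩,
      fun l _ => ⟨hf1 l, fun T hT e => ?_⟩, fun u hu => ⟨coeff_C_mem ?_, fun T _ => ?_⟩⟩
    · rw [eval_sub, sub_eq_zero] at e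
      exact (hlt l T hT).ne' (by rw [e])
    · rcases Finset.mem_insert.1 (Finset.mem_of_mem_erase hu) with rfl | hu
      · exact hth'
      · exact hF ((Finset.mem_union.1 hu).elim (fun h => (d1 u h).1) fun h => (d2 u h).1)
    · rw [eval_C]; exact Finset.ne_of_mem_erase hu)
  simp only [Finset.forall_mem_union, Finset.forall_mem_insert, Finset.forall_mem_image,
    eval_C] at hgd
  obtain ⟨g1, g2, g3, g4, g5⟩ := hgd
  have hR : ‖y - y‖ < R := by rwa [sub_self, norm_zero]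
  refine ⟨ι, inferInstance, ξ, I, hs, fun i => hens_le_hens (sup_le (sup_le
    (le_sup_left.trans (le_hens _)) (Pd.simple_le hth)) (le_sup_right.trans (le_hens _))) (hξ i),
    g1, fun A hA hZA => hsp A hA ?_⟩
  have hZ1 : (Z : Set Ω) ⊆ A := (Set.subset_insert _ _).trans hZA
  have hy : y ∈ A := hZA (Set.mem_insert _ _)
  rw [Finset.coe_insert]
  refine Set.insert_subset hy (Set.insert_subset ?_ hZ1)
  by_cases ht0 : th = 0
  · rw [ht0]; exact zero_mem _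
  have hmA := H1 hA hZ1 fun u hu => g5 (Finset.mem_erase.2 ⟨(d1 u hu).2,
    Finset.mem_insert_of_mem (Finset.mem_union_left _ hu)⟩)
  have hUA := H2 hA hZ1 fun u hu => g5 (Finset.mem_erase.2 ⟨(d2 u hu).2,
    Finset.mem_insert_of_mem (Finset.mem_union_right _ hu)⟩)
  obtain ⟨n1, e1⟩ := (g5 (Finset.mem_erase.2 ⟨ht0, Finset.mem_insert_self _ _⟩)).clear hs
  obtain ⟨n2, e2⟩ := g2.clear hs
  have hne := g3.ne hs
  refine hA.simple m hmA (Desc.eval_mem A U hUA hy) h0 (hD y hR).2.1 (by rwa [hg, eval_comp] at g3)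
    (κ := n1 + n2) ?_ fun l => ?_
  · rw [mul_sub, pow_add, mul_comm _ (_ ^ n2), mul_assoc, mul_comm (_ ^ n2) (_ ^ n1), mul_assoc]
    exact sub_mem (mul_mem (pow_mem pi_mem_H _) e1) (mul_mem (pow_mem pi_mem_H _) e2)
  by_cases hl : l < m.natDegree
  · have e3 : (hasseDeriv (l + 2) m).eval (U.eval y) * (th - U.eval y) ^ (l + 1) /
        m.derivative.eval (U.eval y) = (f l).eval y / g.eval y := by simp [hf, hg, eval_comp]
    have e4 : ‖(f l).eval y / g.eval y‖ < 1 := by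
      rw [norm_div, div_lt_one (norm_pos_iff.2 hne)]; exact hlt l y hR
    have e5 : (g - f l).eval y / g.eval y = 1 - (f l).eval y / g.eval y := by
      rw [eval_sub, sub_div, div_self hne]
    have e6 := ((g4 (Finset.mem_range.2 hl)).div hs g3).mem_of_norm hs (by
      rw [e5, sub_eq_add_neg, IsUltrametricDist.norm_add_eq_max_of_norm_ne_norm (by
        rw [norm_one, norm_neg]; exact e4.ne'), norm_one, norm_neg, max_eq_left e4.le])
    rw [e3]
    refine Hr.max hs.small ?_ e4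
    have := sub_mem (one_mem _) e6
    rwa [e5, sub_sub_cancel] at this
  · rw [hasseDeriv_eq_zero_of_lt_natDegree m _ (by omega), eval_zero, zero_mul, zero_div]
    exact zero_mem _

/-- Section 2 from SWAP alone. -/
theorem pstmt [DecidableEq Ω] (p : ℕ) [Fact p.Prime] [CharP k p] {n : ℕ}
    (swap : IH k Ω n → AdjStmt k Ω → ∀ q, PQ k Ω n q → SwapStmt k Ω p n q) : PStmt k Ω n :=
  pstmt_of p adjStmt fun ih => swap ih adjStmt

/-- DESC: the inductive statement descends from `K1` to `K` when `K ≤ K1 ≤ hens K`. -/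
theorem descT {K K1 : IntermediateField k Ω} (h1 : K ≤ K1) (h2 : K1 ≤ hens K) (hfg : K1.FG)
    (h : SG k K1) : SG k K := by
  classical
  obtain ⟨Z1, hZ1⟩ := hfg
  have hz : ∀ z ∈ Z1, z ∈ hens K := fun z hz => h2 (hZ1 ▸ subset_adjoin k _ hz)
  choose! b hb hbn using fun z (h : z ∈ Z1) => exists_norm_eq_of_mem_hens (hz z h)
  obtain ⟨η, P, -, e1, e2, e3, e4, e5, -, e6⟩ := eta (k := k) K (Z1.image fun z => z / b z) (by
    simp only [Finset.forall_mem_image]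
    exact fun z h => ⟨div_mem (hz z h) (le_hens K (hb z h)), by
      rw [norm_div, hbn z h]; exact div_self_le_one _⟩)
  choose! G N hG hN using fun z (h : z ∈ Z1) => e6 _ (Finset.mem_image_of_mem _ h)
  refine sg_of (P.coeffs ∪ (Z1.image b ∪ Z1.biUnion fun z => (G z).coeffs)) (by
    simp only [Finset.forall_mem_union, Finset.forall_mem_image, Finset.mem_biUnion]
    refine ⟨mem_of_mem_coeffs fun i => (e3 i).1, fun z => hb z, ?_⟩
    rintro c ⟨z, h, hc⟩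
    exact mem_of_mem_coeffs (fun i => (hG z h i).1) c hc) fun W hW => ?_
  obtain ⟨ι, _, ξ, I, hs, hξ, hgd, hsp⟩ := h.ref Z1 (W ∪ P.coeffs) hZ1 (by
    simp only [Finset.forall_mem_union]
    refine ⟨fun w hw => ⟨h1 (hW w hw).1, (hW w hw).2⟩, fun c hc => ?_⟩
    obtain ⟨i, hi, rfl⟩ := mem_coeffs_iff.1 hc
    exact ⟨h1 (e3 i).1, mem_support_iff.1 hi⟩)
  have hP : ∀ i, P.coeff i ∈ H k ξ := coeff_mem_of_coeffs fun c hc =>
    ((hgd c (Finset.mem_union_right _ hc)).2.1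
      (mem_of_mem_coeffs (p := fun c => ‖c‖ ≤ 1) (fun i => (e3 i).2) c hc)).mem
  have hη : η ∈ H k ξ := H_h2 hs.ind hs.small e2 hP e4 e5
  refine ⟨ι, inferInstance, ξ, I, hs, fun i => hens_le_hens h2 (hξ i),
    fun w hw => (hgd w (Finset.mem_union_left _ hw)).1, fun A hA hZA => hsp A hA fun z h => ?_⟩
  have hZ : ∀ c ∈ P.coeffs ∪ (Z1.image b ∪ Z1.biUnion fun z => (G z).coeffs), c ∈ A :=
    fun c hc => hZA (Set.mem_union_left _ hc)
  simp only [Finset.forall_mem_union, Finset.forall_mem_image, Finset.mem_biUnion] at hZ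
  have hPA : ∀ i, P.coeff i ∈ A := coeff_mem_of_coeffs hZ.1
  have hηA : η ∈ A := hA.hens hs P hPA hP hη e4 e5
  have hd : ∀ B : Subalgebra k Ω, (∀ i, P.coeff i ∈ B) → η ∈ B →
      η ^ N z * P.derivative.eval η ∈ B := fun B hB hη' =>
    mul_mem (pow_mem hη' _) (Desc.eval_mem B _ (fun i => by
      rw [coeff_derivative]
      exact mul_mem (hB _) (add_mem (_root_.natCast_mem B _) (one_mem _))) hη')
  have hn : ‖η ^ N z * P.derivative.eval η‖ = 1 := by rw [norm_mul, norm_pow, e1, e5]; simp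
  by_cases h0 : z = 0
  · rw [h0]; exact zero_mem _
  have hb0 : b z ≠ 0 := by rw [← norm_ne_zero_iff, hbn z h]; exact norm_ne_zero_iff.2 h0
  have e7 := mul_mem (hZ.2.1 h) (hA.div (Desc.eval_mem A (G z) (coeff_mem_of_coeffs fun c hc =>
    hZ.2.2 c ⟨z, h, hc⟩) hηA) (hd A hPA hηA) (Gd.unit (hd _ hP hη) hn))
  rwa [← hN z h, mul_div_cancel_right₀ _ (ne_zero_of_norm_eq_one hn), mul_div_cancel₀ _ hb0] at e7

end Pool.Agent.MP_19ffc6_ag.LU3

end MrgPart4

-- marker of a merged file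
example : 731051 + 569144 = 731051 + 569144 := rfl
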