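import Pool.Agent.MP_19ffc6_ag.LU3.Hjet

/-! PROJECT LU3, SWAP, part 1: polynomial representatives and the chart-free core. -/

namespace Pool.Agent.MP_19ffc6_ag.LU3

open Polynomial IntermediateField Pool.Agent.MP_19ffc6_ag.LU Hr

namespace Sw

open MvPolynomial (idealOfVars)

variable {k Ω : Type*} [Field k] [NontriviallyNormedField Ω] [Algebra k Ω] {ι : Type*}

variable (k) in
/-- Zero, or a monomial with natural exponents times a unit. -/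
def NG (ξ : ι → Ω) (e : Ω) : Prop := e = 0 ∨ ∃ α : ι →₀ ℕ, ∃ w ∈ H k ξ, ‖w‖ = 1 ∧
  e = MvPolynomial.aeval ξ (MvPolynomial.monomial α (1 : k)) * w

/-- The polynomial `f` represents `e`. -/
structure Rep (ξ : ι → Ω) (N : ℕ) (e : Ω) (f : MvPolynomial ι k) : Prop where
  mem : e ∈ H k ξ
  app : e - MvPolynomial.aeval ξ f ∈ mm k ξ ^ N
  nrm : ∀ ξ' : ι → Ω, (∀ i, ‖ξ' i‖ = ‖ξ i‖) → ‖MvPolynomial.aeval ξ' f‖ = ‖e‖

variable (k) in
/-- Evaluation of a polynomial over `k[X]`. -/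
noncomputable def evp (ξ : ι → Ω) (y : Ω) : Polynomial (MvPolynomial ι k) →+* Ω :=
  eval₂RingHom (evr k ξ) y

theorem evp_eq (ξ : ι → Ω) (y : Ω) (P : Polynomial (MvPolynomial ι k)) :
    evp k ξ y P = (P.map (evr k ξ)).eval y := (eval_map _ _).symm

theorem evp_comp (ξ : ι → Ω) (y : Ω) (P Q : Polynomial (MvPolynomial ι k)) :
    evp k ξ y (P.comp Q) = (P.map (evr k ξ)).eval (evp k ξ y Q) := by
  rw [evp_eq, evp_eq, map_comp, eval_comp]

section ev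

variable [DecidableEq ι]

variable (k) in
/-- A polynomial in the coordinates as a polynomial in the coordinate `i0`. -/
noncomputable def ev (ξ : ι → Ω) (i0 : ι) : MvPolynomial ι k →ₐ[k] Polynomial Ω :=
  MvPolynomial.aeval (Function.update (fun i => C (ξ i)) i0 X)

theorem eval_ev (ξ : ι → Ω) (i0 : ι) (f : MvPolynomial ι k) (T : Ω) :
    (ev k ξ i0 f).eval T = MvPolynomial.aeval (Function.update ξ i0 T) f := by
  induction f using MvPolynomial.induction_on with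
  | C c => simp [ev]
  | add f g hf hg => simp only [map_add, eval_add, hf, hg]
  | mul_X f i hf =>
    rw [map_mul, eval_mul, hf, map_mul]
    congr 1
    by_cases h : i = i0
    · subst h; simp [ev]
    · simp [ev, h]

theorem derivative_ev (ξ : ι → Ω) (i0 : ι) (f : MvPolynomial ι k) :
    (ev k ξ i0 f).derivative = ev k ξ i0 (MvPolynomial.pderiv i0 f) := by
  induction f using MvPolynomial.induction_on with
  | C c => simp [ev]
  | add f g hf hg => simp only [map_add, hf, hg]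
  | mul_X f i hf =>
    rw [map_mul, derivative_mul, hf, MvPolynomial.pderiv_mul, map_add, map_mul, map_mul]
    congr 2
    by_cases h : i = i0
    · subst h; simp [ev]
    · simp [ev, h, MvPolynomial.pderiv_X_of_ne h]

theorem ev_mem {K : IntermediateField k Ω} {ξ : ι → Ω} {i0 : ι} (h : ∀ i, i ≠ i0 → ξ i ∈ K)
    (f : MvPolynomial ι k) : ev k ξ i0 f ∈ cf K.toSubalgebra.toSubring := by
  induction f using MvPolynomial.induction_on with
  | C c => simpa [ev] using C_mem_cf (K.algebraMap_mem c)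
  | add f g hf hg => rw [map_add]; exact add_mem hf hg
  | mul_X f i hf =>
    rw [map_mul]
    refine mul_mem hf ?_
    by_cases hi : i = i0
    · subst hi; exact ⟨X, by simp [ev]⟩
    · simpa [ev, hi] using C_mem_cf (h i hi)

variable (k) in
/-- The substitution `y = z + c`, as a polynomial in the coordinate `i0`. -/
noncomputable def hat (ξ : ι → Ω) (i0 : ι) (z : Ω) (c : MvPolynomial ι k) :
    Polynomial (MvPolynomial ι k) →+* Polynomial Ω :=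
  eval₂RingHom (ev k ξ i0).toRingHom (C z + ev k ξ i0 c)

theorem eval_hat (ξ : ι → Ω) (i0 : ι) (z : Ω) (c : MvPolynomial ι k)
    (P : Polynomial (MvPolynomial ι k)) (T : Ω) :
    (hat k ξ i0 z c P).eval T = evp k (Function.update ξ i0 T)
      (z + MvPolynomial.aeval (Function.update ξ i0 T) c) P := by
  induction P using Polynomial.induction_on' with
  | add P Q hP hQ => simp only [map_add, eval_add, hP, hQ]
  | monomial n a => simp [hat, evp, eval_ev, evr_apply]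

theorem hat_mem {K : IntermediateField k Ω} {ξ : ι → Ω} {i0 : ι} (h : ∀ i, i ≠ i0 → ξ i ∈ K)
    {z : Ω} (hz : z ∈ K) (c : MvPolynomial ι k) (P : Polynomial (MvPolynomial ι k)) :
    hat k ξ i0 z c P ∈ cf K.toSubalgebra.toSubring := by
  induction P using Polynomial.induction_on' with
  | add P Q hP hQ => rw [map_add]; exact add_mem hP hQ
  | monomial n a =>
    rw [hat, coe_eval₂RingHom, eval₂_monomial]
    exact mul_mem (ev_mem h a) (pow_mem (add_mem (C_mem_cf hz) (ev_mem h c)) n)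

end ev

variable {ξ : ι → Ω} {N : ℕ}

theorem NG.mem {e : Ω} (h : NG k ξ e) : e ∈ H k ξ := by
  rcases h with rfl | ⟨α, w, hw, -, rfl⟩
  · exact zero_mem _
  · exact mul_mem (aeval_mem_H ξ _) hw

theorem div_mem_of_pow {T : Subalgebra k Ω} (hT : H k ξ ≤ T) {b : Ω}
    (h : ∀ J : Fin N → ι, (∏ t, ξ (J t)) / b ∈ T) {x : Ω} (hx : x ∈ mm k ξ ^ N) : x / b ∈ T := by
  rw [mm, Submodule.span_pow] at hx
  induction hx using Submodule.span_induction with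
  | mem x hx =>
    obtain ⟨f, rfl⟩ := Set.mem_pow.1 hx
    choose J hJ using fun t => (f t).2
    simpa only [List.prod_ofFn, hJ] using h J
  | zero => simp
  | add x y _ _ hx hy => rw [add_div]; exact add_mem hx hy
  | smul a x _ hx =>
    change (a : Ω) * x / b ∈ T
    rw [mul_div_assoc]
    exact mul_mem (hT a.2) hx

variable [IsUltrametricDist Ω]

theorem norm_eval_lead {G P : Polynomial Ω} (h : ∀ i, ‖P.coeff i‖ = ‖G.coeff i‖) (hG : G.Monic)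
    {r : ℝ} (hr : 0 < r) (h1 : ∀ i < G.natDegree, ‖G.coeff i‖ < r ^ (G.natDegree - i)) {w : Ω}
    (hw : r ≤ ‖w‖) : ‖P.eval w‖ = ‖w‖ ^ G.natDegree := by
  have h0 : 0 < ‖w‖ := hr.trans_le hw
  have hd : P.natDegree < G.natDegree + 1 := Nat.lt_succ_of_le (natDegree_le_iff_coeff_eq_zero.2
    fun i hi => by rw [← norm_eq_zero, h, coeff_eq_zero_of_natDegree_lt hi, norm_zero])
  have h2 : ‖P.coeff G.natDegree * w ^ G.natDegree‖ = ‖w‖ ^ G.natDegree := by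
    rw [norm_mul, h, hG.coeff_natDegree, norm_one, one_mul, norm_pow]
  rw [eval_eq_sum_range' hd, Finset.sum_range_succ, add_comm, norm_add_eq_left, h2]
  rw [h2]
  refine norm_sum_lt_of (pow_pos h0 _) fun i hi => ?_
  rw [Finset.mem_range] at hi
  rw [norm_mul, norm_pow, h]
  calc _ < r ^ (G.natDegree - i) * ‖w‖ ^ i := mul_lt_mul_of_pos_right (h1 i hi) (pow_pos h0 _)
    _ ≤ ‖w‖ ^ (G.natDegree - i) * ‖w‖ ^ i := by gcongr
    _ = _ := by rw [← pow_add, Nat.sub_add_cancel hi.le]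

theorem norm_eval_const {G P : Polynomial Ω} (h : ∀ i, ‖P.coeff i‖ = ‖G.coeff i‖)
    (h0 : G.coeff 0 ≠ 0) {r : ℝ} (h1 : ∀ i, ‖G.coeff i‖ * r ^ i ≤ ‖G.coeff 0‖) {w : Ω}
    (hw : ‖w‖ < r) : ‖P.eval w‖ = ‖G.coeff 0‖ := by
  rw [eval_eq_sum_range, Finset.sum_range_succ', pow_zero, mul_one, add_comm, norm_add_eq_left, h]
  rw [h]
  refine norm_sum_lt_of (norm_pos_iff.2 h0) fun i _ => ?_
  rw [norm_mul, norm_pow, h]
  rcases (norm_nonneg (G.coeff (i + 1))).eq_or_lt with h2 | h2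
  · rw [← h2, zero_mul]; exact norm_pos_iff.2 h0
  · exact (mul_lt_mul_of_pos_left (pow_lt_pow_left₀ hw (norm_nonneg _) i.succ_ne_zero) h2).trans_le
      (h1 _)

theorem norm_eval_le {P : Polynomial Ω} {r : ℝ} (hr : 0 ≤ r) (h : ∀ i, ‖P.coeff i‖ ≤ r) {y : Ω}
    (hy : ‖y‖ ≤ 1) : ‖P.eval y‖ ≤ r := by
  rw [eval_eq_sum_range]
  refine norm_sum_le_of hr fun i _ => ?_
  rw [norm_mul, norm_pow]
  exact (mul_le_of_le_one_right (norm_nonneg _) (pow_le_one₀ (norm_nonneg _) hy)).trans (h i)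

variable [Ctx k Ω]

theorem exists_rep (hs : ∀ i, ‖ξ i‖ < 1) (N : ℕ) {e : Ω} (h : NG k ξ e) :
    ∃ f : MvPolynomial ι k, Rep ξ N e f := by
  have hm := h.mem
  rcases h with rfl | ⟨α, w, hw, h1, rfl⟩
  · exact ⟨0, hm, by simp, by simp⟩
  obtain ⟨u, hu⟩ := jet1 hs (N + 1) hw
  refine ⟨MvPolynomial.monomial α 1 * u, hm, ?_, fun ξ' h' => ?_⟩
  · rw [map_mul, ← mul_sub]
    exact mul_mem_sub (aeval_mem_H ξ _) (pow_anti N.le_succ hu)
  · have hs' : ∀ i, ‖ξ' i‖ < 1 := fun i => h' i ▸ hs i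
    have h2 : ‖MvPolynomial.aeval ξ u‖ = 1 := by
      rw [← h1]
      refine norm_eq_of_norm_sub_lt (h1 ▸ norm_lt_of_mem_mm (k := k) hs ?_)
      simpa using pow_anti (Nat.le_add_left 1 N) hu
    have h3 : ‖MvPolynomial.aeval ξ' u‖ = 1 :=
      (norm_H (fun i => (hs' i).le) (aeval_mem_H ξ' u)).antisymm (not_lt.1 fun h4 =>
        ((mem_vars_iff hs).1 ((mem_vars_iff hs').2 h4)).ne h2)
    rw [map_mul, norm_mul, norm_mul, h3, h1]
    simp [MvPolynomial.aeval_monomial, Finsupp.prod, h']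

theorem exists_prep (hs : ∀ i, ‖ξ i‖ < 1) (N : ℕ) {P : Polynomial Ω}
    (h : ∀ i, NG k ξ (P.coeff i)) :
    ∃ Q : Polynomial (MvPolynomial ι k), ∀ i, Rep ξ N (P.coeff i) (Q.coeff i) := by
  classical
  choose f hf using fun i => exists_rep hs N (h i)
  refine ⟨∑ i ∈ P.support, monomial i (f i), fun i => ?_⟩
  simp only [finsetSum_coeff, coeff_monomial, Finset.sum_ite_eq']
  split_ifs with h1
  · exact hf i
  · rw [notMem_support_iff.1 h1]
    exact ⟨zero_mem _, by simp, by simp⟩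

theorem norm_evp_le {ρ : ℝ} (h0 : 0 ≤ ρ) (h1 : ρ ≤ 1) (hs : ∀ i, ‖ξ i‖ ≤ ρ) {y : Ω} (hy : ‖y‖ ≤ 1)
    {D : Polynomial (MvPolynomial ι k)} (hD : ∀ i, D.coeff i ∈ idealOfVars ι k ^ N) :
    ‖evp k ξ y D‖ ≤ ρ ^ N := by
  rw [evp_eq]
  refine norm_eval_le (pow_nonneg h0 _) (fun i => ?_) hy
  rw [coeff_map]
  exact norm_le_pow h0 h1 hs (aeval_mem_pow (hD i))

variable [IsAlgClosed Ω] [Infinite k] (hi : AlgebraicIndependent k ξ) (hs : ∀ i, ‖ξ i‖ < 1)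

/-- The polynomial `Q` over `k[X]` is a jet of the polynomial `P`. -/
def Ap (N : ℕ) (P : Polynomial Ω) (Q : Polynomial (MvPolynomial ι k)) : Prop :=
  ∃ S : Polynomial (H k ξ), S.map (algebraMap _ Ω) = P ∧
    S.map (jet hi hs N).toRingHom = Q.map (Ideal.Quotient.mk _)

variable {hi hs} {P P' : Polynomial Ω} {Q Q' : Polynomial (MvPolynomial ι k)}

theorem Ap.of_rep (h : ∀ i, Rep ξ N (P.coeff i) (Q.coeff i)) : Ap hi hs N P Q := by
  obtain ⟨S, rfl⟩ := Desc.exists_lift (H k ξ) P fun i => (h i).mem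
  refine ⟨S, rfl, Polynomial.ext fun i => ?_⟩
  rw [coeff_map, coeff_map]
  refine (jet_eq_iff hi hs N _ _).2 ?_
  have := (h i).app
  rwa [coeff_map] at this

theorem Ap.C {e : Ω} {f : MvPolynomial ι k} (h : Rep ξ N e f) : Ap hi hs N (C e) (C f) :=
  ⟨Polynomial.C ⟨e, h.mem⟩, by simp, by
    rw [map_C, map_C]; exact congrArg _ ((jet_eq_iff hi hs N _ _).2 h.app)⟩

theorem Ap.X : Ap hi hs N X X := ⟨Polynomial.X, by simp, by simp⟩

theorem Ap.add (h : Ap hi hs N P Q) (h' : Ap hi hs N P' Q') : Ap hi hs N (P + P') (Q + Q') := by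
  obtain ⟨S, rfl, h⟩ := h
  obtain ⟨S', rfl, h'⟩ := h'
  exact ⟨S + S', Polynomial.map_add _, by simp only [Polynomial.map_add, h, h']⟩

theorem Ap.sub (h : Ap hi hs N P Q) (h' : Ap hi hs N P' Q') : Ap hi hs N (P - P') (Q - Q') := by
  obtain ⟨S, rfl, h⟩ := h
  obtain ⟨S', rfl, h'⟩ := h'
  exact ⟨S - S', Polynomial.map_sub _, by simp only [Polynomial.map_sub, h, h']⟩

theorem Ap.mul (h : Ap hi hs N P Q) (h' : Ap hi hs N P' Q') : Ap hi hs N (P * P') (Q * Q') := by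
  obtain ⟨S, rfl, h⟩ := h
  obtain ⟨S', rfl, h'⟩ := h'
  exact ⟨S * S', Polynomial.map_mul _, by simp only [Polynomial.map_mul, h, h']⟩

theorem Ap.pow (h : Ap hi hs N P Q) (n : ℕ) : Ap hi hs N (P ^ n) (Q ^ n) := by
  obtain ⟨S, rfl, h⟩ := h
  exact ⟨S ^ n, Polynomial.map_pow _ _, by simp only [Polynomial.map_pow, h]⟩

theorem Ap.comp (h : Ap hi hs N P Q) (h' : Ap hi hs N P' Q') :
    Ap hi hs N (P.comp P') (Q.comp Q') := by
  obtain ⟨S, rfl, h⟩ := h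
  obtain ⟨S', rfl, h'⟩ := h'
  exact ⟨S.comp S', map_comp _ _ _, by simp only [map_comp, h, h']⟩

theorem Ap.uniq (h : Ap hi hs N P Q) (h' : Ap hi hs N P Q') (i : ℕ) :
    (Q - Q').coeff i ∈ idealOfVars ι k ^ N := by
  obtain ⟨S, h1, h⟩ := h
  obtain ⟨S', h1', h'⟩ := h'
  obtain rfl : S = S' := Polynomial.map_injective _ Subtype.val_injective (h1.trans h1'.symm)
  have := congrArg (fun q => q.coeff i) (h.symm.trans h')
  simp only [coeff_map] at this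
  rw [coeff_sub]
  exact Ideal.Quotient.eq.1 this

variable (k Ω) in
/-- The analytic heart of SWAP. -/
def AnnStmt : Prop :=
  ∀ (K1 : IntermediateField k Ω) (E Ph : Polynomial Ω) (zz y1 : Ω) (sg A rb r1 r2 rP : ℝ)
    (j q : ℕ), (∀ i, E.coeff i ∈ K1) → (∀ i, Ph.coeff i ∈ K1) → zz ∈ K1 →
    (∀ T, ‖T - y1‖ < sg → ‖E.eval T‖ = rb) → ‖E.derivative.eval y1‖ * sg = A → 0 < r1 →
    r1 < r2 → r2 < A → r2 * rb < A ^ 2 → ‖zz - E.eval y1‖ < r1 →
    (∀ T, ‖T - y1‖ < sg → r1 ≤ ‖zz - E.eval T‖ → ‖Ph.eval T‖ ^ j = ‖zz - E.eval T‖ ^ q) →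
    ‖Ph.eval y1‖ < rP → 0 < q → 2 ≤ j →
    ∃ (th a : Ω) (R : ℝ), E.eval th = zz ∧ ‖th - y1‖ < sg ∧ th ∈ hens (K1 ⊔ adjoin k {y1}) ∧
      ‖a - y1‖ < R ∧ R ≤ sg ∧ Ph ≠ 0 ∧ Ph.eval a = 0 ∧
      (minpoly (hens (K1 ⊔ adjoin k {th})) a).natDegree < q ∧
      ∀ T, ‖T - y1‖ < R → ‖Ph.eval T‖ < rP ∧ E.derivative.eval T ≠ 0 ∧
        ∀ l, 2 ≤ l → ‖(hasseDeriv l E).eval T‖ * ‖th - T‖ ^ (l - 1) < ‖E.derivative.eval T‖

omit [IsUltrametricDist Ω] [Ctx k Ω] [IsAlgClosed Ω] [Infinite k] in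
theorem eval_eq_evp (h : ∀ i, Rep ξ N (P.coeff i) (Q.coeff i)) (y : Ω) :
    ∃ d : Polynomial Ω, (∀ i, d.coeff i ∈ mm k ξ ^ N) ∧ P.eval y = evp k ξ y Q + d.eval y :=
  ⟨P - Q.map (evr k ξ), fun i => by rw [coeff_sub, coeff_map]; exact (h i).app,
    by rw [evp_eq, eval_sub, add_sub_cancel]⟩

/-- The chart-free part of SWAP. -/
theorem core (hA : AnnStmt k Ω) [Fintype ι] [DecidableEq ι] (p : ℕ) [Fact p.Prime] [CharP k p]
    [CharP Ω p] {s : ℕ} (hs0 : 0 < s) (hi : AlgebraicIndependent k ξ) (hs : ∀ i, ‖ξ i‖ < 1)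
    {y c e : Ω} (hy : ‖y‖ ≤ 1) (hc : NG k ξ c) (he : NG k ξ e) {rr r1 r2 rP : ℝ}
    {Φ G : Polynomial Ω} (hΦ : ∀ i, NG k ξ (Φ.coeff i)) (hG : ∀ i, NG k ξ (G.coeff i))
    (Gm : G.Monic) (Gd : 0 < G.natDegree)
    (hid : Φ ^ p ^ s = G.comp (X ^ p ^ s - C (c ^ p ^ s + e)))
    (hw : ‖y ^ p ^ s - (c ^ p ^ s + e)‖ < r1) (h12 : r1 < r2) (h2r : r2 < rr)
    (hrb : r2 * ‖e‖ < rr ^ 2) (hGi : ∀ i < G.natDegree, ‖G.coeff i‖ < r1 ^ (G.natDegree - i))
    (hP : ‖Φ.eval y‖ < rP) (GG : Finset (Polynomial Ω))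
    (hg : ∀ g ∈ GG, (∀ i, NG k ξ (g.coeff i)) ∧ ∃ Ng gs : Polynomial Ω,
      (∀ i, NG k ξ (Ng.coeff i)) ∧ (∀ i, NG k ξ (gs.coeff i)) ∧ Ng.comp Φ = g * gs ∧
      Ng.coeff 0 ≠ 0 ∧ ∀ i, ‖Ng.coeff i‖ * rP ^ i ≤ ‖Ng.coeff 0‖)
    (hkn : ∀ f : MvPolynomial ι k, ‖c ^ p ^ s + e - MvPolynomial.aeval ξ f‖ < rr →
      ∃ i, rr ≤ ‖ξ i * MvPolynomial.aeval ξ (MvPolynomial.pderiv i f)‖) :
    ∃ (i0 : ι) (ct : MvPolynomial ι k) (N : ℕ), ∀ K1 : IntermediateField k Ω,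
      (∀ i, i ≠ i0 → ξ i ∈ K1) → y - MvPolynomial.aeval ξ ct ∈ K1 →
      ∃ (E : Polynomial Ω) (th a : Ω) (R : ℝ), (∀ i, E.coeff i ∈ K1) ∧
        E.eval th = (y - MvPolynomial.aeval ξ ct) ^ p ^ s ∧ ‖th‖ = ‖ξ i0‖ ∧
        th ∈ hens (K1 ⊔ adjoin k {ξ i0}) ∧ ‖a - ξ i0‖ < R ∧ R ≤ ‖ξ i0‖ ∧ IsAlgebraic K1 a ∧
        (minpoly (hens (K1 ⊔ adjoin k {th})) a).natDegree < G.natDegree ∧
        (∀ T, ‖T - ξ i0‖ < R → E.derivative.eval T ≠ 0 ∧ ∀ l, 2 ≤ l →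
          ‖(hasseDeriv l E).eval T‖ * ‖th - T‖ ^ (l - 1) < ‖E.derivative.eval T‖) ∧
        ∀ g ∈ GG, ∃ gh : Polynomial Ω, (∀ i, gh.coeff i ∈ K1) ∧
          (∀ T, ‖T - ξ i0‖ < R → gh.eval T ≠ 0) ∧
          (∀ x ∈ mm k ξ ^ N, ‖x‖ < ‖gh.eval (ξ i0)‖) ∧
          ∃ d : Polynomial Ω, (∀ i, d.coeff i ∈ mm k ξ ^ N) ∧
            g.eval y = gh.eval (ξ i0) + d.eval y := by
  have hp : p.Prime := Fact.out
  have hj : 2 ≤ p ^ s := (hp.two_le).trans (Nat.le_self_pow hs0.ne' p)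
  have hr1 : 0 < r1 := (norm_nonneg _).trans_lt hw
  have hrP : 0 < rP := (norm_nonneg _).trans_lt hP
  choose! Ng gs hNg hgs hNid hN0 hNi using fun g (h : g ∈ GG) => (hg g h).2
  obtain ⟨ρ, h0, h1, h2⟩ := exists_rho hs
  have ht := tendsto_pow_atTop_nhds_zero_of_lt_one h0 h1
  obtain ⟨N, n1, n2, n3, n4⟩ := ((ht.eventually (gt_mem_nhds hr1)).and
    ((ht.eventually (gt_mem_nhds (pow_pos hr1 G.natDegree))).and
    ((ht.eventually (gt_mem_nhds hrP)).and ((Filter.eventually_all_finset GG).2 fun g h =>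
      ht.eventually (gt_mem_nhds (norm_pos_iff.2 (hN0 g h))))))).exists
  have hsm : ∀ x ∈ mm k ξ ^ N, ‖x‖ ≤ ρ ^ N := fun x => norm_le_pow h0 h1.le h2
  have hH : ∀ x ∈ H k ξ, ‖x‖ ≤ 1 := fun x => norm_H fun i => (hs i).le
  obtain ⟨ct, hct⟩ := exists_rep hs N hc
  obtain ⟨et, het⟩ := exists_rep hs N he
  obtain ⟨Φt, hΦt⟩ := exists_prep hs N hΦ
  obtain ⟨Gt, hGt⟩ := exists_prep hs N hG
  have hψ : ‖c ^ p ^ s + e - MvPolynomial.aeval ξ (ct ^ p ^ s + et)‖ ≤ ρ ^ N := by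
    rw [map_add, map_pow, add_sub_add_comm, ← sub_pow_char_pow]
    refine norm_add_le_of ?_ (hsm _ het.app)
    rw [norm_pow]
    exact (pow_le_of_le_one (norm_nonneg _) (hH _ (mem_H_of_mem_pow hct.app)) (by omega)).trans
      (hsm _ hct.app)
  obtain ⟨i0, hi0⟩ := hkn _ (hψ.trans_lt (n1.trans (h12.trans h2r)))
  have hd : MvPolynomial.pderiv i0 (ct ^ p ^ s + et) = MvPolynomial.pderiv i0 et := by
    rw [map_add, MvPolynomial.pderiv_pow, Nat.cast_pow, CharP.cast_eq_zero, zero_pow hs0.ne',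
      zero_mul, zero_mul, zero_add]
  rw [hd] at hi0
  refine ⟨i0, ct, N, fun K1 hK hz => ?_⟩
  set z := y - MvPolynomial.aeval ξ ct with hzdef
  have hz1 : ‖z‖ ≤ 1 := norm_sub_le_of hy (hH _ (aeval_mem_H ξ ct))
  have hreg : ∀ T, ‖T - ξ i0‖ < ‖ξ i0‖ → ∀ i, ‖Function.update ξ i0 T i‖ = ‖ξ i‖ := by
    intro T hT i
    by_cases h : i = i0
    · subst h
      rw [Function.update_self]
      exact norm_eq_of_norm_sub_lt (by rwa [norm_sub_rev])
    · rw [Function.update_of_ne h]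
  have hy' : ∀ T, ‖T - ξ i0‖ < ‖ξ i0‖ →
      ‖z + MvPolynomial.aeval (Function.update ξ i0 T) ct‖ ≤ 1 := fun T hT =>
    norm_add_le_of hz1 ((hct.nrm _ (hreg T hT)).trans_le (hH _ hct.mem))
  have hsmall : ∀ T, ‖T - ξ i0‖ < ‖ξ i0‖ → ∀ (P : Polynomial Ω) Q Q', Ap hi hs N P Q →
      Ap hi hs N P Q' → ‖(hat k ξ i0 z ct Q).eval T - (hat k ξ i0 z ct Q').eval T‖ ≤ ρ ^ N := by
    intro T hT P Q Q' h h'
    rw [← eval_sub, ← map_sub, eval_hat]
    exact norm_evp_le h0 h1.le (fun i => (hreg T hT i).trans_le (h2 i)) (hy' T hT) (h.uniq h')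
  have hco : ∀ T, ‖T - ξ i0‖ < ‖ξ i0‖ → ∀ (P : Polynomial Ω) (Q : Polynomial (MvPolynomial ι k)),
      (∀ i, Rep ξ N (P.coeff i) (Q.coeff i)) →
      ∀ i, ‖(Q.map (evr k (Function.update ξ i0 T))).coeff i‖ = ‖P.coeff i‖ :=
    fun T hT P Q h i => by rw [coeff_map]; exact (h i).nrm _ (hreg T hT)
  have hat1 : ∀ Q, (hat k ξ i0 z ct Q).eval (ξ i0) = evp k ξ y Q := fun Q => by
    rw [eval_hat, Function.update_eq_self, hzdef, sub_add_cancel]
  have hwT : ∀ T, evp k (Function.update ξ i0 T)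
      (z + MvPolynomial.aeval (Function.update ξ i0 T) ct) (X ^ p ^ s - C (ct ^ p ^ s + et)) =
      z ^ p ^ s - (ev k ξ i0 et).eval T := fun T => by
    rw [evp, coe_eval₂RingHom, eval₂_sub, eval₂_X_pow, eval₂_C, evr_apply, map_add, map_pow,
      add_pow_char_pow, eval_ev]
    ring
  have hAp : Ap hi hs N (Φ ^ p ^ s) (Gt.comp (X ^ p ^ s - C (ct ^ p ^ s + et))) := by
    rw [hid, C_add, C_add, C_pow, C_pow]
    exact (Ap.of_rep hGt).comp ((Ap.X.pow _).sub (((Ap.C hct).pow _).add (Ap.C het)))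
  have hA0 : rr ≤ ‖(ev k ξ i0 et).derivative.eval (ξ i0)‖ * ‖ξ i0‖ := by
    rwa [derivative_ev, eval_ev, Function.update_eq_self, mul_comm, ← norm_mul]
  obtain ⟨th, a, R, a1, a2, a3, a4, a5, a6, a7, a8, a9⟩ := hA K1 (ev k ξ i0 et)
    (hat k ξ i0 z ct Φt) (z ^ p ^ s) (ξ i0) ‖ξ i0‖ _ ‖e‖ r1 r2 rP (p ^ s) G.natDegree
    (mem_cf.1 (ev_mem hK et)) (mem_cf.1 (hat_mem hK hz ct Φt)) (pow_mem hz _)
    (fun T hT => by rw [eval_ev]; exact het.nrm _ (hreg T hT)) rfl hr1 h12 (h2r.trans_le hA0)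
    (hrb.trans_le (pow_le_pow_left₀ (hr1.trans (h12.trans h2r)).le hA0 2))
    (by
      rw [← hwT, ← eval_hat, hat1]
      simp only [evp, coe_eval₂RingHom, eval₂_sub, eval₂_X_pow, eval₂_C, evr_apply]
      rw [← sub_add_sub_cancel _ (c ^ p ^ s + e)]
      exact norm_add_lt_of hw (hψ.trans_lt n1))
    (fun T hT hr => by
      have h3 := hsmall T hT _ _ _ hAp ((Ap.of_rep hΦt).pow _)
      rw [map_pow, eval_pow, eval_hat, evp_comp, hwT] at h3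
      have h4 := norm_eval_lead (hco T hT G Gt hGt) Gm hr1 hGi hr
      rw [← norm_pow, ← h4]
      refine norm_eq_of_norm_sub_lt (h3.trans_lt (n2.trans_le ?_))
      rw [h4]
      exact pow_le_pow_left₀ hr1.le hr _)
    (by
      obtain ⟨d, hd, h3⟩ := eval_eq_evp hΦt y
      rw [hat1, ← sub_eq_iff_eq_add.2 h3]
      exact norm_sub_lt_of hP
        ((norm_eval_le (pow_nonneg h0 _) (fun i => hsm _ (hd i)) hy).trans_lt n3))
    Gd hj
  refine ⟨ev k ξ i0 et, th, a, R, mem_cf.1 (ev_mem hK et), a1,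
    norm_eq_of_norm_sub_lt (by rwa [norm_sub_rev]), a3, a4, a5, ?_, a8,
    fun T hT => (a9 T hT).2, fun g hgG => ?_⟩
  · obtain ⟨Q, hQ⟩ := (mem_lifts _).1 ((lifts_iff_coeff_lifts (f := algebraMap K1 Ω)
      (hat k ξ i0 z ct Φt)).2 fun n => ⟨⟨_, mem_cf.1 (hat_mem hK hz ct Φt) n⟩, rfl⟩)
    refine ⟨Q, fun h => a6 (by rw [← hQ, h, Polynomial.map_zero]), ?_⟩
    rw [← eval_map_algebraMap, hQ, a7]
  obtain ⟨gt, hgt⟩ := exists_prep hs N (hg g hgG).1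
  obtain ⟨Nt, hNt⟩ := exists_prep hs N (hNg g hgG)
  obtain ⟨gst, hgst⟩ := exists_prep hs N (hgs g hgG)
  have key : ∀ T, ‖T - ξ i0‖ < R → ρ ^ N < ‖(hat k ξ i0 z ct gt).eval T‖ := fun T hT => by
    have hT' := hT.trans_le a5
    have h3 := hsmall T hT' _ _ _ ((Ap.of_rep hNt).comp (Ap.of_rep hΦt))
      (hNid g hgG ▸ (Ap.of_rep hgt).mul (Ap.of_rep hgst))
    rw [eval_hat, evp_comp, ← eval_hat, map_mul, eval_mul] at h3
    have h4 := norm_eval_const (hco T hT' _ Nt hNt) (hN0 g hgG) (hNi g hgG) (a9 T hT).1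
    have h5 := norm_eq_of_norm_sub_lt (h3.trans_lt (h4 ▸ n4 g hgG))
    have h6 : ‖(hat k ξ i0 z ct gst).eval T‖ ≤ 1 := by
      rw [eval_hat, evp_eq]
      exact norm_eval_le zero_le_one
        (fun i => (hco T hT' _ gst hgst i).trans_le (hH _ (hgst i).mem)) (hy' T hT')
    rw [h4, norm_mul] at h5
    exact (n4 g hgG).trans_le (h5 ▸ mul_le_of_le_one_right (norm_nonneg _) h6)
  refine ⟨hat k ξ i0 z ct gt, mem_cf.1 (hat_mem hK hz ct gt), fun T hT =>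
    norm_pos_iff.1 ((pow_nonneg h0 _).trans_lt (key T hT)), fun x hx => (hsm x hx).trans_lt
      (key _ (by simpa using (norm_nonneg _).trans_lt a4)), ?_⟩
  rw [hat1]
  exact eval_eq_evp hgt y

end Sw

end Pool.Agent.MP_19ffc6_ag.LU3
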