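import Pool.Agent.MP_19ffc6_ag.LU3.PDef
import Pool.Agent.MP_19ffc6_ag.LU3.SwapA
import Pool.Agent.MP_19ffc6_ag.LU3.Term
import Pool.Agent.MP_19ffc6_ag.LU.Perron

-- ======== part 0: formerly Pool.Agent.MP_19ffc6_ag.LU3.Swap
section MrgPart0

/-! PROJECT LU3, SWAP: exchange of the top variable, and the assembly of the induction. -/

namespace Pool.Agent.MP_19ffc6_ag.LU3

open Polynomial IntermediateField Pool.Agent.MP_19ffc6_ag.LU Mv Hr Pd Sw

universe u

variable {k : Type*} {Ω : Type u} [Field k] [NontriviallyNormedField Ω] [Algebra k Ω]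

variable (k Ω) in
/-- KN: a polynomial with small logarithmic derivatives is close to a `p`-th power. -/
def KnStmt (p : ℕ) : Prop :=
  ∀ F : IntermediateField k Ω, F.FG → SG k F → ∀ (ι : Type) [Fintype ι] (ξ : ι → Ω),
    (∀ i, ξ i ∈ hens F ∧ ξ i ≠ 0 ∧ ‖ξ i‖ ≤ 1) → ∀ (f : MvPolynomial ι k) (r : ℝ), 0 < r →
    (∀ i, ‖ξ i * MvPolynomial.aeval ξ (MvPolynomial.pderiv i f)‖ < r) →
    ∃ c ∈ hens F, ‖MvPolynomial.aeval ξ f - c ^ p‖ < r

namespace Swp

theorem ng_of_nt {ι : Type*} {ξ : ι → Ω} {I : Finset ι} {b : Ω} (h : Nt k ξ I b) : NG k ξ b := by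
  obtain ⟨a, w, hw, h1, rfl⟩ := h
  refine Or.inr ⟨∑ i : I, Finsupp.single (i : ι) (a i), w, hw, h1, ?_⟩
  rw [MvPolynomial.monomial_sum_one, map_prod]
  simp only [← MvPolynomial.X_pow_eq_monomial, map_pow, MvPolynomial.aeval_X]

theorem nu_mem_span {ι : Type*} {ξ : ι → Ω} {I : Finset ι} (h : IsChart k ξ I) {b : Ω}
    (hb : Gd k ξ I b) : nu b ∈ Submodule.span ℚ (Set.range fun i => nu (ξ i)) := by
  obtain ⟨a, w, -, h1, rfl⟩ := hb
  have h0 : ∀ i : I, ξ i ≠ 0 := fun i => h.ne _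
  have h2 := ne_zero_of_norm_eq_one h1
  rw [nu_mul (LatM.mon_ne h0 a) h2, (nu_eq_zero_iff h2).2 h1, add_zero, LatM.nu_mon h0]
  exact Submodule.sum_mem _ fun i _ => int_mul_mem _ (Submodule.subset_span ⟨i, rfl⟩)

variable [IsUltrametricDist Ω] [Ctx k Ω] [IsAlgClosed Ω] [Infinite k]

/-- A chart of the base in which given polynomials have normal crossing coefficients and whose
values span all values. -/
theorem base_chart {n : ℕ} (ih : IH k Ω n) {F : IntermediateField k Ω} {y : Ω} {Z : Finset Ω}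
    (h : Dat n F y Z) (S : Finset (Polynomial Ω)) (hS : ∀ g ∈ S, ∀ i, g.coeff i ∈ F) :
    ∃ (ι : Type) (_ : Fintype ι) (ξ : ι → Ω) (I : Finset ι), IsChart k ξ I ∧
      (∀ i, ξ i ∈ hens F) ∧ Sp k ξ I Z ∧
      (∀ α ∈ qv F, α ∈ Submodule.span ℚ (Set.range fun i => nu (ξ i))) ∧
      ∀ g ∈ S, ∀ i, (g.coeff i ≠ 0 → Gd k ξ I (g.coeff i)) ∧
        (‖g.coeff i‖ ≤ 1 → NG k ξ (g.coeff i)) := by
  classical
  obtain ⟨B, hB, hB'⟩ := exists_finset_qv (F := F) (h.dim.trans_lt (Cardinal.natCast_lt_aleph0))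
  obtain ⟨ι, _, ξ, I, h1, h2, h3, h4⟩ := (ih F h.fg h.dim).ref Z (B ∪ S.biUnion coeffs) h.gen (by
    intro w hw
    rcases Finset.mem_union.1 hw with hw | hw
    · exact hB w hw
    · obtain ⟨g, hg, hw⟩ := Finset.mem_biUnion.1 hw
      obtain ⟨i, hi, rfl⟩ := mem_coeffs_iff.1 hw
      exact ⟨hS g hg i, mem_support_iff.1 hi⟩)
  have h5 : ∀ g ∈ S, ∀ i, g.coeff i ≠ 0 → g.coeff i ∈ B ∪ S.biUnion coeffs := fun g hg i hi =>
    Finset.mem_union_right _ (Finset.mem_biUnion.2 ⟨g, hg, coeff_mem_coeffs hi⟩)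
  refine ⟨ι, inferInstance, ξ, I, h1, h2, h4, fun α hα => ?_, fun g hg i =>
    ⟨fun hi => (h3 _ (h5 g hg i hi)).1, fun hi => ?_⟩⟩
  · obtain ⟨d, hd, h6⟩ := hB' α hα
    refine mem_of_mul_mem (d := d) (by omega) ?_
    rw [Int.cast_natCast]
    refine (AddSubgroup.closure_le (Submodule.span ℚ
      (Set.range fun i => nu (ξ i))).toAddSubgroup).2 ?_ h6
    rintro _ ⟨b, hb, rfl⟩
    exact nu_mem_span h1 (h3 b (Finset.mem_union_left _ hb)).1
  · by_cases h0 : g.coeff i = 0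
    · exact Or.inl h0
    · exact ng_of_nt ((h3 _ (h5 g hg i h0)).2.1 hi)

/-- Going back from the new top variable. -/
theorem back [DecidableEq Ω] {F : IntermediateField k Ω} {y : Ω} {Z : Finset Ω} (hy : ‖y‖ ≤ 1)
    {ι : Type} [Fintype ι] [DecidableEq ι] {ξ : ι → Ω} {I : Finset ι} (hc : IsChart k ξ I)
    (hξ : ∀ i, ξ i ∈ hens F) (hsp : Sp k ξ I Z) (i0 : ι) (ct : MvPolynomial ι k) {N : ℕ} {R : ℝ}
    (hR : R ≤ ‖ξ i0‖) (hz : y - MvPolynomial.aeval ξ ct ≠ 0)
    (hP : PD (adjoin k (Set.range (Function.update ξ i0 (y - MvPolynomial.aeval ξ ct)))) (ξ i0) R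
      (Finset.univ.image (Function.update ξ i0 (y - MvPolynomial.aeval ξ ct))))
    (GG : Finset (Polynomial Ω)) (gh d : Polynomial Ω → Polynomial Ω)
    (h1 : ∀ g ∈ GG, NoRoot (adjoin k (Set.range (Function.update ξ i0
      (y - MvPolynomial.aeval ξ ct)))) (ξ i0) R (gh g))
    (h2 : ∀ g ∈ GG, ∀ x ∈ mm k ξ ^ N, ‖x‖ < ‖(gh g).eval (ξ i0)‖)
    (h3 : ∀ g ∈ GG, ∀ i, (d g).coeff i ∈ mm k ξ ^ N)
    (h4 : ∀ g ∈ GG, g.eval y = (gh g).eval (ξ i0) + (d g).eval y) :
    ∃ (ι' : Type) (_ : Fintype ι') (ξ' : ι' → Ω) (I' : Finset ι'), IsChart k ξ' I' ∧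
      LeX k ξ I ξ' I' ∧ (∀ i, ξ' i ∈ hens (F ⊔ adjoin k {y})) ∧
      (∀ g ∈ GG, Gd k ξ' I' (g.eval y)) ∧ Sp k ξ' I' (insert y (Z : Set Ω)) := by
  classical
  set z := y - MvPolynomial.aeval ξ ct with hzd
  set ζ := Function.update ξ i0 z with hζ
  have hζ0 : ∀ i, ζ i ≠ 0 := fun i => by
    by_cases h : i = i0
    · rwa [h, hζ, Function.update_self]
    · rw [hζ, Function.update_of_ne h]
      exact hc.ne i
  obtain ⟨ι', _, ξ1, I', a1, a2, a3, a4⟩ := hP
    (insert X (GG.image gh ∪ Finset.univ.image fun i => C (ζ i))) (by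
      intro g hg
      rcases Finset.mem_insert.1 hg with rfl | hg
      · refine ⟨fun i => ?_, fun T hT => ?_⟩
        · rw [coeff_X]
          split_ifs
          exacts [one_mem _, zero_mem _]
        · rintro h
          rw [eval_X] at h
          rw [h, zero_sub, norm_neg] at hT
          exact hR.not_gt hT
      rcases Finset.mem_union.1 hg with hg | hg
      · obtain ⟨g', hg', rfl⟩ := Finset.mem_image.1 hg
        exact h1 g' hg'
      · obtain ⟨i, -, rfl⟩ := Finset.mem_image.1 hg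
        refine ⟨fun j => ?_, fun T _ => by rw [eval_C]; exact hζ0 i⟩
        rw [coeff_C]
        split_ifs
        exacts [subset_adjoin _ _ ⟨i, rfl⟩, zero_mem _])
  have b1 : ∀ i, Gd k ξ1 I' (ζ i) := fun i => by
    have := a3 (C (ζ i)) (Finset.mem_insert_of_mem (Finset.mem_union_right _
      (Finset.mem_image_of_mem _ (Finset.mem_univ i))))
    rwa [eval_C] at this
  have b2 : ∀ i, Gd k ξ1 I' (ξ i) := fun i => by
    by_cases h : i = i0
    · have := a3 X (Finset.mem_insert_self _ _)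
      rwa [eval_X, ← h] at this
    · have := b1 i
      rwa [hζ, Function.update_of_ne h] at this
  have b3 : Gd k ξ1 I' z := by
    have := b1 i0
    rwa [hζ, Function.update_self] at this
  have b4 : ∀ g ∈ GG, Gd k ξ1 I' ((gh g).eval (ξ i0)) := fun g hg =>
    a3 _ (Finset.mem_insert_of_mem (Finset.mem_union_left _ (Finset.mem_image_of_mem _ hg)))
  have hJ : ∀ J : Fin N → ι, ∏ t, ξ (J t) ∈ mm k ξ ^ N := fun J => by
    rw [mm, Submodule.span_pow]
    exact Submodule.subset_span (Set.mem_pow.2 ⟨fun t => ⟨ξ (J t), J t, rfl⟩, List.prod_ofFn⟩)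
  obtain ⟨ξ2, c1, c2, c3, -, -, c4, c5⟩ := Mv.ref a1 (insert z (Finset.univ.image ξ ∪
      (GG ×ˢ (Finset.univ : Finset (Fin N → ι))).image fun x =>
        (∏ t, ξ (x.2 t)) / (gh x.1).eval (ξ i0))) (by
    intro b hb
    rcases Finset.mem_insert.1 hb with rfl | hb
    · exact ⟨b3, norm_sub_le_of hy (hc.norm_le (aeval_mem_H ξ ct))⟩
    rcases Finset.mem_union.1 hb with hb | hb
    · obtain ⟨i, -, rfl⟩ := Finset.mem_image.1 hb
      exact ⟨b2 i, (hc.small i).le⟩
    · obtain ⟨⟨g, J⟩, hx, rfl⟩ := Finset.mem_image.1 hb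
      have hg := (Finset.mem_product.1 hx).1
      refine ⟨(Gd.prod a1 fun t _ => b2 _).div a1 (b4 g hg), ?_⟩
      rw [norm_div]
      exact div_le_one_of_le₀ (h2 g hg _ (hJ J)).le (norm_nonneg _))
  have hle : LeX k ξ I ξ2 I' := ⟨fun i => (c5 _ (Finset.mem_insert_of_mem (Finset.mem_union_left _
    (Finset.mem_image_of_mem _ (Finset.mem_univ i))))).1, fun i _ => (b2 i).mono c1 c2⟩
  have hH : H k ξ ≤ H k ξ2 := HX_le c1 hle.1
  have hyH : y ∈ H k ξ2 := by
    rw [← sub_add_cancel y (MvPolynomial.aeval ξ ct)]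
    exact add_mem (c5 _ (Finset.mem_insert_self _ _)).1 (hH (aeval_mem_H ξ ct))
  refine ⟨ι', inferInstance, ξ2, I', c1, hle, fun i => ?_, fun g hg => ?_, fun C hC hZ => ?_⟩
  · have e1 : hens F ≤ hens (F ⊔ adjoin k {y}) := hens_mono le_sup_left
    have e2 : adjoin k (Set.range ζ) ⊔ adjoin k {ξ i0} ≤ hens (F ⊔ adjoin k {y}) := by
      refine sup_le (adjoin_le_iff.2 (Set.forall_mem_range.2 fun j => ?_))
        (simple_le (e1 (hξ i0)))
      by_cases h : j = i0
      · rw [h, hζ, Function.update_self]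
        exact sub_mem (le_hens _ (self_mem F y)) (e1 (Algebra.adjoin_le
          (S := (hens F).toSubalgebra) (Set.forall_mem_range.2 hξ) (aeval_mem_R ξ ct)))
      · rw [hζ, Function.update_of_ne h]
        exact e1 (hξ j)
    exact hens_le_hens e2 ((c4.trans_le (adjoin_le_iff.2 (Set.forall_mem_range.2 a2)))
      (subset_adjoin _ _ ⟨i, rfl⟩))
  · have e0 := (b4 g hg).ne a1
    have e1 : (d g).eval y / (gh g).eval (ξ i0) ∈ H k ξ2 := by
      rw [eval_eq_sum_range, Finset.sum_div]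
      refine sum_mem fun i _ => ?_
      rw [mul_div_right_comm]
      exact mul_mem (div_mem_of_pow hH (fun J => (c5 _ (Finset.mem_insert_of_mem
        (Finset.mem_union_right _ (Finset.mem_image_of_mem _ (Finset.mem_product.2
          (⟨hg, Finset.mem_univ J⟩ : (g, J).1 ∈ GG ∧ _)))))).1) (h3 g hg i)) (pow_mem hyH i)
    have e2 : ‖(d g).eval y / (gh g).eval (ξ i0)‖ < 1 := by
      rw [norm_div, div_lt_one (norm_pos_iff.2 e0)]
      exact Ann.norm_eval_lt fun i => (mul_le_of_le_one_right (norm_nonneg _)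
        (pow_le_one₀ (norm_nonneg _) hy)).trans_lt (h2 g hg _ (h3 g hg i))
    rw [h4 g hg, show (gh g).eval (ξ i0) + (d g).eval y =
      (gh g).eval (ξ i0) * (1 + (d g).eval y / (gh g).eval (ξ i0)) by field_simp]
    exact ((b4 g hg).mono c1 c2).mul c1 (Gd.unit (add_mem (one_mem _) e1)
      (by rw [norm_add_eq_left (by rwa [norm_one]), norm_one]))
  · have e1 : ∀ i, ξ i ∈ C := hsp C (hC.mono hc c1 hle) ((Set.subset_insert _ _).trans hZ)
    refine a4.gn a1 c1 c2 c3 C hC (Set.insert_subset (e1 i0) fun x hx => ?_)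
    obtain ⟨j, -, rfl⟩ := Finset.mem_image.1 hx
    by_cases h : j = i0
    · rw [h, hζ, Function.update_self]
      exact sub_mem (hZ (Set.mem_insert _ _))
        (Algebra.adjoin_le (Set.forall_mem_range.2 e1) (aeval_mem_R ξ ct))
    · rw [hζ, Function.update_of_ne h]
      exact e1 j

end Swp

variable [IsUltrametricDist Ω] [Ctx k Ω] [IsAlgClosed Ω] [Infinite k] [DecidableEq Ω]

open Swp in
/-- SWAP. -/
theorem swap (p : ℕ) [hp : Fact p.Prime] [CharP k p] {n q : ℕ} (kn : KnStmt k Ω p)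
    (ih : IH k Ω n) (adj : AdjStmt k Ω) (pq : PQ k Ω n q) : SwapStmt k Ω p n q := by
  classical
  have : CharP Ω p := charP_of_injective_algebraMap (algebraMap k Ω).injective p
  have : ExpChar Ω p := ExpChar.prime hp.out
  intro F y Z R a ψ s rr hD hs hψ hy ha hay hq hw hroot hc hinf GG hGG
  have hψ1 : ‖ψ‖ ≤ 1 := not_lt.1 fun h => by
    have h1 := hc 0 (zero_mem _)
    rw [zero_pow hp.out.ne_zero, sub_zero] at h1
    rw [norm_sub_rev, norm_sub_eq_left (lt_of_le_of_lt (by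
      rw [norm_pow]; exact pow_le_one₀ (norm_nonneg _) hy) h)] at hw
    exact h1.not_gt hw
  have hrr1 : rr ≤ 1 := by
    have h1 := hc 0 (zero_mem _)
    rw [zero_pow hp.out.ne_zero, sub_zero] at h1
    exact h1.trans hψ1
  -- scaling of `GG`
  obtain ⟨b, hb, hb0, hb1⟩ := Phi.exists_scale F.toSubfield (GG.biUnion coeffs) fun x hx => by
    obtain ⟨g, hg, hx⟩ := Finset.mem_biUnion.1 hx
    obtain ⟨i, -, rfl⟩ := mem_coeffs_iff.1 hx
    exact (hGG g hg).1 i
  have hG1 : ∀ g ∈ GG.image (C b * ·), (∀ i, g.coeff i ∈ F ∧ ‖g.coeff i‖ ≤ 1) ∧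
      ∀ T, ‖T - y‖ < R → g.eval T ≠ 0 := by
    intro g' hg'
    obtain ⟨g, hg, rfl⟩ := Finset.mem_image.1 hg'
    refine ⟨fun i => ?_, fun T hT => ?_⟩
    · rw [coeff_C_mul]
      refine ⟨F.mul_mem hb ((hGG g hg).1 i), ?_⟩
      by_cases h : g.coeff i = 0
      · simp [h]
      · exact hb1 _ (Finset.mem_biUnion.2 ⟨g, hg, coeff_mem_coeffs h⟩)
    · rw [eval_mul, eval_C]
      exact mul_ne_zero hb0 ((hGG g hg).2 T hT)
  have hai : IsIntegral (hens F) a := (isAlgebraic_of_le (le_hens F) ha).isIntegral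
  obtain ⟨Φ, G, r1, r2, rP, -, Gm, d1, d2, hΦ, hG, hid, w1, h12, h2r, hGi, hP, -, hN⟩ :=
    phi F p s hai hay hψ hw hroot _ (fun g hg i => ((hG1 g hg).1 i).1) fun g hg => (hG1 g hg).2
  choose! Ng gs n1 n2 n3 n4 n5 using hN
  have hr1 : 0 < r1 := (norm_nonneg _).trans_lt w1
  have hr2 : 0 < r2 := hr1.trans h12
  have hlt : rr < rr ^ 2 / r2 := by
    rw [lt_div_iff₀ hr2, pow_two]
    exact mul_lt_mul_of_pos_left h2r (hr2.trans h2r)
  obtain ⟨c, hcF, c1, c2⟩ : ∃ c ∈ F, ‖c‖ ≤ 1 ∧ ‖y - c‖ ^ p ^ s < rr ^ 2 / r2 := by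
    obtain ⟨c, hcF, h⟩ := hinf _ hlt
    by_cases h1 : ‖y - c‖ ≤ 1
    · refine ⟨c, hcF, ?_, h⟩
      rw [← sub_sub_cancel y c]
      exact norm_sub_le_of hy h1
    · refine ⟨0, F.zero_mem, by simp, lt_of_le_of_lt ?_ h⟩
      rw [sub_zero]
      exact pow_le_pow_left₀ (norm_nonneg _) (hy.trans (not_le.1 h1).le) _
  set e := ψ - c ^ p ^ s with he
  have hψe : c ^ p ^ s + e = ψ := add_sub_cancel _ _
  have e1 : ‖e‖ ≤ 1 :=
    norm_sub_le_of hψ1 (by rw [norm_pow]; exact pow_le_one₀ (norm_nonneg _) c1)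
  have e2 : r2 * ‖e‖ < rr ^ 2 := by
    rw [← lt_div_iff₀' hr2, show e = (y - c) ^ p ^ s - (y ^ p ^ s - ψ) by
      rw [sub_pow_expChar_pow, he]; ring]
    exact norm_sub_lt_of (by rwa [norm_pow]) (hw.trans hlt)
  have hG1' : ∀ i, ‖G.coeff i‖ ≤ 1 := fun i => by
    rcases lt_trichotomy i G.natDegree with h | rfl | h
    · exact (hGi i h).le.trans (pow_le_one₀ hr1.le ((h12.trans h2r).le.trans hrr1))
    · rw [Gm.coeff_natDegree, norm_one]
    · rw [coeff_eq_zero_of_natDegree_lt h, norm_zero]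
      exact zero_le_one
  have hC : ∀ x ∈ F, ∀ i, (C x).coeff i ∈ F := fun x hx i => by
    rw [coeff_C]
    split_ifs
    exacts [hx, F.zero_mem]
  set G1 := GG.image (C b * ·) with hG1d
  obtain ⟨ι, _, ξ, I, a1, a2, a3, a4, a5⟩ := base_chart ih hD
    ({C b, C c, C e, Φ, G} ∪ (G1 ∪ (G1.image Ng ∪ G1.image gs))) (by
      intro g hg
      simp only [Finset.mem_union, Finset.mem_insert, Finset.mem_singleton] at hg
      rcases hg with (rfl | rfl | rfl | rfl | rfl) | hg | hg | hg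
      · exact hC b hb
      · exact hC c hcF
      · exact hC e (F.sub_mem hψ (pow_mem hcF _))
      · exact fun i => (hΦ i).1
      · exact hG
      · exact fun i => ((hG1 g hg).1 i).1
      · obtain ⟨g', hg', rfl⟩ := Finset.mem_image.1 hg
        exact fun i => (n1 g' hg' i).1
      · obtain ⟨g', hg', rfl⟩ := Finset.mem_image.1 hg
        exact fun i => (n2 g' hg' i).1)
  have hq0 : 0 < G.natDegree := by
    rw [d2, d1]
    exact minpoly.natDegree_pos hai
  obtain ⟨i0, ct, N, hcore⟩ := Sw.core (fun K1 E Ph zz y1 sg A rb r1 r2 rP j q t1 t2 t3 t4 t5 _ =>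
      annulus t1 t2 t3 t4 t5) p hs a1.ind a1.small hy (c := c) (e := e)
    (by simpa using (a5 (C c) (by simp) 0).2 (by simpa using c1))
    (by simpa using (a5 (C e) (by simp) 0).2 (by simpa using e1))
    (fun i => (a5 Φ (by simp) i).2 (hΦ i).2) (fun i => (a5 G (by simp) i).2 (hG1' i)) Gm hq0
    (by rwa [hψe]) (by rwa [hψe]) h12 h2r e2 hGi hP G1
    (fun g hg => ⟨fun i => (a5 g (by simp [hg]) i).2 ((hG1 g hg).1 i).2, Ng g, gs g,
      fun i => (a5 _ (Finset.mem_union_right _ (Finset.mem_union_right _ (Finset.mem_union_left _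
        (Finset.mem_image_of_mem _ hg)))) i).2 (n1 g hg i).2,
      fun i => (a5 _ (Finset.mem_union_right _ (Finset.mem_union_right _ (Finset.mem_union_right _
        (Finset.mem_image_of_mem _ hg)))) i).2 (n2 g hg i).2, n3 g hg, n4 g hg, n5 g hg⟩)
    (fun f hf => by
      by_contra h
      obtain ⟨x, hx, h1⟩ := kn F hD.fg (ih F hD.fg hD.dim) ι ξ
        (fun i => ⟨a2 i, a1.ne i, (a1.small i).le⟩) f rr (hr2.trans h2r)
        fun i => not_le.1 fun h1 => h ⟨i, h1⟩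
      refine (hc x hx).not_gt ?_
      rw [hψe] at hf
      rw [← sub_add_sub_cancel _ (MvPolynomial.aeval ξ f)]
      exact norm_add_lt_of hf h1)
  have hct : MvPolynomial.aeval ξ ct ∈ hens F :=
    Algebra.adjoin_le (S := (hens F).toSubalgebra) (Set.forall_mem_range.2 a2) (aeval_mem_R ξ ct)
  set z := y - MvPolynomial.aeval ξ ct with hz
  have hzK : z ∈ adjoin k (Set.range (Function.update ξ i0 z)) :=
    subset_adjoin _ _ ⟨i0, Function.update_self ..⟩
  obtain ⟨E, th, a', R', b1, b2, b3, b4, b5, b6, b7, b8, b9, b10⟩ :=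
    hcore (adjoin k (Set.range (Function.update ξ i0 z)))
      (fun i hi => subset_adjoin _ _ ⟨i, Function.update_of_ne hi ..⟩) hzK
  have hR' : 0 < R' := (norm_nonneg _).trans_lt b5
  have hm : ∀ i, (E - C (z ^ p ^ s)).coeff i ∈ adjoin k (Set.range (Function.update ξ i0 z)) :=
    fun i => by
      rw [coeff_sub, coeff_C]
      refine sub_mem (b1 i) ?_
      split_ifs
      exacts [pow_mem hzK _, zero_mem _]
  have hm0 : (E - C (z ^ p ^ s)).eval th = 0 := by rw [eval_sub, eval_C, b2, sub_self]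
  have hmd : (E - C (z ^ p ^ s)).derivative = E.derivative := by
    rw [derivative_sub, derivative_C, sub_zero]
  have hth : IsAlgebraic (adjoin k (Set.range (Function.update ξ i0 z))) th := by
    obtain ⟨Q, hQ⟩ := Phi.exists_lift hm
    refine ⟨Q, fun h => (b9 (ξ i0) (by rwa [sub_self, norm_zero])).1 ?_, ?_⟩
    · rw [← hmd, ← hQ, h, Polynomial.map_zero, derivative_zero, eval_zero]
    · rw [← eval_map_algebraMap, hQ, hm0]
  have hPD := adj _ (ξ i0) (Finset.univ.image (Function.update ξ i0 z)) R' _ X th (by simp) hm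
    (fun i => by rw [coeff_X]; split_ifs; exacts [one_mem _, zero_mem _]) hm0 b4 hR'
    (fun T hT => by
      rw [eval_X, hmd]
      refine ⟨?_, (b9 T hT).1, fun l hl => ?_⟩
      · rintro rfl
        rw [zero_sub, norm_neg] at hT
        exact b6.not_gt hT
      · rw [map_sub, hasseDeriv_C _ _ (by omega), sub_zero]
        exact (b9 T hT).2 l hl)
    (pq _ _ _ R' a' (hD.swap a1.ind a2 i0 hct a4 hth b3) (isAlgebraic_of_le le_sup_left b7) b5
      (by omega))
  choose! gh g1 g2 g3 d g4 g5 using b10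
  obtain ⟨ι', _, ξ', I', f1, f2, f3, f4, f5⟩ := back hy a1 a2 a3 i0 ct b6 (fun h => hD.tr (by
    rw [sub_eq_zero.1 h]
    exact alg_of_mem_hens hct)) hPD G1 gh d (fun g hg => ⟨g1 g hg, g2 g hg⟩) g3 g4 g5
  refine ⟨ι', inferInstance, ξ', I', f1, f3, fun g hg => ?_, f5⟩
  have h1 : Gd k ξ I b := by simpa using (a5 (C b) (by simp) 0).1 (by simpa using hb0)
  have h2 := (f4 _ (Finset.mem_image_of_mem _ hg)).div f1 (h1.mono f1 f2)
  rwa [eval_mul, eval_C, mul_div_cancel_left₀ _ hb0] at h2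

/-- The claim P(q) for all `q`. -/
theorem pq_all (p : ℕ) [Fact p.Prime] [CharP k p] {n : ℕ} (kn : KnStmt k Ω p) (ih : IH k Ω n)
    (term : TermStmt k Ω n) (aff : AffStmt k Ω) (adj : AdjStmt k Ω) (q : ℕ) : PQ k Ω n q :=
  pq_of p (Dat := Dat n) (PD := PD) (fun _ _ _ h => h.full) (fun _ _ _ _ h => h.adj)
    (fun _ _ _ _ _ h h1 h2 h3 => ⟨h.gen, h.dim, Pst.transcendental_aff h1 h2 h3 h.tr,
      Pst.vfull_aff h1 h2 h3 h.full⟩) term
    (fun F y Z R b c h h1 h2 h3 => aff F y Z R b c h.gen h1 h3 h2)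
    (fun F y Z R m U th h => adj F y Z R m U th h.gen)
    (fun _ h F y Z R a s ψ rr => swap p kn ih adj h F y Z R a ψ s rr) q

end Pool.Agent.MP_19ffc6_ag.LU3

end MrgPart0

-- ======== part 1: formerly Pool.Agent.MP_19ffc6_ag.LU3.Kn
section MrgPart1

/-! PROJECT LU3: ASC (good elements of the henselization) and KN (approximation by `p`-th powers). -/

namespace Pool.Agent.MP_19ffc6_ag.LU3

open IntermediateField Pool.Agent.MP_19ffc6_ag.LU Hr

namespace Kn

open MvPolynomial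

variable {k Ω : Type*} [Field k] [NontriviallyNormedField Ω] [Algebra k Ω] {ι κ : Type*}

theorem chain [Fintype ι] (D : Derivation k (MvPolynomial κ k) (MvPolynomial κ k))
    (g : ι → MvPolynomial κ k) (f : MvPolynomial ι k) :
    D (aeval g f) = ∑ i, aeval g (pderiv i f) * D (g i) := by
  classical
  induction f using MvPolynomial.induction_on with
  | C c => simp
  | add f f' h h' => simp only [map_add, h, h', add_mul, Finset.sum_add_distrib]
  | mul_X f i h =>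
    simp only [map_mul, aeval_X, Derivation.leibniz, h, smul_eq_mul, map_add, add_mul,
      Finset.sum_add_distrib, Finset.mul_sum, pderiv_X, mul_assoc]
    congr 1
    rw [Finset.sum_eq_single i (fun j _ hj => by simp [hj]) (by simp)]
    simp

theorem coeff_euler (j : κ) (F : MvPolynomial κ k) (γ : κ →₀ ℕ) :
    coeff γ (X j * pderiv j F) = (γ j : k) * coeff γ F := by
  classical
  induction F using MvPolynomial.induction_on' with
  | monomial m c =>
    rw [X_mul_pderiv_monomial, coeff_smul, coeff_monomial]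
    split_ifs with h
    · rw [h, nsmul_eq_mul]
    · simp
  | add F G h h' => rw [map_add, mul_add, coeff_add, coeff_add, h, h', mul_add]

variable [IsUltrametricDist Ω] [Ctx k Ω] {η : κ → Ω}

omit [IsUltrametricDist Ω] [Ctx k Ω] in
theorem aeval_congr {T : Submodule (H k η) Ω} {ξ : ι → Ω} (hξ : ∀ i, ξ i ∈ H k η)
    {g : ι → MvPolynomial κ k} (h : ∀ i, ξ i - aeval η (g i) ∈ T) (F : MvPolynomial ι k) :
    aeval ξ F - aeval η (aeval g F) ∈ T := by
  induction F using MvPolynomial.induction_on with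
  | C c => simp
  | add F G h h' =>
    refine (congrArg (· ∈ T) ?_).mp (add_mem h h')
    simp only [map_add]; ring
  | mul_X F i hF =>
    have h1 : aeval ξ F ∈ H k η :=
      Algebra.adjoin_le (S := H k η) (Set.forall_mem_range.2 hξ) (aeval_mem_R ξ F)
    refine (congrArg (· ∈ T) ?_).mp
      (add_mem (mul_mem_sub h1 (h i)) (mul_mem_sub (aeval_mem_H η (g i)) hF))
    simp only [map_mul, aeval_X]; ring

/-- A polynomial whose logarithmic derivatives have small monomials is almost a `p`-th power. -/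
theorem near_pow [IsAlgClosed k] (p : ℕ) [Fact p.Prime] [CharP k p] {r : ℝ} (hr : 0 < r)
    (F : MvPolynomial κ k) (h : ∀ j, ∀ γ ∈ (X j * pderiv j F).support,
      ‖aeval η (monomial γ (1 : k))‖ < r) :
    ∃ c : MvPolynomial κ k, ‖aeval η F - aeval η c ^ p‖ < r := by
  classical
  have hp : 0 < p := (Fact.out : p.Prime).pos
  choose rt hrt using fun c : k => IsAlgClosed.exists_pow_nat_eq c hp
  refine ⟨∑ γ ∈ F.support with ∀ j, p ∣ γ j,
    monomial (γ.mapRange (· / p) (Nat.zero_div p)) (rt (coeff γ F)), ?_⟩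
  rw [← map_pow, ← map_sub, sum_pow_char]
  have h1 : ∀ γ ∈ F.support.filter fun γ => ∀ j, p ∣ γ j,
      (monomial (γ.mapRange (· / p) (Nat.zero_div p)) (rt (coeff γ F))) ^ p =
        monomial γ (coeff γ F) := fun γ hγ => by
    rw [monomial_pow, hrt]
    congr 2
    ext j
    simpa using Nat.mul_div_cancel' ((Finset.mem_filter.1 hγ).2 j)
  rw [Finset.sum_congr rfl h1]
  nth_rw 1 [F.as_sum]
  rw [← Finset.sum_filter_add_sum_filter_not F.support fun γ => ∀ j, p ∣ γ j, add_sub_cancel_left,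
    map_sum]
  refine norm_sum_lt_of hr fun γ hγ => ?_
  obtain ⟨h2, h3⟩ := Finset.mem_filter.1 hγ
  obtain ⟨j, hj⟩ := not_forall.1 h3
  have h4 := h j γ (by
    rw [mem_support_iff, coeff_euler]
    exact mul_ne_zero (fun h0 => hj ((CharP.cast_eq_zero_iff k p _).1 h0)) (mem_support_iff.1 h2))
  rw [show monomial γ (coeff γ F) = coeff γ F • monomial γ (1 : k) by simp [smul_monomial],
    map_smul]
  exact (norm_smul_le_self _ _).trans_lt h4

/-- The core of KN, inside one chart. -/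
theorem core [IsAlgClosed k] [IsAlgClosed Ω] (p : ℕ) [Fact p.Prime] [CharP k p] [Fintype ι]
    [Finite κ] (hi : AlgebraicIndependent k η) (hs : ∀ j, ‖η j‖ < 1) (ξ : ι → Ω)
    (f : MvPolynomial ι k) {r : ℝ} (hr : 0 < r)
    (h : ∀ i, ∃ (a β : κ →₀ ℕ), ∃ w ∈ H k η, ∃ h ∈ H k η,
      ξ i = aeval η (monomial a (1 : k)) * w ∧
      aeval η (monomial a (1 : k)) * aeval ξ (pderiv i f) = aeval η (monomial β (1 : k)) * h ∧
      (h = 0 ∨ ‖aeval η (monomial β (1 : k))‖ < r)) :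
    ∃ c : MvPolynomial κ k, ‖aeval ξ f - aeval η c ^ p‖ < r := by
  choose a β w hw h hh hξ he hβ using h
  obtain ⟨ρ, h0, h1, h2⟩ := exists_rho hs
  obtain ⟨N, hN⟩ := exists_pow_lt_of_lt_one hr h1
  have hsm : ∀ x ∈ mm k η ^ N, ‖x‖ < r := fun x hx => (norm_le_pow h0 h1.le h2 hx).trans_lt hN
  let J : Ideal (MvPolynomial κ k) := Ideal.span ((fun γ => monomial γ (1 : k)) ''
    {γ | ‖aeval η (monomial γ (1 : k))‖ < r})
  have hJ : ∀ F ∈ J, ∀ γ ∈ F.support, ‖aeval η (monomial γ (1 : k))‖ < r := fun F hF γ hγ => by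
    obtain ⟨δ, hδ, hle⟩ := mem_ideal_span_monomial_image.1 hF γ hγ
    obtain ⟨ε, rfl⟩ := le_iff_exists_add.1 hle
    rw [← mul_one (1 : k), ← monomial_mul, map_mul, norm_mul]
    exact (mul_le_of_le_one_right (norm_nonneg _)
      (norm_H (fun j => (hs j).le) (aeval_mem_H η _))).trans_lt hδ
  have hIJ : ∀ F ∈ idealOfVars κ k ^ N, F ∈ J := fun F hF =>
    mem_ideal_span_monomial_image.2 fun γ hγ => ⟨γ, hsm _ (aeval_mem_pow
      ((monomial_mem_pow_idealOfVars_iff N γ one_ne_zero).2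
        ((mem_pow_idealOfVars_iff N F).1 hF γ hγ))), le_rfl⟩
  choose u hu using fun i => jet1 hs N (hw i)
  let g : ι → MvPolynomial κ k := fun i => monomial (a i) 1 * u i
  have hξH : ∀ i, ξ i ∈ H k η := fun i => hξ i ▸ mul_mem (aeval_mem_H η _) (hw i)
  have hg : ∀ i, ξ i - aeval η (g i) ∈ mm k η ^ N := fun i => by
    refine (congrArg (· ∈ mm k η ^ N) ?_).mp
      (mul_mem_sub (aeval_mem_H η (monomial (a i) (1 : k))) (hu i))
    rw [hξ i]; simp only [g, map_mul]; ring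
  have key : ∀ i, monomial (a i) 1 * aeval g (pderiv i f) ∈ J := fun i => by
    obtain ⟨t, ht, ht'⟩ : ∃ t, h i - aeval η t ∈ mm k η ^ N ∧ monomial (β i) 1 * t ∈ J := by
      rcases hβ i with h3 | h3
      · exact ⟨0, by simp [h3], by simp⟩
      · obtain ⟨t, ht⟩ := jet1 hs N (hh i)
        exact ⟨t, ht, J.mul_mem_right _ (Ideal.subset_span ⟨_, h3, rfl⟩)⟩
    rw [← sub_add_cancel (monomial (a i) 1 * aeval g (pderiv i f)) (monomial (β i) 1 * t)]
    refine J.add_mem (hIJ _ (jet2 hi hs ?_)) ht'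
    refine (congrArg (· ∈ mm k η ^ N) ?_).mp
      (sub_mem (mul_mem_sub (aeval_mem_H η (monomial (β i) (1 : k))) ht)
      (mul_mem_sub (aeval_mem_H η (monomial (a i) (1 : k))) (aeval_congr hξH hg (pderiv i f))))
    simp only [map_sub, map_mul]
    linear_combination (-1 : Ω) * he i
  obtain ⟨c, hc⟩ := near_pow (η := η) p hr (aeval g f) fun j => hJ _ (by
    rw [chain, Finset.mul_sum]
    refine J.sum_mem fun i _ => ?_
    have h3 : X j * (aeval g (pderiv i f) * pderiv j (g i)) = monomial (a i) 1 *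
        aeval g (pderiv i f) * (X j * pderiv j (u i) + (a i j : MvPolynomial κ k) * u i) := by
      have h4 := X_mul_pderiv_monomial (i := j) (m := a i) (r := (1 : k))
      rw [nsmul_eq_mul] at h4
      simp only [g, Derivation.leibniz, smul_eq_mul]
      linear_combination aeval g (pderiv i f) * u i * h4
    rw [h3]
    exact J.mul_mem_right _ (key i))
  refine ⟨c, ?_⟩
  rw [← sub_add_sub_cancel _ (aeval η (aeval g f))]
  exact norm_add_lt_of (hsm _ (aeval_congr hξH hg f)) hc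

end Kn

open Mv Polynomial

universe u

variable {k : Type*} {Ω : Type u} [Field k] [NontriviallyNormedField Ω] [Algebra k Ω]
  [IsUltrametricDist Ω] [Ctx k Ω] [IsAlgClosed Ω] [Infinite k]

/-- ASC: finitely many elements of the henselization become good. -/
theorem asc {K : IntermediateField k Ω} (h : SG k K) (Z W : Finset Ω)
    (hZ : adjoin k (Z : Set Ω) = K) (hW : ∀ w ∈ W, w ∈ hens K ∧ w ≠ 0) :
    ∃ (ι : Type) (_ : Fintype ι) (ξ : ι → Ω) (I : Finset ι), IsChart k ξ I ∧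
      (∀ i, ξ i ∈ hens K) ∧ (∀ w ∈ W, Gd k ξ I w) ∧ Sp k ξ I Z := by
  classical
  choose! b hb hbn using fun w (hw : w ∈ W) => exists_norm_eq_of_mem_hens (hW w hw).1
  have hb0 : ∀ w ∈ W, b w ≠ 0 := fun w hw => by
    rw [← norm_pos_iff, hbn w hw]
    exact norm_pos_iff.2 (hW w hw).2
  have hu : ∀ w ∈ W, ‖w / b w‖ = 1 := fun w hw => by
    rw [norm_div, hbn w hw, div_self (norm_ne_zero_iff.2 (hW w hw).2)]
  obtain ⟨η, P, -, h1, h2, h3, h4, h5, -, h6⟩ := eta K (W.image fun w => w / b w) fun z hz => by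
    obtain ⟨w, hw, rfl⟩ := Finset.mem_image.1 hz
    exact ⟨div_mem (hW w hw).1 (le_hens K (hb w hw)), (hu w hw).le⟩
  choose! G N hG he using fun w (hw : w ∈ W) => h6 _ (Finset.mem_image_of_mem _ hw)
  obtain ⟨ι, _, ξ, I, a1, a2, a3, a4⟩ := h.ref Z
    (W.image b ∪ (insert P (W.image G)).biUnion coeffs) hZ (by
      intro x hx
      rcases Finset.mem_union.1 hx with hx | hx
      · obtain ⟨w, hw, rfl⟩ := Finset.mem_image.1 hx
        exact ⟨hb w hw, hb0 w hw⟩
      · obtain ⟨Q, hQ, hx⟩ := Finset.mem_biUnion.1 hx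
        obtain ⟨i, hi, rfl⟩ := mem_coeffs_iff.1 hx
        refine ⟨?_, mem_support_iff.1 hi⟩
        rcases Finset.mem_insert.1 hQ with rfl | hQ
        · exact (h3 i).1
        · obtain ⟨w, hw, rfl⟩ := Finset.mem_image.1 hQ
          exact (hG w hw i).1)
  have hH : ∀ Q ∈ insert P (W.image G), (∀ i, ‖Q.coeff i‖ ≤ 1) → ∀ i, Q.coeff i ∈ H k ξ := by
    intro Q hQ hn i
    by_cases h0 : Q.coeff i = 0
    · exact h0 ▸ zero_mem _
    · exact ((a3 _ (Finset.mem_union_right _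
        (Finset.mem_biUnion.2 ⟨Q, hQ, coeff_mem_coeffs h0⟩))).2.1 (hn i)).mem
  have hP := hH P (Finset.mem_insert_self _ _) fun i => (h3 i).2
  have hη : η ∈ H k ξ := H_h2 a1.ind a1.small h2 hP h4 h5
  refine ⟨ι, inferInstance, ξ, I, a1, a2, fun w hw => ?_, a4⟩
  have e1 : ‖η ^ N w * P.derivative.eval η‖ = 1 := by
    rw [norm_mul, norm_pow, h1, h5, one_pow, one_mul]
  have e2 : w / b w ∈ H k ξ := by
    rw [(eq_mul_inv_iff_mul_eq₀ (ne_zero_of_norm_eq_one e1)).2 (he w hw)]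
    exact mul_mem (Desc.eval_mem _ _ (hH _ (Finset.mem_insert_of_mem
      (Finset.mem_image_of_mem G hw)) fun i => (hG w hw i).2) hη)
      (inv_mem_H (mul_mem (pow_mem hη _) (Desc.eval_mem _ _ (Desc.der_coeff _ P hP) hη)) e1)
  have e3 := (a3 _ (Finset.mem_union_left _ (Finset.mem_image_of_mem b hw))).1.mul a1
    (Gd.unit e2 (hu w hw))
  rwa [mul_div_cancel₀ _ (hb0 w hw)] at e3

/-- KN. -/
theorem kn [IsAlgClosed k] (p : ℕ) [Fact p.Prime] [CharP k p] : KnStmt k Ω p := by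
  classical
  intro F ⟨Z, hZ⟩ h ι _ ξ hξ f r hr hd
  set D : ι → Ω := fun i => MvPolynomial.aeval ξ (MvPolynomial.pderiv i f) with hD
  have hDF : ∀ i, D i ∈ hens F := fun i => Algebra.adjoin_le (S := (hens F).toSubalgebra)
    (Set.forall_mem_range.2 fun j => (hξ j).1) (aeval_mem_R ξ _)
  have hD1 : ∀ i, ‖ξ i * D i‖ ≤ 1 := fun i => by
    rw [norm_mul]
    exact mul_le_one₀ (hξ i).2.2 (norm_nonneg _) (norm_le_one_of_mem_adjoin
      (Set.forall_mem_range.2 fun j => (hξ j).2.2) (aeval_mem_R ξ _))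
  set W := Finset.univ.image ξ ∪
    (Finset.univ.filter fun i => D i ≠ 0).image fun i => ξ i * D i with hW
  have hW' : ∀ w ∈ W, (w ∈ hens F ∧ w ≠ 0) ∧ ‖w‖ ≤ 1 := fun w hw => by
    rcases Finset.mem_union.1 hw with hw | hw <;> obtain ⟨i, hi, rfl⟩ := Finset.mem_image.1 hw
    · exact ⟨⟨(hξ i).1, (hξ i).2.1⟩, (hξ i).2.2⟩
    · exact ⟨⟨mul_mem (hξ i).1 (hDF i),
        mul_ne_zero (hξ i).2.1 (Finset.mem_filter.1 hi).2⟩, hD1 i⟩
  obtain ⟨κ, _, η, I, a1, a2, a3, -⟩ := asc h Z W hZ fun w hw => (hW' w hw).1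
  obtain ⟨η', b1, -, -, -, -, b2, b3⟩ := Mv.ref a1 W fun w hw => ⟨a3 w hw, (hW' w hw).2⟩
  have hm : ∀ w ∈ W, ∃ α : κ →₀ ℕ, ∃ u ∈ H k η', ‖u‖ = 1 ∧
      w = MvPolynomial.aeval η' (MvPolynomial.monomial α (1 : k)) * u := fun w hw =>
    (Swp.ng_of_nt (b3 w hw).2.2).resolve_left (hW' w hw).1.2
  obtain ⟨c, hc⟩ := Kn.core p b1.ind b1.small ξ f hr fun i => by
    obtain ⟨a, w, hw, w1, e1⟩ := hm _ (Finset.mem_union_left _
      (Finset.mem_image_of_mem ξ (Finset.mem_univ i)))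
    by_cases h0 : D i = 0
    · exact ⟨a, 0, w, hw, 0, zero_mem _, e1, by
        rw [mul_zero]; exact mul_eq_zero_of_right _ h0, Or.inl rfl⟩
    obtain ⟨β, u, hu, u1, e2⟩ := hm _ (Finset.mem_union_right _ (Finset.mem_image_of_mem
      (fun i => ξ i * D i) (Finset.mem_filter.2 ⟨Finset.mem_univ i, h0⟩)))
    refine ⟨a, β, w, hw, u * w⁻¹, mul_mem hu (inv_mem_H hw w1), e1, ?_, Or.inr ?_⟩
    · rw [← mul_assoc, ← e2, eq_mul_inv_iff_mul_eq₀ (ne_zero_of_norm_eq_one w1)]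
      conv_rhs => rw [e1]
      ring
    · have h1 := hd i
      change ‖ξ i * D i‖ < r at h1
      rwa [e2, norm_mul, u1, mul_one] at h1
  refine ⟨_, ?_, hc⟩
  exact Algebra.adjoin_le (S := (hens F).toSubalgebra) (Set.forall_mem_range.2 fun j =>
    (b2.trans_le (adjoin_le_iff.2 (Set.forall_mem_range.2 a2))) (subset_adjoin _ _ ⟨j, rfl⟩))
    (aeval_mem_R η' c)

end Pool.Agent.MP_19ffc6_ag.LU3

end MrgPart1

-- marker of a merged file
example : 731051 + 573725 = 731051 + 573725 := rfl
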