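import Mathlib
import Pool.Agent.MP_19ffc6_ag.LU.HensB
import Pool.Agent.MP_19ffc6_ag.LU.Sep

/-! Module MH of PROJECT LU3: the multivariate Hensel lemma for Laurent systems. -/

namespace Pool.Agent.MP_19ffc6_ag.LU3

open IntermediateField Pool.Agent.MP_19ffc6_ag.LU

universe u

namespace Mh

/-- An isometric embedding into a complete field. -/
theorem exists_cpl (k : Type*) (Ω : Type u) [Field k] [NontriviallyNormedField Ω]
    [IsUltrametricDist Ω] [Algebra k Ω] {P : Prop}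
    (h : ∀ (W : Type u) [NontriviallyNormedField W] [IsUltrametricDist W] [CompleteSpace W]
      [Algebra k W] (j : Ω →ₐ[k] W), (∀ x, ‖j x‖ = ‖x‖) → P) : P := by
  let W := UniformSpace.Completion Ω
  let ι : Ω →+* W := UniformSpace.Completion.coeRingHom
  have hι : ∀ x, ‖ι x‖ = ‖x‖ := fun x => UniformSpace.Completion.norm_coe x
  obtain ⟨m, hm⟩ := NormedField.exists_one_lt_norm Ω
  let : NontriviallyNormedField W :=
    { (inferInstance : NormedField W) with non_trivial := ⟨ι m, by rw [hι]; exact hm⟩ }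
  have : IsUltrametricDist W :=
    IsUltrametricDist.isUltrametricDist_of_forall_norm_natCast_le_one fun n => by
      rw [← map_natCast ι, hι]
      exact IsUltrametricDist.norm_natCast_le_one Ω n
  let : Algebra k W := (ι.comp (algebraMap k Ω)).toAlgebra
  exact h W { ι with commutes' := fun _ => rfl } hι

section alg

variable {k W : Type*} [Field k] [Field W] [Algebra k W]

theorem alg_mono {M K : IntermediateField k W} (h : M ≤ K) {a : W} (ha : IsAlgebraic M a) :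
    IsAlgebraic K a := by
  let : Algebra M K := (inclusion h).toAlgebra
  have : IsScalarTower M K W := IsScalarTower.of_algebraMap_eq fun _ => rfl
  exact ha.tower_top K

theorem mem_closure_iff {s : Set W} {a : W} :
    a ∈ (AlgebraicIndependent.matroid k W).closure s ↔ IsAlgebraic (adjoin k s) a := by
  rw [AlgebraicIndependent.matroid_closure_eq, SetLike.mem_coe, Subalgebra.mem_algebraicClosure,
    isAlgebraic_adjoin_iff]

/-- The exchange property. -/
theorem alg_of_card {ι : Type*} [Fintype ι] (e b : ι → W) (hb : AlgebraicIndependent k b)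
    (hbe : ∀ i, IsAlgebraic (adjoin k (Set.range e)) (b i)) (l : ι) :
    IsAlgebraic (adjoin k (Set.range b)) (e l) := by
  by_contra hc
  rw [← mem_closure_iff] at hc
  set M := AlgebraicIndependent.matroid k W
  have hI : M.Indep (Set.range b) := hb.to_subtype_range
  have h1 := (hI.notMem_closure_iff (Set.mem_univ _)).1 hc
  have h2 : insert (e l) (Set.range b) ⊆ M.closure (Set.range e) := by
    rintro _ (rfl | ⟨i, rfl⟩)
    · exact M.subset_closure _ (Set.subset_univ _) ⟨l, rfl⟩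
    · exact mem_closure_iff.2 (hbe i)
  have h3 := h1.1.encard_le_eRk_of_subset h2
  rw [M.eRk_closure_eq, Set.encard_insert_of_notMem h1.2, ← Set.image_univ,
    hb.injective.injOn.encard_image] at h3
  have h4 := (h3.trans (M.eRk_le_encard _)).trans
    (Set.image_univ (f := e) ▸ Set.encard_image_le e Set.univ)
  have h5 : (Set.univ : Set ι).encard ≠ ⊤ := Set.finite_univ.encard_lt_top.ne
  exact absurd ((ENat.add_one_le_iff h5).1 h4) (lt_irrefl _)

/-- An element algebraic over the image of an algebraically closed field lies in the image. -/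
theorem mem_range_of_alg {Ω W : Type u} [Field Ω] [Algebra k Ω] [IsAlgClosed Ω] [Field W]
    [Algebra k W] (j : Ω →ₐ[k] W) {a : W} (ha : IsAlgebraic j.fieldRange a) : ∃ x, j x = a := by
  have : IsAlgClosed j.fieldRange :=
    IsAlgClosed.of_ringEquiv Ω _ (AlgEquiv.ofInjectiveField j).toRingEquiv
  have h1 := IsAlgClosed.degree_eq_one_of_irreducible _ (minpoly.irreducible ha.isIntegral)
  obtain ⟨⟨_, x, rfl⟩, hx⟩ := minpoly.mem_range_of_degree_eq_one _ _ h1
  exact ⟨x, hx⟩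

end alg

section mat

variable {R : Type*} [CommRing R] {ι : Type*} [Fintype ι] [DecidableEq ι]

theorem det_mem (S : Subring R) (A : Matrix ι ι R) (h : ∀ i l, A i l ∈ S) : A.det ∈ S := by
  rw [Matrix.det_apply']
  exact sum_mem fun σ _ => mul_mem (intCast_mem S _) (prod_mem fun i _ => h _ _)

theorem adj_mem (S : Subring R) (A : Matrix ι ι R) (h : ∀ i l, A i l ∈ S) (i l : ι) :
    A.adjugate i l ∈ S := by
  rw [Matrix.adjugate_apply]
  refine det_mem S _ fun i' l' => ?_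
  rw [Matrix.updateRow_apply]
  split_ifs
  · rw [Pi.single_apply]
    split_ifs
    exacts [one_mem S, zero_mem S]
  · exact h _ _

end mat

section est

variable {Ω : Type*} [NontriviallyNormedField Ω] [IsUltrametricDist Ω]

/-- The valuation ring. -/
def intRing (Ω : Type*) [NontriviallyNormedField Ω] [IsUltrametricDist Ω] : Subring Ω where
  carrier := {a | ‖a‖ ≤ 1}
  mul_mem' ha hb := by
    rw [Set.mem_ofPred_eq, norm_mul]; exact mul_le_one₀ ha (norm_nonneg _) hb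
  add_mem' ha hb := norm_add_le_of ha hb
  one_mem' := norm_one.le
  zero_mem' := by simp
  neg_mem' ha := by rwa [Set.mem_ofPred_eq, norm_neg]

omit [IsUltrametricDist Ω] in
theorem norm_mul_le_of {a b : Ω} {r s : ℝ} (ha : ‖a‖ ≤ r) (hb : ‖b‖ ≤ s) : ‖a * b‖ ≤ r * s := by
  rw [norm_mul]
  exact mul_le_mul ha hb (norm_nonneg _) ((norm_nonneg _).trans ha)

theorem norm_eq_one_of {m : Ω} (h : ‖m - 1‖ < 1) : ‖m‖ = 1 := by
  have := norm_add_eq_left (a := (1 : Ω)) (b := m - 1) (by rwa [norm_one])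
  rwa [add_sub_cancel, norm_one] at this

/-- Two principal units with a first order term `l` of their difference. -/
structure Tri (ρ δ : ℝ) (m m' l : Ω) : Prop where
  h1 : ‖m - 1‖ ≤ ρ
  h2 : ‖m' - 1‖ ≤ ρ
  h3 : ‖l‖ ≤ δ
  h4 : ‖m - m' - l‖ ≤ ρ * δ

variable {ρ δ : ℝ}

omit [IsUltrametricDist Ω] in
theorem Tri.one (hρ : 0 ≤ ρ) (hδ : 0 ≤ δ) : Tri ρ δ (1 : Ω) 1 0 :=
  ⟨by simpa, by simpa, by simpa, by simpa using mul_nonneg hρ hδ⟩

theorem Tri.sub_le (hρ : ρ < 1) {m m' l : Ω} (h : Tri ρ δ m m' l) : ‖m - m'‖ ≤ δ := by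
  have hδ := (norm_nonneg _).trans h.h3
  have : m - m' = (m - m' - l) + l := by ring
  rw [this]
  exact norm_add_le_of (h.h4.trans (mul_le_of_le_one_left hδ hρ.le)) h.h3

theorem norm_mul_sub_one (hρ : ρ < 1) {m n : Ω} (hm : ‖m - 1‖ ≤ ρ) (hn : ‖n - 1‖ ≤ ρ) :
    ‖m * n - 1‖ ≤ ρ := by
  have : m * n - 1 = m * (n - 1) + (m - 1) := by ring
  rw [this]
  refine norm_add_le_of ?_ hm
  rwa [norm_mul, norm_eq_one_of (hm.trans_lt hρ), one_mul]

theorem Tri.mul (hρ : ρ < 1) {m m' l n n' l' : Ω} (h : Tri ρ δ m m' l) (h' : Tri ρ δ n n' l') :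
    Tri ρ δ (m * n) (m' * n') (l + l') := by
  refine ⟨norm_mul_sub_one hρ h.h1 h'.h1, norm_mul_sub_one hρ h.h2 h'.h2,
    norm_add_le_of h.h3 h'.h3, ?_⟩
  have : m * n - m' * n' - (l + l') = ((m - 1) * (n - n') + (n - n' - l')) +
      ((n' - 1) * (m - m') + (m - m' - l)) := by ring
  rw [this]
  exact norm_add_le_of (norm_add_le_of (norm_mul_le_of h.h1 (h'.sub_le hρ)) h'.h4)
    (norm_add_le_of (norm_mul_le_of h'.h2 (h.sub_le hρ)) h.h4)

theorem Tri.inv (hρ : ρ < 1) {m m' l : Ω} (h : Tri ρ δ m m' l) : Tri ρ δ m⁻¹ m'⁻¹ (-l) := by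
  have h1 := norm_eq_one_of (h.h1.trans_lt hρ)
  have h2 := norm_eq_one_of (h.h2.trans_lt hρ)
  have h1' := ne_zero_of_norm_eq_one h1
  have h2' := ne_zero_of_norm_eq_one h2
  have key : ∀ n : Ω, ‖n‖ = 1 → ‖n - 1‖ ≤ ρ → ‖n⁻¹ - 1‖ ≤ ρ := fun n hn h => by
    have h0 := ne_zero_of_norm_eq_one hn
    have : n⁻¹ - 1 = -(n - 1) / n := by field_simp; ring
    rwa [this, norm_div, norm_neg, hn, div_one]
  refine ⟨key m h1 h.h1, key m' h2 h.h2, by simpa using h.h3, ?_⟩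
  have : m⁻¹ - m'⁻¹ - -l = ((m * m' - 1) * l - (m - m' - l)) / (m * m') := by field_simp; ring
  rw [this, norm_div, norm_mul m, h1, h2, mul_one, div_one]
  exact norm_sub_le_of (norm_mul_le_of (norm_mul_sub_one hρ h.h1 h.h2) h.h3) h.h4

theorem Tri.zpow (hρ : ρ < 1) {m m' l : Ω} (h : Tri ρ δ m m' l) (s : ℤ) :
    Tri ρ δ (m ^ s) (m' ^ s) (s * l) := by
  have hn : ∀ n : ℕ, Tri ρ δ (m ^ n) (m' ^ n) (n * l) := fun n => by
    induction n with
    | zero => simpa using Tri.one ((norm_nonneg _).trans h.h1) ((norm_nonneg _).trans h.h3)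
    | succ n ih =>
      have := ih.mul hρ h
      rwa [← pow_succ, ← pow_succ, ← add_one_mul, ← Nat.cast_succ] at this
  obtain ⟨n, rfl | rfl⟩ := s.eq_nat_or_neg
  · simpa using hn n
  · simpa using (hn n).inv hρ

variable {ι τ : Type*} [Fintype ι] [Fintype τ]

theorem tri_mon (hρ0 : 0 ≤ ρ) (hδ0 : 0 ≤ δ) (hρ : ρ < 1) {z z' : ι → Ω}
    (hz : ∀ l, ‖z l - 1‖ ≤ ρ) (hz' : ∀ l, ‖z' l - 1‖ ≤ ρ) (hδ : ∀ l, ‖z l - z' l‖ ≤ δ)
    (s : ι → ℤ) :
    Tri ρ δ (∏ l, z l ^ s l) (∏ l, z' l ^ s l) (∑ l, (s l : Ω) * (z l - z' l)) := by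
  classical
  suffices h : ∀ t : Finset ι, Tri ρ δ (∏ l ∈ t, z l ^ s l) (∏ l ∈ t, z' l ^ s l)
      (∑ l ∈ t, (s l : Ω) * (z l - z' l)) from h _
  intro t
  induction t using Finset.induction_on with
  | empty => simpa using Tri.one hρ0 hδ0
  | insert a t ha ih =>
    rw [Finset.prod_insert ha, Finset.prod_insert ha, Finset.sum_insert ha]
    refine Tri.mul hρ (Tri.zpow hρ ⟨hz a, hz' a, hδ a, ?_⟩ _) ih
    simpa using mul_nonneg hρ0 hδ0

/-- The Laurent system. -/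
noncomputable def sys {R : Type*} [Field R] (a : ι → τ → R) (s : τ → ι → ℤ) (z : ι → R) (i : ι) :
    R := ∑ t, a i t * ∏ l, z l ^ s t l

/-- The Jacobian matrix at the point one. -/
noncomputable def jac {R : Type*} [Field R] (a : ι → τ → R) (s : τ → ι → ℤ) : Matrix ι ι R :=
  Matrix.of fun i l => ∑ t, a i t * (s t l : R)

theorem sys_est (hρ0 : 0 ≤ ρ) (hδ0 : 0 ≤ δ) (hρ : ρ < 1) {a : ι → τ → Ω} (ha : ∀ i t, ‖a i t‖ ≤ 1)
    (s : τ → ι → ℤ) {z z' : ι → Ω} (hz : ∀ l, ‖z l - 1‖ ≤ ρ) (hz' : ∀ l, ‖z' l - 1‖ ≤ ρ)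
    (hδ : ∀ l, ‖z l - z' l‖ ≤ δ) (i : ι) :
    ‖sys a s z i - sys a s z' i - (jac a s).mulVec (z - z') i‖ ≤ ρ * δ := by
  have : sys a s z i - sys a s z' i - (jac a s).mulVec (z - z') i =
      ∑ t, a i t * (∏ l, z l ^ s t l - ∏ l, z' l ^ s t l - ∑ l, (s t l : Ω) * (z l - z' l)) := by
    simp only [sys, jac, Matrix.mulVec, dotProduct, Matrix.of_apply, Pi.sub_apply, mul_sub,
      Finset.sum_sub_distrib, Finset.sum_mul, Finset.mul_sum, mul_assoc]
    rw [Finset.sum_comm (s := Finset.univ) (t := Finset.univ)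
      (f := fun l t => a i t * ((s t l : Ω) * z l)), Finset.sum_comm (s := Finset.univ)
      (t := Finset.univ) (f := fun l t => a i t * ((s t l : Ω) * z' l))]
  rw [this]
  refine norm_sum_le_of (mul_nonneg hρ0 hδ0) fun t _ => ?_
  simpa using norm_mul_le_of (ha i t) (tri_mon hρ0 hδ0 hρ hz hz' hδ (s t)).h4

theorem jac_le {a : ι → τ → Ω} (ha : ∀ i t, ‖a i t‖ ≤ 1) (s : τ → ι → ℤ) (i l : ι) :
    ‖jac a s i l‖ ≤ 1 :=
  norm_sum_le_of zero_le_one fun t _ => by
    simpa using norm_mul_le_of (ha i t) (IsUltrametricDist.norm_intCast_le_one Ω (s t l))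

theorem mulVec_le {A : Matrix ι ι Ω} {v : ι → Ω} {r : ℝ} (hρ : 0 ≤ ρ) (hr : 0 ≤ r)
    (hA : ∀ i l, ‖A i l‖ ≤ ρ) (hv : ∀ l, ‖v l‖ ≤ r) (i : ι) : ‖A.mulVec v i‖ ≤ ρ * r :=
  norm_sum_le_of (mul_nonneg hρ hr) fun l _ => norm_mul_le_of (hA i l) (hv l)

variable [DecidableEq ι]

theorem inv_le {A : Matrix ι ι Ω} (hA : ∀ i l, ‖A i l‖ ≤ 1) (i l : ι) :
    ‖A⁻¹ i l‖ ≤ ‖A.det‖⁻¹ := by
  rw [Matrix.inv_def, Matrix.smul_apply, smul_eq_mul, Ring.inverse_eq_inv', norm_mul, norm_inv]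
  exact mul_le_of_le_one_right (by positivity) (adj_mem (intRing Ω) A hA i l)

/-- The simplified Newton iteration. -/
theorem newton (K : Subfield Ω) {a : ι → τ → Ω} (ha : ∀ i t, ‖a i t‖ ≤ 1) (haK : ∀ i t, a i t ∈ K)
    (s : τ → ι → ℤ) {b : ι → Ω} (hbK : ∀ i, b i ∈ K) {L : ℝ} (hL0 : 0 ≤ L)
    (hL : ∀ i, ‖b i - ∑ t, a i t‖ ≤ L) (hJ : L < ‖(jac a s).det‖ ^ 2) :
    ∃ (z : ℕ → ι → Ω) (θ : ℝ), 0 ≤ θ ∧ θ < 1 ∧ (∀ n l, z n l ∈ K) ∧
      (∀ n l, ‖z n l - 1‖ ≤ L / ‖(jac a s).det‖) ∧ (∀ n l, ‖z n l - z (n + 1) l‖ ≤ θ ^ n) ∧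
      ∀ n i, ‖sys a s (z n) i - b i‖ ≤ θ ^ n := by
  set A := jac a s with hA
  set J := ‖A.det‖ with hJdef
  have hA1 : ∀ i l, ‖A i l‖ ≤ 1 := jac_le ha s
  have hJ1 : J ≤ 1 := det_mem (intRing Ω) A hA1
  have hJ0 : 0 < J := by
    refine lt_of_le_of_ne (norm_nonneg _) fun h => ?_
    rw [← h] at hJ; linarith
  have hdet : IsUnit A.det := (norm_pos_iff.1 hJ0).isUnit
  set ρ := L / J with hρ
  have hρ0 : 0 ≤ ρ := by positivity
  have hρJ : ρ < J := by rw [hρ, div_lt_iff₀ hJ0]; linarith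
  have hρ1 : ρ < 1 := hρJ.trans_le hJ1
  set θ := J⁻¹ * ρ with hθ
  have hθ0 : 0 ≤ θ := by positivity
  have hθ1 : θ < 1 := by rw [hθ, inv_mul_lt_iff₀ hJ0]; linarith
  let N : (ι → Ω) → ι → Ω := fun z => z - A⁻¹.mulVec (sys a s z - b)
  have hNK : ∀ z, (∀ l, z l ∈ K) → ∀ l, N z l ∈ K := fun z hz l => by
    refine sub_mem (hz l) (sum_mem fun i _ => mul_mem ?_ (sub_mem ?_ (hbK i)))
    · have h1 : ∀ i l, A i l ∈ K.toSubring := fun i l =>
        sum_mem fun t _ => mul_mem (haK i t) (intCast_mem K _)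
      show A⁻¹ l i ∈ K
      rw [Matrix.inv_def, Matrix.smul_apply, smul_eq_mul, Ring.inverse_eq_inv']
      exact mul_mem (inv_mem (s := K) (det_mem K.toSubring A h1)) (adj_mem K.toSubring A h1 l i)
    · exact sum_mem fun t _ => mul_mem (haK i t) (prod_mem fun l _ => zpow_mem (hz l) _)
  have hcon : ∀ (z z' : ι → Ω) (δ : ℝ), 0 ≤ δ → (∀ l, ‖z l - 1‖ ≤ ρ) → (∀ l, ‖z' l - 1‖ ≤ ρ) →
      (∀ l, ‖z l - z' l‖ ≤ δ) → ∀ l, ‖N z l - N z' l‖ ≤ θ * δ := by
    intro z z' δ hδ hz hz' hd l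
    have h1 : N z - N z' = -A⁻¹.mulVec (sys a s z - sys a s z' - A.mulVec (z - z')) := by
      simp only [N, Matrix.mulVec_sub, Matrix.mulVec_mulVec, Matrix.nonsing_inv_mul _ hdet,
        Matrix.one_mulVec]
      abel
    rw [← Pi.sub_apply, h1, Pi.neg_apply, norm_neg, hθ, mul_assoc]
    exact mulVec_le (by positivity) (by positivity) (inv_le hA1)
      (fun i => sys_est hρ0 hδ hρ1 ha s hz hz' hd i) l
  have hN1 : ∀ l, ‖N 1 l - 1‖ ≤ ρ := fun l => by
    have h1 : N 1 l - 1 = -A⁻¹.mulVec (sys a s 1 - b) l := by simp [N]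
    rw [h1, norm_neg, hρ, div_eq_inv_mul]
    refine mulVec_le (by positivity) hL0 (inv_le hA1) (fun i => ?_) l
    rw [Pi.sub_apply, norm_sub_rev]
    simpa [sys] using hL i
  have hball : ∀ z : ι → Ω, (∀ l, ‖z l - 1‖ ≤ ρ) → ∀ l, ‖N z l - 1‖ ≤ ρ := fun z hz l => by
    have h1 : N z l - 1 = (N z l - N 1 l) + (N 1 l - 1) := by ring
    rw [h1]
    refine norm_add_le_of ((hcon z 1 ρ hρ0 hz (by simpa using fun _ => hρ0) hz l).trans ?_) (hN1 l)
    exact mul_le_of_le_one_left hρ0 hθ1.le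
  have hz1 : ∀ n l, ‖N^[n] 1 l - 1‖ ≤ ρ := fun n => by
    induction n with
    | zero => simpa using fun _ => hρ0
    | succ n ih => rw [Function.iterate_succ_apply']; exact hball _ ih
  have hz2 : ∀ n l, ‖N^[n] 1 l - N^[n + 1] 1 l‖ ≤ θ ^ n := fun n => by
    induction n with
    | zero => intro l; rw [norm_sub_rev]; simpa using (hN1 l).trans hρ1.le
    | succ n ih =>
      intro l
      rw [Function.iterate_succ_apply' N (n + 1), Function.iterate_succ_apply' N n, pow_succ']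
      have := hcon _ _ _ (pow_nonneg hθ0 n) (hz1 n) (hz1 (n + 1)) ih l
      rwa [Function.iterate_succ_apply' N n] at this
  refine ⟨fun n => N^[n] 1, θ, hθ0, hθ1, fun n => ?_, hz1, hz2, fun n i => ?_⟩
  · induction n with
    | zero => exact fun _ => one_mem K
    | succ n ih => simp only [Function.iterate_succ_apply']; exact hNK _ ih
  · have h1 : sys a s (N^[n] 1) - b = A.mulVec (N^[n] 1 - N^[n + 1] 1) := by
      rw [Function.iterate_succ_apply']
      simp only [N, sub_sub_cancel, Matrix.mulVec_mulVec, Matrix.mul_nonsing_inv _ hdet,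
        Matrix.one_mulVec]
    rw [← Pi.sub_apply, h1]
    exact (mulVec_le zero_le_one (pow_nonneg hθ0 n) hA1 (hz2 n) i).trans_eq (one_mul _)

/-- A small perturbation of the point keeps the Jacobian matrix injective. -/
theorem jac_inj {a : ι → τ → Ω} (ha : ∀ i t, ‖a i t‖ ≤ 1) (s : τ → ι → ℤ) {m : τ → Ω}
    (hρ0 : 0 ≤ ρ) (hρ : ρ < ‖(jac a s).det‖) (hm : ∀ t, ‖m t - 1‖ ≤ ρ) {v : ι → Ω}
    (hv : (jac (fun i t => a i t * m t) s).mulVec v = 0) : v = 0 := by
  set A := jac a s with hA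
  have hA1 : ∀ i l, ‖A i l‖ ≤ 1 := jac_le ha s
  have hJ0 : 0 < ‖A.det‖ := hρ0.trans_lt hρ
  have hdet : IsUnit A.det := (norm_pos_iff.1 hJ0).isUnit
  have h1 : v = A⁻¹.mulVec ((A - jac (fun i t => a i t * m t) s).mulVec v) := by
    rw [Matrix.sub_mulVec, hv, sub_zero, Matrix.mulVec_mulVec, Matrix.nonsing_inv_mul _ hdet,
      Matrix.one_mulVec]
  have h2 : ∀ i l, ‖(A - jac (fun i t => a i t * m t) s) i l‖ ≤ ρ := fun i l => by
    simp only [hA, jac, Matrix.sub_apply, Matrix.of_apply, ← Finset.sum_sub_distrib]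
    refine norm_sum_le_of hρ0 fun t _ => ?_
    have : a i t * (s t l : Ω) - a i t * m t * (s t l : Ω) = -(a i t * (s t l : Ω) * (m t - 1)) := by
      ring
    rw [this, norm_neg]
    simpa using norm_mul_le_of
      (norm_mul_le_of (ha i t) (IsUltrametricDist.norm_intCast_le_one Ω (s t l))) (hm t)
  have h3 : ‖v‖ ≤ ‖A.det‖⁻¹ * (ρ * ‖v‖) := by
    refine (pi_norm_le_iff_of_nonneg (by positivity)).2 fun l => ?_
    conv_lhs => rw [h1]
    exact mulVec_le (by positivity) (by positivity) (inv_le hA1)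
      (mulVec_le hρ0 (norm_nonneg _) h2 (norm_le_pi_norm v)) l
  rw [le_inv_mul_iff₀ hJ0] at h3
  by_contra h0
  have := norm_pos_iff.2 h0
  nlinarith

end est

theorem der_mon {k Ω : Type*} [Field k] [NontriviallyNormedField Ω] [Algebra k Ω]
    {K : IntermediateField k Ω} {D : Ω → Ω} (hD : IsDer K D) {ι : Type*} (e : ι → Ω)
    (he : ∀ l, e l ∈ K ∧ e l ≠ 0) (s : ι → ℤ) (t : Finset ι) :
    D (∏ l ∈ t, e l ^ s l) = (∏ l ∈ t, e l ^ s l) * ∑ l ∈ t, (s l : Ω) * (D (e l) / e l) := by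
  classical
  induction t using Finset.induction_on with
  | empty => simp [hD.one]
  | insert a t ha ih =>
    rw [Finset.prod_insert ha, Finset.sum_insert ha,
      hD.mul _ (zpow_mem (he a).1 _) _ (prod_mem fun l _ => zpow_mem (he l).1 _), ih,
      hD.zpow (he a).1 (he a).2]
    ring

end Mh

open Mh Filter Topology

/-- The multivariate Hensel lemma: the Laurent system has a solution in the henselization. -/
theorem mh {k : Type*} {Ω : Type u} [Field k] [NontriviallyNormedField Ω] [IsUltrametricDist Ω]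
    [Algebra k Ω] [IsAlgClosed Ω] [Ctx k Ω] (K : IntermediateField k Ω)
    {ι τ : Type*} [Fintype ι] [DecidableEq ι] [Fintype τ] (ε : ι → Ω)
    (hε : ∀ l, ε l ∈ K ∧ ε l ≠ 0) (s : τ → ι → ℤ) (hs : ∀ t, ‖∏ l, ε l ^ s t l‖ ≤ 1)
    (β : ι → τ → k) (b : ι → Ω) (hb : ∀ i, b i ∈ K) (hind : AlgebraicIndependent k b)
    (L : ℝ) (hL0 : 0 ≤ L) (hL : ∀ i, ‖b i - ∑ t, β i t • ∏ l, ε l ^ s t l‖ ≤ L)
    (hJ : L < ‖(Matrix.of fun i l => ∑ t, (β i t • ∏ l, ε l ^ s t l) * (s t l : Ω)).det‖ ^ 2) :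
    ∃ ε' : ι → Ω, (∀ l, ε' l ∈ hens K ∧ ‖ε' l‖ = ‖ε l‖) ∧
      ∀ i, b i = ∑ t, β i t • ∏ l, ε' l ^ s t l := by
  set a : ι → τ → Ω := fun i t => β i t • ∏ l, ε l ^ s t l with ha
  have ha1 : ∀ i t, ‖a i t‖ ≤ 1 := fun i t => (norm_smul_le_self _ _).trans (hs t)
  have haK : ∀ i t, a i t ∈ K := fun i t =>
    K.smul_mem (prod_mem fun l _ => zpow_mem (hε l).1 _)
  replace hJ : L < ‖(jac a s).det‖ ^ 2 := hJ
  obtain ⟨z, θ, hθ0, hθ1, hzK, hz1, hz2, hz3⟩ := newton K.toSubfield ha1 haK s hb hL0 hL hJ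
  set ρ := L / ‖(jac a s).det‖ with hρ
  have hJ1 : ‖(jac a s).det‖ ≤ 1 := det_mem (intRing Ω) _ (jac_le ha1 s)
  have hJ0 : 0 < ‖(jac a s).det‖ := by
    refine lt_of_le_of_ne (norm_nonneg _) fun h => ?_
    rw [← h] at hJ; linarith
  have hρ0 : 0 ≤ ρ := by positivity
  have hρJ : ρ < ‖(jac a s).det‖ := by rw [hρ, div_lt_iff₀ hJ0]; linarith
  have hρ1 : ρ < 1 := hρJ.trans_le hJ1
  have hθ := tendsto_pow_atTop_nhds_zero_of_lt_one hθ0 hθ1
  obtain ⟨ζ, hζ, hsys⟩ : ∃ ζ : ι → Ω, (∀ l, Tendsto (fun n => z n l) atTop (𝓝 (ζ l))) ∧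
      ∀ i, sys a s ζ i = b i := by
    refine exists_cpl k Ω fun W _ _ _ _ j hj => ?_
    have hc : ∀ l, ∃ w : W, Tendsto (fun n => j (z n l)) atTop (𝓝 w) := fun l =>
      cauchySeq_tendsto_of_complete (cauchySeq_of_le_geometric θ 1 hθ1 fun n => by
        rw [dist_eq_norm, ← map_sub, hj, one_mul]; exact hz2 n l)
    choose w hw using hc
    have hw1 : ∀ l, ‖w l - 1‖ ≤ ρ := fun l =>
      le_of_tendsto' ((hw l).sub_const 1).norm fun n => by
        rw [← map_one j, ← map_sub, hj]; exact hz1 n l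
    have hw0 : ∀ l, w l ≠ 0 := fun l =>
      ne_zero_of_norm_eq_one (norm_eq_one_of ((hw1 l).trans_lt hρ1))
    have hmap : ∀ (v : ι → Ω) (i : ι),
        j (sys a s v i) = sys (fun i t => j (a i t)) s (fun l => j (v l)) i := fun v i => by
      simp only [sys, map_sum, map_mul, map_prod, map_zpow₀]
    have hlim : ∀ i, sys (fun i t => j (a i t)) s w i = j (b i) := fun i => by
      have h1 : Tendsto (fun n => j (sys a s (z n) i)) atTop
          (𝓝 (sys (fun i t => j (a i t)) s w i)) := by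
        simp only [hmap]
        exact tendsto_finsetSum _ fun t _ => Tendsto.const_mul _
          (tendsto_finsetProd _ fun l _ => (hw l).zpow₀ _ (Or.inl (hw0 l)))
      refine tendsto_nhds_unique h1 (tendsto_iff_norm_sub_tendsto_zero.2 ?_)
      refine squeeze_zero (fun _ => norm_nonneg _) (fun n => ?_) hθ
      rw [← map_sub, hj]; exact hz3 n i
    have hsum : ∀ i, j (b i) = ∑ t, β i t • ∏ l, (j (ε l) * w l) ^ s t l := fun i => by
      rw [← hlim, sys]
      refine Finset.sum_congr rfl fun t _ => ?_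
      simp only [ha, map_smul, map_prod, map_zpow₀, mul_zpow, Finset.prod_mul_distrib,
        smul_mul_assoc]
    have halg : ∀ l, ∃ x, j x = j (ε l) * w l := fun l => by
      refine mem_range_of_alg j (alg_mono (M := adjoin k (Set.range fun i => j (b i))) ?_
        (alg_of_card (fun l => j (ε l) * w l) _ (hind.map' j.injective) (fun i => ?_) l))
      · exact adjoin_le_iff.2 (by rintro _ ⟨i, rfl⟩; exact ⟨b i, rfl⟩)
      · refine isAlgebraic_algebraMap (⟨j (b i), ?_⟩ : adjoin k (Set.range _))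
        rw [hsum]
        exact sum_mem fun t _ => IntermediateField.smul_mem _
          (prod_mem fun l _ => zpow_mem (subset_adjoin _ _ (Set.mem_range_self l)) _)
    choose x hx using halg
    have hx' : ∀ l, j (x l / ε l) = w l := fun l => by
      rw [map_div₀, hx, mul_div_cancel_left₀ _ ((map_ne_zero j).2 (hε l).2)]
    refine ⟨fun l => x l / ε l, fun l => ?_, fun i => j.injective ?_⟩
    · have h1 := tendsto_iff_norm_sub_tendsto_zero.1 (hw l)
      simp only [← hx', ← map_sub, hj] at h1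
      exact tendsto_iff_norm_sub_tendsto_zero.2 h1
    · show j _ = j _
      rw [hmap, ← hlim]
      simp only [hx']
  have hζ1 : ∀ l, ‖ζ l - 1‖ ≤ ρ := fun l =>
    le_of_tendsto' ((hζ l).sub_const 1).norm fun n => hz1 n l
  have hζn : ∀ l, ‖ζ l‖ = 1 := fun l => norm_eq_one_of ((hζ1 l).trans_lt hρ1)
  have hsum : ∀ i, b i = ∑ t, β i t • ∏ l, (ε l * ζ l) ^ s t l := fun i => by
    rw [← hsys, sys]
    refine Finset.sum_congr rfl fun t _ => ?_
    simp only [ha, mul_zpow, Finset.prod_mul_distrib, smul_mul_assoc]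
  refine ⟨fun l => ε l * ζ l, fun l => ⟨⟨?_, ?_⟩, by rw [norm_mul, hζn, mul_one]⟩, hsum⟩
  · set E := adjoin k (Set.range fun l => ε l * ζ l) with hE
    have he : ∀ l, ε l * ζ l ∈ E ∧ ε l * ζ l ≠ 0 := fun l =>
      ⟨subset_adjoin _ _ ⟨l, rfl⟩, mul_ne_zero (hε l).2 (ne_zero_of_norm_eq_one (hζn l))⟩
    have hmE : ∀ t, ∏ l, (ε l * ζ l) ^ s t l ∈ E := fun t =>
      prod_mem fun l _ => zpow_mem (he l).1 _
    have hbE : Set.range b ⊆ E := by
      rintro _ ⟨i, rfl⟩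
      rw [hsum]
      exact sum_mem fun t _ => E.smul_mem (hmE t)
    have h1 := sep_crit E (fg_adjoin_of_finite (Set.finite_range _)) _ _ (subset_adjoin _ _) hbE
      (sepOver_self _) fun D hD h0 => ?_
    · exact isSeparable_of_le (adjoin_le_iff.2 (by rintro _ ⟨i, rfl⟩; exact hb i))
        (h1 _ (he l).1)
    have h2 : (fun l => D (ε l * ζ l) / (ε l * ζ l)) = 0 := by
      refine jac_inj ha1 s (m := fun t => ∏ l, ζ l ^ s t l) hρ0 hρJ (fun t =>
        (tri_mon hρ0 le_rfl hρ1 hζ1 hζ1 (by simp) (s t)).h1) (funext fun i => ?_)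
      have h3 := h0 _ ⟨i, rfl⟩
      rw [hsum, hD.sum _ _ fun t _ => E.smul_mem (hmE t)] at h3
      rw [Pi.zero_apply, ← h3]
      simp only [jac, Matrix.mulVec, dotProduct, Matrix.of_apply, Finset.sum_mul]
      rw [Finset.sum_comm]
      refine Finset.sum_congr rfl fun t _ => ?_
      rw [Algebra.smul_def, hD.alg_mul _ (hmE t), der_mon hD _ he, Finset.mul_sum, Finset.mul_sum]
      refine Finset.sum_congr rfl fun l _ => ?_
      simp only [ha, Algebra.smul_def, mul_zpow, Finset.prod_mul_distrib]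
      ring
    rintro _ ⟨l, rfl⟩
    exact (div_eq_zero_iff.1 (congrFun h2 l)).resolve_right (he l).2
  · exact mem_closure_of_tendsto ((hζ l).const_mul (ε l))
      (Eventually.of_forall fun n => K.mul_mem (hε l).1 (hzK n l))

end Pool.Agent.MP_19ffc6_ag.LU3
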